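import Pool.Agent.Lib.MP_dee342_nt.CountMain

/-! Few integers stay large for twice their length many steps. -/

set_option autoImplicit false

namespace Pool.Agent.Lib.MP_dee342_nt.Ab

open Finset Real Pool.Agent.Lib.MP_dee342_nt.Count

theorem bad_count : ∃ m ≥ 1, ∃ d > 0, ∃ C ≥ 0, ∀ (l : ℕ) (A : Finset ℤ),
    (∀ a ∈ A, |a| ≤ 2 ^ l ∧ ∀ j ≤ 2 * l, 2 ^ (l - l / m) < |(T 3)^[j] a|) →
      (A.card : ℝ) ≤ C * exp ((binEntropy (log 2 / log 3) - d) * l) := by
  have l2 := log_pos (one_lt_two (α := ℝ))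
  have l3 : log 2 < log 3 := log_lt_log (by norm_num) (by norm_num)
  have l4 : log 3 < 2 * log 2 := by
    have := log_lt_log (show (0 : ℝ) < 3 by norm_num) (show (3 : ℝ) < 2 ^ 2 by norm_num)
    rwa [log_pow] at this
  set θ := log 2 / log 3 with hθ
  have l5 : log 2 = θ * log 3 := by rw [hθ, div_mul_cancel₀ _ (l2.trans l3).ne']
  have h1 : θ < 1 := (div_lt_one (l2.trans l3)).mpr l3
  have h2 : 1 / 2 < θ := by rw [hθ, lt_div_iff₀ (l2.trans l3)]; linarith
  have h0 : 0 < θ := by linarith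
  have hl : 0 ≤ log θ - log (1 - θ) := sub_nonneg.mpr (log_le_log (by linarith) (by linarith))
  have hH := binEntropy_pos h0 h1
  obtain ⟨G, hG, T', hT, δ, hδ, C, hC, h⟩ := core (a := 3) (by decide) le_rfl h0 h1
    (binEntropy_lt_log_two.mpr (by linarith [h2.ne', one_div (2 : ℝ)] : θ ≠ 2⁻¹)) 2
  obtain ⟨m, hm⟩ := exists_nat_ge (max 9 (2 * (log θ - log (1 - θ)) / δ))
  have hm9 : (9 : ℝ) ≤ m := le_of_max_le_left hm
  have hm9' : 9 ≤ m := by exact_mod_cast hm9
  have hm2 : 2 * (log θ - log (1 - θ)) ≤ m * δ := (div_le_iff₀ hδ).mp (le_of_max_le_right hm)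
  obtain ⟨E, hE0⟩ : ∃ E, E = G * T' := ⟨_, rfl⟩
  have hE : 1 ≤ E := hE0 ▸ Nat.mul_pos hG (by omega)
  set H := binEntropy θ
  have hδ' : min δ (H / 2) < H := (min_le_right _ _).trans_lt (by linarith)
  refine ⟨2 * m, by omega, min δ (H / 2), lt_min hδ (by linarith),
    3 * 2 ^ (2 * m * E) + C * exp ((H - min δ (H / 2)) * E), by positivity, fun l A hA => ?_⟩
  have hl0 : (0 : ℝ) ≤ l := by positivity
  rw [add_mul]
  rcases le_total l (2 * m * E) with hD | hD
  · refine (card_box l _ fun n hn => (hA n hn).1).trans (le_add_of_le_of_nonneg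
      (le_trans ?_ (le_mul_of_one_le_right (by positivity)
        (one_le_exp (mul_nonneg (by linarith) hl0)))) (by positivity))
    exact mul_le_mul_of_nonneg_left (pow_le_pow_right₀ one_le_two hD) (by norm_num)
  refine le_add_of_nonneg_of_le (by positivity) ?_
  obtain ⟨D, hD0⟩ : ∃ D, D = l / E + 1 := ⟨_, rfl⟩
  obtain ⟨L, hL⟩ : ∃ L, L = E * D := ⟨_, rfl⟩
  obtain ⟨L', hL'⟩ : ∃ L', L' = l - l / (2 * m) := ⟨_, rfl⟩
  have e1 : G * (D * T') = L := by rw [hL, hE0]; ring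
  have f1 : l ≤ L := by rw [hL, hD0]; exact (Nat.lt_mul_div_succ l hE).le
  have f2 : L ≤ l + E := by rw [hL, hD0, mul_add, mul_one]; exact Nat.add_le_add_right (Nat.mul_div_le _ _) _
  have f3 : 18 * E ≤ l := le_trans (Nat.mul_le_mul_right E (by omega)) hD
  have f4 : m ≤ l := le_trans (by nlinarith) hD
  have f1' : (l : ℝ) ≤ L := by exact_mod_cast f1
  have f2' : (L : ℝ) ≤ l + E := by exact_mod_cast f2
  have e2 : (m : ℝ) ≤ L := by exact_mod_cast f4.trans f1
  have e3 : (L : ℝ) ≤ L' + L / m := by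
    have a1 := (div_real l (2 * m) (by omega)).1
    have a2 : (2 * m * E : ℝ) ≤ l := by exact_mod_cast hD
    have a3 : (E : ℝ) ≤ l / m / 2 := by
      rw [div_div, le_div_iff₀ (by positivity)]; linarith
    have a4 : (l : ℝ) / m ≤ L / m := by gcongr
    have a5 : (l : ℝ) / (2 * m : ℕ) = l / m / 2 := by push_cast; rw [div_div, mul_comm]
    rw [hL', Nat.cast_sub (Nat.div_le_self _ _)]
    linarith
  have e4 : (L : ℝ) / m ≤ L / 9 := div_le_div_of_nonneg_left (by positivity) (by norm_num) hm9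
  have e5 : (0 : ℝ) ≤ L / m := by positivity
  have key : ∀ j : ℕ, L ≤ j → 2 * j ≤ 3 * L → ∀ n : ℤ, |n| ≤ 2 ^ L → 2 ^ L' < |(T 3)^[j] n| →
      exp (-(H + δ) * j) ≤ wn θ (3 : ℕ) j n := by
    intro j hj1 hj2 n hn1 hn2
    have hj1' : (L : ℝ) ≤ j := by exact_mod_cast hj1
    have hj2' : 2 * (j : ℝ) ≤ 3 * L := by exact_mod_cast hj2
    refine wn_ge h0 h1 _ j n ?_
    have h5 := drop (a := 3) (by decide) le_rfl hn1 hn2.le
    generalize (cnt (wd (3 : ℕ) j n) : ℝ) = k at h5 ⊢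
    rw [Nat.cast_ofNat, l5] at h5
    have h6 : θ * j - k ≤ L / m + 1 := by
      rcases h5 with h5 | h5
      · have h7 : (j + L') * θ ≤ k + (L + 1) * θ :=
          le_of_mul_le_mul_right (by linarith) (l2.trans l3)
        linarith [mul_le_mul_of_nonneg_right e3 h0.le,
          mul_le_mul_of_nonneg_left h1.le (add_nonneg e5 zero_le_one)]
      · have h7 : (k + L') * θ ≤ k + θ := le_of_mul_le_mul_right (by linarith) (l2.trans l3)
        by_contra h8
        have h9 := mul_le_mul_of_nonneg_right (show k ≤ θ * j by linarith) (sub_nonneg.mpr h1.le)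
        have h10 : (L' : ℝ) - 1 ≤ j * (1 - θ) := le_of_mul_le_mul_right (by linarith) h0
        linarith [mul_lt_mul_of_pos_left h2 (show (0 : ℝ) < j by linarith)]
    refine (mul_le_mul_of_nonneg_right h6 hl).trans (le_trans ?_
      (mul_le_mul_of_nonneg_left hj1' hδ.le))
    have h7 := mul_le_mul_of_nonneg_left hm2 e5
    rw [← mul_assoc, ← mul_assoc, div_mul_cancel₀ _ (by linarith)] at h7
    linarith [mul_le_mul_of_nonneg_right e2 hδ.le]
  obtain ⟨N, hN⟩ : ∃ N, N = G * (D * (T' + 1)) := ⟨_, rfl⟩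
  have e6 : L ≤ N ∧ 2 * N ≤ 3 * L := by
    have := Nat.mul_le_mul_left (G * D) hT
    have e7 : N = L + G * D := by rw [hN, ← e1]; ring
    have e8 : L = G * D * T' := by rw [← e1]; ring
    omega
  have h5 := h D (hD0 ▸ Nat.le_add_left 1 _) A fun n hn => by
    have h6 := (hA n hn).1.trans (pow_le_pow_right₀ one_le_two f1)
    have h7 := (hA n hn).2
    rw [← hL'] at h7
    rw [e1, ← hN]
    exact ⟨h6, key L le_rfl (by omega) n h6 (h7 _ (by omega)), key N e6.1 e6.2 n h6 (h7 _ (by omega))⟩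
  rw [e1] at h5
  refine h5.trans ?_
  rw [mul_assoc, ← exp_add, ← mul_add]
  refine mul_le_mul_of_nonneg_left (exp_le_exp.2 ?_) hC
  calc _ ≤ (H - min δ (H / 2)) * L :=
        mul_le_mul_of_nonneg_right (by linarith [min_le_left δ (H / 2)]) (by positivity)
    _ ≤ _ := mul_le_mul_of_nonneg_left (by linarith) (by linarith)

end Pool.Agent.Lib.MP_dee342_nt.Ab
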