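import Mathlib

/-! Record minima of a sequence of natural numbers. -/

set_option autoImplicit false

namespace Pool.Agent.Lib.MP_dee342_nt.Ab

/-- The value at `r` is least among the values up to `r`. -/
def Rec (h : ℕ → ℕ) (r : ℕ) : Prop := ∀ t ≤ r, h r ≤ h t

/-- The sequence drops by a definite factor soon after `r`. -/
def Good (ρ : ℝ) (h : ℕ → ℕ) (r : ℕ) : Prop :=
  ∃ j ≤ 2 * Nat.clog 2 (h r), (h (r + j) : ℝ) ≤ h r * ρ ^ (2 * Nat.clog 2 (h r))

variable {ρ : ℝ} {h : ℕ → ℕ}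

theorem half_pow_le (h0 : 0 ≤ ρ) (h1 : ρ ≤ 1) {c k u : ℕ} (hc : 1 / 2 ≤ ρ ^ c) (hk : k ≤ c * u) :
    1 ≤ 2 ^ u * ρ ^ k :=
  calc (1 : ℝ) = 2 ^ u * (1 / 2) ^ u := by rw [← mul_pow]; norm_num
    _ ≤ 2 ^ u * (ρ ^ c) ^ u := by gcongr
    _ ≤ _ := by
      rw [← pow_mul]
      exact mul_le_mul_of_nonneg_left (pow_le_pow_of_le_one h0 h1 hk) (by positivity)

theorem exists_min (h : ℕ → ℕ) (i : ℕ) : ∃ r ≤ i, ∀ t ≤ i, h r ≤ h t := by
  obtain ⟨r, hr, h1⟩ := (Finset.range (i + 1)).exists_min_image h ⟨0, by simp⟩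
  exact ⟨r, Nat.lt_succ_iff.1 (Finset.mem_range.1 hr), fun t ht =>
    h1 t (Finset.mem_range.2 (Nat.lt_succ_iff.2 ht))⟩

theorem drop_lt (h0 : 0 ≤ ρ) (h1 : ρ < 1) {x : ℕ} (hx : 1 < x) :
    (x : ℝ) * ρ ^ (2 * Nat.clog 2 x) < x :=
  mul_lt_of_lt_one_right (by exact_mod_cast (by omega : 0 < x))
    (pow_lt_one₀ h0 h1 (by have := Nat.clog_pos one_lt_two hx; omega))

theorem chain (h0 : 0 ≤ ρ) (h1 : ρ < 1) (h4 : 1 / 2 ≤ ρ ^ 4) {s : ℕ} (hs : Rec h s) (hs1 : 1 < h s)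
    (hg : ∀ r < s, Rec h r → Good ρ h r) :
    ∀ i ≤ s, (h s : ℝ) ≤ h i * ρ ^ (s - i - 4 * (Nat.clog 2 (h s) + 1)) := by
  classical
  obtain ⟨l₁, hl⟩ : ∃ l₁, l₁ = 4 * (Nat.clog 2 (h s) + 1) := ⟨_, rfl⟩
  rw [← hl]
  have key : ∀ d r, r + d = s → Rec h r → (h s : ℝ) ≤ h r * ρ ^ (d - l₁) := fun d => by
    induction d using Nat.strong_induction_on with
    | _ d ih =>
      intro r hd hr
      have a0 := hs r (by omega)
      rcases le_or_gt d l₁ with a1 | a1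
      · rw [Nat.sub_eq_zero_of_le a1, pow_zero, mul_one]
        exact_mod_cast a0
      obtain ⟨j, hj, a2⟩ := hg r (by omega) hr
      have ex : ∃ t, (h t : ℝ) ≤ h r * ρ ^ (2 * Nat.clog 2 (h r)) := ⟨_, a2⟩
      have a3 := Nat.find_spec ex
      have a4 : Nat.find ex ≤ r + j := Nat.find_le a2
      have a5 : ∀ t < Nat.find ex, ¬ _ := fun t => Nat.find_min ex
      generalize Nat.find ex = r' at a3 a4 a5
      have a6 : r < r' := by
        by_contra c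
        have : (h r : ℝ) ≤ h r' := by exact_mod_cast hr r' (not_lt.1 c)
        linarith [drop_lt h0 h1 (hs1.trans_le a0)]
      rcases le_or_gt r' s with a7 | a7
      · have a8 := ih (s - r') (by omega) r' (by omega) fun t ht => by
          rcases ht.eq_or_lt with rfl | ht
          · exact le_rfl
          · exact_mod_cast (a3.trans (not_le.1 (a5 t ht)).le : (h r' : ℝ) ≤ h t)
        calc _ ≤ h r * ρ ^ (2 * Nat.clog 2 (h r)) * ρ ^ (s - r' - l₁) :=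
              a8.trans (mul_le_mul_of_nonneg_right a3 (by positivity))
          _ ≤ _ := by
            rw [mul_assoc, ← pow_add]
            exact mul_le_mul_of_nonneg_left (pow_le_pow_of_le_one h0 h1.le (by omega))
              (by positivity)
      · have b1 := half_pow_le h0 h1.le (k := d - l₁) (u := (Nat.clog 2 (h r) + 1) / 2) h4 (by omega)
        have b2 : h s * 2 ^ ((Nat.clog 2 (h r) + 1) / 2) ≤ h r :=
          calc _ ≤ 2 ^ Nat.clog 2 (h s) * 2 ^ ((Nat.clog 2 (h r) + 1) / 2) :=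
                Nat.mul_le_mul_right _ (Nat.le_pow_clog one_lt_two _)
            _ ≤ 2 ^ (Nat.clog 2 (h r)).pred := by
              rw [← pow_add]
              exact Nat.pow_le_pow_right two_pos (by rw [Nat.pred_eq_sub_one]; omega)
            _ ≤ _ := (Nat.pow_pred_clog_lt_self one_lt_two (hs1.trans_le a0)).le
        have b3 : (h s : ℝ) * 2 ^ ((Nat.clog 2 (h r) + 1) / 2) ≤ h r := by exact_mod_cast b2
        calc (h s : ℝ) ≤ h s * (2 ^ ((Nat.clog 2 (h r) + 1) / 2) * ρ ^ (d - l₁)) :=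
              le_mul_of_one_le_right (by positivity) b1
          _ ≤ _ := by rw [← mul_assoc]; gcongr
  intro i hi
  obtain ⟨r, hr, a1⟩ := exists_min h i
  refine (key (s - r) r (by omega) fun t ht => a1 t (ht.trans hr)).trans (mul_le_mul ?_
    (pow_le_pow_of_le_one h0 h1.le (by omega)) (by positivity) (by positivity))
  exact_mod_cast a1 i le_rfl

theorem exists_bad (h0 : 0 ≤ ρ) (h1 : ρ < 1) (h4 : 1 / 2 ≤ ρ ^ 4) {q L : ℕ} (hq : 3 * ρ ^ q ≤ 1)
    (hL : h 0 ≤ 2 ^ L) (hJ : ∀ i ≤ q * (L + 1) + 6 * L + 4, 1 < h i) :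
    ∃ s ≤ q * (L + 1) + 6 * L + 4, ¬ Good ρ h s ∧
      ∀ i ≤ s, (h s : ℝ) ≤ h i * ρ ^ (s - i - 4 * (Nat.clog 2 (h s) + 1)) := by
  classical
  have ex : ∃ s, s ≤ q * (L + 1) + 6 * L + 4 ∧ Rec h s ∧ ¬ Good ρ h s := by
    by_contra c
    have hg : ∀ r ≤ q * (L + 1) + 6 * L + 4, Rec h r → Good ρ h r := fun r a1 a2 =>
      by_contra fun a3 => c ⟨r, a1, a2, a3⟩
    obtain ⟨s, hs, a1⟩ := exists_min h (q * (L + 1) + 6 * L + 4)
    have a2 : Rec h s := fun t ht => a1 t (ht.trans hs)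
    obtain ⟨j, hj, a3⟩ := hg s hs a2
    have a4 : q * (L + 1) + 6 * L + 4 < s + j := by
      by_contra c
      have : (h s : ℝ) ≤ h (s + j) := by exact_mod_cast a1 _ (not_lt.1 c)
      linarith [drop_lt h0 h1 (hJ s hs)]
    have a5 : Nat.clog 2 (h s) ≤ L :=
      Nat.clog_le_of_le_pow ((a2 0 (Nat.zero_le _)).trans hL)
    have a6 := chain h0 h1 h4 a2 (hJ s hs) (fun r hr => hg r (by omega)) 0 (Nat.zero_le _)
    have a7 : (1 : ℝ) < h s := by exact_mod_cast hJ s hs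
    have a8 : (h 0 : ℝ) ≤ 2 ^ L := by exact_mod_cast hL
    refine absurd (a7.trans_le a6) (not_lt.2 ?_)
    calc _ ≤ 3 ^ (L + 1) * ρ ^ (q * (L + 1)) := by
          refine mul_le_mul (a8.trans ?_) (pow_le_pow_of_le_one h0 h1.le (by omega))
            (by positivity) (by positivity)
          exact (pow_le_pow_left₀ (by norm_num) (by norm_num) _).trans
            (pow_le_pow_right₀ (by norm_num) (Nat.le_succ _))
      _ = (3 * ρ ^ q) ^ (L + 1) := by rw [pow_mul, mul_pow]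
      _ ≤ 1 := pow_le_one₀ (by positivity) hq
  obtain ⟨a1, a2, a3⟩ := Nat.find_spec ex
  exact ⟨_, a1, a3, chain h0 h1 h4 a2 (hJ _ a1) fun r hr a4 =>
    by_contra fun a5 => Nat.find_min ex hr ⟨hr.le.trans a1, a4, a5⟩⟩

/-- After a point that is not good the sequence stays large. -/
theorem not_good (h0 : 0 ≤ ρ) (h1 : ρ ≤ 1) {m s : ℕ} (hm : 1 ≤ m) (h4 : 1 / 2 ≤ ρ ^ (4 * m))
    (hl : 3 * m ≤ Nat.clog 2 (h s)) (hs : ¬ Good ρ h s) : ∀ j ≤ 2 * Nat.clog 2 (h s),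
      2 ^ (Nat.clog 2 (h s) - Nat.clog 2 (h s) / m) < h (s + j) := by
  intro j hj
  have a1 : (h s : ℝ) * ρ ^ (2 * Nat.clog 2 (h s)) < h (s + j) := not_le.1 fun c => hs ⟨j, hj, c⟩
  have a0 : 1 < h s := by
    by_contra c
    rw [Nat.clog_of_right_le_one (not_lt.1 c)] at hl
    omega
  have a2 := (Nat.pow_pred_clog_lt_self one_lt_two a0).le
  generalize Nat.clog 2 (h s) = l at *
  have a3 : 3 ≤ l / m := (Nat.le_div_iff_mul_le hm).2 hl
  have a4 := Nat.lt_mul_div_succ l hm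
  have a5 := Nat.div_le_self l m
  obtain ⟨u, hu⟩ : ∃ u, l / m = u + 1 := ⟨l / m - 1, by omega⟩
  rw [hu] at a3 a4 a5 ⊢
  have a6 := half_pow_le h0 h1 (k := 2 * l) (u := u) h4 (by nlinarith)
  have a7 : (2 : ℝ) ^ (l - (u + 1)) * 2 ^ u ≤ h s := by
    rw [← pow_add, show l - (u + 1) + u = l.pred by rw [Nat.pred_eq_sub_one]; omega]
    exact_mod_cast a2
  have a8 : (2 : ℝ) ^ (l - (u + 1)) < h (s + j) :=
    calc _ ≤ 2 ^ (l - (u + 1)) * (2 ^ u * ρ ^ (2 * l)) := le_mul_of_one_le_right (by positivity) a6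
      _ ≤ h s * ρ ^ (2 * l) := by rw [← mul_assoc]; gcongr
      _ < _ := a1
  exact_mod_cast a8

end Pool.Agent.Lib.MP_dee342_nt.Ab
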