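import Mathlib

/-!
The `a x + 1` map on the integers and the parity words of its orbits.
-/

set_option autoImplicit false

namespace Pool.Agent.Lib.MP_dee342_nt

/-- The map `T_a`: `x / 2` for even `x`, and `(a x + 1) / 2` for odd `x`. -/
def T (a : ℤ) (x : ℤ) : ℤ := if x % 2 = 0 then x / 2 else (a * x + 1) / 2

/-- The parities of `x, T x, …, T^(n-1) x`. -/
def parWord (a : ℤ) (n : ℕ) (x : ℤ) : Fin n → ℤ := fun j => (T a)^[j] x % 2

/-- The number of distinct parity words of length `n` read along the orbit of `x`. -/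
noncomputable def complexity (a : ℤ) (x : ℤ) (n : ℕ) : ℕ :=
  {w | ∃ i : ℕ, w = parWord a n ((T a)^[i] x)}.ncard

end Pool.Agent.Lib.MP_dee342_nt
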