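import Pool.Agent.Lib.MP_dee342_nt.CountPath
import Pool.Agent.Lib.MP_dee342_nt.Defs

/-! Parity words, their weights, and the residue class of a word. -/

set_option autoImplicit false

namespace Pool.Agent.Lib.MP_dee342_nt.Count

open Finset

/-- The number of ones of a word. -/
def cnt {G : ℕ} (v : Fin G → Bool) : ℕ := ∑ i, if v i then 1 else 0

/-- The Bernoulli weight of a word. -/
def wt (p : ℝ) {G : ℕ} (v : Fin G → Bool) : ℝ := ∏ i, if v i then p else 1 - p

/-- The additive term of `2^G T^G` along a word. -/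
def phi (a : ℤ) : (G : ℕ) → (Fin G → Bool) → ℤ
  | 0, _ => 0
  | G + 1, v => (if v 0 then a ^ cnt (Fin.tail v) else 0) + 2 * phi a G (Fin.tail v)

/-- The parity word of `y` of length `G`. -/
def wd (a : ℤ) (G : ℕ) (y : ℤ) : Fin G → Bool := fun i => decide ((T a)^[i] y % 2 = 1)

/-- The parity word of `y` cut into `B` blocks of length `G`. -/
def bw (a : ℤ) (G B : ℕ) (y : ℤ) : Fin B → Fin G → Bool := fun b => wd a G ((T a)^[G * b] y)

/-- The weight of the parity word of `y` of length `j`. -/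
def wn (p : ℝ) (a : ℤ) (j : ℕ) (y : ℤ) : ℝ :=
  ∏ i ∈ range j, if (T a)^[i] y % 2 = 1 then p else 1 - p

/-- Extension of a finite path by zero. -/
def ex {B : ℕ} (σ : Fin B → ℕ) (b : ℕ) : ℕ := if h : b < B then σ ⟨b, h⟩ else 0

/-- Minus the residue class of a block word. -/
def Phi (a u : ℤ) {G B : ℕ} (w : Fin B → Fin G → Bool) : ℤ :=
  ∑ b : Fin B, phi a G (w b) * (u ^ PS (ex fun b => cnt (w b)) (b + 1) * 2 ^ (G * b))

theorem cnt_succ {G : ℕ} (v : Fin (G + 1) → Bool) :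
    cnt v = (if v 0 then 1 else 0) + cnt (Fin.tail v) := Fin.sum_univ_succ _

theorem cnt_le {G : ℕ} (v : Fin G → Bool) : cnt v ≤ G :=
  (sum_le_card_nsmul _ _ 1 fun i _ => by split_ifs <;> omega).trans (by simp)

theorem wt_eq (p : ℝ) {G : ℕ} (v : Fin G → Bool) : wt p v = p ^ cnt v * (1 - p) ^ (G - cnt v) := by
  induction G with
  | zero => simp [wt, cnt]
  | succ G ih =>
    have h1 : wt p v = (if v 0 then p else 1 - p) * wt p (Fin.tail v) := Fin.prod_univ_succ _
    have h2 := cnt_le (Fin.tail v)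
    rw [h1, ih, cnt_succ]
    split_ifs
    · rw [show G + 1 - (1 + cnt (Fin.tail v)) = G - cnt (Fin.tail v) by omega]
      ring
    · rw [show G + 1 - (0 + cnt (Fin.tail v)) = G - cnt (Fin.tail v) + 1 by omega]
      ring

theorem wt_nonneg {p : ℝ} (h0 : 0 ≤ p) (h1 : p ≤ 1) {G : ℕ} (v : Fin G → Bool) : 0 ≤ wt p v :=
  prod_nonneg fun i _ => by split_ifs <;> linarith

theorem sum_wt (p : ℝ) (G : ℕ) : ∑ v : Fin G → Bool, wt p v = 1 := by
  have h := prod_univ_sum (fun _ : Fin G => (univ : Finset Bool))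
    (fun _ x => if x then p else 1 - p)
  rw [Fintype.piFinset_univ] at h
  simp only [wt]
  rw [← h]
  simp

theorem tail_wd (a : ℤ) (G : ℕ) (y : ℤ) : Fin.tail (wd a (G + 1) y) = wd a G (T a y) := by
  rfl

theorem two_T {a : ℤ} (ha : Odd a) (y : ℤ) :
    2 * T a y = if y % 2 = 1 then a * y + 1 else y := by
  obtain ⟨k, rfl⟩ := ha
  rcases Int.emod_two_eq_zero_or_one y with h | h
  · rw [T, if_pos h, if_neg (by omega)]
    omega
  · rw [T, if_neg (by omega), if_pos h]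
    obtain ⟨m, rfl⟩ : ∃ m, y = 2 * m + 1 := ⟨y / 2, by omega⟩
    rw [show (2 * k + 1) * (2 * m + 1) + 1 = 2 * (2 * k * m + k + m + 1) by ring,
      Int.mul_ediv_cancel_left _ (by norm_num)]

theorem iter_eq {a : ℤ} (ha : Odd a) (G : ℕ) (y : ℤ) :
    2 ^ G * (T a)^[G] y = a ^ cnt (wd a G y) * y + phi a G (wd a G y) := by
  induction G generalizing y with
  | zero => simp [phi, cnt]
  | succ G ih =>
    have h1 := two_T ha y
    have h2 : wd a (G + 1) y 0 = decide (y % 2 = 1) := rfl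
    rw [phi, cnt_succ, tail_wd, Function.iterate_succ_apply, h2]
    by_cases h : y % 2 = 1
    · rw [if_pos h] at h1
      simp only [h, decide_true, if_true]
      linear_combination 2 * ih (T a y) + a ^ cnt (wd a G (T a y)) * h1
    · rw [if_neg h] at h1
      simp only [h, decide_false, Bool.false_eq_true, if_false]
      linear_combination 2 * ih (T a y) + a ^ cnt (wd a G (T a y)) * h1

theorem dvd_Phi {a u : ℤ} (ha : Odd a) (G B : ℕ) (hu : (2 : ℤ) ^ (G * B) ∣ a * u - 1) (y : ℤ) :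
    (2 : ℤ) ^ (G * B) ∣ y + Phi a u (bw a G B y) := by
  set s := ex fun b => cnt (bw a G B y b) with hs
  let f : ℕ → ℤ := fun b =>
    phi a G (wd a G ((T a)^[G * b] y)) * (u ^ PS s (b + 1) * 2 ^ (G * b))
  have h1 : ∀ b ≤ B, (2 : ℤ) ^ (G * B) ∣
      y + ∑ i ∈ range b, f i - 2 ^ (G * b) * (T a)^[G * b] y * u ^ PS s b := by
    intro b hb
    induction b with
    | zero => simp [PS]
    | succ b ih =>
      obtain ⟨k, hk⟩ := ih (by omega)
      have h2 : PS s (b + 1) = PS s b + cnt (wd a G ((T a)^[G * b] y)) := by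
        rw [PS, sum_range_succ, hs, ex, dif_pos (show b < B from hb)]
        rfl
      have h3 := iter_eq ha G ((T a)^[G * b] y)
      obtain ⟨m, hm⟩ := dvd_pow_sub hu (cnt (wd a G ((T a)^[G * b] y)))
      refine ⟨k - 2 ^ (G * b) * (T a)^[G * b] y * u ^ PS s b * m, ?_⟩
      rw [sum_range_succ, Nat.mul_succ, add_comm (G * b) G, Function.iterate_add_apply]
      simp only [f]
      rw [h2, pow_add, pow_add]
      rw [mul_pow] at hm
      linear_combination hk - 2 ^ (G * b) * u ^ PS s b * u ^ cnt (wd a G ((T a)^[G * b] y)) * h3 -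
        2 ^ (G * b) * (T a)^[G * b] y * u ^ PS s b * hm
  have h2 : Phi a u (bw a G B y) = ∑ i ∈ range B, f i := Fin.sum_univ_eq_sum_range f B
  have h3 := (h1 B le_rfl).add (((dvd_refl ((2 : ℤ) ^ (G * B))).mul_right
    ((T a)^[G * B] y)).mul_right (u ^ PS s B))
  rwa [sub_add_cancel, ← h2] at h3

theorem exists_inv {a : ℕ} (ha : Odd a) (n : ℕ) : ∃ u : ℤ, (2 : ℤ) ^ n ∣ a * u - 1 := by
  obtain ⟨x, y, h⟩ := coprime_pow a ha 1 n
  exact ⟨y, -x, by linear_combination h⟩

theorem sum_bw_le {a : ℕ} (ha : Odd a) (G B : ℕ) (A : Finset ℤ)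
    (hA : ∀ n ∈ A, |n| ≤ 2 ^ (G * B)) (F : (Fin B → Fin G → Bool) → ℝ) (hF : ∀ w, 0 ≤ F w) :
    ∑ n ∈ A, F (bw a G B n) ≤ 3 * ∑ w, F w := by
  obtain ⟨u, hu⟩ := exists_inv ha (G * B)
  have h2 : (0 : ℤ) < 2 ^ (G * B) := by positivity
  have haz : Odd (a : ℤ) := by exact_mod_cast ha
  let g : ℤ → ℤ × (Fin B → Fin G → Bool) := fun n => (n / 2 ^ (G * B), bw a G B n)
  have hinj : Set.InjOn g A := by
    intro n _ m _ h
    have h3 : n / 2 ^ (G * B) = m / 2 ^ (G * B) := congrArg Prod.fst h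
    have h4 : bw a G B n = bw a G B m := congrArg Prod.snd h
    have h5 := (dvd_Phi haz G B hu m).sub (dvd_Phi haz G B hu n)
    rw [h4, add_sub_add_right_eq_sub] at h5
    have h6 : n % 2 ^ (G * B) = m % 2 ^ (G * B) := Int.modEq_iff_dvd.mpr h5
    rw [← Int.mul_ediv_add_emod n (2 ^ (G * B)), ← Int.mul_ediv_add_emod m (2 ^ (G * B)), h3, h6]
  calc _ = ∑ x ∈ A.image g, F x.2 := (sum_image (f := fun x => F x.2) hinj).symm
    _ ≤ ∑ x ∈ Icc (-1 : ℤ) 1 ×ˢ univ, F x.2 := by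
        refine sum_le_sum_of_subset_of_nonneg (fun x hx => ?_) fun _ _ _ => hF _
        obtain ⟨n, hn, rfl⟩ := mem_image.mp hx
        have h3 := abs_le.mp (hA n hn)
        exact mem_product.mpr ⟨mem_Icc.mpr ⟨Int.le_ediv_of_mul_le h2 (by omega),
          Int.ediv_le_of_le_mul h2 (by omega)⟩, mem_univ _⟩
    _ = _ := by
        rw [sum_product]
        simp only [sum_const, Int.card_Icc, nsmul_eq_mul]
        norm_num [Int.toNat]

theorem wt_wd (p : ℝ) (a : ℤ) (G : ℕ) (y : ℤ) : wt p (wd a G y) = wn p a G y := by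
  rw [wn, ← Fin.prod_univ_eq_prod_range (fun i => if (T a)^[i] y % 2 = 1 then p else 1 - p)]
  simp [wt, wd]

theorem prod_bw (p : ℝ) (a : ℤ) (G B : ℕ) (y : ℤ) :
    ∏ b, wt p (bw a G B y b) = wn p a (G * B) y := by
  have h : ∏ b, wt p (bw a G B y b) = ∏ b ∈ range B, wn p a G ((T a)^[G * b] y) := by
    rw [← Fin.prod_univ_eq_prod_range (fun b => wn p a G ((T a)^[G * b] y))]
    exact prod_congr rfl fun b _ => wt_wd ..
  rw [h]
  clear h
  induction B with
  | zero => simp [wn]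
  | succ B ih =>
    rw [prod_range_succ, ih, Nat.mul_succ, wn, wn, wn, prod_range_add]
    simp only [add_comm (G * B), Function.iterate_add_apply]

theorem sum_prod_wt (G B : ℕ) (f : Fin B → (Fin G → Bool) → ℝ) :
    ∑ w : Fin B → Fin G → Bool, ∏ b, f b (w b) = ∏ b, ∑ v, f b v := by
  rw [prod_univ_sum, Fintype.piFinset_univ]

theorem exists_cnt (G s : ℕ) (h : s ≤ G) : ∃ r : Fin G → Bool, cnt r = s := by
  induction G generalizing s with
  | zero => exact ⟨fun _ => true, by simp [cnt]; omega⟩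
  | succ G ih =>
    rcases s with _ | s
    · obtain ⟨r, hr⟩ := ih 0 (Nat.zero_le _)
      exact ⟨Fin.cons false r, by rw [cnt_succ, Fin.tail_cons, hr]; rfl⟩
    · obtain ⟨r, hr⟩ := ih s (by omega)
      exact ⟨Fin.cons true r, by rw [cnt_succ, Fin.tail_cons, hr, add_comm]; rfl⟩

theorem exists_pair (a : ℤ) (G s : ℕ) (h : ¬ (s = 0 ∨ s = G)) (hs : s ≤ G) :
    ∃ v v' : Fin G → Bool, v ≠ v' ∧ cnt v = s ∧ cnt v' = s ∧
      phi a G v' = phi a G v + a ^ (s - 1) := by
  obtain ⟨G, rfl⟩ : ∃ k, G = k + 1 + 1 := ⟨G - 2, by omega⟩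
  obtain ⟨s, rfl⟩ : ∃ k, s = k + 1 := ⟨s - 1, by omega⟩
  obtain ⟨r, hr⟩ := exists_cnt G s (by omega)
  refine ⟨Fin.cons true (Fin.cons false r), Fin.cons false (Fin.cons true r),
    fun h => by simpa using congrFun h 0, ?_, ?_, ?_⟩
  · simp only [cnt_succ, Fin.tail_cons, Fin.cons_zero, hr]
    simp [add_comm]
  · simp only [cnt_succ, Fin.tail_cons, Fin.cons_zero, hr]
    simp [add_comm]
  · simp only [phi, cnt_succ, Fin.tail_cons, Fin.cons_zero, hr]
    simp
    ring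

end Pool.Agent.Lib.MP_dee342_nt.Count
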