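import Pool.Agent.Lib.MP_dee342_nt.AbGreen
import Pool.Agent.Lib.MP_dee342_nt.CountWords

/-! The integers whose orbit has a given record minimum. -/

set_option autoImplicit false

namespace Pool.Agent.Lib.MP_dee342_nt.Ab

open Finset
open Pool.Agent.Lib.MP_76ba2b_nt (Str mem_Str ones off valid valid_iff ones_le)

/-- The parities of the first `L` iterates, last one first. -/
def bk : ℕ → ℤ → List Bool
  | 0, _ => []
  | L + 1, n => decide ((T 3)^[L] n % 2 = 1) :: bk L n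

theorem length_bk (L : ℕ) (n : ℤ) : (bk L n).length = L := by
  induction L with
  | zero => rfl
  | succ L ih => rw [bk, List.length_cons, ih]

theorem bk_eq (L : ℕ) (n : ℤ) : 3 ^ ones (bk L n) * n + off (bk L n) = 2 ^ L * (T 3)^[L] n := by
  induction L with
  | zero => simp [bk, ones, off]
  | succ L ih =>
    have h1 := Count.two_T (a := 3) (by decide) ((T 3)^[L] n)
    rw [bk, Function.iterate_succ_apply']
    by_cases h : (T 3)^[L] n % 2 = 1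
    · rw [if_pos h] at h1
      rw [decide_eq_true h, ones, off, length_bk]
      push_cast
      linear_combination 3 * ih - 2 ^ L * h1
    · rw [if_neg h] at h1
      rw [decide_eq_false h, ones, off]
      linear_combination ih - 2 ^ L * h1

theorem take_bk (i l : ℕ) (n : ℤ) : (bk (l + i) n).take l = bk l ((T 3)^[i] n) := by
  induction l with
  | zero => rfl
  | succ l ih =>
    rw [Nat.succ_add, bk, List.take_succ_cons, ih, bk, Function.iterate_add_apply]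

theorem bk_abs (L : ℕ) (n : ℤ) :
    abs ((3 : ℝ) ^ ones (bk L n) * |(n : ℝ)| - 2 ^ L * |(((T 3)^[L] n : ℤ) : ℝ)|) ≤ off (bk L n) := by
  have a : (3 : ℝ) ^ ones (bk L n) * n + off (bk L n) = 2 ^ L * ((T 3)^[L] n : ℤ) := by
    exact_mod_cast bk_eq L n
  have b := abs_abs_sub_abs_le ((3 : ℝ) ^ ones (bk L n) * n) (2 ^ L * ((T 3)^[L] n : ℤ))
  rwa [abs_mul, abs_mul, abs_of_pos (a := (3 : ℝ) ^ _) (by positivity),
    abs_of_pos (a := (2 : ℝ) ^ _) (by positivity), ← a, sub_add_cancel_left, abs_neg,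
    Nat.abs_cast] at b

variable {ρ : ℝ}

theorem bk_ok (h0 : 0 ≤ ρ) (h1 : ρ < 1) {l₁ s : ℕ} {n a : ℤ} (ha : (T 3)^[s] n = a) (a0 : a ≠ 0)
    (hT : ((l₁ + ⌈(1 - ρ)⁻¹⌉₊ : ℕ) : ℝ) * 2 ≤ |(a : ℝ)|)
    (h : ∀ i ≤ s, |(a : ℝ)| ≤ |(((T 3)^[i] n : ℤ) : ℝ)| * ρ ^ (s - i - l₁)) :
    Ok ρ l₁ (bk s n) ∧ 2 ^ s * |(a : ℝ)| ≤ 3 ^ ones (bk s n) * (2 * |(n : ℝ)|) := by
  have a1 : (0 : ℝ) < |(a : ℝ)| := abs_pos.2 (by exact_mod_cast a0)
  have ok : Ok ρ l₁ (bk s n) := fun l => by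
    induction l using Nat.strong_induction_on with
    | _ l ih =>
      intro hl
      have b1 := (off_take_le (r := fun i => ρ ^ (i - l₁)) l hl fun i hi =>
        ih i hi (hi.le.trans hl)).trans
        (mul_le_mul_of_nonneg_left (sum_rho h0 h1 l₁ l) (by positivity))
      rw [length_bk] at hl
      obtain ⟨i, rfl⟩ := Nat.exists_eq_add_of_le hl
      have b2 := (abs_le.1 (bk_abs l ((T 3)^[i] n))).2
      have b3 := h i (Nat.le_add_left _ _)
      rw [← Function.iterate_add_apply, ha] at b2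
      rw [Nat.add_sub_cancel] at b3
      rw [take_bk] at b1 ⊢
      have b4 : (0 : ℝ) < |(((T 3)^[i] n : ℤ) : ℝ)| :=
        (abs_nonneg _).lt_of_ne fun c => by rw [← c, zero_mul] at b3; linarith
      have b5 := mul_le_mul_of_nonneg_left hT (show (0 : ℝ) ≤ 2 ^ l by positivity)
      have b6 := mul_le_mul_of_nonneg_left b3 (show (0 : ℝ) ≤ 2 ^ l by positivity)
      have b7 : (0 : ℝ) ≤ 2 ^ l * |(a : ℝ)| := by positivity
      exact le_of_mul_le_mul_right (by linarith) b4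
  refine ⟨ok, ?_⟩
  have b1 : (off (bk s n) : ℝ) ≤ (l₁ + ⌈(1 - ρ)⁻¹⌉₊ : ℕ) * 2 ^ s := by
    have := ok.off_le h0 h1
    rw [length_bk] at this
    exact_mod_cast this
  have b2 := (abs_le.1 (bk_abs s n)).1
  have b5 := mul_le_mul_of_nonneg_left hT (show (0 : ℝ) ≤ 2 ^ s by positivity)
  rw [ha] at b2
  linarith

theorem bk_valid {s J : ℕ} (hs : s ≤ J) (n : ℤ) :
    valid (bk s n) ((T 3)^[s] n % 3 ^ J).toNat := by
  rw [valid_iff, Nat.modEq_iff_dvd, length_bk]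
  push_cast
  rw [Int.toNat_of_nonneg (Int.emod_nonneg _ (by positivity))]
  obtain ⟨e, he⟩ := Nat.exists_eq_add_of_le (((ones_le (bk s n)).trans (length_bk s n).le).trans hs)
  refine ⟨2 ^ s * 3 ^ e * ((T 3)^[s] n / 3 ^ J) - n, ?_⟩
  rw [Int.emod_def, he, pow_add]
  linear_combination bk_eq s n

theorem fiber (h0 : 0 ≤ ρ) (h1 : ρ < 1) {q : ℕ} (hq1 : 1 ≤ q) (hq : 3 * ρ ^ q ≤ 1) :
    ∃ C : ℝ, 0 ≤ C ∧ ∀ (a : ℤ) (l₁ J : ℕ) (x : ℝ) (A : Finset ℤ), 0 < x → a ≠ 0 →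
      ((l₁ + ⌈(1 - ρ)⁻¹⌉₊ : ℕ) : ℝ) * 2 ≤ |(a : ℝ)| →
      (∀ n ∈ A, |(n : ℝ)| ≤ x ∧ ∃ s ≤ J, (T 3)^[s] n = a ∧
        ∀ i ≤ s, |(a : ℝ)| ≤ |(((T 3)^[i] n : ℤ) : ℝ)| * ρ ^ (s - i - l₁)) →
      (A.card : ℝ) ≤ C * ((l₁ : ℝ) + 1) ^ 3 * (2 * x / |(a : ℝ)|) := by
  classical
  obtain ⟨C, hC, h⟩ := card_words h0 h1 hq1 hq
  refine ⟨C, hC, fun a l₁ J x A hx a0 hT hA => ?_⟩
  have a1 : (0 : ℝ) < |(a : ℝ)| := abs_pos.2 (by exact_mod_cast a0)
  refine le_trans ?_ (h l₁ (a % 3 ^ J).toNat (J + 1) _ (by positivity))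
  choose! hx s hs ha hi using hA
  rw [card_eq_sum_card_fiberwise (f := s) (t := range (J + 1)) fun n hn =>
    mem_coe.2 (mem_range.2 (Nat.lt_succ_iff.2 (hs n hn))), Nat.cast_sum]
  refine sum_le_sum fun t _ => Nat.cast_le.2 (card_le_card_of_injOn (bk t) (fun n hn => ?_)
    fun n hn n' hn' e => ?_)
  · obtain ⟨hn, e⟩ := mem_filter.1 (mem_coe.1 hn)
    rw [← e]
    obtain ⟨b1, b2⟩ := bk_ok h0 h1 (ha n hn) a0 hT (hi n hn)
    refine mem_coe.2 (mem_filter.2 ⟨mem_Str.2 (length_bk _ _), b1, ha n hn ▸ bk_valid (hs n hn) n, ?_⟩)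
    rw [← mul_div_assoc, le_div_iff₀ a1]
    exact b2.trans (by have := hx n hn; gcongr)
  · obtain ⟨hn, b1⟩ := mem_filter.1 (mem_coe.1 hn)
    obtain ⟨hn', b2⟩ := mem_filter.1 (mem_coe.1 hn')
    have b3 := bk_eq t n
    have b4 := bk_eq t n'
    rw [e, ← b1, ha n hn, b1] at b3
    rw [← b2, ha n' hn', b2, ← b3] at b4
    exact (mul_left_cancel₀ (by positivity) (add_right_cancel b4)).symm

end Pool.Agent.Lib.MP_dee342_nt.Ab
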