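import Pool.Agent.Lib.MP_dee342_nt.AbLink
import Pool.Agent.Lib.MP_dee342_nt.AbMain

/-! The cycle form: few cycles are reached from `[-N, N]`, and the other cycles attract few
integers; the rates in this form that give finitely many cycles. -/

set_option autoImplicit false

namespace Pool.Agent.Lib.MP_dee342_nt.Ab

open Filter Function

theorem fin_window (x : ℝ) (P : ℤ → Prop) : {n : ℤ | |(n : ℝ)| ≤ x ∧ P n}.Finite :=
  (Set.finite_Icc (-⌈x⌉) ⌈x⌉).subset fun n hn => abs_le.1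
    (by exact_mod_cast hn.1.trans (Int.le_ceil x))

theorem exists_lim (f : ℤ → ℤ) : ∃ c : ℤ → Cycle ℤ, ∀ y i, f^[i] y ∈ periodicPts f →
    c y = periodicOrbit f (f^[i] y) := by
  classical
  refine ⟨fun y => if e : ∃ i, f^[i] y ∈ periodicPts f then periodicOrbit f (f^[e.choose] y)
    else Cycle.nil, fun y i hi => ?_⟩
  have e : ∃ i, f^[i] y ∈ periodicPts f := ⟨i, hi⟩
  simp only [dif_pos e]
  rw [← periodicOrbit_apply_iterate_eq e.choose_spec i, Commute.iterate_iterate_self _ i,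
    periodicOrbit_apply_iterate_eq hi]

theorem unreached {f : ℤ → ℤ} {x N B : ℝ} :
    {n : ℤ | |(n : ℝ)| ≤ x ∧ ∃ j, f^[j] n ∈ periodicPts f ∧
      ∀ y : ℤ, |(y : ℝ)| ≤ N → ∀ i, f^[i] y ≠ f^[j] n}.ncard ≤
    {n : ℤ | |(n : ℝ)| ≤ x ∧ ∀ j : ℕ, (j : ℝ) ≤ B → N < |((f^[j] n : ℤ) : ℝ)|}.ncard :=
  Set.ncard_le_ncard (fun _ ⟨h1, _, h2, h3⟩ => ⟨h1, fun t _ => not_le.1 fun h4 =>
    (reach h2 rfl t).elim fun k hk => h3 _ h4 k hk⟩) (fin_window _ _)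

theorem few_cycles (f : ℤ → ℤ) {e C : ℝ} (he : 0 < e) (hC : 0 ≤ C)
    (h : ∀ N : ℝ, 1 ≤ N → ∀ x : ℝ, 1 ≤ x →
      ({n : ℤ | |(n : ℝ)| ≤ x ∧ ∃ j, f^[j] n ∈ periodicPts f ∧
        ∀ y : ℤ, |(y : ℝ)| ≤ N → ∀ i, f^[i] y ≠ f^[j] n}.ncard : ℝ) ≤ C * x * N ^ (e - 1)) :
    ∃ K ≥ 0, ∀ N : ℝ, 1 ≤ N → ((periodicOrbit f '' {p ∈ periodicPts f |
      ∃ y : ℤ, |(y : ℝ)| ≤ N ∧ ∃ i, f^[i] y = p}).ncard : ℝ) ≤ K * N ^ e := by
  obtain ⟨c, hc⟩ := exists_lim f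
  have sub : ∀ N : ℝ, periodicOrbit f '' {p ∈ periodicPts f |
      ∃ y : ℤ, |(y : ℝ)| ≤ N ∧ ∃ i, f^[i] y = p} ⊆ c '' {y : ℤ | |(y : ℝ)| ≤ N ∧ True} := by
    rintro N _ ⟨_, ⟨hp, y, hy, i, rfl⟩, rfl⟩
    exact ⟨y, ⟨hy, trivial⟩, hc y i hp⟩
  have h2 : (1 : ℝ) < 2 ^ e := Real.one_lt_rpow one_lt_two he
  obtain ⟨K, hK⟩ : ∃ K : ℝ, K = 5 + 2 * C / (2 ^ e - 1) := ⟨_, rfl⟩
  have hq : 0 ≤ 2 * C / (2 ^ e - 1) := div_nonneg (by linarith) (by linarith)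
  have hK2 : K + 2 * C ≤ K * 2 ^ e := by
    have := div_mul_cancel₀ (2 * C) (show (2 : ℝ) ^ e - 1 ≠ 0 by linarith)
    nlinarith
  have small : ∀ N : ℝ, 1 ≤ N → N ≤ 2 → ((periodicOrbit f '' {p ∈ periodicPts f |
      ∃ y : ℤ, |(y : ℝ)| ≤ N ∧ ∃ i, f^[i] y = p}).ncard : ℝ) ≤ K * N ^ e := fun N h1 hN => by
    have a1 : {y : ℤ | |(y : ℝ)| ≤ N ∧ True} ⊆ (Finset.Icc (-2 : ℤ) 2 : Set ℤ) := fun y hy =>
      Finset.mem_coe.2 (Finset.mem_Icc.2 (abs_le.1 (by exact_mod_cast hy.1.trans hN)))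
    have a2 := ((Set.ncard_le_ncard (sub N) ((fin_window _ _).image c)).trans
      (Set.ncard_image_le (fin_window _ _))).trans (Set.ncard_le_ncard a1 (Finset.finite_toSet _))
    rw [Set.ncard_coe_finset, Int.card_Icc] at a2
    have a3 : (1 : ℝ) ≤ N ^ e := Real.one_le_rpow h1 he.le
    have a4 := (Nat.cast_le (α := ℝ)).2 (a2.trans (show _ ≤ 5 by decide))
    have a5 : (5 : ℝ) ≤ K := by linarith
    rw [Nat.cast_ofNat] at a4
    nlinarith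
  have main : ∀ (k : ℕ) (N : ℝ), 1 ≤ N → N ≤ 2 ^ k → ((periodicOrbit f '' {p ∈ periodicPts f |
      ∃ y : ℤ, |(y : ℝ)| ≤ N ∧ ∃ i, f^[i] y = p}).ncard : ℝ) ≤ K * N ^ e := by
    intro k
    induction k with
    | zero => exact fun N h1 hN => small N h1 (by linarith [pow_zero (2 : ℝ)])
    | succ k ih =>
      intro N h1 hN
      rcases le_total N 2 with h3 | h3
      · exact small N h1 h3
      have a1 := ih (N / 2) (by linarith) (by rw [pow_succ] at hN; linarith)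
      have a2 := h (N / 2) (by linarith) N h1
      have a3 : periodicOrbit f '' {p ∈ periodicPts f |
          ∃ y : ℤ, |(y : ℝ)| ≤ N ∧ ∃ i, f^[i] y = p} ⊆ periodicOrbit f '' {p ∈ periodicPts f |
          ∃ y : ℤ, |(y : ℝ)| ≤ N / 2 ∧ ∃ i, f^[i] y = p} ∪
          c '' {n : ℤ | |(n : ℝ)| ≤ N ∧ ∃ j, f^[j] n ∈ periodicPts f ∧
            ∀ y : ℤ, |(y : ℝ)| ≤ N / 2 → ∀ i, f^[i] y ≠ f^[j] n} := by
        rintro _ ⟨_, ⟨hp, y, hy, i, rfl⟩, rfl⟩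
        by_cases b : ∃ z : ℤ, |(z : ℝ)| ≤ N / 2 ∧ ∃ t, f^[t] z = f^[i] y
        · exact Or.inl ⟨_, ⟨hp, b⟩, rfl⟩
        · exact Or.inr ⟨y, ⟨hy, i, hp, fun z hz t ht => b ⟨z, hz, t, ht⟩⟩, hc y i hp⟩
      have a4 := (Nat.cast_le (α := ℝ)).2 (((Set.ncard_le_ncard a3
        ((((fin_window _ _).image c).subset (sub _)).union ((fin_window _ _).image c))).trans
        (Set.ncard_union_le _ _)).trans (Nat.add_le_add_left (Set.ncard_image_le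
          (fin_window _ _)) _))
      rw [Nat.cast_add] at a4
      have a5 : (0 : ℝ) < N / 2 := by linarith
      have a6 : C * N * (N / 2) ^ (e - 1) = 2 * C * (N / 2) ^ e := by
        rw [Real.rpow_sub_one a5.ne']
        field_simp
      have a7 : N ^ e = 2 ^ e * (N / 2) ^ e := by
        rw [← Real.mul_rpow zero_le_two a5.le]
        congr 1
        ring
      have a8 := mul_le_mul_of_nonneg_right hK2 (Real.rpow_nonneg a5.le e)
      rw [a7]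
      nlinarith
  refine ⟨K, by linarith, fun N h1 => ?_⟩
  obtain ⟨k, hk⟩ := pow_unbounded_of_one_lt N (one_lt_two (α := ℝ))
  exact main k N h1 hk.le

theorem cycles : ∃ δ > 0, ∃ C : ℝ, ∀ N : ℝ, 1 ≤ N →
    ((periodicOrbit (T 3) '' {p ∈ periodicPts (T 3) |
        ∃ y : ℤ, |(y : ℝ)| ≤ N ∧ ∃ i, (T 3)^[i] y = p}).ncard : ℝ) ≤
      C * N ^ (Real.binEntropy (Real.log 2 / Real.log 3) / Real.log 2 - δ) ∧
    ∀ x : ℝ, 1 ≤ x →
      ({n : ℤ | |(n : ℝ)| ≤ x ∧ ∃ j, (T 3)^[j] n ∈ periodicPts (T 3) ∧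
        ∀ y : ℤ, |(y : ℝ)| ≤ N → ∀ i, (T 3)^[i] y ≠ (T 3)^[j] n}.ncard : ℝ) ≤
      C * x * N ^ (-(1 - Real.binEntropy (Real.log 2 / Real.log 3) / Real.log 2 + δ)) := by
  obtain ⟨δ, hδ, C, h⟩ := main
  have l2 := Real.log_pos (one_lt_two (α := ℝ))
  have l3 : Real.log 2 < Real.log 3 := Real.log_lt_log (by norm_num) (by norm_num)
  have hH : 0 < Real.binEntropy (Real.log 2 / Real.log 3) / Real.log 2 :=
    div_pos (Real.binEntropy_pos (div_pos l2 (l2.trans l3)) ((div_lt_one (l2.trans l3)).2 l3)) l2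
  generalize Real.binEntropy (Real.log 2 / Real.log 3) / Real.log 2 = H at h hH ⊢
  have h1 : ∀ N : ℝ, 1 ≤ N → ∀ x : ℝ, 1 ≤ x →
      ({n : ℤ | |(n : ℝ)| ≤ x ∧ ∃ j, (T 3)^[j] n ∈ periodicPts (T 3) ∧
        ∀ y : ℤ, |(y : ℝ)| ≤ N → ∀ i, (T 3)^[i] y ≠ (T 3)^[j] n}.ncard : ℝ) ≤
      |C| * x * N ^ (H - min δ (H / 2) - 1) := fun N hN x hx =>
    ((Nat.cast_le.2 unreached).trans (h x N hx hN)).trans (mul_le_mul
      (mul_le_mul_of_nonneg_right (le_abs_self C) (by linarith))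
      (Real.rpow_le_rpow_of_exponent_le hN (by linarith [min_le_left δ (H / 2)]))
      (Real.rpow_nonneg (by linarith) _) (mul_nonneg (abs_nonneg C) (by linarith)))
  obtain ⟨K, hK, h2⟩ := few_cycles (T 3) (by linarith [min_le_right δ (H / 2)]) (abs_nonneg C) h1
  refine ⟨min δ (H / 2), lt_min hδ (by linarith), K + |C|, fun N hN => ⟨(h2 N hN).trans
    (mul_le_mul_of_nonneg_right (by linarith [abs_nonneg C]) (Real.rpow_nonneg (by linarith) _)),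
    fun x hx => ?_⟩⟩
  rw [show -(1 - H + min δ (H / 2)) = H - min δ (H / 2) - 1 by ring]
  exact (h1 N hN x hx).trans (mul_le_mul_of_nonneg_right (mul_le_mul_of_nonneg_right
    (by linarith) (by linarith)) (Real.rpow_nonneg (by linarith) _))

theorem cyc_pow (f : ℤ → ℤ) {c C : ℝ} (hc : 1 < c) (h : ∀ N : ℝ, 1 ≤ N → ∀ x : ℝ, 1 ≤ x →
    ({n : ℤ | |(n : ℝ)| ≤ x ∧ ∃ j, f^[j] n ∈ periodicPts f ∧
      ∀ y : ℤ, |(y : ℝ)| ≤ N → ∀ i, f^[i] y ≠ f^[j] n}.ncard : ℝ) ≤ C * x * N ^ (-c)) :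
    (periodicPts f).Finite := by
  classical
  have h2 := (tendsto_rpow_neg_atTop (sub_pos.2 hc)).const_mul (2 * |C|)
  rw [mul_zero] at h2
  obtain ⟨N₀, hN⟩ := eventually_atTop.1 ((tendsto_natCast_atTop_atTop (R := ℝ)).eventually
    (h2.eventually_lt_const one_pos))
  refine ((Set.finite_Icc (-(N₀ + 1) : ℤ) (N₀ + 1)).biUnion fun y _ => finite_reach f y).subset
    fun p hp => ?_
  have ex : ∃ m : ℕ, ∃ y : ℤ, y.natAbs = m ∧ ∃ i, f^[i] y = p := ⟨_, p, rfl, 0, rfl⟩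
  obtain ⟨a, ha, i, hi⟩ := Nat.find_spec ex
  have low : ∀ (y : ℤ) (k : ℕ), f^[k] y = p → Nat.find ex ≤ y.natAbs := fun y k hk =>
    Nat.find_le ⟨y, rfl, k, hk⟩
  generalize Nat.find ex = m at ha low
  refine Set.mem_biUnion (x := a) (abs_le.1 (not_lt.1 fun hm => ?_)) ⟨hp, i, hi⟩
  rw [← Int.natCast_natAbs, ha] at hm
  obtain ⟨N, rfl⟩ : ∃ N, m = N + 1 := ⟨m - 1, by omega⟩
  have N1 : (1 : ℝ) ≤ N := by exact_mod_cast (by omega : 1 ≤ N)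
  have nab : ∀ a : ℤ, |(a : ℝ)| = (a.natAbs : ℕ) := fun a => by simp
  have a1 := le_trans (Nat.one_le_cast.2 ((Set.ncard_pos (fin_window _ _)).2 (by
      refine ⟨a, by rw [nab, ha]; simp, i, hi ▸ hp, fun y hy k hk => ?_⟩
      have b1 := low y k (hk.trans hi)
      rw [nab] at hy
      have b2 : y.natAbs ≤ N := by exact_mod_cast hy
      omega)))
    (h N N1 (N + 1) (by linarith))
  have a2 := hN N (by omega)
  rw [neg_sub, Real.rpow_sub (by linarith), Real.rpow_one, div_eq_mul_inv,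
    ← Real.rpow_neg (by linarith)] at a2
  have a3 : C * (N + 1) ≤ |C| * (2 * N) :=
    mul_le_mul (le_abs_self C) (by linarith) (by linarith) (abs_nonneg C)
  linarith [mul_le_mul_of_nonneg_right a3 (Real.rpow_nonneg (show (0 : ℝ) ≤ N by linarith) (-c))]

theorem T_nonpos {y : ℤ} (h : y ≤ 0) : T 3 y ≤ 0 := by
  unfold T
  split_ifs <;> omega

theorem cyc_rate (h : ∀ ε > 0, ∀ᶠ N : ℕ in atTop, ∀ᶠ x : ℝ in atTop,
    ({n : ℤ | |(n : ℝ)| ≤ x ∧ ∃ j, (T 3)^[j] n ∈ periodicPts (T 3) ∧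
      ∀ y : ℤ, |(y : ℝ)| ≤ N → ∀ i, (T 3)^[i] y ≠ (T 3)^[j] n}.ncard : ℝ) ≤ ε * x / N) :
    {p ∈ periodicPts (T 3) | 0 < p}.Finite := by
  classical
  obtain ⟨c, C, hc, hU⟩ := MP_76ba2b_nt.mainU
  obtain ⟨N₀, hN⟩ := eventually_atTop.1 (h (c / 16) (by positivity))
  refine ((Set.finite_Icc (0 : ℤ) (N₀ + 1)).biUnion fun y _ => finite_reach (T 3) y).subset
    fun p ⟨hp, p0⟩ => ?_
  have ex : ∃ m : ℕ, 0 < m ∧ ∃ i, (T 3)^[i] m = p := ⟨p.toNat, by omega, 0, by simp [p0.le]⟩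
  obtain ⟨m0, i, hi⟩ := Nat.find_spec ex
  have low : ∀ (y : ℤ) (k : ℕ), 0 < y → (T 3)^[k] y = p → ∀ j, (Nat.find ex : ℤ) ≤ (T 3)^[j] y :=
    fun y k hy hk j => by
      have a1 : 0 < (T 3)^[j] y :=
        Set.MapsTo.iterate (f := T 3) (s := Set.Ioi (0 : ℤ)) (fun _ h => T_pos h) j hy
      have a2 := Nat.find_le (h := ex) (n := ((T 3)^[j] y).toNat)
        ⟨by omega, by rw [Int.toNat_of_nonneg a1.le]; exact reach hp hk j⟩
      omega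
  generalize Nat.find ex = m at m0 hi low
  refine Set.mem_biUnion (x := (m : ℤ)) ⟨by omega, not_lt.1 fun hm => ?_⟩ ⟨hp, i, hi⟩
  obtain ⟨N, rfl⟩ : ∃ N, m = N + 1 := ⟨m - 1, by omega⟩
  have a1 := low _ i (by omega) hi 1
  obtain ⟨k, hk⟩ := reach hp hi 1
  rw [iterate_one, T_cast] at a1 hk
  obtain ⟨a, ha⟩ : ∃ a, a = MP_76ba2b_nt.T (N + 1) := ⟨_, rfl⟩
  rw [← ha] at a1 hk
  have a2 : 0 < a ∧ ¬ 3 ∣ a ∧ a ≤ 4 * N ∧ 1 ≤ N := by
    unfold MP_76ba2b_nt.T at ha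
    split_ifs at ha <;> omega
  obtain ⟨x, h1, h2⟩ := ((hN N (by omega)).and (eventually_ge_atTop (2 * (a : ℝ)))).exists
  have a0 : (0 : ℝ) < a := by exact_mod_cast a2.1
  have a3 : (a : ℝ) ≤ 4 * N := by exact_mod_cast a2.2.2.1
  have a4 := (hU a a2.1 a2.2.1 (x / 2) (by linarith)).trans ((Nat.cast_le.2
    (Set.ncard_le_ncard_of_injOn Nat.cast (fun n hn => by
      obtain ⟨b1, b2, t, -, b3⟩ := hn
      have b4 : (T 3)^[k + t] n = p := by rw [iterate_add_apply, iter_cast t, b3, hk]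
      refine ⟨by rw [Int.cast_natCast, Nat.abs_cast]; linarith, k + t, b4 ▸ hp,
        fun y hy s hs => ?_⟩
      rw [b4] at hs
      have b5 : |y| ≤ (N : ℤ) := by exact_mod_cast hy
      rcases lt_or_ge 0 y with b6 | b6
      · have b7 := low y s b6 hs 0
        rw [iterate_zero_apply] at b7
        have b8 := le_abs_self y
        push_cast at b7
        omega
      · have b7 : (T 3)^[s] y ≤ 0 :=
          Set.MapsTo.iterate (f := T 3) (s := Set.Iic (0 : ℤ)) (fun _ h => T_nonpos h) s b6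
        omega)
      Nat.cast_injective.injOn (fin_window _ _))).trans h1)
  rw [← mul_div_assoc, div_le_div_iff₀ a0 (by linarith)] at a4
  nlinarith [mul_pos hc (show 0 < x by linarith)]

end Pool.Agent.Lib.MP_dee342_nt.Ab
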