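import Pool.Agent.Lib.MP_dee342_nt.AbMeas

/-! A bound, uniform in the end point, for the number of good backward words. -/

set_option autoImplicit false

namespace Pool.Agent.Lib.MP_dee342_nt.Ab

open Finset Pool.Agent.Lib.MP_76ba2b_nt

/-- The multiplier divided by `Y`. -/
noncomputable def mu (Y : ℝ) (s i : ℕ) : ℝ := 2 ^ s / (3 ^ i * Y)

/-- The test function. -/
noncomputable def ph (Y : ℝ) (s i : ℕ) : ℝ := if mu Y s i ≤ 1 then mu Y s i else 0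

/-- The potential. -/
noncomputable def Ph (Y : ℝ) (s i : ℕ) : ℝ := 1 / (1 + mu Y s i)

variable {Y : ℝ}

theorem mu_pos (hY : 0 < Y) (s i : ℕ) : 0 < mu Y s i := by unfold mu; positivity

theorem ph_nonneg (hY : 0 < Y) (s i : ℕ) : 0 ≤ ph Y s i := by
  unfold ph
  split_ifs
  · exact (mu_pos hY s i).le
  · exact le_rfl

theorem ph_le (s i : ℕ) : ph Y s i ≤ 1 := by
  unfold ph
  split_ifs with h
  · exact h
  · exact zero_le_one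

theorem Ph_nonneg (hY : 0 < Y) (s i : ℕ) : 0 ≤ Ph Y s i := by
  have := mu_pos hY s i
  unfold Ph; positivity

theorem Ph_le (hY : 0 < Y) (s i : ℕ) : Ph Y s i ≤ 1 := by
  have := mu_pos hY s i
  unfold Ph
  rw [div_le_one (by linarith)]
  linarith

theorem ph_step (hY : 0 < Y) (s i : ℕ) : ph Y s i ≤ 30 * (Ph Y s i - bar (Ph Y (s + 1)) i) := by
  have h0 := mu_pos hY s i
  have e1 : mu Y (s + 1) i = 2 * mu Y s i := by unfold mu; rw [pow_succ]; ring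
  have e2 : mu Y (s + 1) (i + 1) = 2 / 3 * mu Y s i := by
    unfold mu; rw [pow_succ, pow_succ]; field_simp
  unfold ph bar Ph
  rw [e1, e2]
  generalize mu Y s i = u at h0
  have e3 : 1 / (1 + u) - (1 / (1 + 2 * u) + 1 / (1 + 2 / 3 * u)) / 2 =
      u / ((1 + u) * (1 + 2 * u) * (3 + 2 * u)) := by field_simp; ring
  rw [e3]
  split_ifs with h
  · rw [← mul_div_assoc, le_div_iff₀ (by positivity), mul_comm 30]
    refine mul_le_mul_of_nonneg_left ?_ h0.le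
    calc _ ≤ (1 + 1) * (1 + 2 * 1) * (3 + 2 * 1 : ℝ) := by gcongr
      _ = 30 := by norm_num
  · positivity

variable {ρ : ℝ} {l₁ b : ℕ}

theorem V_bound (h0 : 0 ≤ ρ) (h1 : ρ < 1) {q p K : ℕ} (hq : 3 * ρ ^ q ≤ 1) (hp : q * K ≤ p - l₁)
    {h : ℕ → ℕ → ℝ} {e : ℝ} (hper : ∀ k, Per K (h k)) (hn : ∀ k b, 0 ≤ h k b)
    (he : ∀ k, Mean K (h k) ≤ e) [DecidablePred (Ok ρ l₁)] :
    (∑ v ∈ (Str p).filter (Ok ρ l₁), dl v b * h (ones v) (endp v b)) / 2 ^ p ≤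
      (p + 1) * ((l₁ + ⌈(1 - ρ)⁻¹⌉₊ : ℕ) + 6) * e := by
  rw [div_le_iff₀ (by positivity), mul_comm]
  refine meas hper hn he fun w hw => ?_
  obtain ⟨a1, a2⟩ := mem_filter.1 hw
  rw [mem_Str] at a1
  refine ⟨a1, a1 ▸ a2.off_le h0 h1, ?_⟩
  have a3 := a2 p a1.ge
  rw [List.take_of_length_le a1.le] at a3
  have a4 : ρ ^ (p - l₁) * 3 ^ K ≤ 1 :=
    calc ρ ^ (p - l₁) * 3 ^ K ≤ ρ ^ (q * K) * 3 ^ K := by
          gcongr ?_ * _
          exact pow_le_pow_of_le_one h0 h1.le hp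
      _ = (3 * ρ ^ q) ^ K := by rw [pow_mul, mul_pow, mul_comm]
      _ ≤ 1 := pow_le_one₀ (by positivity) hq
  have a5 : (3 : ℝ) ^ (ones w + K) ≤ 2 * 2 ^ p :=
    calc (3 : ℝ) ^ (ones w + K) = 3 ^ ones w * 3 ^ K := pow_add _ _ _
      _ ≤ 2 * 2 ^ p * ρ ^ (p - l₁) * 3 ^ K := by gcongr
      _ = 2 * 2 ^ p * (ρ ^ (p - l₁) * 3 ^ K) := by ring
      _ ≤ 2 * 2 ^ p := mul_le_of_le_one_right (by positivity) a4
  exact_mod_cast a5

theorem V_le (h0 : 0 ≤ ρ) (h1 : ρ < 1) {q p M : ℕ} (hq : 3 * ρ ^ q ≤ 1) (hp : q * M ≤ p - l₁)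
    {ψ : ℕ → ℝ} (a0 : ∀ i, 0 ≤ ψ i) (a1 : ∀ i, ψ i ≤ 1) :
    V ρ l₁ b p (p + M) ψ ≤ (p + 1) * ((l₁ + ⌈(1 - ρ)⁻¹⌉₊ : ℕ) + 6) := by
  classical
  rw [V_fact]
  simpa using V_bound (b := b) h0 h1 hq hp (h := fun k => gs (fun i => ψ (k + i)) M) (e := 1)
    (fun k => gs_per _ le_rfl) (fun k b => gs_nonneg (fun i => a0 _) M b)
    fun k => gs_mean (fun i => a1 _) le_rfl

theorem V_step (h0 : 0 ≤ ρ) (h1 : ρ < 1) {q : ℕ} (hq : 3 * ρ ^ q ≤ 1) : ∃ C : ℝ, 0 ≤ C ∧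
    ∀ (l₁ b p M : ℕ) (ψ : ℕ → ℝ), 200 ≤ M → q * (M + 1) ≤ p - l₁ → (∀ i, |ψ i| ≤ 1) →
      V ρ l₁ b p (p + M + 1) ψ ≤ V ρ l₁ b p (p + M) (bar ψ) +
        (p + 1) * ((l₁ + ⌈(1 - ρ)⁻¹⌉₊ : ℕ) + 6) * (C / (M : ℝ) ^ 3) := by
  classical
  obtain ⟨C, hC, h⟩ := nd_step 3
  refine ⟨C, hC, fun l₁ b p M ψ hM hp hψ => ?_⟩
  have a := V_bound (b := b) h0 h1 hq hp (e := C / (M : ℝ) ^ 3)
    (h := fun k b => |gs (fun i => ψ (k + i)) (M + 1) b - gs (bar fun i => ψ (k + i)) M b|)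
    (fun k b => by beta_reduce; rw [gs_per _ le_rfl b, gs_per _ (Nat.le_succ M) b]) (fun k b => abs_nonneg _)
    fun k => h M (M + 1) hM le_rfl (fun _ i => ψ (k + i)) fun _ i => hψ _
  rw [add_assoc, V_fact, V_fact, ← sub_le_iff_le_add', ← sub_div, ← sum_sub_distrib]
  refine le_trans (div_le_div_of_nonneg_right (sum_le_sum fun v _ => ?_) (by positivity)) a
  rw [← mul_sub]
  exact mul_le_mul_of_nonneg_left (le_abs_self _) (dl_nonneg v b)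

theorem green (h0 : 0 ≤ ρ) (h1 : ρ < 1) {q : ℕ} (hq1 : 1 ≤ q) (hq : 3 * ρ ^ q ≤ 1) :
    ∃ C : ℝ, 0 ≤ C ∧ ∀ (l₁ b J : ℕ) (Y : ℝ), 0 < Y →
      ∑ s ∈ range J, V ρ l₁ b s s (ph Y s) ≤ C * ((l₁ : ℝ) + 1) ^ 3 := by
  obtain ⟨C, hC, h⟩ := V_step h0 h1 hq
  set c₀ := ⌈(1 - ρ)⁻¹⌉₊
  have hq' : (1 : ℝ) ≤ q := by exact_mod_cast hq1
  refine ⟨((800 * q + 2) ^ 2 + 30 * (800 * q + 2) + 30 * (C * 4 * (8 * q) ^ 3)) * (c₀ + 6),
    by positivity, fun l₁ b J Y hY => ?_⟩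
  obtain ⟨τ, hτ⟩ : ∃ τ : ℝ, τ = ((l₁ + c₀ : ℕ) : ℝ) + 6 := ⟨_, rfl⟩
  have τ0 : 0 ≤ τ := by rw [hτ]; positivity
  obtain ⟨L₀, hL₀⟩ : ∃ L₀, L₀ = 2 * l₁ + 800 * q := ⟨_, rfl⟩
  obtain ⟨E, hE⟩ : ∃ E, E = 30 * (C * 4 * (8 * q) ^ 3) * τ := ⟨_, rfl⟩
  have E0 : 0 ≤ E := by rw [hE]; positivity
  let W : ℕ → ℝ := fun L => 30 * V ρ l₁ b (L - L / (4 * q)) L (Ph Y L) + E / L
  have W0 : ∀ L, 0 ≤ W L := fun L =>
    add_nonneg (mul_nonneg (by norm_num) (V_nonneg (Ph_nonneg hY L) _ _)) (by positivity)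
  have arith : ∀ L, L₀ ≤ L → 200 ≤ L / (4 * q) ∧ q * (L / (4 * q) + 1) ≤ L - L / (4 * q) - l₁ ∧
      L ≤ 8 * q * (L / (4 * q)) ∧ L / (4 * q) ≤ L := fun L hL => by
    have a1 : 200 ≤ L / (4 * q) := (Nat.le_div_iff_mul_le (by omega)).2 (by omega)
    have a2 := Nat.mul_div_le L (4 * q)
    have a3 := Nat.lt_mul_div_succ L (show 0 < 4 * q by omega)
    generalize L / (4 * q) = M at *
    have a4 : M ≤ q * M := Nat.le_mul_of_pos_left M hq1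
    have a5 : q ≤ q * M := Nat.le_mul_of_pos_right q (by omega)
    rw [mul_assoc] at a2 a3
    rw [mul_add] at a3
    rw [mul_add, mul_assoc]
    omega
  have step : ∀ L, L₀ ≤ L → V ρ l₁ b L L (ph Y L) ≤ W L - W (L + 1) := fun L hL => by
    obtain ⟨a1, a2, a3, a4⟩ := arith L hL
    have a5 : L - L / (4 * q) ≤ L + 1 - (L + 1) / (4 * q) := by
      have := Nat.succ_div (a := L) (b := 4 * q)
      split_ifs at this <;> omega
    have b1 := V_anti (ρ := ρ) (l₁ := l₁) (b := b) (ph_nonneg hY L) (Nat.sub_le L (L / (4 * q))) L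
    have b2 := V_comb (ρ := ρ) (l₁ := l₁) (b := b) (ph_step hY L) (L - L / (4 * q)) L
    have b3 := h l₁ b _ _ (Ph Y (L + 1)) a1 a2 fun i =>
      abs_le.2 ⟨by linarith [Ph_nonneg hY (L + 1) i], Ph_le hY _ i⟩
    rw [Nat.sub_add_cancel a4, ← hτ] at b3
    have b4 := V_anti (ρ := ρ) (l₁ := l₁) (b := b) (Ph_nonneg hY (L + 1)) a5 (L + 1)
    have c1 : (1 : ℝ) ≤ L := by exact_mod_cast (by omega : 1 ≤ L)
    have c2 : (L : ℝ) ≤ 8 * q * (L / (4 * q) : ℕ) := by exact_mod_cast a3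
    have c3 : ((L - L / (4 * q) : ℕ) : ℝ) ≤ L := by exact_mod_cast Nat.sub_le _ _
    have c4 : (0 : ℝ) < (L / (4 * q) : ℕ) := by exact_mod_cast (by omega : 0 < L / (4 * q))
    have b5 : 30 * ((((L - L / (4 * q) : ℕ) : ℝ) + 1) * τ * (C / ((L / (4 * q) : ℕ) : ℝ) ^ 3)) ≤
        E / L - E / (L + 1 : ℕ) := by
      generalize ((L / (4 * q) : ℕ) : ℝ) = M at c2 c4
      generalize ((L - L / (4 * q) : ℕ) : ℝ) = p at c3
      have d1 : C / M ^ 3 ≤ C * (8 * q) ^ 3 / L ^ 3 := by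
        rw [div_le_div_iff₀ (by positivity) (by positivity), mul_assoc, ← mul_pow]
        gcongr
      have d2 : E / L - E / (L + 1 : ℕ) = E / (L * (L + 1)) := by push_cast; field_simp; ring
      have d3 : E / (L * (2 * L)) ≤ E / (L * (L + 1)) := by gcongr; linarith
      rw [d2]
      refine le_trans ?_ d3
      calc _ ≤ 30 * ((2 * L) * τ * (C * (8 * q) ^ 3 / L ^ 3)) := by gcongr; linarith
        _ = _ := by rw [hE]; field_simp; ring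
    simp only [W]
    linarith
  have tele : ∀ d, ∑ s ∈ range d, V ρ l₁ b (L₀ + s) (L₀ + s) (ph Y (L₀ + s)) ≤
      W L₀ - W (L₀ + d) := fun d => by
    induction d with
    | zero => simp
    | succ d ih =>
      rw [sum_range_succ, ← add_assoc]
      linarith [step (L₀ + d) (Nat.le_add_right _ _)]
  have small : ∑ s ∈ range L₀, V ρ l₁ b s s (ph Y s) ≤ L₀ * (L₀ * τ) := by
    refine (sum_le_card_nsmul _ _ ((L₀ : ℝ) * τ) fun s hs => ?_).trans (by simp)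
    have a := V_le (l₁ := l₁) (b := b) (p := s) (M := 0) h0 h1 hq (by simp) (ph_nonneg hY s) (ph_le s)
    rw [← hτ] at a
    refine a.trans (mul_le_mul_of_nonneg_right ?_ τ0)
    exact_mod_cast mem_range.1 hs
  have start : W L₀ ≤ 30 * (L₀ * τ) + E := by
    obtain ⟨a1, a2, -, a4⟩ := arith L₀ le_rfl
    have a := V_le (l₁ := l₁) (b := b) (p := L₀ - L₀ / (4 * q)) (M := L₀ / (4 * q)) h0 h1 hq
      ((Nat.mul_le_mul_left q (Nat.le_succ _)).trans a2) (Ph_nonneg hY L₀) (Ph_le hY L₀)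
    rw [Nat.sub_add_cancel a4, ← hτ] at a
    have c1 : ((L₀ - L₀ / (4 * q) : ℕ) : ℝ) + 1 ≤ L₀ := by
      exact_mod_cast (by omega : L₀ - L₀ / (4 * q) + 1 ≤ L₀)
    have c2 : E / L₀ ≤ E := div_le_self E0 (by exact_mod_cast (by omega : 1 ≤ L₀))
    have c3 := mul_le_mul_of_nonneg_right c1 τ0
    simp only [W]
    linarith
  have all : ∑ s ∈ range J, V ρ l₁ b s s (ph Y s) ≤ ∑ s ∈ range (L₀ + J), V ρ l₁ b s s (ph Y s) :=
    sum_le_sum_of_subset_of_nonneg (range_subset_range.2 (by omega)) fun s _ _ =>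
      V_nonneg (ph_nonneg hY s) _ _
  rw [sum_range_add] at all
  have l0 : (0 : ℝ) ≤ l₁ := by positivity
  have f1 : (L₀ : ℝ) ≤ (800 * q + 2) * (l₁ + 1) := by rw [hL₀]; push_cast; nlinarith
  have f2 : τ ≤ (c₀ + 6) * (l₁ + 1) := by
    rw [hτ]; push_cast; nlinarith [Nat.cast_nonneg (α := ℝ) c₀]
  have f3 : (1 : ℝ) ≤ l₁ + 1 := by linarith
  have g1 : (L₀ : ℝ) * (L₀ * τ) ≤ (800 * q + 2) ^ 2 * (c₀ + 6) * (l₁ + 1) ^ 3 :=
    calc _ ≤ ((800 * q + 2) * (l₁ + 1)) * (((800 * q + 2) * (l₁ + 1)) * ((c₀ + 6) * (l₁ + 1)) : ℝ) := by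
          gcongr
      _ = _ := by ring
  have g2 : (L₀ : ℝ) * τ ≤ (800 * q + 2) * (c₀ + 6) * (l₁ + 1) ^ 3 :=
    calc _ ≤ ((800 * q + 2) * (l₁ + 1)) * ((c₀ + 6) * (l₁ + 1) : ℝ) := by gcongr
      _ = (800 * q + 2) * (c₀ + 6) * (l₁ + 1) ^ 2 := by ring
      _ ≤ _ := by gcongr; norm_num
  have g3 : E ≤ 30 * (C * 4 * (8 * q) ^ 3) * (c₀ + 6) * (l₁ + 1) ^ 3 :=
    calc E ≤ 30 * (C * 4 * (8 * q) ^ 3) * ((c₀ + 6) * (l₁ + 1)) := by rw [hE]; gcongr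
      _ = 30 * (C * 4 * (8 * q) ^ 3) * (c₀ + 6) * (l₁ + 1) ^ 1 := by ring
      _ ≤ _ := by gcongr; norm_num
  linarith [tele J, W0 (L₀ + J)]

open Classical in
theorem card_words (h0 : 0 ≤ ρ) (h1 : ρ < 1) {q : ℕ} (hq1 : 1 ≤ q) (hq : 3 * ρ ^ q ≤ 1) :
    ∃ C : ℝ, 0 ≤ C ∧ ∀ (l₁ b J : ℕ) (Y : ℝ), 0 < Y →
      ∑ s ∈ range J, (((Str s).filter fun w => Ok ρ l₁ w ∧ valid w b ∧
        (2 : ℝ) ^ s ≤ 3 ^ ones w * Y).card : ℝ) ≤ C * ((l₁ : ℝ) + 1) ^ 3 * Y := by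
  obtain ⟨C, hC, h⟩ := green h0 h1 hq1 hq
  refine ⟨C, hC, fun l₁ b J Y hY => le_trans ?_ (mul_le_mul_of_nonneg_right (h l₁ b J Y hY) hY.le)⟩
  rw [sum_mul]
  refine sum_le_sum fun s _ => ?_
  rw [card_filter, V, sum_div, sum_mul]
  push_cast
  refine sum_le_sum fun w hw => ?_
  rw [List.take_of_length_le (mem_Str.1 hw).le]
  split_ifs with a1 a2 a2
  · have a3 : mu Y s (ones w) ≤ 1 := (div_le_one (by positivity)).2 a1.2.2
    rw [dl_of_valid a1.2.1, ph, if_pos a3, mu]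
    refine le_of_eq ?_
    field_simp
  · exact absurd a1.1 a2
  · have := ph_nonneg hY s (ones w)
    have := dl_nonneg w b
    positivity
  · simp

end Pool.Agent.Lib.MP_dee342_nt.Ab
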