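import Pool.Agent.Lib.MP_76ba2b_nt.UMain
import Pool.Agent.Lib.MP_dee342_nt.Defs

/-! A bound `o(x / N)` for the integers that stay above `N` gives finitely many positive cycles. -/

set_option autoImplicit false

namespace Pool.Agent.Lib.MP_dee342_nt.Ab

open Filter Function

theorem T_cast (n : ℕ) : T 3 n = (MP_76ba2b_nt.T n : ℕ) := by
  unfold T MP_76ba2b_nt.T
  split_ifs <;> omega

theorem iter_cast (k n : ℕ) : (T 3)^[k] n = (MP_76ba2b_nt.T^[k] n : ℕ) :=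
  (Semiconj.iterate_right (f := Nat.cast) (fun n => (T_cast n).symm) k n).symm

theorem T_pos {y : ℤ} (h : 0 < y) : 0 < T 3 y := by
  unfold T
  split_ifs <;> omega

theorem reach {f : ℤ → ℤ} {p y : ℤ} (hp : p ∈ periodicPts f) {i : ℕ} (h : f^[i] y = p) (j : ℕ) :
    ∃ k, f^[k] (f^[j] y) = p := by
  obtain ⟨P, hP, h1⟩ := hp
  refine ⟨P * j + i - j, ?_⟩
  rw [← iterate_add_apply, Nat.sub_add_cancel (by nlinarith), iterate_add_apply, h]
  exact h1.mul_const j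

theorem finite_reach (f : ℤ → ℤ) (y : ℤ) : {p ∈ periodicPts f | ∃ i, f^[i] y = p}.Finite := by
  rcases Set.eq_empty_or_nonempty {p ∈ periodicPts f | ∃ i, f^[i] y = p} with h | ⟨p, hp, i, hi⟩
  · rw [h]
    exact Set.finite_empty
  obtain ⟨P, hP, h1⟩ := hp
  refine ((Set.finite_Iio P).image fun j => f^[j] p).subset fun p' ⟨h2, i', h3⟩ => ?_
  obtain ⟨k, hk⟩ := reach h2 h3 i
  exact ⟨k % P, Nat.mod_lt _ hP, by beta_reduce; rw [h1.iterate_mod_apply, ← hi, hk]⟩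

theorem link (h : ∀ ε > 0, ∀ᶠ N : ℕ in atTop, ∀ᶠ x : ℝ in atTop,
    ({n : ℤ | |(n : ℝ)| ≤ x ∧ ∀ j, (N : ℝ) < |(((T 3)^[j] n : ℤ) : ℝ)|}.ncard : ℝ) ≤ ε * x / N) :
    {p ∈ periodicPts (T 3) | 0 < p}.Finite := by
  classical
  obtain ⟨c, C, hc, hU⟩ := MP_76ba2b_nt.mainU
  obtain ⟨N₀, hN⟩ := eventually_atTop.1 (h (c / 16) (by positivity))
  refine ((Set.finite_Icc (0 : ℤ) (N₀ + 1)).biUnion fun y _ => finite_reach (T 3) y).subset
    fun p ⟨hp, p0⟩ => ?_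
  have ex : ∃ m : ℕ, 0 < m ∧ ∃ i, (T 3)^[i] m = p := ⟨p.toNat, by omega, 0, by simp [p0.le]⟩
  obtain ⟨m0, i, hi⟩ := Nat.find_spec ex
  have low : ∀ (y : ℤ) (k : ℕ), 0 < y → (T 3)^[k] y = p → ∀ j, (Nat.find ex : ℤ) ≤ (T 3)^[j] y :=
    fun y k hy hk j => by
      have a1 : 0 < (T 3)^[j] y := 
        Set.MapsTo.iterate (f := T 3) (s := Set.Ioi (0 : ℤ)) (fun _ h => T_pos h) j hy
      have a2 := Nat.find_le (h := ex) (n := ((T 3)^[j] y).toNat)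
        ⟨by omega, by rw [Int.toNat_of_nonneg a1.le]; exact reach hp hk j⟩
      omega
  generalize Nat.find ex = m at m0 hi low
  refine Set.mem_biUnion (x := (m : ℤ)) ⟨by omega, not_lt.1 fun hm => ?_⟩ ⟨hp, i, hi⟩
  obtain ⟨N, rfl⟩ : ∃ N, m = N + 1 := ⟨m - 1, by omega⟩
  have a1 := low _ i (by omega) hi 1
  obtain ⟨k, hk⟩ := reach hp hi 1
  rw [iterate_one, T_cast] at a1 hk
  obtain ⟨a, ha⟩ : ∃ a, a = MP_76ba2b_nt.T (N + 1) := ⟨_, rfl⟩
  rw [← ha] at a1 hk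
  have a2 : 0 < a ∧ ¬ 3 ∣ a ∧ a ≤ 4 * N ∧ 1 ≤ N := by
    unfold MP_76ba2b_nt.T at ha
    split_ifs at ha <;> omega
  obtain ⟨x, h1, h2⟩ := ((hN N (by omega)).and (eventually_ge_atTop (2 * (a : ℝ)))).exists
  have a0 : (0 : ℝ) < a := by exact_mod_cast a2.1
  have a3 : (a : ℝ) ≤ 4 * N := by exact_mod_cast a2.2.2.1
  have a4 := (hU a a2.1 a2.2.1 (x / 2) (by linarith)).trans ((Nat.cast_le.2
    (Set.ncard_le_ncard_of_injOn Nat.cast (fun n hn => by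
      obtain ⟨b1, b2, t, -, b3⟩ := hn
      have b4 : (0 : ℝ) < n := by linarith
      refine ⟨by rw [Int.cast_natCast, Nat.abs_cast]; linarith, fun j => ?_⟩
      have b5 := low n (k + t) (by exact_mod_cast b4)
        (by rw [iterate_add_apply, iter_cast t, b3, hk]) j
      exact lt_of_lt_of_le (by exact_mod_cast (by omega : (N : ℤ) < (T 3)^[j] n)) (le_abs_self _))
      Nat.cast_injective.injOn ((Set.finite_Icc (-⌈x⌉) ⌈x⌉).subset fun n hn => abs_le.1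
        (by exact_mod_cast hn.1.trans (Int.le_ceil x))))).trans h1)
  rw [← mul_div_assoc, div_le_div_iff₀ a0 (by linarith)] at a4
  nlinarith [mul_pos hc (show 0 < x by linarith)]

theorem link_pow {c C : ℝ} (hc : 1 < c) (h : ∀ x N : ℝ, 1 ≤ x → 1 ≤ N →
    ({n : ℤ | |(n : ℝ)| ≤ x ∧ ∀ j : ℕ, (j : ℝ) ≤ C * Real.log x →
      N < |(((T 3)^[j] n : ℤ) : ℝ)|}.ncard : ℝ) ≤ C * x * N ^ (-c)) :
    (periodicPts (T 3)).Finite := by
  classical
  have h2 := (tendsto_rpow_neg_atTop (sub_pos.2 hc)).const_mul (2 * |C|)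
  rw [mul_zero] at h2
  obtain ⟨N₀, hN⟩ := eventually_atTop.1 ((tendsto_natCast_atTop_atTop (R := ℝ)).eventually
    (h2.eventually_lt_const one_pos))
  refine ((Set.finite_Icc (-(N₀ + 1) : ℤ) (N₀ + 1)).biUnion fun y _ => finite_reach (T 3) y).subset
    fun p hp => ?_
  have ex : ∃ m : ℕ, ∃ i, ((T 3)^[i] p).natAbs = m := ⟨_, 0, rfl⟩
  obtain ⟨i, hi⟩ := Nat.find_spec ex
  have low : ∀ j, Nat.find ex ≤ ((T 3)^[j] ((T 3)^[i] p)).natAbs := fun j =>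
    Nat.find_le ⟨j + i, by rw [iterate_add_apply]⟩
  generalize Nat.find ex = m at hi low
  refine Set.mem_biUnion (x := (T 3)^[i] p) (abs_le.1 (not_lt.1 fun hm => ?_))
    ⟨hp, reach hp (i := 0) rfl i⟩
  rw [← Int.natCast_natAbs, hi] at hm
  obtain ⟨N, rfl⟩ : ∃ N, m = N + 1 := ⟨m - 1, by omega⟩
  have N1 : (1 : ℝ) ≤ N := by exact_mod_cast (by omega : 1 ≤ N)
  have nab : ∀ a : ℤ, |(a : ℝ)| = (a.natAbs : ℕ) := fun a => by simp
  have a1 := le_trans (Nat.one_le_cast.2 ((Set.ncard_pos ((Set.finite_Icc (-(N + 1) : ℤ)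
    (N + 1)).subset fun n hn => abs_le.1 (by exact_mod_cast hn.1))).2 (by
      exact ⟨(T 3)^[i] p, by rw [nab, hi]; simp, fun j _ => by rw [nab]; exact_mod_cast low j⟩)))
    (h (N + 1) N (by linarith) N1)
  have a2 := hN N (by omega)
  rw [neg_sub, Real.rpow_sub (by linarith), Real.rpow_one, div_eq_mul_inv,
    ← Real.rpow_neg (by linarith)] at a2
  have a3 : C * (N + 1) ≤ |C| * (2 * N) :=
    mul_le_mul (le_abs_self C) (by linarith) (by linarith) (abs_nonneg C)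
  linarith [mul_le_mul_of_nonneg_right a3 (Real.rpow_nonneg (show (0 : ℝ) ≤ N by linarith) (-c))]

end Pool.Agent.Lib.MP_dee342_nt.Ab
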