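import Pool.Agent.Lib.MP_76ba2b_nt.NdA

/-! Backward words whose multipliers grow, and the points they reach. -/

set_option autoImplicit false

namespace Pool.Agent.Lib.MP_dee342_nt.Ab

open Finset Pool.Agent.Lib.MP_76ba2b_nt

/-- All initial segments of the word have a large multiplier. -/
def Ok (ρ : ℝ) (l₁ : ℕ) (w : List Bool) : Prop :=
  ∀ l ≤ w.length, (3 : ℝ) ^ ones (w.take l) ≤ 2 * 2 ^ l * ρ ^ (l - l₁)

theorem Ok.take {ρ : ℝ} {l₁ : ℕ} {w : List Bool} (h : Ok ρ l₁ w) (p : ℕ) : Ok ρ l₁ (w.take p) := by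
  intro l hl
  rw [List.length_take] at hl
  rw [List.take_take, min_eq_left (hl.trans (min_le_left _ _))]
  exact h l (hl.trans (min_le_right _ _))

theorem off_take_succ (w : List Bool) (l : ℕ) (hl : l < w.length) :
    off (w.take (l + 1)) ≤ 2 * off (w.take l) + 3 ^ ones (w.take l) := by
  rw [List.take_succ_eq_append_getElem hl, off_append]
  cases w[l] <;> simp [off]

theorem off_take_le {w : List Bool} {r : ℕ → ℝ} (l : ℕ) (hl : l ≤ w.length)
    (h : ∀ i < l, (3 : ℝ) ^ ones (w.take i) ≤ 2 * 2 ^ i * r i) :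
    (off (w.take l) : ℝ) ≤ 2 ^ l * ∑ i ∈ range l, r i := by
  induction l with
  | zero => simp [off]
  | succ l ih =>
    have h1 : (off (w.take (l + 1)) : ℝ) ≤ 2 * off (w.take l) + 3 ^ ones (w.take l) := by
      exact_mod_cast off_take_succ w l hl
    have h2 := ih (by omega) fun i hi => h i (by omega)
    have h3 := h l l.lt_succ_self
    rw [sum_range_succ, pow_succ]
    linarith

theorem sum_rho {ρ : ℝ} (h0 : 0 ≤ ρ) (h1 : ρ < 1) (l₁ l : ℕ) :
    ∑ i ∈ range l, ρ ^ (i - l₁) ≤ (l₁ + ⌈(1 - ρ)⁻¹⌉₊ : ℕ) := by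
  have a1 : ∑ i ∈ range l, ρ ^ (i - l₁) ≤ ∑ i ∈ range (l₁ + l), ρ ^ (i - l₁) :=
    sum_le_sum_of_subset_of_nonneg (range_subset_range.2 (by omega)) fun _ _ _ => by positivity
  rw [sum_range_add] at a1
  have a2 : ∑ i ∈ range l₁, ρ ^ (i - l₁) = l₁ := by
    rw [sum_congr rfl fun i hi => by rw [Nat.sub_eq_zero_of_le (mem_range.1 hi).le, pow_zero]]
    simp
  have a3 : ∑ i ∈ range l, ρ ^ (l₁ + i - l₁) ≤ (1 - ρ)⁻¹ := by
    simp only [Nat.add_sub_cancel_left]
    rw [← tsum_geometric_of_lt_one h0 h1]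
    exact (summable_geometric_of_lt_one h0 h1).sum_le_tsum _ fun _ _ => by positivity
  push_cast
  linarith [Nat.le_ceil (1 - ρ)⁻¹]

theorem Ok.off_le {ρ : ℝ} (h0 : 0 ≤ ρ) (h1 : ρ < 1) {l₁ : ℕ} {w : List Bool} (h : Ok ρ l₁ w) :
    off w ≤ (l₁ + ⌈(1 - ρ)⁻¹⌉₊) * 2 ^ w.length := by
  have a := off_take_le (r := fun i => ρ ^ (i - l₁)) w.length le_rfl fun i hi => h i hi.le
  rw [List.take_length] at a
  have b := a.trans (mul_le_mul_of_nonneg_left (sum_rho h0 h1 l₁ _) (by positivity))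
  rw [mul_comm] at b
  exact_mod_cast b

/-- The predecessors with given numbers of steps and bounded offset lie in a short interval. -/
theorem meas {L Tt K s : ℕ} {G : Finset (List Bool)} {h : ℕ → ℕ → ℝ} {e : ℝ}
    (hp : ∀ k, Per K (h k)) (h0 : ∀ k b, 0 ≤ h k b) (he : ∀ k, Mean K (h k) ≤ e)
    (hG : ∀ w ∈ G, w.length = L ∧ off w ≤ Tt * 2 ^ L ∧ 3 ^ (ones w + K) ≤ 2 * 2 ^ L) :
    ∑ w ∈ G, dl w s * h (ones w) (endp w s) ≤ 2 ^ L * ((L + 1) * (Tt + 6) * e) := by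
  classical
  have hM := fun k => Mean_nonneg K (h0 k)
  have he0 : 0 ≤ e := (hM 0).trans (he 0)
  rw [← sum_fiberwise_of_maps_to (s := G) (t := range (L + 1)) (g := ones)
    (fun w hw => mem_range.mpr (by have := ones_le w; have := (hG w hw).1; omega))]
  have key : ∀ k ∈ range (L + 1), ∑ w ∈ G with ones w = k, dl w s * h (ones w) (endp w s) ≤
      2 ^ L * ((Tt + 6) * e) := by
    intro k _
    by_cases hk : 3 ^ (k + K) ≤ 2 * 2 ^ L
    swap
    · rw [sum_eq_zero]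
      · positivity
      · intro w hw
        rw [mem_filter] at hw
        exact absurd (hw.2 ▸ (hG w hw.1).2.2) hk
    set V := (G.filter (fun w => ones w = k)).filter (fun w => valid w s) with hV
    have e1 : ∑ w ∈ G with ones w = k, dl w s * h (ones w) (endp w s) =
        3 ^ k * ∑ w ∈ V, h k (endp w s) := by
      rw [hV, sum_filter (p := fun w => valid w s), mul_sum]
      apply sum_congr rfl; intro w hw
      split_ifs with hv
      · rw [dl_of_valid hv, (mem_filter.mp hw).2]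
      · rw [dl_of_not_valid hv]; simp
    have hVm : ∀ w ∈ V, w ∈ G ∧ ones w = k ∧ valid w s := by
      intro w hw
      simp only [hV, mem_filter] at hw
      exact ⟨hw.1.1, hw.1.2, hw.2⟩
    rw [e1, ← sum_image (f := h k) (g := fun w => endp w s) (s := V)]
    swap
    · intro a ha b hb hab
      have ha := hVm a ha
      have hb := hVm b hb
      exact endp_inj a b s ((hG a ha.1).1.trans (hG b hb.1).1.symm) ha.2.2 hb.2.2 hab
    have h3 : 0 < 3 ^ k := by positivity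
    have a1 := (hp k).sum_le (h0 k) (S := V.image (fun w => endp w s))
      (a := (2 ^ L * s - Tt * 2 ^ L) / 3 ^ k) (D := Tt * 2 ^ L / 3 ^ k + 2) (by
      intro c hc
      obtain ⟨w, hw, rfl⟩ := mem_image.mp hc
      obtain ⟨b1, b2, b3⟩ := hVm w hw
      have b4 := endp_eq w s b3
      obtain ⟨b5, b6, -⟩ := hG w b1
      rw [b2, b5] at b4
      constructor
      · apply Nat.div_le_of_le_mul; omega
      · apply Nat.lt_of_mul_lt_mul_left (a := 3 ^ k)
        have c1 := Nat.lt_mul_div_succ (2 ^ L * s - Tt * 2 ^ L) h3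
        have c2 := Nat.lt_mul_div_succ (Tt * 2 ^ L) h3
        have : 3 ^ k * ((2 ^ L * s - Tt * 2 ^ L) / 3 ^ k + (Tt * 2 ^ L / 3 ^ k + 2)) =
          3 ^ k * ((2 ^ L * s - Tt * 2 ^ L) / 3 ^ k + 1) + 3 ^ k * (Tt * 2 ^ L / 3 ^ k + 1) := by ring
        omega)
    have a2 : 3 ^ k * ((Tt * 2 ^ L / 3 ^ k + 2) + 3 ^ K) ≤ 2 ^ L * (Tt + 6) := by
      have c1 := Nat.mul_div_le (Tt * 2 ^ L) (3 ^ k)
      have c3 := (Nat.pow_le_pow_right (n := 3) (by norm_num) (Nat.le_add_right k K)).trans hk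
      rw [pow_add] at hk
      nlinarith
    have a3 : (3 : ℝ) ^ k * (((Tt * 2 ^ L / 3 ^ k + 2 : ℕ) : ℝ) + 3 ^ K) ≤ 2 ^ L * (Tt + 6) := by
      exact_mod_cast a2
    have := hM k
    have := he k
    calc _ ≤ (3 : ℝ) ^ k * ((((Tt * 2 ^ L / 3 ^ k + 2 : ℕ) : ℝ) + 3 ^ K) * Mean K (h k)) := by
          gcongr
      _ ≤ 2 ^ L * (Tt + 6) * e := by rw [← mul_assoc]; gcongr
      _ = _ := by ring
  refine (sum_le_sum key).trans (le_of_eq ?_)
  rw [sum_const, card_range, nsmul_eq_mul]; push_cast; ring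

theorem gs_per (ψ : ℕ → ℝ) {M K : ℕ} (h : M ≤ K) : Per K (gs ψ M) := fun b => by
  unfold gs
  congr 1
  exact sum_congr rfl fun v hv => by rw [dl_per ((mem_Str.1 hv).trans_le h) b]

theorem gs_nonneg {ψ : ℕ → ℝ} (h : ∀ i, 0 ≤ ψ i) (M b : ℕ) : 0 ≤ gs ψ M b :=
  div_nonneg (sum_nonneg fun w _ => mul_nonneg (h _) (dl_nonneg w b)) (by positivity)

theorem gs_mean {ψ : ℕ → ℝ} (h : ∀ i, ψ i ≤ 1) {M K : ℕ} (hK : M ≤ K) : Mean K (gs ψ M) ≤ 1 := by
  have a : Mean K (gs ψ M) ≤ Mean K fun b => (∑ w ∈ Str M, dl w b) / 2 ^ M :=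
    Mean_mono K fun b => div_le_div_of_nonneg_right (sum_le_sum fun w _ =>
      mul_le_of_le_one_left (dl_nonneg w b) (h _)) (by positivity)
  rw [Mean_div, Mean_sum, sum_congr rfl (fun v hv => mean_dl ((mem_Str.1 hv).trans_le hK)),
    sum_const, card_Str, nsmul_eq_mul] at a
  simpa using a

open Classical in
/-- The mass of the words of length `L` whose first `p` letters are good. -/
noncomputable def V (ρ : ℝ) (l₁ b p L : ℕ) (ψ : ℕ → ℝ) : ℝ :=
  (∑ w ∈ Str L, if Ok ρ l₁ (w.take p) then ψ (ones w) * dl w b else 0) / 2 ^ L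

variable {ρ : ℝ} {l₁ b : ℕ}

theorem V_anti {ψ : ℕ → ℝ} (h : ∀ i, 0 ≤ ψ i) {p p' : ℕ} (hp : p ≤ p') (L : ℕ) :
    V ρ l₁ b p' L ψ ≤ V ρ l₁ b p L ψ := by
  refine div_le_div_of_nonneg_right (sum_le_sum fun w _ => ?_) (by positivity)
  by_cases h1 : Ok ρ l₁ (w.take p')
  · have h2 := h1.take p
    rw [List.take_take, min_eq_left hp] at h2
    rw [if_pos h1, if_pos h2]
  · rw [if_neg h1]
    split_ifs
    · exact mul_nonneg (h _) (dl_nonneg w b)
    · exact le_rfl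

theorem V_nonneg {ψ : ℕ → ℝ} (h : ∀ i, 0 ≤ ψ i) (p L : ℕ) : 0 ≤ V ρ l₁ b p L ψ := by
  refine div_nonneg (sum_nonneg fun w _ => ?_) (by positivity)
  split_ifs
  · exact mul_nonneg (h _) (dl_nonneg w b)
  · exact le_rfl

theorem V_comb {φ Φ Ψ : ℕ → ℝ} {c : ℝ} (h : ∀ i, φ i ≤ c * (Φ i - Ψ i)) (p L : ℕ) :
    V ρ l₁ b p L φ ≤ c * (V ρ l₁ b p L Φ - V ρ l₁ b p L Ψ) := by
  unfold V
  rw [← sub_div, ← mul_div_assoc, ← sum_sub_distrib, mul_sum]
  refine div_le_div_of_nonneg_right (sum_le_sum fun w _ => ?_) (by positivity)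
  split_ifs
  · rw [← sub_mul, ← mul_assoc]
    exact mul_le_mul_of_nonneg_right (h _) (dl_nonneg w b)
  · simp

open Classical in
theorem V_fact (ψ : ℕ → ℝ) (p M : ℕ) : V ρ l₁ b p (p + M) ψ =
    (∑ v ∈ (Str p).filter (Ok ρ l₁), dl v b * gs (fun i => ψ (ones v + i)) M (endp v b)) / 2 ^ p := by
  unfold V gs
  rw [sum_Str_add, sum_filter, pow_add, mul_comm ((2 : ℝ) ^ p), ← div_div, sum_div]
  congr 1
  refine sum_congr rfl fun v hv => ?_
  simp only [List.take_left' (mem_Str.1 hv), ones_append, dl_append]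
  split_ifs
  · rw [← mul_div_assoc, mul_sum]
    congr 1
    exact sum_congr rfl fun u _ => by ring
  · simp

end Pool.Agent.Lib.MP_dee342_nt.Ab
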