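import Mathlib
import Pool.Agent.Lib.Common.TwoLogs.Main
import Pool.Agent.Lib.MP_dee342_nt.Defs

/-!
Every integer cycle of period `p` of `T_a` has an element of size at most `exp (C log² (p + 2))`.
-/

set_option autoImplicit false

namespace Pool.Agent.Lib.MP_dee342_nt

open Real Finset

theorem two_mul_T_even {a x : ℤ} (hx : x % 2 = 0) : 2 * T a x = x := by
  simp only [T, if_pos hx]; omega

theorem two_mul_T_odd {a x : ℤ} (ha : Odd a) (hx : x % 2 ≠ 0) : 2 * T a x = a * x + 1 := by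
  simp only [T, if_neg hx]
  have h1 : Odd x := Int.odd_iff.mpr (by omega)
  have h2 : (a * x) % 2 = 1 := Int.odd_iff.mp (ha.mul h1)
  omega

theorem abs_log_one_add_le {t : ℝ} (ht : |t| ≤ 1 / 2) : |log (1 + t)| ≤ 2 * |t| := by
  obtain ⟨h1, h2⟩ := abs_le.mp ht
  have hpos : 0 < 1 + t := by linarith
  refine abs_le.mpr ⟨?_, ?_⟩
  · have h3 := Real.one_sub_inv_le_log_of_pos hpos
    refine le_trans ?_ h3
    have h4 : 1 - (1 + t)⁻¹ = t / (1 + t) := by field_simp; ring
    rw [h4, le_div_iff₀ hpos]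
    rcases abs_cases t with ⟨h, h'⟩ | ⟨h, h'⟩ <;> rw [h] <;> nlinarith
  · have := Real.log_le_sub_one_of_pos hpos
    linarith [le_abs_self t, abs_nonneg t]

/-- One step of the map, in logarithmic form. -/
theorem log_step (a : ℕ) (ha : Odd a) (ha3 : 3 ≤ a) (x : ℤ) (hx : x ≠ 0) :
    |log 2 + log |(T a x : ℝ)| - log |(x : ℝ)| - (if x % 2 = 0 then 0 else log a)| ≤
      1 / |(x : ℝ)| := by
  have hx' : (1 : ℝ) ≤ |(x : ℝ)| := by exact_mod_cast Int.one_le_abs hx
  have hx0 : (x : ℝ) ≠ 0 := by exact_mod_cast hx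
  have ha' : (3 : ℝ) ≤ a := by exact_mod_cast ha3
  split_ifs with h
  · have h1 : (x : ℝ) = 2 * T a x := by exact_mod_cast (two_mul_T_even h).symm
    have h2 : (T a x : ℝ) ≠ 0 := fun h0 => hx0 (by rw [h1, h0, mul_zero])
    have h3 : log |(x : ℝ)| = log 2 + log |(T a x : ℝ)| := by
      rw [log_abs, log_abs, ← log_mul (by norm_num) h2, ← h1]
    rw [h3]
    simp
  · have h1 : (2 * T a x : ℝ) = a * x + 1 := by
      exact_mod_cast two_mul_T_odd (a := (a : ℤ)) (by exact_mod_cast ha) h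
    have ht : |1 / (a * x : ℝ)| ≤ 1 / (2 * |(x : ℝ)|) := by
      rw [abs_div, abs_one, abs_mul, abs_of_pos (by linarith : (0 : ℝ) < a)]
      gcongr
      linarith
    have ht2 : |1 / (a * x : ℝ)| ≤ 1 / 2 := by
      refine ht.trans ?_
      gcongr
      linarith
    have hpos : 0 < 1 + 1 / (a * x : ℝ) := by linarith [(abs_le.mp ht2).1]
    have h2 : (2 * T a x : ℝ) = a * x * (1 + 1 / (a * x)) := by rw [h1]; field_simp
    have h3 : (T a x : ℝ) ≠ 0 := by
      intro h0
      rw [h0, mul_zero] at h2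
      exact absurd h2.symm (by positivity)
    have h4 : log 2 + log |(T a x : ℝ)| = log a + log |(x : ℝ)| + log (1 + 1 / (a * x)) := by
      rw [log_abs, log_abs, ← log_mul (by norm_num) h3, h2, log_mul (by positivity) hpos.ne',
        log_mul (by positivity) hx0]
    rw [h4, show log (a : ℝ) + log |(x : ℝ)| + log (1 + 1 / (a * x)) - log |(x : ℝ)| - log a =
      log (1 + 1 / (a * x)) by ring]
    refine (abs_log_one_add_le ht2).trans ?_
    calc 2 * |1 / (a * x : ℝ)| ≤ 2 * (1 / (2 * |(x : ℝ)|)) := by gcongr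
      _ = 1 / |(x : ℝ)| := by field_simp

/-- Every cycle of period `p` contains a point of size at most `exp (C log² (p + 2))`. -/
theorem min_bound (a : ℕ) (ha : Odd a) (ha3 : 3 ≤ a) :
    ∃ C : ℝ, 0 < C ∧ ∀ (x : ℤ) (p : ℕ), 0 < p → (T a)^[p] x = x →
      ∃ i < p, |(((T a)^[i] x : ℤ) : ℝ)| ≤ exp (C * log (p + 2) ^ 2) := by
  obtain ⟨C, hC, h2⟩ := Common.TwoLogs.two_logs 2 a le_rfl (by omega)
  refine ⟨4 * C + 1, by positivity, fun x p hp hx => ?_⟩
  by_contra hcon
  push Not at hcon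
  set μ := exp ((4 * C + 1) * log (p + 2) ^ 2) with hμ
  have hμ0 : 0 < μ := exp_pos _
  have hne : ∀ i < p, (T a)^[i] x ≠ 0 := by
    intro i hi h
    have := hcon i hi
    rw [h] at this
    simp at this
    linarith
  let k := ((range p).filter fun i => ¬ ((T a)^[i] x % 2 = 0)).card
  have hkp : k ≤ p := (card_filter_le _ _).trans (card_range p).le
  have hsum : (p : ℝ) * log 2 - k * log a = ∑ i ∈ range p,
      (log 2 + log |((T a ((T a)^[i] x) : ℤ) : ℝ)| - log |(((T a)^[i] x : ℤ) : ℝ)| -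
        (if (T a)^[i] x % 2 = 0 then 0 else log a)) := by
    have h3 := sum_range_sub (fun i => log |(((T a)^[i] x : ℤ) : ℝ)|) p
    simp only [Function.iterate_succ_apply', hx, Function.iterate_zero, id, sub_self] at h3
    simp only [add_sub_assoc, sum_sub_distrib, sum_add_distrib] at h3 ⊢
    rw [h3, sum_ite]
    simp [k, sub_eq_add_neg]
  have hle : |(p : ℝ) * log 2 - k * log a| ≤ p / μ := by
    rw [hsum]
    refine (abs_sum_le_sum_abs _ _).trans ?_
    refine (sum_le_sum (g := fun _ => 1 / μ) fun i hi => ?_).trans (by simp [div_eq_mul_inv])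
    refine (log_step a ha ha3 _ (hne i (mem_range.mp hi))).trans ?_
    exact one_div_le_one_div_of_le hμ0 (hcon i (mem_range.mp hi)).le
  have h3 := h2 p k (by
    intro h
    have h4 : 2 ^ p = a ^ k := by exact_mod_cast h
    have h5 : Odd (2 ^ p) := h4 ▸ ha.pow
    exact (Nat.not_even_iff_odd.mpr h5) (Nat.even_pow.mpr ⟨even_two, hp.ne'⟩))
  have hp' : (1 : ℝ) ≤ p := by exact_mod_cast hp
  have hkp' : (k : ℝ) ≤ p := by exact_mod_cast hkp
  have hk0 : (0 : ℝ) ≤ k := by positivity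
  have hlog1 : 1 ≤ log ((p : ℝ) + 2) := by
    rw [le_log_iff_exp_le (by linarith)]
    have := Real.exp_one_lt_d9
    linarith
  have h4 : log ((p : ℝ) + k + 2) ≤ 2 * log ((p : ℝ) + 2) := by
    rw [two_mul, ← log_mul (by linarith) (by linarith)]
    exact log_le_log (by linarith) (by nlinarith)
  have h5 : log ((p : ℝ) + k + 2) ^ 2 ≤ (2 * log ((p : ℝ) + 2)) ^ 2 :=
    pow_le_pow_left₀ (log_nonneg (by linarith)) h4 2
  have h6 : (p : ℝ) / μ < exp (-C * log ((p : ℝ) + k + 2) ^ 2) := by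
    rw [div_lt_iff₀ hμ0, hμ, ← exp_add]
    calc (p : ℝ) < exp (log (p + 2)) := by rw [exp_log (by linarith)]; linarith
      _ ≤ _ := exp_le_exp.mpr (by nlinarith)
  push_cast at h3
  linarith

end Pool.Agent.Lib.MP_dee342_nt
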