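import Pool.Agent.Lib.MP_dee342_nt.QDefs

/-! The choice of the parameters. -/

namespace Pool.Agent.Lib.MP_dee342_nt.Q

open Finset Function

theorem qasym_pow {R : ℕ} (hR : 10 ^ 7 ≤ R) : R ^ 28 ≤ 2 ^ R := by
  have h : ∀ k, 9 ≤ k → 28 * (k + 1) ≤ 2 ^ k := fun k hk => by
    induction k, hk using Nat.le_induction with
    | base => norm_num
    | succ k _ ih =>
      rw [pow_succ]
      omega
  have h1 : R ≤ 2 ^ (R / 28) := le_trans (by omega) (h (R / 28) (by omega))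
  refine (Nat.pow_le_pow_left h1 28).trans ?_
  rw [← pow_mul]
  exact Nat.pow_le_pow_right two_pos (Nat.div_mul_le_self R 28)

/-- `(R ^ 13 + 1) ^ 2 ≤ 2 ^ R` for large `R`, for instance from `R ^ 27 ≤ 2 ^ R`. -/
theorem om_le {R : ℕ} (hR : 10 ^ 7 ≤ R) : Om R ≤ 2 ^ R ^ 14 := by
  have h1 : R ^ 13 + 1 ≤ R ^ 14 :=
    Nat.pow_lt_pow_right (by omega) (by norm_num)
  have h2 : (R ^ 13 + 1) ^ 2 ≤ 2 ^ R := by
    refine (Nat.pow_le_pow_left h1 2).trans ?_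
    rw [← pow_mul]
    exact qasym_pow hR
  rw [Om, pow_mul, pow_succ' R 13, pow_mul]
  exact Nat.pow_le_pow_left h2 _

theorem qasym_two (n : ℕ) : (2 : ℝ) ^ n ≤ Real.exp n := by
  rw [← mul_one (n : ℝ), Real.exp_nat_mul]
  exact pow_le_pow_left₀ zero_le_two (by linarith [Real.add_one_le_exp 1]) n

theorem qasym_min {C L : ℝ} {p Z : ℕ} (hpL : Real.exp L = p) (hL1 : 1 ≤ L)
    (hL : 96 * (4 * |C| + 1) ≤ L) (hZ : Real.exp (L / 2) ≤ Z) :
    Real.exp (C * Real.log (p + 2) ^ 2) + 1 ≤ 2 ^ Z := by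
  have hC := abs_nonneg C
  have hp0 : (0 : ℝ) < p := hpL ▸ Real.exp_pos L
  have h1 : Real.log (p + 2) ≤ 2 * L := by
    rw [Real.log_le_iff_le_exp (by positivity), two_mul, Real.exp_add, hpL]
    have := Real.add_one_le_exp L
    nlinarith
  have h2 : 0 ≤ Real.log (p + 2) := Real.log_nonneg (by linarith)
  have h3 : C * Real.log (p + 2) ^ 2 ≤ |C| * (2 * L) ^ 2 :=
    mul_le_mul (le_abs_self C) (pow_le_pow_left₀ h2 h1 2) (by positivity) hC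
  have h4 : (L / 2) ^ 3 / 6 ≤ Real.exp (L / 2) := by
    simpa [Nat.factorial] using Real.pow_div_factorial_le_exp (L / 2) (by linarith) 3
  have h5 : |C| * (2 * L) ^ 2 + 1 ≤ (L / 2) ^ 3 / 6 / 2 := by
    have h6 : 96 * (4 * |C| + 1) * L ^ 2 ≤ L * L ^ 2 :=
      mul_le_mul_of_nonneg_right hL (by positivity)
    have h7 : 1 ≤ L ^ 2 := one_le_pow₀ hL1
    nlinarith
  have h6 : Real.exp ((Z : ℝ) * (1 / 2)) ≤ 2 ^ Z := by
    rw [Real.exp_nat_mul]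
    refine pow_le_pow_left₀ (Real.exp_pos _).le ?_ _
    rw [← Real.le_log_iff_exp_le two_pos]
    linarith [Real.log_two_gt_d9]
  refine le_trans ?_ ((Real.exp_le_exp.2
    (show |C| * (2 * L) ^ 2 + 1 ≤ _ by linarith)).trans h6)
  have h7 := Real.exp_le_exp.2 h3
  have h8 := Real.one_le_exp (show 0 ≤ |C| * (2 * L) ^ 2 by positivity)
  have h9 := Real.add_one_le_exp 1
  rw [Real.exp_add]
  nlinarith

/-- With `L = log p = S ^ 28`, `κ = 2 a / η` take `R = ⌊S / κ⌋₊`, `r = R / 8`,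
`Z = ⌈exp ((1 - η / 2) L)⌉₊`. -/
theorem exists_params (a : ℕ) (ha3 : 3 ≤ a) (C : ℝ) {η : ℝ} (hη : 0 < η) (hη1 : η ≤ 1) :
    ∃ K : ℝ, ∀ p m : ℕ, 1 ≤ m → K * (m : ℝ) ^ (28 / 29 : ℝ) < Real.log p →
      ∃ R r Z : ℕ, 10 ^ 7 * (a + 4) ^ 4 ≤ R ∧ 1 ≤ r ∧ 8 * r ≤ R ∧
      R ^ 20 * Om R ≤ Z ∧ Real.exp (C * Real.log (p + 2) ^ 2) + 1 ≤ 2 ^ Z ∧
      (∀ v : ℕ, (v : ℝ) ≤ (p : ℝ) ^ (1 - η) → v * (16 * a * R ^ 4) ≤ Z) ∧
      ((16 * a * R ^ 4 : ℕ) : ℝ) ≤ Real.log p ∧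
      (8 * a + 1) ^ (m / r + 1) * (2 * a + 1) ^ (r * (R ^ 14 * R ^ 13)) * Z < p := by
  have ha : (3 : ℝ) ≤ a := by exact_mod_cast ha3
  obtain ⟨κ, hκ⟩ : ∃ κ : ℝ, κ = 2 * a / η := ⟨_, rfl⟩
  have hκη : κ * η = 2 * a := by rw [hκ]; field_simp
  have hκ1 : 1 ≤ κ := by rw [hκ, le_div_iff₀ hη]; linarith
  obtain ⟨A, hA⟩ : ∃ A : ℕ, A = 10 ^ 7 * (a + 4) ^ 4 := ⟨_, rfl⟩
  have hC := abs_nonneg C
  have hA0 : (0 : ℝ) ≤ (κ * A) ^ 28 := by positivity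
  have hκ2 : κ ≤ κ ^ 2 := le_self_pow₀ hκ1 two_ne_zero
  obtain ⟨K, hK⟩ : ∃ K : ℝ, K = (κ * A) ^ 28 + 96 * (4 * |C| + 1) + 1024 * κ ^ 2 := ⟨_, rfl⟩
  have hK1 : 1 ≤ K := by linarith
  refine ⟨K, fun p m hm1 hm => ?_⟩
  obtain ⟨L, hL⟩ : ∃ L, L = Real.log p := ⟨_, rfl⟩
  rw [← hL] at hm ⊢
  have hm0 : (1 : ℝ) ≤ m := by exact_mod_cast hm1
  obtain ⟨μ, hμ1, hμ2, hμ3⟩ : ∃ μ : ℝ, 1 ≤ μ ∧ μ ^ 29 = m ∧ (m : ℝ) ^ (28 / 29 : ℝ) = μ ^ 28 := by
    refine ⟨(m : ℝ) ^ ((29 : ℕ) : ℝ)⁻¹, Real.one_le_rpow hm0 (by positivity),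
      Real.rpow_inv_natCast_pow (by linarith) (by norm_num), ?_⟩
    rw [← Real.rpow_natCast, ← Real.rpow_mul (by linarith)]
    norm_num
  rw [hμ3] at hm
  have hμ4 : 1 ≤ μ ^ 28 := one_le_pow₀ hμ1
  have hKL : K ≤ L := by nlinarith
  have hL1 : 1 ≤ L := hK1.trans hKL
  have hp0 : (0 : ℝ) < p := by
    rcases Nat.eq_zero_or_pos p with rfl | h
    · simp at hL
      linarith
    · exact_mod_cast h
  have hpL : Real.exp L = p := by rw [hL, Real.exp_log hp0]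
  obtain ⟨S, hS0, hS1⟩ : ∃ S : ℝ, 0 ≤ S ∧ S ^ 28 = L :=
    ⟨L ^ ((28 : ℕ) : ℝ)⁻¹, by positivity, Real.rpow_inv_natCast_pow (by linarith) (by norm_num)⟩
  have hμS : μ ≤ S := le_of_pow_le_pow_left₀ (show 28 ≠ 0 by norm_num) hS0 (by nlinarith)
  have hAS : κ * A ≤ S := le_of_pow_le_pow_left₀ (show 28 ≠ 0 by norm_num) hS0 (by nlinarith)
  have hκ0 : 0 < κ := by linarith
  obtain ⟨R, hR⟩ : ∃ R, R = ⌊S / κ⌋₊ := ⟨_, rfl⟩
  have hR1 : 10 ^ 7 * (a + 4) ^ 4 ≤ R := by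
    rw [hR, ← hA]
    exact Nat.le_floor (by rw [le_div_iff₀ hκ0]; linarith)
  have hR2 : 10 ^ 7 * (a + 4) ≤ R :=
    (Nat.mul_le_mul_left _ (Nat.le_self_pow (by norm_num) _)).trans hR1
  have hR3 : (R : ℝ) ^ 28 * (2 * a) ≤ η * L := by
    have h1 : (R : ℝ) * κ ≤ S := by
      rw [← le_div_iff₀ hκ0, hR]
      exact Nat.floor_le (by positivity)
    have h2 := pow_le_pow_left₀ (by positivity) h1 28
    rw [hS1, mul_pow] at h2
    have h3 := mul_le_mul_of_nonneg_left (le_self_pow₀ hκ1 (show 28 ≠ 0 by norm_num))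
      (show (0 : ℝ) ≤ (R : ℝ) ^ 28 by positivity)
    rw [← hκη, ← mul_assoc, mul_comm η]
    exact mul_le_mul_of_nonneg_right (h3.trans h2) hη.le
  have hηL : η * L ≤ L := by nlinarith
  have hR4 : S ≤ 32 * (R / 8 : ℕ) * κ := by
    have h1 : S / κ < R + 1 := hR ▸ Nat.lt_floor_add_one _
    have h2 : R + 1 ≤ 32 * (R / 8) := by omega
    rw [← div_le_iff₀ hκ0]
    exact h1.le.trans (by exact_mod_cast h2)
  obtain ⟨Z, hZ⟩ : ∃ Z, Z = ⌈Real.exp ((1 - η / 2) * L)⌉₊ := ⟨_, rfl⟩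
  have hZ0 : Real.exp ((1 - η / 2) * L) ≤ Z := hZ ▸ Nat.le_ceil _
  have hZ1 : Real.exp (L / 2) ≤ Z := (Real.exp_le_exp.2 (by linarith)).trans hZ0
  have hZ2 : (Z : ℝ) ≤ Real.exp ((1 - η / 2) * L + 1) := by
    have h1 : (Z : ℝ) < Real.exp ((1 - η / 2) * L) + 1 :=
      hZ ▸ Nat.ceil_lt_add_one (Real.exp_pos _).le
    have h2 := Real.one_le_exp (show 0 ≤ (1 - η / 2) * L by linarith)
    have h3 := Real.add_one_le_exp 1
    rw [Real.exp_add]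
    nlinarith
  have hR5 : ((16 * a * R ^ 4 : ℕ) : ℝ) ≤ η * L / 2 := by
    have h1 : 16 * R ^ 4 ≤ R ^ 28 := by
      rw [show 28 = 24 + 4 from rfl, pow_add]
      exact Nat.mul_le_mul_right _ (le_trans (by omega) (Nat.le_self_pow (by norm_num) R))
    have h2 : (16 : ℝ) * R ^ 4 ≤ (R : ℝ) ^ 28 := by exact_mod_cast h1
    push_cast
    nlinarith
  refine ⟨R, R / 8, Z, hR1, by omega, Nat.mul_div_le R 8, ?_,
    qasym_min hpL hL1 (by linarith) hZ1, fun v hv => ?_, by linarith, ?_⟩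
  · have h1 : R ^ 20 * Om R ≤ 2 ^ (2 * R ^ 14) := by
      rw [two_mul, pow_add]
      refine Nat.mul_le_mul ?_ (om_le (by omega))
      exact ((Nat.pow_le_pow_right (by omega) (by norm_num)).trans (qasym_pow (by omega))).trans
        (Nat.pow_le_pow_right two_pos (Nat.le_self_pow (by norm_num) R))
    have h2 : 2 * R ^ 14 ≤ R ^ 28 := by
      rw [show 28 = 14 + 14 from rfl, pow_add]
      exact Nat.mul_le_mul_right _ (le_trans (by omega) (Nat.le_self_pow (by norm_num) R))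
    have h3 : ((2 * R ^ 14 : ℕ) : ℝ) ≤ (R : ℝ) ^ 28 := by exact_mod_cast h2
    have h5 : (0 : ℝ) ≤ (R : ℝ) ^ 28 := by positivity
    have h4 := ((qasym_two (2 * R ^ 14)).trans (Real.exp_le_exp.2 (by nlinarith))).trans hZ1
    exact h1.trans (by exact_mod_cast h4)
  · rw [← hpL, ← Real.exp_mul] at hv
    have h2 : ((16 * a * R ^ 4 : ℕ) : ℝ) ≤ Real.exp (η * L / 2) := by
      linarith [Real.add_one_le_exp (η * L / 2)]
    have h3 := mul_le_mul hv h2 (Nat.cast_nonneg _) (Real.exp_pos _).le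
    rw [← Real.exp_add, show L * (1 - η) + η * L / 2 = (1 - η / 2) * L by ring] at h3
    exact_mod_cast h3.trans hZ0
  · have h1 : ((m / (R / 8) : ℕ) : ℝ) * K ≤ 32 * κ * L := by
      have h2 : ((m / (R / 8) : ℕ) : ℝ) * (R / 8 : ℕ) ≤ m := by
        exact_mod_cast Nat.div_mul_le_self m (R / 8)
      have h3 := mul_le_mul_of_nonneg_left hR4 (Nat.cast_nonneg (m / (R / 8)))
      have h4 : (m : ℝ) * K ≤ L * S := by
        rw [← hμ2, pow_succ, mul_right_comm, mul_comm _ K]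
        exact mul_le_mul hm.le hμS (by linarith) (by linarith)
      refine le_of_mul_le_mul_right ?_ (show 0 < S by linarith)
      calc _ = ((m / (R / 8) : ℕ) : ℝ) * S * K := by ring
        _ ≤ (((m / (R / 8) : ℕ) : ℝ) * (R / 8 : ℕ)) * K * (32 * κ) := by
          refine (mul_le_mul_of_nonneg_right h3 (by linarith)).trans (le_of_eq (by ring))
        _ ≤ L * S * (32 * κ) := by
          refine mul_le_mul_of_nonneg_right (le_trans ?_ h4) (by linarith)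
          exact mul_le_mul_of_nonneg_right h2 (by linarith)
        _ = _ := by ring
    have h2 : ((m / (R / 8) : ℕ) : ℝ) * (8 * a) ≤ η * L / 8 := by
      have h3 : ((m / (R / 8) : ℕ) : ℝ) * (1024 * κ ^ 2) ≤ 32 * κ * L :=
        (mul_le_mul_of_nonneg_left (by linarith) (Nat.cast_nonneg _)).trans h1
      have h4 : ((m / (R / 8) : ℕ) : ℝ) * (32 * κ) ≤ L :=
        le_of_mul_le_mul_right (by linarith) (show 0 < 32 * κ by linarith)
      have h5 := mul_le_mul_of_nonneg_left h4 hη.le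
      have h6 : η * (((m / (R / 8) : ℕ) : ℝ) * (32 * κ)) =
          ((m / (R / 8) : ℕ) : ℝ) * (64 * a) := by
        rw [show (64 : ℝ) * a = 32 * (2 * a) by ring, ← hκη]
        ring
      linarith
    have h3 : 8 * (R / 8 * (R ^ 14 * R ^ 13)) ≤ R ^ 28 := by
      rw [← mul_assoc 8, show R ^ 28 = R * (R ^ 14 * R ^ 13) by ring]
      exact Nat.mul_le_mul_right _ (Nat.mul_div_le R 8)
    have h4 : (8 : ℝ) * (R / 8 * (R ^ 14 * R ^ 13) : ℕ) ≤ (R : ℝ) ^ 28 := by exact_mod_cast h3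
    have h4' := mul_le_mul_of_nonneg_right h4 (show (0 : ℝ) ≤ 2 * a by linarith)
    have h5 : ((8 * a + 1 : ℝ)) ^ (m / (R / 8) + 1) ≤
        Real.exp ((m / (R / 8) + 1 : ℕ) * (8 * a)) := by
      rw [Real.exp_nat_mul]
      exact pow_le_pow_left₀ (by positivity) (Real.add_one_le_exp _) _
    have h6 : ((2 * a + 1 : ℝ)) ^ (R / 8 * (R ^ 14 * R ^ 13)) ≤
        Real.exp ((R / 8 * (R ^ 14 * R ^ 13) : ℕ) * (2 * a)) := by
      rw [Real.exp_nat_mul]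
      exact pow_le_pow_left₀ (by positivity) (Real.add_one_le_exp _) _
    have h7 := mul_le_mul (mul_le_mul h5 h6 (by positivity) (Real.exp_pos _).le) hZ2
      (Nat.cast_nonneg _) (by positivity)
    rw [← Real.exp_add, ← Real.exp_add] at h7
    have h9 : 1024 * (2 * a) ≤ η * L := by
      rw [← hκη]
      nlinarith
    have h8 := h7.trans_lt (Real.exp_lt_exp.2 (show _ < L by
      rw [Nat.cast_succ]
      linarith))
    rw [hpL] at h8
    exact_mod_cast h8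

end Pool.Agent.Lib.MP_dee342_nt.Q
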