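import Pool.Agent.Lib.MP_dee342_nt.CountCore

/-! Sizes of iterates and weights of parity words. -/

set_option autoImplicit false

namespace Pool.Agent.Lib.MP_dee342_nt.Count

open Finset Real Filter

theorem phi_bound {a : ℤ} (ha : 3 ≤ a) (G : ℕ) (v : Fin G → Bool) :
    0 ≤ phi a G v ∧ phi a G v + 2 ^ G ≤ 2 ^ (G - cnt v) * a ^ cnt v := by
  induction G with
  | zero => simp [phi, cnt]
  | succ G ih =>
    obtain ⟨h1, h2⟩ := ih (Fin.tail v)
    have h3 := cnt_le (Fin.tail v)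
    have h4 : 0 < a ^ cnt (Fin.tail v) := pow_pos (by omega) _
    have h5 : (1 : ℤ) ≤ 2 ^ (G - cnt (Fin.tail v)) := one_le_pow₀ (by norm_num)
    rw [phi, cnt_succ]
    split_ifs
    · rw [show G + 1 - (1 + cnt (Fin.tail v)) = G - cnt (Fin.tail v) by omega, pow_add a, pow_one,
        pow_succ]
      have h6 := mul_le_mul_of_nonneg_right h5 h4.le
      have h7 := mul_le_mul_of_nonneg_right ha (mul_nonneg (zero_le_one.trans h5) h4.le)
      constructor <;> linarith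
    · rw [show G + 1 - (0 + cnt (Fin.tail v)) = G - cnt (Fin.tail v) + 1 by omega, zero_add,
        zero_add, pow_succ, pow_succ]
      constructor <;> linarith

theorem iter_near {a : ℕ} (ha : Odd a) (ha3 : 3 ≤ a) (j : ℕ) (n : ℤ) :
    abs (2 ^ j * |(T a)^[j] n| - a ^ cnt (wd a j n) * |n|) ≤
      a ^ cnt (wd a j n) * 2 ^ (j - cnt (wd a j n)) := by
  have h1 := iter_eq (a := a) (by exact_mod_cast ha) j n
  obtain ⟨h2, h3⟩ := phi_bound (a := a) (by exact_mod_cast ha3) j (wd a j n)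
  have h4 := abs_abs_sub_abs_le (2 ^ j * (T a)^[j] n) (a ^ cnt (wd a j n) * n)
  have h5 : (0 : ℤ) < 2 ^ j := by positivity
  rw [abs_mul, abs_mul, abs_of_pos h5, abs_of_nonneg (a := (a : ℤ) ^ _) (by positivity),
    show 2 ^ j * (T a)^[j] n - a ^ cnt (wd a j n) * n = phi a j (wd a j n) by linarith,
    abs_of_nonneg h2] at h4
  linarith

theorem log_le_of {a : ℕ} (ha3 : 3 ≤ a) {i j k l : ℕ}
    (h : (a : ℤ) ^ k * 2 ^ i ≤ a ^ l * 2 ^ j) : k * log a + i * log 2 ≤ l * log a + j * log 2 := by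
  have h0 : (0 : ℝ) < a := by exact_mod_cast (by omega : 0 < a)
  have h1 : (a : ℝ) ^ k * 2 ^ i ≤ a ^ l * 2 ^ j := by exact_mod_cast h
  have h2 := log_le_log (by positivity) h1
  rwa [log_mul (by positivity) (by positivity), log_mul (by positivity) (by positivity),
    log_pow, log_pow, log_pow, log_pow] at h2

theorem drop {a : ℕ} (ha : Odd a) (ha3 : 3 ≤ a) {j L L' : ℕ} {n : ℤ} (h1 : |n| ≤ 2 ^ L)
    (h2 : 2 ^ L' ≤ |(T a)^[j] n|) :
    (j + L' : ℝ) * log 2 ≤ cnt (wd a j n) * log a + (L + 1) * log 2 ∨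
      (cnt (wd a j n) + L' : ℝ) * log 2 ≤ cnt (wd a j n) * log a + log 2 := by
  have h3 := (abs_le.mp (iter_near ha ha3 j n)).2
  have h4 := cnt_le (wd a j n)
  set k := cnt (wd a j n)
  have h5 : (0 : ℤ) ≤ a ^ k := by positivity
  have h6 := mul_le_mul_of_nonneg_left h1 h5
  have h7 := mul_le_mul_of_nonneg_left h2 (show (0 : ℤ) ≤ 2 ^ j by positivity)
  rcases le_total (j - k) L with h | h
  · have h8 := mul_le_mul_of_nonneg_left (pow_le_pow_right₀ (show (1 : ℤ) ≤ 2 by norm_num) h) h5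
    have h9 := log_le_of ha3 (k := 0) (i := j + L') (l := k) (j := L + 1) (by
      rw [pow_add, pow_succ]; linarith)
    push_cast at h9
    left
    linarith
  · have h8 := mul_le_mul_of_nonneg_left (pow_le_pow_right₀ (show (1 : ℤ) ≤ 2 by norm_num) h) h5
    have h9 := log_le_of ha3 (k := 0) (i := j + L') (l := k) (j := j - k + 1) (by
      rw [pow_add, pow_succ]; linarith)
    push_cast [h4] at h9
    right
    linarith

theorem rise {a : ℕ} (ha : Odd a) (ha3 : 3 ≤ a) {j L l : ℕ} {n : ℤ} (h1 : 2 ^ l ≤ |n|)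
    (h2 : |(T a)^[j] n| ≤ 2 ^ L) (h : j - cnt (wd a j n) + 1 ≤ l) :
    cnt (wd a j n) * log a + l * log 2 ≤ (j + L + 1) * log 2 := by
  have h3 := (abs_le.mp (iter_near ha ha3 j n)).1
  set k := cnt (wd a j n)
  have h5 : (0 : ℤ) ≤ a ^ k := by positivity
  have h6 := mul_le_mul_of_nonneg_left h1 h5
  have h7 := mul_le_mul_of_nonneg_left h2 (show (0 : ℤ) ≤ 2 ^ j by positivity)
  have h8 := mul_le_mul_of_nonneg_left (pow_le_pow_right₀ (show (1 : ℤ) ≤ 2 by norm_num) h) h5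
  have h9 := log_le_of ha3 (k := k) (i := l) (l := 0) (j := j + L + 1) (by
    rw [pow_succ] at h8; rw [pow_succ, pow_add]; linarith)
  push_cast at h9
  linarith

theorem wn_eq {p : ℝ} (h0 : 0 < p) (h1 : p < 1) (a : ℤ) (j : ℕ) (n : ℤ) :
    wn p a j n = exp (-binEntropy p * j + (cnt (wd a j n) - p * j) * (log p - log (1 - p))) := by
  rw [← wt_wd, wt_eq, ← exp_log h0, ← exp_nat_mul, exp_log h0, ← exp_log (sub_pos.mpr h1),
    ← exp_nat_mul, exp_log (sub_pos.mpr h1), ← exp_add, binEntropy, log_inv, log_inv]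
  congr 1
  push_cast [cnt_le (wd a j n)]
  ring

theorem wn_ge {p : ℝ} (h0 : 0 < p) (h1 : p < 1) (a : ℤ) (j : ℕ) (n : ℤ) {δ : ℝ}
    (h : (p * j - cnt (wd a j n)) * (log p - log (1 - p)) ≤ δ * j) :
    exp (-(binEntropy p + δ) * j) ≤ wn p a j n := by
  rw [wn_eq h0 h1, exp_le_exp]
  linarith

theorem card_le_of_wn {a : ℕ} (ha : Odd a) {p : ℝ} (h0 : 0 ≤ p) (h1 : p ≤ 1) (j : ℕ) (ω : ℝ)
    (A : Finset ℤ) (hA : ∀ n ∈ A, |n| ≤ 2 ^ j ∧ ω ≤ wn p a j n) : A.card * ω ≤ 3 := by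
  have h := sum_bw_le ha j 1 A (fun n hn => by simpa using (hA n hn).1)
    (fun w => ∏ b, wt p (w b)) fun w => prod_nonneg fun b _ => wt_nonneg h0 h1 _
  rw [sum_prod_wt j 1 fun _ v => wt p v] at h
  simp only [sum_wt, prod_const_one, mul_one, prod_bw] at h
  rw [← nsmul_eq_mul]
  exact (card_nsmul_le_sum _ _ _ fun n hn => (hA n hn).2).trans h

theorem card_box (L : ℕ) (A : Finset ℤ) (hA : ∀ n ∈ A, |n| ≤ 2 ^ L) : (A.card : ℝ) ≤ 3 * 2 ^ L := by
  have h := card_le_of_wn (a := 1) odd_one (p := 1 / 2) (by norm_num) (by norm_num) L (1 / 2 ^ L) A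
    fun n hn => ⟨hA n hn, by
      rw [wn, prod_congr rfl fun i _ => (by split_ifs <;> norm_num :
        (if (T (1 : ℕ))^[i] n % 2 = 1 then (1 / 2 : ℝ) else 1 - 1 / 2) = 1 / 2)]
      simp⟩
  rwa [mul_one_div, div_le_iff₀ (by positivity)] at h

theorem recur {r b C : ℝ} (hr : 1 < r) (hb : 1 ≤ b) (hC : 0 ≤ C) (m D0 : ℕ) (hm : 1 ≤ m) :
    ∃ C' ≥ 0, ∀ f : ℕ → ℝ, (∀ D, f D ≤ 3 * b ^ D) →
      (∀ D ≥ D0, f D ≤ 2 * f (D - D / m) + C * r ^ D) → ∀ D, f D ≤ C' * r ^ D := by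
  obtain ⟨k, hk⟩ := pow_unbounded_of_one_lt 4 hr
  refine ⟨2 * C + 3 * b ^ (D0 + (k + 1) * m), by positivity, fun f h1 h2 D => ?_⟩
  have hb' : 0 ≤ 3 * b ^ (D0 + (k + 1) * m) := by positivity
  induction D using Nat.strong_induction_on with
  | _ D ih =>
    rcases le_total D (D0 + (k + 1) * m) with h | h
    · refine (h1 D).trans (le_trans ?_ (le_mul_of_one_le_right (by positivity) (one_le_pow₀ hr.le)))
      linarith [pow_le_pow_right₀ hb h]
    · have h3 : k + 1 ≤ D / m := (Nat.le_div_iff_mul_le hm).mpr (by omega)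
      have h4 := Nat.div_le_self D m
      have h5 := ih (D - D / m) (by omega)
      have h6 : 4 * r ^ (D - D / m) ≤ r ^ D := by
        refine (mul_le_mul_of_nonneg_right hk.le (by positivity)).trans ?_
        rw [← pow_add]
        exact pow_le_pow_right₀ hr.le (by omega)
      have h7 := mul_le_mul_of_nonneg_left h6 (add_nonneg (show 0 ≤ 2 * C by positivity) hb')
      have h8 := mul_nonneg hb' (show 0 ≤ r ^ D by positivity)
      linarith [h2 D (by omega)]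

theorem scale {E : ℕ} (hE : 1 ≤ E) {γ : ℝ} (hγ : 0 ≤ γ) {x : ℝ} (hx : 1 ≤ x) :
    ∃ D : ℕ, x ≤ 2 ^ (E * D) ∧ exp (γ * E) ^ D ≤ exp (γ * E) * x ^ (γ / log 2) := by
  have h1 : ∃ D : ℕ, x ≤ 2 ^ (E * D) := by
    obtain ⟨D, hD⟩ := pow_unbounded_of_one_lt x (one_lt_two (α := ℝ))
    exact ⟨D, hD.le.trans (pow_le_pow_right₀ one_le_two (Nat.le_mul_of_pos_left D hE))⟩
  classical
  refine ⟨Nat.find h1, Nat.find_spec h1, ?_⟩
  have h2 := log_pos (one_lt_two (α := ℝ))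
  rw [rpow_def_of_pos (by linarith), ← exp_nat_mul, ← exp_add, exp_le_exp]
  rcases h3 : Nat.find h1 with _ | D
  · have := log_nonneg hx
    rw [Nat.cast_zero, zero_mul]
    positivity
  · have h4 := log_le_log (by positivity) (not_le.mp (Nat.find_min h1 (show D < _ by omega))).le
    rw [log_pow] at h4
    have h5 := mul_le_mul_of_nonneg_right h4 (div_nonneg hγ h2.le)
    rw [mul_assoc, mul_div_cancel₀ _ h2.ne'] at h5
    push_cast at h5 ⊢
    linarith

end Pool.Agent.Lib.MP_dee342_nt.Count
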