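import Pool.Agent.Lib.MP_dee342_nt.CountSU

/-! Along every admissible path many test points are Diophantine. -/

set_option autoImplicit false

namespace Pool.Agent.Lib.MP_dee342_nt.Count

open Finset

/-- `a^(-(J+K)) / 2^n` is not within `a^(1-K) / q` of a fraction with denominator `q ≤ 2^Δ`. -/
def Dio (a K J n Δ : ℕ) : Prop :=
  ∀ q r : ℤ, 1 ≤ q → q ≤ 2 ^ Δ → (2 : ℤ) ^ n ∣ (a : ℤ) ^ (J + K) * r - q →
    (2 : ℤ) ^ n < (a : ℤ) ^ (K - 1) * |r|

theorem coprime_pow (a : ℕ) (ha : Odd a) (e n : ℕ) : IsCoprime ((2 : ℤ) ^ n) ((a : ℤ) ^ e) := by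
  refine IsCoprime.pow ?_
  have h : Nat.Coprime 2 a := Nat.coprime_two_left.mpr ha
  exact_mod_cast Nat.isCoprime_iff_coprime.mpr h

theorem exists_test (a : ℕ) (ha : Odd a) (K J n Δ : ℕ) :
    ∃ q r : ℤ, 1 ≤ q ∧ q ≤ 2 ^ Δ ∧ (2 : ℤ) ^ n ∣ (a : ℤ) ^ (J + K) * r - q ∧ |r| ≤ 2 ^ n ∧
      (¬ Dio a K J n Δ → (a : ℤ) ^ (K - 1) * |r| ≤ 2 ^ n) := by
  by_cases h : Dio a K J n Δ
  · obtain ⟨x, y, hxy⟩ := coprime_pow a ha (J + K) n
    have h2 : (0 : ℤ) < 2 ^ n := by positivity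
    refine ⟨1, y % 2 ^ n, le_rfl, one_le_pow₀ (by norm_num), ?_, ?_, fun h' => absurd h h'⟩
    · refine ⟨-x - (a : ℤ) ^ (J + K) * (y / 2 ^ n), ?_⟩
      rw [Int.emod_def]
      linear_combination hxy
    · rw [abs_of_nonneg (Int.emod_nonneg _ h2.ne')]
      exact (Int.emod_lt_of_pos _ h2).le
  · have h' := h
    simp only [Dio, not_forall, not_lt, exists_prop] at h'
    obtain ⟨q, r, h1, h2, h3, h4⟩ := h'
    refine ⟨q, r, h1, h2, h3, le_trans ?_ h4, fun _ => h4⟩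
    have : (1 : ℤ) ≤ (a : ℤ) ^ (K - 1) := one_le_pow₀ (by exact_mod_cast ha.pos)
    nlinarith [abs_nonneg r]

theorem mid_bound (X Y Z g q1 q2 r1 r2 m : ℤ) (hX : 0 < X) (hYZ : Y ≤ Z) (hg0 : 0 < g) (hg : g ≤ Z)
    (h1 : 1 ≤ q1) (h1' : q1 ≤ Y) (h2 : 1 ≤ q2) (h2' : q2 ≤ Y)
    (hm : q2 * r1 - q1 * g * r2 = X * m) (w : ℤ) (hw : 0 ≤ w) (h5 : w * |r1| ≤ X * Y)
    (h6 : w * |r2| ≤ X) : w * |m| ≤ Y * (2 * Z) := by
  have hY : 0 ≤ Y := by linarith
  have h7 : X * |m| ≤ Y * |r1| + Y * (Z * |r2|) := by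
    rw [← abs_of_pos hX, ← abs_mul, ← hm]
    refine (abs_sub _ _).trans (add_le_add ?_ ?_)
    · rw [abs_mul, abs_of_pos (by linarith)]
      exact mul_le_mul_of_nonneg_right h2' (abs_nonneg _)
    · rw [mul_assoc, abs_mul, abs_mul, abs_of_pos (by linarith), abs_of_pos hg0]
      exact mul_le_mul h1' (mul_le_mul_of_nonneg_right hg (abs_nonneg _)) (by positivity) hY
  refine le_of_mul_le_mul_left ?_ hX
  have h8 : Y * (w * |r1|) ≤ Y * (X * Z) :=
    mul_le_mul_of_nonneg_left (h5.trans (mul_le_mul_of_nonneg_left hYZ hX.le)) hY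
  have h9 : Y * Z * (w * |r2|) ≤ Y * Z * X :=
    mul_le_mul_of_nonneg_left h6 (mul_nonneg hY (by linarith))
  linarith [mul_le_mul_of_nonneg_left h7 hw]

theorem two_pow_lt (a : ℕ) (ha3 : 3 ≤ a) (Δ : ℕ) :
    (2 : ℤ) ^ Δ * (2 * (a : ℤ) ^ Δ) < (a : ℤ) ^ (2 * Δ + 1) := by
  have h5 : (2 : ℤ) ^ (Δ + 1) < a ^ (Δ + 1) :=
    pow_lt_pow_left₀ (by exact_mod_cast (by omega : 2 < a)) (by norm_num) (by omega)
  have h6 : (a : ℤ) ^ (2 * Δ + 1) = a ^ (Δ + 1) * a ^ Δ := by rw [← pow_add]; congr 1; omega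
  have h7 : (0 : ℤ) < a ^ Δ := pow_pos (by exact_mod_cast (by omega : 0 < a)) _
  rw [h6]
  have h8 := mul_lt_mul_of_pos_right h5 h7
  rw [pow_succ] at h8
  linarith

theorem many_dio (a : ℕ) (ha : Odd a) (ha3 : 3 ≤ a) (G : ℕ) (hG : 1 ≤ G) (M P : ℕ) :
    ∃ T0, ∀ T ≥ T0, ∀ D ≥ 1, ∀ J : ℕ → ℕ, J 0 = 0 → (∀ t, J t ≤ J (t + 1)) →
      (∀ t, J (t + 1) ≤ J t + G * D) → (∀ t ≤ T, D * t ≤ 2 * J t) →
      ∀ S : Finset ℕ, (∀ t ≤ T - P, Dio a (2 * (G * D) + 2) (J t) (G * D * (T + 1 - t)) (G * D) →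
        t ∈ S) → M ≤ S.card := by
  classical
  obtain ⟨k, hk⟩ := noRep a ha ha3 (1 / (8 * G)) (by positivity) (2 * M + 2)
  refine ⟨(P + 5) * a * (k + 1), fun T hT D hD J hJ0 hJ1 hJ2 hJ3 S hS => ?_⟩
  by_contra hcon
  set Δ := G * D with hΔ
  set K := 2 * Δ + 2 with hK
  have hΔ1 : 1 ≤ Δ := Nat.mul_pos hG hD
  have hDΔ : D ≤ Δ := Nat.le_mul_of_pos_left D hG
  have hT1 : (P + 5) * 3 * (k + 1) ≤ T :=
    le_trans (Nat.mul_le_mul_right _ (Nat.mul_le_mul_left _ ha3)) hT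
  have hT2 : (P + 5) * 3 ≤ T := le_trans (Nat.le_mul_of_pos_right _ (by omega)) hT1
  have hT3 : k + 1 ≤ T := le_trans (Nat.le_mul_of_pos_left _ (by omega)) hT1
  obtain ⟨T', hT'⟩ : ∃ T', T = T' + P := ⟨T - P, by omega⟩
  have hTP : T - P = T' := by omega
  set N := Δ * (T + 1) with hN
  choose q r hq1 hq2 hqr hr hr' using fun t => exists_test a ha K (J t) (Δ * (T + 1 - t)) Δ
  have ha1 : (1 : ℤ) ≤ a := by exact_mod_cast ha.pos
  have ha2 : (2 : ℤ) ≤ a := by exact_mod_cast (by omega : 2 ≤ a)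
  have h2a : ∀ n : ℕ, (2 : ℤ) ^ n ≤ (a : ℤ) ^ n := fun n => pow_le_pow_left₀ (by norm_num) ha2 n
  have hmono : ∀ m : ℕ, m ≤ (P + 5) * Δ → (a : ℤ) ^ m ≤ (a : ℤ) ^ ((P + 5) * Δ) :=
    fun m hm => pow_le_pow_right₀ ha1 hm
  have hmono5 : ∀ m : ℕ, m ≤ 5 * Δ → (a : ℤ) ^ m ≤ (a : ℤ) ^ ((P + 5) * Δ) :=
    fun m hm => hmono m (hm.trans (Nat.mul_le_mul_right Δ (by omega)))
  have h4N : Δ * 4 ≤ N := Nat.mul_le_mul_left Δ (by omega)
  have hDN : D * (T + 1) ≤ N := Nat.mul_le_mul_right _ hDΔ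
  have hTN : T + 1 ≤ N := Nat.le_mul_of_pos_left _ hΔ1
  have hq0 : ∀ t, (q t : ℚ) ≠ 0 := fun t => by
    have := hq1 t
    exact_mod_cast (by omega : q t ≠ 0)
  have hJ4 : ∀ t, J t ≤ Δ * t := by
    intro t
    induction t with
    | zero => simp [hJ0]
    | succ t ih => have := hJ2 t; rw [Nat.mul_succ]; omega
  let A : ℕ → ℚ := fun j => if j = 0 then 1 else if j ≤ T' + 1 then
    (a : ℚ) ^ (J (j - 1) + K) * r (j - 1) / q (j - 1) else 0
  have hA : ∀ t ≤ T', A (t + 1) = (a : ℚ) ^ (J t + K) * r t / q t := by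
    intro t ht
    simp only [A, Nat.add_sub_cancel, if_neg (Nat.succ_ne_zero t), if_pos (by omega : t + 1 ≤ T' + 1)]
  -- the middle terms
  have hmid : ∀ t < T', ∃ m : ℤ, A (t + 1) - A (t + 2) =
      (m : ℚ) / ((q t * q (t + 1) : ℤ) : ℚ) * (a : ℚ) ^ (J t + K) * 2 ^ (Δ * (T - t)) ∧
      |m| ≤ (a : ℤ) ^ ((P + 5) * Δ) ∧ (t ∉ S → t + 1 ∉ S → m = 0) := by
    intro t ht
    have e1 : T + 1 - t = (T - t) + 1 := by omega
    have e2 : T + 1 - (t + 1) = T - t := by omega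
    obtain ⟨g, hg⟩ := Nat.exists_eq_add_of_le (hJ1 t)
    have hg' : g ≤ Δ := by have := hJ2 t; omega
    obtain ⟨p1, hp1⟩ := hqr t
    obtain ⟨p2, hp2⟩ := hqr (t + 1)
    have h1 := hr t
    have h2 := hr (t + 1)
    have h3 := hr' t
    have h4 := hr' (t + 1)
    rw [e1, Nat.mul_succ, pow_add] at hp1 h1 h3
    rw [e2] at hp2 h2 h4
    set n := Δ * (T - t)
    have e3 : (a : ℤ) ^ (J (t + 1) + K) = (a : ℤ) ^ (J t + K) * a ^ g := by
      rw [hg, ← pow_add]; congr 1; omega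
    rw [e3] at hp2
    obtain ⟨m, hm⟩ : (2 : ℤ) ^ n ∣ q (t + 1) * r t - q t * a ^ g * r (t + 1) := by
      refine (coprime_pow a ha (J t + K) n).dvd_of_dvd_mul_left
        ⟨q (t + 1) * 2 ^ Δ * p1 - q t * p2, ?_⟩
      linear_combination q (t + 1) * hp1 - q t * hp2
    have h2n : (0 : ℤ) < 2 ^ n := by positivity
    have hag : (a : ℤ) ^ g ≤ a ^ Δ := pow_le_pow_right₀ ha1 hg'
    have hbound := mid_bound (2 ^ n) (2 ^ Δ) (a ^ Δ) (a ^ g) (q t) (q (t + 1)) (r t) (r (t + 1)) m h2n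
      (h2a Δ) (by positivity) hag (hq1 t) (hq2 t) (hq1 _) (hq2 _) hm
    have hsm := two_pow_lt a ha3 Δ
    refine ⟨m, ?_, ?_, fun hS1 hS2 => ?_⟩
    · rw [hA t ht.le, hA (t + 1) ht]
      have h5 := congrArg (Int.cast : ℤ → ℚ) hm
      have h6 := congrArg (Int.cast : ℤ → ℚ) e3
      push_cast at h5 h6 ⊢
      rw [h6]
      have := hq0 t
      have := hq0 (t + 1)
      field_simp
      linear_combination h5
    · have := hbound 1 one_pos.le (by linarith) (by linarith)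
      have h5 := hmono5 (2 * Δ + 1) (by omega)
      linarith
    · have h5 := h3 fun h => hS1 (hS t (by omega) (by rwa [e1, Nat.mul_succ]))
      have h6 := h4 fun h => hS2 (hS (t + 1) (by omega) (by rwa [e2]))
      have h7 := hbound _ (by positivity) h5 h6
      have e4 : K - 1 = 2 * Δ + 1 := by omega
      rw [e4] at h7
      by_contra h0
      have h8 : 1 ≤ |m| := Int.one_le_abs h0
      have h9 : (0 : ℤ) ≤ a ^ (2 * Δ + 1) := by positivity
      linarith [mul_le_mul_of_nonneg_left h8 h9]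
  have hexp : ∀ z : ℤ, |z| ≤ (a : ℤ) ^ ((P + 5) * Δ) → |(z : ℝ)| ≤ Real.exp (1 / (k + 1) * N) := by
    intro z hz
    have h1 : |(z : ℝ)| ≤ (a : ℝ) ^ ((P + 5) * Δ) := by exact_mod_cast hz
    refine h1.trans ?_
    have h2 : (a : ℝ) ≤ Real.exp a := by linarith [Real.add_one_le_exp (a : ℝ)]
    refine (pow_le_pow_left₀ (Nat.cast_nonneg _) h2 _).trans ?_
    rw [← Real.exp_nat_mul, Real.exp_le_exp, one_div, inv_mul_eq_div, le_div_iff₀ (by positivity)]
    have h3 : (P + 5) * Δ * a * (k + 1) ≤ N := by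
      rw [hN]
      have : (P + 5) * a * (k + 1) ≤ T + 1 := by omega
      exact le_trans (le_of_eq (by ring)) (Nat.mul_le_mul_left Δ this)
    exact_mod_cast h3
  have hsize : ∀ e b : ℕ, D * (T + 1) ≤ 8 * (e + b) → e + b ≤ 3 * N →
      1 / (8 * G) * (N : ℝ) ≤ (e : ℝ) + b ∧ (e : ℝ) + b ≤ 3 * N := by
    intro e b h1 h2
    refine ⟨?_, by exact_mod_cast h2⟩
    rw [one_div, inv_mul_eq_div, div_le_iff₀ (by positivity)]
    have h3 : N ≤ (e + b) * (8 * G) := by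
      rw [hN, hΔ, mul_assoc]
      exact (Nat.mul_le_mul_left G h1).trans (le_of_eq (by ring))
    exact_mod_cast h3
  have hKN : K ≤ N := by omega
  have hterm : ∀ j, ∃ (c d : ℤ) (e b : ℕ), j < T' + 2 → |c| ≤ (a : ℤ) ^ ((P + 5) * Δ) ∧
      |d| ≤ (a : ℤ) ^ ((P + 5) * Δ) ∧ d ≠ 0 ∧ D * (T + 1) ≤ 8 * (e + b) ∧ e + b ≤ 3 * N ∧
      A j - A (j + 1) = (c : ℚ) / d * (a : ℚ) ^ e * 2 ^ b := by
    intro j
    have hqa : ∀ t, |q t| ≤ (a : ℤ) ^ Δ := fun t => by
      rw [abs_of_pos (by linarith [hq1 t])]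
      exact (hq2 t).trans (h2a Δ)
    rcases j with _ | t
    · obtain ⟨p, hp⟩ := hqr 0
      have h1 := hr 0
      rw [Nat.sub_zero, ← hN] at hp h1
      rw [hJ0, zero_add] at hp
      refine ⟨-p, q 0, 0, N, fun _ => ⟨?_, (hqa 0).trans (hmono5 _ (by omega)),
        by linarith [hq1 0], ?_, by omega, ?_⟩⟩
      · have h2 : (0 : ℤ) < 2 ^ N := by positivity
        have h3 : (2 : ℤ) ^ Δ ≤ 2 ^ N := pow_le_pow_right₀ (by norm_num) (by omega)
        have h4 : 2 ^ N * |p| ≤ 2 ^ N * (a ^ K + 1) := by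
          rw [← abs_of_pos h2, ← abs_mul, ← hp, abs_of_pos h2]
          refine (abs_sub _ _).trans ?_
          rw [abs_mul, abs_of_pos (a := (a : ℤ) ^ K) (by positivity),
            abs_of_pos (a := q 0) (by linarith [hq1 0])]
          linarith [mul_le_mul_of_nonneg_left h1 (by positivity : (0 : ℤ) ≤ a ^ K), hq2 0]
        have h5 := le_of_mul_le_mul_left h4 h2
        have h6 := hmono5 (K + 1) (by omega)
        have h7 : (1 : ℤ) ≤ a ^ K := one_le_pow₀ ha1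
        rw [pow_succ] at h6
        rw [abs_neg]
        linarith [mul_le_mul_of_nonneg_left ha2 (by positivity : (0 : ℤ) ≤ a ^ K)]
      · omega
      · rw [hA 0 (Nat.zero_le _), hJ0, zero_add]
        have h5 := congrArg (Int.cast : ℤ → ℚ) hp
        have := hq0 0
        simp only [A, if_true]
        push_cast at h5 ⊢
        field_simp
        linear_combination -h5
    by_cases ht : t < T'
    · obtain ⟨m, h1, h2, -⟩ := hmid t ht
      refine ⟨m, q t * q (t + 1), J t + K, Δ * (T - t), fun _ => ⟨h2, ?_,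
        mul_ne_zero (by linarith [hq1 t]) (by linarith [hq1 (t + 1)]), ?_, ?_, h1⟩⟩
      · rw [abs_mul]
        refine (mul_le_mul (hqa _) (hqa _) (abs_nonneg _) (by positivity)).trans ?_
        rw [← pow_add]
        exact hmono5 _ (by omega)
      · have h3 := hJ3 t (by omega)
        obtain ⟨v, hv⟩ : ∃ v, T = t + v := ⟨T - t, by omega⟩
        have h4 : T - t = v := by omega
        have h5 : D * v ≤ Δ * v := Nat.mul_le_mul_right v hDΔ
        have h6 : D * (T + 1) ≤ D * (4 * T) := Nat.mul_le_mul_left D (by omega)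
        have h7 : D * (4 * T) = 4 * (D * t) + 4 * (D * v) := by rw [hv]; ring
        rw [h4]
        omega
      · have h3 : Δ * t ≤ N := Nat.mul_le_mul_left Δ (by omega)
        have h4 : Δ * (T - t) ≤ N := Nat.mul_le_mul_left Δ (by omega)
        have := hJ4 t
        omega
    · refine ⟨r T', q T', J T' + K, 0, fun hj => ⟨?_, (hqa _).trans (hmono5 _ (by omega)),
        by linarith [hq1 T'], ?_, ?_, ?_⟩⟩
      · refine (hr T').trans ((h2a _).trans (hmono _ ?_))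
        have : T + 1 - T' = P + 1 := by omega
        rw [this, mul_comm]
        exact Nat.mul_le_mul_right Δ (by omega)
      · have h3 := hJ3 T' (by omega)
        have h4 : D * (T + 1) ≤ D * (4 * T') := Nat.mul_le_mul_left D (by omega)
        have h5 : D * (4 * T') = 4 * (D * T') := by ring
        omega
      · have h3 : Δ * T' ≤ N := Nat.mul_le_mul_left Δ (by omega)
        have := hJ4 T'
        omega
      · obtain rfl : t = T' := by omega
        rw [hA t le_rfl]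
        simp only [A, if_neg (Nat.succ_ne_zero (t + 1)), if_neg (by omega : ¬ t + 1 + 1 ≤ t + 1)]
        ring
  choose c d e b hcd using hterm
  let s := (range (T' + 2)).filter fun j => A j ≠ A (j + 1)
  have hs : ∀ j ∈ s, j < T' + 2 := fun j hj => mem_range.mp (mem_filter.mp hj).1
  have hcard : s.card ≤ 2 * M + 2 := by
    have hsub : s ⊆ ({0, T' + 1} ∪ S.image (· + 1)) ∪ S := by
      intro j hj
      have h1 := hs j hj
      have h2 := (mem_filter.mp hj).2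
      by_contra h3
      simp only [mem_union, mem_insert, mem_singleton, mem_image, not_or, not_exists,
        not_and] at h3
      obtain ⟨⟨⟨h4, h5⟩, h6⟩, h7⟩ := h3
      obtain ⟨t, rfl⟩ : ∃ t, j = t + 1 := ⟨j - 1, by omega⟩
      obtain ⟨m, h8, -, h9⟩ := hmid t (by omega)
      rw [h9 (fun h => h6 t h rfl) h7] at h8
      exact h2 (sub_eq_zero.mp (by simpa using h8))
    have h1 := card_le_card hsub
    have h2 := card_union_le ({0, T' + 1} ∪ S.image (· + 1)) S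
    have h3 := card_union_le ({0, T' + 1} : Finset ℕ) (S.image (· + 1))
    have h4 := card_image_le (s := S) (f := (· + 1))
    have h5 : ({0, T' + 1} : Finset ℕ).card ≤ 2 := card_le_two
    omega
  refine hk N (by omega) s hcard c d e b (fun j hj => hexp _ (hcd j (hs j hj)).1)
    (fun j hj => hexp _ (hcd j (hs j hj)).2.1) (fun j hj => (hcd j (hs j hj)).2.2.1)
    (fun j hj => hsize _ _ (hcd j (hs j hj)).2.2.2.1 (hcd j (hs j hj)).2.2.2.2.1) ?_
  rw [← sum_congr rfl fun j hj => (hcd j (hs j hj)).2.2.2.2.2,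
    sum_filter_of_ne fun j _ h => sub_ne_zero.mp h, sum_range_sub']
  simp only [A, if_true, if_neg (Nat.succ_ne_zero (T' + 1)), if_neg (by omega : ¬ T' + 2 ≤ T' + 1)]
  ring

end Pool.Agent.Lib.MP_dee342_nt.Count
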