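import Pool.Agent.Lib.MP_dee342_nt.CountFourier

/-! Few small integers have parity words of typical weight at two scales. -/

set_option autoImplicit false

namespace Pool.Agent.Lib.MP_dee342_nt.Count

open Finset Real Filter

theorem sum_bd_le {p : ℝ} (h0 : 0 ≤ p) (h1 : p ≤ 1) (G : ℕ) :
    ∑ v : Fin G → Bool, wt p v * bd G (cnt v) ≤ p ^ G + (1 - p) ^ G := by
  have h2 : ∀ v : Fin G → Bool, wt p v * bd G (cnt v) ≤
      (if v = fun _ => true then p ^ G else 0) + (if v = fun _ => false then (1 - p) ^ G else 0) := by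
    intro v
    have e1 : 0 ≤ (if v = fun _ => true then p ^ G else 0) :=
      ite_nonneg (pow_nonneg h0 _) le_rfl
    have e2 : 0 ≤ (if v = fun _ => false then (1 - p) ^ G else 0) :=
      ite_nonneg (pow_nonneg (by linarith) _) le_rfl
    have e3 : cnt v = (univ.filter fun i => v i = true).card := (card_filter _ _).symm
    by_cases h3 : cnt v = 0 ∨ cnt v = G
    · rw [bd, if_pos h3, wt_eq, Nat.cast_one, mul_one]
      rcases h3 with h3 | h3
      · have h4 : v = fun _ => false := funext fun i => by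
          simpa using card_filter_eq_zero_iff.mp (e3.symm.trans h3) i (mem_univ i)
        rw [if_pos h4, h3, pow_zero, one_mul, Nat.sub_zero]
        linarith
      · have h4 : v = fun _ => true := funext fun i =>
          card_filter_eq_iff.mp ((e3.symm.trans h3).trans (card_fin G).symm) i (mem_univ i)
        rw [if_pos h4, h3, Nat.sub_self, pow_zero, mul_one]
        linarith
    · rw [bd, if_neg h3, Nat.cast_zero, mul_zero]
      linarith
  refine (sum_le_sum fun v _ => h2 v).trans ?_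
  rw [sum_add_distrib, sum_ite_eq', sum_ite_eq']
  simp

theorem atyp_bound {a : ℕ} (ha : Odd a) {p : ℝ} (h0 : 0 ≤ p) (h1 : p ≤ 1) (G D T K : ℕ) {y : ℝ}
    (hy : 1 ≤ y) (A : Finset ℤ) (hA : ∀ n ∈ A, |n| ≤ 2 ^ (G * (D * T)) ∧
      ¬ Typ G D T K (ex fun b => cnt (bw a G (D * T) n b))) :
    ∑ n ∈ A, wn p a (G * (D * T)) n ≤
      3 * (T * ((1 + (y ^ K - 1) * (p ^ G + (1 - p) ^ G)) / y) ^ D) := by
  have hy0 : 0 < y := by linarith
  let F : (Fin (D * T) → Fin G → Bool) → ℝ := fun w => ∑ t ∈ range T, (∏ b, wt p (w b)) *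
    y ^ (K * ∑ j ∈ range D, bd G (ex (fun b => cnt (w b)) (D * t + j))) / y ^ D
  have hw : ∀ w : Fin (D * T) → Fin G → Bool, 0 ≤ ∏ b, wt p (w b) := fun w =>
    prod_nonneg fun b _ => wt_nonneg h0 h1 _
  have hF : ∀ w, 0 ≤ F w := fun w => sum_nonneg fun t _ => by have := hw w; positivity
  refine le_trans (sum_le_sum fun n hn => ?_) ((sum_bw_le ha G _ A (fun n hn => (hA n hn).1)
    F hF).trans (mul_le_mul_of_nonneg_left ?_ (by norm_num)))
  · have h2 := (hA n hn).2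
    simp only [Typ, not_forall, not_le] at h2
    obtain ⟨t, ht, h2⟩ := h2
    refine le_trans ?_ (single_le_sum (fun t _ => by have := hw (bw a G (D * T) n); positivity)
      (mem_range.mpr ht))
    rw [← prod_bw, le_div_iff₀ (by positivity)]
    exact mul_le_mul_of_nonneg_left (pow_le_pow_right₀ hy h2.le) (hw _)
  simp only [F]
  rw [sum_comm]
  refine (sum_le_card_nsmul _ _ _ fun t ht => ?_).trans (by rw [card_range, nsmul_eq_mul])
  rw [← sum_div, div_pow]
  refine div_le_div_of_nonneg_right ?_ (by positivity)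
  have hI : range (D * T) ∩ Ico (D * t) (D * t + D) = Ico (D * t) (D * t + D) := by
    refine inter_eq_right.mpr fun b hb => mem_range.mpr ((mem_Ico.mp hb).2.trans_le ?_)
    exact Nat.mul_le_mul_left D (mem_range.mp ht)
  have h2 : ∀ g : ℕ → ℝ, ∏ b : Fin (D * T), (if (b : ℕ) ∈ Ico (D * t) (D * t + D) then g b else 1) =
      ∏ j ∈ range D, g (D * t + j) := by
    intro g
    rw [Fin.prod_univ_eq_prod_range (fun b => if b ∈ Ico (D * t) (D * t + D) then g b else 1),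
      prod_ite_mem, hI, prod_Ico_eq_prod_range, Nat.add_sub_cancel_left]
  calc _ = ∑ w : Fin (D * T) → Fin G → Bool, ∏ b, wt p (w b) *
        (if (b : ℕ) ∈ Ico (D * t) (D * t + D) then y ^ (K * bd G (cnt (w b))) else 1) := by
        refine sum_congr rfl fun w _ => ?_
        rw [prod_mul_distrib, mul_sum, ← prod_pow_eq_pow_sum,
          ← h2 fun b => y ^ (K * bd G (ex (fun b => cnt (w b)) b))]
        congr 1
        exact prod_congr rfl fun b _ => by rw [ex, dif_pos b.2]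
    _ ≤ ∏ b : Fin (D * T), (if (b : ℕ) ∈ Ico (D * t) (D * t + D) then
        1 + (y ^ K - 1) * (p ^ G + (1 - p) ^ G) else 1) := by
        rw [sum_prod_wt G (D * T) fun b v => wt p v *
          (if (b : ℕ) ∈ Ico (D * t) (D * t + D) then y ^ (K * bd G (cnt v)) else 1)]
        refine prod_le_prod (fun b _ => sum_nonneg fun v _ => mul_nonneg (wt_nonneg h0 h1 _)
          (ite_nonneg (by positivity) zero_le_one)) fun b _ => ?_
        split_ifs
        · have h3 : ∀ v : Fin G → Bool, wt p v * y ^ (K * bd G (cnt v)) =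
              wt p v + (y ^ K - 1) * (wt p v * bd G (cnt v)) := by
            intro v
            rw [bd]
            split_ifs <;> simp
            ring
          rw [sum_congr rfl fun v _ => h3 v, sum_add_distrib, sum_wt, ← mul_sum]
          have h4 : 1 ≤ y ^ K := one_le_pow₀ hy
          linarith [mul_le_mul_of_nonneg_left (sum_bd_le h0 h1 G) (sub_nonneg.mpr h4)]
        · simp [sum_wt]
    _ = _ := by rw [h2 fun _ => 1 + (y ^ K - 1) * (p ^ G + (1 - p) ^ G), prod_const, card_range]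

theorem typ_congr (a : ℤ) (G D T K : ℕ) (n : ℤ)
    (h : Typ G D T K (ex fun b => cnt (bw a G (D * T) n b))) :
    Typ G D T K (ex fun b => cnt (bw a G (D * (T + 1)) n b)) := by
  intro t ht
  refine le_trans (le_of_eq ?_) (h t ht)
  congr 1
  refine sum_congr rfl fun j hj => ?_
  have h1 : D * t + j < D * T :=
    (Nat.add_lt_add_left (mem_range.mp hj) _).trans_le (Nat.mul_le_mul_left D ht)
  rw [ex, ex, dif_pos h1, dif_pos (h1.trans_le (Nat.mul_le_mul_left D T.le_succ))]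
  rfl

theorem exists_G {p : ℝ} (h0 : 0 < p) (h1 : p < 1) (k : ℕ) :
    ∃ G : ℕ, 3 ≤ G ∧ 2 * (k * G) * (p ^ G + (1 - p) ^ G) < 1 := by
  have h2 := ((tendsto_self_mul_const_pow_of_lt_one h0.le h1).add
    (tendsto_self_mul_const_pow_of_lt_one (r := 1 - p) (by linarith) (by linarith))).const_mul
    (2 * (k : ℝ))
  rw [add_zero, mul_zero] at h2
  obtain ⟨G, h3, h4⟩ := ((eventually_ge_atTop 3).and (h2.eventually (gt_mem_nhds one_pos))).exists
  exact ⟨G, h3, by linarith⟩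

theorem core_measure {a : ℕ} (ha : Odd a) (ha3 : 3 ≤ a) {p : ℝ} (h0 : 0 < p) (h1 : p < 1) {β : ℝ}
    (hβ : 1 < β) : ∃ G ≥ 3, ∃ ρ : ℝ, 0 ≤ ρ ∧ ρ < 1 ∧ ∃ T0, ∀ T ≥ T0, ∀ D ≥ 1, ∀ (A : Finset ℤ)
      (ω ω' : ℝ), 0 < ω → 0 < ω' → (∀ n ∈ A, |n| ≤ 2 ^ (G * (D * T)) ∧
        ω ≤ wn p a (G * (D * T)) n ∧ ω' ≤ wn p a (G * (D * (T + 1))) n) →
      (A.card : ℝ) ≤ 3 * (T * ρ ^ D) / ω +
        48 * ((T + 1) * ((a : ℝ) ^ G + 1) * (β ^ (10 * G)) ^ D) / 2 ^ (G * D) / ω' := by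
  classical
  obtain ⟨ε, hε0, hε1, hε⟩ : ∃ ε : ℝ, 0 < ε ∧ ε ≤ 1 ∧ 1 + 2 * ε ≤ β :=
    ⟨min 1 ((β - 1) / 2), lt_min one_pos (by linarith), min_le_left _ _,
      by linarith [min_le_right 1 ((β - 1) / 2)]⟩
  obtain ⟨k, hk⟩ := pow_unbounded_of_one_lt ((a / ε) ^ 2) hβ
  obtain ⟨G, hG, hG2⟩ := exists_G h0 h1 (k + 1)
  have ha1 : (1 : ℝ) ≤ a := by exact_mod_cast ha.pos
  have haG : (1 : ℝ) ≤ a ^ G := one_le_pow₀ ha1
  set K := (k + 1) * G with hK
  have hK2 : 2 ≤ K := by nlinarith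
  have hK0 : (0 : ℝ) < K := by exact_mod_cast (by omega : 0 < K)
  have hq : (0 : ℝ) < (a : ℝ) ^ (2 * G) * 2 ^ G := by positivity
  have hq1 : (1 : ℝ) ≤ (a : ℝ) ^ (2 * G) * 2 ^ G :=
    one_le_mul_of_one_le_of_one_le (one_le_pow₀ ha1) (one_le_pow₀ (by norm_num))
  have hl1 : ε / (a : ℝ) ^ G ≤ 1 := (div_le_one (by positivity)).mpr (hε1.trans haG)
  obtain ⟨T0, hT0⟩ := path_bound a ha ha3 G (by omega) K hK2
    (1 - 1 / ((a : ℝ) ^ (2 * G) * 2 ^ G)) (ε / (a : ℝ) ^ G) (β ^ (5 * G))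
    (sub_nonneg.mpr ((div_le_one hq).mpr hq1)) (by linarith [one_div_pos.mpr hq])
    (by positivity) hl1 (by positivity) (by
      have e1 : (ε / a) ^ G ≤ ε / (a : ℝ) ^ G := by
        rw [div_pow]
        exact div_le_div_of_nonneg_right (pow_le_of_le_one hε0.le hε1 (by omega)) (by positivity)
      have e2 : ((ε / a) ^ G) ^ (10 * G) ≤ (ε / (a : ℝ) ^ G) ^ (2 * (4 * G + 2)) :=
        (pow_le_pow_left₀ (by positivity) e1 _).trans
          (pow_le_pow_of_le_one (by positivity) hl1 (by omega))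
      have e3 : ((a / ε) ^ 2) ^ (5 * G * G) ≤ (β ^ (5 * G)) ^ K := by
        refine (pow_le_pow_left₀ (by positivity) hk.le _).trans ?_
        rw [← pow_mul, ← pow_mul]
        exact pow_le_pow_right₀ hβ.le (by rw [hK]; nlinarith)
      refine le_trans (le_of_eq ?_) (mul_le_mul e2 e3 (by positivity) (by positivity))
      rw [← pow_mul, ← pow_mul, show 2 * (5 * G * G) = G * (10 * G) by ring, ← mul_pow]
      rw [show ε / a * (a / ε) = 1 by field_simp, one_pow])
  have hy : (1 : ℝ) ≤ 1 + 1 / K := by linarith [one_div_pos.mpr hK0]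
  have hyK : (1 + 1 / (K : ℝ)) ^ K ≤ 3 := by
    refine (pow_le_pow_left₀ (by positivity) ((add_comm _ _).trans_le (add_one_le_exp _)) K).trans ?_
    rw [← exp_nat_mul, mul_one_div_cancel hK0.ne']
    linarith [exp_one_lt_d9]
  have hpG : 0 ≤ p ^ G + (1 - p) ^ G := add_nonneg (by positivity) (pow_nonneg (by linarith) _)
  refine ⟨G, hG, (1 + ((1 + 1 / K) ^ K - 1) * (p ^ G + (1 - p) ^ G)) / (1 + 1 / K),
    div_nonneg (add_nonneg zero_le_one (mul_nonneg (sub_nonneg.mpr (one_le_pow₀ hy)) hpG))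
      (by positivity), ?_, T0, fun T hT D hD A ω ω' hω hω' hA => ?_⟩
  · rw [div_lt_one (by positivity), add_lt_add_iff_left, lt_div_iff₀ hK0]
    have e1 := mul_le_mul_of_nonneg_right (sub_le_sub_right hyK 1) (mul_nonneg hpG hK0.le)
    rw [hK] at e1 ⊢
    push_cast at e1 hG2 ⊢
    linarith
  rw [← card_filter_add_card_filter_not (s := A)
    (fun n => ¬ Typ G D T K (ex fun b => cnt (bw a G (D * T) n b))), Nat.cast_add]
  refine add_le_add ?_ ?_
  · rw [le_div_iff₀ hω, ← nsmul_eq_mul]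
    exact (card_nsmul_le_sum _ _ _ fun n hn => (hA n (mem_filter.mp hn).1).2.1).trans
      (atyp_bound ha h0.le h1.le G D T K hy _ fun n hn =>
        ⟨(hA n (mem_filter.mp hn).1).1, (mem_filter.mp hn).2⟩)
  · rw [le_div_iff₀ hω', ← nsmul_eq_mul]
    refine (card_nsmul_le_sum _ _ _ fun n hn => (hA n (mem_filter.mp hn).1).2.2).trans ?_
    rw [le_div_iff₀' (by positivity)]
    refine typ_bound ha h0.le h1.le G D T K (by nlinarith) _ (by positivity)
      (fun u hu s hs ht Ξ hΞ => (hT0 T hT D hD u hu s hs ht Ξ hΞ).trans ?_) _ fun n hn =>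
        ⟨(hA n (mem_filter.mp hn).1).1, typ_congr _ _ _ _ _ _ (not_not.mp (mem_filter.mp hn).2)⟩
    refine mul_le_mul_of_nonneg_left (pow_le_pow_left₀ (by positivity) ?_ _) (by positivity)
    rw [show 10 * G = 5 * G + 5 * G by ring, pow_add β,
      show 2 * (a : ℝ) ^ G * (ε / a ^ G) = 2 * ε by field_simp]
    exact mul_le_mul_of_nonneg_right ((pow_le_pow_left₀ (by positivity) hε _).trans
      (pow_le_pow_right₀ hβ.le (by omega))) (by positivity)

theorem core {a : ℕ} (ha : Odd a) (ha3 : 3 ≤ a) {p : ℝ} (h0 : 0 < p) (h1 : p < 1) {H : ℝ}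
    (hH : H < log 2) (T1 : ℕ) : ∃ G ≥ 1, ∃ T ≥ T1, ∃ δ > 0, ∃ C ≥ 0, ∀ D ≥ 1, ∀ A : Finset ℤ,
      (∀ n ∈ A, |n| ≤ 2 ^ (G * (D * T)) ∧
        exp (-(H + δ) * (G * (D * T) : ℕ)) ≤ wn p a (G * (D * T)) n ∧
        exp (-(H + δ) * (G * (D * (T + 1)) : ℕ)) ≤ wn p a (G * (D * (T + 1))) n) →
      (A.card : ℝ) ≤ C * exp ((H - δ) * (G * (D * T) : ℕ)) := by
  obtain ⟨G, hG, ρ, hρ0, hρ1, T0, h⟩ := core_measure ha ha3 h0 h1
    (β := exp ((log 2 - H) / 20)) (one_lt_exp_iff.mpr (by linarith))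
  set T := max T0 T1 with hT
  have hT0 : (0 : ℝ) ≤ T := Nat.cast_nonneg _
  have hG0 : (0 : ℝ) ≤ G := Nat.cast_nonneg _
  obtain ⟨δ, hδ, hδ1, hδ2⟩ : ∃ δ : ℝ, 0 < δ ∧ δ * (2 * G * T + 1) ≤ 1 - ρ ∧
      δ * (2 * T + 1) ≤ (log 2 - H) / 2 :=
    ⟨min ((1 - ρ) / (2 * G * T + 1)) ((log 2 - H) / 2 / (2 * T + 1)),
      lt_min (div_pos (by linarith) (by positivity)) (div_pos (by linarith) (by positivity)),
      (le_div_iff₀ (by positivity)).mp (min_le_left _ _),
      (le_div_iff₀ (by positivity)).mp (min_le_right _ _)⟩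
  refine ⟨G, by omega, T, le_max_right _ _, δ, hδ, 3 * T + 48 * ((T + 1) * ((a : ℝ) ^ G + 1)),
    by positivity, fun D hD A hA => (h T (le_max_left _ _) D hD A _ _ (exp_pos _) (exp_pos _)
      hA).trans ?_⟩
  have hD0 : (0 : ℝ) ≤ D := Nat.cast_nonneg _
  rw [add_mul (3 * (T : ℝ))]
  refine add_le_add ?_ ?_
  · rw [div_le_iff₀ (exp_pos _), mul_assoc, mul_assoc, ← exp_add]
    refine mul_le_mul_of_nonneg_left (mul_le_mul_of_nonneg_left ?_ hT0) (by norm_num)
    have e1 : ρ ≤ exp (ρ - 1) := by linarith [add_one_le_exp (ρ - 1)]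
    refine (pow_le_pow_left₀ hρ0 e1 D).trans ?_
    rw [← exp_nat_mul, exp_le_exp]
    push_cast
    linarith [mul_le_mul_of_nonneg_left hδ1 hD0, mul_nonneg hD0 hδ.le]
  · rw [div_le_iff₀ (exp_pos _), div_le_iff₀ (by positivity), ← mul_assoc 48, mul_assoc (48 * _),
      mul_assoc (48 * _), ← exp_add, ← exp_log (show (0 : ℝ) < 2 ^ (G * D) by positivity),
      ← exp_add, ← pow_mul, ← exp_nat_mul, log_pow]
    refine mul_le_mul_of_nonneg_left (exp_le_exp.mpr ?_) (by positivity)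
    push_cast
    linarith [mul_le_mul_of_nonneg_left hδ2 (mul_nonneg hG0 hD0)]

end Pool.Agent.Lib.MP_dee342_nt.Count
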