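import Pool.Agent.Lib.MP_dee342_nt.CountWords

/-! The weight of typical words whose residue class meets a short interval. -/

set_option autoImplicit false

namespace Pool.Agent.Lib.MP_dee342_nt.Count

open Finset Real

/-- The character `exp (2 π i x)`. -/
noncomputable def ee (x : ℝ) : ℂ := Complex.exp ((2 * π * x : ℝ) * Complex.I)

theorem ee_add (x y : ℝ) : ee (x + y) = ee x * ee y := by
  rw [ee, ee, ee, ← Complex.exp_add]
  congr 1
  push_cast
  ring

theorem ee_sum {ι : Type*} (s : Finset ι) (f : ι → ℝ) : ee (∑ i ∈ s, f i) = ∏ i ∈ s, ee (f i) := by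
  classical
  induction s using Finset.induction_on with
  | empty => simp [ee]
  | insert i s hi ih => rw [sum_insert hi, prod_insert hi, ee_add, ih]

theorem norm_ee (x : ℝ) : ‖ee x‖ = 1 := Complex.norm_exp_ofReal_mul_I _

theorem re_ee (x : ℝ) : (ee x).re = cos (2 * π * x) := Complex.exp_ofReal_mul_I_re _

theorem cos_int (x : ℝ) (z : ℤ) : cos (2 * π * (x + z)) = cos (2 * π * x) := by
  rw [← cos_add_int_mul_two_pi (2 * π * x) z]
  congr 1
  ring

theorem norm_one_add_ee (x : ℝ) : ‖1 + ee x‖ ≤ 2 - 4 * nd x ^ 2 := by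
  have h1 : nd x ≤ 1 / 2 := abs_sub_round x
  have h2 : 0 ≤ nd x := abs_nonneg _
  have h3 : cos (2 * π * x) ≤ 1 - 8 * nd x ^ 2 := by
    have h4 := cos_int (x - round x) (round x)
    rw [sub_add_cancel] at h4
    have h5 : |2 * π * (x - round x)| ≤ π := by
      rw [abs_mul, abs_of_pos (by positivity)]
      have := mul_le_mul_of_nonneg_left h1 (show 0 ≤ 2 * π by positivity)
      rw [nd] at this
      linarith
    have h6 := cos_le_one_sub_mul_cos_sq h5
    have h7 : 2 / π ^ 2 * (2 * π * (x - round x)) ^ 2 = 8 * nd x ^ 2 := by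
      rw [nd, sq_abs]
      field_simp
      ring
    linarith
  have h4 : ‖1 + ee x‖ ^ 2 = 2 + 2 * cos (2 * π * x) := by
    have h5 := Complex.sq_norm (ee x)
    rw [norm_ee, Complex.normSq_apply] at h5
    rw [Complex.sq_norm, Complex.normSq_apply, ← re_ee]
    simp only [Complex.add_re, Complex.one_re, Complex.add_im, Complex.one_im]
    linarith
  refine le_of_pow_le_pow_left₀ (n := 2) (by norm_num) (by nlinarith) ?_
  rw [h4]
  nlinarith [sq_nonneg (nd x ^ 2)]

theorem block_bound {a : ℕ} (ha : 1 ≤ a) {p : ℝ} (h0 : 0 ≤ p) (h1 : p ≤ 1) (G N : ℕ) {u : ℤ}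
    (hu : (2 : ℤ) ^ N ∣ a * u - 1) (ξ : ℤ) (J b s : ℕ) (hs : s ≤ G) :
    ‖∑ v ∈ univ.filter fun v : Fin G → Bool => cnt v = s,
      (wt p v : ℂ) * ee ((ξ * (phi a G v * (u ^ (J + s) * 2 ^ (G * b))) : ℤ) / 2 ^ N)‖ ≤
      (∑ v ∈ univ.filter fun v : Fin G → Bool => cnt v = s, wt p v) *
        (1 - 1 / ((a : ℝ) ^ (2 * G) * 2 ^ G)) ^ gw a G N (ξ * u ^ (J + 1) * 2 ^ (G * b)) s := by
  set C := univ.filter fun v : Fin G → Bool => cnt v = s with hC
  let f : (Fin G → Bool) → ℂ := fun v =>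
    (wt p v : ℂ) * ee ((ξ * (phi a G v * (u ^ (J + s) * 2 ^ (G * b))) : ℤ) / 2 ^ N)
  have hf : ∀ v, ‖f v‖ = wt p v := fun v => by
    simp only [f]
    rw [norm_mul, norm_ee, mul_one, Complex.norm_real, Real.norm_of_nonneg (wt_nonneg h0 h1 v)]
  rw [gw]
  split_ifs with h
  swap
  · rw [pow_zero, mul_one]
    exact (norm_sum_le _ _).trans (sum_congr rfl fun v _ => hf v).le
  obtain ⟨v, v', hne, hv, hv', hphi⟩ := exists_pair a G s h.1 hs
  have hvC : v ∈ C := mem_filter.mpr ⟨mem_univ _, hv⟩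
  have hvC' : v' ∈ C.erase v := mem_erase.mpr ⟨hne.symm, mem_filter.mpr ⟨mem_univ _, hv'⟩⟩
  set ω := p ^ s * (1 - p) ^ (G - s) with hω
  have hw : ∀ x ∈ C, wt p x = ω := fun x hx => by rw [wt_eq, (mem_filter.mp hx).2]
  have hω0 : 0 ≤ ω := hw v hvC ▸ wt_nonneg h0 h1 v
  set θ : ℝ := ((ξ * u ^ (J + 1) * 2 ^ (G * b) : ℤ) : ℝ) / 2 ^ N with hθ
  have h2 : ‖f v + f v'‖ ≤ ω * (2 - 4 * nd θ ^ 2) := by
    obtain ⟨k, hk⟩ : ∃ k, s = k + 1 := ⟨s - 1, by have := h.1; omega⟩
    obtain ⟨m, hm⟩ := dvd_pow_sub hu k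
    have h3 : f v + f v' = f v * (1 + ee (θ + ((ξ * u ^ (J + 1) * 2 ^ (G * b) * m : ℤ) : ℝ))) := by
      simp only [f]
      rw [mul_add, mul_one, mul_assoc, ← ee_add, hw v hvC, hw v' (mem_of_mem_erase hvC')]
      congr 3
      have h4 : ξ * (phi a G v' * (u ^ (J + s) * 2 ^ (G * b))) =
          ξ * (phi a G v * (u ^ (J + s) * 2 ^ (G * b))) + (ξ * u ^ (J + 1) * 2 ^ (G * b) +
            2 ^ N * (ξ * u ^ (J + 1) * 2 ^ (G * b) * m)) := by
        rw [hphi, hk, Nat.add_sub_cancel]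
        rw [mul_pow] at hm
        linear_combination ξ * u ^ (J + 1) * 2 ^ (G * b) * hm
      rw [h4, hθ]
      push_cast
      field_simp
    rw [h3, norm_mul, hf, hw v hvC, ← nd_add_int θ]
    exact mul_le_mul_of_nonneg_left (norm_one_add_ee _) hω0
  have ha1 : (1 : ℝ) ≤ a := by exact_mod_cast ha
  have h3 : 1 / (a : ℝ) ^ (2 * G) ≤ 4 * nd θ ^ 2 := by
    have h4 := pow_le_pow_left₀ (by positivity) h.2 2
    have h5 : 1 / (a : ℝ) ^ (2 * G) = 4 * (1 / (2 * (a : ℝ) ^ G)) ^ 2 := by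
      rw [pow_mul']
      field_simp
      norm_num
    rw [h5]
    exact mul_le_mul_of_nonneg_left h4 (by norm_num)
  have h4 : ∑ x ∈ C, wt p x ≤ 2 ^ G * ω := by
    rw [sum_congr rfl hw, sum_const, nsmul_eq_mul]
    refine mul_le_mul_of_nonneg_right ?_ hω0
    have : C.card ≤ 2 ^ G := (card_le_univ C).trans (by simp)
    exact_mod_cast this
  have h5 : ∑ x ∈ C, wt p x = ω + (ω + ∑ x ∈ (C.erase v).erase v', wt p x) := by
    rw [← add_sum_erase _ _ hvC, ← add_sum_erase _ _ hvC', hw v hvC,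
      hw v' (mem_of_mem_erase hvC')]
  have h6 : ‖∑ x ∈ (C.erase v).erase v', f x‖ ≤ ∑ x ∈ (C.erase v).erase v', wt p x :=
    (norm_sum_le _ _).trans (sum_congr rfl fun v _ => hf v).le
  have h7 : (∑ x ∈ C, wt p x) * (1 / ((a : ℝ) ^ (2 * G) * 2 ^ G)) ≤ ω * (4 * nd θ ^ 2) := by
    refine (mul_le_mul_of_nonneg_right h4 (by positivity)).trans
      (le_trans (le_of_eq ?_) (mul_le_mul_of_nonneg_left h3 hω0))
    field_simp
  change ‖∑ x ∈ C, f x‖ ≤ _
  rw [← add_sum_erase _ f hvC, ← add_sum_erase _ f hvC', ← add_assoc, pow_one]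
  refine (norm_add_le _ _).trans ?_
  linarith

/-- The Fejér kernel. -/
noncomputable def Fej (Q : ℕ) (θ : ℝ) : ℝ :=
  ∑ j ∈ range Q, ∑ i ∈ range Q, cos (2 * π * (((j : ℤ) - (i : ℤ) : ℤ) * θ))

theorem Fej_nonneg (Q : ℕ) (θ : ℝ) : 0 ≤ Fej Q θ := by
  have h : Fej Q θ = (∑ j ∈ range Q, cos (2 * π * j * θ)) * (∑ j ∈ range Q, cos (2 * π * j * θ)) +
      (∑ j ∈ range Q, sin (2 * π * j * θ)) * (∑ j ∈ range Q, sin (2 * π * j * θ)) := by
    rw [sum_mul_sum, sum_mul_sum, ← sum_add_distrib]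
    refine sum_congr rfl fun j _ => ?_
    rw [← sum_add_distrib]
    refine sum_congr rfl fun i _ => ?_
    rw [← cos_sub]
    congr 1
    push_cast
    ring
  rw [h]
  exact add_nonneg (mul_self_nonneg _) (mul_self_nonneg _)

theorem Fej_ge (Q : ℕ) (θ : ℝ) (z : ℤ) (h : Q * |θ| ≤ 1 / 8) : (Q : ℝ) ^ 2 / 2 ≤ Fej Q (θ + z) := by
  have h1 : ∀ j ∈ range Q, ∀ i ∈ range Q,
      1 / 2 ≤ cos (2 * π * (((j : ℤ) - (i : ℤ) : ℤ) * (θ + z))) := by
    intro j hj i hi
    have h2 : (((j : ℤ) - (i : ℤ) : ℤ) : ℝ) * (θ + z) =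
        ((j : ℝ) - i) * θ + ((((j : ℤ) - (i : ℤ)) * z : ℤ) : ℝ) := by
      push_cast
      ring
    rw [h2, cos_int]
    refine le_trans ?_ one_sub_sq_div_two_le_cos
    have h3 : |(j : ℝ) - i| ≤ Q := by
      have e1 : (j : ℝ) ≤ Q := by exact_mod_cast (mem_range.mp hj).le
      have e2 : (i : ℝ) ≤ Q := by exact_mod_cast (mem_range.mp hi).le
      rw [abs_le]
      constructor <;> linarith [Nat.cast_nonneg (α := ℝ) i, Nat.cast_nonneg (α := ℝ) j]
    have h4 : |2 * π * (((j : ℝ) - i) * θ)| ≤ 1 := by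
      rw [abs_mul, abs_mul ((j : ℝ) - i), abs_of_pos (by positivity)]
      have e1 := (mul_le_mul_of_nonneg_right h3 (abs_nonneg θ)).trans h
      have e2 := mul_le_mul pi_le_four e1 (by positivity) (by norm_num)
      linarith
    have h5 := (sq_le_one_iff_abs_le_one _).mpr h4
    linarith
  have h2 := card_nsmul_le_sum (range Q) _ _ fun j hj => card_nsmul_le_sum (range Q) _ _ (h1 j hj)
  rw [card_range, nsmul_eq_mul, nsmul_eq_mul] at h2
  rw [Fej]
  linarith

open Classical in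
theorem typ_bound {a : ℕ} (ha : Odd a) {p : ℝ} (h0 : 0 ≤ p) (h1 : p ≤ 1) (G D T K : ℕ)
    (hG : 3 ≤ G * D) (Bd : ℝ) (hBd : 0 ≤ Bd)
    (H : ∀ u : ℤ, (2 : ℤ) ^ (G * (D * (T + 1))) ∣ a * u - 1 →
      ∀ s : ℕ → ℕ, (∀ b, s b ≤ G) → Typ G D T K s →
      ∀ Ξ : Finset ℤ, (∀ ξ ∈ Ξ, ∀ ξ' ∈ Ξ, ξ - ξ' ≤ 2 ^ (G * D)) →
      ∑ ξ ∈ Ξ, (1 - 1 / ((a : ℝ) ^ (2 * G) * 2 ^ G)) ^ (∑ b ∈ range (D * (T + 1)),
          gw a G (G * (D * (T + 1))) (ξ * u ^ (PS s b + 1) * 2 ^ (G * b)) (s b)) ≤ Bd)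
    (A : Finset ℤ) (hA : ∀ n ∈ A, |n| ≤ 2 ^ (G * (D * T)) ∧
      Typ G D T K (ex fun b => cnt (bw a G (D * (T + 1)) n b))) :
    2 ^ (G * D) * ∑ n ∈ A, wn p a (G * (D * (T + 1))) n ≤ 48 * Bd := by
  set B := D * (T + 1) with hB
  obtain ⟨k, hk⟩ : ∃ k, G * D = k + 3 := ⟨G * D - 3, by omega⟩
  obtain ⟨u, hu⟩ := exists_inv ha (G * B)
  have hN : G * B = G * (D * T) + (k + 3) := by rw [← hk, hB]; ring
  set q := 1 - 1 / ((a : ℝ) ^ (2 * G) * 2 ^ G) with hq
  let F : (Fin B → Fin G → Bool) → ℝ := fun w =>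
    if Typ G D T K (ex fun b => cnt (w b)) then
      (∏ b, wt p (w b)) * Fej (2 ^ k) (Phi a u w / 2 ^ (G * B)) else 0
  have hF : ∀ w, 0 ≤ F w := fun w => by
    simp only [F]
    split_ifs
    · exact mul_nonneg (prod_nonneg fun b _ => wt_nonneg h0 h1 _) (Fej_nonneg _ _)
    · exact le_rfl
  have e1 : ∑ n ∈ A, wn p a (G * B) n * ((2 ^ k) ^ 2 / 2) ≤ ∑ n ∈ A, F (bw a G B n) := by
    refine sum_le_sum fun n hn => ?_
    simp only [F]
    rw [if_pos (hA n hn).2, ← prod_bw]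
    refine mul_le_mul_of_nonneg_left ?_ (prod_nonneg fun b _ => wt_nonneg h0 h1 _)
    obtain ⟨z, hz⟩ := dvd_Phi (a := a) (by exact_mod_cast ha) G B hu n
    have h2 : (Phi a u (bw a G B n) : ℝ) / 2 ^ (G * B) = -n / 2 ^ (G * B) + z := by
      have h3 : (n : ℝ) + Phi a u (bw a G B n) = 2 ^ (G * B) * z := by exact_mod_cast hz
      field_simp
      linarith
    rw [h2]
    refine le_trans (le_of_eq (by push_cast; rfl)) (Fej_ge _ _ z ?_)
    have h3 : |(n : ℝ)| ≤ 2 ^ (G * (D * T)) := by exact_mod_cast (hA n hn).1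
    rw [abs_div, abs_neg, abs_of_pos (a := (2 : ℝ) ^ _) (by positivity), hN, pow_add, pow_add,
      ← mul_div_assoc, div_le_iff₀ (by positivity)]
    push_cast
    have := mul_le_mul_of_nonneg_left h3 (show (0 : ℝ) ≤ 2 ^ k by positivity)
    linarith
  have e2 := sum_bw_le ha G B A (fun n hn => (hA n hn).1.trans
    (pow_le_pow_right₀ (by norm_num) (by omega))) F hF
  have e3 : ∑ w, F w ≤ ∑ w : Fin B → Fin G → Bool, (∏ b, wt p (w b)) * (2 ^ k * Bd) := by
    let g : (Fin B → Fin G → Bool) → Fin B → ℕ := fun w b => cnt (w b)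
    have hm : ∀ w ∈ univ, g w ∈ univ.image g := fun w hw => mem_image_of_mem g hw
    rw [← sum_fiberwise_of_maps_to hm, ← sum_fiberwise_of_maps_to hm]
    refine sum_le_sum fun σ hσ => ?_
    have hσG : ∀ b, σ b ≤ G := by
      obtain ⟨w, _, rfl⟩ := mem_image.mp hσ
      exact fun b => cnt_le _
    by_cases ht : Typ G D T K (ex σ)
    swap
    · refine sum_le_sum fun w hw => ?_
      simp only [F]
      rw [if_neg (by rwa [← (mem_filter.mp hw).2] at ht)]
      exact mul_nonneg (prod_nonneg fun b _ => wt_nonneg h0 h1 _) (by positivity)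
    have hcl : (univ.filter fun w => g w = σ) =
        Fintype.piFinset fun b => univ.filter fun v : Fin G → Bool => cnt v = σ b := by
      ext w
      simp only [mem_filter, mem_univ, true_and, Fintype.mem_piFinset, g, funext_iff]
    have hex : ∀ b : Fin B, ex σ b = σ b := fun b => dif_pos b.2
    let W := ∏ b, ∑ v ∈ univ.filter fun v : Fin G → Bool => cnt v = σ b, wt p v
    have hW : 0 ≤ W := prod_nonneg fun b _ => sum_nonneg fun v _ => wt_nonneg h0 h1 v
    have key : ∀ ξ : ℤ, ∑ w ∈ univ.filter fun w => g w = σ, (∏ b, wt p (w b)) *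
        cos (2 * π * (ξ * (Phi a u w / 2 ^ (G * B)))) ≤ W * q ^ (∑ b ∈ range B,
          gw a G (G * B) (ξ * u ^ (PS (ex σ) b + 1) * 2 ^ (G * b)) (ex σ b)) := by
      intro ξ
      let f : Fin B → (Fin G → Bool) → ℂ := fun b v => (wt p v : ℂ) *
        ee ((ξ * (phi a G v * (u ^ (PS (ex σ) b + σ b) * 2 ^ (G * b))) : ℤ) / 2 ^ (G * B))
      calc _ = (∑ w ∈ univ.filter fun w => g w = σ, ∏ b, f b (w b)).re := by
            rw [Complex.re_sum]
            refine sum_congr rfl fun w hw => ?_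
            have h2 : (fun b => cnt (w b)) = σ := (mem_filter.mp hw).2
            simp only [f]
            rw [prod_mul_distrib, ← ee_sum, ← Complex.ofReal_prod, Complex.re_ofReal_mul, re_ee,
              Phi, h2, ← sum_div, ← mul_div_assoc]
            congr 4
            push_cast
            rw [mul_sum]
            refine sum_congr rfl fun b _ => ?_
            rw [← hex b, PS, PS, sum_range_succ]
        _ ≤ ‖∏ b, ∑ v ∈ univ.filter fun v : Fin G → Bool => cnt v = σ b, f b v‖ := by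
            rw [hcl, ← prod_univ_sum]
            exact Complex.re_le_norm _
        _ ≤ _ := by
            rw [norm_prod, ← prod_pow_eq_pow_sum, ← Fin.prod_univ_eq_prod_range (fun b =>
              q ^ gw a G (G * B) (ξ * u ^ (PS (ex σ) b + 1) * 2 ^ (G * b)) (ex σ b)),
              ← prod_mul_distrib]
            refine prod_le_prod (fun _ _ => norm_nonneg _) fun b _ => ?_
            rw [hex]
            exact block_bound ha.pos h0 h1 G _ hu ξ _ b _ (hσG b)
    calc _ = ∑ j ∈ range (2 ^ k), ∑ i ∈ range (2 ^ k), ∑ w ∈ univ.filter fun w => g w = σ,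
          (∏ b, wt p (w b)) *
            cos (2 * π * (((j : ℤ) - (i : ℤ) : ℤ) * (Phi a u w / 2 ^ (G * B)))) := by
          rw [sum_congr rfl fun j _ => sum_comm, sum_comm]
          refine sum_congr rfl fun w hw => ?_
          simp only [F]
          rw [if_pos (by rwa [← (mem_filter.mp hw).2] at ht), Fej, mul_sum]
          exact sum_congr rfl fun j _ => mul_sum ..
      _ ≤ ∑ _j ∈ range (2 ^ k), W * Bd := by
          refine sum_le_sum fun j _ => (sum_le_sum fun i _ => key _).trans ?_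
          rw [← mul_sum]
          refine mul_le_mul_of_nonneg_left (le_trans (le_of_eq ?_) (H u hu (ex σ) (fun b => ?_) ht
            ((range (2 ^ k)).image fun i : ℕ => (j : ℤ) - i) fun ξ hξ ξ' hξ' => ?_)) hW
          · rw [sum_image fun x _ y _ h => by simpa using h]
          · rw [ex]
            split_ifs
            · exact hσG _
            · exact Nat.zero_le _
          · obtain ⟨i, hi, rfl⟩ := mem_image.mp hξ
            obtain ⟨i', hi', rfl⟩ := mem_image.mp hξ'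
            have h2 : (i' : ℤ) ≤ 2 ^ k := by exact_mod_cast (mem_range.mp hi').le
            have h3 : (0 : ℤ) < 2 ^ k := by positivity
            rw [hk, pow_add]
            omega
      _ = _ := by
          rw [sum_const, card_range, nsmul_eq_mul, ← sum_mul, hcl, ← prod_univ_sum]
          push_cast
          ring
  rw [← sum_mul, sum_prod_wt G B fun _ v => wt p v] at e3
  simp only [sum_wt, prod_const_one, one_mul] at e3
  rw [← sum_mul] at e1
  rw [hk, pow_add]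
  refine le_of_mul_le_mul_left ?_ (show (0 : ℝ) < 2 ^ k by positivity)
  linarith

end Pool.Agent.Lib.MP_dee342_nt.Count
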