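import Pool.Agent.Lib.MP_dee342_nt.CountMain

/-! The two-scale estimate with a different Bernoulli parameter on the last window. -/

set_option autoImplicit false

namespace Pool.Agent.Lib.MP_dee342_nt.Count

open Finset Real Filter

/-- The map `T`, under a name that does not clash with the number of intervals. -/
abbrev Map (a : ℤ) : ℤ → ℤ := T a

theorem prod_wn (p : ℝ) (a : ℤ) (G B : ℕ) (y : ℤ) :
    ∏ b ∈ range B, wn p a G ((T a)^[G * b] y) = wn p a (G * B) y := by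
  rw [← prod_bw, ← Fin.prod_univ_eq_prod_range (fun b => wn p a G ((T a)^[G * b] y))]
  exact prod_congr rfl fun b _ => (wt_wd ..).symm

theorem prod_two (p p' : ℝ) (a : ℤ) (G D S : ℕ) (y : ℤ) :
    ∏ b : Fin (D * (S + 1)), wt (if (b : ℕ) < D * S then p else p') (bw a G (D * (S + 1)) y b) =
      wn p a (G * (D * S)) y * wn p' a (G * D) ((T a)^[G * (D * S)] y) := by
  have h : ∏ b : Fin (D * (S + 1)), wt (if (b : ℕ) < D * S then p else p')
      (bw a G (D * (S + 1)) y b) = ∏ b ∈ range (D * (S + 1)),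
        wn (if b < D * S then p else p') a G ((T a)^[G * b] y) := by
    rw [← Fin.prod_univ_eq_prod_range
      (fun b => wn (if b < D * S then p else p') a G ((T a)^[G * b] y))]
    exact prod_congr rfl fun b _ => wt_wd ..
  rw [h, Nat.mul_succ, prod_range_add, ← prod_wn, ← prod_wn]
  congr 1
  · exact prod_congr rfl fun b hb => by rw [if_pos (mem_range.mp hb)]
  · refine prod_congr rfl fun b _ => ?_
    rw [if_neg (by omega), mul_add, add_comm, Function.iterate_add_apply]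

open Classical in
theorem typ_bound2 {a : ℕ} (ha : Odd a) {p : ℕ → ℝ} (h0 : ∀ b, 0 ≤ p b) (h1 : ∀ b, p b ≤ 1)
    (G D T K : ℕ)
    (hG : 3 ≤ G * D) (Bd : ℝ) (hBd : 0 ≤ Bd)
    (H : ∀ u : ℤ, (2 : ℤ) ^ (G * (D * (T + 1))) ∣ a * u - 1 →
      ∀ s : ℕ → ℕ, (∀ b, s b ≤ G) → Typ G D T K s →
      ∀ Ξ : Finset ℤ, (∀ ξ ∈ Ξ, ∀ ξ' ∈ Ξ, ξ - ξ' ≤ 2 ^ (G * D)) →
      ∑ ξ ∈ Ξ, (1 - 1 / ((a : ℝ) ^ (2 * G) * 2 ^ G)) ^ (∑ b ∈ range (D * (T + 1)),
          gw a G (G * (D * (T + 1))) (ξ * u ^ (PS s b + 1) * 2 ^ (G * b)) (s b)) ≤ Bd)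
    (A : Finset ℤ) (hA : ∀ n ∈ A, |n| ≤ 2 ^ (G * (D * T)) ∧
      Typ G D T K (ex fun b => cnt (bw a G (D * (T + 1)) n b))) :
    2 ^ (G * D) * ∑ n ∈ A, ∏ b : Fin (D * (T + 1)), wt (p b) (bw a G (D * (T + 1)) n b) ≤
      48 * Bd := by
  set B := D * (T + 1) with hB
  obtain ⟨k, hk⟩ : ∃ k, G * D = k + 3 := ⟨G * D - 3, by omega⟩
  obtain ⟨u, hu⟩ := exists_inv ha (G * B)
  have hN : G * B = G * (D * T) + (k + 3) := by rw [← hk, hB]; ring
  set q := 1 - 1 / ((a : ℝ) ^ (2 * G) * 2 ^ G) with hq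
  let F : (Fin B → Fin G → Bool) → ℝ := fun w =>
    if Typ G D T K (ex fun b => cnt (w b)) then
      (∏ b : Fin B, wt (p b) (w b)) * Fej (2 ^ k) (Phi a u w / 2 ^ (G * B)) else 0
  have hF : ∀ w, 0 ≤ F w := fun w => by
    simp only [F]
    split_ifs
    · exact mul_nonneg (prod_nonneg fun b _ => wt_nonneg (h0 _) (h1 _) _) (Fej_nonneg _ _)
    · exact le_rfl
  have e1 : ∑ n ∈ A, (∏ b : Fin B, wt (p b) (bw a G B n b)) * ((2 ^ k) ^ 2 / 2) ≤
      ∑ n ∈ A, F (bw a G B n) := by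
    refine sum_le_sum fun n hn => ?_
    simp only [F]
    rw [if_pos (hA n hn).2]
    refine mul_le_mul_of_nonneg_left ?_ (prod_nonneg fun b _ => wt_nonneg (h0 _) (h1 _) _)
    obtain ⟨z, hz⟩ := dvd_Phi (a := a) (by exact_mod_cast ha) G B hu n
    have h2 : (Phi a u (bw a G B n) : ℝ) / 2 ^ (G * B) = -n / 2 ^ (G * B) + z := by
      have h3 : (n : ℝ) + Phi a u (bw a G B n) = 2 ^ (G * B) * z := by exact_mod_cast hz
      field_simp
      linarith
    rw [h2]
    refine le_trans (le_of_eq (by push_cast; rfl)) (Fej_ge _ _ z ?_)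
    have h3 : |(n : ℝ)| ≤ 2 ^ (G * (D * T)) := by exact_mod_cast (hA n hn).1
    rw [abs_div, abs_neg, abs_of_pos (a := (2 : ℝ) ^ _) (by positivity), hN, pow_add, pow_add,
      ← mul_div_assoc, div_le_iff₀ (by positivity)]
    push_cast
    have := mul_le_mul_of_nonneg_left h3 (show (0 : ℝ) ≤ 2 ^ k by positivity)
    linarith
  have e2 := sum_bw_le ha G B A (fun n hn => (hA n hn).1.trans
    (pow_le_pow_right₀ (by norm_num) (by omega))) F hF
  have e3 : ∑ w, F w ≤ ∑ w : Fin B → Fin G → Bool, (∏ b : Fin B, wt (p b) (w b)) * (2 ^ k * Bd) := by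
    let g : (Fin B → Fin G → Bool) → Fin B → ℕ := fun w b => cnt (w b)
    have hm : ∀ w ∈ univ, g w ∈ univ.image g := fun w hw => mem_image_of_mem g hw
    rw [← sum_fiberwise_of_maps_to hm, ← sum_fiberwise_of_maps_to hm]
    refine sum_le_sum fun σ hσ => ?_
    have hσG : ∀ b, σ b ≤ G := by
      obtain ⟨w, _, rfl⟩ := mem_image.mp hσ
      exact fun b => cnt_le _
    by_cases ht : Typ G D T K (ex σ)
    swap
    · refine sum_le_sum fun w hw => ?_
      simp only [F]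
      rw [if_neg (by rwa [← (mem_filter.mp hw).2] at ht)]
      exact mul_nonneg (prod_nonneg fun b _ => wt_nonneg (h0 _) (h1 _) _) (by positivity)
    have hcl : (univ.filter fun w => g w = σ) =
        Fintype.piFinset fun b => univ.filter fun v : Fin G → Bool => cnt v = σ b := by
      ext w
      simp only [mem_filter, mem_univ, true_and, Fintype.mem_piFinset, g, funext_iff]
    have hex : ∀ b : Fin B, ex σ b = σ b := fun b => dif_pos b.2
    let W := ∏ b : Fin B, ∑ v ∈ univ.filter fun v : Fin G → Bool => cnt v = σ b, wt (p b) v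
    have hW : 0 ≤ W := prod_nonneg fun b _ => sum_nonneg fun v _ => wt_nonneg (h0 _) (h1 _) v
    have key : ∀ ξ : ℤ, ∑ w ∈ univ.filter fun w => g w = σ, (∏ b : Fin B, wt (p b) (w b)) *
        cos (2 * π * (ξ * (Phi a u w / 2 ^ (G * B)))) ≤ W * q ^ (∑ b ∈ range B,
          gw a G (G * B) (ξ * u ^ (PS (ex σ) b + 1) * 2 ^ (G * b)) (ex σ b)) := by
      intro ξ
      let f : Fin B → (Fin G → Bool) → ℂ := fun b v => (wt (p b) v : ℂ) *
        ee ((ξ * (phi a G v * (u ^ (PS (ex σ) b + σ b) * 2 ^ (G * b))) : ℤ) / 2 ^ (G * B))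
      calc _ = (∑ w ∈ univ.filter fun w => g w = σ, ∏ b, f b (w b)).re := by
            rw [Complex.re_sum]
            refine sum_congr rfl fun w hw => ?_
            have h2 : (fun b => cnt (w b)) = σ := (mem_filter.mp hw).2
            simp only [f]
            rw [prod_mul_distrib, ← ee_sum, ← Complex.ofReal_prod, Complex.re_ofReal_mul, re_ee,
              Phi, h2, ← sum_div, ← mul_div_assoc]
            congr 4
            push_cast
            rw [mul_sum]
            refine sum_congr rfl fun b _ => ?_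
            rw [← hex b, PS, PS, sum_range_succ]
        _ ≤ ‖∏ b, ∑ v ∈ univ.filter fun v : Fin G → Bool => cnt v = σ b, f b v‖ := by
            rw [hcl, ← prod_univ_sum]
            exact Complex.re_le_norm _
        _ ≤ _ := by
            rw [norm_prod, ← prod_pow_eq_pow_sum, ← Fin.prod_univ_eq_prod_range (fun b =>
              q ^ gw a G (G * B) (ξ * u ^ (PS (ex σ) b + 1) * 2 ^ (G * b)) (ex σ b)),
              ← prod_mul_distrib]
            refine prod_le_prod (fun _ _ => norm_nonneg _) fun b _ => ?_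
            rw [hex]
            exact block_bound ha.pos (h0 _) (h1 _) G _ hu ξ _ b _ (hσG b)
    calc _ = ∑ j ∈ range (2 ^ k), ∑ i ∈ range (2 ^ k), ∑ w ∈ univ.filter fun w => g w = σ,
          (∏ b : Fin B, wt (p b) (w b)) *
            cos (2 * π * (((j : ℤ) - (i : ℤ) : ℤ) * (Phi a u w / 2 ^ (G * B)))) := by
          rw [sum_congr rfl fun j _ => sum_comm, sum_comm]
          refine sum_congr rfl fun w hw => ?_
          simp only [F]
          rw [if_pos (by rwa [← (mem_filter.mp hw).2] at ht), Fej, mul_sum]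
          exact sum_congr rfl fun j _ => mul_sum ..
      _ ≤ ∑ _j ∈ range (2 ^ k), W * Bd := by
          refine sum_le_sum fun j _ => (sum_le_sum fun i _ => key _).trans ?_
          rw [← mul_sum]
          refine mul_le_mul_of_nonneg_left (le_trans (le_of_eq ?_) (H u hu (ex σ) (fun b => ?_) ht
            ((range (2 ^ k)).image fun i : ℕ => (j : ℤ) - i) fun ξ hξ ξ' hξ' => ?_)) hW
          · rw [sum_image fun x _ y _ h => by simpa using h]
          · rw [ex]
            split_ifs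
            · exact hσG _
            · exact Nat.zero_le _
          · obtain ⟨i, hi, rfl⟩ := mem_image.mp hξ
            obtain ⟨i', hi', rfl⟩ := mem_image.mp hξ'
            have h2 : (i' : ℤ) ≤ 2 ^ k := by exact_mod_cast (mem_range.mp hi').le
            have h3 : (0 : ℤ) < 2 ^ k := by positivity
            rw [hk, pow_add]
            omega
      _ = _ := by
          rw [sum_const, card_range, nsmul_eq_mul, ← sum_mul, hcl, ← prod_univ_sum]
          push_cast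
          ring
  rw [← sum_mul, sum_prod_wt G B fun b v => wt (p b) v] at e3
  simp only [sum_wt, prod_const_one, one_mul] at e3
  rw [← sum_mul] at e1
  rw [hk, pow_add]
  refine le_of_mul_le_mul_left ?_ (show (0 : ℝ) < 2 ^ k by positivity)
  linarith

theorem core_measure2 {a : ℕ} (ha : Odd a) (ha3 : 3 ≤ a) {p : ℝ} (h0 : 0 < p) (h1 : p < 1)
    {p' : ℝ} (h0' : 0 ≤ p') (h1' : p' ≤ 1) {β : ℝ}
    (hβ : 1 < β) : ∃ G ≥ 3, ∃ ρ : ℝ, 0 ≤ ρ ∧ ρ < 1 ∧ ∃ T0, ∀ T ≥ T0, ∀ D ≥ 1, ∀ (A : Finset ℤ)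
      (ω ω' : ℝ), 0 < ω → 0 < ω' → (∀ n ∈ A, |n| ≤ 2 ^ (G * (D * T)) ∧
        ω ≤ wn p a (G * (D * T)) n ∧
        ω' ≤ wn p a (G * (D * T)) n * wn p' a (G * D) ((Map a)^[G * (D * T)] n)) →
      (A.card : ℝ) ≤ 3 * (T * ρ ^ D) / ω +
        48 * ((T + 1) * ((a : ℝ) ^ G + 1) * (β ^ (10 * G)) ^ D) / 2 ^ (G * D) / ω' := by
  classical
  obtain ⟨ε, hε0, hε1, hε⟩ : ∃ ε : ℝ, 0 < ε ∧ ε ≤ 1 ∧ 1 + 2 * ε ≤ β :=
    ⟨min 1 ((β - 1) / 2), lt_min one_pos (by linarith), min_le_left _ _,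
      by linarith [min_le_right 1 ((β - 1) / 2)]⟩
  obtain ⟨k, hk⟩ := pow_unbounded_of_one_lt ((a / ε) ^ 2) hβ
  obtain ⟨G, hG, hG2⟩ := exists_G h0 h1 (k + 1)
  have ha1 : (1 : ℝ) ≤ a := by exact_mod_cast ha.pos
  have haG : (1 : ℝ) ≤ a ^ G := one_le_pow₀ ha1
  set K := (k + 1) * G with hK
  have hK2 : 2 ≤ K := by nlinarith
  have hK0 : (0 : ℝ) < K := by exact_mod_cast (by omega : 0 < K)
  have hq : (0 : ℝ) < (a : ℝ) ^ (2 * G) * 2 ^ G := by positivity
  have hq1 : (1 : ℝ) ≤ (a : ℝ) ^ (2 * G) * 2 ^ G :=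
    one_le_mul_of_one_le_of_one_le (one_le_pow₀ ha1) (one_le_pow₀ (by norm_num))
  have hl1 : ε / (a : ℝ) ^ G ≤ 1 := (div_le_one (by positivity)).mpr (hε1.trans haG)
  obtain ⟨T0, hT0⟩ := path_bound a ha ha3 G (by omega) K hK2
    (1 - 1 / ((a : ℝ) ^ (2 * G) * 2 ^ G)) (ε / (a : ℝ) ^ G) (β ^ (5 * G))
    (sub_nonneg.mpr ((div_le_one hq).mpr hq1)) (by linarith [one_div_pos.mpr hq])
    (by positivity) hl1 (by positivity) (by
      have e1 : (ε / a) ^ G ≤ ε / (a : ℝ) ^ G := by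
        rw [div_pow]
        exact div_le_div_of_nonneg_right (pow_le_of_le_one hε0.le hε1 (by omega)) (by positivity)
      have e2 : ((ε / a) ^ G) ^ (10 * G) ≤ (ε / (a : ℝ) ^ G) ^ (2 * (4 * G + 2)) :=
        (pow_le_pow_left₀ (by positivity) e1 _).trans
          (pow_le_pow_of_le_one (by positivity) hl1 (by omega))
      have e3 : ((a / ε) ^ 2) ^ (5 * G * G) ≤ (β ^ (5 * G)) ^ K := by
        refine (pow_le_pow_left₀ (by positivity) hk.le _).trans ?_
        rw [← pow_mul, ← pow_mul]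
        exact pow_le_pow_right₀ hβ.le (by rw [hK]; nlinarith)
      refine le_trans (le_of_eq ?_) (mul_le_mul e2 e3 (by positivity) (by positivity))
      rw [← pow_mul, ← pow_mul, show 2 * (5 * G * G) = G * (10 * G) by ring, ← mul_pow]
      rw [show ε / a * (a / ε) = 1 by field_simp, one_pow])
  have hy : (1 : ℝ) ≤ 1 + 1 / K := by linarith [one_div_pos.mpr hK0]
  have hyK : (1 + 1 / (K : ℝ)) ^ K ≤ 3 := by
    refine (pow_le_pow_left₀ (by positivity) ((add_comm _ _).trans_le (add_one_le_exp _)) K).trans ?_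
    rw [← exp_nat_mul, mul_one_div_cancel hK0.ne']
    linarith [exp_one_lt_d9]
  have hpG : 0 ≤ p ^ G + (1 - p) ^ G := add_nonneg (by positivity) (pow_nonneg (by linarith) _)
  refine ⟨G, hG, (1 + ((1 + 1 / K) ^ K - 1) * (p ^ G + (1 - p) ^ G)) / (1 + 1 / K),
    div_nonneg (add_nonneg zero_le_one (mul_nonneg (sub_nonneg.mpr (one_le_pow₀ hy)) hpG))
      (by positivity), ?_, T0, fun T hT D hD A ω ω' hω hω' hA => ?_⟩
  · rw [div_lt_one (by positivity), add_lt_add_iff_left, lt_div_iff₀ hK0]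
    have e1 := mul_le_mul_of_nonneg_right (sub_le_sub_right hyK 1) (mul_nonneg hpG hK0.le)
    rw [hK] at e1 ⊢
    push_cast at e1 hG2 ⊢
    linarith
  rw [← card_filter_add_card_filter_not (s := A)
    (fun n => ¬ Typ G D T K (ex fun b => cnt (bw a G (D * T) n b))), Nat.cast_add]
  refine add_le_add ?_ ?_
  · rw [le_div_iff₀ hω, ← nsmul_eq_mul]
    exact (card_nsmul_le_sum _ _ _ fun n hn => (hA n (mem_filter.mp hn).1).2.1).trans
      (atyp_bound ha h0.le h1.le G D T K hy _ fun n hn =>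
        ⟨(hA n (mem_filter.mp hn).1).1, (mem_filter.mp hn).2⟩)
  · rw [le_div_iff₀ hω', ← nsmul_eq_mul]
    refine (card_nsmul_le_sum _ _ _ fun n hn => (hA n (mem_filter.mp hn).1).2.2).trans ?_
    rw [le_div_iff₀' (by positivity), sum_congr rfl fun n _ => (prod_two p p' a G D T n).symm]
    refine typ_bound2 ha (p := fun b => if b < D * T then p else p')
      (fun b => by split_ifs <;> linarith) (fun b => by split_ifs <;> linarith)
      G D T K (by nlinarith) _ (by positivity)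
      (fun u hu s hs ht Ξ hΞ => (hT0 T hT D hD u hu s hs ht Ξ hΞ).trans ?_) _ fun n hn =>
        ⟨(hA n (mem_filter.mp hn).1).1, typ_congr _ _ _ _ _ _ (not_not.mp (mem_filter.mp hn).2)⟩
    refine mul_le_mul_of_nonneg_left (pow_le_pow_left₀ (by positivity) ?_ _) (by positivity)
    rw [show 10 * G = 5 * G + 5 * G by ring, pow_add β,
      show 2 * (a : ℝ) ^ G * (ε / a ^ G) = 2 * ε by field_simp]
    exact mul_le_mul_of_nonneg_right ((pow_le_pow_left₀ (by positivity) hε _).trans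
      (pow_le_pow_right₀ hβ.le (by omega))) (by positivity)

theorem core2 {a : ℕ} (ha : Odd a) (ha3 : 3 ≤ a) {p : ℝ} (h0 : 0 < p) (h1 : p < 1)
    {p' : ℝ} (h0' : 0 ≤ p') (h1' : p' ≤ 1) (H : ℝ) {H' : ℝ}
    (hH : H' < log 2) (T1 : ℕ) : ∃ G ≥ 1, ∃ S ≥ T1, ∃ δ > 0, ∃ C ≥ 0, ∀ D ≥ 1, ∀ A : Finset ℤ,
      (∀ n ∈ A, |n| ≤ 2 ^ (G * (D * S)) ∧
        exp (-(H + δ) * (G * (D * S) : ℕ)) ≤ wn p a (G * (D * S)) n ∧
        exp (-H' * (G * D : ℕ) - δ * (G * (D * S) : ℕ)) ≤
          wn p' a (G * D) ((T a)^[G * (D * S)] n)) →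
      (A.card : ℝ) ≤ C * exp ((H - δ) * (G * (D * S) : ℕ)) := by
  obtain ⟨G, hG, ρ, hρ0, hρ1, T0, h⟩ := core_measure2 ha ha3 h0 h1 h0' h1'
    (β := exp ((log 2 - H') / 20)) (one_lt_exp_iff.mpr (by linarith))
  set S := max T0 T1 with hS
  have hT0 : (0 : ℝ) ≤ S := Nat.cast_nonneg _
  have hG0 : (0 : ℝ) ≤ G := Nat.cast_nonneg _
  obtain ⟨δ, hδ, hδ1, hδ2⟩ : ∃ δ : ℝ, 0 < δ ∧ δ * (2 * G * S + 1) ≤ 1 - ρ ∧
      δ * (3 * S + 1) ≤ (log 2 - H') / 2 :=
    ⟨min ((1 - ρ) / (2 * G * S + 1)) ((log 2 - H') / 2 / (3 * S + 1)),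
      lt_min (div_pos (by linarith) (by positivity)) (div_pos (by linarith) (by positivity)),
      (le_div_iff₀ (by positivity)).mp (min_le_left _ _),
      (le_div_iff₀ (by positivity)).mp (min_le_right _ _)⟩
  refine ⟨G, by omega, S, le_max_right _ _, δ, hδ, 3 * S + 48 * ((S + 1) * ((a : ℝ) ^ G + 1)),
    by positivity, fun D hD A hA => (h S (le_max_left _ _) D hD A
      (exp (-(H + δ) * (G * (D * S) : ℕ))) (exp (-(H + δ) * (G * (D * S) : ℕ) +
        (-H' * (G * D : ℕ) - δ * (G * (D * S) : ℕ)))) (exp_pos _) (exp_pos _)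
      fun n hn => ⟨(hA n hn).1, (hA n hn).2.1, ?_⟩).trans ?_⟩
  · rw [exp_add]
    exact mul_le_mul (hA n hn).2.1 (hA n hn).2.2 (exp_pos _).le
      ((exp_pos _).le.trans (hA n hn).2.1)
  have hD0 : (0 : ℝ) ≤ D := Nat.cast_nonneg _
  rw [add_mul (3 * (S : ℝ))]
  refine add_le_add ?_ ?_
  · rw [div_le_iff₀ (exp_pos _), mul_assoc, mul_assoc, ← exp_add]
    refine mul_le_mul_of_nonneg_left (mul_le_mul_of_nonneg_left ?_ hT0) (by norm_num)
    have e1 : ρ ≤ exp (ρ - 1) := by linarith [add_one_le_exp (ρ - 1)]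
    refine (pow_le_pow_left₀ hρ0 e1 D).trans ?_
    rw [← exp_nat_mul, exp_le_exp]
    push_cast
    linarith [mul_le_mul_of_nonneg_left hδ1 hD0, mul_nonneg hD0 hδ.le]
  · rw [div_le_iff₀ (exp_pos _), div_le_iff₀ (by positivity), ← mul_assoc 48, mul_assoc (48 * _),
      mul_assoc (48 * _), ← exp_add, ← exp_log (show (0 : ℝ) < 2 ^ (G * D) by positivity),
      ← exp_add, ← pow_mul, ← exp_nat_mul, log_pow]
    refine mul_le_mul_of_nonneg_left (exp_le_exp.mpr ?_) (by positivity)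
    push_cast
    linarith [mul_le_mul_of_nonneg_left hδ2 (mul_nonneg hG0 hD0),
      mul_nonneg (mul_nonneg hG0 hD0) hδ.le]

end Pool.Agent.Lib.MP_dee342_nt.Count
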