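import Pool.Agent.Lib.MP_dee342_nt.CountApp

/-! Power savings over the entropy exponent. -/

set_option autoImplicit false

namespace Pool.Agent.Lib.MP_dee342_nt.Count

open Finset Real Filter

theorem ncard_le {P : Set ℤ} {A : Finset ℤ} (h : ∀ n ∈ P, n ∈ A) : (P.ncard : ℝ) ≤ A.card := by
  exact_mod_cast (Set.ncard_le_ncard h A.finite_toSet).trans (Set.ncard_coe_finset A).le

theorem final {E : ℕ} (hE : 1 ≤ E) {H δ C : ℝ} (hγ : δ ≤ H) (hC : 0 ≤ C) (f : ℕ → ℝ)
    (hf : ∀ D, f D ≤ C * exp ((H - δ) * E) ^ D) {x : ℝ} (hx : 1 ≤ x) :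
    ∃ D : ℕ, x ≤ 2 ^ (E * D) ∧ f D ≤ C * exp ((H - δ) * E) * x ^ (H / log 2 - δ / log 2) := by
  obtain ⟨D, h1, h2⟩ := scale hE (sub_nonneg.mpr hγ) hx
  refine ⟨D, h1, (hf D).trans ?_⟩
  rw [mul_assoc, ← sub_div]
  exact mul_le_mul_of_nonneg_left h2 hC

theorem mem_box {n : ℤ} {x : ℝ} {L : ℕ} (h1 : |(n : ℝ)| ≤ x) (h2 : x ≤ 2 ^ L) : |n| ≤ 2 ^ L := by
  exact_mod_cast h1.trans h2

theorem div_real (L m : ℕ) (hm : 1 ≤ m) :
    ((L / m : ℕ) : ℝ) ≤ L / m ∧ (L : ℝ) / m ≤ (L / m : ℕ) + 1 := by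
  refine ⟨Nat.cast_div_le, ?_⟩
  rw [div_le_iff₀ (by exact_mod_cast hm)]
  have := (Nat.lt_div_mul_add (a := L) hm).le
  rw [add_mul, one_mul]
  exact_mod_cast this

theorem three : ∃ δ > 0, ∃ C : ℝ, ∀ S : Set ℤ, Set.MapsTo (T 3) S S → Set.InjOn (T 3) S →
    ∀ x : ℝ, 1 ≤ x → ({n | n ∈ S ∧ |(n : ℝ)| ≤ x}.ncard : ℝ) ≤
      C * x ^ (binEntropy (log 2 / log 3) / log 2 - δ) := by
  classical
  have l2 := log_pos (one_lt_two (α := ℝ))
  have l3 : log 2 < log 3 := log_lt_log (by norm_num) (by norm_num)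
  have l4 : log 3 < 2 * log 2 := by
    have := log_lt_log (show (0 : ℝ) < 3 by norm_num) (show (3 : ℝ) < 2 ^ 2 by norm_num)
    rwa [log_pow] at this
  set θ := log 2 / log 3 with hθ
  have l5 : log 2 = θ * log 3 := by rw [hθ, div_mul_cancel₀ _ (l2.trans l3).ne']
  have h1 : θ < 1 := (div_lt_one (l2.trans l3)).mpr l3
  have h2 : 1 / 2 < θ := by rw [hθ, lt_div_iff₀ (l2.trans l3)]; linarith
  have h0 : 0 < θ := by linarith
  have hl : 0 ≤ log θ - log (1 - θ) := sub_nonneg.mpr (log_le_log (by linarith) (by linarith))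
  have hH := binEntropy_pos h0 h1
  obtain ⟨G, hG, T', hT, δ, hδ, C, hC, h⟩ := core (a := 3) (by decide) le_rfl h0 h1
    (binEntropy_lt_log_two.mpr (by linarith [h2.ne', one_div (2 : ℝ)] : θ ≠ 2⁻¹)) 2
  obtain ⟨m, hm⟩ := exists_nat_ge (max 9 (2 * (log θ - log (1 - θ)) / δ))
  have hm9 : (9 : ℝ) ≤ m := le_of_max_le_left hm
  have hm1 : 1 ≤ m := by exact_mod_cast (by linarith : (1 : ℝ) ≤ m)
  have hm2 : 2 * (log θ - log (1 - θ)) ≤ m * δ := (div_le_iff₀ hδ).mp (le_of_max_le_right hm)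
  have hE : 1 ≤ G * T' := Nat.mul_pos hG (by omega)
  have hE' : (1 : ℝ) ≤ (G * T' : ℕ) := by exact_mod_cast hE
  set H := binEntropy θ
  have hδ' : min δ (H / 2) < H := (min_le_right _ _).trans_lt (by linarith)
  obtain ⟨C', hC', hrec⟩ := recur (r := exp ((H - min δ (H / 2)) * (G * T' : ℕ)))
    (b := 2 ^ (G * T')) (one_lt_exp_iff.mpr (mul_pos (by linarith) (by linarith)))
    (one_le_pow₀ one_le_two) hC m m hm1
  refine ⟨min δ (H / 2) / log 2, div_pos (lt_min hδ (by linarith)) l2,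
    C' * exp ((H - min δ (H / 2)) * (G * T' : ℕ)), fun S hS1 hS2 x hx => ?_⟩
  let A : ℕ → Finset ℤ := fun L => (Icc (-2 ^ L) (2 ^ L)).filter (· ∈ S)
  have hA : ∀ L n, n ∈ A L ↔ |n| ≤ 2 ^ L ∧ n ∈ S := fun L n => by
    simp only [A, mem_filter, mem_Icc, abs_le]
  refine (final hE hδ'.le hC' (fun D => (A (G * T' * D)).card)
    (hrec _ (fun D => ?_) fun D hD => ?_) hx).elim fun D h3 => le_trans
      (ncard_le fun n hn => (hA _ n).mpr ⟨mem_box hn.2 h3.1, hn.1⟩) h3.2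
  · rw [← pow_mul]
    exact card_box _ _ fun n hn => ((hA _ n).mp hn).1
  set L := G * T' * D with hL
  set L' := G * T' * (D - D / m) with hL'
  have e1 : G * (D * T') = L := by rw [hL]; ring
  have hD' : (m : ℝ) ≤ D := by exact_mod_cast hD
  have e2 : (m : ℝ) ≤ L := by
    rw [hL, Nat.cast_mul]
    exact hD'.trans (le_mul_of_one_le_left (by positivity) hE')
  have e3 : (L : ℝ) ≤ L' + L / m := by
    rw [hL, hL', Nat.cast_mul, Nat.cast_mul (G * T'), Nat.cast_sub (Nat.div_le_self _ _),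
      mul_div_assoc]
    linarith [mul_le_mul_of_nonneg_left (div_real D m hm1).1 (zero_le_one.trans hE')]
  have e4 : (L : ℝ) / m ≤ L / 9 := div_le_div_of_nonneg_left (by positivity) (by norm_num) hm9
  have e5 : (0 : ℝ) ≤ L / m := by positivity
  have key : ∀ j : ℕ, L ≤ j → 2 * j ≤ 3 * L → ∀ n : ℤ, |n| ≤ 2 ^ L → ¬ |(T 3)^[j] n| ≤ 2 ^ L' →
      exp (-(H + δ) * j) ≤ wn θ (3 : ℕ) j n := by
    intro j hj1 hj2 n hn1 hn2
    have hj1' : (L : ℝ) ≤ j := by exact_mod_cast hj1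
    have hj2' : 2 * (j : ℝ) ≤ 3 * L := by exact_mod_cast hj2
    refine wn_ge h0 h1 _ j n ?_
    have h5 := drop (a := 3) (by decide) le_rfl hn1 (not_le.mp hn2).le
    generalize (cnt (wd (3 : ℕ) j n) : ℝ) = k at h5 ⊢
    rw [Nat.cast_ofNat, l5] at h5
    have h6 : θ * j - k ≤ L / m + 1 := by
      rcases h5 with h5 | h5
      · have h7 : (j + L') * θ ≤ k + (L + 1) * θ :=
          le_of_mul_le_mul_right (by linarith) (l2.trans l3)
        linarith [mul_le_mul_of_nonneg_right e3 h0.le,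
          mul_le_mul_of_nonneg_left h1.le (add_nonneg e5 zero_le_one)]
      · have h7 : (k + L') * θ ≤ k + θ := le_of_mul_le_mul_right (by linarith) (l2.trans l3)
        by_contra h8
        have h9 := mul_le_mul_of_nonneg_right (show k ≤ θ * j by linarith) (sub_nonneg.mpr h1.le)
        have h10 : (L' : ℝ) - 1 ≤ j * (1 - θ) := le_of_mul_le_mul_right (by linarith) h0
        linarith [mul_lt_mul_of_pos_left h2 (show (0 : ℝ) < j by linarith)]
    refine (mul_le_mul_of_nonneg_right h6 hl).trans (le_trans ?_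
      (mul_le_mul_of_nonneg_left hj1' hδ.le))
    have h7 := mul_le_mul_of_nonneg_left hm2 e5
    rw [← mul_assoc, ← mul_assoc, div_mul_cancel₀ _ (by linarith)] at h7
    linarith [mul_le_mul_of_nonneg_right e2 hδ.le]
  have hin : ∀ j, ((A L).filter fun n => |(T 3)^[j] n| ≤ 2 ^ L').card ≤ (A L').card := fun j =>
    card_le_card_of_injOn (T 3)^[j] (fun n hn => mem_coe.mpr ((hA _ _).mpr
      ⟨(mem_filter.mp hn).2, hS1.iterate j ((hA _ _).mp (mem_filter.mp hn).1).2⟩))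
      ((hS2.iterate hS1 j).mono fun n hn => ((hA _ _).mp (mem_filter.mp hn).1).2)
  set N := G * (D * (T' + 1)) with hN
  have e6 : L ≤ N ∧ 2 * N ≤ 3 * L := by
    have := Nat.mul_le_mul_left (G * D) hT
    have e7 : N = L + G * D := by rw [hN, hL]; ring
    have e8 : L = G * D * T' := by rw [hL]; ring
    omega
  have h5 := h D (hm1.trans hD) ((A L).filter fun n => ¬ |(T 3)^[L] n| ≤ 2 ^ L' ∧
      ¬ |(T 3)^[N] n| ≤ 2 ^ L') fun n hn => by
    have h6 := ((hA _ _).mp (mem_filter.mp hn).1).1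
    rw [e1]
    exact ⟨h6, key L le_rfl (by omega) n h6 (mem_filter.mp hn).2.1,
      key N e6.1 e6.2 n h6 (mem_filter.mp hn).2.2⟩
  have h6 : (A L).card ≤ 2 * (A L').card + ((A L).filter fun n => ¬ |(T 3)^[L] n| ≤ 2 ^ L' ∧
      ¬ |(T 3)^[N] n| ≤ 2 ^ L').card := by
    have h7 : A L ⊆ (((A L).filter fun n => |(T 3)^[L] n| ≤ 2 ^ L') ∪
        (A L).filter fun n => |(T 3)^[N] n| ≤ 2 ^ L') ∪
        (A L).filter fun n => ¬ |(T 3)^[L] n| ≤ 2 ^ L' ∧ ¬ |(T 3)^[N] n| ≤ 2 ^ L' := by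
      intro n hn
      simp only [mem_union, mem_filter, hn, true_and]
      tauto
    have h8 := (card_le_card h7).trans ((card_union_le _ _).trans
      (Nat.add_le_add_right (card_union_le _ _) _))
    have := hin L
    have := hin N
    omega
  have h7 : exp ((H - δ) * (G * (D * T') : ℕ)) ≤
      exp ((H - min δ (H / 2)) * (G * T' : ℕ)) ^ D := by
    rw [← exp_nat_mul, exp_le_exp, e1, mul_comm (D : ℝ), mul_assoc, ← Nat.cast_mul]
    exact mul_le_mul_of_nonneg_right (by linarith [min_le_left δ (H / 2)]) (by positivity)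
  refine le_trans (by exact_mod_cast h6) (add_le_add_right
    (h5.trans (mul_le_mul_of_nonneg_left h7 hC)) _)

theorem shell {a : ℕ} (ha : Odd a) (ha3 : 3 ≤ a) {θ : ℝ} (h0 : 0 < θ) (h2 : θ ≤ 1 / 2)
    (hθ : log 2 = θ * log a) : ∃ C ≥ 0, ∀ L l : ℕ, ∀ A : Finset ℤ,
      (∀ n ∈ A, |n| ≤ 2 ^ l ∧ ∀ j, |(T a)^[j] n| ≤ 2 ^ L) →
      (A.card : ℝ) ≤ C * exp (binEntropy θ * L + (L - l) * log (1 - θ)) := by
  have h1 : θ < 1 := by linarith
  have hl : 0 ≤ log (1 - θ) - log θ := sub_nonneg.mpr (log_le_log h0 (by linarith))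
  have hH : binEntropy θ + log (1 - θ) = θ * (log (1 - θ) - log θ) := by
    rw [binEntropy, log_inv, log_inv]
    ring
  have la : 0 < log a := log_pos (by exact_mod_cast (by omega : 1 < a))
  have hμ : 1 ≤ exp (3 * (log (1 - θ) - log θ)) := one_le_exp (by linarith)
  refine ⟨3 * exp (3 * (log (1 - θ) - log θ)) / θ, by positivity, fun L l => ?_⟩
  induction l with
  | zero =>
    intro A hA
    refine (card_box 0 A fun n hn => (hA n hn).1).trans (le_trans ?_
      (le_mul_of_one_le_right (by positivity) (one_le_exp ?_)))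
    · rw [le_div_iff₀ h0]
      linarith
    · rw [Nat.cast_zero, sub_zero, mul_comm (L : ℝ), ← add_mul, hH]
      positivity
  | succ l ih =>
    intro A hA
    have e1 := ih (A.filter fun n => |n| ≤ 2 ^ l) fun n hn =>
      ⟨(mem_filter.mp hn).2, (hA n (mem_filter.mp hn).1).2⟩
    have e2 := card_le_of_wn ha h0.le h1.le (l + 1)
      (exp (-(binEntropy θ * L + (L - (l + 1 : ℕ)) * log (1 - θ)) - 3 * (log (1 - θ) - log θ)))
      (A.filter fun n => ¬ |n| ≤ 2 ^ l) fun n hn => ⟨(hA n (mem_filter.mp hn).1).1, by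
        have h3 := cnt_le (wd a (l + 1) n)
        have h4 : (cnt (wd a (l + 1) n) : ℝ) ≤ θ * L + 3 := by
          rcases le_or_gt (cnt (wd a (l + 1) n)) 1 with h | h
          · have : (cnt (wd a (l + 1) n) : ℝ) ≤ 1 := by exact_mod_cast h
            linarith [mul_nonneg h0.le (Nat.cast_nonneg (α := ℝ) L)]
          · have h5 := rise ha ha3 (not_le.mp (mem_filter.mp hn).2).le
              ((hA n (mem_filter.mp hn).1).2 (l + 1)) (by omega)
            rw [hθ] at h5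
            push_cast at h5
            have h6 : (cnt (wd a (l + 1) n) : ℝ) ≤ θ * (L + 2) :=
              le_of_mul_le_mul_right (by linarith) la
            linarith
        rw [wn_eq h0 h1, exp_le_exp]
        linarith [mul_le_mul_of_nonneg_right h4 hl, congrArg (· * (L : ℝ)) hH,
          congrArg (· * ((l + 1 : ℕ) : ℝ)) hH]⟩
    have e3 : exp (binEntropy θ * L + (L - l) * log (1 - θ)) =
        exp (binEntropy θ * L + (L - (l + 1 : ℕ)) * log (1 - θ)) * (1 - θ) := by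
      rw [← exp_log (sub_pos.mpr h1), ← exp_add, exp_log (sub_pos.mpr h1)]
      congr 1
      push_cast
      ring
    rw [exp_sub, exp_neg, ← mul_div_assoc, div_le_iff₀ (exp_pos _), mul_inv_le_iff₀ (exp_pos _)]
      at e2
    rw [← card_filter_add_card_filter_not (s := A) (fun n => |n| ≤ 2 ^ l), Nat.cast_add]
    refine (add_le_add e1 e2).trans (le_of_eq ?_)
    rw [e3]
    field_simp
    ring

theorem five {a : ℕ} (ha : Odd a) (ha5 : 5 ≤ a) : ∃ δ > 0, ∃ C : ℝ, ∀ x : ℝ, 1 ≤ x →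
    ({n : ℤ | ∀ j, |(((T a)^[j] n : ℤ) : ℝ)| ≤ x}.ncard : ℝ) ≤
      C * x ^ (binEntropy (log 2 / log a) / log 2 - δ) := by
  classical
  have ha3 : 3 ≤ a := by omega
  have l2 := log_pos (one_lt_two (α := ℝ))
  have l4 : 2 * log 2 < log a := by
    have h : (5 : ℝ) ≤ a := by exact_mod_cast ha5
    have := log_lt_log (show (0 : ℝ) < 2 ^ 2 by norm_num) (show (2 : ℝ) ^ 2 < a by linarith)
    rwa [log_pow] at this
  have la : 0 < log a := by linarith
  set θ := log 2 / log a with hθ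
  have l5 : log 2 = θ * log a := by rw [hθ, div_mul_cancel₀ _ la.ne']
  have h0 : 0 < θ := div_pos l2 la
  have h2 : θ < 1 / 2 := by rw [hθ, div_lt_iff₀ la]; linarith
  have h1 : θ < 1 := by linarith
  have hl : 0 ≤ log (1 - θ) - log θ := sub_nonneg.mpr (log_le_log h0 (by linarith))
  have hκ : log (1 - θ) < 0 := log_neg (by linarith) (by linarith)
  have hH : -log (1 - θ) ≤ binEntropy θ := by
    rw [binEntropy, log_inv, log_inv]
    linarith [mul_nonneg h0.le hl]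
  obtain ⟨T1, hT1⟩ := exists_nat_ge (2 / θ)
  obtain ⟨G, hG, T', hT, δ, hδ, C, hC, h⟩ := core ha ha3 h0 h1
    (binEntropy_lt_log_two.mpr (by linarith [h2.ne, one_div (2 : ℝ)] : θ ≠ 2⁻¹)) T1
  obtain ⟨C1, hC1, hsh⟩ := shell ha ha3 h0 h2.le l5
  have hT2 : 2 ≤ T' * θ := (div_le_iff₀ h0).mp (hT1.trans (by exact_mod_cast hT))
  obtain ⟨m, hm⟩ := exists_nat_ge (max (4 / θ) (2 * (log (1 - θ) - log θ) / δ))
  have hm4 : 4 ≤ m * θ := (div_le_iff₀ h0).mp (le_of_max_le_left hm)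
  have hm2 : 2 * (log (1 - θ) - log θ) ≤ m * δ := (div_le_iff₀ hδ).mp (le_of_max_le_right hm)
  have hm1 : 1 ≤ m := Nat.pos_of_ne_zero fun h => by rw [h] at hm4; norm_num at hm4
  have hm1' : (1 : ℝ) ≤ m := by exact_mod_cast hm1
  have hE : 1 ≤ G * T' :=
    Nat.mul_pos hG (Nat.pos_of_ne_zero fun h => by rw [h] at hT2; norm_num at hT2)
  have hE' : (1 : ℝ) ≤ (G * T' : ℕ) := by exact_mod_cast hE
  set H := binEntropy θ
  set δ' := min δ (-log (1 - θ) / m) with hδ'
  have hδ1 : 0 < δ' := lt_min hδ (div_pos (by linarith) (by linarith))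
  have hδ2 : δ' ≤ H := (min_le_right _ _).trans ((div_le_self (by linarith) hm1').trans hH)
  refine ⟨δ' / log 2, div_pos hδ1 l2, (3 * 2 ^ (G * T' * m) + (C1 * exp (-log (1 - θ)) + C)) *
    exp ((H - δ') * (G * T' : ℕ)), fun x hx => ?_⟩
  let A : ℕ → Finset ℤ := fun L => (Icc (-2 ^ L) (2 ^ L)).filter fun n => ∀ j, |(T a)^[j] n| ≤ 2 ^ L
  have hA : ∀ L n, n ∈ A L ↔ |n| ≤ 2 ^ L ∧ ∀ j, |(T a)^[j] n| ≤ 2 ^ L := fun L n => by
    simp only [A, mem_filter, mem_Icc, abs_le]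
  refine (final (H := H) hE hδ2 (C := 3 * 2 ^ (G * T' * m) +
    (C1 * exp (-log (1 - θ)) + C)) (by positivity) (fun D => (A (G * T' * D)).card)
    (fun D => ?_) hx).elim fun D h3 => le_trans (ncard_le fun n hn => (hA _ n).mpr
      ⟨mem_box (hn 0) h3.1, fun j => mem_box (hn j) h3.1⟩) h3.2
  set L := G * T' * D with hL
  have e0 : exp ((H - δ') * (G * T' : ℕ)) ^ D = exp ((H - δ') * L) := by
    rw [← exp_nat_mul, mul_comm (D : ℝ), mul_assoc, ← Nat.cast_mul]
  have hL0 : (0 : ℝ) ≤ L := by positivity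
  rw [e0, add_mul]
  rcases le_total D m with hD | hD
  · refine (card_box L _ fun n hn => ((hA _ n).mp hn).1).trans (le_add_of_le_of_nonneg
      (le_trans ?_ (le_mul_of_one_le_right (by positivity)
        (one_le_exp (mul_nonneg (by linarith) hL0)))) (by positivity))
    exact mul_le_mul_of_nonneg_left (pow_le_pow_right₀ one_le_two (Nat.mul_le_mul_left _ hD))
      (by norm_num)
  refine le_add_of_nonneg_of_le (by positivity) ?_
  set L' := L - L / m with hL'
  have e1 : G * (D * T') = L := by rw [hL]; ring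
  have hD' : (m : ℝ) ≤ D := by exact_mod_cast hD
  have e2 : (m : ℝ) ≤ L := by
    rw [hL, Nat.cast_mul]
    exact hD'.trans (le_mul_of_one_le_left (by positivity) hE')
  have e3 : (L : ℝ) ≤ L' + L / m ∧ L' + (L : ℝ) / m ≤ L + 1 := by
    rw [hL', Nat.cast_sub (Nat.div_le_self _ _)]
    constructor <;> linarith [div_real L m hm1]
  have e5 : (0 : ℝ) ≤ L / m := by positivity
  have e4 : 4 * ((L : ℝ) / m) ≤ L * θ := by
    have := mul_le_mul_of_nonneg_left hm4 e5
    rw [← mul_assoc, div_mul_cancel₀ _ (by linarith)] at this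
    linarith
  have key : ∀ j : ℕ, L ≤ j → 2 * (j : ℝ) ≤ L * (2 + θ) → ∀ n : ℤ, ¬ |n| ≤ 2 ^ L' →
      |(T a)^[j] n| ≤ 2 ^ L → exp (-(H + δ) * j) ≤ wn θ a j n := by
    intro j hj1 hj2 n hn1 hn2
    have hj1' : (L : ℝ) ≤ j := by exact_mod_cast hj1
    refine wn_ge h0 h1 _ j n ?_
    have h6 : (cnt (wd a j n) : ℝ) - θ * j ≤ L / m + 1 := by
      by_contra h8
      have h5 := rise ha ha3 (not_le.mp hn1).le hn2 (by
        have h9 : ((j - cnt (wd a j n) + 1 : ℕ) : ℝ) ≤ L' := by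
          push_cast [cnt_le (wd a j n)]
          linarith [mul_le_mul_of_nonneg_right hj2 (sub_nonneg.mpr h1.le),
            mul_nonneg hL0 (mul_self_nonneg θ)]
        exact_mod_cast h9)
      rw [l5] at h5
      have h7 : (cnt (wd a j n) : ℝ) + L' * θ ≤ (j + L + 1) * θ :=
        le_of_mul_le_mul_right (by linarith) la
      linarith [mul_le_mul_of_nonneg_right e3.1 h0.le,
        mul_le_mul_of_nonneg_left h1.le (add_nonneg e5 zero_le_one)]
    have h7 := mul_le_mul_of_nonneg_left hm2 e5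
    rw [← mul_assoc, ← mul_assoc, div_mul_cancel₀ _ (by linarith)] at h7
    linarith [mul_le_mul_of_nonneg_right e2 hδ.le, mul_le_mul_of_nonneg_right h6 hl,
      mul_le_mul_of_nonneg_left hj1' hδ.le]
  set N := G * (D * (T' + 1)) with hN
  have e6 : L ≤ N ∧ 2 * (N : ℝ) ≤ L * (2 + θ) := by
    have e7 : N = L + G * D := by rw [hN, hL]; ring
    have e8 : L = G * D * T' := by rw [hL]; ring
    refine ⟨by omega, ?_⟩
    rw [e7, e8]
    push_cast
    linarith [mul_le_mul_of_nonneg_left hT2 (show (0 : ℝ) ≤ G * D by positivity)]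
  have h5 := h D (hm1.trans hD) ((A L).filter fun n => ¬ |n| ≤ 2 ^ L') fun n hn => by
    have h6 := (hA _ _).mp (mem_filter.mp hn).1
    rw [e1]
    exact ⟨h6.1, key L le_rfl (by linarith [mul_nonneg hL0 h0.le]) n (mem_filter.mp hn).2 (h6.2 _),
      key N e6.1 e6.2 n (mem_filter.mp hn).2 (h6.2 _)⟩
  have h6 := hsh L L' ((A L).filter fun n => |n| ≤ 2 ^ L') fun n hn =>
    ⟨(mem_filter.mp hn).2, ((hA _ _).mp (mem_filter.mp hn).1).2⟩
  rw [← card_filter_add_card_filter_not (s := A L) (fun n => |n| ≤ 2 ^ L'), Nat.cast_add, add_mul]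
  refine add_le_add (h6.trans ?_) (h5.trans ?_)
  · rw [mul_assoc, ← exp_add]
    refine mul_le_mul_of_nonneg_left (exp_le_exp.mpr ?_) hC1
    have h7 := mul_le_mul_of_nonneg_right (min_le_right δ (-log (1 - θ) / m)) hL0
    rw [div_mul_eq_mul_div, mul_div_assoc] at h7
    linarith [mul_le_mul_of_nonneg_right e3.2 (neg_nonneg.mpr hκ.le)]
  · rw [e1]
    exact mul_le_mul_of_nonneg_left (exp_le_exp.mpr (mul_le_mul_of_nonneg_right
      (by linarith [min_le_left δ (-log (1 - θ) / m)]) hL0)) hC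

end Pool.Agent.Lib.MP_dee342_nt.Count
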