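import Pool.Agent.Lib.MP_dee342_nt.CountSpec

/-! Along a typical path of block sums few frequencies have few good white blocks. -/

set_option autoImplicit false

namespace Pool.Agent.Lib.MP_dee342_nt.Count

open Finset

/-- Partial sums of a path. -/
def PS (s : ℕ → ℕ) (b : ℕ) : ℕ := ∑ i ∈ range b, s i

/-- Indicator of a constant block. -/
def bd (G s : ℕ) : ℕ := if s = 0 ∨ s = G then 1 else 0

open Classical in
/-- Indicator of a nonconstant white block. -/
noncomputable def gw (a G N : ℕ) (X : ℤ) (s : ℕ) : ℕ :=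
  if ¬ (s = 0 ∨ s = G) ∧ White a G N X then 1 else 0

/-- In each of the first `T` intervals of `D` blocks at most `D / K` blocks are constant. -/
def Typ (G D T K : ℕ) (s : ℕ → ℕ) : Prop :=
  ∀ t < T, K * ∑ j ∈ range D, bd G (s (D * t + j)) ≤ D

theorem sum_blocks (g : ℕ → ℕ) (D t P : ℕ) :
    ∑ β ∈ range (D * P), g (D * t + β) = ∑ i ∈ range P, ∑ j ∈ range D, g (D * (t + i) + j) := by
  induction P with
  | zero => simp
  | succ P ih =>
    rw [Nat.mul_succ, sum_range_add, ih, sum_range_succ]
    congr 1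
    exact sum_congr rfl fun j _ => by rw [mul_add, add_assoc]

theorem PS_grow {G D T K : ℕ} (hK : 2 ≤ K) {s : ℕ → ℕ} (h : Typ G D T K s) (hG : 1 ≤ G)
    (t i : ℕ) (hi : t + i ≤ T) : D * i + 2 * PS s (D * t) ≤ 2 * PS s (D * (t + i)) := by
  induction i with
  | zero => simp
  | succ i ih =>
    have h1 := ih (by omega)
    have h2 := h (t + i) (by omega)
    have h3 : PS s (D * (t + (i + 1))) = PS s (D * (t + i)) + ∑ j ∈ range D, s (D * (t + i) + j) := by
      rw [← add_assoc, Nat.mul_succ, PS, sum_range_add]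
      rfl
    have h4 : D ≤ ∑ j ∈ range D, s (D * (t + i) + j) + ∑ j ∈ range D, bd G (s (D * (t + i) + j)) := by
      rw [← sum_add_distrib]
      refine le_trans (by simp) (card_nsmul_le_sum _ _ 1 fun j _ => ?_)
      simp only [bd]
      split_ifs <;> omega
    have h5 := Nat.mul_le_mul_right (∑ j ∈ range D, bd G (s (D * (t + i) + j))) hK
    rw [Nat.mul_succ]
    omega

theorem PS_step {G : ℕ} {s : ℕ → ℕ} (hs : ∀ b, s b ≤ G) (b k : ℕ) :
    PS s b ≤ PS s (b + k) ∧ PS s (b + k) ≤ PS s b + G * k := by
  induction k with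
  | zero => simp
  | succ k ih =>
    have := hs (b + k)
    have h1 : PS s (b + (k + 1)) = PS s (b + k) + s (b + k) := sum_range_succ s (b + k)
    rw [Nat.mul_succ]
    omega

open Classical in
theorem path_bound (a : ℕ) (ha : Odd a) (ha3 : 3 ≤ a) (G : ℕ) (hG : 1 ≤ G) (K : ℕ) (hK : 2 ≤ K)
    (q l lam : ℝ) (hq0 : 0 ≤ q) (hq1 : q < 1) (hl0 : 0 < l) (hl1 : l ≤ 1) (hlam0 : 0 ≤ lam)
    (hlam : 1 ≤ l ^ (2 * (4 * G + 2)) * lam ^ K) :
    ∃ T0, ∀ T ≥ T0, ∀ D ≥ 1, ∀ u : ℤ, (2 : ℤ) ^ (G * (D * (T + 1))) ∣ a * u - 1 →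
      ∀ s : ℕ → ℕ, (∀ b, s b ≤ G) → Typ G D T K s →
      ∀ Ξ : Finset ℤ, (∀ ξ ∈ Ξ, ∀ ξ' ∈ Ξ, ξ - ξ' ≤ 2 ^ (G * D)) →
      ∑ ξ ∈ Ξ, q ^ (∑ b ∈ range (D * (T + 1)),
          gw a G (G * (D * (T + 1))) (ξ * u ^ (PS s b + 1) * 2 ^ (G * b)) (s b)) ≤
        (T + 1) * ((a : ℝ) ^ G + 1) * ((1 + 2 * (a : ℝ) ^ G * l) ^ (4 * G + 2) * lam) ^ D := by
  set P := 4 * G + 2 with hP
  obtain ⟨M0, hM0⟩ := exists_pow_lt_of_lt_one (pow_pos hl0 (2 * P)) hq1
  obtain ⟨T0, hT0⟩ := many_dio a ha ha3 G hG (M0 + 1) P
  refine ⟨max T0 P, fun T hT D hD u hu s hs htyp Ξ hΞ => ?_⟩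
  have hPT : P ≤ T := le_of_max_le_right hT
  set N := G * (D * (T + 1)) with hN
  let S := (range (T - P + 1)).filter fun t =>
    Dio a (2 * (G * D) + 2) (PS s (D * t)) (G * D * (T + 1 - t)) (G * D)
  have hS : M0 + 1 ≤ S.card := by
    refine hT0 T (le_of_max_le_left hT) D hD (fun t => PS s (D * t)) (by simp [PS])
      (fun t => (PS_step hs _ D).1) (fun t => (PS_step hs _ D).2) (fun t ht => ?_) S
      fun t ht h => mem_filter.mpr ⟨mem_range.mpr (by omega), h⟩
    have := PS_grow hK htyp hG 0 t (by omega)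
    rw [zero_add] at this
    omega
  have hSt : ∀ t ∈ S, t + P ≤ T := fun t ht => by
    have := mem_range.mp (mem_filter.mp ht).1
    omega
  have hex : ∀ t ∈ S, ∃ B, B < D * P ∧ PS s (D * t + B) + 1 ≤ PS s (D * t) + (2 * (G * D) + 2) ∧
      PS s (D * t) + (2 * (G * D) + 2) ≤ PS s (D * t + B) + G + 1 := by
    intro t ht
    have h1 := PS_grow hK htyp hG t P (hSt t ht)
    have h2 : D * P = 4 * (G * D) + 2 * D := by rw [hP]; ring
    obtain ⟨k, hk⟩ : ∃ k, D * P = k + 1 := ⟨D * P - 1, by omega⟩
    have h3 := (PS_step hs (D * t + k) 1).2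
    rw [mul_add D t P, hk, ← add_assoc] at h1
    have h4 : PS s (D * t) + (2 * (G * D) + 2) ≤ PS s (D * t + k) + G + 1 := by omega
    have h5 : ∃ β, PS s (D * t) + (2 * (G * D) + 2) ≤ PS s (D * t + β) + G + 1 := ⟨k, h4⟩
    refine ⟨Nat.find h5, lt_of_le_of_lt (Nat.find_min' h5 h4) (by omega), ?_, Nat.find_spec h5⟩
    rcases h6 : Nat.find h5 with _ | β
    · rw [add_zero]; omega
    · have h7 := Nat.find_min h5 (show β < Nat.find h5 by omega)
      have h8 := (PS_step hs (D * t + β) 1).2
      rw [← add_assoc]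
      omega
  choose! B hB using hex
  let wh : ℕ → ℤ → ℕ := fun t ξ => ((range (B t + 1)).filter fun β =>
    White a G (G * D * (T + 1 - t)) (ξ * u ^ (PS s (D * t + β) + 1) * 2 ^ (G * β))).card
  have hl2 : (0 : ℝ) ≤ 2 * (a : ℝ) ^ G * l := by positivity
  calc _ ≤ ∑ ξ ∈ Ξ, ∑ t ∈ S, l ^ (2 * wh t ξ) * lam ^ D := by
        refine sum_le_sum fun ξ _ => ?_
        let f : ℕ → ℕ := fun b => gw a G N (ξ * u ^ (PS s b + 1) * 2 ^ (G * b)) (s b)
        let w : ℕ → ℕ := fun t => ∑ β ∈ range (D * P), f (D * t + β)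
        obtain ⟨t, ht, hmin⟩ := exists_min_image S w (card_pos.mp (by omega))
        have h1 : S.card * w t ≤ P * ∑ b ∈ range (D * (T + 1)), f b := by
          refine (card_nsmul_le_sum S w _ hmin).trans ?_
          have h2 := sum_blocks f D 0 (T + 1)
          simp only [mul_zero, zero_add] at h2
          simp only [w, sum_blocks]
          rw [sum_comm, h2]
          refine (sum_le_card_nsmul _ _ _ fun i hi => ?_).trans (by rw [card_range]; rfl)
          rw [← sum_image (g := (· + i)) (f := fun t => ∑ j ∈ range D, f (D * t + j))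
            fun x _ y _ h => Nat.add_right_cancel h]
          refine sum_le_sum_of_subset fun x hx => ?_
          obtain ⟨y, hy, rfl⟩ := mem_image.mp hx
          have := hSt y hy
          have := mem_range.mp hi
          exact mem_range.mpr (by omega)
        have h2 : q ^ (∑ b ∈ range (D * (T + 1)), f b) ≤ l ^ (2 * w t) := by
          refine le_of_pow_le_pow_left₀ (n := P) (by omega) (by positivity) ?_
          rw [← pow_mul, ← pow_mul, mul_comm _ P, mul_right_comm, pow_mul l]
          refine (pow_le_pow_of_le_one hq0 hq1.le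
            ((Nat.mul_le_mul_right _ (show M0 ≤ S.card by omega)).trans h1)).trans ?_
          rw [pow_mul]
          exact pow_le_pow_left₀ (by positivity) hM0.le _
        let bad := ∑ β ∈ range (D * P), bd G (s (D * t + β))
        have h3 : K * bad ≤ P * D := by
          simp only [bad]
          rw [sum_blocks (fun b => bd G (s b)), mul_sum]
          refine (sum_le_card_nsmul _ _ _ fun i hi => htyp _ ?_).trans (by rw [card_range]; rfl)
          have := hSt t ht
          have := mem_range.mp hi
          omega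
        have h4 : wh t ξ ≤ w t + bad := by
          simp only [wh, w, bad]
          rw [← sum_add_distrib, card_filter]
          refine (sum_le_sum fun β _ => ?_).trans (sum_le_sum_of_subset
            (range_subset_range.mpr (hB t ht).1))
          split_ifs with h5
          · have h6 : White a G N (ξ * u ^ (PS s (D * t + β) + 1) * 2 ^ (G * (D * t + β))) := by
              have h7 : N = G * (D * t) + G * D * (T + 1 - t) := by
                obtain ⟨k, hk⟩ : ∃ k, T + 1 = t + k := Nat.exists_eq_add_of_le (by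
                  have := hSt t ht; omega)
                rw [hN, hk, Nat.add_sub_cancel_left]
                ring
              have h8 : (((ξ * u ^ (PS s (D * t + β) + 1) * 2 ^ (G * (D * t + β)) : ℤ) : ℝ) / 2 ^ N) =
                  ((ξ * u ^ (PS s (D * t + β) + 1) * 2 ^ (G * β) : ℤ) : ℝ) /
                    2 ^ (G * D * (T + 1 - t)) := by
                rw [h7, mul_add G, pow_add 2 (G * _), pow_add 2 (G * _)]
                push_cast
                field_simp
              rw [White, h8]
              exact h5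
            simp only [f, gw, bd, h6, and_true]
            split_ifs <;> omega
          · exact Nat.zero_le _
        have h5 : 1 ≤ l ^ (2 * bad) * lam ^ D := by
          refine le_of_pow_le_pow_left₀ (n := K) (by omega) (by positivity) ?_
          rw [one_pow, mul_pow, ← pow_mul, ← pow_mul, mul_comm D K, pow_mul lam]
          refine (one_le_pow₀ (n := D) hlam).trans ?_
          rw [mul_pow, ← pow_mul]
          refine mul_le_mul_of_nonneg_right (pow_le_pow_of_le_one hl0.le hl1 ?_) (by positivity)
          rw [mul_assoc, mul_assoc, mul_comm bad]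
          omega
        refine le_trans ?_ (single_le_sum (f := fun t => l ^ (2 * wh t ξ) * lam ^ D)
          (fun _ _ => by positivity) ht)
        calc _ ≤ l ^ (2 * w t) * (l ^ (2 * bad) * lam ^ D) :=
              h2.trans (le_mul_of_one_le_right (by positivity) h5)
          _ ≤ _ := by
              rw [← mul_assoc, ← pow_add]
              exact mul_le_mul_of_nonneg_right (pow_le_pow_of_le_one hl0.le hl1 (by omega))
                (by positivity)
    _ ≤ _ := by
        rw [sum_comm]
        refine (sum_le_card_nsmul _ _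
          (((a : ℝ) ^ G + 1) * ((1 + 2 * (a : ℝ) ^ G * l) ^ P * lam) ^ D) fun t ht => ?_).trans ?_
        · rw [← sum_mul, mul_pow, ← mul_assoc, ← pow_mul]
          refine mul_le_mul_of_nonneg_right ?_ (by positivity)
          refine (spec a ha ha3 G _ _ _ (B t) u ((pow_dvd_pow _ ?_).trans hu)
            (fun β => PS s (D * t + β)) (fun β => (PS_step hs _ 1).1)
            (fun β => ((PS_step hs (D * t + β) 1).2).trans (by rw [mul_one])) (hB t ht).2.1 (hB t ht).2.2
            (mem_filter.mp ht).2 Ξ hΞ l hl0.le hl1).trans ?_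
          · rw [hN, ← mul_assoc]
            exact Nat.mul_le_mul_left _ (Nat.sub_le _ _)
          · refine mul_le_mul_of_nonneg_left (pow_le_pow_right₀ (by linarith) ?_) (by positivity)
            rw [mul_comm]
            exact (hB t ht).1.le
        · have h1 : S.card ≤ T + 1 := (card_filter_le _ _).trans (by rw [card_range]; omega)
          have h2 : (S.card : ℝ) ≤ T + 1 := by exact_mod_cast h1
          rw [nsmul_eq_mul, mul_assoc ((T : ℝ) + 1)]
          exact mul_le_mul_of_nonneg_right h2 (by positivity)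

end Pool.Agent.Lib.MP_dee342_nt.Count
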