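import Pool.Agent.Lib.Common.Subspace.SUnit

/-! A small nonzero number is not a short sum of large almost `{2, a}`-units. -/

set_option autoImplicit false

namespace Pool.Agent.Lib.MP_dee342_nt.Count

open Finset Filter Matrix Pool.Agent.Lib.Common.Subspace

/-- Subexponential size along a filter. -/
def SE {τ : Type*} (U : Filter τ) (N : τ → ℕ) (f : τ → ℤ) : Prop :=
  ∀ ε : ℝ, 0 < ε → ∀ᶠ t in U, |(f t : ℝ)| ≤ Real.exp (ε * N t)

theorem SE.mul {τ : Type*} {U : Filter τ} {N : τ → ℕ} {f g : τ → ℤ} (hf : SE U N f)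
    (hg : SE U N g) : SE U N (fun t => f t * g t) := by
  intro ε hε
  filter_upwards [hf (ε / 2) (by positivity), hg (ε / 2) (by positivity)] with t h1 h2
  push_cast
  rw [abs_mul]
  refine (mul_le_mul h1 h2 (abs_nonneg _) (Real.exp_pos _).le).trans (le_of_eq ?_)
  rw [← Real.exp_add]
  congr 1
  ring

theorem SE.const {τ : Type*} {U : Filter τ} {N : τ → ℕ} (hN : Tendsto N U atTop) (z : ℤ) :
    SE U N (fun _ => z) := by
  intro ε hε
  have hnr : Tendsto (fun t => (N t : ℝ)) U atTop := tendsto_natCast_atTop_atTop.comp hN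
  exact (Real.tendsto_exp_atTop.comp (hnr.const_mul_atTop hε)).eventually_ge_atTop _

theorem SE.prod {τ J : Type*} {U : Filter τ} {N : τ → ℕ} (hN : Tendsto N U atTop) (s : Finset J)
    (f : τ → J → ℤ) (hf : ∀ j ∈ s, SE U N (fun t => f t j)) :
    SE U N (fun t => ∏ j ∈ s, f t j) := by
  classical
  induction s using Finset.induction_on with
  | empty => simpa using SE.const hN 1
  | insert j s hj ih =>
    simp only [prod_insert hj]
    exact (hf j (mem_insert_self _ _)).mul (ih fun i hi => hf i (mem_insert_of_mem hi))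

theorem padic_prod_le (a : ℕ) (ha : Odd a) (c : ℤ) (e b : ℕ) :
    ∏ p ∈ insert 2 a.primeFactors,
      ((padicNorm p ((c * (a : ℤ) ^ e * 2 ^ b : ℤ) : ℚ) : ℚ) : ℝ) ≤ ((a : ℝ) ^ e * 2 ^ b)⁻¹ := by
  have ha0 : (0 : ℝ) < a := by exact_mod_cast ha.pos
  by_cases hc : c = 0
  · subst hc
    rw [prod_eq_zero (mem_insert_self 2 _) (by simp)]
    positivity
  · have h := sunit_unit' a ha c e b
    have hc0 : (0 : ℝ) < |(c : ℝ)| := abs_pos.2 (by exact_mod_cast hc)
    have h1 : |((c * (a : ℤ) ^ e * 2 ^ b : ℤ) : ℝ)| = |(c : ℝ)| * ((a : ℝ) ^ e * 2 ^ b) := by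
      push_cast
      rw [mul_assoc, abs_mul, abs_of_pos (a := (a : ℝ) ^ e * 2 ^ b) (by positivity)]
    rw [h1, mul_assoc] at h
    have h2 := le_of_mul_le_mul_left (h.trans (mul_one _).ge) hc0
    rw [← one_div, le_div_iff₀ (by positivity), mul_comm]
    exact h2

theorem su_ultra (a : ℕ) (ha : Odd a) (ha3 : 3 ≤ a) {τ J : Type*} (U : Ultrafilter τ) (N : τ → ℕ)
    (hN : Tendsto N U atTop) (η K : ℝ) (hη : 0 < η) (e b : τ → J → ℕ) (s : Finset J) :
    ∀ (q : τ → ℤ) (c : τ → J → ℤ), SE U N q → (∀ j ∈ s, SE U N (fun t => c t j)) →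
      (∀ᶠ t in U, ∀ j ∈ s, η * N t ≤ (e t j : ℝ) + b t j ∧ (e t j : ℝ) + b t j ≤ K * N t) →
      (∀ᶠ t in U, q t ≠ 0) →
      (∀ᶠ t in U, q t = ∑ j ∈ s, c t j * (a : ℤ) ^ e t j * 2 ^ b t j) → False := by
  classical
  induction s using Finset.strongInduction with
  | H s ih =>
  intro q c hq hc hs hq0 heq
  rcases s.eq_empty_or_nonempty with rfl | ⟨j0, hj0⟩
  · obtain ⟨t, h1, h2⟩ := (hq0.and heq).exists
    exact h1 (by simpa using h2)
  have ha1 : (1 : ℝ) ≤ a := by exact_mod_cast ha.pos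
  have ha2 : (2 : ℝ) ≤ a := by exact_mod_cast (by omega : 2 ≤ a)
  have hl2 : 0 < Real.log 2 := Real.log_pos (by norm_num)
  have hla : Real.log 2 ≤ Real.log a := Real.log_le_log (by norm_num) ha2
  have hnr : Tendsto (fun t => (N t : ℝ)) U atTop := tendsto_natCast_atTop_atTop.comp hN
  let i0 : s := ⟨j0, hj0⟩
  let M : Matrix s s ℤ := (1 : Matrix s s ℤ).updateRow i0 (fun _ => 1)
  have hM : M.det ≠ 0 := by
    have h1 : (fun _ : s => (1 : ℤ)) = ∑ k, (fun _ : s => (1 : ℤ)) k • (1 : Matrix s s ℤ) k := by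
      ext i
      rw [Finset.sum_apply]
      simp [Matrix.one_apply]
    have h2 : M.det = 1 := by
      simp only [M]
      rw [h1, det_updateRow_sum, det_one, smul_eq_mul, mul_one]
    rw [h2]
    exact one_ne_zero
  let x : τ → s → ℤ := fun t j => c t j * (a : ℤ) ^ e t j * 2 ^ b t j
  have hpow : ∀ e b : ℕ, (a : ℝ) ^ e * 2 ^ b = Real.exp (e * Real.log a + b * Real.log 2) := by
    intro e b
    rw [Real.exp_add, Real.exp_nat_mul, Real.exp_nat_mul, Real.exp_log (by linarith),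
      Real.exp_log (by norm_num)]
  have hcall : ∀ ε : ℝ, 0 < ε → ∀ᶠ t in U, ∀ j ∈ s, |(c t j : ℝ)| ≤ Real.exp (ε * N t) :=
    fun ε hε => (Filter.eventually_all_finset s).mpr fun j hj => hc j hj ε hε
  have key := subspace (ι := s) (insert 2 a.primeFactors)
    (fun p hp => by
      rcases mem_insert.mp hp with rfl | hp
      · exact Nat.prime_two
      · exact Nat.prime_of_mem_primeFactors hp)
    M hM (fun _ => 1) (fun p _ => by simp) U (fun t => (N t : ℝ)) hnr x (K * Real.log a + 1)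
    (η * Real.log 2 / 2) (by positivity) ?_ ?_
  · obtain ⟨w, hw, hw'⟩ := key
    obtain ⟨i1, hi1⟩ := Function.ne_iff.mp hw
    let w' : J → ℤ := fun j => if h : j ∈ s then w ⟨j, h⟩ else 0
    refine ih (s.erase i1) (erase_ssubset i1.2) (fun t => w i1 * q t)
      (fun t j => (w i1 - w' j) * c t j) ((SE.const hN _).mul hq)
      (fun j hj => (SE.const hN _).mul (hc j (mem_of_mem_erase hj)))
      (hs.mono fun t ht j hj => ht j (mem_of_mem_erase hj))
      (hq0.mono fun t ht => mul_ne_zero hi1 ht) ?_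
    filter_upwards [heq, hw'] with t h1 h2
    have h3 : ∑ j ∈ s, w' j * (c t j * (a : ℤ) ^ e t j * 2 ^ b t j) = 0 := by
      rw [← h2, dotProduct, ← sum_coe_sort s]
      exact sum_congr rfl fun j _ => by simp [w', x]
    have h4 : w' i1 = w i1 := by simp [w']
    have h5 : ∑ j ∈ s.erase i1, (w i1 - w' j) * c t j * (a : ℤ) ^ e t j * 2 ^ b t j =
        ∑ j ∈ s, (w i1 - w' j) * c t j * (a : ℤ) ^ e t j * 2 ^ b t j :=
      sum_erase _ (by rw [h4]; ring)
    rw [h5, h1, mul_sum, ← sub_zero (∑ _ ∈ s, _), ← h3, ← sum_sub_distrib]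
    exact sum_congr rfl fun j _ => by ring
  · filter_upwards [hs, hcall 1 one_pos] with t h1 h2 i
    simp only [x]
    push_cast
    rw [mul_assoc, abs_mul, abs_of_pos (a := (a : ℝ) ^ _ * 2 ^ _) (by positivity), hpow]
    refine (mul_le_mul_of_nonneg_right (h2 i i.2) (Real.exp_pos _).le).trans ?_
    rw [← Real.exp_add, Real.exp_le_exp]
    have h3 := (h1 i i.2).2
    have h4 : (b t i : ℝ) * Real.log 2 ≤ b t i * Real.log a :=
      mul_le_mul_of_nonneg_left hla (Nat.cast_nonneg _)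
    nlinarith [mul_le_mul_of_nonneg_right h3 (hl2.le.trans hla)]
  · set ε : ℝ := η * Real.log 2 / (2 * s.card) with hε
    have hsc : (0 : ℝ) < s.card := by exact_mod_cast card_pos.mpr ⟨j0, hj0⟩
    have hε0 : 0 < ε := by positivity
    filter_upwards [hs, hcall ε hε0, hq ε hε0, heq] with t h1 h2 h3 h4
    rw [Finset.prod_comm (s := insert 2 a.primeFactors), ← prod_mul_distrib]
    have hb : ∀ i : s, |(((M *ᵥ x t) i : ℤ) : ℝ)| * ∏ p ∈ insert 2 a.primeFactors,
        ((padicNorm p ((((1 : Matrix s s ℤ) *ᵥ x t) i : ℤ) : ℚ) : ℚ) : ℝ) ≤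
        Real.exp (ε * N t) * (if i = i0 then Real.exp (-(η * Real.log 2 * N t)) else 1) := by
      intro i
      rw [one_mulVec]
      split_ifs with hi
      · subst hi
        have h5 : (M *ᵥ x t) i0 = q t := by
          simp only [M, mulVec, updateRow_self, dotProduct, one_mul, x]
          rw [h4, ← sum_coe_sort s]
        rw [h5]
        refine mul_le_mul h3 ((padic_prod_le a ha _ _ _).trans ?_)
          (prod_nonneg fun p _ => by exact_mod_cast padicNorm.nonneg _) (Real.exp_pos _).le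
        rw [hpow, ← Real.exp_neg, Real.exp_le_exp]
        have h6 := (h1 i0 i0.2).1
        have h7 : (e t i0 : ℝ) * Real.log 2 ≤ e t i0 * Real.log a :=
          mul_le_mul_of_nonneg_left hla (Nat.cast_nonneg _)
        nlinarith [mul_le_mul_of_nonneg_right h6 hl2.le]
      · have h5 : (M *ᵥ x t) i = x t i := by
          have : (M *ᵥ x t) i = ((1 : Matrix s s ℤ) *ᵥ x t) i := by
            simp only [M, mulVec, updateRow_ne hi]
          rw [this, one_mulVec]
        rw [h5, mul_one]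
        exact (sunit_unit' a ha _ _ _).trans (h2 i i.2)
    refine (prod_le_prod (fun j _ => mul_nonneg (abs_nonneg _) (prod_nonneg fun p _ => by
      exact_mod_cast padicNorm.nonneg _)) fun j _ => hb j).trans (le_of_eq ?_)
    rw [prod_mul_distrib, prod_const, prod_ite_eq', if_pos (mem_univ _), card_univ,
      Fintype.card_coe, ← Real.exp_nat_mul, ← Real.exp_add]
    congr 1
    rw [hε]
    field_simp
    ring

/-- No representation of `1` by `m` large almost units with coefficients of height `exp (ε N)`. -/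
def NoRep (a : ℕ) (η : ℝ) (m : ℕ) (ε : ℝ) (N : ℕ) : Prop :=
  ∀ (c d : Fin m → ℤ) (e b : Fin m → ℕ), (∀ j, |(c j : ℝ)| ≤ Real.exp (ε * N)) →
    (∀ j, |(d j : ℝ)| ≤ Real.exp (ε * N)) → (∀ j, d j ≠ 0) →
    (∀ j, η * N ≤ (e j : ℝ) + b j ∧ (e j : ℝ) + b j ≤ 3 * N) →
    (1 : ℚ) ≠ ∑ j, (c j : ℚ) / d j * (a : ℚ) ^ e j * 2 ^ b j

theorem noRep_fin (a : ℕ) (ha : Odd a) (ha3 : 3 ≤ a) (η : ℝ) (hη : 0 < η) (m : ℕ) :
    ∃ k : ℕ, ∀ N ≥ k, NoRep a η m (1 / (k + 1)) N := by
  classical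
  by_contra hcon
  simp only [NoRep, not_exists, not_forall, not_not, exists_prop, ne_eq] at hcon
  choose N hN c d e b hc hd hd0 hs heq using hcon
  let U : Ultrafilter ℕ := hyperfilter ℕ
  have hU : (U : Filter ℕ) ≤ atTop := Nat.hyperfilter_le_atTop
  have hNt : Tendsto N U atTop := (tendsto_atTop_mono hN tendsto_id).mono_left hU
  have hse : ∀ f : ℕ → ℤ, (∀ k, |(f k : ℝ)| ≤ Real.exp (1 / (k + 1) * N k)) → SE U N f := by
    intro f hf ε hε
    refine hU ?_
    obtain ⟨k0, hk0⟩ := exists_nat_one_div_lt hε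
    filter_upwards [eventually_ge_atTop k0] with k hk
    refine (hf k).trans (Real.exp_le_exp.mpr (mul_le_mul_of_nonneg_right ?_ (Nat.cast_nonneg _)))
    exact (Nat.one_div_le_one_div hk).trans hk0.le
  refine su_ultra a ha ha3 U N hNt η 3 hη e b univ (fun k => ∏ j, d k j)
    (fun k j => c k j * ∏ i ∈ univ.erase j, d k i)
    (SE.prod hNt _ _ fun j _ => hse _ fun k => hd k j)
    (fun j _ => (hse _ fun k => hc k j).mul (SE.prod hNt _ _ fun j _ => hse _ fun k => hd k j))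
    (Eventually.of_forall fun k j _ => hs k j)
    (Eventually.of_forall fun k => prod_ne_zero_iff.mpr fun j _ => hd0 k j)
    (Eventually.of_forall fun k => ?_)
  have h := heq k
  have h2 : ((∏ j, d k j : ℤ) : ℚ) = ∑ j, ((c k j * ∏ i ∈ univ.erase j, d k i : ℤ) : ℚ) *
      (a : ℚ) ^ e k j * 2 ^ b k j := by
    rw [← mul_one (((∏ j, d k j : ℤ) : ℚ)), h, mul_sum]
    refine sum_congr rfl fun j _ => ?_
    rw [← mul_prod_erase _ _ (mem_univ j)]
    have : (d k j : ℚ) ≠ 0 := by exact_mod_cast hd0 k j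
    push_cast
    field_simp
  exact_mod_cast h2

/-- Finite form: sums with at most `M` terms. -/
theorem noRep (a : ℕ) (ha : Odd a) (ha3 : 3 ≤ a) (η : ℝ) (hη : 0 < η) (M : ℕ) :
    ∃ k : ℕ, ∀ N ≥ k, ∀ (s : Finset ℕ), s.card ≤ M → ∀ (c d : ℕ → ℤ) (e b : ℕ → ℕ),
      (∀ j ∈ s, |(c j : ℝ)| ≤ Real.exp (1 / (k + 1) * N)) →
      (∀ j ∈ s, |(d j : ℝ)| ≤ Real.exp (1 / (k + 1) * N)) → (∀ j ∈ s, d j ≠ 0) →
      (∀ j ∈ s, η * N ≤ (e j : ℝ) + b j ∧ (e j : ℝ) + b j ≤ 3 * N) →
      (1 : ℚ) ≠ ∑ j ∈ s, (c j : ℚ) / d j * (a : ℚ) ^ e j * 2 ^ b j := by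
  choose f hf using noRep_fin a ha ha3 η hη
  refine ⟨(range (M + 1)).sup f, fun N hN s hs c d e b hc hd hd0 hb => ?_⟩
  have h1 : f s.card ≤ (range (M + 1)).sup f := le_sup (mem_range.mpr (by omega))
  have h2 : Real.exp (1 / (((range (M + 1)).sup f : ℕ) + 1) * N) ≤
      Real.exp (1 / (f s.card + 1) * N) :=
    Real.exp_le_exp.mpr (mul_le_mul_of_nonneg_right (Nat.one_div_le_one_div h1)
      (Nat.cast_nonneg _))
  let g : Fin s.card → ℕ := fun i => (s.equivFin.symm i : ℕ)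
  have hg : ∀ i, g i ∈ s := fun i => (s.equivFin.symm i).2
  have h3 := hf s.card N (h1.trans hN) (c ∘ g) (d ∘ g) (e ∘ g) (b ∘ g)
    (fun i => (hc _ (hg i)).trans h2) (fun i => (hd _ (hg i)).trans h2) (fun i => hd0 _ (hg i))
    (fun i => hb _ (hg i))
  intro h
  refine h3 (h.trans ?_)
  rw [← sum_coe_sort s]
  exact (Equiv.sum_comp s.equivFin.symm
    (fun j : s => (c j : ℚ) / d j * (a : ℚ) ^ e j * 2 ^ b j)).symm

end Pool.Agent.Lib.MP_dee342_nt.Count
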