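import Pool.Agent.Lib.MP_dee342_nt.CountChain

/-! In a Diophantine window few frequencies have few white blocks. -/

set_option autoImplicit false

namespace Pool.Agent.Lib.MP_dee342_nt.Count

open Finset

/-- Distance to the nearest integer. -/
noncomputable def nd (x : ℝ) : ℝ := |x - round x|

theorem nd_add_int (x : ℝ) (z : ℤ) : nd (x + z) = nd x := by
  simp only [nd, round_add_intCast]
  push_cast
  congr 1
  ring

/-- The number `X / 2^n` is at distance at least `1 / (2 a^G)` from the integers. -/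
def White (a G n : ℕ) (X : ℤ) : Prop := 1 / (2 * (a : ℝ) ^ G) ≤ nd ((X : ℝ) / 2 ^ n)

theorem dvd_pow_sub {m x : ℤ} (h : m ∣ x - 1) (k : ℕ) : m ∣ x ^ k - 1 :=
  h.trans (by simpa using sub_dvd_pow_sub_pow x 1 k)

open Classical in
theorem spec (a : ℕ) (ha : Odd a) (ha3 : 3 ≤ a) (G n K Δ B : ℕ) (u : ℤ)
    (hu : (2 : ℤ) ^ n ∣ a * u - 1) (J : ℕ → ℕ) (hJ1 : ∀ β, J β ≤ J (β + 1))
    (hJ2 : ∀ β, J (β + 1) ≤ J β + G) (h1 : J B + 1 ≤ J 0 + K) (h2 : J 0 + K ≤ J B + G + 1)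
    (hD : Dio a K (J 0) n Δ) (Ξ : Finset ℤ) (hΞ : ∀ ξ ∈ Ξ, ∀ ξ' ∈ Ξ, ξ - ξ' ≤ 2 ^ Δ)
    (l : ℝ) (hl0 : 0 ≤ l) (hl1 : l ≤ 1) :
    ∑ ξ ∈ Ξ, l ^ (2 * ((range (B + 1)).filter fun β =>
        White a G n (ξ * u ^ (J β + 1) * 2 ^ (G * β))).card) ≤
      ((a : ℝ) ^ G + 1) * (1 + 2 * (a : ℝ) ^ G * l) ^ B := by
  have hmono : Monotone J := monotone_nat_of_le_succ hJ1
  have ha1 : (1 : ℝ) ≤ a := by exact_mod_cast ha.pos
  have ha2 : (2 : ℝ) ≤ a := by exact_mod_cast (by omega : 2 ≤ a)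
  have h2n : (0 : ℤ) < 2 ^ n := by positivity
  let r : ℤ → ℤ := fun ξ => ξ * u ^ (J 0 + K) % 2 ^ n
  let z : ℤ → ℕ → ℝ := fun ξ β => (a : ℝ) ^ (J 0 + K - (J β + 1)) * 2 ^ (G * β) * r ξ / 2 ^ n
  let m : ℤ → ℕ → ℤ := fun ξ β => round (z ξ β)
  let e : ℤ → ℕ → ℤ := fun ξ β => (a : ℤ) ^ (J (β + 1) - J β) * m ξ (β + 1) - 2 ^ G * m ξ β
  have hr : ∀ ξ, (2 : ℤ) ^ n ∣ ξ * u ^ (J 0 + K) - r ξ := fun ξ => Int.dvd_self_sub_emod
  have hnd : ∀ ξ, ∀ β ≤ B, nd (((ξ * u ^ (J β + 1) * 2 ^ (G * β) : ℤ) : ℝ) / 2 ^ n) =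
      |z ξ β - m ξ β| := by
    intro ξ β hβ
    obtain ⟨k, hk⟩ : ∃ k, J 0 + K = J β + 1 + k := Nat.exists_eq_add_of_le (by
      have := hmono hβ; omega)
    obtain ⟨p1, hp1⟩ := hr ξ
    obtain ⟨p2, hp2⟩ := dvd_pow_sub hu k
    have h3 : (((ξ * u ^ (J β + 1) * 2 ^ (G * β) : ℤ) : ℝ) / 2 ^ n) =
        z ξ β + ((2 ^ (G * β) * (a ^ k * p1 - ξ * u ^ (J β + 1) * p2) : ℤ) : ℝ) := by
      have h4 : ξ * u ^ (J β + 1) * 2 ^ (G * β) = (a : ℤ) ^ k * 2 ^ (G * β) * r ξ +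
          2 ^ n * (2 ^ (G * β) * (a ^ k * p1 - ξ * u ^ (J β + 1) * p2)) := by
        rw [hk, pow_add u _ k] at hp1
        rw [mul_pow] at hp2
        linear_combination 2 ^ (G * β) * a ^ k * hp1 - 2 ^ (G * β) * ξ * u ^ (J β + 1) * hp2
      simp only [z]
      rw [h4, hk, Nat.add_sub_cancel_left]
      push_cast
      field_simp
    rw [h3, nd_add_int]
    rfl
  have hz : ∀ ξ, ∀ β < B, (a : ℝ) ^ (J (β + 1) - J β) * z ξ (β + 1) = 2 ^ G * z ξ β := by
    intro ξ β hβ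
    have h3 : J 0 + K - (J β + 1) = (J (β + 1) - J β) + (J 0 + K - (J (β + 1) + 1)) := by
      have := hmono (show β + 1 ≤ B from hβ)
      have := hJ1 β
      omega
    simp only [z]
    rw [h3, pow_add, Nat.mul_succ, pow_add]
    ring
  have he : ∀ ξ, ∀ β < B, ∀ δ : ℝ, |z ξ β - m ξ β| ≤ δ → |z ξ (β + 1) - m ξ (β + 1)| ≤ δ →
      |(e ξ β : ℝ)| ≤ 2 * (a : ℝ) ^ G * δ := by
    intro ξ β hβ δ h3 h4
    have h5 : (e ξ β : ℝ) = 2 ^ G * (z ξ β - m ξ β) -
        (a : ℝ) ^ (J (β + 1) - J β) * (z ξ (β + 1) - m ξ (β + 1)) := by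
      simp only [e]
      push_cast
      linear_combination hz ξ β hβ
    have h6 : (a : ℝ) ^ (J (β + 1) - J β) ≤ a ^ G :=
      pow_le_pow_right₀ ha1 (by have := hJ2 β; omega)
    have h7 : (2 : ℝ) ^ G ≤ a ^ G := pow_le_pow_left₀ (by norm_num) ha2 G
    rw [h5]
    refine (abs_sub _ _).trans ?_
    rw [abs_mul, abs_mul, abs_of_pos (a := (2 : ℝ) ^ G) (by positivity),
      abs_of_pos (a := (a : ℝ) ^ _) (by positivity)]
    linarith [mul_le_mul h7 h3 (abs_nonneg _) (by positivity),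
      mul_le_mul h6 h4 (abs_nonneg _) (by positivity)]
  obtain ⟨S, hS⟩ : ∃ S, J B = J 0 + S := Nat.exists_eq_add_of_le (hmono (Nat.zero_le B))
  let Φ : ℤ → ℤ × (Fin B → ℤ) := fun ξ => (m ξ 0 / (a : ℤ) ^ S, fun β => e ξ β)
  let F : ℤ × (Fin B → ℤ) → ℝ := fun p => ∏ β, if p.2 β = 0 then 1 else l
  let Y : Finset (ℤ × (Fin B → ℤ)) := Icc (0 : ℤ) (a ^ G) ×ˢ
    Fintype.piFinset fun _ => Icc (-(a : ℤ) ^ G) (a ^ G)
  have hz0 : ∀ ξ, z ξ 0 = (a : ℝ) ^ (K - 1) * r ξ / 2 ^ n := by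
    intro ξ
    simp only [z]
    rw [show J 0 + K - (J 0 + 1) = K - 1 by omega]
    simp
  have haS : (0 : ℤ) < (a : ℤ) ^ S := pow_pos (by exact_mod_cast ha.pos) _
  have hmaps : ∀ ξ ∈ Ξ, Φ ξ ∈ Y := by
    intro ξ _
    refine mem_product.mpr ⟨mem_Icc.mpr ?_, Fintype.mem_piFinset.mpr fun β => mem_Icc.mpr ?_⟩
    · have h3 : (0 : ℝ) ≤ r ξ := by exact_mod_cast Int.emod_nonneg _ h2n.ne'
      have h4 : (r ξ : ℝ) ≤ 2 ^ n := by exact_mod_cast (Int.emod_lt_of_pos _ h2n).le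
      have h5 : 0 ≤ z ξ 0 := by rw [hz0]; positivity
      have h6 : z ξ 0 ≤ (((a : ℤ) ^ G * a ^ S : ℤ) : ℝ) := by
        rw [hz0, div_le_iff₀ (by positivity)]
        push_cast
        rw [← pow_add]
        exact mul_le_mul (pow_le_pow_right₀ ha1 (by omega)) h4 h3 (by positivity)
      have h7 := abs_le.mp (abs_sub_round (z ξ 0))
      have h8 : 0 ≤ m ξ 0 := by
        have : ((-1 : ℤ) : ℝ) < m ξ 0 := by simp only [m]; push_cast; linarith
        have := Int.cast_lt.mp this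
        omega
      have h9 : m ξ 0 ≤ (a : ℤ) ^ G * a ^ S := by
        have : (m ξ 0 : ℝ) < (((a : ℤ) ^ G * a ^ S + 1 : ℤ) : ℝ) := by
          simp only [m]; rw [Int.cast_add, Int.cast_one]; linarith
        have := Int.cast_lt.mp this
        omega
      exact ⟨Int.ediv_nonneg h8 haS.le, Int.ediv_le_of_le_mul haS h9⟩
    · have h3 := he ξ β β.2 (1 / 2) (abs_sub_round _) (abs_sub_round _)
      rw [← abs_le]
      have h4 : |(e ξ β : ℝ)| ≤ (a : ℝ) ^ G := by linarith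
      exact_mod_cast h4
  have hinj : Set.InjOn Φ Ξ := by
    have key : ∀ ξ ∈ Ξ, ∀ ξ' ∈ Ξ, Φ ξ = Φ ξ' → ξ ≤ ξ' := by
      intro ξ hξ ξ' hξ' h
      have h3 : m ξ 0 / (a : ℤ) ^ S = m ξ' 0 / (a : ℤ) ^ S := congrArg Prod.fst h
      have h4 : ∀ β < B, e ξ β = e ξ' β := fun β hβ => congrFun (congrArg Prod.snd h) ⟨β, hβ⟩
      have h5 : ∀ β ≤ B, 2 ^ (G * β) * (m ξ 0 - m ξ' 0) =
          (a : ℤ) ^ (J β - J 0) * (m ξ β - m ξ' β) := by
        intro β hβ
        induction β with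
        | zero => simp
        | succ β ih =>
          have h6 := h4 β hβ
          have h7 : J (β + 1) - J 0 = (J β - J 0) + (J (β + 1) - J β) := by
            have := hmono (Nat.zero_le β)
            have := hJ1 β
            omega
          simp only [e] at h6
          rw [h7, pow_add, Nat.mul_succ, pow_add]
          linear_combination 2 ^ G * ih (by omega) - (a : ℤ) ^ (J β - J 0) * h6
      have h6 : (a : ℤ) ^ S ∣ m ξ 0 - m ξ' 0 := by
        refine (coprime_pow a ha S (G * B)).symm.dvd_of_dvd_mul_left ⟨m ξ B - m ξ' B, ?_⟩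
        rw [h5 B le_rfl, hS, Nat.add_sub_cancel_left]
      have h7 : m ξ 0 = m ξ' 0 := by
        rw [← Int.mul_ediv_add_emod (m ξ 0) (a ^ S), ← Int.mul_ediv_add_emod (m ξ' 0) (a ^ S), h3,
          (Int.emod_emod_of_dvd _ dvd_rfl).symm.trans
            ((Int.emod_emod_of_dvd _ dvd_rfl).trans (Int.modEq_iff_dvd.mpr h6).symm)]
      by_contra hlt
      obtain ⟨p1, hp1⟩ := hr ξ
      obtain ⟨p2, hp2⟩ := hr ξ'
      obtain ⟨p3, hp3⟩ := dvd_pow_sub hu (J 0 + K)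
      have h8 := hD (ξ - ξ') (r ξ - r ξ') (by omega) (hΞ ξ hξ ξ' hξ')
        ⟨(ξ - ξ') * p3 - a ^ (J 0 + K) * (p1 - p2), by
          rw [mul_pow] at hp3
          linear_combination (ξ - ξ') * hp3 - (a : ℤ) ^ (J 0 + K) * (hp1 - hp2)⟩
      have h9 : (2 : ℝ) ^ n < (a : ℝ) ^ (K - 1) * |(r ξ : ℝ) - r ξ'| := by exact_mod_cast h8
      have h10 : |z ξ 0 - z ξ' 0| ≤ 1 := by
        have e1 := abs_le.mp (abs_sub_round (z ξ 0))
        have e2 := abs_le.mp (abs_sub_round (z ξ' 0))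
        have e3 : (round (z ξ 0) : ℝ) = round (z ξ' 0) := by exact_mod_cast h7
        rw [abs_le]
        constructor <;> linarith
      rw [hz0, hz0, ← sub_div, ← mul_sub, abs_div, abs_mul,
        abs_of_pos (a := (a : ℝ) ^ _) (by positivity), abs_of_pos (a := (2 : ℝ) ^ n) (by positivity),
        div_le_one (by positivity)] at h10
      linarith
    intro ξ hξ ξ' hξ' h
    exact le_antisymm (key ξ hξ ξ' hξ' h) (key ξ' hξ' ξ hξ h.symm)
  have hF0 : ∀ p, 0 ≤ F p := fun p => prod_nonneg fun β _ => by split_ifs <;> linarith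
  calc _ ≤ ∑ ξ ∈ Ξ, F (Φ ξ) := by
        refine sum_le_sum fun ξ _ => ?_
        have h3 : F (Φ ξ) = l ^ ((range B).filter fun β => ¬ e ξ β = 0).card := by
          simp only [F, Φ]
          rw [Fin.prod_univ_eq_prod_range (fun β => if e ξ β = 0 then 1 else l) B, prod_ite,
            prod_const_one, one_mul, prod_const]
        rw [h3]
        refine pow_le_pow_of_le_one hl0 hl1 ?_
        set W := (range (B + 1)).filter fun β => White a G n (ξ * u ^ (J β + 1) * 2 ^ (G * β))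
        have h4 : ((range B).filter fun β => ¬ e ξ β = 0) ⊆ W ∪ W.image (· - 1) := by
          intro β hβ
          obtain ⟨h5, h6⟩ := mem_filter.mp hβ
          rw [mem_range] at h5
          by_contra h7
          rw [mem_union, not_or] at h7
          have h8 : ¬ White a G n (ξ * u ^ (J β + 1) * 2 ^ (G * β)) := fun h =>
            h7.1 (mem_filter.mpr ⟨mem_range.mpr (by omega), h⟩)
          have h9 : ¬ White a G n (ξ * u ^ (J (β + 1) + 1) * 2 ^ (G * (β + 1))) := fun h =>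
            h7.2 (mem_image.mpr ⟨β + 1, mem_filter.mpr ⟨mem_range.mpr (by omega), h⟩, rfl⟩)
          rw [White, not_le, hnd ξ _ (by omega)] at h8 h9
          have h10 := he ξ β h5 _ (le_max_left _ _) (le_max_right _ _)
          have h11 := max_lt h8 h9
          rw [lt_div_iff₀ (by positivity)] at h11
          have h12 : |(e ξ β : ℝ)| < 1 := by linarith
          have h13 : |e ξ β| < 1 := by exact_mod_cast h12
          exact h6 (Int.abs_lt_one_iff.mp h13)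
        have h5 := card_le_card h4
        have h6 := card_union_le W (W.image (· - 1))
        have h7 := card_image_le (s := W) (f := (· - 1))
        omega
    _ = ∑ p ∈ Ξ.image Φ, F p := (sum_image hinj).symm
    _ ≤ ∑ p ∈ Y, F p := sum_le_sum_of_subset_of_nonneg
        (fun p hp => by obtain ⟨ξ, hξ, rfl⟩ := mem_image.mp hp; exact hmaps ξ hξ)
        fun p _ _ => hF0 p
    _ = _ := by
        have h0 : ∑ y ∈ Fintype.piFinset (fun _ : Fin B => Icc (-(a : ℤ) ^ G) (a ^ G)),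
            ∏ β, (if y β = 0 then (1 : ℝ) else l) =
            ∏ _β : Fin B, ∑ x ∈ Icc (-(a : ℤ) ^ G) (a ^ G), (if x = 0 then (1 : ℝ) else l) :=
          (prod_univ_sum (fun _ : Fin B => Icc (-(a : ℤ) ^ G) (a ^ G))
            (fun _ x => if x = 0 then (1 : ℝ) else l)).symm
        rw [sum_product]
        simp only [F]
        rw [sum_congr rfl fun _ _ => h0, sum_const, prod_const, card_univ,
          Fintype.card_fin, Int.card_Icc, nsmul_eq_mul]
        have h3 : (0 : ℤ) ≤ a ^ G := by positivity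
        have h4 : ∑ x ∈ Icc (-(a : ℤ) ^ G) (a ^ G), (if x = 0 then (1 : ℝ) else l) =
            1 + 2 * (a : ℝ) ^ G * l := by
          rw [← add_sum_erase _ _ (mem_Icc.mpr ⟨neg_nonpos.mpr h3, h3⟩), if_pos rfl,
            sum_congr rfl fun x hx => if_neg (ne_of_mem_erase hx), sum_const,
            card_erase_of_mem (mem_Icc.mpr ⟨neg_nonpos.mpr h3, h3⟩), Int.card_Icc, nsmul_eq_mul]
          have h5 : ((a : ℤ) ^ G + 1 - -(a : ℤ) ^ G).toNat - 1 = 2 * a ^ G := by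
            have : (a : ℤ) ^ G + 1 - -(a : ℤ) ^ G = ((2 * a ^ G + 1 : ℕ) : ℤ) := by push_cast; ring
            rw [this, Int.toNat_natCast]
            omega
          rw [h5]
          push_cast
          ring
        have h5 : ((a : ℤ) ^ G + 1 - 0).toNat = a ^ G + 1 := by
          have : (a : ℤ) ^ G + 1 - 0 = ((a ^ G + 1 : ℕ) : ℤ) := by push_cast; ring
          rw [this, Int.toNat_natCast]
        rw [h4, h5]
        push_cast
        ring

end Pool.Agent.Lib.MP_dee342_nt.Count
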