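import Mathlib

/-!
Definitions and linear algebra for the rigidity theorem.
-/

set_option autoImplicit false

namespace Pool.Agent.Lib.MP_dee342_nt.Gr

open Filter Topology Finset

/-- `β k = 2^(σ k) g (k+1) - a^(τ k) g k`. -/
def bet (a : ℕ) (g : ℕ → ℤ) (σ τ : ℕ → ℕ) (k : ℕ) : ℤ :=
  2 ^ σ k * g (k + 1) - (a : ℤ) ^ τ k * g k

/-- The systems of the rigidity theorem, on the indices `k ≤ R`. -/
def Sys (a c B N R : ℕ) {K : ℕ} (g : ℕ → ℤ) (σ τ : ℕ → ℕ) (lab : ℕ → Fin K) : Prop :=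
  (∀ k ≤ R, Odd (g k) ∧ |g k| ≤ 2 ^ (c * N)) ∧
    (∀ k < R, N ≤ σ k ∧ σ k ≤ B * N ∧ τ k ≤ B * N ∧
      |bet a g σ τ k| * 2 ^ N ≤ (a : ℤ) ^ τ k * 2 ^ σ k) ∧
    ∀ k < R, ∀ k' < R, lab k = lab k' →
      (a : ℤ) ^ τ k' * bet a g σ τ k = (a : ℤ) ^ τ k * bet a g σ τ k'

/-- `(A, G)` solves `2^σ G' = a^τ G + A β` on the window `[p, p + W]`, with `|A| ≤ X`, `|G| ≤ Y`. -/
def Sol (a : ℕ) (σ τ : ℕ → ℕ) (β : ℕ → ℤ) (p W : ℕ) (X Y : ℤ) (A G : ℕ → ℤ) : Prop :=
  (∀ k, p ≤ k → k < p + W →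
    2 ^ σ k * G (k + 1) = (a : ℤ) ^ τ k * G k + A k * β k ∧ |A k| ≤ X) ∧
    ∀ k, p ≤ k → k ≤ p + W → |G k| ≤ Y

/-- The vectors `(A b (i + j))_(j < l)` are linearly independent. -/
def Ind {s : ℕ} (A : Fin s → ℕ → ℤ) (l i : ℕ) : Prop :=
  LinearIndependent ℚ fun (b : Fin s) (j : Fin l) => (A b (i + j) : ℚ)

/-- Siegel's lemma with integer bounds. -/
theorem rglin_siegel {κ : Type} [Fintype κ] {r : ℕ} (M : Matrix κ (Fin r) ℤ) (X : ℤ)
    (hX : 1 ≤ X) (hM : ∀ k b, |M k b| ≤ X) (hr : Fintype.card κ < r)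
    (h0 : 0 < Fintype.card κ) :
    ∃ c : Fin r → ℤ, c ≠ 0 ∧ (∀ b, |c b| ≤ (r * X) ^ r) ∧ ∀ k, ∑ b, M k b * c b = 0 := by
  letI : SeminormedAddCommGroup (Matrix κ (Fin r) ℤ) := Matrix.seminormedAddCommGroup
  obtain ⟨t, ht0, hMt, htn⟩ := Int.Matrix.exists_ne_zero_int_vec_norm_le M
    (by simpa using hr) h0
  have hXR : (1 : ℝ) ≤ (X : ℝ) := by exact_mod_cast hX
  have hMn : ‖M‖ ≤ (X : ℝ) := by
    rw [Matrix.norm_le_iff (by linarith)]
    intro k b
    rw [Int.norm_eq_abs]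
    exact_mod_cast hM k b
  have hmax : max 1 ‖M‖ ≤ (X : ℝ) := max_le hXR hMn
  have hrR : (Fintype.card κ : ℝ) + 1 ≤ (r : ℝ) := by exact_mod_cast hr
  have hk0 : (0 : ℝ) ≤ (Fintype.card κ : ℝ) := Nat.cast_nonneg _
  have hr1 : (1 : ℝ) ≤ (r : ℝ) := by linarith
  rw [Fintype.card_fin] at htn
  have hb1 : (1 : ℝ) ≤ (r : ℝ) * max 1 ‖M‖ :=
    one_le_mul_of_one_le_of_one_le hr1 (le_max_left _ _)
  have he : (Fintype.card κ : ℝ) / ((r : ℝ) - Fintype.card κ) ≤ ((r : ℕ) : ℝ) := by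
    rw [div_le_iff₀ (by linarith)]
    nlinarith
  have h1 : ‖t‖ ≤ ((r : ℝ) * X) ^ r := by
    refine htn.trans ?_
    refine (Real.rpow_le_rpow_of_exponent_le hb1 he).trans ?_
    rw [Real.rpow_natCast]
    exact pow_le_pow_left₀ (by linarith) (mul_le_mul_of_nonneg_left hmax (by linarith)) _
  refine ⟨t, ht0, fun b => ?_, fun k => ?_⟩
  · have h2 : ‖t b‖ ≤ ‖t‖ := norm_le_pi_norm t b
    rw [Int.norm_eq_abs] at h2
    exact_mod_cast h2.trans h1
  · have h3 := congrFun hMt k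
    simpa [Matrix.mulVec, dotProduct] using h3

/-- Siegel's lemma for dependent vectors. The columns `fun b => v b j` span a proper subspace of
`Fin r → ℚ`; choose among them a basis of their span (at most `r - 1` vectors, see
`exists_linearIndependent`) and apply `Int.Matrix.exists_ne_zero_int_vec_norm_le` to it (if there
is none, take `Pi.single`). -/
theorem small_kernel {r l : ℕ} (v : Fin r → Fin l → ℤ) (X : ℤ) (hX : 1 ≤ X)
    (hv : ∀ b j, |v b j| ≤ X)
    (hdep : ¬ LinearIndependent ℚ fun (b : Fin r) (j : Fin l) => (v b j : ℚ)) :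
    ∃ c : Fin r → ℤ, c ≠ 0 ∧ (∀ b, |c b| ≤ (r * X) ^ r) ∧ ∀ j, ∑ b, c b * v b j = 0 := by
  classical
  rw [Fintype.not_linearIndependent_iff] at hdep
  obtain ⟨g, hg, b0, hb0⟩ := hdep
  set col : Fin l → Fin r → ℚ := fun j b => (v b j : ℚ) with hcol
  obtain ⟨κ, e, he, hsp, hli⟩ := exists_linearIndependent' ℚ col
  haveI : Finite κ := Finite.of_injective e he
  letI : Fintype κ := Fintype.ofFinite κ
  -- the linear functional attached to a vector
  let φ : (Fin r → ℚ) → (Fin r → ℚ) →ₗ[ℚ] ℚ := fun w =>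
    { toFun := fun x => ∑ b, w b * x b
      map_add' := fun x y => by simp [mul_add, Finset.sum_add_distrib]
      map_smul' := fun t x => by
        simp only [Pi.smul_apply, smul_eq_mul, RingHom.id_apply, Finset.mul_sum]
        exact Finset.sum_congr rfl fun b _ => by ring }
  have hφ : ∀ w x, φ w x = ∑ b, w b * x b := fun w x => rfl
  have key : ∀ w : Fin r → ℚ, (∀ k, φ w (col (e k)) = 0) → ∀ j, φ w (col j) = 0 := by
    intro w hw j
    have h1 : Submodule.span ℚ (Set.range (col ∘ e)) ≤ LinearMap.ker (φ w) := by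
      rw [Submodule.span_le]
      rintro _ ⟨k, rfl⟩
      exact hw k
    rw [hsp] at h1
    exact h1 (Submodule.subset_span ⟨j, rfl⟩)
  have hne : Submodule.span ℚ (Set.range (col ∘ e)) ≠ ⊤ := by
    intro htop
    have h1 : Submodule.span ℚ (Set.range (col ∘ e)) ≤ LinearMap.ker (φ g) := by
      rw [Submodule.span_le]
      rintro _ ⟨k, rfl⟩
      have h2 := congrFun hg (e k)
      simp only [Finset.sum_apply, Pi.smul_apply, smul_eq_mul, Pi.zero_apply] at h2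
      exact h2
    rw [htop] at h1
    have h3 : φ g (Pi.single b0 1) = 0 := h1 Submodule.mem_top
    rw [hφ, Finset.sum_eq_single b0 (fun b _ hb => by simp [hb]) (by simp)] at h3
    simp only [Pi.single_eq_same, mul_one] at h3
    exact hb0 h3
  have hcard : Fintype.card κ < r := by
    have h1 := Submodule.finrank_lt hne
    rw [finrank_span_eq_card hli] at h1
    simpa using h1
  have fin : ∀ c : Fin r → ℤ, (∀ k, ∑ b, v b (e k) * c b = 0) → ∀ j, ∑ b, c b * v b j = 0 := by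
    intro c hc j
    have h1 := key (fun b => (c b : ℚ)) (fun k => by
      rw [hφ]
      have h2 : ((∑ b, v b (e k) * c b : ℤ) : ℚ) = 0 := by rw [hc k]; simp
      push_cast at h2
      rw [← h2]
      exact Finset.sum_congr rfl fun b _ => mul_comm _ _) j
    rw [hφ] at h1
    have h3 : ((∑ b, c b * v b j : ℤ) : ℚ) = 0 := by
      push_cast
      exact h1
    exact_mod_cast h3
  rcases Nat.eq_zero_or_pos (Fintype.card κ) with h0 | h0
  · haveI : IsEmpty κ := Fintype.card_eq_zero_iff.1 h0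
    refine ⟨Pi.single b0 1, ?_, fun b => ?_, fin _ fun k => isEmptyElim k⟩
    · intro h
      have h1 := congrFun h b0
      simp at h1
    · have hr1 : (1 : ℤ) ≤ r := by
        have : 0 < r := Fin.pos b0
        exact_mod_cast this
      have h1 : (1 : ℤ) ≤ ((r : ℤ) * X) ^ r :=
        one_le_pow₀ (one_le_mul_of_one_le_of_one_le hr1 hX)
      by_cases hb : b = b0
      · subst hb
        simpa using h1
      · simp only [Pi.single_eq_of_ne hb, abs_zero]
        linarith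
  · obtain ⟨c, hc0, hcb, hc⟩ := rglin_siegel (Matrix.of fun k b => v b (e k)) X hX
      (fun k b => hv b (e k)) hcard h0
    exact ⟨c, hc0, hcb, fin c hc⟩

theorem Sol.mono {a : ℕ} {σ τ : ℕ → ℕ} {β : ℕ → ℤ} {p W p' W' : ℕ} {X Y X' Y' : ℤ}
    {A G : ℕ → ℤ} (h : Sol a σ τ β p W X Y A G) (hp : p ≤ p') (hW : p' + W' ≤ p + W)
    (hX : X ≤ X') (hY : Y ≤ Y') : Sol a σ τ β p' W' X' Y' A G := by
  refine ⟨fun k h1 h2 => ?_, fun k h1 h2 => ?_⟩
  · obtain ⟨h3, h4⟩ := h.1 k (by omega) (by omega)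
    exact ⟨h3, h4.trans hX⟩
  · exact (h.2 k (by omega) (by omega)).trans hY

theorem rglin_abs_sum {r : ℕ} (c x : Fin r → ℤ) (Z X : ℤ) (hc : ∀ b, |c b| ≤ Z)
    (hx : ∀ b, |x b| ≤ X) : |∑ b, c b * x b| ≤ r * Z * X := by
  refine (Finset.abs_sum_le_sum_abs _ _).trans ?_
  have h1 : ∀ b ∈ (Finset.univ : Finset (Fin r)), |c b * x b| ≤ Z * X := by
    intro b _
    rw [abs_mul]
    exact mul_le_mul (hc b) (hx b) (abs_nonneg _) ((abs_nonneg _).trans (hc b))
  refine (Finset.sum_le_sum h1).trans ?_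
  simp [mul_assoc]

theorem Sol.comb {a : ℕ} {σ τ : ℕ → ℕ} {β : ℕ → ℤ} {p W : ℕ} {X Y : ℤ} {r : ℕ}
    {A G : Fin r → ℕ → ℤ} (h : ∀ b, Sol a σ τ β p W X Y (A b) (G b)) (c : Fin r → ℤ) (Z : ℤ)
    (hc : ∀ b, |c b| ≤ Z) :
    Sol a σ τ β p W (r * Z * X) (r * Z * Y) (fun k => ∑ b, c b * A b k)
      fun k => ∑ b, c b * G b k := by
  refine ⟨fun k h1 h2 => ⟨?_, ?_⟩, fun k h1 h2 => ?_⟩
  · simp only [Finset.mul_sum, Finset.sum_mul, ← Finset.sum_add_distrib]
    refine Finset.sum_congr rfl fun b _ => ?_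
    have h3 := ((h b).1 k h1 h2).1
    linear_combination c b * h3
  · exact rglin_abs_sum c _ Z X hc fun b => ((h b).1 k h1 h2).2
  · exact rglin_abs_sum c _ Z Y hc fun b => (h b).2 k h1 h2

/-- No birth: if `G i = 0` then `2^σ ∣ A β` with `β` odd and `|A| < 2^σ`, so `A i = 0`. -/
theorem Sol.dead {a : ℕ} {σ τ : ℕ → ℕ} {β : ℕ → ℤ} {p W N : ℕ} {X Y : ℤ} {A G : ℕ → ℤ}
    (h : Sol a σ τ β p W X Y A G) (hβ : ∀ k, p ≤ k → k < p + W → Odd (β k) ∧ N ≤ σ k)
    (hX : X < 2 ^ N) (i : ℕ) (hi : p ≤ i) (hG : G i = 0) :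
    ∀ k, i ≤ k → k < p + W → A k = 0 ∧ G (k + 1) = 0 := by
  have step : ∀ k, p ≤ k → k < p + W → G k = 0 → A k = 0 ∧ G (k + 1) = 0 := by
    intro k h1 h2 h0
    obtain ⟨h3, h4⟩ := h.1 k h1 h2
    obtain ⟨h5, h6⟩ := hβ k h1 h2
    rw [h0, mul_zero, zero_add] at h3
    have hco : IsCoprime ((2 : ℤ) ^ σ k) (β k) :=
      (Int.isCoprime_two_left.2 h5).pow_left
    have hd : (2 : ℤ) ^ σ k ∣ A k := hco.dvd_of_dvd_mul_right ⟨_, h3.symm⟩
    have hlt : |A k| < (2 : ℤ) ^ σ k :=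
      lt_of_le_of_lt h4 (lt_of_lt_of_le hX (pow_le_pow_right₀ (by norm_num) h6))
    have hA : A k = 0 := Int.eq_zero_of_abs_lt_dvd hd hlt
    refine ⟨hA, ?_⟩
    rw [hA, zero_mul] at h3
    exact (mul_eq_zero.1 h3).resolve_left (by positivity)
  intro k hk
  induction k, hk using Nat.le_induction with
  | base => exact fun h2 => step i hi h2 hG
  | succ k hk ih => exact fun h2 => step (k + 1) (by omega) h2 (ih (by omega)).2

/-- If `A` vanishes at `l` consecutive indices, then `2^(l N)` divides `G i`. -/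
theorem Sol.zero_run {a : ℕ} (ha : Odd a) {σ τ : ℕ → ℕ} {β : ℕ → ℤ} {p W N l : ℕ} {X Y : ℤ}
    {A G : ℕ → ℤ} (h : Sol a σ τ β p W X Y A G) (hσ : ∀ k, p ≤ k → k < p + W → N ≤ σ k)
    (hY : Y < 2 ^ (l * N)) (i : ℕ) (hi : p ≤ i) (hil : i + l ≤ p + W)
    (hA : ∀ j < l, A (i + j) = 0) : G i = 0 := by
  have haZ : Odd (a : ℤ) := by exact_mod_cast ha
  have key : ∀ m, ∀ k, i ≤ k → k + m = i + l → (2 : ℤ) ^ (m * N) ∣ G k := by
    intro m
    induction m with
    | zero => intro k _ _; simp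
    | succ m ih =>
      intro k h1 h2
      obtain ⟨h3, -⟩ := h.1 k (by omega) (by omega)
      have h4 : A k = 0 := by
        have := hA (k - i) (by omega)
        rwa [show i + (k - i) = k by omega] at this
      rw [h4, zero_mul, add_zero] at h3
      have h5 := ih (k + 1) (by omega) (by omega)
      have h6 : (2 : ℤ) ^ N ∣ 2 ^ σ k := pow_dvd_pow _ (hσ k (by omega) (by omega))
      have h7 : (2 : ℤ) ^ ((m + 1) * N) ∣ (a : ℤ) ^ τ k * G k := by
        rw [← h3, show (m + 1) * N = N + m * N by ring, pow_add]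
        exact mul_dvd_mul h6 h5
      have hco : IsCoprime ((2 : ℤ) ^ ((m + 1) * N)) ((a : ℤ) ^ τ k) :=
        (Int.isCoprime_two_left.2 haZ).pow
      exact hco.dvd_of_dvd_mul_left h7
  exact Int.eq_zero_of_abs_lt_dvd (key l i le_rfl (by omega))
    (lt_of_le_of_lt (h.2 i hi (by omega)) hY)

theorem rglin_sum_le (f f' : ℕ → ℕ) (W d : ℕ) (h : ∀ i < W, f i ≤ f' i + d) :
    ∀ i ≤ W, ∑ j ∈ range i, f j ≤ ∑ j ∈ range i, f' j + i * d := by
  intro i
  induction i with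
  | zero => simp
  | succ i ih =>
    intro hi
    have h1 := ih (by omega)
    have h2 := h i (by omega)
    rw [sum_range_succ, sum_range_succ, add_mul, one_mul]
    omega

/-- Transport of a solution from the window at `p'` to the window at `p`, when the two windows
have the same labels and nearly the same exponents. With `Λ i = 2^(u + Σσ' - Σσ) a^(u + Στ - Στ')`
(sums over the offsets below `i`), `Λ (i+1) 2^σ a^τ' = Λ i 2^σ' a^τ`. -/
theorem transport (a : ℕ) (ha3 : 3 ≤ a) (σ τ : ℕ → ℕ) (β : ℕ → ℤ) (p p' W d : ℕ)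
    (hβ : ∀ i < W, (a : ℤ) ^ τ (p' + i) * β (p + i) = (a : ℤ) ^ τ (p + i) * β (p' + i))
    (hσ : ∀ i < W, σ (p + i) ≤ σ (p' + i) + d ∧ σ (p' + i) ≤ σ (p + i) + d)
    (hτ : ∀ i < W, τ (p + i) ≤ τ (p' + i) + d ∧ τ (p' + i) ≤ τ (p + i) + d) :
    ∃ Λ : ℕ → ℤ, (∀ i ≤ W, 0 < Λ i ∧ Λ i ≤ 2 ^ (4 * a * W * d)) ∧
      ∀ (X Y : ℤ) (A G : ℕ → ℤ), Sol a σ τ β p' W X Y A G →
        Sol a σ τ β p W (2 ^ (4 * a * W * d) * X) (2 ^ (4 * a * W * d) * Y)
          (fun k => Λ (k - p) * A (p' + (k - p))) fun k => Λ (k - p) * G (p' + (k - p)) := by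
  set S : ℕ → ℕ := fun i => ∑ j ∈ range i, σ (p + j) with hS
  set S' : ℕ → ℕ := fun i => ∑ j ∈ range i, σ (p' + j) with hS'
  set T : ℕ → ℕ := fun i => ∑ j ∈ range i, τ (p + j) with hT
  set T' : ℕ → ℕ := fun i => ∑ j ∈ range i, τ (p' + j) with hT'
  have hWd : ∀ i ≤ W, i * d ≤ W * d := fun i hi => Nat.mul_le_mul_right d hi
  have s1 : ∀ i ≤ W, S i ≤ S' i + W * d := fun i hi =>
    (rglin_sum_le (fun j => σ (p + j)) (fun j => σ (p' + j)) W d (fun j hj => (hσ j hj).1)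
      i hi).trans (Nat.add_le_add_left (hWd i hi) _)
  have s2 : ∀ i ≤ W, S' i ≤ S i + W * d := fun i hi =>
    (rglin_sum_le (fun j => σ (p' + j)) (fun j => σ (p + j)) W d (fun j hj => (hσ j hj).2)
      i hi).trans (Nat.add_le_add_left (hWd i hi) _)
  have t1 : ∀ i ≤ W, T i ≤ T' i + W * d := fun i hi =>
    (rglin_sum_le (fun j => τ (p + j)) (fun j => τ (p' + j)) W d (fun j hj => (hτ j hj).1)
      i hi).trans (Nat.add_le_add_left (hWd i hi) _)
  have t2 : ∀ i ≤ W, T' i ≤ T i + W * d := fun i hi =>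
    (rglin_sum_le (fun j => τ (p' + j)) (fun j => τ (p + j)) W d (fun j hj => (hτ j hj).2)
      i hi).trans (Nat.add_le_add_left (hWd i hi) _)
  have ha0 : (0 : ℤ) < a := by exact_mod_cast (by omega : 0 < a)
  set Λ : ℕ → ℤ := fun i => 2 ^ (W * d + S' i - S i) * (a : ℤ) ^ (W * d + T i - T' i) with hΛ
  have hpos : ∀ i, 0 < Λ i := fun i => by simp only [hΛ]; positivity
  have hle : ∀ i ≤ W, Λ i ≤ 2 ^ (4 * a * W * d) := by
    intro i hi
    have e1 : W * d + S' i - S i ≤ 2 * (W * d) := by have := s2 i hi; omega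
    have e2 : W * d + T i - T' i ≤ 2 * (W * d) := by have := t1 i hi; omega
    have a1 : (a : ℤ) ≤ 2 ^ a := by exact_mod_cast (Nat.lt_two_pow_self (n := a)).le
    have b1 : (2 : ℤ) ^ (W * d + S' i - S i) ≤ 2 ^ (2 * (W * d)) :=
      pow_le_pow_right₀ (by norm_num) e1
    have b2 : (a : ℤ) ^ (W * d + T i - T' i) ≤ 2 ^ (a * (2 * (W * d))) := by
      rw [pow_mul]
      exact (pow_le_pow_right₀ (by omega) e2).trans (pow_le_pow_left₀ ha0.le a1 _)
    calc Λ i ≤ 2 ^ (2 * (W * d)) * 2 ^ (a * (2 * (W * d))) :=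
          mul_le_mul b1 b2 (by positivity) (by positivity)
      _ = 2 ^ (2 * (W * d) + a * (2 * (W * d))) := (pow_add _ _ _).symm
      _ ≤ 2 ^ (4 * a * W * d) := by
          refine pow_le_pow_right₀ (by norm_num) ?_
          have : 2 * (W * d) ≤ a * (2 * (W * d)) := Nat.le_mul_of_pos_left _ (by omega)
          calc 2 * (W * d) + a * (2 * (W * d)) ≤ a * (2 * (W * d)) + a * (2 * (W * d)) := by
                omega
            _ = 4 * a * W * d := by ring
  have hrec : ∀ i < W, Λ (i + 1) * 2 ^ σ (p + i) * (a : ℤ) ^ τ (p' + i) =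
      Λ i * 2 ^ σ (p' + i) * (a : ℤ) ^ τ (p + i) := by
    intro i hi
    have f1 : S (i + 1) = S i + σ (p + i) := sum_range_succ _ _
    have f2 : S' (i + 1) = S' i + σ (p' + i) := sum_range_succ _ _
    have f3 : T (i + 1) = T i + τ (p + i) := sum_range_succ _ _
    have f4 : T' (i + 1) = T' i + τ (p' + i) := sum_range_succ _ _
    have g1 := s1 i hi.le
    have g2 := s1 (i + 1) hi
    have g3 := t2 i hi.le
    have g4 := t2 (i + 1) hi
    have e1 : W * d + S' (i + 1) - S (i + 1) + σ (p + i) = W * d + S' i - S i + σ (p' + i) := by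
      omega
    have e2 : W * d + T (i + 1) - T' (i + 1) + τ (p' + i) = W * d + T i - T' i + τ (p + i) := by
      omega
    simp only [hΛ]
    calc (2 : ℤ) ^ (W * d + S' (i + 1) - S (i + 1)) * (a : ℤ) ^ (W * d + T (i + 1) - T' (i + 1)) *
          2 ^ σ (p + i) * (a : ℤ) ^ τ (p' + i)
        = 2 ^ (W * d + S' (i + 1) - S (i + 1) + σ (p + i)) *
          (a : ℤ) ^ (W * d + T (i + 1) - T' (i + 1) + τ (p' + i)) := by
          rw [pow_add, pow_add]; ring
      _ = _ := by rw [e1, e2, pow_add, pow_add]; ring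
  refine ⟨Λ, fun i hi => ⟨hpos i, hle i hi⟩, fun X Y A G h => ⟨fun k h1 h2 => ?_, fun k h1 h2 => ?_⟩⟩
  · obtain ⟨i, rfl⟩ := Nat.exists_eq_add_of_le h1
    have hi : i < W := by omega
    obtain ⟨h3, h4⟩ := h.1 (p' + i) (by omega) (by omega)
    simp only [show p + i - p = i by omega, show p + i + 1 - p = i + 1 by omega]
    refine ⟨?_, ?_⟩
    · have hne : (a : ℤ) ^ τ (p' + i) ≠ 0 := by positivity
      apply mul_left_cancel₀ hne
      have h5 := hrec i hi
      have h6 := hβ i hi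
      rw [← add_assoc]
      linear_combination G (p' + i + 1) * h5 + Λ i * (a : ℤ) ^ τ (p + i) * h3
        - Λ i * A (p' + i) * h6
    · rw [abs_mul, abs_of_pos (hpos i)]
      exact mul_le_mul (hle i hi.le) h4 (abs_nonneg _) (by positivity)
  · obtain ⟨i, rfl⟩ := Nat.exists_eq_add_of_le h1
    have hi : i ≤ W := by omega
    have h4 := h.2 (p' + i) (by omega) (by omega)
    simp only [show p + i - p = i by omega]
    rw [abs_mul, abs_of_pos (hpos i)]
    exact mul_le_mul (hle i hi) h4 (abs_nonneg _) (by positivity)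

end Pool.Agent.Lib.MP_dee342_nt.Gr
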