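import Pool.Agent.Lib.MP_dee342_nt.CxParse
import Pool.Agent.Lib.MP_dee342_nt.RgLin

/-!
Affine relations along the orbit in terms of the parity word.
-/

set_option autoImplicit false

namespace Pool.Agent.Lib.MP_dee342_nt.Gr

open Finset

/-- The number of odd values at the times `s ≤ i < s + l`. -/
def od (a x : ℤ) (s l : ℕ) : ℕ := ((range l).filter fun i => par a x (s + i) ≠ 0).card

/-- The constant of the affine relation between the times `s` and `s + l`. -/
def cs (a : ℕ) (x : ℤ) (s l : ℕ) : ℤ :=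
  2 ^ l * (T a)^[s + l] x - (a : ℤ) ^ od a x s l * (T a)^[s] x

theorem od_le (a x : ℤ) (s l : ℕ) : od a x s l ≤ l := by
  unfold od
  exact (card_filter_le _ _).trans (card_range l).le

theorem od_add (a x : ℤ) (s l l' : ℕ) : od a x s (l + l') = od a x s l + od a x (s + l) l' := by
  unfold od
  simp only [card_filter]
  rw [sum_range_add]
  simp only [add_assoc]

theorem cs_add (a : ℕ) (x : ℤ) (s l l' : ℕ) :
    cs a x s (l + l') = (a : ℤ) ^ od a x (s + l) l' * cs a x s l + 2 ^ l * cs a x (s + l) l' := by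
  unfold cs
  rw [od_add, ← add_assoc]
  ring

theorem cxaff_od_zero (a x : ℤ) (s : ℕ) : od a x s 0 = 0 := by
  simp [od]

theorem cxaff_cs_zero (a : ℕ) (x : ℤ) (s : ℕ) : cs a x s 0 = 0 := by
  simp [cs, od]

theorem cxaff_even (a : ℕ) (x : ℤ) (s : ℕ) (h : par a x s = 0) :
    od a x s 1 = 0 ∧ cs a x s 1 = 0 := by
  have h1 : od a x s 1 = 0 := by simp [od, h]
  refine ⟨h1, ?_⟩
  unfold cs
  rw [h1, Function.iterate_succ_apply']
  unfold par at h
  generalize (T (a : ℤ))^[s] x = y at h ⊢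
  simp only [T, if_pos h, pow_zero, one_mul]
  omega

theorem cxaff_odd {a : ℕ} (ha : Odd a) (x : ℤ) (s : ℕ) (h : par a x s ≠ 0) :
    od a x s 1 = 1 ∧ cs a x s 1 = 1 := by
  have h1 : od a x s 1 = 1 := by simp [od, h, filter_singleton]
  refine ⟨h1, ?_⟩
  unfold cs
  rw [h1, Function.iterate_succ_apply']
  unfold par at h
  generalize (T (a : ℤ))^[s] x = y at h ⊢
  simp only [T, if_neg h, pow_one]
  have ha' : Odd (a : ℤ) := by exact_mod_cast ha
  have h2 : Odd y := Int.odd_iff.mpr (by omega)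
  have h3 : ((a : ℤ) * y) % 2 = 1 := Int.odd_iff.mp (ha'.mul h2)
  omega

/-- Induction on `l`; `cs a x s 1` is `0` or `1` according to the parity. -/
theorem cs_bound {a : ℕ} (ha : Odd a) (ha3 : 3 ≤ a) (x : ℤ) (s l : ℕ) :
    0 ≤ cs a x s l ∧ cs a x s l ≤ (a : ℤ) ^ od a x s l * 2 ^ l ∧ cs a x s l ≤ (a : ℤ) ^ l := by
  have ha3' : (3 : ℤ) ≤ a := by exact_mod_cast ha3
  have key : 0 ≤ cs a x s l ∧ cs a x s l ≤ (a : ℤ) ^ od a x s l * 2 ^ l ∧
      cs a x s l + 2 ^ l ≤ (a : ℤ) ^ l := by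
    induction l with
    | zero => simp [cxaff_cs_zero, cxaff_od_zero]
    | succ l ih =>
      obtain ⟨h0, h1, h2⟩ := ih
      have p2 : (0 : ℤ) < 2 ^ l := by positivity
      have pa : (1 : ℤ) ≤ (a : ℤ) ^ od a x s l := one_le_pow₀ (by omega)
      have pl : (0 : ℤ) < (a : ℤ) ^ l := by positivity
      rw [cs_add, od_add]
      by_cases h : par a x (s + l) = 0
      · obtain ⟨e1, e2⟩ := cxaff_even a x (s + l) h
        rw [e1, e2]
        simp only [pow_zero, one_mul, mul_zero, add_zero, pow_succ]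
        refine ⟨h0, ?_, ?_⟩ <;> nlinarith
      · obtain ⟨e1, e2⟩ := cxaff_odd ha x (s + l) h
        rw [e1, e2]
        simp only [pow_zero, one_mul, mul_one, pow_succ]
        have q1 : (a : ℤ) * cs a x s l ≤ a * ((a : ℤ) ^ od a x s l * 2 ^ l) :=
          mul_le_mul_of_nonneg_left h1 (by omega)
        have q2 : (a : ℤ) * (cs a x s l + 2 ^ l) ≤ a * (a : ℤ) ^ l :=
          mul_le_mul_of_nonneg_left h2 (by omega)
        have q3 : (1 : ℤ) ≤ (a : ℤ) ^ od a x s l * a := by nlinarith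
        have q4 : (2 : ℤ) ^ l ≤ (a : ℤ) ^ od a x s l * a * 2 ^ l := by nlinarith
        have q5 : 3 * (2 : ℤ) ^ l ≤ a * 2 ^ l := by nlinarith
        refine ⟨by positivity, ?_, ?_⟩ <;> nlinarith
  have p2 : (0 : ℤ) < 2 ^ l := by positivity
  exact ⟨key.1, key.2.1, by linarith [key.2.2]⟩

theorem cs_congr {a : ℕ} (ha : Odd a) (x : ℤ) (s s' l : ℕ)
    (h : ∀ j < l, wd a x (s + j) = wd a x (s' + j)) :
    od a x s l = od a x s' l ∧ cs a x s l = cs a x s' l := by
  induction l with
  | zero => simp [cxaff_cs_zero, cxaff_od_zero]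
  | succ l ih =>
    obtain ⟨h1, h2⟩ := ih fun j hj => h j (by omega)
    have hl := h l (by omega)
    simp only [wd, decide_eq_decide] at hl
    rw [cs_add, cs_add, od_add, od_add, h1, h2]
    by_cases hp : par a x (s + l) = 0
    · obtain ⟨e1, e2⟩ := cxaff_even a x (s + l) hp
      obtain ⟨e3, e4⟩ := cxaff_even a x (s' + l) (hl.1 hp)
      rw [e1, e2, e3, e4]
      exact ⟨rfl, rfl⟩
    · obtain ⟨e1, e2⟩ := cxaff_odd ha x (s + l) hp
      obtain ⟨e3, e4⟩ := cxaff_odd ha x (s' + l) (fun h' => hp (hl.2 h'))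
      rw [e1, e2, e3, e4]
      exact ⟨rfl, rfl⟩

/-- Along a run, `D x - γ` is multiplied by `a^κ / 2^π` in each period: induction on `e`. -/
theorem run_rel {a : ℕ} (ha : Odd a) (x : ℤ) (u π e : ℕ)
    (h : PerOn (wd a x) π u (u + (e + 1) * π)) :
    od a x u ((e + 1) * π) = (e + 1) * od a x (u + e * π) π ∧
      2 ^ ((e + 1) * π) * ((2 ^ π - (a : ℤ) ^ od a x (u + e * π) π) *
          (T a)^[u + (e + 1) * π] x - cs a x (u + e * π) π) =
        (a : ℤ) ^ ((e + 1) * od a x (u + e * π) π) *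
          ((2 ^ π - (a : ℤ) ^ od a x (u + e * π) π) * (T a)^[u] x - cs a x (u + e * π) π) := by
  induction e with
  | zero =>
    simp only [zero_add, one_mul, zero_mul, add_zero, true_and]
    unfold cs
    ring
  | succ e ih =>
    have hsub : PerOn (wd a x) π u (u + (e + 1) * π) := by
      intro k hk hk'
      refine h k hk (lt_of_lt_of_le hk' ?_)
      have : (e + 1 + 1) * π = (e + 1) * π + π := by ring
      omega
    obtain ⟨i1, i2⟩ := ih hsub
    have hc := cs_congr ha x (u + (e + 1) * π) (u + e * π) π (by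
      intro j hj
      have e0 : (e + 1) * π = e * π + π := by ring
      have e1 : (e + 1 + 1) * π = e * π + π + π := by ring
      have := h (u + e * π + j) (by omega) (by omega)
      rw [← this]
      congr 1
      omega)
    obtain ⟨c1, c2⟩ := hc
    have e1 : (e + 1 + 1) * π = (e + 1) * π + π := by ring
    have hdef : cs a x (u + (e + 1) * π) π = 2 ^ π * (T a)^[u + (e + 1) * π + π] x -
        (a : ℤ) ^ od a x (u + (e + 1) * π) π * (T a)^[u + (e + 1) * π] x := rfl
    rw [c1, c2] at hdef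
    rw [c1, c2, e1, od_add, i1, c1, ← add_assoc]
    refine ⟨by ring, ?_⟩
    have e2 : (e + 1 + 1) * od a x (u + e * π) π =
        (e + 1) * od a x (u + e * π) π + od a x (u + e * π) π := by ring
    rw [e2, pow_add, pow_add]
    linear_combination (a : ℤ) ^ od a x (u + e * π) π * i2 -
      2 ^ ((e + 1) * π) * (2 ^ π - (a : ℤ) ^ od a x (u + e * π) π) * hdef

end Pool.Agent.Lib.MP_dee342_nt.Gr
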