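import Pool.Agent.Lib.MP_dee342_nt.CxWord

/-!
Periods and breaks.
-/

set_option autoImplicit false

namespace Pool.Agent.Lib.MP_dee342_nt.Gr

open Finset

variable {w : ℕ → Bool}

theorem cxper_fac {m i i' : ℕ} :
    fac w i m = fac w i' m ↔ ∀ k < m, w (i + k) = w (i' + k) :=
  ⟨fun h k hk => congrFun h ⟨k, hk⟩, fun h => funext fun k => h k k.2⟩

theorem cxper_mono {π b e b' e' : ℕ} (h : PerOn w π b e) (hb : b ≤ b') (he : e' ≤ e) :
    PerOn w π b' e' := fun k h1 h2 => h k (by omega) (by omega)

theorem cxper_congr {m i i' π : ℕ} (h : fac w i m = fac w i' m) (hp : PerOn w π i (i + m)) :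
    PerOn w π i' (i' + m) := by
  intro k h1 h2
  obtain ⟨t, rfl⟩ := Nat.exists_eq_add_of_le h1
  rw [Nat.add_assoc, ← cxper_fac.1 h _ (by omega), ← cxper_fac.1 h t (by omega), ← Nat.add_assoc]
  exact hp _ (by omega) (by omega)

theorem cxper_mul {π b e : ℕ} (h : PerOn w π b e) (q k : ℕ) (h1 : b ≤ k) (h2 : k + π * q < e) :
    w (k + π * q) = w k := by
  induction q with
  | zero => rfl
  | succ q ih =>
    rw [Nat.mul_succ] at h2 ⊢
    rw [← Nat.add_assoc, h _ (by omega) (by omega), ih (by omega)]

theorem per_spec (m i : ℕ) : 1 ≤ per w m i ∧ PerOn w (per w m i) i (i + m) := by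
  have h : {π | 1 ≤ π ∧ PerOn w π i (i + m)}.Nonempty :=
    ⟨m + 1, by omega, fun k h1 h2 => by omega⟩
  exact Nat.sInf_mem h

theorem per_le {m i π : ℕ} (h1 : 1 ≤ π) (h : PerOn w π i (i + m)) : per w m i ≤ π := by
  exact Nat.sInf_le ⟨h1, h⟩

theorem per_congr {m i i' : ℕ} (h : fac w i m = fac w i' m) : per w m i = per w m i' := by
  unfold per
  congr 1
  ext π
  exact and_congr_right fun _ => ⟨cxper_congr h, cxper_congr h.symm⟩

/-- A period on a final segment propagates backwards along another period. -/
theorem PerOn.back {π π' b j e : ℕ} (h1 : 1 ≤ π) (h : PerOn w π b e) (h' : PerOn w π' j e)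
    (hj : j + π + π' ≤ e) : PerOn w π' b e := by
  have key : ∀ n k, j ≤ k + n → b ≤ k → k + π' < e → w (k + π') = w k := by
    intro n
    induction n with
    | zero => exact fun k a _ c => h' k a c
    | succ n ih =>
      intro k a1 a2 a3
      by_cases hk : j ≤ k
      · exact h' k hk a3
      · rw [← h k a2 (by omega), ← h (k + π') (by omega) (by omega),
          ← ih (k + π) (by omega) (by omega) (by omega), Nat.add_right_comm]
  exact fun k a c => key j k (by omega) a c

/-- The letter after a factor with period `π` obeys that period as soon as another period `π'`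
covers the last `π + π'` letters and this letter. -/
theorem no_break {π π' b i e f : ℕ} (h1 : 1 ≤ π') (h : PerOn w π i e) (h' : PerOn w π' b f)
    (hi : i + π + π' ≤ e) (hb : b + π + π' ≤ e) (hf : e < f) : w e = w (e - π) := by
  have a1 := h' (e - π') (by omega) (by omega)
  have a2 := h (e - π - π') (by omega) (by omega)
  have a3 := h' (e - π - π') (by omega) (by omega)
  rw [show e - π' + π' = e by omega] at a1
  rw [show e - π - π' + π = e - π' by omega] at a2
  rw [show e - π - π' + π' = e - π by omega] at a3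
  rw [a1, a2, a3]

theorem Brk.spec {L m μ i : ℕ} (hi : i < L) (hm : μ ≤ m) (h : Brk w m μ i) : Spec w L m i := by
  obtain ⟨-, h2, h3, h4⟩ := h
  refine ⟨i - per w m i, by omega, cxper_fac.2 fun k hk => ?_, ?_⟩
  · rw [← h3 (i - per w m i + k) (by omega) (by omega)]
    congr 1
    omega
  · rw [show i - per w m i + m = i + m - per w m i by omega]
    exact h4.symm

/-- A close repetition of a factor lies in a run, which ends at a break. The word has period
`i' - i` on `[i, i' + m)`, and period `π = per w m i ≤ i' - i` on the same interval. Let `j ≥ i'` be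
the first position with `w (j + m) ≠ w (j + m - π)`; it exists below `i' + c` by `Sepa` (compare
the factors at `i'` and `i' - π`, or at `i` and `i + π`). `PerOn.back` gives `per w m j = π`. -/
theorem close_break {m μ c L' i i' : ℕ} (hμ : 4 * μ ≤ m) (hs : Sepa w c L') (hii : i < i')
    (hi : i' ≤ i + μ) (h : fac w i m = fac w i' m) (hL : i' ≤ L') :
    ∃ j, i' ≤ j ∧ j ≤ i' + c ∧ Brk w m μ j ∧ per w m j = per w m i ∧ i + per w m i ≤ i' ∧
      PerOn w (per w m i) i (j + m) := by
  have hd : PerOn w (i' - i) i (i' + m) := by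
    intro k a1 a2
    have := cxper_fac.1 h (k - i) (by omega)
    rw [show i + (k - i) = k by omega, show i' + (k - i) = k + (i' - i) by omega] at this
    exact this.symm
  have hπ := (per_spec (w := w) m i).1
  have hle : per w m i ≤ i' - i := per_le (by omega) (cxper_mono hd le_rfl (by omega))
  have h1 : PerOn w (per w m i) i (i' + m) := by
    refine hd.back (by omega) (j := i') ?_ (by omega)
    rw [per_congr h]
    exact (per_spec m i').2
  have ext : ∀ t, (∀ s < t, w (i' + s + m) = w (i' + s + m - per w m i)) →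
      PerOn w (per w m i) i (i' + t + m) := by
    intro t ht k a1 a2
    by_cases a3 : k + per w m i < i' + m
    · exact h1 k a1 a3
    · have := ht (k + per w m i - (i' + m)) (by omega)
      rw [show i' + (k + per w m i - (i' + m)) + m = k + per w m i by omega,
        Nat.add_sub_cancel] at this
      exact this
  have hex : ∃ t, w (i' + t + m) ≠ w (i' + t + m - per w m i) ∧ t ≤ c := by
    by_contra hcon
    push Not at hcon
    have h2 := ext c fun s hs' => by
      by_contra a
      have := hcon s a
      omega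
    refine hs i (i + per w m i) (by omega) (by omega) (cxper_fac.2 fun k hk => ?_)
    rw [← h2 (i + k) (by omega) (by omega), Nat.add_right_comm]
  classical
  obtain ⟨ht, htc⟩ := Nat.find_spec hex
  have h2 := ext (Nat.find hex) fun s hs' => by
    by_contra a
    exact Nat.find_min hex hs' ⟨a, by omega⟩
  generalize Nat.find hex = t at ht htc h2
  have h3 : per w m (i' + t) ≤ per w m i := per_le hπ (cxper_mono h2 (by omega) le_rfl)
  have h4 : per w m i ≤ per w m (i' + t) :=
    per_le (per_spec m _).1 (cxper_mono (h2.back hπ (per_spec m (i' + t)).2 (by omega)) le_rfl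
      (by omega))
  have h5 := le_antisymm h3 h4
  refine ⟨i' + t, by omega, by omega, ?_, h5, by omega, h2⟩
  unfold Brk
  rw [h5]
  exact ⟨by omega, by omega, cxper_mono h2 (by omega) le_rfl, ht⟩

/-- The structure between two consecutive breaks. Let `π' = per w m τ'`, `b` least with
`PerOn w π' b (τ' + m)`; `no_break` gives `τ + m < b + π + π'`. Let `o ∈ [b, b + π')` be congruent
to `τ'` modulo `π'`. A close repetition `i < i'` in `(τ, o]` gives a break `j ≥ i'` (`close_break`), so
`j ≥ τ'`; `j > τ'` contradicts `no_break` at `τ' + m`, and `j = τ'` gives `b ≤ i` and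
`o < b + π' ≤ i'`. -/
theorem between {L m μ c L' τ τ' : ℕ} (hμ : 4 * μ ≤ m) (hs : Sepa w c L') (h : Brk w m μ τ)
    (h' : Brk w m μ τ') (hlt : τ < τ') (hL : τ' ≤ L')
    (hno : ∀ j, τ < j → j < τ' → ¬ Brk w m μ j) :
    ∃ o, τ + m ≤ o + 2 * μ ∧ o + per w m τ' ≤ τ' ∧ per w m τ' ∣ τ' - o ∧
      PerOn w (per w m τ') o (τ' + m) ∧ fac w o m = fac w τ' m ∧ Far w L m μ τ o := by
  classical
  obtain ⟨a1, a2, a3, a4⟩ := h
  obtain ⟨b1, b2, b3, b4⟩ := h'
  have hπ := (per_spec (w := w) m τ').1
  have hex : ∃ b, PerOn w (per w m τ') b (τ' + m) := ⟨_, b3⟩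
  have hb := Nat.find_spec hex
  have hmin : ∀ b, PerOn w (per w m τ') b (τ' + m) → Nat.find hex ≤ b :=
    fun b hb => Nat.find_min' hex hb
  generalize Nat.find hex = b at hb hmin
  have c1 := hmin _ b3
  have c2 : τ + m < b + per w m τ + per w m τ' := by
    by_contra a
    exact a4 (no_break hπ a3 hb (by omega) (by omega) (by omega))
  have c3 := Nat.mod_lt (τ' - b) hπ
  have c4 := Nat.mod_add_div (τ' - b) (per w m τ')
  have c5 : 0 < (τ' - b) / per w m τ' := Nat.div_pos (by omega) hπ
  have c6 : per w m τ' ≤ per w m τ' * ((τ' - b) / per w m τ') := Nat.le_mul_of_pos_right _ c5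
  generalize (τ' - b) % per w m τ' = r at c3 c4
  generalize (τ' - b) / per w m τ' = q at c4 c6
  refine ⟨b + r, by omega, by omega, ⟨q, by omega⟩, cxper_mono hb (by omega) le_rfl,
    cxper_fac.2 fun k hk => ?_, fun i i' d1 d2 d3 d4 _ d5 => ?_⟩
  · rw [← cxper_mul hb q (b + r + k) (by omega) (by omega)]
    congr 1
    omega
  · obtain ⟨j, e1, -, e3, e4, e5, e6⟩ := close_break hμ hs d2 d4 d5 (by omega)
    have e7 := e3.1
    rcases lt_trichotomy j τ' with hj | hj | hj
    · exact hno j (by omega) hj e3
    · subst hj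
      rw [← e4] at e5 e6
      have := hmin _ e6
      omega
    · exact b4 (no_break (per_spec m i).1 b3 e6 (by omega) (by omega) (by omega))

end Pool.Agent.Lib.MP_dee342_nt.Gr
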