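import Pool.Agent.Lib.MP_dee342_nt.CxFar
import Pool.Agent.Lib.MP_dee342_nt.CxPer

/-!
The chain of breaks of a word of low complexity.
-/

set_option autoImplicit false

namespace Pool.Agent.Lib.MP_dee342_nt.Gr

open Finset

variable {w : ℕ → Bool}

theorem cxchain_inj {α : Type} (s : Finset α) (N : ℕ) (h : s.card ≤ N) :
    ∃ f : α → Fin (N + 1), ∀ x ∈ s, ∀ y ∈ s, f x = f y → x = y := by
  classical
  refine ⟨fun x => if hx : x ∈ s then Fin.castLE (h.trans (Nat.le_succ N)) (s.equivFin ⟨x, hx⟩)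
    else 0, fun x hx y hy e => ?_⟩
  simp only [dif_pos hx, dif_pos hy, Fin.castLE_inj, EmbeddingLike.apply_eq_iff_eq,
    Subtype.mk.injEq] at e
  exact e

theorem cxchain_list (J : ℕ) : ∃ (K : ℕ) (g : List Bool → Fin K),
    ∀ x y : List Bool, x.length ≤ J → y.length ≤ J → g x = g y → x = y := by
  obtain ⟨g, hg⟩ := cxchain_inj (List.finite_length_le Bool J).toFinset _ le_rfl
  exact ⟨_, g, fun x y hx hy e => hg x (by simpa using hx) y (by simpa using hy) e⟩

theorem cxchain_len (L m i l : ℕ) :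
    (code w L m i l).length ≤ ((Ioc i (i + l)).filter fun p => Spec w L m p).card + 1 := by
  unfold code
  rw [List.length_map, ← List.toFinset_card_of_nodup ((List.nodup_range' (s := i) (n := l)).filter _)]
  refine le_trans (card_le_card ?_) (card_insert_le i _)
  intro p hp
  simp only [List.mem_toFinset, List.mem_filter, List.mem_range'_1, decide_eq_true_eq] at hp
  simp only [mem_insert, mem_filter, mem_Ioc]
  by_cases h : p = i
  · exact Or.inl h
  · exact Or.inr ⟨⟨by omega, by omega⟩, hp.2⟩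

theorem cxchain_seq (P : ℕ → Prop) (H R : ℕ)
    (h : ∀ α ≤ R * H, ∃ j, α < j ∧ j ≤ α + H ∧ P j) :
    ∃ τ : ℕ → ℕ, (∀ k ≤ R, P (τ k) ∧ τ k ≤ (k + 1) * H) ∧
      ∀ k < R, τ k < τ (k + 1) ∧ τ (k + 1) ≤ τ k + H ∧ ∀ j, τ k < j → j < τ (k + 1) → ¬ P j := by
  let nx : ℕ → ℕ := fun α => sInf {j | α < j ∧ P j}
  have hnx : ∀ α ≤ R * H, α < nx α ∧ P (nx α) ∧ nx α ≤ α + H ∧
      ∀ j, α < j → j < nx α → ¬ P j := by
    intro α hα
    obtain ⟨j, h1, h2, h3⟩ := h α hα
    have hm : nx α ∈ {j | α < j ∧ P j} := Nat.sInf_mem ⟨j, h1, h3⟩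
    have hle : nx α ≤ j := Nat.sInf_le (s := {j | α < j ∧ P j}) ⟨h1, h3⟩
    refine ⟨hm.1, hm.2, hle.trans h2, fun j' h4 h5 h6 => ?_⟩
    have : nx α ≤ j' := Nat.sInf_le (s := {j | α < j ∧ P j}) ⟨h4, h6⟩
    omega
  have key : ∀ k ≤ R, P (nx^[k + 1] 0) ∧ nx^[k + 1] 0 ≤ (k + 1) * H := by
    intro k
    induction k with
    | zero =>
      intro _
      obtain ⟨_, h2, h3, _⟩ := hnx 0 (Nat.zero_le _)
      exact ⟨h2, by simpa using h3⟩
    | succ k ih =>
      intro hk
      have h0 := (ih (by omega)).2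
      obtain ⟨_, h2, h3, _⟩ := hnx _ (h0.trans (Nat.mul_le_mul_right H hk))
      rw [Function.iterate_succ_apply' nx (k + 1)]
      refine ⟨h2, h3.trans ?_⟩
      rw [add_mul (k + 1) 1, one_mul]
      omega
  refine ⟨fun k => nx^[k + 1] 0, key, fun k hk => ?_⟩
  have h0 := (key k hk.le).2
  obtain ⟨h1, _, h3, h4⟩ := hnx _ (h0.trans (Nat.mul_le_mul_right H hk))
  simp only [Function.iterate_succ_apply' nx (k + 1)]
  exact ⟨h1, h3, h4⟩

/-- The chain. `t k` is the position of the `k`-th break (`τ k + m`), `π k` the period that breaks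
there, `u k` a position in the next run. With `G` from `not_far` and `close_break`, there is a break
in `(α, α + (G + c) n]` for each `α`; let `τ 0` be one of them for `α = 0` and `τ (k+1)` the least
break after `τ k`. With `o k` from `between` (`o k < τ k + G n` by `not_far`), put
`u k = o k + m - (m / 2 / π (k+1)) * π (k+1)`. The label of `k` encodes the factor at `τ k` (an
element of `spF`) and `code w L m (τ k) (o k - τ k)`, of length at most `3 C (2 E G + 1) + 1`; equal
labels give equal words on `[τ, o + m)` by `sim`. The label `vl k` encodes the factor at `τ k`. -/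
theorem chain (C c E : ℕ) (hE : 16 ≤ E) : ∃ K G : ℕ, ∀ R : ℕ, ∃ R' : ℕ, ∀ n ≥ 6,
    ∀ (w : ℕ → Bool) (L L' : ℕ), R' * n ≤ L → R' * n ≤ L' → cnt w L n ≤ C * n →
      Sepa w (c * n) L' →
      ∃ (t u π : ℕ → ℕ) (lab : ℕ → Fin K) (vl : ℕ → Fin (3 * C + 1)),
        (∀ k ≤ R, 1 ≤ π k ∧ E * π k ≤ n ∧ π k ≤ t k ∧ t k ≤ R' * n ∧
          w (t k) ≠ w (t k - π k)) ∧
        (∀ k < R, t k ≤ u k ∧ n + 8 * u k ≤ 8 * t (k + 1) ∧ t (k + 1) ≤ t k + G * n ∧
          u k + π (k + 1) ≤ t (k + 1) ∧ π (k + 1) ∣ t (k + 1) - u k ∧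
          PerOn w (π (k + 1)) (u k) (t (k + 1))) ∧
        (∀ k ≤ R, ∀ k' ≤ R, vl k = vl k' → π k = π k' ∧
          ∀ j < π k, w (t k - π k + j) = w (t k' - π k' + j)) ∧
        ∀ k < R, ∀ k' < R, lab k = lab k' → vl k = vl k' ∧ vl (k + 1) = vl (k' + 1) ∧
          u k - t k = u k' - t k' ∧ ∀ j < u k - t k, w (t k + j) = w (t k' + j) := by
  obtain ⟨G, hG⟩ := not_far C c E (by omega)
  obtain ⟨K, g, hg⟩ := cxchain_list (3 * C * (2 * E * (G + c) + 1) + 1)
  refine ⟨(3 * C + 1) * K, G + c, fun R => ⟨(R + 1) * (G + c) + 1, ?_⟩⟩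
  intro n hn w L L' hL hL' hcnt hs
  obtain ⟨m, hnm, hmn, hsp, hcm⟩ := exists_scale (w := w) L n C hn hcnt
  obtain ⟨f, hf⟩ := cxchain_inj (spF w L m) (3 * C) hsp
  have hEμ : E * (m / E) ≤ m := Nat.mul_div_le m E
  have hμE : m < E * (m / E + 1) := Nat.lt_mul_div_succ m (by omega)
  have h16 : 16 * (m / E) ≤ m := (Nat.mul_le_mul_right _ hE).trans hEμ
  have hRn : ((R + 1) * (G + c) + 1) * n = R * ((G + c) * n) + G * n + c * n + n := by ring
  have hHn : (G + c) * n = G * n + c * n := add_mul _ _ _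
  obtain ⟨τ, hτ, hτ'⟩ := cxchain_seq (fun j => Brk w m (m / E) j) ((G + c) * n) R (by
    intro α hα
    have h1 := hG w n m L L' α (by omega) hnm hsp hcm hs (by omega) (by omega)
    unfold Far at h1
    push Not at h1
    obtain ⟨i, i', h2, h3, h4, h5, _, h7⟩ := h1
    obtain ⟨j, h8, h9, h10, _⟩ := close_break (μ := m / E) (by omega) hs h3 h5 h7 (by omega)
    exact ⟨j, by omega, by omega, h10⟩)
  have hτL : ∀ k ≤ R, τ k + n ≤ ((R + 1) * (G + c) + 1) * n := by
    intro k hk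
    have h1 := (hτ k hk).2
    have h2 : (k + 1) * ((G + c) * n) ≤ (R + 1) * ((G + c) * n) :=
      Nat.mul_le_mul_right _ (by omega)
    have h3 : ((R + 1) * (G + c) + 1) * n = (R + 1) * ((G + c) * n) + n := by ring
    omega
  have hspec : ∀ k ≤ R, Spec w L m (τ k) := fun k hk =>
    Brk.spec (by have := hτL k hk; omega) (by omega) (hτ k hk).1
  have hmem : ∀ k ≤ R, fac w (τ k) m ∈ spF w L m := fun k hk =>
    mem_image.2 ⟨τ k, mem_filter.2 ⟨mem_range.2 (by have := hτL k hk; omega), hspec k hk⟩, rfl⟩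
  have ho : ∀ k, ∃ o, k < R → (τ k + m ≤ o + 2 * (m / E) ∧ o + per w m (τ (k + 1)) ≤ τ (k + 1) ∧
      per w m (τ (k + 1)) ∣ τ (k + 1) - o ∧ PerOn w (per w m (τ (k + 1))) o (τ (k + 1) + m) ∧
      fac w o m = fac w (τ (k + 1)) m ∧ Far w L m (m / E) (τ k) o) := by
    intro k
    by_cases hk : k < R
    · obtain ⟨o, h⟩ := between (L := L) (μ := m / E) (by omega) hs (hτ k hk.le).1
        (hτ (k + 1) hk).1 (hτ' k hk).1 (by have := hτL (k + 1) hk; omega) (hτ' k hk).2.2
      exact ⟨o, fun _ => h⟩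
    · exact ⟨0, fun h => absurd h hk⟩
  choose o ho using ho
  have hs1 : ∀ p : ℕ, m / 2 / p * p ≤ m / 2 := fun p => Nat.div_mul_le_self _ _
  have hs2 : ∀ p : ℕ, 1 ≤ p → m / 2 < m / 2 / p * p + p := fun p hp =>
    Nat.lt_div_mul_add hp
  have hlen : ∀ k < R, (code w L m (τ k) (o k - τ k)).length ≤
      3 * C * (2 * E * (G + c) + 1) + 1 := by
    intro k hk
    obtain ⟨h1, h2, _, _, _, h6⟩ := ho k hk
    have h7 := hτL (k + 1) hk
    have h8 := (hτ' k hk).2.1
    refine (cxchain_len L m _ _).trans (Nat.add_le_add_right ?_ 1)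
    rw [show τ k + (o k - τ k) = o k by omega]
    refine (card_spec_le (by omega) h6).trans (Nat.mul_le_mul hsp (Nat.add_le_add_right ?_ 1))
    refine Nat.div_le_of_le_mul ?_
    calc o k - τ k ≤ (G + c) * n := by omega
      _ ≤ (G + c) * (2 * (E * (m / E + 1))) := Nat.mul_le_mul_left _ (by omega)
      _ = (m / E + 1) * (2 * E * (G + c)) := by ring
  refine ⟨fun k => τ k + m, fun k => o k + m - m / 2 / per w m (τ (k + 1)) * per w m (τ (k + 1)),
    fun k => per w m (τ k),
    fun k => finProdFinEquiv (f (fac w (τ k) m), g (code w L m (τ k) (o k - τ k))),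
    fun k => f (fac w (τ k) m), ?_, ?_, ?_, ?_⟩
  · intro k hk
    beta_reduce
    obtain ⟨h1, h2, _, h4⟩ := (hτ k hk).1
    have h5 := hτL k hk
    have h6 : E * per w m (τ k) ≤ E * (m / E) := Nat.mul_le_mul_left _ h1
    exact ⟨(per_spec m _).1, by omega, by omega, by omega, h4⟩
  · intro k hk
    beta_reduce
    obtain ⟨h1, h2, h3, h4, _, _⟩ := ho k hk
    have h5 := hs1 (per w m (τ (k + 1)))
    have h6 := hs2 (per w m (τ (k + 1))) (per_spec m _).1
    have h8 := (hτ' k hk).2.1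
    refine ⟨by omega, by omega, by omega, by omega, ?_, ?_⟩
    · have e : τ (k + 1) + m - (o k + m - m / 2 / per w m (τ (k + 1)) * per w m (τ (k + 1))) =
          τ (k + 1) - o k + m / 2 / per w m (τ (k + 1)) * per w m (τ (k + 1)) := by omega
      rw [e]
      exact dvd_add h3 (Dvd.intro_left _ rfl)
    · exact fun j hj hj' => h4 j (by omega) hj'
  · intro k hk k' hk'
    beta_reduce
    intro e
    have h1 := hf _ (hmem k hk) _ (hmem k' hk') e
    have h2 : per w m (τ k) = per w m (τ k') := per_congr h1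
    refine ⟨h2, fun j hj => ?_⟩
    have h3 := (hτ k hk).1.1
    have h4 := congrFun h1 ⟨m - per w m (τ k) + j, by omega⟩
    simp only [fac] at h4
    rw [show τ k + m - per w m (τ k) + j = τ k + (m - per w m (τ k) + j) by omega,
      show τ k' + m - per w m (τ k') + j = τ k' + (m - per w m (τ k) + j) by omega]
    exact h4
  · intro k hk k' hk'
    beta_reduce
    intro e
    simp only [EmbeddingLike.apply_eq_iff_eq, Prod.mk.injEq] at e
    have h1 := hf _ (hmem k hk.le) _ (hmem k' hk'.le) e.1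
    have h2 := hg _ _ (hlen k hk) (hlen k' hk') e.2
    obtain ⟨a1, a2, _, _, a5, _⟩ := ho k hk
    obtain ⟨b1, b2, _, _, b5, _⟩ := ho k' hk'
    have a7 := hτL (k + 1) hk
    have b7 := hτL (k' + 1) hk'
    have ea : τ k + (o k - τ k) = o k := by omega
    have eb : τ k' + (o k' - τ k') = o k' := by omega
    obtain ⟨h3, h4⟩ := sim (w := w) (L := L) (m := m) (o k - τ k) (o k' - τ k') (τ k) (τ k')
      (by omega) (by omega) h1 h2 (Or.inr ⟨by
        rw [ea]
        exact Spec.congr (by omega) a5.symm (hspec (k + 1) hk), by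
        rw [eb]
        exact Spec.congr (by omega) b5.symm (hspec (k' + 1) hk')⟩)
    have h5 : fac w (τ (k + 1)) m = fac w (τ (k' + 1)) m := by
      rw [← a5, ← b5]
      funext j
      have h6 := h4 (o k - τ k + j) (by have := j.2; omega)
      simp only [fac]
      rw [show o k + j = τ k + (o k - τ k + j) by omega,
        show o k' + j = τ k' + (o k - τ k + j) by omega]
      exact h6
    have h7 : per w m (τ (k + 1)) = per w m (τ (k' + 1)) := per_congr h5
    have h8 := hs1 (per w m (τ (k + 1)))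
    refine ⟨e.1, by rw [h5], ?_, fun j hj => ?_⟩
    · rw [← h7]
      omega
    · rw [add_assoc, add_assoc]
      exact h4 (m + j) (by omega)

end Pool.Agent.Lib.MP_dee342_nt.Gr
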