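import Pool.Agent.Lib.MP_dee342_nt.CxWord

/-!
Long intervals contain close repetitions.
-/

set_option autoImplicit false

namespace Pool.Agent.Lib.MP_dee342_nt.Gr

open Finset

variable {w : ℕ → Bool}

theorem cxfar_mono {L m μ α β α' β' : ℕ} (h : Far w L m μ α β) (hα : α ≤ α') (hβ : β' ≤ β) :
    Far w L m μ α' β' := fun i i' h1 h2 h3 h4 h5 => h i i' (by omega) h2 (by omega) h4 h5

theorem cxfar_length (L m p l : ℕ) :
    (code w L m p l).length ≤ 1 + ((Ioc p (p + l)).filter fun i => Spec w L m i).card := by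
  rw [code, List.length_map]
  have h1 : ((List.range' p l).filter fun i => decide (Spec w L m i)).Nodup :=
    (List.nodup_range' (s := p) (n := l)).filter _
  rw [← List.toFinset_card_of_nodup h1, add_comm]
  refine le_trans (card_le_card (t := insert p _) fun i hi => ?_) (card_insert_le _ _)
  simp only [List.toFinset_filter, mem_filter, List.mem_toFinset, List.mem_range'_1,
    decide_eq_true_eq, mem_insert, mem_Ioc] at hi ⊢
  by_cases h : i = p
  · exact Or.inl h
  · exact Or.inr ⟨⟨by omega, by omega⟩, hi.2⟩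

theorem cxfar_div {n m E c : ℕ} (hE : 1 ≤ E) (h : n ≤ 2 * m) :
    c * n / (m / E + 1) ≤ 2 * E * c := by
  have h1 : m < E * (m / E + 1) := Nat.lt_mul_div_succ m hE
  refine Nat.div_le_of_le_mul ?_
  nlinarith

theorem cxfar_code {L m n E c C p : ℕ} (hE : 1 ≤ E) (hn : n ≤ 2 * m)
    (hq : (spF w L m).card ≤ 3 * C) (hL : p + c * n < L) (h : Far w L m (m / E) p (p + c * n)) :
    (code w L m p (c * n)).length ≤ 3 * C * (2 * E * c + 1) + 1 := by
  have h1 := cxfar_length (w := w) L m p (c * n)
  have h2 := card_spec_le hL h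
  rw [Nat.add_sub_cancel_left] at h2
  have h3 := Nat.mul_le_mul hq (Nat.succ_le_succ (cxfar_div (c := c) hE hn))
  simp only [Nat.succ_eq_add_one] at h3
  omega

/-- A long interval contains a close repetition. Otherwise pick a special position in each of
`K₁ + 1` consecutive blocks of length `(C + c + 1) n` (`exists_spec`); the pair formed by its
factor and `code w L m p (c n)` (a list of length at most `J = 3 C (2 E c + 1) + 1` by
`card_spec_le`, as `n ≤ 2 m` and `m < E (μ + 1)`) takes at most `K₁ = 3 C * card {l | length l ≤ J}`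
values (`List.finite_length_le`); two equal pairs contradict `Sepa` by `sim`. -/
theorem not_far (C c E : ℕ) (hE : 1 ≤ E) : ∃ G : ℕ, ∀ (w : ℕ → Bool) (n m L L' α : ℕ), 1 ≤ n →
    n ≤ 2 * m → (spF w L m).card ≤ 3 * C → cnt w L m ≤ C * n → Sepa w (c * n) L' →
    α + G * n < L → α + G * n ≤ L' → ¬ Far w L m (m / E) α (α + G * n) := by
  classical
  let S := (List.finite_length_le Bool (3 * C * (2 * E * c + 1) + 1)).toFinset
  refine ⟨(3 * C * S.card + 1) * (C + c + 1) + c + 1,
    fun w n m L L' α hn hm hq hcnt hs hL hL' hfar => ?_⟩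
  set K := 3 * C * S.card with hK
  have hb : ∀ k, k ≤ K → α + 1 + k * ((C + c + 1) * n) + C * n + c * n + c * n ≤
      α + ((K + 1) * (C + c + 1) + c + 1) * n := fun k hk => by
    have := Nat.mul_le_mul_right ((C + c + 1) * n) hk
    nlinarith
  have hex : ∀ k : Fin (K + 1), ∃ p, α + 1 + k * ((C + c + 1) * n) ≤ p ∧
      p ≤ α + 1 + k * ((C + c + 1) * n) + C * n + c * n ∧ Spec w L m p := fun k => by
    have := hb k (Nat.lt_succ_iff.1 k.2)
    exact exists_spec (by omega) hcnt hs (by omega) (by omega)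
  choose p hp1 hp2 hp3 using hex
  have hp4 : ∀ k, p k + c * n ≤ α + ((K + 1) * (C + c + 1) + c + 1) * n := fun k => by
    have := hb k (Nat.lt_succ_iff.1 k.2)
    have := hp2 k
    omega
  have hlt : ∀ k k' : Fin (K + 1), k < k' → p k < p k' := fun k k' h => by
    have h1 : (k : ℕ) + 1 ≤ k' := h
    have h2 := Nat.mul_le_mul_right ((C + c + 1) * n) h1
    have h3 := hp2 k
    have h4 := hp1 k'
    nlinarith
  obtain ⟨k, -, k', -, hne, heq⟩ := exists_ne_map_eq_of_card_lt_of_maps_to
    (s := (univ : Finset (Fin (K + 1)))) (t := spF w L m ×ˢ S)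
    (f := fun k => (fac w (p k) m, code w L m (p k) (c * n)))
    (by
      rw [card_product, card_univ, Fintype.card_fin]
      exact Nat.lt_succ_of_le (Nat.mul_le_mul_right _ hq))
    (fun k _ => by
      have h1 := hp4 k
      have h2 := hp1 k
      refine mem_coe.2 (mem_product.2 ⟨mem_image.2 ⟨p k, mem_filter.2
        ⟨mem_range.2 (by omega), hp3 k⟩, rfl⟩, ?_⟩)
      simp only [S, Set.Finite.mem_toFinset, Set.mem_ofPred_eq]
      exact cxfar_code hE hm hq (by omega) (cxfar_mono hfar (by omega) h1))
  have key : ∀ k k' : Fin (K + 1), k < k' → fac w (p k) m = fac w (p k') m →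
      code w L m (p k) (c * n) = code w L m (p k') (c * n) → False := fun k k' h h1 h2 => by
    have h3 := hp4 k
    have h4 := hp4 k'
    refine hs (p k) (p k') (hlt k k' h) (by omega) (funext fun j => ?_)
    exact (sim _ _ _ _ (by omega) (by omega) h1 h2 (Or.inl rfl)).2 j (by have := j.2; omega)
  rcases lt_or_gt_of_ne hne with h | h
  · exact key k k' h (congrArg Prod.fst heq) (congrArg Prod.snd heq)
  · exact key k' k h (congrArg Prod.fst heq).symm (congrArg Prod.snd heq).symm

end Pool.Agent.Lib.MP_dee342_nt.Gr
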