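import Mathlib
import Pool.Agent.Lib.Common.LogApprox.Main
import Pool.Agent.Lib.MP_dee342_nt.MinBound

/-!
Separation of integers by their parity words, polynomial bound for the least element of a cycle,
and the lower bound for the factor complexity of the parity word of a cycle.
-/

set_option autoImplicit false

namespace Pool.Agent.Lib.MP_dee342_nt

open Real Finset

theorem sep {a : ℤ} (ha : Odd a) (n : ℕ) : ∀ x y : ℤ,
    (∀ j < n, (T a)^[j] x % 2 = (T a)^[j] y % 2) → (2 : ℤ) ^ n ∣ x - y := by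
  induction n with
  | zero => simp
  | succ n ih =>
    intro x y h
    have h0 : x % 2 = y % 2 := h 0 (by omega)
    have h1 := ih (T a x) (T a y) fun j hj => by
      simpa only [Function.iterate_succ_apply] using h (j + 1) (by omega)
    have h2 : (2 : ℤ) ^ (n + 1) ∣ 2 * (T a x - T a y) := by
      rw [pow_succ']; exact mul_dvd_mul_left _ h1
    by_cases hx : x % 2 = 0
    · rwa [mul_sub, two_mul_T_even hx, two_mul_T_even (h0 ▸ hx)] at h2
    · rw [mul_sub, two_mul_T_odd ha hx, two_mul_T_odd ha (h0 ▸ hx),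
        show a * x + 1 - (a * y + 1) = a * (x - y) by ring] at h2
      exact (Int.isCoprime_two_left.mpr ha).pow_left.dvd_of_dvd_mul_left h2

theorem eq_of_parities {a : ℤ} (ha : Odd a) (n : ℕ) (x y : ℤ)
    (h : ∀ j < n, (T a)^[j] x % 2 = (T a)^[j] y % 2) (hx : 2 * |(x : ℝ)| < 2 ^ n)
    (hy : 2 * |(y : ℝ)| < 2 ^ n) : x = y := by
  have hx' : 2 * |x| < 2 ^ n := by exact_mod_cast hx
  have hy' : 2 * |y| < 2 ^ n := by exact_mod_cast hy
  have h1 := Int.eq_zero_of_abs_lt_dvd (sep ha n x y h) (by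
    have := abs_sub x y
    omega)
  omega

/-- The logarithmic form of the cycle equation. -/
theorem abs_log_sum_le (a : ℕ) (ha : Odd a) (ha3 : 3 ≤ a) (x : ℤ) (n : ℕ) (X : ℝ) (hX : 0 < X)
    (h : ∀ i < n, X ≤ |(((T a)^[i] x : ℤ) : ℝ)|) :
    |n * log 2 + log |(((T a)^[n] x : ℤ) : ℝ)| - log |(x : ℝ)| -
      ((range n).filter fun i => ¬ ((T a)^[i] x % 2 = 0)).card * log a| ≤ n / X := by
  have hsum : n * log 2 + log |(((T a)^[n] x : ℤ) : ℝ)| - log |(x : ℝ)| -
      ((range n).filter fun i => ¬ ((T a)^[i] x % 2 = 0)).card * log a = ∑ i ∈ range n,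
      (log 2 + log |((T a ((T a)^[i] x) : ℤ) : ℝ)| - log |(((T a)^[i] x : ℤ) : ℝ)| -
        (if (T a)^[i] x % 2 = 0 then 0 else log a)) := by
    have h3 := sum_range_sub (fun i => log |(((T a)^[i] x : ℤ) : ℝ)|) n
    simp only [Function.iterate_succ_apply', Function.iterate_zero, id] at h3
    simp only [add_sub_assoc, sum_sub_distrib, sum_add_distrib] at h3 ⊢
    rw [h3, sum_ite]
    simp
  rw [hsum]
  refine (abs_sum_le_sum_abs _ _).trans ?_
  refine (sum_le_sum (g := fun _ => 1 / X) fun i hi => ?_).trans (by simp [div_eq_mul_inv])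
  have h1 := h i (mem_range.mp hi)
  refine (log_step a ha ha3 _ ?_).trans (one_div_le_one_div_of_le hX h1)
  intro h0
  rw [h0] at h1
  simp at h1
  linarith

/-- The measure of linear independence of `log 2` and `log a`. -/
def LogMeasure (a μ : ℕ) : Prop :=
  ∃ c : ℝ, 0 < c ∧ ∀ p k : ℕ, 0 < p → c / (p : ℝ) ^ μ ≤ |p * log 2 - k * log a|

theorem logMeasure_three : LogMeasure 3 12 := by
  simpa [LogMeasure] using Common.LogApprox.log_two_three

theorem logMeasure_five : LogMeasure 5 24 := by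
  simpa [LogMeasure] using Common.LogApprox.log_two_five

theorem min_poly (a μ : ℕ) (ha : Odd a) (ha3 : 3 ≤ a) (h : LogMeasure a μ) :
    ∃ C : ℝ, 1 ≤ C ∧ ∀ (x : ℤ) (p : ℕ), 0 < p → (T a)^[p] x = x → ∀ X : ℝ,
      (∀ i < p, X ≤ |(((T a)^[i] x : ℤ) : ℝ)|) → X ≤ C * p ^ (μ + 1) := by
  obtain ⟨c, hc, h⟩ := h
  refine ⟨1 / c + 1, le_add_of_nonneg_left (by positivity), fun x p hp hx X hX => ?_⟩
  rcases le_or_gt X 0 with h0 | h0
  · exact h0.trans (by positivity)
  have h1 := abs_log_sum_le a ha ha3 x p X h0 hX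
  rw [hx, add_sub_cancel_right] at h1
  have h2 := (h p _ hp).trans h1
  have hp' : (0 : ℝ) < p := by exact_mod_cast hp
  rw [div_le_div_iff₀ (by positivity) h0] at h2
  calc X = 1 / c * (c * X) := by field_simp
    _ ≤ 1 / c * (p * p ^ μ) := by gcongr
    _ ≤ (1 / c + 1) * p ^ (μ + 1) := by rw [pow_succ']; gcongr; linarith

theorem abs_T_le (a : ℕ) (ha : Odd a) (ha3 : 3 ≤ a) (y : ℤ) :
    |((T a y : ℤ) : ℝ)| + 1 ≤ a / 2 * (|(y : ℝ)| + 1) ∧
      |(y : ℝ)| + 1 ≤ 2 * (|((T a y : ℤ) : ℝ)| + 1) := by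
  have ha' : (3 : ℝ) ≤ a := by exact_mod_cast ha3
  have h0 := abs_nonneg (y : ℝ)
  by_cases h : y % 2 = 0
  · have h1 : (2 * T a y : ℝ) = y := by exact_mod_cast two_mul_T_even h
    have h2 : |(y : ℝ)| = 2 * |((T a y : ℤ) : ℝ)| := by rw [← h1, abs_mul]; simp
    constructor <;> nlinarith
  · have h1 : (2 * T a y : ℝ) = a * y + 1 := by
      exact_mod_cast two_mul_T_odd (a := (a : ℤ)) (by exact_mod_cast ha) h
    have h2 : 2 * |((T a y : ℤ) : ℝ)| = |(a * y + 1 : ℝ)| := by rw [← h1, abs_mul]; simp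
    have h3 : |(a * y : ℝ)| = a * |(y : ℝ)| := by rw [abs_mul, abs_of_pos (by linarith)]
    have h4 := abs_add_le (a * y : ℝ) 1
    have h5 := abs_sub (a * y + 1 : ℝ) 1
    rw [add_sub_cancel_right] at h5
    rw [abs_one] at h4 h5
    constructor <;> nlinarith

theorem abs_iterate_le (a : ℕ) (ha : Odd a) (ha3 : 3 ≤ a) (j : ℕ) (y : ℤ) :
    |(((T a)^[j] y : ℤ) : ℝ)| + 1 ≤ (a / 2) ^ j * (|(y : ℝ)| + 1) ∧
      |(y : ℝ)| + 1 ≤ 2 ^ j * (|(((T a)^[j] y : ℤ) : ℝ)| + 1) := by
  induction j with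
  | zero => simp
  | succ j ih =>
    rw [Function.iterate_succ_apply', pow_succ', pow_succ, mul_assoc, mul_assoc]
    obtain ⟨h1, h2⟩ := abs_T_le a ha ha3 ((T a)^[j] y)
    exact ⟨h1.trans (mul_le_mul_of_nonneg_left ih.1 (by positivity)),
      ih.2.trans (mul_le_mul_of_nonneg_left h2 (by positivity))⟩

theorem le_complexity {a : ℤ} (ha : Odd a) (x : ℤ) (n i0 s : ℕ)
    (hx : x ∈ Function.periodicPts (T a)) (hs : s ≤ Function.minimalPeriod (T a) x)
    (h : ∀ j < s, 2 * |(((T a)^[j + i0] x : ℤ) : ℝ)| < 2 ^ n) : s ≤ complexity a x n := by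
  have hfin : {w | ∃ i : ℕ, w = parWord a n ((T a)^[i] x)}.Finite := by
    refine (Set.Finite.pi' (t := fun _ : Fin n => ({0, 1} : Set ℤ)) fun _ => by simp).subset ?_
    rintro w ⟨i, rfl⟩ j
    simpa [parWord] using Int.emod_two_eq_zero_or_one _
  have h1 := Set.ncard_le_ncard_of_injOn (s := Set.Iio s)
    (t := {w | ∃ i : ℕ, w = parWord a n ((T a)^[i] x)})
    (fun j => parWord a n ((T a)^[j + i0] x)) (fun j _ => ⟨j + i0, rfl⟩) ?_ hfin
  · simpa [complexity] using h1
  · intro j hj j' hj' hw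
    have h2 := eq_of_parities ha n _ _ (fun i hi => congrFun hw ⟨i, hi⟩) (h j hj) (h j' hj')
    rw [Function.iterate_add_apply, Function.iterate_add_apply] at h2
    rw [← Function.minimalPeriod_apply_iterate hx i0] at hs
    exact Function.iterate_injOn_Iio_minimalPeriod (lt_of_lt_of_le hj hs) (lt_of_lt_of_le hj' hs) h2

/-- Lower bound for the factor complexity of the parity word of a cycle. -/
theorem complexity_bound (a μ : ℕ) (ha : Odd a) (ha3 : 3 ≤ a) (h : LogMeasure a μ) :
    ∃ C : ℝ, ∀ x ∈ Function.periodicPts (T a), ∀ n : ℕ,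
      min (Function.minimalPeriod (T a) x : ℝ) (log a / log (a / 2) *
        (n - (μ + 1) * logb 2 (Function.minimalPeriod (T a) x) - C)) ≤ complexity a x n := by
  obtain ⟨C, hC, h⟩ := min_poly a μ ha ha3 h
  refine ⟨logb 2 (C + 1) + 3, fun x hx n => ?_⟩
  set p := Function.minimalPeriod (T a) x with hp
  have hp0 : 0 < p := Function.minimalPeriod_pos_of_mem_periodicPts hx
  have hpx : (T a)^[p] x = x := Function.isPeriodicPt_minimalPeriod _ _
  have hp' : (1 : ℝ) ≤ p := by exact_mod_cast hp0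
  have ha' : (3 : ℝ) ≤ a := by exact_mod_cast ha3
  obtain ⟨i0, -, hi0⟩ := exists_min_image (range p) (fun i => |(((T a)^[i] x : ℤ) : ℝ)|)
    ⟨0, mem_range.mpr hp0⟩
  have h1 := h x p hp0 hpx _ fun i hi => hi0 i (mem_range.mpr hi)
  have h2 : |(((T a)^[i0] x : ℤ) : ℝ)| + 1 ≤ (C + 1) * p ^ (μ + 1) := by
    have : (1 : ℝ) ≤ p ^ (μ + 1) := one_le_pow₀ hp'
    linarith
  set m : ℝ := n - (μ + 1) * logb 2 p - logb 2 (C + 1) - 1 with hm
  have hl2 : 0 < log (2 : ℝ) := log_pos (by norm_num)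
  have hla : 0 < log (a / 2 : ℝ) := log_pos (by linarith)
  have hlog : log a / log (a / 2 : ℝ) = 1 + log 2 / log (a / 2) := by
    rw [log_div (by linarith) (by norm_num)] at hla ⊢
    field_simp
    ring
  have hr : 0 < log 2 / log (a / 2 : ℝ) := by positivity
  rcases le_or_gt m 0 with hm0 | hm0
  · refine (min_le_right _ _).trans (le_trans ?_ (Nat.cast_nonneg _))
    rw [hlog]
    nlinarith
  have hG : exp (m * log 2) * ((C + 1) * p ^ (μ + 1)) * 2 = 2 ^ n := by
    have e1 : (2 : ℝ) ^ n = exp (n * log 2) := by rw [exp_nat_mul, exp_log (by norm_num)]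
    rw [e1, ← exp_log (show (0 : ℝ) < (C + 1) * p ^ (μ + 1) by positivity), ← exp_add]
    nth_rewrite 2 [← exp_log (show (0 : ℝ) < 2 by norm_num)]
    rw [← exp_add, log_mul (by positivity) (by positivity), log_pow, hm, logb, logb]
    congr 1
    push_cast
    field_simp
    ring
  set b := ⌊m⌋₊ with hb
  set f := ⌊m * (log 2 / log (a / 2))⌋₊ with hf
  have hb1 : (2 : ℝ) ^ b ≤ exp (m * log 2) := by
    rw [← exp_log (show (0 : ℝ) < 2 ^ b by positivity), log_pow]
    exact exp_le_exp.mpr (mul_le_mul_of_nonneg_right (Nat.floor_le hm0.le) hl2.le)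
  have hf1 : (a / 2 : ℝ) ^ f ≤ exp (m * log 2) := by
    rw [← exp_log (show (0 : ℝ) < (a / 2) ^ f by positivity), log_pow]
    refine exp_le_exp.mpr ?_
    calc (f : ℝ) * log (a / 2) ≤ m * (log 2 / log (a / 2)) * log (a / 2) :=
          mul_le_mul_of_nonneg_right (Nat.floor_le (by positivity)) hla.le
      _ = m * log 2 := by field_simp
  have h3 := le_complexity (a := (a : ℤ)) (by exact_mod_cast ha) x n (i0 + b * p - b)
    (min p (b + f + 1)) hx (min_le_left _ _) (by
      intro j hj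
      have hbp : b ≤ b * p := Nat.le_mul_of_pos_right _ hp0
      have e1 : (T a)^[b * p] x = x := by
        rw [mul_comm, Function.iterate_mul]; exact Function.iterate_fixed hpx b
      have h4 : |(((T a)^[j + (i0 + b * p - b)] x : ℤ) : ℝ)| + 1 ≤
          exp (m * log 2) * ((C + 1) * p ^ (μ + 1)) := by
        rcases le_total j b with hjb | hjb
        · have h5 := (abs_iterate_le a ha ha3 (b - j) ((T a)^[j + (i0 + b * p - b)] x)).2
          rw [← Function.iterate_add_apply, show b - j + (j + (i0 + b * p - b)) = i0 + b * p by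
            omega, Function.iterate_add_apply _ i0, e1] at h5
          refine h5.trans (mul_le_mul (le_trans ?_ hb1) h2 (by positivity) (by positivity))
          exact pow_le_pow_right₀ (by norm_num) (by omega)
        · rw [show j + (i0 + b * p - b) = (j - b) + (i0 + b * p) by omega,
            Function.iterate_add_apply, Function.iterate_add_apply _ i0, e1]
          refine (abs_iterate_le a ha ha3 (j - b) _).1.trans
            (mul_le_mul (le_trans ?_ hf1) h2 (by positivity) (by positivity))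
          exact pow_le_pow_right₀ (by linarith) (by omega)
      linarith)
  have h4 : ((min p (b + f + 1) : ℕ) : ℝ) ≤ complexity a x n := by exact_mod_cast h3
  refine le_trans ?_ h4
  push_cast
  refine min_le_min_left _ ?_
  have h5 : m < b + 1 := Nat.lt_floor_add_one m
  have h6 : m * (log 2 / log (a / 2)) < f + 1 := Nat.lt_floor_add_one _
  rw [hlog]
  nlinarith

end Pool.Agent.Lib.MP_dee342_nt
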