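import Mathlib
import Pool.Agent.Lib.MP_dee342_nt.Sep

/-!
Finiteness of the narrow cycles: those contained in `X ≤ |x| ≤ R X` with `R` slightly above `a`.
-/

set_option autoImplicit false

namespace Pool.Agent.Lib.MP_dee342_nt

open Real Finset Filter Topology

theorem exists_good_approx (α : ℝ) (hα : Irrational α) (Q : ℕ) :
    ∃ r : ℚ, Q < r.den ∧ |α - r| ≤ 1 / ((r.den : ℝ) * r.den) := by
  obtain ⟨ε, hε, hε0⟩ := (((hα.eventually_forall_le_dist_cast_rat_of_den_le Q).filter_mono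
    (nhdsWithin_le_nhds (s := Set.Ioi 0))).and self_mem_nhdsWithin).exists
  have hε0 : 0 < ε := hε0
  obtain ⟨n, hn⟩ := exists_nat_one_div_lt hε0
  obtain ⟨r, h1, h2⟩ := Real.exists_rat_abs_sub_le_and_den_le α (n := n + 1) (by omega)
  have hd : (1 : ℝ) ≤ r.den := by exact_mod_cast r.den_pos
  have h2' : (r.den : ℝ) ≤ n + 1 := by exact_mod_cast h2
  push_cast at h1
  refine ⟨r, ?_, h1.trans (one_div_le_one_div_of_le (by positivity) (by nlinarith))⟩
  by_contra h
  have h3 := hε r (not_lt.mp h)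
  rw [Real.dist_eq] at h3
  have h4 : 1 / (((n : ℝ) + 1 + 1) * r.den) ≤ 1 / (n + 1) :=
    one_div_le_one_div_of_le (by positivity) (by nlinarith)
  linarith

theorem hits_block (α η θ : ℝ) (hη : 0 ≤ η) (r : ℚ) (hr : |α - r| ≤ 1 / ((r.den : ℝ) * r.den)) :
    (((range r.den).filter fun j : ℕ => (⌈j * α + θ⌉ : ℝ) - (j * α + θ) ≤ η).card : ℝ) ≤
      r.den * η + 3 := by
  set q := r.den with hq
  have hq0 : (0 : ℝ) < q := by exact_mod_cast r.den_pos
  have hr1 : (r : ℝ) * q = r.num := by exact_mod_cast Rat.mul_den_eq_num r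
  have h1 := card_le_card_of_injOn (s := (range q).filter
      fun j : ℕ => (⌈j * α + θ⌉ : ℝ) - (j * α + θ) ≤ η)
    (t := Icc ⌈q * θ - 1⌉ ⌊q * θ + q * η + 1⌋) (fun j : ℕ => q * ⌈j * α + θ⌉ - j * r.num) ?_ ?_
  · rw [Int.card_Icc] at h1
    have h2 := Int.le_ceil (q * θ - 1)
    have h3 := Int.floor_le (q * θ + q * η + 1)
    refine le_trans (Nat.cast_le.mpr h1) ?_
    rcases le_total (⌊q * θ + q * η + 1⌋ + 1 - ⌈q * θ - 1⌉) 0 with h | h
    · rw [Int.toNat_eq_zero.mpr h, Nat.cast_zero]; positivity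
    · have : ((⌊q * θ + q * η + 1⌋ + 1 - ⌈q * θ - 1⌉).toNat : ℝ) =
          ((⌊q * θ + q * η + 1⌋ + 1 - ⌈q * θ - 1⌉ : ℤ) : ℝ) := by
        exact_mod_cast Int.toNat_of_nonneg h
      rw [this]; push_cast; linarith
  · intro j hj
    obtain ⟨hj1, hj2⟩ := mem_filter.mp hj
    have hj3 : (j : ℝ) ≤ q := by exact_mod_cast (mem_range.mp hj1).le
    have h2 := Int.le_ceil (j * α + θ)
    have h3 : |(j : ℝ) * q * (α - r)| ≤ 1 := by
      rw [abs_mul, abs_of_nonneg (by positivity)]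
      calc (j : ℝ) * q * |α - r| ≤ q * q * (1 / ((q : ℝ) * q)) := by gcongr
        _ = 1 := by field_simp
    obtain ⟨h4, h5⟩ := abs_le.mp h3
    have h6 : (j : ℝ) * q * (α - r) = q * (j * α) - j * r.num := by rw [← hr1]; ring
    rw [coe_Icc, Set.mem_Icc, Int.ceil_le, Int.le_floor]
    push_cast
    constructor <;> nlinarith
  · intro j hj j' hj' h
    have hj1 := mem_range.mp (mem_filter.mp hj).1
    have hj1' := mem_range.mp (mem_filter.mp hj').1
    have h2 : (q : ℤ) ∣ ((j : ℤ) - j') * r.num :=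
      ⟨⌈j * α + θ⌉ - ⌈j' * α + θ⌉, by simp only at h; linarith⟩
    have h3 : IsCoprime (q : ℤ) r.num := by
      rw [Int.isCoprime_iff_gcd_eq_one, Int.gcd_comm]; exact r.reduced
    have h4 := Int.eq_zero_of_abs_lt_dvd (h3.dvd_of_dvd_mul_right h2) (by
      rw [abs_lt]; constructor <;> omega)
    omega

theorem hits (α : ℝ) (hα : Irrational α) (η δ : ℝ) (hη : 0 ≤ η) (hδ : 0 < δ) :
    ∃ C : ℝ, ∀ (θ : ℝ) (n : ℕ),
      (((range n).filter fun j : ℕ => (⌈j * α + θ⌉ : ℝ) - (j * α + θ) ≤ η).card : ℝ) ≤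
        (η + δ) * n + C := by
  obtain ⟨Q, hQ⟩ := exists_nat_ge (3 / δ)
  obtain ⟨r, hr1, hr2⟩ := exists_good_approx α hα Q
  have hq0 : (0 : ℝ) < r.den := by exact_mod_cast r.den_pos
  have hq1 : 3 ≤ δ * r.den := by
    have : (Q : ℝ) ≤ r.den := by exact_mod_cast hr1.le
    rw [div_le_iff₀ hδ] at hQ
    nlinarith
  have h1 : ∀ (N : ℕ) (θ : ℝ), (((range (N * r.den)).filter
      fun j : ℕ => (⌈j * α + θ⌉ : ℝ) - (j * α + θ) ≤ η).card : ℝ) ≤ N * (r.den * η + 3) := by
    intro N θ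
    induction N with
    | zero => simp
    | succ N ih =>
      have h2 := hits_block α η (N * r.den * α + θ) hη r hr2
      rw [card_filter] at ih h2 ⊢
      rw [Nat.succ_mul, sum_range_add, Nat.cast_add]
      have h3 : ∀ j : ℕ, ((N * r.den + j : ℕ) : ℝ) * α + θ = j * α + (N * r.den * α + θ) := by
        intro j; push_cast; ring
      simp only [h3]
      push_cast at ih h2 ⊢
      linarith
  refine ⟨r.den * η + 3, fun θ n => ?_⟩
  have h2 : n ≤ (n / r.den + 1) * r.den := by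
    have := Nat.lt_div_mul_add (a := n) r.den_pos
    rw [add_mul, one_mul]; omega
  have h3 := card_le_card (filter_subset_filter
    (fun j : ℕ => (⌈j * α + θ⌉ : ℝ) - (j * α + θ) ≤ η) (range_subset_range.mpr h2))
  refine (Nat.cast_le.mpr h3).trans ((h1 _ θ).trans ?_)
  have h4 : ((n / r.den : ℕ) : ℝ) * r.den ≤ n := by exact_mod_cast Nat.div_mul_le_self n r.den
  have h5 : (0 : ℝ) ≤ (n / r.den : ℕ) := by positivity
  push_cast
  nlinarith [mul_le_mul_of_nonneg_left hq1 h5, mul_le_mul_of_nonneg_left h4 hη,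
    mul_le_mul_of_nonneg_left h4 hδ.le]

theorem irrational_log_div (a : ℕ) (ha : Odd a) (ha3 : 3 ≤ a) : Irrational (log 2 / log a) := by
  rintro ⟨r, hr⟩
  have ha' : (3 : ℝ) ≤ a := by exact_mod_cast ha3
  have hla : 0 < log (a : ℝ) := log_pos (by linarith)
  have hl2 : 0 < log (2 : ℝ) := log_pos (by norm_num)
  have hr0 : 0 < r := by
    have : (0 : ℝ) < r := by rw [hr]; positivity
    exact_mod_cast this
  obtain ⟨k, hk⟩ := Int.eq_ofNat_of_zero_le (Rat.num_pos.mpr hr0).le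
  have h1 : (r : ℝ) * r.den = k := by
    have := Rat.mul_den_eq_num r
    rw [hk] at this
    exact_mod_cast this
  have h2 : log ((2 : ℝ) ^ r.den) = log ((a : ℝ) ^ k) := by
    rw [log_pow, log_pow, ← h1, hr]; field_simp
  have h3 : 2 ^ r.den = a ^ k := by
    exact_mod_cast Real.log_injOn_pos (Set.mem_Ioi.mpr (by positivity))
      (Set.mem_Ioi.mpr (by positivity)) h2
  have h4 : Odd (2 ^ r.den) := h3 ▸ ha.pow
  exact (Nat.not_even_iff_odd.mpr h4) (Nat.even_pow.mpr ⟨even_two, r.den_nz⟩)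

/-- The number of odd terms among the first `j` iterates. -/
def ones (a : ℤ) (y : ℤ) (j : ℕ) : ℕ := ((range j).filter fun i => ¬ ((T a)^[i] y % 2 = 0)).card

theorem par_eq_of_ones {a y y' : ℤ} {n : ℕ} (h : ∀ j ≤ n, ones a y j = ones a y' j) :
    ∀ j < n, (T a)^[j] y % 2 = (T a)^[j] y' % 2 := by
  intro j hj
  have h1 := h j hj.le
  have h2 := h (j + 1) hj
  simp only [ones, card_filter, sum_range_succ] at h1 h2
  rw [h1] at h2
  split_ifs at h2 <;> omega

/-- Counting the points of a narrow cycle. -/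
theorem narrow_count (a : ℕ) (ha : Odd a) (ha3 : 3 ≤ a) (R X η ε V : ℝ) (n : ℕ) (hX : 0 < X)
    (hη : 0 ≤ η) (hε : 0 < ε) (h1 : η + 3 * ε < 1) (hR0 : 0 < R) (hR : log R ≤ (1 + η) * log a)
    (hn : 2 * (R * X) < 2 ^ n) (hnX : n / X ≤ ε * log a)
    (hV : ∀ θ : ℝ, (((range (n + 1)).filter fun j : ℕ => (⌈j * (log 2 / log a) + θ⌉ : ℝ) -
      (j * (log 2 / log a) + θ) ≤ η + 3 * ε).card : ℝ) ≤ V)
    (x : ℤ) (hx : ∀ i, X ≤ |(((T a)^[i] x : ℤ) : ℝ)| ∧ |(((T a)^[i] x : ℤ) : ℝ)| ≤ R * X) :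
    (Function.minimalPeriod (T a) x : ℝ) ≤ ((1 + η) / ε + 1) * exp (V * log 2) := by
  classical
  have ha' : (3 : ℝ) ≤ a := by exact_mod_cast ha3
  have hla : 0 < log (a : ℝ) := log_pos (by linarith)
  set α := log 2 / log (a : ℝ) with hα
  let y : ℕ → ℤ := fun i => (T a)^[i] x
  let w : ℕ → ℝ := fun i => (log |(y i : ℝ)| - log X) / log a
  have hw : ∀ i, 0 ≤ w i ∧ w i ≤ 1 + η := by
    intro i
    have h2 := log_le_log hX (hx i).1
    have h3 := log_le_log (hX.trans_le (hx i).1) (hx i).2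
    rw [log_mul hR0.ne' hX.ne'] at h3
    refine ⟨div_nonneg (by linarith) hla.le, ?_⟩
    rw [div_le_iff₀ hla]
    linarith
  let k : ℕ → ℕ := fun i => ⌊w i / ε⌋₊
  let θ : ℕ → ℝ := fun k => -(k + 2) * ε
  let J : ℕ → Finset ℕ := fun k => (range (n + 1)).filter
    fun j : ℕ => (⌈j * α + θ k⌉ : ℝ) - (j * α + θ k) ≤ η + 3 * ε
  have hones : ∀ i, ∀ j ≤ n, j * α + θ (k i) ≤ ones a (y i) j ∧
      (ones a (y i) j : ℝ) ≤ j * α + θ (k i) + 1 + (η + 3 * ε) := by
    intro i j hj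
    have h2 := abs_log_sum_le a ha ha3 (y i) j X hX fun l _ => by
      simpa only [y, ← Function.iterate_add_apply] using (hx (l + i)).1
    have h3 : (j : ℝ) / X ≤ ε * log a := by
      refine le_trans ?_ hnX
      gcongr
    have h4 : (j : ℝ) * log 2 + log |(((T a)^[j] (y i) : ℤ) : ℝ)| - log |(y i : ℝ)| -
        ones a (y i) j * log a = (j * α + w (j + i) - w i - ones a (y i) j) * log a := by
      simp only [w, y, hα, Function.iterate_add_apply]
      field_simp
      ring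
    have h5 : |j * α + w (j + i) - w i - ones a (y i) j| ≤ ε := by
      refine le_of_mul_le_mul_right ?_ hla
      rw [← abs_of_pos hla, ← abs_mul, ← h4, abs_of_pos hla]
      exact h2.trans h3
    obtain ⟨h6, h7⟩ := abs_le.mp h5
    have h8 : (k i : ℝ) * ε ≤ w i := by
      rw [← le_div_iff₀ hε]; exact Nat.floor_le (div_nonneg (hw i).1 hε.le)
    have h9 : w i ≤ (k i + 1) * ε := by
      rw [← div_le_iff₀ hε]; exact (Nat.lt_floor_add_one _).le
    obtain ⟨h10, h11⟩ := hw (j + i)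
    simp only [θ]
    constructor <;> linarith
  have hcases : ∀ i, ∀ j ≤ n, (ones a (y i) j : ℤ) = ⌈j * α + θ (k i)⌉ ∨
      ((ones a (y i) j : ℤ) = ⌈j * α + θ (k i)⌉ + 1 ∧ j ∈ J (k i)) := by
    intro i j hj
    obtain ⟨h2, h3⟩ := hones i j hj
    have h4 : ⌈j * α + θ (k i)⌉ ≤ (ones a (y i) j : ℤ) := Int.ceil_le.mpr (by exact_mod_cast h2)
    have h5 := Int.le_ceil (j * α + θ (k i))
    have h6 : (ones a (y i) j : ℤ) < ⌈j * α + θ (k i)⌉ + 2 := by
      have : ((ones a (y i) j : ℤ) : ℝ) < ((⌈j * α + θ (k i)⌉ + 2 : ℤ) : ℝ) := by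
        push_cast; linarith
      exact_mod_cast this
    rcases h4.eq_or_lt with h | h
    · exact Or.inl h.symm
    · have h7 : (ones a (y i) j : ℤ) = ⌈j * α + θ (k i)⌉ + 1 := by omega
      refine Or.inr ⟨h7, mem_filter.mpr ⟨mem_range.mpr (by omega), ?_⟩⟩
      have h8 : (ones a (y i) j : ℝ) = (⌈j * α + θ (k i)⌉ : ℝ) + 1 := by exact_mod_cast h7
      linarith
  let K := ⌊(1 + η) / ε⌋₊
  have h2 := card_le_card_of_injOn (s := range (Function.minimalPeriod (T a) x))
    (t := (range (K + 1)).sigma fun k => (J k).powerset)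
    (fun i => ⟨k i, (J (k i)).filter fun j => (ones a (y i) j : ℤ) = ⌈j * α + θ (k i)⌉ + 1⟩) ?_ ?_
  · rw [card_range, card_sigma] at h2
    have h3 : ∀ k ∈ range (K + 1), (((J k).powerset.card : ℕ) : ℝ) ≤ exp (V * log 2) := by
      intro k _
      rw [card_powerset]
      push_cast
      rw [← exp_log (show (0 : ℝ) < 2 ^ (J k).card by positivity), log_pow]
      exact exp_le_exp.mpr (mul_le_mul_of_nonneg_right (hV _) (log_nonneg (by norm_num)))
    have h4 := sum_le_card_nsmul _ _ _ h3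
    rw [card_range, nsmul_eq_mul] at h4
    have h5 : (K : ℝ) ≤ (1 + η) / ε := Nat.floor_le (by positivity)
    refine (Nat.cast_le.mpr h2).trans ?_
    push_cast at h4 ⊢
    refine h4.trans ?_
    gcongr
  · intro i _
    refine mem_coe.mpr (mem_sigma.mpr ⟨mem_range.mpr (Nat.lt_succ_of_le ?_),
      mem_powerset.mpr (filter_subset _ _)⟩)
    exact Nat.floor_mono (div_le_div_of_nonneg_right (hw i).2 hε.le)
  · intro i hi i' hi' h
    obtain ⟨hk, hS⟩ := Sigma.mk.inj_iff.mp h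
    have hS := eq_of_heq hS
    have h3 : ∀ j ≤ n, ones a (y i) j = ones a (y i') j := by
      intro j hj
      have e1 := hcases i j hj
      have e2 := hcases i' j hj
      have e3 := Finset.ext_iff.mp hS j
      simp only [mem_filter] at e3
      rw [← hk] at e2 e3
      rcases e1 with e1 | e1 <;> rcases e2 with e2 | e2
      · omega
      · have := (e3.mpr ⟨e2.2, e2.1⟩).2; omega
      · have := (e3.mp ⟨e1.2, e1.1⟩).2; omega
      · omega
    have h4 := eq_of_parities (a := (a : ℤ)) (by exact_mod_cast ha) n _ _ (par_eq_of_ones h3)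
      (by linarith [(hx i).2]) (by linarith [(hx i').2])
    exact Function.iterate_injOn_Iio_minimalPeriod (mem_range.mp hi) (mem_range.mp hi') h4

theorem finite_of_abs_le (B : ℝ) : {x : ℤ | |(x : ℝ)| ≤ B}.Finite := by
  refine (Set.finite_Icc (-⌈B⌉) ⌈B⌉).subset fun x hx => ?_
  have h1 : |x| ≤ ⌈B⌉ := by
    have : ((|x| : ℤ) : ℝ) ≤ (⌈B⌉ : ℤ) := by push_cast; exact le_trans hx (Int.le_ceil B)
    exact_mod_cast this
  exact abs_le.mp h1

/-- Finiteness of narrow cycles. -/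
theorem narrow (a μ : ℕ) (ha : Odd a) (ha3 : 3 ≤ a) (h : LogMeasure a μ) (R : ℝ) (hR : a ≤ R)
    (hR1 : (R / a) ^ (μ + 1) < a) :
    {x | x ∈ Function.periodicPts (T a) ∧ ∀ i j : ℕ,
      |(((T a)^[i] x : ℤ) : ℝ)| ≤ R * |(((T a)^[j] x : ℤ) : ℝ)|}.Finite := by
  obtain ⟨C, hC, h⟩ := min_poly a μ ha ha3 h
  have ha' : (3 : ℝ) ≤ a := by exact_mod_cast ha3
  have hla : 0 < log (a : ℝ) := log_pos (by linarith)
  have hl2 : 0 < log (2 : ℝ) := log_pos (by norm_num)
  have hR0 : 0 < R := by linarith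
  set η := log (R / a) / log a with hη
  have hη0 : 0 ≤ η := div_nonneg (log_nonneg (by rw [le_div_iff₀ (by linarith)]; linarith)) hla.le
  have hη1 : (μ + 1) * η < 1 := by
    have := log_lt_log (by positivity) hR1
    rw [log_pow] at this
    push_cast at this
    rw [hη, ← mul_div_assoc, div_lt_one hla]
    exact this
  have hμ : (1 : ℝ) ≤ μ + 1 := by linarith [(Nat.cast_nonneg μ : (0 : ℝ) ≤ μ)]
  set ε := (1 - (μ + 1) * η) / (5 * (μ + 1)) with hε
  have hε0 : 0 < ε := div_pos (by linarith) (by positivity)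
  have hτ : (μ + 1) * (η + 3 * ε + ε) < 1 := by
    have : (μ + 1) * ε = (1 - (μ + 1) * η) / 5 := by rw [hε]; field_simp
    nlinarith
  obtain ⟨C1, hC1⟩ := hits _ (irrational_log_div a ha ha3) (η + 3 * ε) ε (by positivity) hε0
  set τ := η + 3 * ε + ε with hτdef
  have hτ0 : 0 < τ := by positivity
  have hev : ∀ᶠ X : ℝ in atTop, log (4 * R) + log X ≤ ε * log a * log 2 * X ∧
      log C + (μ + 1) * (log ((1 + η) / ε + 1) + C1 * log 2 + τ * log (8 * R)) <
        (1 - (μ + 1) * τ) * log X := by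
    refine Eventually.and ?_ ((Real.tendsto_log_atTop.const_mul_atTop
      (by linarith)).eventually_gt_atTop _)
    have h1 := (Real.isLittleO_log_id_atTop.bound
      (show (0 : ℝ) < ε * log a * log 2 / 2 by positivity))
    filter_upwards [h1, eventually_ge_atTop (2 * log (4 * R) / (ε * log a * log 2)),
      eventually_gt_atTop 0] with t h2 h3 ht
    rw [id, Real.norm_of_nonneg ht.le] at h2
    have h4 := (le_abs_self _).trans h2
    rw [div_le_iff₀ (by positivity)] at h3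
    linarith
  obtain ⟨X0, hX0⟩ := eventually_atTop.mp hev
  refine (finite_of_abs_le (R * max X0 1)).subset ?_
  rintro x ⟨hx, hx2⟩
  set p := Function.minimalPeriod (T a) x with hp
  have hp0 : 0 < p := Function.minimalPeriod_pos_of_mem_periodicPts hx
  have hpx : (T a)^[p] x = x := Function.isPeriodicPt_minimalPeriod _ _
  obtain ⟨i0, -, hi0⟩ := exists_min_image (range p) (fun i => |(((T a)^[i] x : ℤ) : ℝ)|)
    ⟨0, mem_range.mpr hp0⟩
  set X := |(((T a)^[i0] x : ℤ) : ℝ)| with hX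
  have h1 := h x p hp0 hpx X fun i hi => hi0 i (mem_range.mpr hi)
  refine (hx2 0 i0).trans (mul_le_mul_of_nonneg_left ?_ hR0.le)
  by_contra hcon
  push Not at hcon
  have hX1 : 1 < X := (le_max_right _ _).trans_lt hcon
  obtain ⟨h2, h3⟩ := hX0 X ((le_max_left _ _).trans hcon.le)
  obtain ⟨n0, hn1, hn2⟩ := exists_nat_pow_near (x := 2 * (R * X)) (y := 2) (by nlinarith)
    (by norm_num)
  have hn3 : (n0 : ℝ) * log 2 ≤ log 2 + log R + log X := by
    have := log_le_log (by positivity) hn1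
    rwa [log_pow, log_mul (by norm_num) (by positivity), log_mul hR0.ne' (by positivity),
      ← add_assoc] at this
  have l4 : log (4 * R) = 2 * log 2 + log R := by
    rw [log_mul (by norm_num) hR0.ne', show (4 : ℝ) = 2 ^ 2 by norm_num, log_pow]; norm_num
  have l8 : log (8 * R) = 3 * log 2 + log R := by
    rw [log_mul (by norm_num) hR0.ne', show (8 : ℝ) = 2 ^ 3 by norm_num, log_pow]; norm_num
  have h4 := narrow_count a ha ha3 R X η ε (τ * ((n0 + 1 + 1 : ℕ) : ℝ) + C1) (n0 + 1)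
    (by linarith) hη0 hε0 (by nlinarith) hR0 (by
      rw [hη, log_div hR0.ne' (by linarith)]; field_simp; linarith) hn2 (by
      rw [div_le_iff₀ (by linarith)]
      refine le_of_mul_le_mul_right ?_ hl2
      push_cast
      linarith) (fun θ => hC1 θ _) x (fun i => ⟨by
      rw [← Function.iterate_mod_minimalPeriod_eq]
      exact hi0 _ (mem_range.mpr (Nat.mod_lt _ hp0)), hx2 i i0⟩)
  have hp' : (0 : ℝ) < p := by exact_mod_cast hp0
  have h5 := log_le_log hp' h4
  rw [log_mul (by positivity) (by positivity), log_exp] at h5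
  have h6 := log_le_log (by linarith) h1
  rw [log_mul (by positivity) (by positivity), log_pow] at h6
  push_cast at h5 h6
  have h7 : log (p : ℝ) ≤ log ((1 + η) / ε + 1) + C1 * log 2 + τ * log (8 * R) + τ * log X := by
    have := mul_le_mul_of_nonneg_left hn3 hτ0.le
    rw [l8]
    linarith
  have h8 := mul_le_mul_of_nonneg_left h7 (by positivity : (0 : ℝ) ≤ μ + 1)
  linarith

end Pool.Agent.Lib.MP_dee342_nt
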