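import Mathlib
import Pool.Agent.Lib.MP_dee342_nt.Narrow

/-! The narrow cycles of the `3x+1` and `5x+1` maps. -/

set_option autoImplicit false

namespace Pool.Agent.Lib.MP_dee342_nt

theorem narrow' (a μ : ℕ) (ha : Odd a) (ha3 : 3 ≤ a) (h : LogMeasure a μ) (R : ℝ)
    (hR1 : R ^ (μ + 1) < (a : ℝ) ^ (μ + 2)) :
    {x | x ∈ Function.periodicPts (T a) ∧ ∀ i j : ℕ,
      |(((T a)^[i] x : ℤ) : ℝ)| ≤ R * |(((T a)^[j] x : ℤ) : ℝ)|}.Finite := by
  have ha' : (3 : ℝ) ≤ a := by exact_mod_cast ha3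
  refine (narrow a μ ha ha3 h (max R a) (le_max_right _ _) ?_).subset ?_
  · rw [div_pow, div_lt_iff₀ (by positivity), ← pow_succ']
    rcases le_total R a with h1 | h1
    · rw [max_eq_right h1]
      exact pow_lt_pow_right₀ (by linarith) (by omega)
    · rwa [max_eq_left h1]
  · rintro x ⟨h1, h2⟩
    exact ⟨h1, fun i j => (h2 i j).trans
      (mul_le_mul_of_nonneg_right (le_max_left _ _) (abs_nonneg _))⟩

theorem narrow_three (R : ℝ) (hR : R ^ 13 < 3 ^ 14) :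
    {x | x ∈ Function.periodicPts (T 3) ∧ ∀ i j : ℕ,
      |(((T 3)^[i] x : ℤ) : ℝ)| ≤ R * |(((T 3)^[j] x : ℤ) : ℝ)|}.Finite := by
  simpa using narrow' 3 12 (by decide) le_rfl logMeasure_three R (by simpa using hR)

theorem narrow_five (R : ℝ) (hR : R ^ 25 < 5 ^ 26) :
    {x | x ∈ Function.periodicPts (T 5) ∧ ∀ i j : ℕ,
      |(((T 5)^[i] x : ℤ) : ℝ)| ≤ R * |(((T 5)^[j] x : ℤ) : ℝ)|}.Finite := by
  simpa using narrow' 5 24 (by decide) (by norm_num) logMeasure_five R (by simpa using hR)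

theorem finite_period_le (a μ : ℕ) (ha : Odd a) (ha3 : 3 ≤ a) (h : LogMeasure a μ) (P : ℕ) :
    {x | x ∈ Function.periodicPts (T a) ∧ Function.minimalPeriod (T a) x ≤ P}.Finite := by
  obtain ⟨C, hC, h⟩ := min_poly a μ ha ha3 h
  refine (finite_of_abs_le (2 ^ P * (C * P ^ (μ + 1) + 1))).subset ?_
  rintro x ⟨hx, hP⟩
  set p := Function.minimalPeriod (T a) x with hp
  have hp0 : 0 < p := Function.minimalPeriod_pos_of_mem_periodicPts hx
  obtain ⟨i0, hi, hi0⟩ := Finset.exists_min_image (Finset.range p)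
    (fun i => |(((T a)^[i] x : ℤ) : ℝ)|) ⟨0, Finset.mem_range.mpr hp0⟩
  have h1 := h x p hp0 (Function.isPeriodicPt_minimalPeriod _ _) _
    fun i hi => hi0 i (Finset.mem_range.mpr hi)
  have h2 := (abs_iterate_le a ha ha3 i0 x).2
  have h3 : (2 : ℝ) ^ i0 ≤ 2 ^ P :=
    pow_le_pow_right₀ (by norm_num) ((Finset.mem_range.mp hi).le.trans hP)
  have h4 : C * (p : ℝ) ^ (μ + 1) ≤ C * (P : ℝ) ^ (μ + 1) := by gcongr
  have h5 : (2 : ℝ) ^ i0 * (|(((T a)^[i0] x : ℤ) : ℝ)| + 1) ≤ 2 ^ P * (C * P ^ (μ + 1) + 1) := by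
    gcongr; exact h1.trans h4
  change |(x : ℝ)| ≤ _
  linarith

theorem low_complexity (a μ : ℕ) (ha : Odd a) (ha3 : 3 ≤ a) (h : LogMeasure a μ) (c : ℝ)
    (hc : c < Real.log a / Real.log (a / 2)) :
    ∃ K : ℝ, {x | x ∈ Function.periodicPts (T a) ∧ ∃ n : ℕ,
      K * Real.log (Function.minimalPeriod (T a) x) ≤ n ∧
      (complexity a x n : ℝ) < min (Function.minimalPeriod (T a) x : ℝ) (c * n)}.Finite := by
  obtain ⟨C, hC⟩ := complexity_bound a μ ha ha3 h
  have ha' : (3 : ℝ) ≤ a := by exact_mod_cast ha3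
  set s := Real.log a / Real.log (a / 2 : ℝ) with hs
  have hs0 : 0 < s := div_pos (Real.log_pos (by linarith)) (Real.log_pos (by linarith))
  have hl2 : 0 < Real.log 2 := Real.log_pos (by norm_num)
  refine ⟨s * (μ + 2) / Real.log 2 / (s - c),
    (finite_period_le a μ ha ha3 h ⌈(2 : ℝ) ^ C⌉₊).subset ?_⟩
  rintro x ⟨hx, n, hn1, hn2⟩
  refine ⟨hx, ?_⟩
  by_contra hcon
  set p := Function.minimalPeriod (T a) x with hp
  have h1 : (2 : ℝ) ^ C ≤ p := Nat.ceil_le.mp (not_le.mp hcon).le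
  have h2 : C ≤ Real.logb 2 p := by
    rw [Real.le_logb_iff_rpow_le (by norm_num) (lt_of_lt_of_le (by positivity) h1)]
    exact h1
  have h3 : s * (μ + 2) * Real.logb 2 p ≤ n * (s - c) := by
    rw [← div_le_iff₀ (by linarith)]
    refine le_trans (le_of_eq ?_) hn1
    rw [Real.logb]
    ring
  refine absurd ((hC x hx n).trans_lt hn2) (not_lt.mpr (min_le_min_left _ ?_))
  nlinarith

theorem low_complexity_three_five (a : ℕ) (ha : a = 3 ∨ a = 5) (c : ℝ)
    (hc : c < Real.log a / Real.log (a / 2)) :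
    ∃ K : ℝ, {x | x ∈ Function.periodicPts (T a) ∧ ∃ n : ℕ,
      K * Real.log (Function.minimalPeriod (T a) x) ≤ n ∧
      (complexity a x n : ℝ) < min (Function.minimalPeriod (T a) x : ℝ) (c * n)}.Finite := by
  rcases ha with rfl | rfl
  · exact low_complexity 3 12 (by decide) le_rfl logMeasure_three c hc
  · exact low_complexity 5 24 (by decide) (by norm_num) logMeasure_five c hc

end Pool.Agent.Lib.MP_dee342_nt
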