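import Pool.Agent.Lib.MP_dee342_nt.RgStep

/-!
The rigidity theorem: a long system repeats a state.
-/

set_option autoImplicit false

namespace Pool.Agent.Lib.MP_dee342_nt.Gr

open Filter Topology Finset

theorem rgmain_fam (a : ℕ) (ha : Odd a) (ha3 : 3 ≤ a) (c B K s : ℕ) : ∀ W E : ℕ, 1 ≤ E →
    ∃ R N₀ : ℕ, ∀ N ≥ N₀, ∀ (g : ℕ → ℤ) (σ τ : ℕ → ℕ) (lab : ℕ → Fin K),
      Sys a c B N R g σ τ lab → (∀ k k', k < k' → k' < R → lab k = lab k' → g k ≠ g k') →
      Fam a c N R g σ τ s W E := by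
  induction s with
  | zero =>
    intro W E _
    refine ⟨W, 0, fun N _ g σ τ lab hS _ => ⟨0, fun _ _ => 1, fun _ => g, by omega, fun _ => rfl,
      rfl, fun b => ⟨fun k _ _ => ⟨by simp [bet], ?_⟩, fun k _ hk => ?_⟩, fun i _ _ => ?_⟩⟩
    · rw [abs_one]
      exact one_le_pow₀ one_le_two
    · exact (hS.1 k (by omega)).2.trans (pow_le_pow_right₀ one_le_two (Nat.le_add_right _ _))
    · unfold Ind
      refine (linearIndependent_subsingleton_index_iff (ι := Fin 1) _).2 fun b h => ?_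
      simpa using congrFun h 0
  | succ s ih =>
    intro W' E' hE'
    obtain ⟨W, E, N₀, hE, h⟩ := fam_step a ha ha3 c B K s W' E' hE'
    obtain ⟨R, N₁, h'⟩ := ih W E hE
    exact ⟨R, max N₀ N₁, fun N hN g σ τ lab hS hr =>
      h N (le_of_max_le_left hN) R g σ τ lab hS hr (h' N (le_of_max_le_right hN) g σ τ lab hS hr)⟩

/-- By induction on `s`: for all `W, E` there are `R, N₀` such that every system without repetition
has `Fam s W E`. For `s = c + 2` and `W = c + 2` this gives `c + 3` independent vectors in a space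
of dimension `c + 2`. -/
theorem rigid (a : ℕ) (ha : Odd a) (ha3 : 3 ≤ a) (c B K : ℕ) : ∃ R N₀ : ℕ, ∀ N ≥ N₀,
    ∀ (g : ℕ → ℤ) (σ τ : ℕ → ℕ) (lab : ℕ → Fin K), Sys a c B N R g σ τ lab →
      ∃ k k', k < k' ∧ k' < R ∧ lab k = lab k' ∧ g k = g k' := by
  obtain ⟨R, N₀, h⟩ := rgmain_fam a ha ha3 c B K (c + 2) (c + 2) 1 le_rfl
  refine ⟨R, N₀, fun N hN g σ τ lab hS => ?_⟩
  by_contra hne
  obtain ⟨p, A, G, -, -, -, -, hI⟩ := h N hN g σ τ lab hS fun k k' h1 h2 h3 h4 =>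
    hne ⟨k, k', h1, h2, h3, h4⟩
  have h1 := LinearIndependent.fintype_card_le_finrank (hI p le_rfl le_rfl)
  simp at h1

end Pool.Agent.Lib.MP_dee342_nt.Gr
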