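import Pool.Agent.Lib.MP_dee342_nt.CxSys
import Pool.Agent.Lib.MP_dee342_nt.CxChain
import Pool.Agent.Lib.MP_dee342_nt.RgMain
import Pool.Agent.Lib.MP_dee342_nt.NarrowMain

/-!
Superlinear complexity.
-/

set_option autoImplicit false

namespace Pool.Agent.Lib.MP_dee342_nt.Gr

open Finset

/-- Take `c₀` from `growth_cx`, `c = c₀ C + 2`, `E = 64 a (3 C + 2)`, `K, G` from `chain`,
`c', B` from `exists_sys`, `R₂` from `rigid`, `R'` from `chain`, and `R = R' + c₀ C`; the values at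
times up to `L' = R' n` are at most `2^(c₀ C n)`, `sepa_of_le` gives `Sepa`, and the repetition given
by `rigid` contradicts injectivity, as `t` is strictly increasing. -/
theorem superlinear_window (a : ℕ) (ha : Odd a) (ha3 : 3 ≤ a) (C : ℕ) : ∃ R n₀ : ℕ, ∀ n ≥ n₀,
    ∀ x : ℤ, |x| ≤ 2 ^ (C * n) →
      (∀ i j, i < j → j ≤ R * n → (T a)^[i] x ≠ (T a)^[j] x) →
      C * n < cnt (wd a x) (R * n) n := by
  rcases Nat.eq_zero_or_pos C with rfl | hC
  · refine ⟨1, 1, fun n hn x _ _ => ?_⟩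
    rw [zero_mul, cnt, card_pos, image_nonempty, nonempty_range_iff]
    omega
  obtain ⟨c₀, hc₀⟩ := growth_cx a ha ha3
  obtain ⟨K, G, hch⟩ := chain C (c₀ * C + 2) (64 * a * (3 * C + 2)) (by nlinarith)
  obtain ⟨c', B, n₁, hsys⟩ := exists_sys a ha ha3 C (c₀ * C + 2) G
  obtain ⟨R₂, N₀, hrig⟩ := rigid a ha ha3 c' B K
  obtain ⟨R', hR'⟩ := hch R₂
  obtain ⟨n₂, hgr⟩ := hc₀ C (R' + c₀ * C) hC
  refine ⟨R' + c₀ * C, n₁ + n₂ + 16 * N₀ + 6, fun n hn x hx hinj => ?_⟩
  by_contra hcon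
  have hcnt := not_lt.1 hcon
  have hL : R' * n ≤ (R' + c₀ * C) * n := Nat.mul_le_mul_right _ (Nat.le_add_right _ _)
  have hval : ∀ i ≤ R' * n, |(T a)^[i] x| ≤ 2 ^ (c₀ * C * n) := fun i hi =>
    hgr n (by omega) x hx hcnt i (by rw [add_mul]; omega)
  have hc : c₀ * C * n + 2 ≤ (c₀ * C + 2) * n := by rw [add_mul]; omega
  have hsep := sepa_of_le ha x (c₀ * C * n) (R' * n) ((c₀ * C + 2) * n) hc hval
    fun i j hij hj => hinj i j hij (hj.trans hL)
  obtain ⟨t, u, π, lab, vl, h1, h2, h3, h4⟩ := hR' n (by omega) (wd a x) _ _ hL le_rfl hcnt hsep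
  obtain ⟨g, σ, τ, h5, h6⟩ := hsys n (by omega) x R₂ K (R' * n) t u π lab vl
    (fun i hi => (hval i hi).trans (pow_le_pow_right₀ one_le_two (by omega))) h1 h2 h3 h4
  obtain ⟨k, k', hk, hk', h7, h8⟩ := hrig (n / 16) (by omega) g σ τ lab h5
  have hmono : ∀ j ≤ R₂, ∀ i < j, t i < t j := by
    intro j
    induction j with
    | zero => exact fun _ i hi => absurd hi (Nat.not_lt_zero i)
    | succ j ih =>
      intro hj i hi
      have h9 := h2 j (by omega)
      have h10 : t j < t (j + 1) := by omega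
      rcases Nat.lt_succ_iff_lt_or_eq.1 hi with h | h
      · exact (ih (by omega) i h).trans h10
      · rwa [h]
  exact hinj _ _ (hmono k' hk'.le k hk) ((h1 k' hk'.le).2.2.2.1.trans hL)
    (h6 k (hk.trans hk') k' hk' h7 h8)

theorem cxmain_complexity_le (a x : ℤ) (i n : ℕ) :
    complexity a ((T a)^[i] x) n ≤ complexity a x n := by
  have hfin : {w | ∃ i : ℕ, w = parWord a n ((T a)^[i] x)}.Finite := by
    refine (Set.Finite.pi' (t := fun _ : Fin n => ({0, 1} : Set ℤ)) fun _ => by simp).subset ?_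
    rintro w ⟨i, rfl⟩ j
    simpa [parWord] using Int.emod_two_eq_zero_or_one _
  refine Set.ncard_le_ncard ?_ hfin
  rintro w ⟨j, rfl⟩
  exact ⟨j + i, by rw [Function.iterate_add_apply]⟩

theorem cxmain_pow_le {C₀ η : ℝ} {μ C' n p : ℕ} (hη : 0 < η) (hC₀ : 1 ≤ C₀) (hn : 1 ≤ n)
    (hp : 0 < p) (h : η * Real.log p ≤ n) (hC : ((μ + 1) / η + C₀) / Real.log 2 ≤ C') :
    C₀ * (p : ℝ) ^ (μ + 1) ≤ 2 ^ (C' * n) := by
  have hl2 : 0 < Real.log 2 := Real.log_pos (by norm_num)
  have hp' : (0 : ℝ) < p := by exact_mod_cast hp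
  have hn' : (1 : ℝ) ≤ n := by exact_mod_cast hn
  rw [← Real.log_le_log_iff (by positivity) (by positivity), Real.log_mul (by positivity)
    (by positivity), Real.log_pow, Real.log_pow]
  push_cast
  have h1 : Real.log C₀ ≤ C₀ * n := by
    have := Real.log_le_sub_one_of_pos (show 0 < C₀ by linarith)
    nlinarith
  have h2 : Real.log p ≤ n / η := by
    rw [le_div_iff₀ hη]
    linarith
  have h3 : (μ + 1 : ℝ) * Real.log p ≤ (μ + 1) / η * n := by
    have := mul_le_mul_of_nonneg_left h2 (show (0 : ℝ) ≤ μ + 1 by positivity)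
    calc _ ≤ _ := this
      _ = _ := by ring
  have h4 := (div_le_iff₀ hl2).1 hC
  have h5 := mul_le_mul_of_nonneg_right h4 (show (0 : ℝ) ≤ n by positivity)
  nlinarith

/-- Start at the element `y` of least absolute value of the cycle, `|y| ≤ C₀ p^(μ+1)` (`min_poly`),
which is at most `2^(C' n)` when `η log p ≤ n` and `p` is large; `complexity a y n ≤ complexity a x n`.
Use `superlinear_window` with `C' ≥ C` natural, and `R + 1` (so that `R n < p`); bounded periods are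
handled by `finite_period_le`. -/
theorem superlinear (a : ℕ) (ha : a = 3 ∨ a = 5) (C η : ℝ) (hη : 0 < η) :
    ∃ R : ℕ, {x : ℤ | x ∈ Function.periodicPts (T a) ∧ ∃ n : ℕ,
      η * Real.log (Function.minimalPeriod (T a) x) ≤ n ∧
      R * n ≤ Function.minimalPeriod (T a) x ∧ (complexity a x n : ℝ) ≤ C * n}.Finite := by
  obtain ⟨μ, hμ⟩ : ∃ μ, LogMeasure a μ := by
    rcases ha with rfl | rfl
    exacts [⟨_, logMeasure_three⟩, ⟨_, logMeasure_five⟩]
  have ho : Odd a := by rcases ha with rfl | rfl <;> decide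
  have ha3 : 3 ≤ a := by omega
  obtain ⟨C₀, hC₀, hmin⟩ := min_poly a μ ho ha3 hμ
  obtain ⟨C', hC'⟩ := exists_nat_ge (max C (((μ + 1) / η + C₀) / Real.log 2))
  obtain ⟨R, n₀, hw⟩ := superlinear_window a ho ha3 C'
  refine ⟨R + 1, (finite_period_le a μ ho ha3 hμ ⌈Real.exp ((n₀ + 1) / η)⌉₊).subset ?_⟩
  rintro x ⟨hx, n, hn1, hn2, hn3⟩
  refine ⟨hx, ?_⟩
  by_contra hcon
  set p := Function.minimalPeriod (T a) x with hp
  have hp0 : 0 < p := Function.minimalPeriod_pos_of_mem_periodicPts hx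
  have h1 : Real.exp ((n₀ + 1) / η) ≤ p := Nat.ceil_le.mp (not_le.mp hcon).le
  have h2 : (n₀ + 1) / η ≤ Real.log p :=
    (Real.le_log_iff_exp_le (by exact_mod_cast hp0)).2 h1
  have h3 : n₀ + 1 ≤ n := by
    have : (n₀ + 1 : ℝ) ≤ n := by
      rw [div_le_iff₀ hη] at h2
      linarith
    exact_mod_cast this
  obtain ⟨i0, -, hi0⟩ := exists_min_image (range p) (fun i => |(((T a)^[i] x : ℤ) : ℝ)|)
    ⟨0, mem_range.mpr hp0⟩
  have h4 := (hmin x p hp0 (Function.isPeriodicPt_minimalPeriod _ _) _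
    fun i hi => hi0 i (mem_range.mpr hi)).trans
    (cxmain_pow_le hη hC₀ (by omega) hp0 hn1 ((le_max_right _ _).trans hC'))
  have h5 : |(T a)^[i0] x| ≤ 2 ^ (C' * n) := by exact_mod_cast h4
  have h6 : Function.minimalPeriod (T a) ((T a)^[i0] x) = p :=
    Function.minimalPeriod_apply_iterate hx i0
  have h7 : R * n < p := by
    rw [add_mul] at hn2
    omega
  have h8 := hw n (by omega) _ h5 fun i j hij hj h => hij.ne
    (Function.iterate_injOn_Iio_minimalPeriod (by rw [h6]; exact hij.trans (hj.trans_lt h7))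
      (by rw [h6]; exact hj.trans_lt h7) h)
  have h9 : ((C' * n : ℕ) : ℝ) < complexity a x n := by
    exact_mod_cast h8.trans_le ((cnt_le_complexity _ _ _ _).trans (cxmain_complexity_le _ _ _ _))
  push_cast at h9
  have h10 := mul_le_mul_of_nonneg_right ((le_max_left _ _).trans hC')
    (show (0 : ℝ) ≤ n by positivity)
  linarith

end Pool.Agent.Lib.MP_dee342_nt.Gr
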