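import Pool.Agent.Lib.MP_dee342_nt.GrBasic

/-!
Existence of a frame covering finitely many units.

Proof. Let `V = τ → ℤ × ℤ`, `C ≤ V` the submodule of the eventually constant functions, `W` the span
in `V ⧸ C` of the classes of the `fun t => (p.1 t, p.2 t)`, `p ∈ L`. `V ⧸ C` is torsion free, so `W`
is finite and free (`Module.free_of_finite_type_torsion_free'`); take `b = Module.finBasis ℤ W`,
lift each `b i` to an element of the span of the given functions (its two components are `Bd`, by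
`Submodule.span_induction`), and take the limits from `Bd.exists_tendsto`.
-/

set_option autoImplicit false

namespace Pool.Agent.Lib.MP_dee342_nt.Gr

open Filter Topology Finset

variable {τ : Type}

/-- The eventually constant sequences. -/
def grframe_C (U : Filter τ) : Submodule ℤ (τ → ℤ × ℤ) where
  carrier := {f | ∃ c, ∀ᶠ t in U, f t = c}
  zero_mem' := ⟨0, Eventually.of_forall fun _ => rfl⟩
  add_mem' := by
    rintro f g ⟨c, hc⟩ ⟨d, hd⟩
    refine ⟨c + d, ?_⟩
    filter_upwards [hc, hd] with t h1 h2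
    rw [Pi.add_apply, h1, h2]
  smul_mem' := by
    rintro m f ⟨c, hc⟩
    refine ⟨m • c, ?_⟩
    filter_upwards [hc] with t h1
    rw [Pi.smul_apply, h1]

/-- The sequences with both components bounded by a multiple of `N`. -/
def grframe_B (U : Filter τ) (N : τ → ℕ) : Submodule ℤ (τ → ℤ × ℤ) where
  carrier := {f | Bd U N (fun t => (f t).1) ∧ Bd U N (fun t => (f t).2)}
  zero_mem' := ⟨⟨0, Eventually.of_forall fun _ => by simp⟩,
    ⟨0, Eventually.of_forall fun _ => by simp⟩⟩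
  add_mem' := by
    rintro f g ⟨h1, h2⟩ ⟨h3, h4⟩
    exact ⟨h1.add h3, h2.add h4⟩
  smul_mem' := by
    rintro m f ⟨h1, h2⟩
    exact ⟨h1.const_mul m, h2.const_mul m⟩

theorem grframe_tf (U : Ultrafilter τ) :
    Module.IsTorsionFree ℤ ((τ → ℤ × ℤ) ⧸ grframe_C (U : Filter τ)) := by
  refine Module.IsTorsionFree.of_smul_eq_zero fun m x h => ?_
  by_cases hm : m = 0
  · exact Or.inl hm
  right
  obtain ⟨f, rfl⟩ := Submodule.Quotient.mk_surjective _ x
  rw [← Submodule.Quotient.mk_smul, Submodule.Quotient.mk_eq_zero] at h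
  rw [Submodule.Quotient.mk_eq_zero]
  obtain ⟨c, hc⟩ := h
  obtain ⟨t0, h0⟩ := hc.exists
  refine ⟨f t0, ?_⟩
  filter_upwards [hc] with t h1
  rw [← h0, Pi.smul_apply, Pi.smul_apply] at h1
  exact smul_right_injective _ hm h1

theorem exists_frame (a : ℕ) (U : Ultrafilter τ) (N : τ → ℕ) (hN : Tendsto N U atTop)
    (L : List ((τ → ℤ) × (τ → ℤ))) (hL : ∀ p ∈ L, Bd U N p.1 ∧ Bd U N p.2) :
    ∃ (ρ : ℕ) (F : Fr a U N ρ), ∀ p ∈ L, F.Cov p.1 p.2 := by
  classical
  let C := grframe_C (U : Filter τ)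
  let S : Finset (τ → ℤ × ℤ) := (L.map fun p t => (p.1 t, p.2 t)).toFinset
  let W : Submodule ℤ ((τ → ℤ × ℤ) ⧸ C) := (Submodule.span ℤ (S : Set (τ → ℤ × ℤ))).map C.mkQ
  have := grframe_tf U
  have : Module.Finite ℤ W :=
    Module.Finite.iff_fg.mpr (Submodule.FG.map _ (Submodule.fg_span S.finite_toSet))
  have : Module.Free ℤ W := Module.free_of_finite_type_torsion_free'
  let b := Module.finBasis ℤ W
  have hg : ∀ i, ∃ g ∈ Submodule.span ℤ (S : Set (τ → ℤ × ℤ)), C.mkQ g = (b i : _ ⧸ C) :=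
    fun i => (b i).2
  choose g hg1 hg2 using hg
  have hB : Submodule.span ℤ (S : Set (τ → ℤ × ℤ)) ≤ grframe_B U N := by
    rw [Submodule.span_le]
    intro f hf
    simp only [S, List.coe_toFinset, List.mem_map, Set.mem_ofPred_eq] at hf
    obtain ⟨p, hp, rfl⟩ := hf
    exact hL p hp
  have h2 : ∀ i, ∃ w, Tendsto (fun t => ((g i t).1 : ℝ) * Real.log 2 / N t) U (𝓝 w) :=
    fun i => Bd.exists_tendsto U hN (hB (hg1 i)).1 _
  have ha : ∀ i, ∃ w, Tendsto (fun t => ((g i t).2 : ℝ) * Real.log a / N t) U (𝓝 w) :=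
    fun i => Bd.exists_tendsto U hN (hB (hg1 i)).2 _
  choose w2 hw2 using h2
  choose wa hwa using ha
  have hsum : ∀ m : Fin (Module.finrank ℤ W) → ℤ,
      C.mkQ (∑ i, m i • g i) = ((∑ i, m i • b i : W) : _ ⧸ C) := by
    intro m
    simp only [map_sum, map_smul, hg2, Submodule.coe_sum, Submodule.coe_smul]
  refine ⟨Module.finrank ℤ W, ⟨fun i t => (g i t).1, fun i t => (g i t).2, w2, wa, hw2, hwa, ?_⟩,
    ?_⟩
  · intro m hm c₁ c₂ h
    have h1 : ∑ i, m i • g i ∈ C := by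
      refine ⟨(c₁, c₂), ?_⟩
      filter_upwards [h] with t ht
      rw [← ht.1, ← ht.2]
      ext
      · simp [Prod.fst_sum]
      · simp [Prod.snd_sum]
    have h3 : C.mkQ (∑ i, m i • g i) = 0 := (Submodule.Quotient.mk_eq_zero C).mpr h1
    rw [hsum, Submodule.coe_eq_zero] at h3
    exact hm (funext (Fintype.linearIndependent_iff.mp b.linearIndependent m h3))
  · intro p hp
    have h1 : (fun t => (p.1 t, p.2 t)) ∈ Submodule.span ℤ (S : Set (τ → ℤ × ℤ)) := by
      refine Submodule.subset_span ?_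
      simp only [S, List.coe_toFinset, List.mem_map, Set.mem_ofPred_eq]
      exact ⟨p, hp, rfl⟩
    let x : W := ⟨C.mkQ fun t => (p.1 t, p.2 t), Submodule.mem_map_of_mem h1⟩
    have h3 := hsum fun i => b.repr x i
    rw [b.sum_repr x] at h3
    have h4 : (fun t => (p.1 t, p.2 t)) - ∑ i, b.repr x i • g i ∈ C :=
      (Submodule.Quotient.eq C).mp h3.symm
    obtain ⟨c, hc⟩ := h4
    refine ⟨fun i => b.repr x i, c.1, c.2, ?_⟩
    filter_upwards [hc] with t ht
    rw [← ht]
    constructor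
    · simp [Prod.fst_sum]
    · simp [Prod.snd_sum]

/-- A covered unit is `γ X^m⁺ / X^m⁻`, and the weights of `m⁺ - m⁻` are the limits of the
exponents. (Take `mp i = (m i).toNat`, `mn i = (-m i).toNat`, `γ = un a c₁ c₂`.) -/
theorem Fr.Cov.split {a : ℕ} (ha3 : 3 ≤ a) {U : Ultrafilter τ} {N : τ → ℕ}
    (hN : Tendsto N U atTop) {ρ : ℕ} {F : Fr a U N ρ} {n k : τ → ℤ} (h : F.Cov n k) :
    ∃ (mp mn : Fin ρ →₀ ℕ) (γ : ℚ), γ ≠ 0 ∧
      (∀ᶠ t in U, un a (n t) (k t) * F.ev t (MvPolynomial.monomial mn 1) =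
        F.ev t (MvPolynomial.monomial mp γ)) ∧
      Tendsto (fun t => (n t : ℝ) * Real.log 2 / N t) U (𝓝 (wt F.w2 mp - wt F.w2 mn)) ∧
      Tendsto (fun t => (k t : ℝ) * Real.log a / N t) U (𝓝 (wt F.wa mp - wt F.wa mn)) := by
  have ha : a ≠ 0 := by omega
  obtain ⟨m, c₁, c₂, h⟩ := h
  let mp : Fin ρ →₀ ℕ := Finsupp.equivFunOnFinite.symm fun i => (m i).toNat
  let mn : Fin ρ →₀ ℕ := Finsupp.equivFunOnFinite.symm fun i => (-m i).toNat
  have hm : ∀ i, (mp i : ℤ) = m i + mn i := by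
    intro i
    simp only [mp, mn, Finsupp.coe_equivFunOnFinite_symm]
    omega
  have hn : ∀ t, F.nE mp t = ∑ i, m i * F.en i t + F.nE mn t := by
    intro t
    simp only [Fr.nE, hm, add_mul, sum_add_distrib]
  have hk : ∀ t, F.kE mp t = ∑ i, m i * F.ek i t + F.kE mn t := by
    intro t
    simp only [Fr.kE, hm, add_mul, sum_add_distrib]
  have h0 : ∀ c : ℝ, Tendsto (fun t => c / (N t : ℝ)) U (𝓝 0) := fun c =>
    (tendsto_natCast_atTop_atTop.comp hN).const_div_atTop c
  refine ⟨mp, mn, un a c₁ c₂, (un_pos ha _ _).ne', ?_, ?_, ?_⟩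
  · filter_upwards [h] with t ht
    rw [F.ev_monomial ha, F.ev_monomial ha, one_mul, ← un_add ha, ← un_add ha, hn, hk, ht.1, ht.2,
      add_assoc, add_assoc]
  · have h1 := (h0 (c₁ * Real.log 2)).add ((F.tendsto_nE mp).sub (F.tendsto_nE mn))
    rw [zero_add] at h1
    refine h1.congr' ?_
    filter_upwards [h] with t ht
    rw [ht.1, hn]
    push_cast
    ring
  · have h1 := (h0 (c₂ * Real.log a)).add ((F.tendsto_kE mp).sub (F.tendsto_kE mn))
    rw [zero_add] at h1
    refine h1.congr' ?_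
    filter_upwards [h] with t ht
    rw [ht.2, hk]
    push_cast
    ring

end Pool.Agent.Lib.MP_dee342_nt.Gr
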