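import Pool.Agent.Lib.MP_dee342_nt.GrUnit
import Pool.Agent.Lib.MP_dee342_nt.GrFrame

/-!
Size of the values of polynomials, and representation of the members of `Mem`.
-/

set_option autoImplicit false

namespace Pool.Agent.Lib.MP_dee342_nt.Gr

open Filter Topology Finset

variable {τ : Type}

variable {a : ℕ} {U : Ultrafilter τ} {N : τ → ℕ} {ρ : ℕ}

/-- Triangle inequality, `Fr.ev_eq_sum`, `un_real`, `tendsto_nE`, `tendsto_kE`, `ev_le_exp`. -/
theorem ev_upper (ha3 : 3 ≤ a) (hN : Tendsto N U atTop) (F : Fr a U N ρ) (f : Pol ρ) (W : ℝ)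
    (hW : ∀ m ∈ f.support, wt F.w2 m + wt F.wa m ≤ W) (ε : ℝ) (hε : 0 < ε) :
    ∀ᶠ t in U, |((F.ev t f : ℚ) : ℝ)| ≤ Real.exp ((W + ε) * N t) := by
  have ha0 : a ≠ 0 := by omega
  have hpos : ∀ᶠ t in U, 1 ≤ N t := hN.eventually (eventually_ge_atTop 1)
  have hm : ∀ᶠ t in U, ∀ m ∈ f.support,
      ((un a (F.nE m t) (F.kE m t) : ℚ) : ℝ) ≤ Real.exp ((W + ε / 2) * N t) := by
    rw [Filter.eventually_all_finset]
    intro m hm
    have h1 := (F.tendsto_nE m).add (F.tendsto_kE m)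
    have h2 : wt F.w2 m + wt F.wa m < W + ε / 2 := by linarith [hW m hm]
    filter_upwards [h1.eventually (gt_mem_nhds h2), hpos] with t ht hp
    rw [un_real ha0]
    apply Real.exp_le_exp.2
    have hp' : (0 : ℝ) < N t := by exact_mod_cast hp
    rw [← add_div, div_lt_iff₀ hp'] at ht
    exact ht.le
  filter_upwards [hm, ev_le_exp hN (∑ m ∈ f.support, |((f.coeff m : ℚ) : ℝ)|) (ε / 2)
    (by linarith)] with t ht hc
  rw [F.ev_eq_sum ha0]
  push_cast
  calc |∑ m ∈ f.support, ((f.coeff m : ℚ) : ℝ) * ((un a (F.nE m t) (F.kE m t) : ℚ) : ℝ)|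
      ≤ ∑ m ∈ f.support, |((f.coeff m : ℚ) : ℝ) * ((un a (F.nE m t) (F.kE m t) : ℚ) : ℝ)| :=
        Finset.abs_sum_le_sum_abs _ _
    _ ≤ ∑ m ∈ f.support, |((f.coeff m : ℚ) : ℝ)| * Real.exp ((W + ε / 2) * N t) := by
        apply Finset.sum_le_sum
        intro m hm
        rw [abs_mul]
        apply mul_le_mul_of_nonneg_left _ (abs_nonneg _)
        have : (0 : ℝ) < ((un a (F.nE m t) (F.kE m t) : ℚ) : ℝ) := by
          exact_mod_cast un_pos ha0 _ _
        rw [abs_of_pos this]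
        exact ht m hm
    _ = (∑ m ∈ f.support, |((f.coeff m : ℚ) : ℝ)|) * Real.exp ((W + ε / 2) * N t) := by
        rw [Finset.sum_mul]
    _ ≤ Real.exp (ε / 2 * N t) * Real.exp ((W + ε / 2) * N t) :=
        mul_le_mul_of_nonneg_right hc (Real.exp_pos _).le
    _ = Real.exp ((W + ε) * N t) := by
        rw [← Real.exp_add]; ring_nf

/-- The pointwise Liouville inequality. -/
theorem greval_liou (ha0 : a ≠ 0) {J : Type} (S : Finset J) (c : J → ℚ) (n k : J → ℤ) (n0 k0 : ℤ)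
    (hn : ∀ j ∈ S, n0 ≤ n j) (hk : ∀ j ∈ S, k0 ≤ k j)
    (hne : ∑ j ∈ S, c j * un a (n j) (k j) ≠ 0) :
    un a n0 k0 ≤ (∏ j ∈ S, ((c j).den : ℚ)) * |∑ j ∈ S, c j * un a (n j) (k j)| := by
  classical
  have hint : ∀ j ∈ S, ∃ z : ℤ,
      (∏ i ∈ S, ((c i).den : ℚ)) * (c j * un a (n j) (k j)) = z * un a n0 k0 := by
    intro j hj
    obtain ⟨p, hp⟩ := Int.eq_ofNat_of_zero_le (sub_nonneg.2 (hn j hj))
    obtain ⟨q, hq⟩ := Int.eq_ofNat_of_zero_le (sub_nonneg.2 (hk j hj))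
    have e1 : n j = p + n0 := by linarith
    have e2 : k j = q + k0 := by linarith
    refine ⟨(∏ i ∈ S.erase j, ((c i).den : ℤ)) * (c j).num * ((2 : ℤ) ^ p * (a : ℤ) ^ q), ?_⟩
    rw [e1, e2, un_add ha0, un_nat, ← Finset.mul_prod_erase S _ hj]
    have e3 : ((c j).den : ℚ) * c j = (c j).num := by
      rw [mul_comm]; exact Rat.mul_den_eq_num (c j)
    push_cast
    rw [← e3]
    ring
  choose! z hz using hint
  have hd : (0 : ℚ) < ∏ j ∈ S, ((c j).den : ℚ) :=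
    Finset.prod_pos fun j _ => by exact_mod_cast (c j).den_pos
  have hu := un_pos ha0 n0 k0
  have hs : (∏ j ∈ S, ((c j).den : ℚ)) * ∑ j ∈ S, c j * un a (n j) (k j) =
      ((∑ j ∈ S, z j : ℤ) : ℚ) * un a n0 k0 := by
    rw [Finset.mul_sum, Int.cast_sum, Finset.sum_mul]
    exact Finset.sum_congr rfl hz
  have hz0 : (∑ j ∈ S, z j : ℤ) ≠ 0 := by
    intro h0
    rw [h0, Int.cast_zero, zero_mul] at hs
    exact (mul_ne_zero hd.ne' hne) hs
  have h1 : (1 : ℚ) ≤ |((∑ j ∈ S, z j : ℤ) : ℚ)| := by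
    rw [← Int.cast_abs]
    exact_mod_cast Int.one_le_abs hz0
  have h2 : (∏ j ∈ S, ((c j).den : ℚ)) * |∑ j ∈ S, c j * un a (n j) (k j)| =
      |((∑ j ∈ S, z j : ℤ) : ℚ)| * un a n0 k0 := by
    have h3 := congrArg abs hs
    rw [abs_mul, abs_mul, abs_of_pos hd, abs_of_pos hu] at h3
    exact h3
  rw [h2]
  nlinarith

/-- Liouville. Let `d` be a common denominator of the coefficients, `n₀ t`, `k₀ t` the least
exponents `nE m t`, `kE m t` over the support. Then `d * ev t f / un a (n₀ t) (k₀ t)` is an integer,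
nonzero by `Fr.ev_ne`. -/
theorem ev_lower (ha : Odd a) (ha3 : 3 ≤ a) (hN : Tendsto N U atTop) (F : Fr a U N ρ) (f : Pol ρ)
    (hf : f ≠ 0) (β2 βa : ℝ) (hβ : ∀ m ∈ f.support, β2 ≤ wt F.w2 m ∧ βa ≤ wt F.wa m)
    (ε : ℝ) (hε : 0 < ε) :
    ∀ᶠ t in U, Real.exp ((β2 + βa - ε) * N t) ≤ |((F.ev t f : ℚ) : ℝ)| := by
  have ha0 : a ≠ 0 := by omega
  have hpos : ∀ᶠ t in U, 1 ≤ N t := hN.eventually (eventually_ge_atTop 1)
  have hsupp : f.support.Nonempty := by
    rw [Finset.nonempty_iff_ne_empty]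
    intro h
    exact hf (MvPolynomial.support_eq_empty.1 h)
  have hm2 : ∀ᶠ t in U, ∀ m ∈ f.support, (β2 - ε / 3) * N t ≤ (F.nE m t : ℝ) * Real.log 2 := by
    rw [Filter.eventually_all_finset]
    intro m hm
    have h2 : β2 - ε / 3 < wt F.w2 m := by linarith [(hβ m hm).1]
    filter_upwards [(F.tendsto_nE m).eventually (lt_mem_nhds h2), hpos] with t ht hp
    have hp' : (0 : ℝ) < N t := by exact_mod_cast hp
    rw [lt_div_iff₀ hp'] at ht
    exact ht.le
  have hma : ∀ᶠ t in U, ∀ m ∈ f.support, (βa - ε / 3) * N t ≤ (F.kE m t : ℝ) * Real.log a := by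
    rw [Filter.eventually_all_finset]
    intro m hm
    have h2 : βa - ε / 3 < wt F.wa m := by linarith [(hβ m hm).2]
    filter_upwards [(F.tendsto_kE m).eventually (lt_mem_nhds h2), hpos] with t ht hp
    have hp' : (0 : ℝ) < N t := by exact_mod_cast hp
    rw [lt_div_iff₀ hp'] at ht
    exact ht.le
  filter_upwards [hm2, hma, F.ev_ne ha ha3 f hf,
    ev_le_exp hN (((∏ m ∈ f.support, ((f.coeff m).den : ℚ) : ℚ) : ℝ)) (ε / 3) (by linarith)]
    with t h2 h3 hne hd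
  obtain ⟨m0, hm0, hmin0⟩ := f.support.exists_min_image (fun m => F.nE m t) hsupp
  obtain ⟨m1, hm1, hmin1⟩ := f.support.exists_min_image (fun m => F.kE m t) hsupp
  rw [F.ev_eq_sum ha0] at hne ⊢
  have hl := greval_liou ha0 f.support (fun m => f.coeff m) (fun m => F.nE m t)
    (fun m => F.kE m t) (F.nE m0 t) (F.kE m1 t) hmin0 hmin1 hne
  have hl' : ((un a (F.nE m0 t) (F.kE m1 t) : ℚ) : ℝ) ≤
      (((∏ m ∈ f.support, ((f.coeff m).den : ℚ) : ℚ) : ℝ)) *
        |((∑ m ∈ f.support, f.coeff m * un a (F.nE m t) (F.kE m t) : ℚ) : ℝ)| := by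
    rw [← Rat.cast_abs, ← Rat.cast_mul]
    exact Rat.cast_le.2 hl
  rw [un_real ha0] at hl'
  set X := |((∑ m ∈ f.support, f.coeff m * un a (F.nE m t) (F.kE m t) : ℚ) : ℝ)| with hX
  have hX0 : 0 ≤ X := abs_nonneg _
  have h4 : Real.exp ((β2 + βa - ε) * N t) * Real.exp (ε / 3 * N t) ≤
      Real.exp (F.nE m0 t * Real.log 2 + F.kE m1 t * Real.log a) := by
    rw [← Real.exp_add]
    apply Real.exp_le_exp.2
    have := h2 m0 hm0
    have := h3 m1 hm1
    linarith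
  have h5 : Real.exp ((β2 + βa - ε) * N t) * Real.exp (ε / 3 * N t) ≤
      X * Real.exp (ε / 3 * N t) := by
    refine (h4.trans hl').trans ?_
    rw [mul_comm X]
    exact mul_le_mul_of_nonneg_right hd hX0
  exact le_of_mul_le_mul_right h5 (Real.exp_pos _)

/-- Induction on the derivation of `Mem`. -/
theorem Mem.rep (ha3 : 3 ≤ a) {ι : Type} (z : ι → τ → ℤ) {f : τ → ℚ}
    (hf : Mem a U N {g | ∃ l, g = fun t => (z l t : ℚ)} f) :
    ∃ L : List (ℚ × (τ → ℤ) × (τ → ℤ) × ι), (∀ p ∈ L, Bd U N p.2.1 ∧ Bd U N p.2.2.1) ∧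
      ∀ᶠ t in U, f t =
        (L.map fun p => p.1 * un a (p.2.1 t) (p.2.2.1 t) * (z p.2.2.2 t : ℚ)).sum := by
  have ha0 : a ≠ 0 := by omega
  have hb0 : Bd (U : Filter τ) N fun _ => (0 : ℤ) := ⟨0, Eventually.of_forall fun t => by simp⟩
  induction hf with
  | gen f hf =>
    obtain ⟨l, rfl⟩ := hf
    refine ⟨[(1, fun _ => 0, fun _ => 0, l)], ?_, Eventually.of_forall fun t => ?_⟩
    · intro p hp
      rw [List.mem_singleton] at hp
      subst hp
      exact ⟨hb0, hb0⟩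
    · simp [un_zero]
  | zero => exact ⟨[], by simp, Eventually.of_forall fun t => by simp⟩
  | add f g _ _ ihf ihg =>
    obtain ⟨L, hL, eL⟩ := ihf
    obtain ⟨M, hM, eM⟩ := ihg
    refine ⟨L ++ M, ?_, ?_⟩
    · intro p hp
      rcases List.mem_append.1 hp with h | h
      · exact hL p h
      · exact hM p h
    · filter_upwards [eL, eM] with t h1 h2
      rw [List.map_append, List.sum_append, h1, h2]
  | smul r f _ ih =>
    obtain ⟨L, hL, eL⟩ := ih
    refine ⟨L.map fun p => (r * p.1, p.2), ?_, ?_⟩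
    · intro p hp
      obtain ⟨p', hp', rfl⟩ := List.mem_map.1 hp
      exact hL p' hp'
    · filter_upwards [eL] with t h1
      rw [h1, List.map_map, ← List.sum_map_mul_left]
      congr 1
      apply List.map_congr_left
      intro p _
      simp only [Function.comp_apply]
      ring
  | unit n k f hn hk _ ih =>
    obtain ⟨L, hL, eL⟩ := ih
    refine ⟨L.map fun p => (p.1, fun t => n t + p.2.1 t, fun t => k t + p.2.2.1 t, p.2.2.2),
      ?_, ?_⟩
    · intro p hp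
      obtain ⟨p', hp', rfl⟩ := List.mem_map.1 hp
      exact ⟨hn.add (hL p' hp').1, hk.add (hL p' hp').2⟩
    · filter_upwards [eL] with t h1
      rw [h1, List.map_map, ← List.sum_map_mul_left]
      congr 1
      apply List.map_congr_left
      intro p _
      simp only [Function.comp_apply]
      rw [un_add ha0]
      ring
  | congr f g _ hfg ih =>
    obtain ⟨L, hL, eL⟩ := ih
    refine ⟨L, hL, ?_⟩
    filter_upwards [eL, hfg] with t h1 h2
    rw [← h2, h1]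

theorem greval_list (ha3 : 3 ≤ a) (hN : Tendsto N U atTop) (F : Fr a U N ρ) {I : Type}
    [Fintype I] (e : I → τ → ℤ) {ι : Type} (z : ι → τ → ℤ) (P : Pol ρ)
    (hP : ∀ l, ∃ f, F.Rep e (z l) P f) (L : List (ℚ × (τ → ℤ) × (τ → ℤ) × ι))
    (hL : ∀ p ∈ L, F.Cov p.2.1 p.2.2.1) :
    ∃ (E : Fin ρ →₀ ℕ) (f : I → Pol ρ), ∀ᶠ t in U,
      F.ev t (MvPolynomial.monomial E 1 * P) *
        (L.map fun p => p.1 * un a (p.2.1 t) (p.2.2.1 t) * (z p.2.2.2 t : ℚ)).sum =
          ∑ i, F.ev t (f i) * (e i t : ℚ) := by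
  induction L with
  | nil => exact ⟨0, fun _ => 0, Eventually.of_forall fun t => by simp⟩
  | cons p L ih =>
    obtain ⟨E, f, hE⟩ := ih fun q hq => hL q (List.mem_cons_of_mem _ hq)
    obtain ⟨mp, mn, γ, -, hs, -, -⟩ := (hL p List.mem_cons_self).split ha3 hN
    obtain ⟨f0, hf0⟩ := hP p.2.2.2
    refine ⟨E + mn, fun i => MvPolynomial.monomial mn 1 * f i +
      MvPolynomial.monomial E 1 * MvPolynomial.C p.1 * MvPolynomial.monomial mp γ * f0 i, ?_⟩
    filter_upwards [hE, hs, hf0] with t h1 h2 h3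
    have hm : (MvPolynomial.monomial (E + mn) 1 : Pol ρ) =
        MvPolynomial.monomial E 1 * MvPolynomial.monomial mn 1 := by
      rw [MvPolynomial.monomial_mul, one_mul]
    have hC : F.ev t (MvPolynomial.C p.1) = p.1 := by simp [Fr.ev]
    rw [hm, List.map_cons, List.sum_cons]
    generalize (L.map fun p => p.1 * un a (p.2.1 t) (p.2.2.1 t) * (z p.2.2.2 t : ℚ)).sum = S
      at h1 ⊢
    simp only [map_mul, map_add, hC] at h1 ⊢
    rw [← h2]
    simp only [add_mul, Finset.sum_add_distrib, mul_assoc, ← Finset.mul_sum]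
    rw [← h1, ← h3]
    ring

/-- Induction on the list, stated for rational sequences `y` first: with `Fr.Cov.split`, a term
`r * un * z l` has the denominator `monomial mn 1 * P`. -/
theorem rep_of_cov (ha3 : 3 ≤ a) (hN : Tendsto N U atTop) (F : Fr a U N ρ) {I : Type} [Fintype I]
    (e : I → τ → ℤ) {ι : Type} (z : ι → τ → ℤ) (P : Pol ρ) (hP : ∀ l, ∃ f, F.Rep e (z l) P f)
    (L : List (ℚ × (τ → ℤ) × (τ → ℤ) × ι)) (hL : ∀ p ∈ L, F.Cov p.2.1 p.2.2.1) (y : τ → ℤ)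
    (hy : ∀ᶠ t in U, (y t : ℚ) =
      (L.map fun p => p.1 * un a (p.2.1 t) (p.2.2.1 t) * (z p.2.2.2 t : ℚ)).sum) :
    ∃ (E : Fin ρ →₀ ℕ) (f : I → Pol ρ), F.Rep e y (MvPolynomial.monomial E 1 * P) f := by
  obtain ⟨E, f, hE⟩ := greval_list ha3 hN F e z P hP L hL
  refine ⟨E, f, ?_⟩
  filter_upwards [hE, hy] with t h1 h2
  rw [h2, h1]

end Pool.Agent.Lib.MP_dee342_nt.Gr
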