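import Pool.Agent.Lib.MP_dee342_nt.GrVal
import Pool.Agent.Lib.MP_dee342_nt.GrEval

/-!
The growth theorem along an ultrafilter.

Proof. The `c j` are in `Mem` as well (closure, `un_nat`). Represent all `y j` (`j ≤ R`) and `c j`
(`j < R`) by `Mem.rep`, take a frame covering all the units of these lists and the units
`(n j, 0)`, `(0, κ j)` (`exists_frame`), `I` from `exists_indep`, `P₀` from `den_cost`
(`∑ i : I, h i ≤ H`), and `P = monomial E 1 * P₀` with `E` the sum of the exponents given by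
`rep_of_cov` (`Fr.Rep.mul`): coordinates `f j`, `b j` of `y j`, `c j` with the same denominator `P`.
Let `β2, βa` be the least weights on `P.support`; every monomial of `P` has
`w2 + wa ≤ β2 + βa + H`. By `val`, the monomials of `b j i` and `f 0 i` have `w2 ≤ β2 + Θ`,
`wa ≤ βa + Θ` with `Θ = 3 H + hc`, and those of `f R i` have `w2 ≥ β2 - H`. With `Fr.Cov.split`
(`σ⁺, σ⁻, γ` for `(n j, 0)` and `τ⁺, τ⁻, γ'` for `(0, κ j)`), independence of `e` turns the recursion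
into `monomial (σ⁺ + τ⁻) γ * f (j+1) i = monomial (τ⁺ + σ⁻) γ' * f j i + monomial (σ⁻ + τ⁻) 1 * b j i`,
and `persist` (with `ν j = lim n j log 2 / N`, uniqueness of limits) bounds the monomials of
`f j i`. Conclude with `ev_upper` for the `f j i` and `ev_lower` for `P`:
`|y j| ≤ exp ((2 Θ + H + ε) N)`.
-/

set_option autoImplicit false

namespace Pool.Agent.Lib.MP_dee342_nt.Gr

open Filter Topology Finset

variable {τ : Type}

section aux

variable {a : ℕ} {U : Ultrafilter τ} {N : τ → ℕ} {ρ : ℕ}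

theorem grcore_shift {F : Fr a U N ρ} {I : Type} [Fintype I] {e : I → τ → ℤ} {y : τ → ℤ}
    {P : Pol ρ} {E : Fin ρ →₀ ℕ} (h : ∃ f, F.Rep e y (MvPolynomial.monomial E 1 * P) f)
    (E' : Fin ρ →₀ ℕ) : ∃ f, F.Rep e y (MvPolynomial.monomial (E' + E) 1 * P) f := by
  obtain ⟨f, hf⟩ := h
  have h1 := hf.mul (MvPolynomial.monomial E' 1)
  rw [← mul_assoc, MvPolynomial.monomial_mul, one_mul] at h1
  exact ⟨_, h1⟩

theorem grcore_common {F : Fr a U N ρ} {I : Type} [Fintype I] {e : I → τ → ℤ} {P : Pol ρ}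
    (w : ℕ → τ → ℤ) (R : ℕ)
    (h : ∀ j < R, ∃ E f, F.Rep e (w j) (MvPolynomial.monomial E 1 * P) f) :
    ∃ E, ∀ j < R, ∃ f, F.Rep e (w j) (MvPolynomial.monomial E 1 * P) f := by
  choose! E hE using h
  refine ⟨∑ j ∈ range R, E j, fun j hj => ?_⟩
  rw [← sum_erase_add _ _ (mem_range.2 hj)]
  exact grcore_shift (hE j hj) _

theorem grcore_supp {E m : Fin ρ →₀ ℕ} {P : Pol ρ}
    (hm : m ∈ (MvPolynomial.monomial E 1 * P).support) : ∃ m' ∈ P.support, m = E + m' := by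
  classical
  obtain ⟨u, hu, m', hm', rfl⟩ := Finset.mem_add.1 (MvPolynomial.support_mul _ _ hm)
  rw [mem_singleton.1 (MvPolynomial.support_monomial_subset hu)]
  exact ⟨m', hm', rfl⟩

theorem grcore_mem (hN : Tendsto N U atTop) {S : Set (τ → ℚ)} {y y' c : τ → ℤ} {n κ : τ → ℕ}
    {A : ℕ} (hn : ∀ᶠ t in U, n t ≤ A * N t ∧ κ t ≤ A * N t)
    (hrec : ∀ᶠ t in U, 2 ^ n t * y' t = (a : ℤ) ^ κ t * y t + c t)
    (h : Mem a U N S fun t => (y t : ℚ)) (h' : Mem a U N S fun t => (y' t : ℚ)) :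
    Mem a U N S fun t => (c t : ℚ) := by
  have h1 := Mem.unit _ _ _ (Bd.of_le A (hn.mono fun _ h => h.1)) (Bd.const hN 0) h'
  have h2 := Mem.unit _ _ _ (Bd.const hN 0) (Bd.of_le A (hn.mono fun _ h => h.2)) h
  refine Mem.congr _ _ (Mem.add _ _ h1 (Mem.smul (-1) _ h2)) (hrec.mono fun t ht => ?_)
  have h3 : (2 : ℚ) ^ n t * y' t = (a : ℚ) ^ κ t * y t + c t := by exact_mod_cast ht
  simp only [un, zpow_natCast, zpow_zero, mul_one, one_mul]
  linear_combination h3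

/-- The recursion in coordinates. -/
theorem grcore_rec (ha3 : 3 ≤ a) (hN : Tendsto N U atTop) {F : Fr a U N ρ} {I : Type} [Fintype I]
    {e : I → τ → ℤ} (he : ∀ H, F.Van e H → H = 0) {P : Pol ρ} {y y' c : τ → ℤ} {n κ : τ → ℕ}
    (hrec : ∀ᶠ t in U, 2 ^ n t * y' t = (a : ℤ) ^ κ t * y t + c t)
    (h1 : F.Cov (fun t => n t) fun _ => 0) (h2 : F.Cov (fun _ => 0) fun t => κ t)
    {f f' b : I → Pol ρ} (hf : F.Rep e y P f) (hf' : F.Rep e y' P f') (hb : F.Rep e c P b) :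
    ∃ (α α' α'' : Fin ρ →₀ ℕ) (γ γ' ν : _), (γ ≠ 0 ∧ γ' ≠ 0) ∧
      (∀ i, MvPolynomial.monomial α γ * f' i =
        MvPolynomial.monomial α' γ' * f i + MvPolynomial.monomial α'' (1 : ℚ) * b i) ∧
      0 ≤ ν ∧ wt F.w2 α = wt F.w2 α' + ν ∧ wt F.w2 α = wt F.w2 α'' + ν ∧
      wt F.wa α ≤ wt F.wa α' ∧ wt F.wa α'' = wt F.wa α ∧
      Tendsto (fun t => (n t : ℝ) * Real.log 2 / N t) U (𝓝 ν) := by
  obtain ⟨sp, sn, γ, hγ, s1, s2, s3⟩ := h1.split ha3 hN
  obtain ⟨tp, tn, γ', hγ', t1, t2, t3⟩ := h2.split ha3 hN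
  simp only [Int.cast_zero, zero_mul, zero_div, Int.cast_natCast] at s2 s3 t2 t3
  have e1 := tendsto_nhds_unique s3 tendsto_const_nhds
  have e2 := tendsto_nhds_unique t2 tendsto_const_nhds
  have e3 := ge_of_tendsto' (b := 0) s2 fun t => by positivity
  have e4 := ge_of_tendsto' (b := 0) t3 fun t => by positivity
  refine ⟨sp + tn, tp + sn, sn + tn, γ, γ', _, ⟨hγ, hγ'⟩, fun i => ?_, e3, ?_, ?_, ?_, ?_, s2⟩
  · have hv := he (fun i => MvPolynomial.monomial (sp + tn) γ * f' i -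
        (MvPolynomial.monomial (tp + sn) γ' * f i + MvPolynomial.monomial (sn + tn) 1 * b i)) ?_
    · exact sub_eq_zero.1 (congrFun hv i)
    · filter_upwards [hrec, s1, t1, hf, hf', hb] with t r0 r1 r2 r3 r4 r5
      have r6 : (2 : ℚ) ^ n t * y' t = (a : ℚ) ^ κ t * y t + c t := by exact_mod_cast r0
      simp only [un, zpow_natCast, zpow_zero, mul_one, one_mul] at r1 r2
      have m1 : (MvPolynomial.monomial (sp + tn) γ : Pol ρ) =
          MvPolynomial.monomial sp γ * MvPolynomial.monomial tn 1 := by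
        rw [MvPolynomial.monomial_mul, mul_one]
      have m2 : (MvPolynomial.monomial (tp + sn) γ' : Pol ρ) =
          MvPolynomial.monomial tp γ' * MvPolynomial.monomial sn 1 := by
        rw [MvPolynomial.monomial_mul, mul_one]
      have m3 : (MvPolynomial.monomial (sn + tn) 1 : Pol ρ) =
          MvPolynomial.monomial sn 1 * MvPolynomial.monomial tn 1 := by
        rw [MvPolynomial.monomial_mul, mul_one]
      simp only [m1, m2, m3, map_sub, map_add, map_mul, sub_mul, add_mul, mul_assoc,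
        sum_sub_distrib, sum_add_distrib, ← mul_sum, ← r1, ← r2, ← r3, ← r4, ← r5]
      linear_combination (F.ev t (MvPolynomial.monomial sn 1) *
        F.ev t (MvPolynomial.monomial tn 1) * F.ev t P) * r6
  all_goals
    simp only [wt_add]
    linarith

/-- From the weights of the coordinates to the height. -/
theorem grcore_final (ha : Odd a) (ha3 : 3 ≤ a) (hN : Tendsto N U atTop) {F : Fr a U N ρ}
    {I : Type} [Fintype I] {e : I → τ → ℤ} {H : ℝ} (he : ∀ i, Ht U N (e i) H) {P : Pol ρ}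
    (hP : P ≠ 0) {β2 βa W : ℝ} (hβ : ∀ m ∈ P.support, β2 ≤ wt F.w2 m ∧ βa ≤ wt F.wa m)
    {y : τ → ℤ} {f : I → Pol ρ} (hf : F.Rep e y P f)
    (hW : ∀ i, ∀ m ∈ (f i).support, wt F.w2 m + wt F.wa m ≤ β2 + βa + W) : Ht U N y (W + H) := by
  intro ε hε
  have hε' : 0 < ε / 4 := by positivity
  filter_upwards [hf, ev_lower ha ha3 hN F P hP β2 βa hβ _ hε',
    eventually_all.2 fun i => ev_upper ha3 hN F (f i) _ (hW i) _ hε',
    eventually_all.2 fun i => he i _ hε', ev_le_exp hN (Fintype.card I) _ hε'] with t r0 r1 r2 r3 r4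
  have r5 : ((F.ev t P : ℚ) : ℝ) * (y t : ℝ) = ∑ i, ((F.ev t (f i) : ℚ) : ℝ) * (e i t : ℝ) := by
    exact_mod_cast r0
  have r6 : |((F.ev t P : ℚ) : ℝ)| * |(y t : ℝ)| ≤ Fintype.card I *
      (Real.exp ((β2 + βa + W + ε / 4) * N t) * Real.exp ((H + ε / 4) * N t)) := by
    rw [← abs_mul, r5]
    refine (abs_sum_le_sum_abs _ _).trans ?_
    rw [← nsmul_eq_mul, ← card_univ]
    refine sum_le_card_nsmul _ _ _ fun i _ => ?_
    rw [abs_mul]
    exact mul_le_mul (r2 i) (r3 i) (abs_nonneg _) (Real.exp_pos _).le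
  refine le_of_mul_le_mul_left (a := Real.exp ((β2 + βa - ε / 4) * N t)) ?_ (Real.exp_pos _)
  refine ((mul_le_mul_of_nonneg_right r1 (abs_nonneg _)).trans r6).trans
    ((mul_le_mul_of_nonneg_right r4 (by positivity)).trans_eq ?_)
  simp only [← Real.exp_add]
  congr 1
  ring

end aux

theorem growth_core (a : ℕ) (ha : Odd a) (ha3 : 3 ≤ a) (U : Ultrafilter τ) (N : τ → ℕ)
    (hN : Tendsto N U atTop) {ι : Type} [Fintype ι] (z : ι → τ → ℤ) (h : ι → ℝ)
    (h0 : ∀ l, 0 ≤ h l) (hz : ∀ l, Ht U N (z l) (h l)) (H : ℝ) (hH : ∑ l, h l ≤ H) (R : ℕ)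
    (y c : ℕ → τ → ℤ) (n κ : ℕ → τ → ℕ) (A : ℕ)
    (hn : ∀ j < R, ∀ᶠ t in U, n j t ≤ A * N t ∧ κ j t ≤ A * N t)
    (hy : ∀ j ≤ R, ∃ B, 0 ≤ B ∧ Ht U N (y j) B) (hc : ℝ) (hc0 : 0 ≤ hc)
    (hy0 : Ht U N (y 0) hc) (hcj : ∀ j < R, Ht U N (c j) hc)
    (hrec : ∀ j < R, ∀ᶠ t in U, 2 ^ n j t * y (j + 1) t = (a : ℤ) ^ κ j t * y j t + c j t)
    (hmem : ∀ j ≤ R, Mem a U N {g | ∃ l, g = fun t => (z l t : ℚ)} fun t => (y j t : ℚ))
    (j : ℕ) (hj : j ≤ R) (θ : ℝ) (hθ : 4 * H + hc < θ)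
    (hrem : ∀ᶠ t in U, θ * N t ≤ Real.log 2 * (∑ i ∈ Ico j R, n i t : ℕ)) :
    Ht U N (y j) (7 * H + 2 * hc) := by
  classical
  have hcm : ∀ j < R, Mem a U N {g | ∃ l, g = fun t => (z l t : ℚ)} fun t => (c j t : ℚ) :=
    fun j hj => grcore_mem hN (hn j hj) (hrec j hj) (hmem j hj.le) (hmem (j + 1) hj)
  choose! Ly hLy hLy' using fun j hj => (hmem j hj).rep ha3 z
  choose! Lc hLc hLc' using fun j hj => (hcm j hj).rep ha3 z
  obtain ⟨ρ, F, hF⟩ := exists_frame a U N hN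
    (((List.range (R + 1)).flatMap fun j => (Ly j).map fun p => (p.2.1, p.2.2.1)) ++
      (List.range R).flatMap fun j => ((Lc j).map fun p => (p.2.1, p.2.2.1)) ++
        [(fun t => (n j t : ℤ), fun _ => 0), (fun _ => 0, fun t => (κ j t : ℤ))]) (by
      simp only [List.mem_append, List.mem_flatMap, List.mem_range, List.mem_map, List.mem_cons,
        List.not_mem_nil, or_false]
      rintro _ (⟨j, hj, p, hp, rfl⟩ | ⟨j, hj, ⟨p, hp, rfl⟩ | rfl | rfl⟩)
      · exact hLy j (Nat.lt_succ_iff.1 hj) p hp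
      · exact hLc j hj p hp
      · exact ⟨Bd.of_le A ((hn j hj).mono fun _ h => h.1), Bd.const hN 0⟩
      · exact ⟨Bd.const hN 0, Bd.of_le A ((hn j hj).mono fun _ h => h.2)⟩)
  simp only [List.mem_append, List.mem_flatMap, List.mem_range, List.mem_map, List.mem_cons,
    List.not_mem_nil, or_false] at hF
  obtain ⟨I, he, hden⟩ := exists_indep F z
  have hI : ∑ i : I, h i ≤ H := by
    rw [sum_coe_sort I h]
    exact (sum_le_sum_of_subset_of_nonneg (subset_univ I) fun l _ _ => h0 l).trans hH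
  obtain ⟨P₀, hP₀, hz₀, hcost⟩ := den_cost ha ha3 hN F (fun i : I => z i) he (fun i : I => h i)
    (fun i => h0 i) (fun i => hz i) z h hz hden
  obtain ⟨E1, hE1⟩ := grcore_common (F := F) (e := fun i : I => z i) (P := P₀) y (R + 1)
    fun j hj => rep_of_cov ha3 hN F _ z P₀ hz₀ (Ly j)
      (fun p hp => hF _ (Or.inl ⟨j, hj, p, hp, rfl⟩)) _ (hLy' j (Nat.lt_succ_iff.1 hj))
  obtain ⟨E2, hE2⟩ := grcore_common (F := F) (e := fun i : I => z i) (P := P₀) c R
    fun j hj => rep_of_cov ha3 hN F _ z P₀ hz₀ (Lc j)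
      (fun p hp => hF _ (Or.inr ⟨j, hj, Or.inl ⟨p, hp, rfl⟩⟩)) _ (hLc' j hj)
  choose! f hf using fun j (hj : j ≤ R) => grcore_shift (hE1 j (Nat.lt_succ_iff.2 hj)) E2
  choose! b hb using fun j hj => grcore_shift (hE2 j hj) E1
  rw [add_comm E1] at hb
  have hP : MvPolynomial.monomial (E2 + E1) (1 : ℚ) * P₀ ≠ 0 :=
    mul_ne_zero (by simp) hP₀
  have hcost' : ∀ m0 ∈ (MvPolynomial.monomial (E2 + E1) (1 : ℚ) * P₀).support,
      ∀ m2 ∈ (MvPolynomial.monomial (E2 + E1) (1 : ℚ) * P₀).support,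
      ∀ ma ∈ (MvPolynomial.monomial (E2 + E1) (1 : ℚ) * P₀).support,
      wt F.w2 m0 + wt F.wa m0 - wt F.w2 m2 - wt F.wa ma ≤ H := by
    intro m0 k0 m2 k2 ma ka
    obtain ⟨u0, l0, rfl⟩ := grcore_supp k0
    obtain ⟨u2, l2, rfl⟩ := grcore_supp k2
    obtain ⟨ua, la, rfl⟩ := grcore_supp ka
    have := hcost u0 l0 u2 l2 ua la
    simp only [wt_add]
    linarith
  generalize MvPolynomial.monomial (E2 + E1) (1 : ℚ) * P₀ = P at hf hb hP hcost'
  obtain ⟨m2, k2, l2⟩ := exists_min_image P.support (wt F.w2) (MvPolynomial.support_nonempty.2 hP)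
  obtain ⟨ma, ka, la⟩ := exists_min_image P.support (wt F.wa) (MvPolynomial.support_nonempty.2 hP)
  have hval : ∀ (w : τ → ℤ) (B : ℝ), 0 ≤ B → Ht U N w B → ∀ g, F.Rep (fun i : I => z i) w P g →
      ∀ i, ∀ m ∈ (g i).support, wt F.w2 m2 - H ≤ wt F.w2 m ∧
        wt F.w2 m ≤ wt F.w2 m2 + (3 * H + B) ∧ wt F.wa m ≤ wt F.wa ma + (3 * H + B) := by
    intro w B hB hw g hg i m hm
    obtain ⟨⟨u1, v1, w1⟩, ⟨u2, v2, w2⟩, u3, v3, w3⟩ := val ha ha3 hN F _ he (fun i : I => h i)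
      (fun i => h0 i) (fun i => hz i) w B hB hw P hP g hg i m hm
    have x1 := l2 u1 v1
    have x2 := la u2 v2
    have x3 := hcost' u3 v3 m2 k2 ma ka
    exact ⟨by linarith, by linarith, by linarith⟩
  choose! α α' α'' γ γ' ν g1 g2 g3 g4 g5 g6 g7 g8 using fun j (hj : j < R) =>
    grcore_rec ha3 hN he (hrec j hj) (hF _ (Or.inr ⟨j, hj, Or.inr (Or.inl rfl)⟩))
      (hF _ (Or.inr ⟨j, hj, Or.inr (Or.inr rfl)⟩)) (hf j hj.le) (hf (j + 1) hj) (hb j hj)
  have hν : θ ≤ ∑ i ∈ Ico j R, ν i := by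
    refine ge_of_tendsto (tendsto_finsetSum _ fun i hi => g8 i (mem_Ico.1 hi).2) ?_
    filter_upwards [hrem, hN.eventually_gt_atTop 0] with t r1 r2
    rw [← sum_div, le_div_iff₀ (by exact_mod_cast r2), ← sum_mul, mul_comm _ (Real.log 2)]
    exact_mod_cast r1
  obtain ⟨B, hB, hyR⟩ := hy R le_rfl
  have hfin := grcore_final ha ha3 hN (e := fun i : I => z i) (H := H)
    (fun i => (hz i).mono ((single_le_sum (fun l _ => h0 l) (mem_univ _)).trans hH)) hP
    (fun m hm => ⟨l2 m hm, la m hm⟩) (hf j hj) (W := 2 * (3 * H + hc)) fun i m hm => by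
      have := persist F.w2 F.wa R (fun j => f j i) (fun j => b j i) α α' α'' γ γ' (fun _ => 1) ν g1
        (fun j hj => g2 j hj i) g3 g4 g5 g6 g7 (wt F.w2 m2 + (3 * H + hc))
        (wt F.wa ma + (3 * H + hc)) (wt F.w2 m2 - H)
        (fun m hm => (hval _ _ hc0 hy0 _ (hf 0 R.zero_le) i m hm).2.1)
        (fun j hj m hm => (hval _ _ hc0 (hcj j hj) _ (hb j hj) i m hm).2)
        (fun m hm => (hval _ _ hB hyR _ (hf R le_rfl) i m hm).1) j hj (by linarith) m hm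
      linarith [this.1, this.2]
  exact hfin.mono (by linarith)

end Pool.Agent.Lib.MP_dee342_nt.Gr
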