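import Pool.Agent.Lib.MP_dee342_nt.GrMarks
import Pool.Agent.Lib.MP_dee342_nt.GrCore

/-!
The growth theorem.

Proof. Let `H = log 2 + log a`, `hc = log a` and `c` with `7 H + 2 hc < c log 2`. If the statement
fails for `q, A`, choose for each `t : ℕ` a counterexample with `N t ≥ t` and a bad time `i t`, and
work along `Ultrafilter.of atTop`. Mark the times `m j t = min (j N) i` for `j ≤ A` and
`m j t = min (i + (j - A) N) (s q)` for `A ≤ j ≤ 2 A`: they increase by steps of at most `N`,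
`m 0 = 0`, `m A = i`, `m (2A) = s q`. Take `Z, D` from `marks`, `ι = Fin Z.length`,
`y j = D * T^(m j) x`, `n j = m (j+1) - m j`, `κ j` and `c j = D * c` from `aff_step`; the heights
`hy` come from iterating the recursion or from `aff_step` for `0, m j`. `growth_core` with `R = 2 A`,
`j = A`, `θ = c log 2` gives `|T^i x| ≤ |y A| ≤ exp ((7 H + 2 hc + ε) N) ≤ 2^(c N)` eventually.
-/

set_option autoImplicit false

namespace Pool.Agent.Lib.MP_dee342_nt.Gr

open Filter Topology Finset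

variable {τ : Type}

theorem grwin_ht {U : Filter τ} {N : τ → ℕ} (hN : Tendsto N U atTop) {z : τ → ℤ} {b : ℕ}
    (hb : 1 ≤ b) (B : ℕ) (hz : ∀ t, |z t| ≤ (b : ℤ) ^ (B * N t)) : Ht U N z (B * Real.log b) := by
  refine Ht.of_pow hN hb (f := fun t => B * N t) ?_ (.of_forall hz)
  refine tendsto_const_nhds.congr' ((hN.eventually_gt_atTop 0).mono fun t ht => ?_)
  have : (N t : ℝ) ≠ 0 := by exact_mod_cast ht.ne'
  simp only [Nat.cast_mul]
  field_simp

/-- the marked times -/
def grwin_m (A N i S j : ℕ) : ℕ := min (min (j * N) i + (j - A) * N) S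

theorem grwin_mono (A N i S : ℕ) : Monotone (grwin_m A N i S) := fun j j' h => by
  unfold grwin_m
  gcongr

theorem grwin_step {A N i : ℕ} (S : ℕ) (h : i ≤ A * N) (j : ℕ) :
    grwin_m A N i S (j + 1) - grwin_m A N i S j ≤ N := by
  unfold grwin_m
  rcases lt_or_ge j A with hj | hj
  · rw [Nat.sub_eq_zero_of_le hj, Nat.sub_eq_zero_of_le hj.le, add_mul]
    omega
  · have : A * N ≤ j * N := by gcongr
    rw [Nat.succ_sub hj, Nat.succ_mul, Nat.succ_mul]
    omega

theorem grwin_mid {A N i S : ℕ} (h : i ≤ S) (h' : S ≤ A * N) : grwin_m A N i S A = i := by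
  unfold grwin_m
  rw [Nat.sub_self]
  omega

theorem grwin_end {A N i S : ℕ} (h' : S ≤ A * N) : grwin_m A N i S (2 * A) = S := by
  unfold grwin_m
  rw [show 2 * A - A = A by omega]
  omega

theorem growth (a : ℕ) (ha : Odd a) (ha3 : 3 ≤ a) : ∃ c : ℕ, ∀ q A : ℕ, ∃ N₀ : ℕ, ∀ N ≥ N₀,
    ∀ (x : ℤ) (s v : ℕ → ℕ), |x| ≤ 2 ^ N → Parse a x q N s v → s q ≤ A * N →
      ∀ i, i + c * N ≤ s q → |(T a)^[i] x| ≤ 2 ^ (c * N) := by
  have l2 : 0 < Real.log 2 := Real.log_pos one_lt_two
  have ha1 : 1 ≤ a := by omega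
  have ha2 : (2 : ℤ) ≤ a := by exact_mod_cast (by omega : 2 ≤ a)
  have la : 0 ≤ Real.log a := Real.log_natCast_nonneg a
  obtain ⟨c, hc⟩ := exists_nat_gt ((7 * (Real.log 2 + Real.log a) + 2 * Real.log a) / Real.log 2)
  rw [div_lt_iff₀ l2] at hc
  refine ⟨c, fun q A => ?_⟩
  by_contra hcon
  push Not at hcon
  choose N hNt x s v hx hp hs i hi hbad using hcon
  obtain ⟨U, hU⟩ := exists_ultrafilter_le (atTop : Filter ℕ)
  have hN : Tendsto N U atTop := tendsto_atTop_mono hNt (tendsto_id.mono_left hU)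
  set m : ℕ → ℕ → ℕ := fun j t => grwin_m A (N t) (i t) (s t q) j with hm
  have his : ∀ t, i t ≤ s t q := fun t => le_of_add_le_left (hi t)
  have m1 : ∀ j t, m j t ≤ s t q := fun j t => min_le_right _ _
  have m2 : ∀ j t, m j t ≤ m (j + 1) t := fun j t => grwin_mono _ _ _ _ j.le_succ
  have m3 : ∀ j t, m (j + 1) t - m j t ≤ 1 * N t := fun j t =>
    (grwin_step _ ((his t).trans (hs t)) j).trans_eq (one_mul _).symm
  have hxa : ∀ t, |x t| ≤ (a : ℤ) ^ N t := fun t =>
    (hx t).trans (pow_le_pow_left₀ zero_le_two ha2 _)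
  have hpw : ∀ {k l : ℕ}, k ≤ l → (a : ℤ) ^ k ≤ (a : ℤ) ^ l := fun h =>
    pow_le_pow_right₀ (one_le_two.trans ha2) h
  obtain ⟨Z, D, hZ, hH, hD, hD0, hmem⟩ := marks a ha ha3 U N hN x (.of_forall hx) A q s v
    (.of_forall fun t => ⟨hp t, hs t⟩) ((List.range (2 * A + 1)).map m) fun m' hm' => by
      obtain ⟨j, -, rfl⟩ := List.mem_map.1 hm'
      exact .of_forall (m1 j)
  choose κ e he using fun j => aff_step ha ha3 x (m j) (m (j + 1))
  have hDm : ∀ {z : ℕ → ℤ} {h : ℝ}, Ht U N z h → Ht U N (fun t => D t * z t) h := fun hz =>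
    (hD.mul hz).mono (zero_add _).le
  have key := growth_core a ha ha3 U N hN (ι := Fin Z.length) (fun l => Z[l.1].1)
    (fun l => Z[l.1].2) (fun l => (hZ _ (List.getElem_mem _)).1)
    (fun l => (hZ _ (List.getElem_mem _)).2) (Real.log 2 + Real.log a)
    ((Fin.sum_univ_fun_getElem Z Prod.snd).trans_le hH) (2 * A)
    (fun j t => D t * (T a)^[m j t] (x t)) (fun j t => D t * e j t)
    (fun j t => m (j + 1) t - m j t) κ 1
    (fun j _ => .of_forall fun t => ⟨m3 j t, (he j t (m2 j t)).1.trans (m3 j t)⟩)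
    (fun j _ => ?_) (Real.log a) la ?_ (fun j _ => ?_) (fun j _ => .of_forall fun t => ?_)
    (fun j hj => ?_) A (by omega) (c * Real.log 2) (by linarith) (.of_forall fun t => ?_)
  · obtain ⟨t, h1, h2⟩ := ((key _ (sub_pos.2 hc)).and hD0).exists
    have h3 : m A t = i t := grwin_mid (his t) (hs t)
    have h4 : Real.exp (c * Real.log 2 * N t) = 2 ^ (c * N t) := by
      rw [mul_right_comm, ← Nat.cast_mul, Real.exp_nat_mul, Real.exp_log two_pos]
    simp only [h3, add_sub_cancel, h4] at h1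
    have h5 : |D t * (T a)^[i t] (x t)| ≤ 2 ^ (c * N t) := by exact_mod_cast h1
    rw [abs_mul] at h5
    exact absurd ((le_mul_of_one_le_left (abs_nonneg _) (Int.one_le_abs h2)).trans h5)
      (not_le.2 (hbad t))
  · obtain ⟨k, d, hd⟩ := aff_step ha ha3 x (fun _ => 0) (m j)
    simp only [Nat.zero_le, true_imp_iff, Nat.sub_zero, Function.iterate_zero, id] at hd
    have h0 : ∀ t, m j t ≤ A * N t := fun t => (m1 j t).trans (hs t)
    refine ⟨(A + 1 : ℕ) * Real.log a, by positivity, hDm (Ht.of_abs_le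
      (z := fun t => (a : ℤ) ^ k t * x t + d t) (Ht.add hN (grwin_ht hN ha1 _ fun t => ?_)
        (grwin_ht hN ha1 _ fun t => ?_)) (.of_forall fun t => ?_))⟩
    · rw [abs_mul, abs_of_nonneg (by positivity), add_mul, one_mul, pow_add]
      exact mul_le_mul (hpw ((hd t).1.trans (h0 t))) (hxa t) (abs_nonneg _) (by positivity)
    · exact (hd t).2.1.trans (hpw ((h0 t).trans (by gcongr; omega)))
    · rw [← (hd t).2.2, abs_mul, abs_of_nonneg (a := 2 ^ m j t) (by positivity)]
      exact le_mul_of_one_le_left (abs_nonneg _) (one_le_pow₀ one_le_two)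
  · refine hDm ((grwin_ht hN ha1 1 fun t => ?_).mono (by simp))
    simpa [hm, grwin_m] using hxa t
  · exact hDm ((grwin_ht hN ha1 1 fun t => (he j t (m2 j t)).2.1.trans (hpw (m3 j t))).mono
      (by simp))
  · linear_combination D t * (he j t (m2 j t)).2.2
  · refine Mem.congr _ _ (Mem.mono ?_ (hmem (m j) (List.mem_map_of_mem
      (List.mem_range.2 (by omega))))) (.of_forall fun t => by simp [X])
    rintro _ ⟨p, hp', rfl⟩
    obtain ⟨l, hl, rfl⟩ := List.mem_iff_getElem.1 hp'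
    exact ⟨⟨l, hl⟩, rfl⟩
  · have h1 : ∑ j ∈ Ico A (2 * A), (m (j + 1) t - m j t) = s t q - i t := by
      rw [sum_Ico_eq_sum_range, show 2 * A - A = A by omega]
      refine (sum_range_tsub (f := fun k => m (A + k) t)
        (fun k k' h => grwin_mono _ _ _ _ (by omega)) A).trans ?_
      rw [← two_mul]
      exact congrArg₂ _ (grwin_end (hs t)) (grwin_mid (his t) (hs t))
    have h2 : ((c * N t : ℕ) : ℝ) ≤ (s t q - i t : ℕ) := by
      exact_mod_cast Nat.le_sub_of_add_le' (hi t)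
    rw [h1, mul_right_comm, mul_comm, ← Nat.cast_mul]
    exact mul_le_mul_of_nonneg_left h2 l2.le

end Pool.Agent.Lib.MP_dee342_nt.Gr
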