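import Pool.Agent.Lib.MP_dee342_nt.CxWord
import Pool.Agent.Lib.MP_dee342_nt.GrWin
import Pool.Agent.Lib.MP_dee342_nt.Sep

/-!
Growth bound for orbits of low complexity.
-/

set_option autoImplicit false

namespace Pool.Agent.Lib.MP_dee342_nt.Gr

open Finset

/-- The parity word of `x` as a Boolean word. -/
def wd (a x : ℤ) : ℕ → Bool := fun i => decide (par a x i = 0)

theorem wd_eq_iff (a x y : ℤ) (i j : ℕ) : wd a x i = wd a y j ↔ par a x i = par a y j := by
  unfold wd par
  rcases Int.emod_two_eq_zero_or_one ((T a)^[i] x) with h | h <;>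
    rcases Int.emod_two_eq_zero_or_one ((T a)^[j] y) with h' | h' <;> simp [h, h']

theorem cnt_le_complexity (a x : ℤ) (L n : ℕ) : cnt (wd a x) L n ≤ complexity a x n := by
  have hfin : {w | ∃ i : ℕ, w = parWord a n ((T a)^[i] x)}.Finite := by
    refine (Set.Finite.pi' (t := fun _ : Fin n => ({0, 1} : Set ℤ)) fun _ => by simp).subset ?_
    rintro w ⟨i, rfl⟩ j
    simpa [parWord] using Int.emod_two_eq_zero_or_one _
  unfold cnt complexity
  rw [← Set.ncard_coe_finset]
  refine le_trans (Set.ncard_le_ncard (t := (fun u : Fin n → ℤ => fun j => decide (u j = 0)) ''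
    {w | ∃ i : ℕ, w = parWord a n ((T a)^[i] x)}) ?_ (hfin.image _)) (Set.ncard_image_le hfin)
  intro u hu
  obtain ⟨i, -, rfl⟩ := mem_image.1 (mem_coe.1 hu)
  refine ⟨_, ⟨i, rfl⟩, ?_⟩
  funext j
  have : parWord a n ((T a)^[i] x) j = par a x (i + j) := by
    simp only [parWord, par]
    rw [← Function.iterate_add_apply, add_comm]
  exact congrArg (fun z : ℤ => decide (z = 0)) this

/-- Greedy parse. A position `i < R n` is new if its factor of length `n` does not occur earlier;
there are at most `cnt` new positions. Put `s 0 = 0`, `s (2k+1)` the first position `≥ s (2k)` that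
is not new (or `R n`), `s (2k+2) = min (s (2k+1) + n) (R n)`, `v (2k) = 0` and `v (2k+1)` the distance
to an earlier occurrence (`0` if `s (2k+1) = R n`). The literal pieces are disjoint sets of new
positions. -/
theorem exists_parse (a x : ℤ) (R n P : ℕ) (h : cnt (wd a x) (R * n) n ≤ P) :
    ∃ s v : ℕ → ℕ, Parse a x (2 * R) P s v ∧ s (2 * R) = R * n := by
  classical
  set w := wd a x with hw
  set L := R * n with hL
  let New : ℕ → Prop := fun i => ∀ i' < i, fac w i' n ≠ fac w i n
  have hnew : ((range L).filter New).card ≤ P := by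
    refine le_trans (card_le_card_of_injOn (fun i => fac w i n) (fun i hi => ?_) ?_) h
    · exact mem_coe.2 (mem_image_of_mem _ (mem_filter.1 (mem_coe.1 hi)).1)
    · intro i hi j hj e
      rcases lt_trichotomy i j with c | c | c
      · exact ((mem_filter.1 (mem_coe.1 hj)).2 i c e).elim
      · exact c
      · exact ((mem_filter.1 (mem_coe.1 hi)).2 j c e.symm).elim
  have h1 : ∀ p, ∃ q, p ≤ q ∧ (p ≤ L → q ≤ L) ∧ (L ≤ q ∨ ¬ New q) ∧
      ∀ i, p ≤ i → i < q → i < L ∧ New i := fun p => by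
    have hex : ∃ q, p ≤ q ∧ (L ≤ q ∨ ¬ New q) := ⟨p + L, by omega, Or.inl (by omega)⟩
    refine ⟨Nat.find hex, (Nat.find_spec hex).1, fun hp => Nat.find_min' hex ⟨hp, Or.inl le_rfl⟩,
      (Nat.find_spec hex).2, fun i hi hi' => ?_⟩
    have := Nat.find_min hex hi'
    rw [not_and, not_or, not_not, not_le] at this
    exact this hi
  choose nxt n1 n2 n3 n4 using h1
  have h2 : ∀ q, ∃ d, (d = 0 → New q) ∧ d ≤ q ∧ (d ≠ 0 → fac w (q - d) n = fac w q n) := fun q => by
    by_cases hq : New q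
    · exact ⟨0, fun _ => hq, Nat.zero_le _, fun h => (h rfl).elim⟩
    · have : ∃ i' < q, fac w i' n = fac w q n := by
        by_contra hc
        exact hq fun i' hi e => hc ⟨i', hi, e⟩
      obtain ⟨i', hi, e⟩ := this
      exact ⟨q - i', fun h => by omega, by omega, fun _ => by
        rwa [show q - (q - i') = i' by omega]⟩
  choose d d1 d2 d3 using h2
  let e : ℕ → ℕ := fun k => Nat.rec 0 (fun _ p => min (nxt p + n) L) k
  have e0 : e 0 = 0 := rfl
  have e1 : ∀ k, e (k + 1) = min (nxt (e k) + n) L := fun _ => rfl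
  have e2 : ∀ k, e k ≤ L ∧ min (k * n) L ≤ e k := fun k => by
    induction k with
    | zero => simp [e0]
    | succ k ih =>
      have := n1 (e k)
      rw [e1, add_mul, one_mul]
      omega
  let s : ℕ → ℕ := fun j => if j % 2 = 0 then e (j / 2) else nxt (e (j / 2))
  let v : ℕ → ℕ := fun j => if j % 2 = 0 then 0 else d (nxt (e (j / 2)))
  have s0 : ∀ k, s (2 * k) = e k := fun k => by
    simp only [s, Nat.mul_mod_right, if_true, Nat.mul_div_cancel_left k two_pos]
  have s1 : ∀ k, s (2 * k + 1) = nxt (e k) := fun k => by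
    simp only [s, if_neg (show ¬ (2 * k + 1) % 2 = 0 by omega),
      show (2 * k + 1) / 2 = k by omega]
  have s2 : ∀ k, s (2 * k + 1 + 1) = min (nxt (e k) + n) L := fun k => by
    rw [show 2 * k + 1 + 1 = 2 * (k + 1) by ring, s0, e1]
  have v0 : ∀ k, v (2 * k) = 0 := fun k => by simp only [v, Nat.mul_mod_right, if_true]
  have v1 : ∀ k, v (2 * k + 1) = d (nxt (e k)) := fun k => by
    simp only [v, if_neg (show ¬ (2 * k + 1) % 2 = 0 by omega),
      show (2 * k + 1) / 2 = k by omega]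
  have mono : ∀ j, s j ≤ s (j + 1) := fun j => by
    obtain ⟨k, rfl | rfl⟩ := Nat.even_or_odd' j
    · rw [s0, s1]
      exact n1 _
    · have := n2 _ (e2 k).1
      rw [s1, s2]
      omega
  have mono' : Monotone s := monotone_nat_of_le_succ mono
  refine ⟨s, v, ⟨s0 0, mono, ?_, fun j _ hj => ?_⟩, ?_⟩
  · refine le_trans ?_ hnew
    have hc := card_biUnion (s := (range (2 * R)).filter fun j => v j = 0)
      (t := fun j => Ico (s j) (s (j + 1))) (fun i _ j _ hij => by
        refine disjoint_left.2 fun t ht ht' => ?_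
        rw [mem_Ico] at ht ht'
        rcases lt_or_gt_of_ne hij with c | c
        · have := mono' (show i + 1 ≤ j from c)
          omega
        · have := mono' (show j + 1 ≤ i from c)
          omega)
    simp only [Nat.card_Ico] at hc
    rw [← hc]
    refine card_le_card fun t ht => ?_
    obtain ⟨j, hj, ht⟩ := mem_biUnion.1 ht
    have hv := (mem_filter.1 hj).2
    rw [mem_Ico] at ht
    obtain ⟨k, rfl | rfl⟩ := Nat.even_or_odd' j
    · rw [s0, s1] at ht
      have := n4 _ t ht.1 ht.2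
      exact mem_filter.2 ⟨mem_range.2 this.1, this.2⟩
    · rw [s1, s2] at ht
      rw [v1] at hv
      have := (n3 (e k)).resolve_right (not_not.2 (d1 _ hv))
      omega
  · obtain ⟨k, rfl | rfl⟩ := Nat.even_or_odd' j
    · exact (hj (v0 k)).elim
    · rw [v1] at hj
      rw [v1, s1, s2]
      refine ⟨d2 _, fun i hi hi' => ?_⟩
      have h3 := congrFun (d3 _ hj) ⟨i - nxt (e k), by omega⟩
      have h4 := d2 (nxt (e k))
      simp only [fac] at h3
      rw [show nxt (e k) - d (nxt (e k)) + (i - nxt (e k)) = i - d (nxt (e k)) by omega,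
        show nxt (e k) + (i - nxt (e k)) = i by omega] at h3
      exact ((wd_eq_iff a x x _ _).1 h3).symm
  · rw [s0]
    have := e2 R
    omega

/-- `growth` with `N = C n`, `q = 2 R`, `A = R`. -/
theorem growth_cx (a : ℕ) (ha : Odd a) (ha3 : 3 ≤ a) : ∃ c : ℕ, ∀ C R : ℕ, 1 ≤ C → ∃ n₀ : ℕ,
    ∀ n ≥ n₀, ∀ x : ℤ, |x| ≤ 2 ^ (C * n) → cnt (wd a x) (R * n) n ≤ C * n →
      ∀ i, i + c * C * n ≤ R * n → |(T a)^[i] x| ≤ 2 ^ (c * C * n) := by
  obtain ⟨c, hc⟩ := growth a ha ha3
  refine ⟨c, fun C R hC => ?_⟩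
  obtain ⟨N₀, hN⟩ := hc (2 * R) R
  refine ⟨N₀, fun n hn x hx hcnt i hi => ?_⟩
  obtain ⟨s, v, hp, hs⟩ := exists_parse a x R n (C * n) hcnt
  have h1 : n ≤ C * n := Nat.le_mul_of_pos_left _ hC
  rw [mul_assoc] at hi ⊢
  exact hN (C * n) (le_trans hn h1) x s v hx hp (hs ▸ Nat.mul_le_mul_left R h1) i (hs ▸ hi)

/-- Distinct small values have distinct parity words (`sep`). -/
theorem sepa_of_le {a : ℕ} (ha : Odd a) (x : ℤ) (B L c : ℕ) (hc : B + 2 ≤ c)
    (hx : ∀ i ≤ L, |(T a)^[i] x| ≤ 2 ^ B)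
    (hinj : ∀ i j, i < j → j ≤ L → (T a)^[i] x ≠ (T a)^[j] x) : Sepa (wd a x) c L := by
  intro i j hij hj e
  refine hinj i j hij hj ?_
  have h1 := sep (a := (a : ℤ)) (by exact_mod_cast ha) c ((T a)^[i] x) ((T a)^[j] x) fun t ht => by
    have := (wd_eq_iff _ _ _ _ _).1 (congrFun e ⟨t, ht⟩)
    simp only [par] at this
    rwa [← Function.iterate_add_apply, ← Function.iterate_add_apply, add_comm t, add_comm t]
  have h2 := hx i (by omega)
  have h3 := hx j hj
  have h4 : (2 : ℤ) ^ (B + 2) ≤ 2 ^ c := pow_le_pow_right₀ (by norm_num) hc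
  have h5 : (0 : ℤ) < 2 ^ B := by positivity
  rw [pow_add] at h4
  have h6 := Int.eq_zero_of_abs_lt_dvd h1 (by
    have := abs_sub ((T a)^[i] x) ((T a)^[j] x)
    linarith)
  exact sub_eq_zero.1 h6

end Pool.Agent.Lib.MP_dee342_nt.Gr
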