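import Pool.Agent.Lib.MP_dee342_nt.CxAff

/-!
From a chain of breaks to a system of the rigidity theorem.

Write `x i` for `T^i x`, `od s e` for the number of odd values at times in `[s, e)` and `cs s e` for
the constant in `2^(e-s) x e = a^(od s e) x s + cs s e`; both depend only on the word on `[s, e)`.
For a break `t` with period `π` let `κ = od (t - π) t`, `γ = cs (t - π) t`, `D t = 2^π - a^κ` (odd);
then `D t * x t - γ = a^κ (x (t - π) - x t)` is odd, since the parities at `t - π` and `t` differ.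
Let `D` be the product of the distinct values of the `D (t k)`, `k ≤ R` (at most `3 C + 1` of them,
each of size at most `a^π ≤ 2^(a π)`) and `g k = (D / D (t k)) * (D (t k) * x (t k) - γ k)`.
-/

set_option autoImplicit false

namespace Pool.Agent.Lib.MP_dee342_nt.Gr

open Finset

theorem cxsys_pow_le {a : ℕ} {i P : ℕ} (h : i ≤ P) (ha3 : 3 ≤ a) :
    (a : ℤ) ^ i ≤ 2 ^ (a * P) := by
  have h1 : a ^ i ≤ 2 ^ (a * P) :=
    calc a ^ i ≤ a ^ P := Nat.pow_le_pow_right (by omega) h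
      _ ≤ (2 ^ a) ^ P := Nat.pow_le_pow_left Nat.lt_two_pow_self.le P
      _ = _ := (pow_mul _ _ _).symm
  exact_mod_cast h1

theorem cxsys_brk {a : ℕ} (ha : Odd a) (ha3 : 3 ≤ a) (x : ℤ) {t π P : ℕ} (h1 : 1 ≤ π) (hP : π ≤ P)
    (ht : π ≤ t) (hw : wd a x t ≠ wd a x (t - π)) {Y : ℤ} (hY : ∀ i ≤ t, |(T a)^[i] x| ≤ Y) :
    Odd ((2 : ℤ) ^ π - (a : ℤ) ^ od a x (t - π) π) ∧
    |(2 : ℤ) ^ π - (a : ℤ) ^ od a x (t - π) π| ≤ 2 ^ (a * P) ∧
    |cs a x (t - π) π| ≤ 2 ^ (a * P) ∧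
    Odd (((2 : ℤ) ^ π - (a : ℤ) ^ od a x (t - π) π) * (T a)^[t] x - cs a x (t - π) π) ∧
    |((2 : ℤ) ^ π - (a : ℤ) ^ od a x (t - π) π) * (T a)^[t] x - cs a x (t - π) π| ≤
      2 ^ (a * P) * (2 * Y) := by
  have ha' : Odd (a : ℤ) := by exact_mod_cast ha
  have b1 := cxsys_pow_le ((od_le a x (t - π) π).trans hP) ha3
  have b2 : (2 : ℤ) ^ π ≤ 2 ^ (a * P) := pow_le_pow_right₀ (by norm_num) (by nlinarith)
  have b3 : (0 : ℤ) < (a : ℤ) ^ od a x (t - π) π := by positivity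
  have b4 : (0 : ℤ) < 2 ^ π := by positivity
  obtain ⟨c1, -, c2⟩ := cs_bound ha ha3 x (t - π) π
  have e : ((2 : ℤ) ^ π - (a : ℤ) ^ od a x (t - π) π) * (T a)^[t] x - cs a x (t - π) π =
      (a : ℤ) ^ od a x (t - π) π * ((T a)^[t - π] x - (T a)^[t] x) := by
    rw [cs, Nat.sub_add_cancel ht]
    ring
  refine ⟨Even.sub_odd (Even.pow_of_ne_zero even_two (by omega)) ha'.pow,
    abs_le.2 ⟨by linarith, by linarith⟩, ?_, ?_, ?_⟩
  · rw [abs_of_nonneg c1]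
    exact c2.trans (cxsys_pow_le hP ha3)
  · rw [e]
    refine ha'.pow.mul ?_
    rw [Ne, wd_eq_iff] at hw
    simp only [par] at hw
    rw [Int.odd_iff]
    omega
  · rw [e, abs_mul, abs_of_pos b3]
    refine mul_le_mul b1 ((abs_sub _ _).trans ?_) (abs_nonneg _) (by positivity)
    linarith [hY t le_rfl, hY (t - π) (Nat.sub_le _ _)]

theorem cxsys_beta {a : ℕ} (ha : Odd a) (x : ℤ) {t u t' π' : ℕ} (h1 : t ≤ u) (h0 : 1 ≤ π')
    (h2 : u + π' ≤ t') (h3 : π' ∣ t' - u) (h4 : PerOn (wd a x) π' u t') (D Q Q' E γ : ℤ)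
    (hQ : Q * E = D) (hQ' : Q' * ((2 : ℤ) ^ π' - (a : ℤ) ^ od a x (t' - π') π') = D) :
    od a x t (t' - t) = od a x t (u - t) + od a x u (t' - u) ∧
    2 ^ (t' - t) * (Q' * (((2 : ℤ) ^ π' - (a : ℤ) ^ od a x (t' - π') π') * (T a)^[t'] x -
      cs a x (t' - π') π')) - (a : ℤ) ^ od a x t (t' - t) * (Q * (E * (T a)^[t] x - γ)) =
      (a : ℤ) ^ od a x u (t' - u) * (D * cs a x t (u - t) - 2 ^ (u - t) * Q' * cs a x (t' - π') π'
        + (a : ℤ) ^ od a x t (u - t) * Q * γ) := by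
  obtain ⟨l, rfl⟩ := Nat.exists_eq_add_of_le h1
  obtain ⟨e, he⟩ := h3
  obtain ⟨e, rfl⟩ : ∃ i, e = i + 1 := ⟨e - 1, by
    rcases Nat.eq_zero_or_pos e with rfl | h
    · omega
    · omega⟩
  obtain rfl : t' = t + l + (e + 1) * π' := by rw [mul_comm]; omega
  obtain ⟨r1, r2⟩ := run_rel ha x (t + l) π' e h4
  have e1 : t + l + (e + 1) * π' - t = l + (e + 1) * π' := by omega
  have e2 : t + l + (e + 1) * π' - π' = t + l + e * π' := by rw [add_mul]; omega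
  rw [e1, e2, Nat.add_sub_cancel_left, Nat.add_sub_cancel_left, od_add]
  rw [e2] at hQ'
  rw [← r1] at r2
  refine ⟨rfl, ?_⟩
  rw [pow_add, pow_add, show cs a x t l = 2 ^ l * (T a)^[t + l] x -
    (a : ℤ) ^ od a x t l * (T a)^[t] x from rfl]
  linear_combination (2 ^ l * Q') * r2 +
    ((a : ℤ) ^ od a x (t + l) ((e + 1) * π') * 2 ^ l * (T a)^[t + l] x) * hQ' -
    ((a : ℤ) ^ od a x (t + l) ((e + 1) * π') * (a : ℤ) ^ od a x t l * (T a)^[t] x) * hQ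

theorem cxsys_bound {D Q Q' c γ γ' S A M M' : ℤ} (hS : 1 ≤ S) (hA : 1 ≤ A) (hM : 1 ≤ M)
    (hD : |D| ≤ M') (hQ : |Q| ≤ M') (hQ' : |Q'| ≤ M') (hc : |c| ≤ A * S) (hγ : |γ| ≤ M)
    (hγ' : |γ'| ≤ M) : |D * c - S * Q' * γ' + A * Q * γ| ≤ 4 * (M' * M) * (A * S) := by
  have h0 : 0 ≤ M' := (abs_nonneg _).trans hD
  have h1 : |D * c| ≤ M' * M * (A * S) := by
    rw [abs_mul]
    exact mul_le_mul (hD.trans (le_mul_of_one_le_right h0 hM)) hc (abs_nonneg _) (by positivity)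
  have h2 : |S * Q' * γ'| ≤ M' * M * (A * S) := by
    rw [abs_mul, abs_mul, abs_of_nonneg (by positivity : 0 ≤ S)]
    calc S * |Q'| * |γ'| ≤ (A * S) * M' * M := by
          gcongr
          exact le_mul_of_one_le_left (by positivity) hA
      _ = _ := by ring
  have h3 : |A * Q * γ| ≤ M' * M * (A * S) := by
    rw [abs_mul, abs_mul, abs_of_nonneg (by positivity : 0 ≤ A)]
    calc A * |Q| * |γ| ≤ (A * S) * M' * M := by
          gcongr
          exact le_mul_of_one_le_right (by positivity) hS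
      _ = _ := by ring
  have h4 : 0 ≤ M' * M * (A * S) := by positivity
  linarith [abs_add_le (D * c - S * Q' * γ') (A * Q * γ), abs_sub (D * c) (S * Q' * γ')]

/-- With `N = n / 16`, `σ k = t (k+1) - t k`, `τ k = od (t k) (σ k)`, `S° = 2^(u k - t k)`,
`T° = a^(od (t k) (u k - t k))`, `T°° = a^(od (u k) (t (k+1) - u k))`, `run_rel` gives
`β k = T°° * β°` with
`β° = D * cs (t k) (u k - t k) - S° * (D / D (k+1)) * γ (k+1) + T° * (D / D k) * γ k`,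
and `β°`, `T°` depend only on the label. Moreover `|β°| ≤ 3 * 2^(a (3C+2) n / E) * T° * S°`, and
`2^σ = S° * S°°` with `8 (t (k+1) - u k) ≥ n`; `E = 64 a (3 C + 2)` leaves `2^(n/16)` to spare for
large `n`. Equal labels and equal `g` give equal values of the orbit. -/
theorem exists_sys (a : ℕ) (ha : Odd a) (ha3 : 3 ≤ a) (C c G : ℕ) : ∃ c' B n₀ : ℕ, ∀ n ≥ n₀,
    ∀ (x : ℤ) (R K L : ℕ) (t u π : ℕ → ℕ) (lab : ℕ → Fin K) (vl : ℕ → Fin (3 * C + 1)),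
      (∀ i ≤ L, |(T a)^[i] x| ≤ 2 ^ (c * n)) →
      (∀ k ≤ R, 1 ≤ π k ∧ 64 * a * (3 * C + 2) * π k ≤ n ∧ π k ≤ t k ∧ t k ≤ L ∧
        wd a x (t k) ≠ wd a x (t k - π k)) →
      (∀ k < R, t k ≤ u k ∧ n + 8 * u k ≤ 8 * t (k + 1) ∧ t (k + 1) ≤ t k + G * n ∧
        u k + π (k + 1) ≤ t (k + 1) ∧ π (k + 1) ∣ t (k + 1) - u k ∧
        PerOn (wd a x) (π (k + 1)) (u k) (t (k + 1))) →
      (∀ k ≤ R, ∀ k' ≤ R, vl k = vl k' → π k = π k' ∧
        ∀ j < π k, wd a x (t k - π k + j) = wd a x (t k' - π k' + j)) →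
      (∀ k < R, ∀ k' < R, lab k = lab k' → vl k = vl k' ∧ vl (k + 1) = vl (k' + 1) ∧
        u k - t k = u k' - t k' ∧ ∀ j < u k - t k, wd a x (t k + j) = wd a x (t k' + j)) →
      ∃ (g : ℕ → ℤ) (σ τ : ℕ → ℕ), Sys a c' B (n / 16) R g σ τ lab ∧
        ∀ k < R, ∀ k' < R, lab k = lab k' → g k = g k' →
          (T a)^[t k] x = (T a)^[t k'] x := by
  refine ⟨32 * (c + 2), 32 * G, 64, fun n hn x R K L t u π lab vl hx h1 h2 h3 h4 => ?_⟩
  classical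
  obtain ⟨P, hP, hπ⟩ : ∃ P, 64 * a * (3 * C + 2) * P ≤ n ∧ ∀ k ≤ R, π k ≤ P :=
    ⟨n / (64 * a * (3 * C + 2)), Nat.mul_div_le _ _, fun k hk =>
      (Nat.le_div_iff_mul_le (by positivity)).2 (by rw [mul_comm]; exact (h1 k hk).2.1)⟩
  obtain ⟨E, hE⟩ : ∃ E : ℕ → ℤ, ∀ k, E k = 2 ^ π k - (a : ℤ) ^ od a x (t k - π k) (π k) :=
    ⟨_, fun _ => rfl⟩
  obtain ⟨γ, hγ⟩ : ∃ γ : ℕ → ℤ, ∀ k, γ k = cs a x (t k - π k) (π k) := ⟨_, fun _ => rfl⟩
  have hb : ∀ k ≤ R, Odd (E k) ∧ |E k| ≤ 2 ^ (a * P) ∧ |γ k| ≤ 2 ^ (a * P) ∧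
      Odd (E k * (T a)^[t k] x - γ k) ∧
      |E k * (T a)^[t k] x - γ k| ≤ 2 ^ (a * P) * (2 * 2 ^ (c * n)) := fun k hk => by
    obtain ⟨a1, -, a3, a4, a5⟩ := h1 k hk
    rw [hE, hγ]
    exact cxsys_brk ha ha3 x a1 (hπ k hk) a3 a5 fun i hi => hx i (hi.trans a4)
  have hv : ∀ k ≤ R, ∀ k' ≤ R, vl k = vl k' → E k = E k' ∧ γ k = γ k' := fun k hk k' hk' e => by
    obtain ⟨a1, a2⟩ := h3 k hk k' hk' e
    obtain ⟨a3, a4⟩ := cs_congr ha x _ _ _ a2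
    rw [hE, hE, hγ, hγ, a3, a4, a1]
    exact ⟨rfl, rfl⟩
  have hM : (1 : ℤ) ≤ 2 ^ (a * P) := one_le_pow₀ (by norm_num)
  obtain ⟨d, d1, d2, d3⟩ : ∃ d : Fin (3 * C + 1) → ℤ, (∀ v, Odd (d v)) ∧
      (∀ v, |d v| ≤ 2 ^ (a * P)) ∧ ∀ k ≤ R, d (vl k) = E k := by
    refine ⟨fun v => if h : ∃ k ≤ R, vl k = v then E h.choose else 1, fun v => ?_, fun v => ?_,
      fun k hk => ?_⟩
    · dsimp only
      split_ifs with h
      exacts [(hb _ h.choose_spec.1).1, odd_one]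
    · dsimp only
      split_ifs with h
      exacts [(hb _ h.choose_spec.1).2.1, by simpa using hM]
    · have h : ∃ k' ≤ R, vl k' = vl k := ⟨k, hk, rfl⟩
      simp only [dif_pos h]
      exact (hv _ h.choose_spec.1 k hk h.choose_spec.2).1
  have d4 : ∀ s : Finset (Fin (3 * C + 1)), Odd (∏ v ∈ s, d v) ∧
      |∏ v ∈ s, d v| ≤ (2 ^ (a * P)) ^ (3 * C + 1) := fun s => by
    refine ⟨Finset.prod_induction _ Odd (fun _ _ => Odd.mul) odd_one fun v _ => d1 v, ?_⟩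
    rw [Finset.abs_prod]
    calc ∏ v ∈ s, |d v| ≤ ∏ _v ∈ s, (2 : ℤ) ^ (a * P) :=
          Finset.prod_le_prod (fun _ _ => abs_nonneg _) fun v _ => d2 v
      _ = (2 ^ (a * P)) ^ s.card := Finset.prod_const _
      _ ≤ _ := pow_le_pow_right₀ hM (by simpa using s.card_le_univ)
  obtain ⟨Q, hQ⟩ : ∃ Q : Fin (3 * C + 1) → ℤ, ∀ v, Q v = ∏ w ∈ univ.erase v, d w :=
    ⟨_, fun _ => rfl⟩
  have q1 : ∀ k ≤ R, Q (vl k) * E k = ∏ v, d v := fun k hk => by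
    rw [hQ, ← d3 k hk]
    exact Finset.prod_erase_mul _ _ (mem_univ _)
  have q2 : ∀ v, Odd (Q v) ∧ |Q v| ≤ (2 ^ (a * P)) ^ (3 * C + 1) := fun v => hQ v ▸ d4 _
  have e0 : ((2 : ℤ) ^ (a * P)) ^ (3 * C + 1) * 2 ^ (a * P) = 2 ^ (a * (3 * C + 2) * P) := by
    rw [← pow_succ, ← pow_mul]
    exact congrArg _ (by ring)
  rw [show 64 * a * (3 * C + 2) * P = 64 * (a * (3 * C + 2) * P) by ring] at hP
  have hβ : ∀ k < R, od a x (t k) (t (k + 1) - t k) =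
      od a x (t k) (u k - t k) + od a x (u k) (t (k + 1) - u k) ∧
      bet a (fun k => Q (vl k) * (E k * (T a)^[t k] x - γ k)) (fun k => t (k + 1) - t k)
        (fun k => od a x (t k) (t (k + 1) - t k)) k =
      (a : ℤ) ^ od a x (u k) (t (k + 1) - u k) * ((∏ v, d v) * cs a x (t k) (u k - t k) -
        2 ^ (u k - t k) * Q (vl (k + 1)) * γ (k + 1) +
        (a : ℤ) ^ od a x (t k) (u k - t k) * Q (vl k) * γ k) := fun k hk => by
    obtain ⟨a1, -, -, a4, a5, a6⟩ := h2 k hk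
    have a7 := q1 (k + 1) hk
    simp only [bet]
    rw [hE (k + 1)] at a7 ⊢
    rw [hγ (k + 1)]
    exact cxsys_beta ha x a1 (h1 (k + 1) hk).1 a4 a5 a6 _ _ _ _ _ (q1 k hk.le) a7
  refine ⟨fun k => Q (vl k) * (E k * (T a)^[t k] x - γ k), fun k => t (k + 1) - t k,
    fun k => od a x (t k) (t (k + 1) - t k), ⟨fun k hk => ?_, fun k hk => ?_,
    fun k hk k' hk' e => ?_⟩, fun k hk k' hk' e e' => ?_⟩
  · obtain ⟨-, -, -, a1, a2⟩ := hb k hk
    refine ⟨(q2 _).1.mul a1, ?_⟩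
    rw [abs_mul]
    refine (mul_le_mul (q2 _).2 a2 (abs_nonneg _) (by positivity)).trans ?_
    rw [← mul_assoc, e0, ← pow_succ', ← pow_add]
    refine pow_le_pow_right₀ (by norm_num) ?_
    have a3 : (c + 2) * n ≤ (c + 2) * (32 * (n / 16)) := Nat.mul_le_mul_left _ (by omega)
    nlinarith
  · obtain ⟨a1, a2, a3, a4, -, -⟩ := h2 k hk
    have a5 : G * n ≤ G * (32 * (n / 16)) := Nat.mul_le_mul_left _ (by omega)
    have a6 : t (k + 1) - t k ≤ 32 * G * (n / 16) := by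
      rw [show 32 * G * (n / 16) = G * (32 * (n / 16)) by ring]
      omega
    refine ⟨by simp only; omega, a6, (od_le _ _ _ _).trans a6, ?_⟩
    obtain ⟨c1, c2, -⟩ := cs_bound ha ha3 x (t k) (u k - t k)
    have ha1 : (1 : ℤ) ≤ a := by exact_mod_cast (by omega : 1 ≤ a)
    have b1 := cxsys_bound (one_le_pow₀ (n := u k - t k) (by norm_num : (1 : ℤ) ≤ 2))
      (one_le_pow₀ (n := od a x (t k) (u k - t k)) ha1) hM (d4 univ).2 (q2 (vl k)).2
      (q2 (vl (k + 1))).2 ((abs_of_nonneg c1).trans_le c2) (hb k hk.le).2.2.1 (hb (k + 1) hk).2.2.1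
    rw [e0] at b1
    have b2 : (4 : ℤ) * 2 ^ (a * (3 * C + 2) * P) * 2 ^ (n / 16) ≤ 2 ^ (t (k + 1) - u k) := by
      rw [show (4 : ℤ) = 2 ^ 2 by norm_num, ← pow_add, ← pow_add]
      exact pow_le_pow_right₀ (by norm_num) (by omega)
    simp only
    rw [(hβ k hk).2, (hβ k hk).1, abs_mul, abs_of_nonneg (by positivity),
      show t (k + 1) - t k = u k - t k + (t (k + 1) - u k) by omega, pow_add, pow_add]
    calc _ ≤ (a : ℤ) ^ od a x (u k) (t (k + 1) - u k) * (4 * 2 ^ (a * (3 * C + 2) * P) *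
          ((a : ℤ) ^ od a x (t k) (u k - t k) * 2 ^ (u k - t k))) * 2 ^ (n / 16) := by gcongr
      _ = (a : ℤ) ^ od a x (t k) (u k - t k) * (a : ℤ) ^ od a x (u k) (t (k + 1) - u k) *
          (2 ^ (u k - t k) * (4 * 2 ^ (a * (3 * C + 2) * P) * 2 ^ (n / 16))) := by ring
      _ ≤ _ := by gcongr
  · obtain ⟨a1, a2, a3, a4⟩ := h4 k hk k' hk' e
    obtain ⟨a5, a6⟩ := cs_congr ha x _ _ _ a4
    simp only
    rw [(hβ k hk).2, (hβ k hk).1, (hβ k' hk').2, (hβ k' hk').1, a5, a6, a3, a1, a2,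
      (hv k hk.le k' hk'.le a1).2, (hv (k + 1) hk (k' + 1) hk' a2).2]
    ring
  · have a1 := (h4 k hk k' hk' e).1
    obtain ⟨a2, a3⟩ := hv k hk.le k' hk'.le a1
    simp only at e'
    rw [a1, a2, a3] at e'
    have a4 := mul_left_cancel₀ (fun h => by simpa [h] using (q2 (vl k')).1) e'
    exact mul_left_cancel₀ (fun h => by simpa [h] using (hb k' hk'.le).1) (sub_left_injective a4)

end Pool.Agent.Lib.MP_dee342_nt.Gr
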