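import Mathlib

/-!
Words of low complexity: factors, special positions, periods, breaks and codes.
-/

set_option autoImplicit false

namespace Pool.Agent.Lib.MP_dee342_nt.Gr

open Finset

/-- The factor of length `m` at position `i`. -/
def fac (w : ℕ → Bool) (i m : ℕ) : Fin m → Bool := fun j => w (i + j)

/-- The number of factors of length `m` that start below `L`. -/
def cnt (w : ℕ → Bool) (L m : ℕ) : ℕ := ((range L).image fun i => fac w i m).card

/-- The factor of length `m` at `i` also occurs below `L` with the other next letter. -/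
def Spec (w : ℕ → Bool) (L m i : ℕ) : Prop :=
  ∃ i' < L, fac w i' m = fac w i m ∧ w (i' + m) ≠ w (i + m)

instance (w : ℕ → Bool) (L m i : ℕ) : Decidable (Spec w L m i) := by
  unfold Spec; infer_instance

/-- The special factors. -/
def spF (w : ℕ → Bool) (L m : ℕ) : Finset (Fin m → Bool) :=
  ((range L).filter fun i => Spec w L m i).image fun i => fac w i m

/-- `w` has period `π` on `[b, e)`. -/
def PerOn (w : ℕ → Bool) (π b e : ℕ) : Prop := ∀ k, b ≤ k → k + π < e → w (k + π) = w k

/-- The least period of the factor of length `m` at `i`. -/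
noncomputable def per (w : ℕ → Bool) (m i : ℕ) : ℕ := sInf {π | 1 ≤ π ∧ PerOn w π i (i + m)}

/-- A break: the least period `π ≤ μ` of the factor at `i` extends to `[i - π, i + m)` and fails at
`i + m`. -/
def Brk (w : ℕ → Bool) (m μ i : ℕ) : Prop :=
  per w m i ≤ μ ∧ per w m i ≤ i ∧ PerOn w (per w m i) (i - per w m i) (i + m) ∧
    w (i + m) ≠ w (i + m - per w m i)

/-- The factors of length `c` at positions up to `L` are distinct. -/
def Sepa (w : ℕ → Bool) (c L : ℕ) : Prop := ∀ i j, i < j → j ≤ L → fac w i c ≠ fac w j c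

/-- The letters chosen at the special positions of `[i, i + l)`. -/
def code (w : ℕ → Bool) (L m i l : ℕ) : List Bool :=
  ((List.range' i l).filter fun p => decide (Spec w L m p)).map fun p => w (p + m)

/-- No two special positions of `(α, β]` at distance at most `μ` carry the same factor. -/
def Far (w : ℕ → Bool) (L m μ α β : ℕ) : Prop :=
  ∀ i i', α < i → i < i' → i' ≤ β → i' ≤ i + μ → Spec w L m i → fac w i m ≠ fac w i' m

variable {w : ℕ → Bool}

theorem cnt_mono (L : ℕ) {m m' : ℕ} (h : m ≤ m') : cnt w L m ≤ cnt w L m' := by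
  refine card_le_card_of_surjOn (fun f j => f (Fin.castLE h j)) fun f hf => ?_
  obtain ⟨i, hi, rfl⟩ := mem_image.1 (mem_coe.1 hf)
  exact ⟨fac w i m', mem_coe.2 (mem_image_of_mem _ hi), rfl⟩

/-- Restriction maps the factors of length `m + 1` onto those of length `m`, with two preimages
over each special factor. -/
theorem card_spF_le (L m : ℕ) : (spF w L m).card + cnt w L m ≤ cnt w L (m + 1) := by
  let T : Bool → Finset (Fin m → Bool) := fun b =>
    ((range L).filter fun i => w (i + m) = b).image fun i => fac w i m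
  have h1 : ∀ b, (T b).card ≤ (((range L).image fun i => fac w i (m + 1)).filter
      fun f => f (Fin.last m) = b).card := fun b => by
    refine card_le_card_of_surjOn (fun f j => f (Fin.castSucc j)) fun f hf => ?_
    obtain ⟨i, hi, rfl⟩ := mem_image.1 (mem_coe.1 hf)
    exact ⟨fac w i (m + 1), mem_coe.2 (mem_filter.2 ⟨mem_image_of_mem _ (mem_filter.1 hi).1,
      (mem_filter.1 hi).2⟩), rfl⟩
  have h2 := card_filter_add_card_filter_not (s := (range L).image fun i => fac w i (m + 1))
    fun f => f (Fin.last m) = true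
  simp only [Bool.not_eq_true] at h2
  have h3 : ∀ i < L, fac w i m ∈ T (w (i + m)) := fun i hi =>
    mem_image_of_mem _ (mem_filter.2 ⟨mem_range.2 hi, rfl⟩)
  have h4 : ((range L).image fun i => fac w i m) ⊆ T true ∪ T false := by
    intro f hf
    obtain ⟨i, hi, rfl⟩ := mem_image.1 hf
    have := h3 i (mem_range.1 hi)
    cases e : w (i + m) <;> rw [e] at this <;> simp [this]
  have h5 : spF w L m ⊆ T true ∩ T false := by
    intro f hf
    obtain ⟨i, hi, rfl⟩ := mem_image.1 hf
    obtain ⟨hi, i', hi', e', hne⟩ := mem_filter.1 hi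
    have a1 := h3 i (mem_range.1 hi)
    have a2 := h3 i' hi'
    rw [e'] at a2
    cases e1 : w (i + m) <;> cases e2 : w (i' + m) <;> rw [e1] at a1 hne <;> rw [e2] at a2 hne <;>
      simp_all
  have h6 := card_union_add_card_inter (T true) (T false)
  have h7 := card_le_card h4
  have h8 := card_le_card h5
  have h9 := h1 true
  have h10 := h1 false
  unfold cnt
  omega

/-- Telescoping `card_spF_le` over `(n + 1) / 2 ≤ m < n`. -/
theorem exists_scale (L n C : ℕ) (hn : 6 ≤ n) (h : cnt w L n ≤ C * n) :
    ∃ m, n ≤ 2 * m ∧ m < n ∧ (spF w L m).card ≤ 3 * C ∧ cnt w L m ≤ C * n := by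
  by_contra hcon
  have h1 : ∀ j, (n + 1) / 2 + j ≤ n → j * (3 * C + 1) ≤ cnt w L ((n + 1) / 2 + j) := by
    intro j
    induction j with
    | zero => simp
    | succ j ih =>
      intro hj
      have a1 := card_spF_le (w := w) L ((n + 1) / 2 + j)
      have a2 : 3 * C < (spF w L ((n + 1) / 2 + j)).card := lt_of_not_ge fun a3 =>
        hcon ⟨_, by omega, by omega, a3, (cnt_mono L (by omega)).trans h⟩
      have a3 := ih (by omega)
      rw [← add_assoc, add_mul]
      omega
  have h2 := h1 (n / 2) (by omega)
  rw [show (n + 1) / 2 + n / 2 = n by omega] at h2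
  have h3 : C * n ≤ C * (3 * (n / 2)) := Nat.mul_le_mul_left _ (by omega)
  have h4 : 0 < n / 2 := by omega
  nlinarith

theorem Spec.congr {L m i i' : ℕ} (hi : i < L) (h : fac w i m = fac w i' m) (hs : Spec w L m i) :
    Spec w L m i' := by
  obtain ⟨k, hk, e, hne⟩ := hs
  by_cases h1 : w (i' + m) = w (i + m)
  · exact ⟨k, hk, e.trans h, by rwa [h1]⟩
  · exact ⟨i, hi, h, fun e => h1 e.symm⟩

theorem next_eq {L m i i' : ℕ} (hi' : i' < L) (h : fac w i m = fac w i' m)
    (hs : ¬ Spec w L m i) : w (i + m) = w (i' + m) := by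
  by_contra hne
  exact hs ⟨i', hi', h.symm, fun e => hne e.symm⟩

theorem fac_succ {m i i' : ℕ} (h : fac w i m = fac w i' m) (h' : w (i + m) = w (i' + m)) :
    fac w (i + 1) m = fac w (i' + 1) m := by
  funext j
  change w (i + 1 + j) = w (i' + 1 + j)
  rw [add_assoc, add_assoc]
  by_cases hj : 1 + (j : ℕ) < m
  · exact congrFun h ⟨1 + j, hj⟩
  · rwa [show 1 + (j : ℕ) = m by omega]

theorem cxword_code (L m i l : ℕ) : code w L m i (l + 1) =
    if Spec w L m i then w (i + m) :: code w L m (i + 1) l else code w L m (i + 1) l := by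
  unfold code
  rw [List.range'_succ, List.filter_cons]
  by_cases h : Spec w L m i <;> simp [h]

/-- Simulation: induction on `l`, generalizing `i, i', l'`. -/
theorem sim {L m : ℕ} (l l' i i' : ℕ) (hi : i + l < L) (hi' : i' + l' < L)
    (h : fac w i m = fac w i' m) (hc : code w L m i l = code w L m i' l')
    (hl : l = l' ∨ (Spec w L m (i + l) ∧ Spec w L m (i' + l'))) :
    l = l' ∧ ∀ j < l + m, w (i + j) = w (i' + j) := by
  induction l generalizing i i' l' with
  | zero =>
    refine ⟨?_, fun j hj => congrFun h ⟨j, by omega⟩⟩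
    rcases l' with _ | l'
    · rfl
    · rcases hl with hl | hl
      · exact hl
      · rw [cxword_code, if_pos (Spec.congr hi h hl.1)] at hc
        simp [code] at hc
  | succ l ih =>
    rcases l' with _ | l'
    · rcases hl with hl | hl
      · omega
      · rw [cxword_code, if_pos (Spec.congr hi' h.symm hl.2)] at hc
        simp [code] at hc
    have h1 : w (i + m) = w (i' + m) ∧ code w L m (i + 1) l = code w L m (i' + 1) l' := by
      rw [cxword_code, cxword_code] at hc
      by_cases hs : Spec w L m i
      · rw [if_pos hs, if_pos (Spec.congr (by omega) h hs)] at hc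
        exact List.cons.inj hc
      · rw [if_neg hs, if_neg fun hs' => hs (Spec.congr (by omega) h.symm hs')] at hc
        exact ⟨next_eq (by omega) h hs, hc⟩
    obtain ⟨h2, h3⟩ := ih l' (i + 1) (i' + 1) (by omega) (by omega) (fac_succ h h1.1) h1.2 (by
      rw [add_assoc, add_assoc, add_comm 1, add_comm 1]
      exact hl.imp_left Nat.succ_injective.eq_iff.1)
    refine ⟨by rw [h2], fun j hj => ?_⟩
    rcases j with _ | j
    · rcases m with _ | m
      · exact h1.1
      · exact congrFun h 0
    · have := h3 j (by omega)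
      rwa [add_assoc, add_assoc, add_comm 1] at this

/-- Two of the positions `i, …, i + P` carry the same factor; without special positions the two
words agree for `c` more letters. -/
theorem exists_spec {L m c P i L' : ℕ} (hm : 1 ≤ m) (hP : cnt w L m ≤ P) (hs : Sepa w c L')
    (hL : i + P + c < L) (hL' : i + P ≤ L') : ∃ p, i ≤ p ∧ p ≤ i + P + c ∧ Spec w L m p := by
  by_contra hcon
  have key : ∀ j j', i ≤ j → j < j' → j' ≤ i + P → fac w j m ≠ fac w j' m := by
    intro j j' h1 h2 h3 e
    have h4 : ∀ k ≤ c, fac w (j + k) m = fac w (j' + k) m := by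
      intro k
      induction k with
      | zero => exact fun _ => e
      | succ k ih =>
        intro hk
        exact fac_succ (ih (by omega)) (next_eq (show j' + k < L by omega) (ih (by omega))
          fun hs' => hcon ⟨j + k, by omega, by omega, hs'⟩)
    exact hs j j' h2 (by omega) (funext fun k => congrFun (h4 k k.2.le) ⟨0, hm⟩)
  obtain ⟨j, hj, j', hj', hne, e⟩ := exists_ne_map_eq_of_card_lt_of_maps_to
    (s := Icc i (i + P)) (t := (range L).image fun i => fac w i m) (f := fun j => fac w j m)
    (by rw [Nat.card_Icc]; unfold cnt at hP; omega)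
    fun j hj => mem_coe.2 (mem_image_of_mem _ (mem_range.2 (by
      have := mem_Icc.1 (mem_coe.1 hj); omega)))
  rw [mem_Icc] at hj hj'
  rcases lt_or_gt_of_ne hne with h | h
  · exact key j j' hj.1 h hj'.2 e
  · exact key j' j hj'.1 h hj.2 e.symm

/-- The positions with a given factor are more than `μ` apart. -/
theorem card_spec_le {L m μ α β : ℕ} (hβ : β < L) (h : Far w L m μ α β) :
    ((Ioc α β).filter fun i => Spec w L m i).card ≤ (spF w L m).card * ((β - α) / (μ + 1) + 1) := by
  rw [mul_comm]
  refine card_le_mul_card_image_of_maps_to (f := fun i => fac w i m) (fun i hi => ?_) _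
    fun f _ => ?_
  · rw [mem_filter, mem_Ioc] at hi
    exact mem_image_of_mem _ (mem_filter.2 ⟨mem_range.2 (by omega), hi.2⟩)
  · have key : ∀ i i', α < i → i < i' → i' ≤ β → Spec w L m i → fac w i m = fac w i' m →
        (i - α) / (μ + 1) ≠ (i' - α) / (μ + 1) := by
      intro i i' h1 h2 h3 h4 h5 e
      have a1 := Nat.div_add_mod (i - α) (μ + 1)
      have a2 := Nat.div_add_mod (i' - α) (μ + 1)
      have a3 : (i' - α) % (μ + 1) < μ + 1 := Nat.mod_lt _ (Nat.succ_pos μ)
      rw [e] at a1
      exact h i i' h1 h2 h3 (by omega) h4 h5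
    refine (card_le_card_of_injOn (t := range ((β - α) / (μ + 1) + 1))
      (fun i => (i - α) / (μ + 1)) (fun i hi => ?_) fun i hi i' hi' e => ?_).trans (card_range _).le
    · simp only [coe_filter, mem_filter, mem_Ioc, Set.mem_ofPred_eq] at hi
      exact mem_coe.2 (mem_range.2 (Nat.lt_succ_of_le (Nat.div_le_div_right (by omega))))
    · simp only [coe_filter, mem_filter, mem_Ioc, Set.mem_ofPred_eq] at hi hi'
      rcases lt_trichotomy i i' with a | a | a
      · exact absurd e (key i i' hi.1.1.1 a hi'.1.1.2 hi.1.2 (hi.2.trans hi'.2.symm))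
      · exact a
      · exact absurd e.symm (key i' i hi'.1.1.1 a hi.1.1.2 hi'.1.2 (hi'.2.trans hi.2.symm))

end Pool.Agent.Lib.MP_dee342_nt.Gr
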