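import Pool.Agent.Lib.MP_dee342_nt.PieceDefs

/-! Pieces of the parity word that are copies of earlier letters. -/

namespace Pool.Agent.Lib.MP_dee342_nt

/-- The piece `s ≤ i < e` of the parity word of `x` consists of an arbitrary initial part
`s ≤ i < r` of length at most `1 + (e - s) / M`, followed by a copy of the letters `v` places
earlier (the source may overlap the copy). -/
def CopyPiece (a x : ℤ) (M s e : ℕ) : Prop :=
  ∃ r v : ℕ, s ≤ r ∧ r ≤ e ∧ M * (r - s) ≤ M + (e - s) ∧ 1 ≤ v ∧
    ∀ i, r ≤ i → i < e → v ≤ i ∧ par a x (i - v) = par a x i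

end Pool.Agent.Lib.MP_dee342_nt
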