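import Pool.Agent.Lib.MP_dee342_nt.GrLZ
import Pool.Agent.Lib.MP_dee342_nt.LZDefs

/-!
One window needs many copy pieces.
-/

set_option autoImplicit false

namespace Pool.Agent.Lib.MP_dee342_nt.Gr

open Filter Topology Finset

variable {τ : Type}

/-- There is a parse with `q` pieces and literal length at most `N` that ends at `e`. -/
def grlzone_P (a x : ℤ) (q N e : ℕ) : Prop := ∃ s v : ℕ → ℕ, Parse a x q N s v ∧ s q = e

theorem grlzone_zero (a x : ℤ) : grlzone_P a x 0 0 0 :=
  ⟨fun _ => 0, fun _ => 0, ⟨rfl, fun _ => le_rfl, by simp, fun j hj => absurd hj (by omega)⟩, rfl⟩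

theorem grlzone_app {a x : ℤ} {q N e : ℕ} (h : grlzone_P a x q N e) (e' w N' : ℕ) (he : e ≤ e')
    (hN : N + (if w = 0 then e' - e else 0) ≤ N')
    (hw : w ≠ 0 → w ≤ e ∧ ∀ i, e ≤ i → i < e' → par a x i = par a x (i - w)) :
    grlzone_P a x (q + 1) N' e' := by
  obtain ⟨s, v, ⟨h0, hm, hs, hc⟩, hq⟩ := h
  refine ⟨fun j => if j ≤ q then s j else e', fun j => if j < q then v j else w,
    ⟨by simpa using h0, fun j => ?_, ?_, fun j hj hv => ?_⟩, by simp⟩
  · by_cases h1 : j + 1 ≤ q
    · simp only [h1, show j ≤ q by omega, if_true]; exact hm j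
    · by_cases h2 : j ≤ q
      · simp only [h1, h2, if_true, if_false]
        rw [show j = q by omega, hq]; exact he
      · simp only [h1, h2, if_false]; exact le_rfl
  · rw [Finset.sum_filter] at hs ⊢
    rw [Finset.sum_range_succ]
    refine le_trans (add_le_add (le_trans (le_of_eq ?_) hs) (le_of_eq ?_)) hN
    · refine Finset.sum_congr rfl fun j hj => ?_
      have hj' := Finset.mem_range.mp hj
      simp only [hj', show j + 1 ≤ q by omega, show j ≤ q by omega, if_true]
    · simp [hq]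
  · by_cases h1 : j < q
    · simp only [h1, show j + 1 ≤ q by omega, show j ≤ q by omega, if_true] at hv ⊢
      exact hc j h1 hv
    · have h2 : j = q := by omega
      subst h2
      simp only [h1, le_refl, show ¬ (j + 1 ≤ j) by omega, if_true, if_false, hq] at hv ⊢
      exact hw hv

theorem grlzone_size (a : ℕ) (ha : Odd a) (ha3 : 3 ≤ a) (n : ℕ) (x : ℤ) (hx : |x| ≤ 2 ^ n)
    (i k : ℕ) (hik : i ≤ k) : |(T a)^[i] x| ≤ 2 ^ (n + 1 + a * k) := by
  have h1 := (abs_iterate_le a ha ha3 i x).1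
  have hx' : |(x : ℝ)| ≤ 2 ^ n := by exact_mod_cast hx
  have h2 : (a : ℝ) / 2 ≤ 2 ^ a := by
    have : (a : ℝ) ≤ 2 ^ a := by exact_mod_cast (Nat.lt_two_pow_self (n := a)).le
    have : (0 : ℝ) ≤ a := by positivity
    linarith
  have h3 : ((a : ℝ) / 2) ^ i ≤ 2 ^ (a * k) := by
    calc ((a : ℝ) / 2) ^ i ≤ (2 ^ a) ^ i := by gcongr
      _ = 2 ^ (a * i) := by rw [← pow_mul]
      _ ≤ 2 ^ (a * k) := pow_le_pow_right₀ (by norm_num) (Nat.mul_le_mul_left _ hik)
  have h4 : |(x : ℝ)| + 1 ≤ 2 ^ (n + 1) := by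
    have : (1 : ℝ) ≤ 2 ^ n := one_le_pow₀ (by norm_num)
    rw [pow_succ]; linarith
  have h5 : |(((T a)^[i] x : ℤ) : ℝ)| ≤ 2 ^ (n + 1 + a * k) := by
    rw [pow_add, mul_comm]
    have := mul_le_mul h3 h4 (by positivity) (by positivity)
    linarith
  exact_mod_cast h5

/-- The literal part of a piece that starts before `B n` is short. -/
theorem grlzone_lit (a : ℕ) (ha : Odd a) (ha3 : 3 ≤ a) (R B n : ℕ) (x : ℤ) (p s e r v : ℕ)
    (hn : 2 * R * (a * B + 1) + a + 1 + 2 ≤ n) (hx : |x| ≤ 2 ^ n)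
    (hd : ∀ i j, i < j → j < p → (T a)^[i] x ≠ (T a)^[j] x) (hs : s ≤ B * n) (hep : e ≤ p)
    (hsr : s ≤ r) (hre : r ≤ e)
    (hM : (2 * R * (a * B + 1) + a + 1) * (r - s) ≤ 2 * R * (a * B + 1) + a + 1 + (e - s))
    (hv : 1 ≤ v) (hc : ∀ i, r ≤ i → i < e → v ≤ i ∧ par a x (i - v) = par a x i) :
    R * (r - s) ≤ n := by
  have h1 : e ≤ r + (n + 1 + a * r) + 1 := by
    rcases hre.eq_or_lt with h | h
    · omega
    · have hvr := (hc r le_rfl h).1
      exact copy_le ha x r e v _ hvr (fun i h1 h2 => ((hc i h1 h2).2).symm)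
        (hd _ _ (by omega) (by omega)).symm (grlzone_size a ha ha3 n x hx r r le_rfl)
        (grlzone_size a ha ha3 n x hx _ r (by omega))
  obtain ⟨d, rfl⟩ := Nat.exists_eq_add_of_le hsr
  rw [Nat.add_sub_cancel_left] at hM ⊢
  have h2 : e - s ≤ d + n + 2 + a * s + a * d := by
    rw [mul_add] at h1; omega
  have h3 : a * s ≤ a * (B * n) := Nat.mul_le_mul_left _ hs
  have h4 : (2 * (a * B + 1)) * (R * d) ≤ (2 * (a * B + 1)) * n := by
    have h5 : 0 ≤ a * B * n := Nat.zero_le _
    nlinarith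
  exact Nat.le_of_mul_le_mul_left h4 (by omega)

/-- One window `[n, B n)`. Suppose at most `r` of the `t j` lie in `[n, B n)`, so that at most
`r + 1` pieces meet the window. Parse `[0, B n)` with `q = 2 r + 3` pieces: `[0, n)` is literal, and
each piece meeting the window gives its literal part and its copy part, both intersected with the
window (pad with empty pieces). A piece `[t j, t (j+1))` with `t j < B n`, `r'` its `r`, has
`t (j+1) ≤ r' + n + a r' + 2` by `copy_le` (sizes from `abs_iterate_le`: `|T^i x| ≤ 2^(n + 1 + a i)`;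
or `r' = t (j+1)`), hence `t (j+1) ≤ 4 a B n` when `M ≥ 4 a` and `n ≥ 4`, so the literal length is at
most `n + (r + 1) (1 + 4 a B n / M) ≤ 2 n` for `M ≥ 8 a B (r + 1)`, `n ≥ 2 (r + 1)`. `window` with
`N = 2 n` gives `B n ≤ c (2 r + 4) 2 n`. -/
theorem one_window (a : ℕ) (ha : Odd a) (ha3 : 3 ≤ a) : ∃ c : ℕ, ∀ r B : ℕ,
    c * (r + 1) < B → ∃ M n₀ : ℕ, ∀ n ≥ n₀, ∀ (x : ℤ) (p m : ℕ) (t : ℕ → ℕ), |x| ≤ 2 ^ n →
      B * n ≤ p → (∀ i j, i < j → j < p → (T a)^[i] x ≠ (T a)^[j] x) → Monotone t → t 0 = 0 →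
      t m = p → (∀ j < m, CopyPiece a x M (t j) (t (j + 1))) →
      r < ((range m).filter fun j => n ≤ t j ∧ t j < B * n).card := by
  obtain ⟨c, hc⟩ := window a ha ha3
  refine ⟨8 * c, fun r B hB => ?_⟩
  obtain ⟨N₀, hN₀⟩ := hc (2 * (r + 1) + 1)
  refine ⟨2 * (r + 1) * (a * B + 1) + a + 1, N₀ + (2 * (r + 1) * (a * B + 1) + a + 1 + 2),
    fun n hn x p m t hx hp hd ht h0 hm hP => ?_⟩
  by_contra hcon
  rw [not_lt] at hcon
  have hn1 : 1 ≤ n := by omega
  have hnL : n ≤ B * n := Nat.le_mul_of_pos_left _ (by omega)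
  have hex : ∃ j, n ≤ t j := ⟨m, by omega⟩
  obtain ⟨k, hk1, hk2⟩ : ∃ k, t k < n ∧ n ≤ t (k + 1) := by
    have h1 := Nat.find_spec hex
    have h2 : Nat.find hex ≠ 0 := fun h => by rw [h, h0] at h1; omega
    obtain ⟨k, hk⟩ := Nat.exists_eq_succ_of_ne_zero h2
    refine ⟨k, not_le.mp (Nat.find_min hex (by omega)), ?_⟩
    rw [hk] at h1; exact h1
  have hlt : ∀ j, t j < B * n → j < m := fun j hj => by
    by_contra h
    have := ht (not_lt.mp h)
    omega
  have hend : B * n ≤ t (k + (r + 1)) := by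
    by_contra h
    rw [not_le] at h
    have hsub : Finset.Icc (k + 1) (k + (r + 1)) ⊆
        (range m).filter fun j => n ≤ t j ∧ t j < B * n := fun j hj => by
      obtain ⟨h1, h2⟩ := Finset.mem_Icc.mp hj
      have h3 := ht h1
      have h4 := ht h2
      exact Finset.mem_filter.mpr ⟨Finset.mem_range.mpr (hlt j (by omega)), by omega, by omega⟩
    have := Finset.card_le_card hsub
    rw [Nat.card_Icc] at this
    omega
  have key : ∀ i, grlzone_P a x (2 * i + 1) (n + i * (n / (r + 1)))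
      (max n (min (t (k + i)) (B * n))) := by
    intro i
    induction i with
    | zero =>
      exact grlzone_app (grlzone_zero a x) _ 0 _ (Nat.zero_le _)
        (by rw [if_pos rfl, add_zero]; omega) (fun h => absurd rfl h)
    | succ i ih =>
      have hmono : t (k + i) ≤ t (k + (i + 1)) := ht (by omega)
      rw [show 2 * (i + 1) + 1 = 2 * i + 1 + 1 + 1 by ring, add_mul, one_mul, ← add_assoc]
      by_cases hj : t (k + i) < B * n
      · obtain ⟨r', v, h1, h2, h3, h4, h5⟩ := hP (k + i) (hlt _ hj)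
        rw [add_assoc k i 1] at h2 h3 h5
        have hep : t (k + (i + 1)) ≤ p := by
          rw [← hm]; exact ht (by have := hlt _ hj; omega)
        have h6 := grlzone_lit a ha ha3 (r + 1) B n x p _ _ r' v (by omega) hx hd hj.le hep h1 h2
          h3 h4 h5
        have h7 : r' - t (k + i) ≤ n / (r + 1) := by
          rw [Nat.le_div_iff_mul_le (by omega), mul_comm]; exact h6
        have h8 := grlzone_app ih (max n (min r' (B * n))) 0
          (n + i * (n / (r + 1)) + n / (r + 1)) (by omega) (by rw [if_pos rfl]; omega)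
          (fun h => absurd rfl h)
        by_cases hne : max n (min r' (B * n)) < max n (min (t (k + (i + 1))) (B * n))
        · refine grlzone_app h8 _ v _ hne.le (by rw [if_neg (by omega)]; omega) fun _ =>
            ⟨(h5 _ (by omega) (by omega)).1, fun u hu1 hu2 => ?_⟩
          exact ((h5 u (by omega) (by omega)).2).symm
        · exact grlzone_app h8 _ 0 _ (by omega) (by rw [if_pos rfl]; omega) (fun h => absurd rfl h)
      · have h8 := grlzone_app ih (B * n) 0 (n + i * (n / (r + 1)) + n / (r + 1)) (by omega)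
          (by rw [if_pos rfl]; exact Nat.add_le_add_left (le_trans (by omega) (Nat.zero_le _)) _)
          (fun h => absurd rfl h)
        exact grlzone_app h8 _ 0 _ (by omega) (by rw [if_pos rfl]; omega) (fun h => absurd rfl h)
  obtain ⟨s, v, ⟨p0, p1, p2, p3⟩, hq⟩ := key (r + 1)
  have hq' : s (2 * (r + 1) + 1) = B * n := by omega
  have hdiv : (r + 1) * (n / (r + 1)) ≤ n := Nat.mul_div_le _ _
  have hx2 : |x| ≤ 2 ^ (2 * n) := hx.trans (pow_le_pow_right₀ (by norm_num) (by omega))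
  have hfin := hN₀ (2 * n) (by omega) x s v hx2 ⟨p0, p1, p2.trans (by omega), p3⟩
    (fun i j h1 h2 => hd i j h1 (by omega))
  rw [hq'] at hfin
  have h9 : B * n ≤ (8 * c * (r + 1)) * n := by
    have : 0 ≤ c * r * n := Nat.zero_le _
    nlinarith
  have := Nat.le_of_mul_le_mul_right h9 (by omega)
  omega

end Pool.Agent.Lib.MP_dee342_nt.Gr
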