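import Pool.Agent.Lib.MP_dee342_nt.GrSub

/-!
A lower bound for binary forms with small coefficients at `(2^σ, a^τ)`.

Proof. If not, choose counterexamples with `N t ≥ t` and work along `Ultrafilter.of atTop` on `ℕ`;
fix along it `i₁` and the set `I' = {i ≤ s | c i ≠ 0}`. Apply `sub_three` with `q = N`,
`J = Option I'`, `Y (some i) = c i (2^σ)^i (a^τ)^(s-i)`, `Y none` the whole sum, `κ = Unit`
(`Y none - ∑ Y (some i) = 0`), `I2 = Ia = univ.erase none`, `I0 = univ.erase (some i₁)`,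
`e2 (some i) = σ i`, `ea (some i) = τ (s - i)`, `δ = log 2 / (2 E)`. Independence of the
`Y (some i)`: clear denominators, take the least `i` with `w i ≠ 0`; then `2^σ ∣ w i * c i`, while
`0 < |w i c i| ≤ |w i| 2^u < 2^N ≤ 2^σ` eventually. Independence on `I0` follows by substituting
the sum.
-/

set_option autoImplicit false

namespace Pool.Agent.Lib.MP_dee342_nt.Gr

open Filter Topology Finset

lemma rgform_point (a : ℕ) (ha : Odd a) {ι : Type} [Fintype ι] (n : ι → ℕ)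
    (hn : Function.Injective n) (z c : ι → ℤ) (m : ι → ℕ) (i₀ : ι) (hz : z i₀ ≠ 0)
    (hmin : ∀ i, z i ≠ 0 → n i₀ ≤ n i) (hc : c i₀ ≠ 0) (N σ u : ℕ) (hσ : N ≤ σ) (hu : 2 * u ≤ N)
    (hcu : |c i₀| ≤ 2 ^ u) (hN : z i₀ ^ 2 ≤ N) :
    ∑ i, z i * (c i * ((2 : ℤ) ^ σ) ^ n i * (a : ℤ) ^ m i) ≠ 0 := by
  classical
  intro h
  rw [← Finset.add_sum_erase _ _ (Finset.mem_univ i₀)] at h
  have h1 : ((2 : ℤ) ^ σ) ^ (n i₀ + 1) ∣
      ∑ i ∈ univ.erase i₀, z i * (c i * ((2 : ℤ) ^ σ) ^ n i * (a : ℤ) ^ m i) := by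
    refine Finset.dvd_sum fun i hi => ?_
    by_cases h0 : z i = 0
    · rw [h0, zero_mul]
      exact dvd_zero _
    · have h2 : n i₀ + 1 ≤ n i :=
        lt_of_le_of_ne (hmin i h0) fun e => (Finset.mem_erase.1 hi).1 (hn e).symm
      exact Dvd.dvd.mul_left (Dvd.dvd.mul_right (Dvd.dvd.mul_left (pow_dvd_pow _ h2) _) _) _
  have h2 : ((2 : ℤ) ^ σ) ^ n i₀ * (2 : ℤ) ^ σ ∣
      ((2 : ℤ) ^ σ) ^ n i₀ * (z i₀ * c i₀ * (a : ℤ) ^ m i₀) := by
    rw [← pow_succ, show ((2 : ℤ) ^ σ) ^ n i₀ * (z i₀ * c i₀ * (a : ℤ) ^ m i₀) =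
      -∑ i ∈ univ.erase i₀, z i * (c i * ((2 : ℤ) ^ σ) ^ n i * (a : ℤ) ^ m i) by
        linear_combination h]
    exact (dvd_neg).2 h1
  have h3 := (mul_dvd_mul_iff_left (by positivity)).1 h2
  have hcop : IsCoprime ((2 : ℤ) ^ σ) ((a : ℤ) ^ m i₀) := by
    refine IsCoprime.pow ?_
    obtain ⟨k, hk⟩ := ha
    exact ⟨-k, 1, by rw [hk]; push_cast; ring⟩
  have h4 := Int.le_of_dvd (abs_pos.2 (mul_ne_zero hz hc))
    ((dvd_abs _ _).2 (hcop.dvd_of_dvd_mul_right h3))
  rw [abs_mul] at h4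
  have h5 : (2 : ℤ) ^ N ≤ |z i₀| * 2 ^ u :=
    (pow_le_pow_right₀ (by norm_num) hσ).trans
      (h4.trans (mul_le_mul_of_nonneg_left hcu (abs_nonneg _)))
  have h6 : (2 : ℤ) ^ N * 2 ^ N ≤ z i₀ ^ 2 * 2 ^ N := by
    calc (2 : ℤ) ^ N * 2 ^ N ≤ (|z i₀| * 2 ^ u) * (|z i₀| * 2 ^ u) :=
          mul_le_mul h5 h5 (by positivity) (by positivity)
      _ = z i₀ ^ 2 * 2 ^ (2 * u) := by rw [← sq_abs (z i₀)]; ring
      _ ≤ z i₀ ^ 2 * 2 ^ N :=
          mul_le_mul_of_nonneg_left (pow_le_pow_right₀ (by norm_num) hu) (sq_nonneg _)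
  have h7 := le_of_mul_le_mul_right h6 (by positivity)
  have h8 : (N : ℤ) < 2 ^ N := by exact_mod_cast Nat.lt_two_pow_self
  linarith

lemma rgform_indep (a : ℕ) (ha : Odd a) {ι : Type} [Fintype ι] (n : ι → ℕ)
    (hn : Function.Injective n) (U : Ultrafilter ℕ) (N σ u : ℕ → ℕ) (hN : Tendsto N U atTop)
    (c : ℕ → ι → ℤ) (m : ℕ → ι → ℕ) (hc : ∀ᶠ t in U, ∀ i, c t i ≠ 0) (hσ : ∀ t, N t ≤ σ t)
    (hu : ∀ t, 2 * u t ≤ N t) (hcu : ∀ t i, |c t i| ≤ 2 ^ u t) (v : ι → ℚ)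
    (h : ∀ᶠ t in U,
      ∑ i, v i * ((c t i * ((2 : ℤ) ^ σ t) ^ n i * (a : ℤ) ^ m t i : ℤ) : ℚ) = 0) :
    ∀ i, v i = 0 := by
  classical
  obtain ⟨b, hb⟩ := IsLocalization.exist_integer_multiples_of_finite (nonZeroDivisors ℤ) v
  choose z hz using hb
  have hb0 : ((b : ℤ) : ℚ) ≠ 0 := Int.cast_ne_zero.2 (nonZeroDivisors.coe_ne_zero b)
  have hz' : ∀ i, (z i : ℚ) = ((b : ℤ) : ℚ) * v i := fun i => by
    simpa using hz i
  by_contra hne
  push Not at hne
  obtain ⟨i, hi⟩ := hne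
  have hzi : z i ≠ 0 := fun e => by
    have := hz' i
    rw [e, Int.cast_zero] at this
    exact mul_ne_zero hb0 hi this.symm
  obtain ⟨i₀, h0, hmin⟩ := Finset.exists_min_image (univ.filter fun i => z i ≠ 0) n
    ⟨i, Finset.mem_filter.2 ⟨Finset.mem_univ _, hzi⟩⟩
  obtain ⟨t, ⟨h1, h2⟩, h3⟩ :=
    ((h.and hc).and (hN.eventually_ge_atTop (z i₀ ^ 2).toNat)).exists
  refine rgform_point a ha n hn z (c t) (m t) i₀ (Finset.mem_filter.1 h0).2
    (fun j hj => hmin j (Finset.mem_filter.2 ⟨Finset.mem_univ _, hj⟩)) (h2 i₀) (N t) (σ t) (u t)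
    (hσ t) (hu t) (hcu t i₀) (by omega) ?_
  have h4 : ((∑ i, z i * (c t i * ((2 : ℤ) ^ σ t) ^ n i * (a : ℤ) ^ m t i) : ℤ) : ℚ) = 0 := by
    rw [Int.cast_sum, ← mul_zero ((b : ℤ) : ℚ), ← h1, Finset.mul_sum]
    exact Finset.sum_congr rfl fun j _ => by rw [Int.cast_mul, hz', mul_assoc]
  exact_mod_cast h4

lemma rgform_term (a : ℕ) (ha : 1 ≤ a) (s B N σ τ u i : ℕ) (c : ℤ) (hσ : σ ≤ B * N)
    (hτ : τ ≤ B * N) (hu : 2 * u ≤ N) (hc : |c| ≤ 2 ^ u) (hi : i ≤ s) :
    |c * ((2 : ℤ) ^ σ) ^ i * ((a : ℤ) ^ τ) ^ (s - i)| ≤ (2 * 2 ^ (B * s) * (a : ℤ) ^ (B * s)) ^ N := by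
  have ha' : (1 : ℤ) ≤ a := by exact_mod_cast ha
  rw [abs_mul, abs_mul, abs_of_nonneg (a := ((2 : ℤ) ^ σ) ^ i) (by positivity),
    abs_of_nonneg (a := ((a : ℤ) ^ τ) ^ (s - i)) (by positivity), mul_pow, mul_pow, ← pow_mul,
    ← pow_mul, ← pow_mul, ← pow_mul]
  refine mul_le_mul (mul_le_mul (hc.trans (pow_le_pow_right₀ (by norm_num) (by omega)))
    (pow_le_pow_right₀ (by norm_num) ?_) (by positivity) (by positivity))
    (pow_le_pow_right₀ ha' ?_) (by positivity) (by positivity)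
  · calc σ * i ≤ (B * N) * s := Nat.mul_le_mul hσ hi
      _ = B * s * N := by ring
  · calc τ * (s - i) ≤ (B * N) * s := Nat.mul_le_mul hτ (Nat.sub_le _ _)
      _ = B * s * N := by ring

lemma rgform_exp (E N : ℕ) (hE : 1 ≤ E) (hN : E ≤ N) :
    1 ≤ Real.exp (-(Real.log 2 / (2 * E)) * N) * 2 ^ (N / E) := by
  have h1 : N ≤ 2 * E * (N / E) := by
    have h2 := Nat.div_add_mod N E
    have h3 := Nat.mod_lt N (show 0 < E from hE)
    have h4 : 1 ≤ N / E := (Nat.le_div_iff_mul_le hE).2 (by omega)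
    nlinarith
  have h2 : (N : ℝ) ≤ 2 * E * ((N / E : ℕ) : ℝ) := by exact_mod_cast h1
  have hE' : (0 : ℝ) < E := by exact_mod_cast hE
  have hl : 0 < Real.log 2 := Real.log_pos (by norm_num)
  rw [show (2 : ℝ) ^ (N / E) = Real.exp (((N / E : ℕ) : ℝ) * Real.log 2) by
    rw [Real.exp_nat_mul, Real.exp_log (by norm_num)], ← Real.exp_add]
  refine Real.one_le_exp ?_
  have h3 : Real.log 2 / (2 * E) * N ≤ ((N / E : ℕ) : ℝ) * Real.log 2 := by
    rw [div_mul_eq_mul_div, div_le_iff₀ (by positivity)]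
    nlinarith
  linarith

theorem form_lower (a : ℕ) (ha : Odd a) (s B E : ℕ) (hE : 1 ≤ E) : ∃ N₀ : ℕ, ∀ N ≥ N₀,
    ∀ (σ τ u : ℕ) (c : ℕ → ℤ), N ≤ σ → σ ≤ B * N → τ ≤ B * N → 2 * u ≤ N →
      (∀ i ≤ s, |c i| ≤ 2 ^ u) → ∀ i₁ ≤ s, c i₁ ≠ 0 →
      ((2 : ℤ) ^ σ) ^ i₁ * ((a : ℤ) ^ τ) ^ (s - i₁) ≤
        |∑ i ∈ range (s + 1), c i * ((2 : ℤ) ^ σ) ^ i * ((a : ℤ) ^ τ) ^ (s - i)| *
          2 ^ (s * u + N / E) := by
  classical
  by_contra hcon
  push Not at hcon
  choose N hN σ τ u c hσ hσB hτB hu hc i₁ hi₁ hci₁ hlt using hcon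
  have ha1 : 1 ≤ a := ha.pos
  let U : Ultrafilter ℕ := Ultrafilter.of atTop
  have hU : (U : Filter ℕ) ≤ atTop := Ultrafilter.of_le _
  have hNt : Tendsto N U atTop := (tendsto_atTop_mono hN tendsto_id).mono_left hU
  obtain ⟨k, -, hk⟩ := (Ultrafilter.eventually_exists_mem_iff (f := U)
    (P := fun k t => i₁ t = k) (Set.finite_le_nat s)).1
    (Eventually.of_forall fun t => ⟨i₁ t, hi₁ t, rfl⟩)
  obtain ⟨I, hI, hIt⟩ := (Ultrafilter.eventually_exists_mem_iff (f := U)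
    (P := fun I t => (range (s + 1)).filter (fun i => c t i ≠ 0) = I)
    (range (s + 1)).powerset.finite_toSet).1
    (Eventually.of_forall fun t => ⟨_, Finset.mem_coe.2 (Finset.mem_powerset.2
      (Finset.filter_subset _ _)), rfl⟩)
  have hIs : I ⊆ range (s + 1) := Finset.mem_powerset.1 (Finset.mem_coe.1 hI)
  have hle : ∀ i : I, (i : ℕ) ≤ s := fun i => Nat.lt_succ_iff.1 (Finset.mem_range.1 (hIs i.2))
  have hkI : k ∈ I := by
    obtain ⟨t, h1, h2⟩ := (hk.and hIt).exists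
    rw [← h2, ← h1]
    exact Finset.mem_filter.2 ⟨Finset.mem_range.2 (Nat.lt_succ_of_le (hi₁ t)), hci₁ t⟩
  let T : ℕ → ℕ → ℤ := fun i t => c t i * ((2 : ℤ) ^ σ t) ^ i * ((a : ℤ) ^ τ t) ^ (s - i)
  let Y : Option I → ℕ → ℤ := fun j t => j.elim (∑ i ∈ range (s + 1), T i t) fun i => T i t
  have hsum : ∀ᶠ t in U, Y none t = ∑ i : I, Y (some i) t := by
    filter_upwards [hIt] with t ht
    change ∑ i ∈ range (s + 1), T i t = ∑ i : I, T i t
    rw [Finset.sum_coe_sort I (fun i => T i t)]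
    refine (Finset.sum_subset hIs fun i hi hi' => ?_).symm
    have : c t i = 0 := by
      by_contra h0
      exact hi' (ht ▸ Finset.mem_filter.2 ⟨hi, h0⟩)
    simp only [T, this, zero_mul]
  have hcne : ∀ᶠ t in U, ∀ i : I, c t i ≠ 0 := by
    filter_upwards [hIt] with t ht i
    have hi : (i : ℕ) ∈ (range (s + 1)).filter (fun i => c t i ≠ 0) := ht ▸ i.2
    exact (Finset.mem_filter.1 hi).2
  have hind : ∀ (j₀ : Option I) (w : Option I → ℚ),
      (∀ᶠ t in U, ∑ j ∈ univ.erase j₀, w j * (Y j t : ℚ) = 0) → ∀ j ∈ univ.erase j₀, w j = 0 := by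
    intro j₀ w hw
    let w' : Option I → ℚ := fun j => if j = j₀ then 0 else w j
    have h1 : ∀ i : I, w' none + w' (some i) = 0 := by
      refine rgform_indep a ha (fun i : I => (i : ℕ)) Subtype.val_injective U N σ u hNt
        (fun t i => c t i) (fun t i => τ t * (s - i)) hcne hσ hu (fun t i => hc t i (hle i)) _ ?_
      filter_upwards [hw, hsum] with t h2 h3
      have h4 : ∑ j, w' j * (Y j t : ℚ) = 0 := by
        rw [← h2, ← Finset.add_sum_erase _ _ (Finset.mem_univ j₀)]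
        simp only [w', if_true, zero_mul, zero_add]
        exact Finset.sum_congr rfl fun j hj => by rw [if_neg (Finset.mem_erase.1 hj).1]
      rw [Fintype.sum_option, h3, Int.cast_sum, Finset.mul_sum, ← Finset.sum_add_distrib] at h4
      rw [← h4]
      refine Finset.sum_congr rfl fun i _ => ?_
      rw [pow_mul, add_mul]
      rfl
    have h0 : w' j₀ = 0 := if_pos rfl
    have h2 : w' none = 0 := by
      rcases j₀ with _ | i
      · exact h0
      · have := h1 i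
        rwa [h0, add_zero] at this
    have h3 : ∀ j, w' j = 0 := by
      rintro (_ | i)
      · exact h2
      · have := h1 i
        rwa [h2, zero_add] at this
    intro j hj
    have := h3 j
    simp only [w', if_neg (Finset.mem_erase.1 hj).1] at this
    exact this
  let k' : I := ⟨k, hkI⟩
  let M : ℤ := 2 * 2 ^ (B * s) * (a : ℤ) ^ (B * s)
  have hM : 0 < M := by positivity
  have hE' : (0 : ℝ) < E := by exact_mod_cast hE
  refine sub_three a ha (J := Option I) (κ := Unit) U (fun t => (N t : ℝ))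
    (tendsto_natCast_atTop_atTop.comp hNt) Y (univ.erase (some k')) (univ.erase none)
    (univ.erase none) (by simp [Finset.card_erase_of_mem]) (by simp [Finset.card_erase_of_mem])
    ?_ (fun _ j => j.elim 1 fun _ => -1) ?_ ?_ ?_ (Real.log (2 ^ s * M)) (Real.log 2 / (2 * E))
    (div_pos (Real.log_pos (by norm_num)) (by positivity)) ?_
    (fun j t => j.elim 0 fun i => σ t * i) (fun j t => j.elim 0 fun i => τ t * (s - i)) ?_ ?_ ?_
  · rintro I' (rfl | rfl | rfl)
    · exact hind _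
    · exact hind _
    · exact hind _
  · rw [linearIndependent_unique_iff]
    intro h
    simpa using congrFun h none
  · rw [Finset.card_erase_of_mem (Finset.mem_univ _), Finset.card_univ, Fintype.card_unit]
    have : 0 < Fintype.card (Option I) := Fintype.card_pos
    omega
  · intro _
    filter_upwards [hsum] with t ht
    rw [Fintype.sum_option, ht]
    simp
  · filter_upwards [hNt.eventually_ge_atTop 1] with t ht j
    have hT : ∀ i ≤ s, |T i t| ≤ M ^ N t := fun i hi =>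
      rgform_term a ha1 s B (N t) (σ t) (τ t) (u t) i (c t i) (hσB t) (hτB t) (hu t) (hc t i hi) hi
    have h2 : ((s + 1 : ℕ) : ℤ) ≤ (2 ^ s) ^ N t := by
      have h3 : s + 1 ≤ 2 ^ s := Nat.lt_two_pow_self
      have h4 : 2 ^ s ≤ (2 ^ s) ^ N t := Nat.le_self_pow (by omega) _
      exact_mod_cast h3.trans h4
    have h1 : |Y j t| ≤ (2 ^ s * M) ^ N t := by
      rw [mul_pow]
      rcases j with _ | i
      · refine (Finset.abs_sum_le_sum_abs _ _).trans ((Finset.sum_le_card_nsmul _ _ _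
          fun i hi => hT i (Nat.lt_succ_iff.1 (Finset.mem_range.1 hi))).trans ?_)
        rw [Finset.card_range, nsmul_eq_mul]
        exact mul_le_mul_of_nonneg_right h2 (by positivity)
      · refine (hT i (hle i)).trans (le_mul_of_one_le_left (by positivity) ?_)
        exact one_le_pow₀ (one_le_pow₀ (by norm_num))
    have hM' : (0 : ℝ) < M := by exact_mod_cast hM
    rw [mul_comm, Real.exp_nat_mul, Real.exp_log (by positivity)]
    exact_mod_cast h1
  · refine Eventually.of_forall fun t j hj => ?_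
    rcases j with _ | i
    · simp
    · change (2 : ℤ) ^ (σ t * i) ∣ T i t
      rw [pow_mul]
      exact Dvd.dvd.mul_right (Dvd.intro_left _ rfl) _
  · refine Eventually.of_forall fun t j hj => ?_
    rcases j with _ | i
    · simp
    · change (a : ℤ) ^ (τ t * (s - i)) ∣ T i t
      rw [pow_mul]
      exact Dvd.intro_left _ rfl
  · filter_upwards [hk, hNt.eventually_ge_atTop E] with t h1 h2
    let P : I → ℝ := fun i => ((2 : ℝ) ^ σ t) ^ (i : ℕ) * ((a : ℝ) ^ τ t) ^ (s - i)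
    have hP : ∀ i, 0 ≤ P i := fun i => by positivity
    have e1 : ∀ g : Option I → ℕ, g none = 0 → ∑ j ∈ univ.erase none, g j = ∑ i : I, g (some i) :=
      fun g hg => by
        rw [Finset.sum_erase _ hg, Fintype.sum_option, hg, zero_add]
    have e2 : (2 : ℝ) ^ (∑ i : I, σ t * i) * (a : ℝ) ^ (∑ i : I, τ t * (s - i)) = ∏ i, P i := by
      rw [← Finset.prod_pow_eq_pow_sum, ← Finset.prod_pow_eq_pow_sum, ← Finset.prod_mul_distrib]
      exact Finset.prod_congr rfl fun i _ => by rw [pow_mul, pow_mul]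
    have e3 : ∏ j ∈ univ.erase (some k'), |(Y j t : ℝ)| =
        |(Y none t : ℝ)| * ∏ i ∈ univ.erase k', |(T i t : ℝ)| := by
      have e4 : (univ.erase (some k') : Finset (Option I)) =
          Finset.insertNone (univ.erase k') := by
        ext j
        rcases j with _ | i <;> simp
      rw [e4, Finset.prod_insertNone]
      rfl
    rw [e1 _ rfl, e1 _ rfl, mul_assoc]
    change _ ≤ _ * ((2 : ℝ) ^ (∑ i : I, σ t * i) * (a : ℝ) ^ (∑ i : I, τ t * (s - i)))
    rw [e2, e3, ← Finset.mul_prod_erase _ _ (Finset.mem_univ k')]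
    have b1 : ∏ i ∈ univ.erase k', |(T i t : ℝ)| ≤ 2 ^ (s * u t) * ∏ i ∈ univ.erase k', P i := by
      have b2 : (univ.erase k').card ≤ s := by
        rw [Finset.card_erase_of_mem (Finset.mem_univ _), Finset.card_univ, Fintype.card_coe]
        have := Finset.card_le_card hIs
        rw [Finset.card_range] at this
        omega
      calc ∏ i ∈ univ.erase k', |(T i t : ℝ)| ≤ ∏ i ∈ univ.erase k', 2 ^ u t * P i := by
            refine Finset.prod_le_prod (fun _ _ => abs_nonneg _) fun i _ => ?_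
            have b3 : |(c t i : ℝ)| ≤ 2 ^ u t := by exact_mod_cast hc t i (hle i)
            simp only [T, P]
            push_cast
            rw [mul_assoc, abs_mul, abs_of_nonneg (hP i)]
            exact mul_le_mul_of_nonneg_right b3 (hP i)
        _ = (2 ^ u t) ^ (univ.erase k').card * ∏ i ∈ univ.erase k', P i := by
            rw [Finset.prod_mul_distrib, Finset.prod_const]
        _ ≤ 2 ^ (s * u t) * ∏ i ∈ univ.erase k', P i := by
            refine mul_le_mul_of_nonneg_right ?_ (Finset.prod_nonneg fun i _ => hP i)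
            rw [← pow_mul, mul_comm]
            exact pow_le_pow_right₀ (by norm_num) (Nat.mul_le_mul_right _ b2)
    have b4 : |(Y none t : ℝ)| * 2 ^ (s * u t + N t / E) ≤ P k' := by
      have := (hlt t).le
      rw [h1] at this
      simp only [P, Y, T, k', Option.elim]
      exact_mod_cast this
    have b5 := rgform_exp E (N t) hE h2
    have b6 : |(Y none t : ℝ)| * 2 ^ (s * u t) ≤
        Real.exp (-(Real.log 2 / (2 * E)) * N t) * P k' := by
      calc |(Y none t : ℝ)| * 2 ^ (s * u t)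
          ≤ (Real.exp (-(Real.log 2 / (2 * E)) * N t) * 2 ^ (N t / E)) *
            (|(Y none t : ℝ)| * 2 ^ (s * u t)) := le_mul_of_one_le_left (by positivity) b5
        _ = Real.exp (-(Real.log 2 / (2 * E)) * N t) *
            (|(Y none t : ℝ)| * 2 ^ (s * u t + N t / E)) := by rw [pow_add]; ring
        _ ≤ _ := mul_le_mul_of_nonneg_left b4 (Real.exp_pos _).le
    calc |(Y none t : ℝ)| * ∏ i ∈ univ.erase k', |(T i t : ℝ)|
        ≤ |(Y none t : ℝ)| * (2 ^ (s * u t) * ∏ i ∈ univ.erase k', P i) :=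
          mul_le_mul_of_nonneg_left b1 (abs_nonneg _)
      _ = (|(Y none t : ℝ)| * 2 ^ (s * u t)) * ∏ i ∈ univ.erase k', P i := by ring
      _ ≤ (Real.exp (-(Real.log 2 / (2 * E)) * N t) * P k') * ∏ i ∈ univ.erase k', P i :=
          mul_le_mul_of_nonneg_right b6 (Finset.prod_nonneg fun i _ => hP i)
      _ = _ := by ring

end Pool.Agent.Lib.MP_dee342_nt.Gr
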