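import Pool.Agent.Lib.MP_dee342_nt.RgDet
import Pool.Agent.Lib.MP_dee342_nt.RgForm

/-!
A round trip is impossible when there are at least two independent solutions.

Proof. Put `m k = ∏ (2^σ i / a^τ i)` over `q ≤ i < k` (real), `Z b k = G b k * m k`, so that
`Z b (k+1) = Z b k + A b k * β k * m k / a^τ k` and `|β k| m k / a^τ k ≤ D k := 2^σ k * m k / 2^N`.
Let `k*` maximise `D k` on `[q, q + L)`. Then `|Z b k - Z b q| ≤ L 2^u D*` for `q ≤ k ≤ q + L`. With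
`S = 2^(Σσ)`, `T = a^(Στ)` (sums over the round, `N ≤ Σσ ≤ L₀ B N`), `m (q + L) = S / T` and the
hypothesis `hφ` give `(S φ - T diag d) Z(q) = T d (Z (q+L) - Z q)`. By `det_expand` and `form_lower`
(with `i₁ = 0` and `i₁ = s`; `u' = (s + 1) u` bounds the coefficients for large `N`),
`max S T ^ s ≤ |det| 2^(s u' + u)`, and `cramer_bound` (entries at most `2 * 2^u * max S T`) gives
`|Z b q| ≤ const * L₀ * 2^(e u) D*` with `e = s (s+1) + s + 2`; the same holds for `Z b k*`. The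
combination `G 1 - A 1 k* * G 0` (`Sol.comb`) has zero coefficient at `k*`; it does not vanish at
`k*` (`Sol.dead` and `Ind` at `k*`), so it is a nonzero multiple of `2^σ k*`, and
`2^N D* = 2^σ k* m k* ≤ const * L₀ * 2^((e + 1) u) D*`, false for `E = e + 3` and large `N`.
-/

set_option autoImplicit false

namespace Pool.Agent.Lib.MP_dee342_nt.Gr

open Filter Topology Finset

theorem rground_tel (Z : ℕ → ℝ) (q L : ℕ) (δ : ℝ)
    (h : ∀ k, q ≤ k → k < q + L → |Z (k + 1) - Z k| ≤ δ) :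
    ∀ j ≤ L, |Z (q + j) - Z q| ≤ j * δ := by
  intro j
  induction j with
  | zero => simp
  | succ j ih =>
    intro hj
    have h1 := ih (by omega)
    have h2 := h (q + j) (by omega) (by omega)
    have h3 := abs_sub_le (Z (q + j + 1)) (Z (q + j)) (Z q)
    rw [← add_assoc]
    push_cast
    linarith

/-- The lower bound for the determinant. -/
theorem rground_det (a : ℕ) (ha : Odd a) (r B E : ℕ) (hE : 1 ≤ E) : ∃ N₀ : ℕ, ∀ N ≥ N₀,
    ∀ (σ τ : ℕ) (φ : Matrix (Fin r) (Fin r) ℤ) (d : Fin r → ℤ), N ≤ σ → σ ≤ B * N → τ ≤ B * N →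
      2 * ((r + 1) * (N / E)) ≤ N → r.factorial * 2 ^ r ≤ 2 ^ (N / E) →
      (∀ i j, |φ i j| ≤ 2 ^ (N / E)) → (∀ i, d i ≠ 0 ∧ |d i| ≤ 2 ^ (N / E)) → φ.det ≠ 0 →
      max ((2 : ℤ) ^ σ) ((a : ℤ) ^ τ) ^ r ≤
        |(((2 : ℤ) ^ σ) • φ - ((a : ℤ) ^ τ) • Matrix.diagonal d).det| *
          (2 ^ (N / E)) ^ (r * (r + 1) + 1) := by
  obtain ⟨N₀, H⟩ := form_lower a ha r B E hE
  refine ⟨N₀, fun N hN σ τ φ d h1 h2 h3 h4 h5 hφ hd h0 => ?_⟩
  obtain ⟨c, c1, c2, c3, c4⟩ := det_expand φ d (2 ^ (N / E)) (one_le_pow₀ one_le_two) hφ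
    fun i => (hd i).2
  have hc : ∀ i ≤ r, |c i| ≤ 2 ^ ((r + 1) * (N / E)) := by
    intro i _
    refine (c1 i).trans ?_
    have h6 : ((r.factorial : ℤ) * 2 ^ r) ≤ 2 ^ (N / E) := by exact_mod_cast h5
    rw [mul_comm (r + 1), pow_mul, pow_succ']
    exact mul_le_mul_of_nonneg_right h6 (by positivity)
  have k0 := H N hN σ τ _ c h1 h2 h3 h4 hc 0 (Nat.zero_le _) (by
    rw [c2]
    exact prod_ne_zero_iff.2 fun i _ => neg_ne_zero.2 (hd i).1)
  have k1 := H N hN σ τ _ c h1 h2 h3 h4 hc r le_rfl (c3 ▸ h0)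
  rw [← c4, show r * ((r + 1) * (N / E)) + N / E = N / E * (r * (r + 1) + 1) by ring,
    pow_mul] at k0 k1
  rcases le_total ((2 : ℤ) ^ σ) ((a : ℤ) ^ τ) with h | h
  · rw [max_eq_right h]
    simpa using k0
  · rw [max_eq_left h]
    simpa using k1

/-- The bound for the starting vector. -/
theorem rground_start {r : ℕ} (φ : Matrix (Fin (r + 1)) (Fin (r + 1)) ℤ) (d g g' : Fin (r + 1) → ℤ)
    (S T X : ℤ) (hS : 0 < S) (hT : 0 < T) (hX : 1 ≤ X) (e : ℕ) (y : ℝ) (hφ : ∀ i j, |φ i j| ≤ X)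
    (hd : ∀ i, |d i| ≤ X) (h : ∀ b, d b * g' b = ∑ b', φ b b' * g b')
    (hdet : max S T ^ (r + 1) ≤ |(S • φ - T • Matrix.diagonal d).det| * X ^ e)
    (hy : ∀ b, |(g' b : ℝ) * (S / T) - g b| ≤ y) (b : Fin (r + 1)) :
    |(g b : ℝ)| ≤ (r + 1).factorial * 2 ^ r * (X : ℝ) ^ (e + r + 1) * y := by
  set H : ℝ := max (S : ℝ) T with hH
  have hS' : (0 : ℝ) < S := by exact_mod_cast hS
  have hT' : (0 : ℝ) < T := by exact_mod_cast hT
  have hX' : (1 : ℝ) ≤ X := by exact_mod_cast hX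
  have hH0 : 0 < H := lt_max_of_lt_left hS'
  have hy0 : 0 ≤ y := (abs_nonneg _).trans (hy b)
  have hd' : ∀ i, |(d i : ℝ)| ≤ X := fun i => by exact_mod_cast hd i
  set M := (S • φ - T • Matrix.diagonal d).map (Int.cast : ℤ → ℝ) with hM
  have hMe : ∀ i j, M i j = S * φ i j - if i = j then (T : ℝ) * d i else 0 := by
    intro i j
    rw [hM, Matrix.map_apply, Matrix.sub_apply, Matrix.smul_apply, Matrix.smul_apply,
      Matrix.diagonal_apply, smul_eq_mul, smul_eq_mul]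
    split_ifs <;> simp
  have h1 : ∀ i j, |M i j| ≤ 2 * X * H := by
    intro i j
    have k1 : |(S : ℝ) * φ i j| ≤ H * X := by
      rw [abs_mul, abs_of_pos hS']
      exact mul_le_mul (le_max_left _ _) (by exact_mod_cast hφ i j) (abs_nonneg _) hH0.le
    have k2 : |if i = j then (T : ℝ) * d i else 0| ≤ H * X := by
      split_ifs
      · rw [abs_mul, abs_of_pos hT']
        exact mul_le_mul (le_max_right _ _) (hd' i) (abs_nonneg _) hH0.le
      · rw [abs_zero]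
        positivity
    rw [hMe]
    linarith [abs_sub ((S : ℝ) * φ i j) (if i = j then (T : ℝ) * d i else 0)]
  have h2 : ∀ i, |M.mulVec (fun b => (g b : ℝ)) i| ≤ H * (X * y) := by
    intro i
    have k1 : ((d i : ℝ) * g' i) = ∑ b', (φ i b' : ℝ) * g b' := by exact_mod_cast h i
    have k2 : M.mulVec (fun b => (g b : ℝ)) i = T * (d i * ((g' i : ℝ) * (S / T) - g i)) := by
      simp only [Matrix.mulVec, dotProduct, hMe, sub_mul, sum_sub_distrib, mul_assoc, ← mul_sum,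
        ← k1, ite_mul, zero_mul, sum_ite_eq, mem_univ, if_true]
      field_simp
    rw [k2, abs_mul, abs_mul, abs_of_pos hT']
    exact mul_le_mul (le_max_right _ _) (mul_le_mul (hd' i) (hy i) (abs_nonneg _) (by positivity))
      (by positivity) hH0.le
  have h3 := cramer_bound M _ _ _ (by positivity) h1 h2 b
  have h4 : H ^ (r + 1) ≤ |M.det| * (X : ℝ) ^ e := by
    have k1 : M.det = ((S • φ - T • Matrix.diagonal d).det : ℤ) := (Int.cast_det _).symm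
    rw [k1, hH]
    exact_mod_cast hdet
  refine le_of_mul_le_mul_left ?_ (pow_pos hH0 (r + 1))
  calc H ^ (r + 1) * |(g b : ℝ)| ≤ |M.det| * (X : ℝ) ^ e * |(g b : ℝ)| :=
        mul_le_mul_of_nonneg_right h4 (abs_nonneg _)
    _ = |M.det| * |(g b : ℝ)| * (X : ℝ) ^ e := by ring
    _ ≤ ((r + 1).factorial * (2 * X * H) ^ (r + 1 - 1) * (H * (X * y))) * (X : ℝ) ^ e :=
        mul_le_mul_of_nonneg_right h3 (by positivity)
    _ = _ := by
        rw [Nat.add_sub_cancel]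
        ring

/-- The combination with zero coefficient at `k` is a nonzero multiple of `2 ^ σ k`. -/
theorem rground_comb {a : ℕ} (ha : Odd a) {s l N q L k : ℕ} {σ τ : ℕ → ℕ} {β : ℕ → ℤ} {X Y : ℤ}
    {A G : Fin (s + 2) → ℕ → ℤ} (hβ : ∀ k, q ≤ k → k < q + (L + l) → Odd (β k) ∧ N ≤ σ k)
    (hG : ∀ b, Sol a σ τ β q (L + l) X Y (A b) (G b)) (hA : ∀ k, A 0 k = 1) (hX : 2 * X < 2 ^ N)
    (h1 : q ≤ k) (h2 : k < q + L) (hI : Ind A l k) : 2 ^ σ k ≤ |G 1 k - A 1 k * G 0 k| := by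
  have hk : k < q + (L + l) := by omega
  have hAk := ((hG 1).1 k h1 hk).2
  have hS : Sol a σ τ β q (L + l) (2 * X) (Y + X * Y) (fun j => A 1 j - A 1 k * A 0 j)
      fun j => G 1 j - A 1 k * G 0 j := by
    refine ⟨fun j j1 j2 => ⟨?_, ?_⟩, fun j j1 j2 => ?_⟩
    · linear_combination ((hG 1).1 j j1 j2).1 - A 1 k * ((hG 0).1 j j1 j2).1
    · simp only [hA, mul_one]
      linarith [abs_sub (A 1 j) (A 1 k), ((hG 1).1 j j1 j2).2]
    · refine (abs_sub _ _).trans (add_le_add ((hG 1).2 j j1 j2) ?_)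
      rw [abs_mul]
      exact mul_le_mul hAk ((hG 0).2 j j1 j2) (abs_nonneg _) ((abs_nonneg _).trans hAk)
  refine Int.le_abs_of_dvd (fun h0 => ?_) ?_
  · have h3 := hS.dead hβ hX k h1 h0
    have h4 := (LinearIndependent.pair_iff.1 (hI.comp ![1, 0] (by
      intro i j hij
      fin_cases i <;> fin_cases j
      · rfl
      · exact absurd hij (one_ne_zero (α := Fin (s + 2)))
      · exact absurd hij (zero_ne_one (α := Fin (s + 2)))
      · rfl) |> fun h => (show LinearIndependent ℚ ![fun j : Fin l => (A 1 (k + j) : ℚ),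
        fun j : Fin l => (A 0 (k + j) : ℚ)] by
      convert h using 1
      funext i
      fin_cases i <;> rfl))) 1 (-(A 1 k : ℚ)) (by
      funext j
      have h5 := (h3 (k + j) (by omega) (by omega)).1
      have h6 : ((A 1 (k + j) - A 1 k * A 0 (k + j) : ℤ) : ℚ) = 0 := by exact_mod_cast h5
      push_cast at h6
      simp only [Pi.add_apply, Pi.smul_apply, smul_eq_mul, Pi.zero_apply]
      linarith)
    exact one_ne_zero h4.1
  · have h3 := (hS.1 k h1 hk).1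
    simp only [hA, mul_one, sub_self, zero_mul, add_zero] at h3
    have h4 : IsCoprime ((2 : ℤ) ^ σ k) ((a : ℤ) ^ τ k) :=
      IsCoprime.pow (Int.isCoprime_two_left.2 (by exact_mod_cast ha))
    exact h4.dvd_of_dvd_mul_left ⟨_, h3.symm⟩

theorem no_round (a : ℕ) (ha : Odd a) (ha3 : 3 ≤ a) (s : ℕ) :
    ∃ E : ℕ, 1 ≤ E ∧ ∀ (B L₀ l : ℕ), ∀ E' ≥ E, ∃ N₀ : ℕ, ∀ N ≥ N₀,
      ∀ (σ τ : ℕ → ℕ) (β : ℕ → ℤ) (q L : ℕ) (Y : ℤ) (A G : Fin (s + 2) → ℕ → ℤ)
        (φ : Matrix (Fin (s + 2)) (Fin (s + 2)) ℤ) (d : Fin (s + 2) → ℤ), 1 ≤ L → L ≤ L₀ →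
        (∀ k, q ≤ k → k < q + (L + l) → Odd (β k) ∧ N ≤ σ k ∧ σ k ≤ B * N ∧ τ k ≤ B * N ∧
          |β k| * 2 ^ N ≤ (a : ℤ) ^ τ k * 2 ^ σ k) →
        (∀ b, Sol a σ τ β q (L + l) (2 ^ (N / E')) Y (A b) (G b)) →
        (∀ k, A 0 k = 1) → (∀ k, q ≤ k → k < q + L → Ind A l k) →
        (∀ i j, |φ i j| ≤ 2 ^ (N / E')) → (∀ i, d i ≠ 0 ∧ |d i| ≤ 2 ^ (N / E')) → φ.det ≠ 0 →
        (∀ b, d b * G b (q + L) = ∑ b', φ b b' * G b' q) → False := by
  refine ⟨(s + 2) * (s + 3) + s + 6, by omega, fun B L₀ l E' hE' => ?_⟩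
  have hE1 : 1 ≤ E' := by omega
  obtain ⟨N₁, H⟩ := rground_det a ha (s + 2) (L₀ * B) E' hE1
  obtain ⟨K, hK⟩ : ∃ K : ℕ, K = (s + 2).factorial * 2 ^ (s + 1) := ⟨_, rfl⟩
  refine ⟨max N₁ (E' * (2 * K + 2 * ((K + 1) * L₀) + 1)), ?_⟩
  intro N hN σ τ β q L Y A G φ d hL hL₀ hβ hG hA hI hφ hd h0 hr
  have hu : 2 * K + 2 * ((K + 1) * L₀) + 1 ≤ N / E' :=
    (Nat.le_div_iff_mul_le hE1).2 (by rw [mul_comm]; exact (le_max_right _ _).trans hN)
  have hu2 : N / E' < 2 ^ (N / E') := Nat.lt_two_pow_self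
  have huN : N / E' * ((s + 2) * (s + 3) + s + 6) ≤ N :=
    (Nat.mul_le_mul_left _ hE').trans (Nat.div_mul_le_self N E')
  have hdet := H N ((le_max_left _ _).trans hN) (∑ i ∈ Ico q (q + L), σ i)
    (∑ i ∈ Ico q (q + L), τ i) φ d
    ((hβ q le_rfl (by omega)).2.1.trans (single_le_sum (f := σ) (fun _ _ => Nat.zero_le _)
      (mem_Ico.2 ⟨le_rfl, by omega⟩)))
    ((sum_le_card_nsmul _ _ (B * N) fun i hi => (hβ i (mem_Ico.1 hi).1
      (by have := (mem_Ico.1 hi).2; omega)).2.2.1).trans (by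
        rw [Nat.card_Ico, Nat.add_sub_cancel_left, smul_eq_mul, mul_assoc]
        exact Nat.mul_le_mul_right _ hL₀))
    ((sum_le_card_nsmul _ _ (B * N) fun i hi => (hβ i (mem_Ico.1 hi).1
      (by have := (mem_Ico.1 hi).2; omega)).2.2.2.1).trans (by
        rw [Nat.card_Ico, Nat.add_sub_cancel_left, smul_eq_mul, mul_assoc]
        exact Nat.mul_le_mul_right _ hL₀))
    (by nlinarith) (by rw [pow_succ, ← mul_assoc, ← hK]; omega) hφ hd h0
  generalize N / E' = u at *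
  have ha0 : (0 : ℝ) < a := by exact_mod_cast (by omega : 0 < a)
  obtain ⟨m, hm⟩ : ∃ m : ℕ → ℝ, ∀ k, m k = ∏ i ∈ Ico q k, ((2 : ℝ) ^ σ i / (a : ℝ) ^ τ i) :=
    ⟨_, fun _ => rfl⟩
  have hm0 : ∀ k, 0 < m k := fun k => by
    rw [hm]
    exact prod_pos fun i _ => by positivity
  have hmq : m q = 1 := by simp [hm]
  have hms : ∀ k, q ≤ k → m (k + 1) = m k * ((2 : ℝ) ^ σ k / (a : ℝ) ^ τ k) := fun k hk => by
    rw [hm, hm, prod_Ico_succ_top hk]
  have hmL : m (q + L) = (((2 : ℤ) ^ (∑ i ∈ Ico q (q + L), σ i) : ℤ) : ℝ) /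
      (((a : ℤ) ^ (∑ i ∈ Ico q (q + L), τ i) : ℤ) : ℝ) := by
    rw [hm, prod_div_distrib, prod_pow_eq_pow_sum, prod_pow_eq_pow_sum]
    push_cast
    rfl
  obtain ⟨k, hk, hmax⟩ := exists_max_image (Ico q (q + L)) (fun k => (2 : ℝ) ^ σ k * m k)
    ⟨q, mem_Ico.2 ⟨le_rfl, by omega⟩⟩
  obtain ⟨hk1, hk2⟩ := mem_Ico.1 hk
  obtain ⟨Δ, hΔ⟩ : ∃ Δ : ℝ, Δ = 2 ^ σ k * m k / 2 ^ N := ⟨_, rfl⟩
  have hΔ0 : 0 < Δ := by
    have := hm0 k
    rw [hΔ]
    positivity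
  have hstep : ∀ b j, q ≤ j → j < q + L →
      |(G b (j + 1) : ℝ) * m (j + 1) - G b j * m j| ≤ 2 ^ u * Δ := by
    intro b j j1 j2
    obtain ⟨e1, e2⟩ := (hG b).1 j j1 (by omega)
    have e3 : (2 : ℝ) ^ σ j * G b (j + 1) = (a : ℝ) ^ τ j * G b j + A b j * β j := by
      exact_mod_cast e1
    have e4 : |(A b j : ℝ)| ≤ 2 ^ u := by exact_mod_cast e2
    have e5 : |(β j : ℝ)| * 2 ^ N ≤ (a : ℝ) ^ τ j * 2 ^ σ j := by
      exact_mod_cast (hβ j j1 (by omega)).2.2.2.2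
    have e6 : (G b (j + 1) : ℝ) * m (j + 1) - G b j * m j =
        A b j * (β j * (m j / (a : ℝ) ^ τ j)) := by
      rw [hms j j1]
      field_simp
      linear_combination m j * e3
    have e7 := hm0 j
    rw [e6, abs_mul, abs_mul, abs_of_pos (by positivity : 0 < m j / (a : ℝ) ^ τ j)]
    refine mul_le_mul e4 ?_ (by positivity) (by positivity)
    rw [hΔ, le_div_iff₀ (by positivity)]
    refine le_trans ?_ (hmax j (mem_Ico.2 ⟨j1, j2⟩))
    calc |(β j : ℝ)| * (m j / (a : ℝ) ^ τ j) * 2 ^ N =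
          |(β j : ℝ)| * 2 ^ N * (m j / (a : ℝ) ^ τ j) := by ring
      _ ≤ (a : ℝ) ^ τ j * 2 ^ σ j * (m j / (a : ℝ) ^ τ j) :=
          mul_le_mul_of_nonneg_right e5 (by positivity)
      _ = _ := by field_simp
  have htel : ∀ b, ∀ j ≤ L, |(G b (q + j) : ℝ) * m (q + j) - G b q| ≤ L₀ * (2 ^ u * Δ) := by
    intro b j hj
    have e1 := rground_tel (fun k => (G b k : ℝ) * m k) q L _ (hstep b) j hj
    rw [hmq, mul_one] at e1
    exact e1.trans (mul_le_mul_of_nonneg_right (by exact_mod_cast hj.trans hL₀) (by positivity))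
  have hst := rground_start φ d (fun b => G b q) (fun b => G b (q + L)) _ _ (2 ^ u) (by positivity)
    (by positivity) (one_le_pow₀ one_le_two) _ _ hφ (fun i => (hd i).2) hr hdet
    (fun b => hmL ▸ htel b L le_rfl)
  have hK' : (((s + 1 + 1).factorial : ℝ) * 2 ^ (s + 1)) = K := by
    rw [hK]
    push_cast
    rfl
  rw [hK'] at hst
  push_cast at hst
  have hc := rground_comb ha (fun k h1 h2 => ⟨(hβ k h1 h2).1, (hβ k h1 h2).2.1⟩) hG hA (by
    rw [← pow_succ']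
    have := (Nat.mul_le_mul_left u (by omega : 6 ≤ (s + 2) * (s + 3) + s + 6)).trans huN
    exact pow_lt_pow_right₀ one_lt_two (by omega)) hk1 hk2 (hI k hk1 hk2)
  have hc' : (2 : ℝ) ^ σ k ≤ |(G 1 k : ℝ) - A 1 k * G 0 k| := by exact_mod_cast hc
  have hAk : |(A 1 k : ℝ)| ≤ 2 ^ u := by exact_mod_cast ((hG 1).1 k hk1 (by omega)).2
  have hKX : (2 * ((K + 1) * L₀) : ℝ) < 2 ^ u := by
    exact_mod_cast (by omega : 2 * ((K + 1) * L₀) < 2 ^ u)
  have hN2 : ((2 : ℝ) ^ u) ^ ((s + 2) * (s + 3) + s + 6) ≤ 2 ^ N := by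
    rw [← pow_mul]
    exact pow_le_pow_right₀ one_le_two huN
  have hX1 : (1 : ℝ) ≤ 2 ^ u := one_le_pow₀ one_le_two
  generalize (2 : ℝ) ^ u = X at *
  obtain ⟨P, hP⟩ : ∃ P : ℝ, P = X ^ ((s + 2) * (s + 2 + 1) + 1 + (s + 1) + 1) := ⟨_, rfl⟩
  have hP1 : 1 ≤ P := hP ▸ one_le_pow₀ hX1
  have hPN : X * (X * (P * X)) ≤ 2 ^ N := le_trans (le_of_eq (by rw [hP]; ring)) hN2
  rw [← hP] at hst
  have hZ : ∀ b, |(G b k : ℝ) * m k| ≤ (K + 1) * L₀ * (P * X * Δ) := by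
    intro b
    obtain ⟨j, rfl⟩ := Nat.exists_eq_add_of_le hk1
    have e1 := htel b j (by omega)
    have e2 := hst b
    have e3 := abs_sub_abs_le_abs_sub ((G b (q + j) : ℝ) * m (q + j)) (G b q)
    have e4 : (L₀ : ℝ) * (X * Δ) ≤ P * (L₀ * (X * Δ)) :=
      le_mul_of_one_le_left (by positivity) hP1
    linarith
  have hW : (0 : ℝ) ≤ (K + 1) * L₀ * (P * X * Δ) := by positivity
  have f1 : (2 : ℝ) ^ N * Δ ≤ 2 * X * ((K + 1) * L₀ * (P * X * Δ)) := by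
    have e1 : (2 : ℝ) ^ N * Δ = 2 ^ σ k * m k := by
      rw [hΔ]
      field_simp
    have e2 : |(G 1 k : ℝ) - A 1 k * G 0 k| * m k = |G 1 k * m k - A 1 k * (G 0 k * m k)| := by
      rw [← mul_assoc, ← sub_mul, abs_mul, abs_of_pos (hm0 k)]
    have e3 := abs_sub ((G 1 k : ℝ) * m k) (A 1 k * (G 0 k * m k))
    have e4 : |(A 1 k : ℝ) * (G 0 k * m k)| ≤ X * ((K + 1) * L₀ * (P * X * Δ)) := by
      rw [abs_mul]
      exact mul_le_mul hAk (hZ 0) (abs_nonneg _) (by positivity)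
    have e5 := mul_le_mul_of_nonneg_right hc' (hm0 k).le
    have e6 := le_mul_of_one_le_left hW hX1
    linarith [hZ 1]
  have f2 := mul_le_mul_of_nonneg_right hPN hΔ0.le
  have f3 := mul_lt_mul_of_pos_right hKX (show 0 < X * (P * X * Δ) by positivity)
  linarith

end Pool.Agent.Lib.MP_dee342_nt.Gr
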