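import Pool.Agent.Lib.MP_dee342_nt.Defs

/-! Factors of an initial part of the parity word. -/

namespace Pool.Agent.Lib.MP_dee342_nt

/-- The number of distinct parity words of length `n` read from `x, T x, …, T^(L-1) x`. -/
def factors (a x : ℤ) (L n : ℕ) : ℕ :=
  ((Finset.range L).image fun i => parWord a n ((T a)^[i] x)).card

end Pool.Agent.Lib.MP_dee342_nt
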