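import Pool.Agent.Lib.MP_dee342_nt.CxMain
import Pool.Agent.Lib.MP_dee342_nt.LocDefs

/-! Superlinear complexity of the letters that follow a small element. -/

set_option autoImplicit false

namespace Pool.Agent.Lib.MP_dee342_nt.Gr

open Finset

theorem cnt_le_factors (a x : ℤ) {L L' : ℕ} (h : L ≤ L') (n : ℕ) :
    cnt (wd a x) L n ≤ factors a x L' n := by
  unfold cnt factors
  refine le_trans (card_le_card ?_)
    (card_image_le (f := fun u : Fin n → ℤ => fun j => decide (u j = 0)))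
  intro u hu
  obtain ⟨i, hi, rfl⟩ := mem_image.1 hu
  refine mem_image.2 ⟨_, mem_image_of_mem _ (mem_range.2 ((mem_range.1 hi).trans_le h)), ?_⟩
  funext j
  have : parWord a n ((T a)^[i] x) j = par a x (i + j) := by
    simp only [parWord, par]
    rw [← Function.iterate_add_apply, add_comm]
  exact congrArg (fun z : ℤ => decide (z = 0)) this

theorem superlinear_local (a : ℕ) (ha : a = 3 ∨ a = 5) (C η : ℝ) (hη : 0 < η) :
    ∃ R : ℕ, {x : ℤ | x ∈ Function.periodicPts (T a) ∧ ∃ n : ℕ,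
      η * Real.log (Function.minimalPeriod (T a) x) ≤ n ∧
      (∀ i, |(x : ℝ)| ≤ Real.exp (n / η) * |(((T a)^[i] x : ℤ) : ℝ)|) ∧
      R * n ≤ Function.minimalPeriod (T a) x ∧ (factors a x (R * n) n : ℝ) ≤ C * n}.Finite := by
  obtain ⟨μ, hμ⟩ : ∃ μ, LogMeasure a μ := by
    rcases ha with rfl | rfl
    exacts [⟨_, logMeasure_three⟩, ⟨_, logMeasure_five⟩]
  have ho : Odd a := by rcases ha with rfl | rfl <;> decide
  have ha3 : 3 ≤ a := by omega
  obtain ⟨C₀, hC₀, hmin⟩ := min_poly a μ ho ha3 hμ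
  obtain ⟨C₁, hC₁⟩ := exists_nat_ge (max C (((μ + 1) / η + C₀) / Real.log 2))
  obtain ⟨C₂, hC₂⟩ := exists_nat_ge (1 / η / Real.log 2)
  obtain ⟨C', hC'⟩ : ∃ C', C' = C₂ + C₁ := ⟨_, rfl⟩
  obtain ⟨R, n₀, hw⟩ := superlinear_window a ho ha3 C'
  refine ⟨R + 1, (finite_of_abs_le (2 ^ (C' * (n₀ + 1)))).subset ?_⟩
  rintro x ⟨hx, n, hn0, hn1, hn2, hn3⟩
  set p := Function.minimalPeriod (T a) x with hp
  have hp0 : 0 < p := Function.minimalPeriod_pos_of_mem_periodicPts hx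
  have hb : ∀ n', n ≤ n' → 1 ≤ n' → |(x : ℝ)| ≤ 2 ^ (C' * n') := fun n' h1 h2 => by
    have h3 : (n : ℝ) ≤ n' := by exact_mod_cast h1
    have h4 := (hmin x p hp0 (Function.isPeriodicPt_minimalPeriod _ _)
      (|(x : ℝ)| / Real.exp (n / η)) fun i _ => (div_le_iff₀' (Real.exp_pos _)).2 (hn1 i)).trans
      (cxmain_pow_le hη hC₀ h2 hp0 (hn0.trans h3) ((le_max_right _ _).trans hC₁))
    have h5 : Real.exp (n / η) ≤ 2 ^ (C₂ * n') := by
      have b1 := (div_le_iff₀ (Real.log_pos one_lt_two)).1 hC₂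
      have b2 : (n : ℝ) / η ≤ ((C₂ * n' : ℕ) : ℝ) * Real.log 2 := by
        have b3 := mul_le_mul b1 h3 (Nat.cast_nonneg n) ((by positivity : (0 : ℝ) ≤ 1 / η).trans b1)
        push_cast
        calc (n : ℝ) / η = 1 / η * n := by ring
          _ ≤ _ := b3.trans_eq (by ring)
      have b4 := Real.exp_le_exp.2 b2
      rwa [Real.exp_nat_mul, Real.exp_log two_pos] at b4
    rw [div_le_iff₀' (Real.exp_pos _)] at h4
    rw [hC', add_mul, pow_add]
    exact h4.trans (mul_le_mul_of_nonneg_right h5 (by positivity))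
  rcases le_or_gt n (n₀ + 1) with hn | hn
  · exact hb _ hn (by omega)
  exfalso
  have h5 : |x| ≤ 2 ^ (C' * n) := by exact_mod_cast hb n le_rfl (by omega)
  have h7 : R * n < p := by
    rw [add_mul] at hn2
    omega
  have h8 := hw n (by omega) _ h5 fun i j hij hj h => hij.ne
    (Function.iterate_injOn_Iio_minimalPeriod (hij.trans (hj.trans_lt h7)) (hj.trans_lt h7) h)
  have h9 : ((C' * n : ℕ) : ℝ) < factors a x ((R + 1) * n) n := by
    exact_mod_cast h8.trans_le (cnt_le_factors _ _ (Nat.mul_le_mul_right _ (Nat.le_succ R)) _)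
  push_cast at h9
  have h11 : C ≤ C' := ((le_max_left _ _).trans hC₁).trans (by exact_mod_cast (by omega))
  have h10 := mul_le_mul_of_nonneg_right h11 (show (0 : ℝ) ≤ n by positivity)
  linarith

theorem window_factors (a : ℕ) (ha : Odd a) (ha3 : 3 ≤ a) (C : ℕ) : ∃ R n₀ : ℕ, ∀ n ≥ n₀,
    ∀ x : ℤ, |x| ≤ 2 ^ (C * n) → (∀ i j, i < j → j ≤ R * n → (T a)^[i] x ≠ (T a)^[j] x) →
      C * n < factors a x (R * n) n := by
  obtain ⟨R, n₀, hw⟩ := superlinear_window a ha ha3 C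
  exact ⟨R, n₀, fun n hn x hx h => (hw n hn x hx h).trans_le (cnt_le_factors _ _ le_rfl _)⟩

end Pool.Agent.Lib.MP_dee342_nt.Gr
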