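import Pool.Agent.Lib.MP_dee342_nt.GrDefs

/-!
Basic properties of `un`, `Bd`, `lm` and `Ht`.
-/

set_option autoImplicit false

namespace Pool.Agent.Lib.MP_dee342_nt.Gr

open Filter Topology Finset

variable {τ : Type}

variable {a : ℕ} {U : Filter τ} {N : τ → ℕ} {ρ : ℕ}

theorem grbase_ev (hN : Tendsto N U atTop) (C ε : ℝ) (hε : 0 < ε) :
    ∀ᶠ t in U, C ≤ Real.exp (ε * N t) := by
  have h1 : Tendsto (fun t => (N t : ℝ)) U atTop := tendsto_natCast_atTop_atTop.comp hN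
  exact (Real.tendsto_exp_atTop.comp (h1.const_mul_atTop hε)).eventually_ge_atTop C

theorem grbase_lim (U : Ultrafilter τ) {g : τ → ℝ} (B : ℝ) (h : ∀ᶠ t in U, |g t| ≤ B) :
    ∃ w, Tendsto g U (𝓝 w) := by
  have hc : IsCompact (Set.Icc (-B) B) := isCompact_Icc
  obtain ⟨w, _, hw⟩ := hc.ultrafilter_le_nhds (U.map g) (by
    rw [le_principal_iff, Ultrafilter.coe_map, Filter.mem_map]
    filter_upwards [h] with t ht using abs_le.1 ht)
  exact ⟨w, hw⟩

theorem un_add (ha : a ≠ 0) (n k n' k' : ℤ) : un a (n + n') (k + k') = un a n k * un a n' k' := by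
  have h : (a : ℚ) ≠ 0 := Nat.cast_ne_zero.2 ha
  unfold un
  rw [zpow_add₀ two_ne_zero, zpow_add₀ h]
  ring

theorem un_pos (ha : a ≠ 0) (n k : ℤ) : 0 < un a n k := by
  have h : (0 : ℚ) < a := Nat.cast_pos.2 (Nat.pos_of_ne_zero ha)
  unfold un
  positivity

theorem un_zero : un a 0 0 = 1 := by
  simp [un]

theorem un_nat (n k : ℕ) : un a n k = (((2 : ℤ) ^ n * (a : ℤ) ^ k : ℤ) : ℚ) := by
  simp [un]

theorem un_real (ha : a ≠ 0) (n k : ℤ) :
    ((un a n k : ℚ) : ℝ) = Real.exp (n * Real.log 2 + k * Real.log a) := by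
  have h : (0 : ℝ) < a := Nat.cast_pos.2 (Nat.pos_of_ne_zero ha)
  unfold un
  rw [Real.exp_add, ← Real.log_zpow, ← Real.log_zpow, Real.exp_log (zpow_pos two_pos n),
    Real.exp_log (zpow_pos h k)]
  push_cast
  rfl

theorem Bd.add {n k : τ → ℤ} (hn : Bd U N n) (hk : Bd U N k) : Bd U N fun t => n t + k t := by
  obtain ⟨B, hB⟩ := hn
  obtain ⟨B', hB'⟩ := hk
  refine ⟨B + B', ?_⟩
  filter_upwards [hB, hB'] with t h1 h2
  push_cast
  have := abs_add_le (n t : ℝ) (k t : ℝ)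
  linarith

theorem Bd.neg {n : τ → ℤ} (hn : Bd U N n) : Bd U N fun t => -n t := by
  obtain ⟨B, hB⟩ := hn
  refine ⟨B, ?_⟩
  filter_upwards [hB] with t h1
  push_cast
  rwa [abs_neg]

theorem Bd.const_mul {n : τ → ℤ} (c : ℤ) (hn : Bd U N n) : Bd U N fun t => c * n t := by
  obtain ⟨B, hB⟩ := hn
  refine ⟨|(c : ℝ)| * B, ?_⟩
  filter_upwards [hB] with t h1
  push_cast
  rw [abs_mul, mul_assoc]
  exact mul_le_mul_of_nonneg_left h1 (abs_nonneg _)

theorem Bd.const (hN : Tendsto N U atTop) (c : ℤ) : Bd U N fun _ => c := by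
  refine ⟨|(c : ℝ)|, ?_⟩
  filter_upwards [hN.eventually_ge_atTop 1] with t h1
  have h2 : (1 : ℝ) ≤ N t := by exact_mod_cast h1
  exact le_mul_of_one_le_right (abs_nonneg _) h2

theorem Bd.congr {n k : τ → ℤ} (hn : Bd U N n) (h : ∀ᶠ t in U, n t = k t) : Bd U N k := by
  obtain ⟨B, hB⟩ := hn
  refine ⟨B, ?_⟩
  filter_upwards [hB, h] with t h1 h2
  rwa [← h2]

theorem Bd.of_le {n : τ → ℕ} (A : ℕ) (h : ∀ᶠ t in U, n t ≤ A * N t) :
    Bd U N fun t => (n t : ℤ) := by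
  refine ⟨A, ?_⟩
  filter_upwards [h] with t h1
  rw [Int.cast_natCast, Nat.abs_cast]
  exact_mod_cast h1

theorem Bd.of_tendsto (hN : Tendsto N U atTop) {n : τ → ℤ} {c w : ℝ} (hc : 0 < c)
    (h : Tendsto (fun t => (n t : ℝ) * c / N t) U (𝓝 w)) : Bd U N n := by
  refine ⟨(|w| + 1) / c, ?_⟩
  have h1 : ∀ᶠ t in U, |(n t : ℝ) * c / N t| ≤ |w| + 1 :=
    (h.abs.eventually (eventually_le_nhds (lt_add_one |w|)))
  filter_upwards [h1, hN.eventually_ge_atTop 1] with t h2 h3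
  have h4 : (0 : ℝ) < N t := by exact_mod_cast h3
  rw [abs_div, abs_mul, abs_of_pos hc, abs_of_pos h4, div_le_iff₀ h4] at h2
  rw [div_mul_eq_mul_div, le_div_iff₀ hc]
  exact h2

/-- A bounded quotient converges along an ultrafilter. -/
theorem Bd.exists_tendsto (U : Ultrafilter τ) (hN : Tendsto N U atTop) {n : τ → ℤ}
    (hn : Bd U N n) (c : ℝ) : ∃ w, Tendsto (fun t => (n t : ℝ) * c / N t) U (𝓝 w) := by
  obtain ⟨B, hB⟩ := hn
  refine grbase_lim U (B * |c|) ?_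
  filter_upwards [hB, hN.eventually_ge_atTop 1] with t h2 h3
  have h4 : (0 : ℝ) < N t := by exact_mod_cast h3
  rw [abs_div, abs_mul, abs_of_pos h4, div_le_iff₀ h4]
  nlinarith [abs_nonneg c]

theorem tendsto_lm (U : Ultrafilter τ) (hN : Tendsto N U atTop) {f : τ → ℕ} (A : ℕ)
    (h : ∀ᶠ t in U, f t ≤ A * N t) :
    Tendsto (fun t => (f t : ℝ) / N t) U (𝓝 (lm U N f)) := by
  have h0 : ∃ w, Tendsto (fun t => (f t : ℝ) / N t) U (𝓝 w) := by
    refine grbase_lim U A ?_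
    filter_upwards [h, hN.eventually_ge_atTop 1] with t h2 h3
    have h4 : (0 : ℝ) < N t := by exact_mod_cast h3
    rw [abs_div, abs_of_pos h4, div_le_iff₀ h4, Nat.abs_cast]
    exact_mod_cast h2
  exact tendsto_nhds_limUnder h0

theorem Ht.mono {z : τ → ℤ} {h h' : ℝ} (hz : Ht U N z h) (hh : h ≤ h') : Ht U N z h' := by
  intro ε hε
  filter_upwards [hz ε hε] with t h1
  refine h1.trans (Real.exp_le_exp.2 ?_)
  exact mul_le_mul_of_nonneg_right (by linarith) (Nat.cast_nonneg _)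

theorem Ht.congr {z z' : τ → ℤ} {h : ℝ} (hz : Ht U N z h) (e : ∀ᶠ t in U, z t = z' t) :
    Ht U N z' h := by
  intro ε hε
  filter_upwards [hz ε hε, e] with t h1 h2
  rwa [← h2]

theorem Ht.of_abs_le {z z' : τ → ℤ} {h : ℝ} (hz : Ht U N z h) (e : ∀ᶠ t in U, |z' t| ≤ |z t|) :
    Ht U N z' h := by
  intro ε hε
  filter_upwards [hz ε hε, e] with t h1 h2
  refine le_trans ?_ h1
  exact_mod_cast h2

theorem Ht.mul {z z' : τ → ℤ} {h h' : ℝ} (hz : Ht U N z h) (hz' : Ht U N z' h') :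
    Ht U N (fun t => z t * z' t) (h + h') := by
  intro ε hε
  filter_upwards [hz (ε / 2) (half_pos hε), hz' (ε / 2) (half_pos hε)] with t h1 h2
  push_cast
  rw [abs_mul, show (h + h' + ε) * (N t : ℝ) = (h + ε / 2) * N t + (h' + ε / 2) * N t by ring,
    Real.exp_add]
  exact mul_le_mul h1 h2 (abs_nonneg _) (Real.exp_pos _).le

theorem Ht.add (hN : Tendsto N U atTop) {z z' : τ → ℤ} {h : ℝ} (hz : Ht U N z h)
    (hz' : Ht U N z' h) : Ht U N (fun t => z t + z' t) h := by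
  intro ε hε
  filter_upwards [hz (ε / 2) (half_pos hε), hz' (ε / 2) (half_pos hε),
    grbase_ev hN 2 (ε / 2) (half_pos hε)] with t h1 h2 h3
  push_cast
  rw [show (h + ε) * (N t : ℝ) = ε / 2 * N t + (h + ε / 2) * N t by ring, Real.exp_add]
  have h4 := abs_add_le (z t : ℝ) (z' t : ℝ)
  nlinarith [Real.exp_pos ((h + ε / 2) * N t)]

theorem Ht.const (hN : Tendsto N U atTop) (c : ℤ) : Ht U N (fun _ => c) 0 := by
  intro ε hε
  filter_upwards [grbase_ev hN |(c : ℝ)| ε hε] with t h1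
  rwa [zero_add]

/-- If `|z| ≤ b ^ f` and `f / N → l` then `z` has height `l log b`. -/
theorem Ht.of_pow (hN : Tendsto N U atTop) {z : τ → ℤ} {f : τ → ℕ} {b : ℕ} (hb : 1 ≤ b) {l : ℝ}
    (hf : Tendsto (fun t => (f t : ℝ) / N t) U (𝓝 l)) (hz : ∀ᶠ t in U, |z t| ≤ (b : ℤ) ^ f t) :
    Ht U N z (l * Real.log b) := by
  intro ε hε
  have hb' : (1 : ℝ) ≤ b := by exact_mod_cast hb
  have hl : 0 ≤ Real.log b := Real.log_nonneg hb'
  have h1 : ∀ᶠ t in U, (f t : ℝ) / N t * Real.log b ≤ l * Real.log b + ε :=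
    (hf.mul_const (Real.log b)).eventually (eventually_le_nhds (lt_add_of_pos_right _ hε))
  filter_upwards [h1, hz, hN.eventually_ge_atTop 1] with t h2 h3 h4
  have h5 : (0 : ℝ) < N t := by exact_mod_cast h4
  have h6 : |(z t : ℝ)| ≤ (b : ℝ) ^ f t := by exact_mod_cast h3
  refine h6.trans ?_
  rw [← Real.exp_log (pow_pos (lt_of_lt_of_le one_pos hb') (f t)), Real.log_pow, Real.exp_le_exp]
  rw [div_mul_eq_mul_div, div_le_iff₀ h5] at h2
  exact h2

/-- A constant is eventually below `exp (ε N)`. -/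
theorem ev_le_exp (hN : Tendsto N U atTop) (C ε : ℝ) (hε : 0 < ε) :
    ∀ᶠ t in U, C ≤ Real.exp (ε * N t) := by
  exact grbase_ev hN C ε hε

end Pool.Agent.Lib.MP_dee342_nt.Gr
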