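import Pool.Agent.Lib.MP_dee342_nt.GrBase

/-!
Basic properties of `wt`, `Mon` and of evaluation in a frame.
-/

set_option autoImplicit false

namespace Pool.Agent.Lib.MP_dee342_nt.Gr

open Filter Topology Finset

variable {τ : Type}
variable {a : ℕ} {U : Filter τ} {N : τ → ℕ} {ρ : ℕ}

theorem wt_add (ω : Fin ρ → ℝ) (m m' : Fin ρ →₀ ℕ) : wt ω (m + m') = wt ω m + wt ω m' := by
  simp only [wt, Finsupp.add_apply, Nat.cast_add, add_mul, Finset.sum_add_distrib]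

theorem wt_add_fun (ω ω' : Fin ρ → ℝ) (m : Fin ρ →₀ ℕ) :
    wt (ω + ω') m = wt ω m + wt ω' m := by
  simp only [wt, Pi.add_apply, mul_add, Finset.sum_add_distrib]

theorem wt_neg (ω : Fin ρ → ℝ) (m : Fin ρ →₀ ℕ) : wt (-ω) m = -wt ω m := by
  simp only [wt, Pi.neg_apply, mul_neg, Finset.sum_neg_distrib]

theorem mem_Mon {d : ℕ} {m : Fin ρ →₀ ℕ} : m ∈ Mon ρ d ↔ ∑ i, m i ≤ d := by
  simp only [Mon, Set.Finite.mem_toFinset, Set.mem_ofPred_eq, Finsupp.degree_eq_sum]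

theorem support_subset_Mon {d : ℕ} {f : Pol ρ} : f.support ⊆ Mon ρ d ↔ f.totalDegree ≤ d := by
  rw [MvPolynomial.totalDegree, Finset.sup_le_iff]
  refine forall₂_congr fun m _ => ?_
  rw [mem_Mon, Finsupp.sum_fintype _ _ fun _ => rfl]

theorem Fr.nE_add (F : Fr a U N ρ) (m m' : Fin ρ →₀ ℕ) (t : τ) :
    F.nE (m + m') t = F.nE m t + F.nE m' t := by
  simp only [Fr.nE, Finsupp.add_apply, Nat.cast_add, add_mul, Finset.sum_add_distrib]

theorem Fr.kE_add (F : Fr a U N ρ) (m m' : Fin ρ →₀ ℕ) (t : τ) :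
    F.kE (m + m') t = F.kE m t + F.kE m' t := by
  simp only [Fr.kE, Finsupp.add_apply, Nat.cast_add, add_mul, Finset.sum_add_distrib]

theorem grbasic_zpow_sum {b : ℚ} (hb : b ≠ 0) (s : Finset (Fin ρ)) (m : Fin ρ → ℕ)
    (e : Fin ρ → ℤ) : ∏ i ∈ s, (b ^ e i) ^ m i = b ^ ∑ i ∈ s, (m i : ℤ) * e i := by
  classical
  induction s using Finset.induction_on with
  | empty => simp
  | insert i s hi ih =>
    rw [Finset.prod_insert hi, Finset.sum_insert hi, ih, zpow_add₀ hb, mul_comm (m i : ℤ),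
      zpow_mul, zpow_natCast]

theorem Fr.ev_monomial (ha : a ≠ 0) (F : Fr a U N ρ) (m : Fin ρ →₀ ℕ) (r : ℚ) (t : τ) :
    F.ev t (MvPolynomial.monomial m r) = r * un a (F.nE m t) (F.kE m t) := by
  have ha' : (a : ℚ) ≠ 0 := by exact_mod_cast ha
  rw [Fr.ev, MvPolynomial.eval_monomial, Finsupp.prod_fintype _ _ fun _ => pow_zero _]
  congr 1
  simp only [un, Fr.nE, Fr.kE, mul_pow, Finset.prod_mul_distrib]
  rw [grbasic_zpow_sum two_ne_zero, grbasic_zpow_sum ha']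

theorem Fr.ev_eq_sum (ha : a ≠ 0) (F : Fr a U N ρ) (f : Pol ρ) (t : τ) :
    F.ev t f = ∑ m ∈ f.support, f.coeff m * un a (F.nE m t) (F.kE m t) := by
  conv_lhs => rw [f.as_sum, map_sum]
  exact Finset.sum_congr rfl fun m _ => F.ev_monomial ha m _ t

theorem Fr.tendsto_nE (F : Fr a U N ρ) (m : Fin ρ →₀ ℕ) :
    Tendsto (fun t => (F.nE m t : ℝ) * Real.log 2 / N t) U (𝓝 (wt F.w2 m)) := by
  refine (tendsto_finsetSum Finset.univ fun i _ => (F.h2 i).const_mul (m i : ℝ)).congr fun t => ?_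
  simp only [Fr.nE, Int.cast_sum, Int.cast_mul, Int.cast_natCast, Finset.sum_mul, Finset.sum_div]
  exact Finset.sum_congr rfl fun i _ => by ring

theorem Fr.tendsto_kE (F : Fr a U N ρ) (m : Fin ρ →₀ ℕ) :
    Tendsto (fun t => (F.kE m t : ℝ) * Real.log a / N t) U (𝓝 (wt F.wa m)) := by
  refine (tendsto_finsetSum Finset.univ fun i _ => (F.ha i).const_mul (m i : ℝ)).congr fun t => ?_
  simp only [Fr.kE, Int.cast_sum, Int.cast_mul, Int.cast_natCast, Finset.sum_mul, Finset.sum_div]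
  exact Finset.sum_congr rfl fun i _ => by ring

theorem Fr.Rep.mul {F : Fr a U N ρ} {I : Type} [Fintype I] {e : I → τ → ℤ} {y : τ → ℤ}
    {P : Pol ρ} {f : I → Pol ρ} (h : F.Rep e y P f) (g : Pol ρ) :
    F.Rep e y (g * P) fun i => g * f i := by
  filter_upwards [h] with t ht
  simp only [map_mul, mul_assoc, ht, Finset.mul_sum]

end Pool.Agent.Lib.MP_dee342_nt.Gr
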