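import Pool.Agent.Lib.MP_dee342_nt.GrDefs
import Pool.Agent.Lib.Common.Subspace.SUnit

/-!
The Subspace Theorem for three bases of the span of a family of integer sequences.

Proof. Let `Kr` be the submodule of `w : J → ℚ` with `∑ w j * Y j t = 0` eventually and `P` the
submodule of the vectors supported on `I0`. By `hind`, `Kr ⊓ P = ⊥`; `finrank Kr ≥ card κ` and
`finrank P = card I0`, so `Kr ⊔ P = ⊤`: each `Y j` is eventually a fixed rational combination of
the `Y i`, `i ∈ I0`. Choose bijections `e2 : I0 ≃ I2`, `e3 : I0 ≃ Ia`; the rational matrices `M2`, `M3`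
(row `i` expresses `Y (e2 i)`, `Y (e3 i)`) are nonsingular by `hind` (a vector in the left kernel
gives a relation on `I2`). Clear denominators (`d • M` integral, `d ≠ 0`) and apply
`Common.Subspace.subspace` with index type `I0`, `S = insert 2 a.primeFactors`, `L₀ = 1`,
`L p = if p = 2 then d • M2 else d • M3`, `x t i = Y i t`. The `2`-adic norms are at most
`2^(-e2)`, the product over `p ∣ a` of the `p`-adic norms of a multiple of `a^e` is at most `a^(-e)`
(see `sunit_prod_self`, `sunit_pow`, `sunit_almost`, `padicNorm_le_of_dvd`). The vector `w` given by the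
theorem contradicts `hind` for `I0`. The case `I0 = ∅` is covered as well (then `1 ≤ exp (-δ q)`
fails, or use the theorem directly: `w ≠ 0` is impossible on an empty type).
-/

set_option autoImplicit false

namespace Pool.Agent.Lib.MP_dee342_nt.Gr

open Filter Topology Finset

variable {τ : Type}

theorem grsub_span {J κ : Type} [Fintype J] [DecidableEq J] [Fintype κ] (U : Ultrafilter τ)
    (Y : J → τ → ℤ) (I0 : Finset J)
    (hind : ∀ w : J → ℚ, (∀ᶠ t in U, ∑ j ∈ I0, w j * (Y j t : ℚ) = 0) → ∀ j ∈ I0, w j = 0)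
    (r : κ → J → ℚ) (hr : LinearIndependent ℚ r)
    (hκ : Fintype.card κ + I0.card = Fintype.card J)
    (hrel : ∀ k, ∀ᶠ t in U, ∑ j, r k j * (Y j t : ℚ) = 0) (j : J) :
    ∃ c : I0 → ℚ, ∀ᶠ t in U, (Y j t : ℚ) = ∑ i : I0, c i * (Y i t : ℚ) := by
  let v : κ ⊕ I0 → J → ℚ := Sum.elim r fun i => Pi.single i.1 1
  have key : ∀ g : κ ⊕ I0 → ℚ, ∀ᶠ t in U,
      ∑ l, (∑ s, g s • v s) l * (Y l t : ℚ) = ∑ i : I0, g (.inr i) * (Y i t : ℚ) := by
    intro g
    filter_upwards [eventually_all.2 hrel] with t ht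
    simp only [Finset.sum_apply, Pi.smul_apply, smul_eq_mul, sum_mul, mul_assoc]
    rw [sum_comm, Fintype.sum_sum_type]
    simp only [← mul_sum, v, Sum.elim_inl, Sum.elim_inr, ht, mul_zero, sum_const_zero, zero_add]
    refine sum_congr rfl fun i _ => ?_
    simp [Pi.single_apply]
  have hv : LinearIndependent ℚ v := by
    refine Fintype.linearIndependent_iff.2 fun g hg => ?_
    have h1 : ∀ i : I0, g (.inr i) = 0 := by
      intro i
      have := hind (fun l => if h : l ∈ I0 then g (.inr ⟨l, h⟩) else 0) ((key g).mono fun t ht => by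
        rw [hg] at ht
        rw [← sum_coe_sort I0]
        simpa using ht.symm) i i.2
      simpa using this
    rw [Fintype.sum_sum_type] at hg
    simp only [h1, zero_smul, sum_const_zero, add_zero, v, Sum.elim_inl] at hg
    rintro (k | i)
    · exact Fintype.linearIndependent_iff.1 hr _ hg k
    · exact h1 i
  have hs := hv.span_eq_top_of_card_eq_finrank' (by simp [hκ])
  obtain ⟨g, hg⟩ := (Submodule.mem_span_range_iff_exists_fun ℚ).1
    (hs ▸ Submodule.mem_top : (Pi.single j 1 : J → ℚ) ∈ Submodule.span ℚ (Set.range v))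
  refine ⟨fun i => g (.inr i), (key g).mono fun t ht => ?_⟩
  rw [← ht, hg]
  simp [Pi.single_apply]

theorem grsub_mat {J : Type} [Fintype J] [DecidableEq J] (U : Ultrafilter τ) (Y : J → τ → ℤ)
    (I0 I : Finset J) (hc : I.card = I0.card)
    (hind : ∀ w : J → ℚ, (∀ᶠ t in U, ∑ j ∈ I, w j * (Y j t : ℚ) = 0) → ∀ j ∈ I, w j = 0)
    (hs : ∀ j, ∃ c : I0 → ℚ, ∀ᶠ t in U, (Y j t : ℚ) = ∑ i : I0, c i * (Y i t : ℚ)) :
    ∃ (M : Matrix I0 I0 ℤ) (d : ℤ) (e : I0 ≃ I), M.det ≠ 0 ∧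
      ∀ᶠ t in U, ∀ i, M.mulVec (fun l : I0 => Y l t) i = d * Y (e i) t := by
  choose c hc' using hs
  obtain ⟨d, hd⟩ := IsLocalization.exist_integer_multiples (nonZeroDivisors ℤ)
    (univ : Finset (J × I0)) fun z => c z.1 z.2
  choose z hz using fun i => hd i (mem_univ i)
  have hd0 : (d : ℤ) ≠ 0 := nonZeroDivisors.coe_ne_zero d
  have hz' : ∀ j i, (z (j, i) : ℚ) = (d : ℤ) * c j i := fun j i => by simpa using hz (j, i)
  let e : I0 ≃ I := Fintype.equivOfCardEq (by simp [hc])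
  let M : Matrix I0 I0 ℤ := Matrix.of fun i l => z (e i, l)
  have hM : ∀ᶠ t in U, ∀ i, M.mulVec (fun l : I0 => Y l t) i = d * Y (e i) t := by
    filter_upwards [eventually_all.2 hc'] with t ht i
    have : ((M.mulVec (fun l : I0 => Y l t) i : ℤ) : ℚ) = ((d * Y (e i) t : ℤ) : ℚ) := by
      simp only [Matrix.mulVec, dotProduct, M, Matrix.of_apply]
      push_cast
      simp only [hz', ht (e i), mul_sum, mul_assoc]
    exact_mod_cast this
  refine ⟨M, d, e, fun h0 => ?_, hM⟩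
  obtain ⟨v, hv0, hv⟩ := Matrix.exists_vecMul_eq_zero_iff.2 h0
  refine hv0 (funext fun i => ?_)
  have := hind (fun l => if h : l ∈ I then (v (e.symm ⟨l, h⟩) : ℚ) else 0) (hM.mono fun t ht => by
    have h1 : v ⬝ᵥ M.mulVec (fun l : I0 => Y l t) = 0 := by
      rw [Matrix.dotProduct_mulVec, hv, zero_dotProduct]
    simp only [dotProduct, ht, mul_left_comm _ (d : ℤ), ← mul_sum] at h1
    have h2 : ((∑ i, v i * Y (e i) t : ℤ) : ℚ) = 0 := by
      exact_mod_cast (mul_eq_zero.1 h1).resolve_left hd0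
    rw [← sum_coe_sort I, ← Equiv.sum_comp e]
    simpa using h2) (e i) (e i).2
  simpa using this

theorem grsub_norm (S : Finset ℕ) (hS : ∀ p ∈ S, p.Prime) (a : ℕ)
    (ha : ∏ p ∈ S, padicNorm p (a : ℚ) = (a : ℚ)⁻¹) (e : ℕ) (y d : ℤ) (h : (a : ℤ) ^ e ∣ y) :
    ∏ p ∈ S, ((padicNorm p ((d * y : ℤ) : ℚ) : ℚ) : ℝ) ≤ ((a : ℝ) ^ e)⁻¹ := by
  obtain ⟨u, rfl⟩ := h
  have hq : ∏ p ∈ S, padicNorm p ((d * ((a : ℤ) ^ e * u) : ℤ) : ℚ) ≤ ((a : ℚ) ^ e)⁻¹ := by
    rw [← inv_pow, ← ha, ← prod_pow]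
    refine prod_le_prod (fun p _ => padicNorm.nonneg _) fun p hp => ?_
    have := Fact.mk (hS p hp)
    rw [mul_left_comm, Int.cast_mul, padicNorm.mul, Int.cast_pow, Int.cast_natCast,
      Common.Subspace.sunit_pow p (hS p hp)]
    exact mul_le_of_le_one_right (pow_nonneg (padicNorm.nonneg _) _) (padicNorm.of_int _)
  have h := (Rat.cast_le (K := ℝ)).mpr hq
  rwa [Rat.cast_inv, Rat.cast_pow, Rat.cast_natCast, Rat.cast_prod] at h

theorem sub_three (a : ℕ) (ha : Odd a) {J κ : Type} [Fintype J] [DecidableEq J] [Fintype κ]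
    (U : Ultrafilter τ) (q : τ → ℝ) (hq : Tendsto q U atTop) (Y : J → τ → ℤ)
    (I0 I2 Ia : Finset J) (hc2 : I2.card = I0.card) (hca : Ia.card = I0.card)
    (hind : ∀ I : Finset J, I = I0 ∨ I = I2 ∨ I = Ia → ∀ w : J → ℚ,
      (∀ᶠ t in U, ∑ j ∈ I, w j * (Y j t : ℚ) = 0) → ∀ j ∈ I, w j = 0)
    (r : κ → J → ℚ) (hr : LinearIndependent ℚ r)
    (hκ : Fintype.card κ + I0.card = Fintype.card J)
    (hrel : ∀ k, ∀ᶠ t in U, ∑ j, r k j * (Y j t : ℚ) = 0)
    (K δ : ℝ) (hδ : 0 < δ) (hY : ∀ᶠ t in U, ∀ j, |(Y j t : ℝ)| ≤ Real.exp (K * q t))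
    (e2 ea : J → τ → ℕ) (h2 : ∀ᶠ t in U, ∀ j ∈ I2, (2 : ℤ) ^ e2 j t ∣ Y j t)
    (h3 : ∀ᶠ t in U, ∀ j ∈ Ia, (a : ℤ) ^ ea j t ∣ Y j t) :
    ¬ ∀ᶠ t in U, ∏ j ∈ I0, |(Y j t : ℝ)| ≤
      Real.exp (-δ * q t) * (2 : ℝ) ^ (∑ j ∈ I2, e2 j t) * (a : ℝ) ^ (∑ j ∈ Ia, ea j t) := by
  intro hprod
  have hs := grsub_span U Y I0 (hind I0 (Or.inl rfl)) r hr hκ hrel
  obtain ⟨M2, d2, f2, hM2, hm2⟩ := grsub_mat U Y I0 I2 hc2 (hind I2 (Or.inr (Or.inl rfl))) hs
  obtain ⟨M3, d3, f3, hM3, hm3⟩ := grsub_mat U Y I0 Ia hca (hind Ia (Or.inr (Or.inr rfl))) hs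
  have hn2 : 2 ∉ a.primeFactors := fun h => ha.not_two_dvd_nat (Nat.dvd_of_mem_primeFactors h)
  have hapos : (0 : ℝ) < a := by exact_mod_cast ha.pos
  obtain ⟨w, hw0, hw⟩ := Common.Subspace.subspace (ι := I0) (insert 2 a.primeFactors)
    (fun p hp => by
      rcases mem_insert.mp hp with rfl | hp
      · exact Nat.prime_two
      · exact Nat.prime_of_mem_primeFactors hp)
    1 (by simp) (fun p => if p = 2 then M2 else M3)
    (fun p _ => by split_ifs; exacts [hM2, hM3]) U q hq (fun t (l : I0) => Y l t) K δ hδ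
    (hY.mono fun t ht i => ht i) (by
      filter_upwards [hprod, h2, h3, hm2, hm3] with t hp h2 h3 hm2 hm3
      rw [prod_insert hn2, prod_comm (s := a.primeFactors)]
      simp only [Matrix.one_mulVec, if_true, hm2]
      have b2 : ∏ i : I0, ((padicNorm 2 ((d2 * Y (f2 i) t : ℤ) : ℚ) : ℚ) : ℝ) ≤
          ((2 : ℝ) ^ ∑ j ∈ I2, e2 j t)⁻¹ := by
        rw [← prod_pow_eq_pow_sum, ← prod_inv_distrib, ← prod_coe_sort I2, ← Equiv.prod_comp f2]
        refine prod_le_prod (fun i _ => by exact_mod_cast padicNorm.nonneg _) fun i _ => ?_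
        have := grsub_norm {2} (by simp [Nat.prime_two]) 2
          (by simpa using padicNorm.padicNorm_p (p := 2) (by norm_num)) (e2 (f2 i) t) (Y (f2 i) t) d2
          (by simpa using h2 _ (f2 i).2)
        rw [prod_singleton] at this
        exact_mod_cast this
      have b3 : ∏ i : I0, ∏ p ∈ a.primeFactors, ((padicNorm p
          (((if p = 2 then M2 else M3).mulVec (fun l : I0 => Y l t) i : ℤ) : ℚ) : ℚ) : ℝ) ≤
          ((a : ℝ) ^ ∑ j ∈ Ia, ea j t)⁻¹ := by
        rw [← prod_pow_eq_pow_sum, ← prod_inv_distrib, ← prod_coe_sort Ia, ← Equiv.prod_comp f3]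
        refine prod_le_prod (fun i _ => prod_nonneg fun p _ => by
          exact_mod_cast padicNorm.nonneg _) fun i _ => le_of_eq_of_le (prod_congr rfl fun p hp => ?_)
          (grsub_norm _ (fun p => Nat.prime_of_mem_primeFactors) a
            (Common.Subspace.sunit_prod_self a ha.pos.ne') (ea (f3 i) t) (Y (f3 i) t) d3
            (h3 _ (f3 i).2))
        rw [if_neg fun h : p = 2 => hn2 (h ▸ hp), hm3]
      rw [← prod_coe_sort I0] at hp
      refine (mul_le_mul hp (mul_le_mul b2 b3 (prod_nonneg fun i _ => prod_nonneg fun p _ => by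
        exact_mod_cast padicNorm.nonneg _) (by positivity)) (mul_nonneg (prod_nonneg fun i _ => by
          exact_mod_cast padicNorm.nonneg _) (prod_nonneg fun i _ => prod_nonneg fun p _ => by
          exact_mod_cast padicNorm.nonneg _)) (by positivity)).trans (le_of_eq ?_)
      field_simp)
  refine hw0 (funext fun i => ?_)
  have := hind I0 (Or.inl rfl) (fun l => if h : l ∈ I0 then (w ⟨l, h⟩ : ℚ) else 0)
    (hw.mono fun t ht => by
      have h1 : ((w ⬝ᵥ fun l : I0 => Y l t : ℤ) : ℚ) = 0 := by exact_mod_cast ht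
      rw [← sum_coe_sort I0]
      simpa [dotProduct] using h1) i i.2
  simpa using this

end Pool.Agent.Lib.MP_dee342_nt.Gr
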