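import Pool.Agent.Lib.MP_dee342_nt.GrLead
import Pool.Agent.Lib.MP_dee342_nt.GrSub

/-!
The circuit inequality: the heart of the growth theorem.

Proof. With `exists_lead` for the weights `-(w2 + wa)`, `w2`, `wa`, replace `m0, m2, ma` by the
leading monomials `ν0, ν2, νa` of `G l0, G l2, G la` (this only increases the left side). Suppose the
left side is at least `∑ h - h l0 + η`. Let `l*` maximise `totalDegree (G l)` among the `l` with
`G l ≠ 0`, `D` the maximum, and `d` from `exists_deg` with `η' * ∑ h ≤ η / 2`; put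
`M' = card (Mon ρ d) ≥ 1`, `M = card (Mon ρ (d + D))`. Apply `sub_three` with `q t = N t`,
`J = L × Mon ρ (d + D)`, `κ = Mon ρ d`,
`Y (l, m) t = 2^(nE m t + E2 t).toNat * a^(kE m t + Ea t).toNat * z l t` where
`E2 t = (d + D) * ∑ i, |en i t|` and `Ea t` likewise (so the exponents are nonnegative and
`Y (l, m) t = un a (E2 t) (Ea t) * un a (nE m t) (kE m t) * z l t`), `I_v` the complement of the image
of `μ ↦ (l_v, μ + ν_v)` (of cardinality `card L * M - M'`), `r μ (l, m) = coeff m (monomial μ 1 * G l)`.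
Independence on `I_v`: a vanishing `w` gives the relation `H l = ∑ m, monomial m (w (l, m))` (sum over
`(l, m) ∈ I_v`), `H = g • G`; if `g ≠ 0` then `totalDegree g ≤ d` (`totalDegree_mul_of_isDomain` at
`l*`), so `ld g ∈ Mon ρ d` and `ld g + ν_v` is in the support of `H l_v`, which is excluded.
Product: sums over `I_v` are sums over `J` minus sums over `Mon ρ d`; the `E`-terms cancel as the
`I_v` have the same cardinality, and the inequality reduces to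
`M' ((nE ν2 - nE ν0) log 2 + (kE νa - kE ν0) log a) + N (M ∑ h - M' h l0 + ε card I0) ≤ -δ N`,
which holds eventually by `tendsto_nE`, `tendsto_kE` for small `ε` and `δ = η / 4`.
-/

set_option autoImplicit false

namespace Pool.Agent.Lib.MP_dee342_nt.Gr

open Filter Topology Finset

variable {τ : Type}

/-- the polynomial with given coefficients -/
noncomputable def grcircPk {ρ n : ℕ} (c : Mon ρ n → ℚ) : Pol ρ :=
  ∑ m, MvPolynomial.monomial m.1 (c m)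

theorem grcirc_coeff {ρ n : ℕ} (c : Mon ρ n → ℚ) (m : Mon ρ n) :
    (grcircPk c).coeff m.1 = c m := by
  rw [grcircPk, MvPolynomial.coeff_sum, sum_eq_single m]
  · rw [MvPolynomial.coeff_monomial, if_pos rfl]
  · intro b _ hb
    rw [MvPolynomial.coeff_monomial, if_neg fun e => hb (Subtype.ext e)]
  · exact fun hm => absurd (mem_univ m) hm

theorem grcirc_deg {ρ n : ℕ} (c : Mon ρ n → ℚ) : (grcircPk c).totalDegree ≤ n :=
  MvPolynomial.totalDegree_finsetSum_le fun m _ => support_subset_Mon.1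
    (MvPolynomial.support_monomial_subset.trans (singleton_subset_iff.2 m.2))

theorem grcirc_pk_eq {ρ n : ℕ} {f : Pol ρ} (hf : f.totalDegree ≤ n) :
    grcircPk (fun m : Mon ρ n => f.coeff m.1) = f := by
  rw [grcircPk, sum_coe_sort (Mon ρ n) fun m => MvPolynomial.monomial m (f.coeff m)]
  refine Eq.trans (sum_subset (support_subset_Mon.2 hf) fun m _ hm => ?_).symm f.as_sum.symm
  rw [MvPolynomial.notMem_support_iff.1 hm, MvPolynomial.monomial_zero]

theorem grcirc_sum {a : ℕ} (ha : a ≠ 0) {U : Filter τ} {N : τ → ℕ} {ρ n : ℕ} (F : Fr a U N ρ)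
    {L : Type} [Fintype L] (z : L → τ → ℤ) (c : L × Mon ρ n → ℚ) (u : ℚ) (t : τ) :
    ∑ j, c j * (u * (un a (F.nE j.2.1 t) (F.kE j.2.1 t) * z j.1 t)) =
      u * ∑ l, F.ev t (grcircPk fun m => c (l, m)) * z l t := by
  rw [Fintype.sum_prod_type, mul_sum]
  refine sum_congr rfl fun l _ => ?_
  rw [grcircPk, map_sum, sum_mul, mul_sum]
  refine sum_congr rfl fun m _ => ?_
  rw [F.ev_monomial ha]
  ring

theorem grcirc_ind {a : ℕ} (ha : a ≠ 0) {U : Filter τ} {N : τ → ℕ} {ρ n d : ℕ} (F : Fr a U N ρ)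
    {L : Type} [Fintype L] [DecidableEq L] (z : L → τ → ℤ) (G : L → Pol ρ)
    (hgen : ∀ H, F.Van z H → ∃ g, ∀ l, H l = g * G l) {ls lv : L} (gs : G ls ≠ 0)
    (hn : n = d + (G ls).totalDegree) {ld : Pol ρ → (Fin ρ →₀ ℕ)} {ν : Fin ρ →₀ ℕ}
    (p : ∀ f : Pol ρ, f ≠ 0 → ld f ∈ f.support)
    (q : ∀ f : Pol ρ, f ≠ 0 → ld f + ν ∈ (f * G lv).support) (φ : Mon ρ d ↪ L × Mon ρ n)
    (hφ : ∀ μ, (φ μ).1 = lv ∧ (φ μ).2.1 = μ.1 + ν) (u : τ → ℚ) (hu : ∀ t, u t ≠ 0)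
    (w : L × Mon ρ n → ℚ) (hw : ∀ᶠ t in U, ∑ j ∈ (univ.map φ)ᶜ,
      w j * (u t * (un a (F.nE j.2.1 t) (F.kE j.2.1 t) * z j.1 t)) = 0) :
    ∀ j ∈ (univ.map φ)ᶜ, w j = 0 := by
  obtain ⟨c, hc⟩ : ∃ c : L × Mon ρ n → ℚ, ∀ j, c j = if j ∈ (univ.map φ)ᶜ then w j else 0 :=
    ⟨_, fun _ => rfl⟩
  obtain ⟨g, hg⟩ := hgen (fun l => grcircPk fun m => c (l, m)) (by
    filter_upwards [hw] with t ht
    refine (mul_eq_zero.1 ?_).resolve_left (hu t)
    rw [← grcirc_sum ha F z c, ← ht]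
    simp only [hc, ite_mul, zero_mul]
    rw [← sum_filter, filter_mem_eq_inter, univ_inter])
  by_cases g0 : g = 0
  · intro j hj
    have h1 := grcirc_coeff (fun m => c (j.1, m)) j.2
    rw [hg, g0, zero_mul, MvPolynomial.coeff_zero, hc, if_pos hj] at h1
    exact h1.symm
  · exfalso
    have h1 := grcirc_deg fun m => c (ls, m)
    rw [hg, MvPolynomial.totalDegree_mul_of_isDomain g0 gs] at h1
    have h2 : ld g ∈ Mon ρ d := support_subset_Mon.2 (by omega) (p g g0)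
    have h3 := MvPolynomial.mem_support_iff.1 (q g g0)
    rw [← hg, ← (hφ ⟨_, h2⟩).2, grcirc_coeff, ← (hφ ⟨_, h2⟩).1, hc, if_neg] at h3
    · exact h3 rfl
    · exact notMem_compl.2 (mem_map_of_mem φ (mem_univ _))

theorem grcirc_shift {U : Filter τ} {N : τ → ℕ} {ι : Type} (s : Finset ι) (e : ι → τ → ℤ) {b : ℝ}
    (hb : 0 ≤ b) (w : ι → ℝ) (he : ∀ m, Tendsto (fun t => (e m t : ℝ) * b / N t) U (𝓝 (w m))) :
    ∃ (E : τ → ℤ) (c : ℝ), (∀ m ∈ s, ∀ t, 0 ≤ e m t + E t) ∧ ∀ m ∈ s,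
      Tendsto (fun t => ((e m t + E t).toNat : ℝ) * b / N t) U (𝓝 (w m + c)) := by
  have h1 : ∀ m ∈ s, ∀ t, 0 ≤ e m t + ∑ k ∈ s, |e k t| := fun m hm t => by
    have := single_le_sum (f := fun k => |e k t|) (fun k _ => abs_nonneg _) hm
    linarith [neg_abs_le (e m t)]
  refine ⟨fun t => ∑ k ∈ s, |e k t|, ∑ k ∈ s, |w k|, h1, fun m hm => ?_⟩
  refine ((he m).add (tendsto_finsetSum s fun k _ => (he k).abs)).congr fun t => ?_
  rw [← Int.cast_natCast (Int.toNat _), Int.toNat_of_nonneg (h1 m hm t), Int.cast_add, add_mul,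
    add_div, Int.cast_sum, sum_mul, sum_div]
  refine congrArg _ (sum_congr rfl fun k _ => ?_)
  rw [abs_div, abs_mul, abs_of_nonneg hb, Nat.abs_cast, Int.cast_abs]

theorem grcirc_final {a : ℕ} (ha : a ≠ 0) {U : Filter τ} {N : τ → ℕ} (hN : Tendsto N U atTop)
    {J : Type} [Fintype J] (I0 I2 Ia : Finset J) (e2 ea : J → τ → ℕ) (z : J → τ → ℤ)
    (h α β : J → ℝ) (hz : ∀ j, Ht U N (z j) (h j))
    (h2 : ∀ j, Tendsto (fun t => (e2 j t : ℝ) * Real.log 2 / N t) U (𝓝 (α j)))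
    (h3 : ∀ j, Tendsto (fun t => (ea j t : ℝ) * Real.log a / N t) U (𝓝 (β j)))
    (hlt : ∑ j ∈ I0, α j + ∑ j ∈ I0, β j + ∑ j ∈ I0, h j < ∑ j ∈ I2, α j + ∑ j ∈ Ia, β j) :
    ∃ K δ : ℝ, 0 < δ ∧
      (∀ᶠ t in U, ∀ j, |(((2 : ℤ) ^ e2 j t * (a : ℤ) ^ ea j t * z j t : ℤ) : ℝ)| ≤
        Real.exp (K * N t)) ∧
      ∀ᶠ t in U, ∏ j ∈ I0, |(((2 : ℤ) ^ e2 j t * (a : ℤ) ^ ea j t * z j t : ℤ) : ℝ)| ≤
        Real.exp (-δ * N t) * (2 : ℝ) ^ (∑ j ∈ I2, e2 j t) * (a : ℝ) ^ (∑ j ∈ Ia, ea j t) := by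
  have hp : ∀ (b : ℝ) (k : ℕ), 0 < b → b ^ k = Real.exp (k * Real.log b) := fun b k hb => by
    rw [Real.exp_nat_mul, Real.exp_log hb]
  have ha' : (0 : ℝ) < a := by exact_mod_cast Nat.pos_of_ne_zero ha
  have hpos : ∀ᶠ t in U, (0 : ℝ) < N t :=
    (hN.eventually_gt_atTop 0).mono fun t ht => by exact_mod_cast ht
  have hb : ∀ ε : ℝ, 0 < ε → ∀ᶠ t in U, ∀ j,
      |(((2 : ℤ) ^ e2 j t * (a : ℤ) ^ ea j t * z j t : ℤ) : ℝ)| ≤
        Real.exp (e2 j t * Real.log 2 + ea j t * Real.log a + (h j + ε) * N t) := fun ε hε => by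
    filter_upwards [eventually_all.2 fun j => hz j ε hε] with t ht j
    push_cast
    rw [abs_mul, hp 2 _ two_pos, hp a _ ha', ← Real.exp_add, Real.exp_add _ ((h j + ε) * N t),
      abs_of_pos (Real.exp_pos _)]
    exact mul_le_mul_of_nonneg_left (ht j) (Real.exp_pos _).le
  obtain ⟨δ, hδ⟩ : ∃ δ : ℝ, δ * (I0.card + 2) = ∑ j ∈ I2, α j + ∑ j ∈ Ia, β j -
      (∑ j ∈ I0, α j + ∑ j ∈ I0, β j + ∑ j ∈ I0, h j) :=
    ⟨_, div_mul_cancel₀ _ (by positivity)⟩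
  have hδ0 : 0 < δ := (mul_pos_iff_of_pos_right (show (0 : ℝ) < I0.card + 2 by positivity)).1
    (by rw [hδ]; linarith)
  refine ⟨∑ j, |α j + β j + h j + 2|, δ, hδ0, ?_, ?_⟩
  · filter_upwards [hb 1 one_pos, hpos, eventually_all.2 fun j =>
      ((h2 j).add (h3 j)).eventually_le_const (lt_add_one _)] with t ht hp0 hl j
    refine (ht j).trans (Real.exp_le_exp.2 ?_)
    have h4 := hl j
    rw [← add_div, div_le_iff₀ hp0] at h4
    have h5 := mul_le_mul_of_nonneg_right ((le_abs_self _).trans (single_le_sum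
      (f := fun j => |α j + β j + h j + 2|) (fun _ _ => abs_nonneg _) (mem_univ j))) hp0.le
    linarith
  · have t1 := ((tendsto_finsetSum I2 fun j _ => h2 j).add
      (tendsto_finsetSum Ia fun j _ => h3 j)).sub
      ((tendsto_finsetSum I0 fun j _ => h2 j).add (tendsto_finsetSum I0 fun j _ => h3 j))
    filter_upwards [hb δ hδ0, hpos, t1.eventually_const_le
      (u := ∑ j ∈ I0, h j + δ * (I0.card + 1)) (by linarith)] with t ht hp0 hl
    refine (prod_le_prod (fun j _ => abs_nonneg _) fun j _ => ht j).trans ?_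
    rw [← Real.exp_sum, hp 2 _ two_pos, hp a _ ha', ← Real.exp_add, ← Real.exp_add,
      Real.exp_le_exp]
    simp only [← sum_div, ← add_div, ← sub_div] at hl
    rw [le_div_iff₀ hp0] at hl
    simp only [sum_add_distrib, Nat.cast_sum, sum_mul, add_mul, sum_const, nsmul_eq_mul] at hl ⊢
    linarith

theorem circ {a : ℕ} (ha : Odd a) (ha3 : 3 ≤ a) {U : Ultrafilter τ} {N : τ → ℕ}
    (hN : Tendsto N U atTop) {ρ : ℕ} (F : Fr a U N ρ) {L : Type} [Fintype L] [DecidableEq L]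
    (z : L → τ → ℤ) (h : L → ℝ) (h0 : ∀ l, 0 ≤ h l) (hz : ∀ l, Ht U N (z l) (h l))
    (G : L → Pol ρ) (hG : F.Van z G) (hgen : ∀ H, F.Van z H → ∃ g, ∀ l, H l = g * G l)
    (l0 l2 la : L) (m0 m2 ma : Fin ρ →₀ ℕ) (hm0 : m0 ∈ (G l0).support)
    (hm2 : m2 ∈ (G l2).support) (hma : ma ∈ (G la).support) :
    wt F.w2 m0 + wt F.wa m0 - wt F.w2 m2 - wt F.wa ma ≤ ∑ l, h l - h l0 := by
  have ha0 : a ≠ 0 := by omega
  obtain ⟨ld0, p0, q0⟩ := exists_lead (-(F.w2 + F.wa))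
  obtain ⟨ld2, p2, q2⟩ := exists_lead F.w2
  obtain ⟨lda, pa, qa⟩ := exists_lead F.wa
  have g0 : G l0 ≠ 0 := MvPolynomial.support_nonempty.1 ⟨_, hm0⟩
  have g2 : G l2 ≠ 0 := MvPolynomial.support_nonempty.1 ⟨_, hm2⟩
  have ga : G la ≠ 0 := MvPolynomial.support_nonempty.1 ⟨_, hma⟩
  have i0 := (p0 _ g0).2 _ hm0
  have i2 := (p2 _ g2).2 _ hm2
  have ia := (pa _ ga).2 _ hma
  rw [wt_neg, wt_neg, wt_add_fun, wt_add_fun] at i0
  by_contra hcon
  obtain ⟨η, hη⟩ : ∃ η, η = wt F.w2 (ld0 (G l0)) + wt F.wa (ld0 (G l0)) - wt F.w2 (ld2 (G l2))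
    - wt F.wa (lda (G la)) - (∑ l, h l - h l0) := ⟨_, rfl⟩
  have hη0 : 0 < η := by linarith [not_le.1 hcon]
  obtain ⟨ls, hls, hmax⟩ := exists_max_image (univ.filter fun l => G l ≠ 0)
    (fun l => (G l).totalDegree) ⟨l0, mem_filter.2 ⟨mem_univ _, g0⟩⟩
  have gs : G ls ≠ 0 := (mem_filter.1 hls).2
  have hD : ∀ l, (G l).totalDegree ≤ (G ls).totalDegree := fun l => by
    by_cases hl : G l = 0
    · rw [hl, MvPolynomial.totalDegree_zero]; exact Nat.zero_le _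
    · exact hmax l (mem_filter.2 ⟨mem_univ _, hl⟩)
  have hs0 : 0 ≤ ∑ l, h l := sum_nonneg fun l _ => h0 l
  obtain ⟨d, hd⟩ := exists_deg ρ (G ls).totalDegree (η / (2 * (∑ l, h l + 1))) (by positivity)
  obtain ⟨n, hn⟩ : ∃ n, n = d + (G ls).totalDegree := ⟨_, rfl⟩
  rw [← hn] at hd
  have hφ : ∀ (l : L) (ν : Fin ρ →₀ ℕ), ν ∈ (G l).support → ∃ φ : Mon ρ d ↪ L × Mon ρ n,
      ∀ μ, (φ μ).1 = l ∧ (φ μ).2.1 = μ.1 + ν := by
    intro l ν hν
    have h1 := mem_Mon.1 (support_subset_Mon.2 (hD l) hν)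
    refine ⟨⟨fun μ => (l, ⟨μ.1 + ν, mem_Mon.2 ?_⟩), fun μ μ' e => Subtype.ext
      (add_right_cancel (congrArg (fun j : L × Mon ρ n => j.2.1) e))⟩, fun μ => ⟨rfl, rfl⟩⟩
    have h2 := mem_Mon.1 μ.2
    simp only [Finsupp.add_apply, sum_add_distrib]
    omega
  obtain ⟨φ0, hφ0⟩ := hφ l0 _ (p0 _ g0).1
  obtain ⟨φ2, hφ2⟩ := hφ l2 _ (p2 _ g2).1
  obtain ⟨φa, hφa⟩ := hφ la _ (pa _ ga).1
  obtain ⟨E2, c2, hE2, tE2⟩ := grcirc_shift (Mon ρ n) F.nE (Real.log_nonneg one_le_two)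
    (fun m => wt F.w2 m) F.tendsto_nE
  obtain ⟨Ea, ca, hEa, tEa⟩ := grcirc_shift (Mon ρ n) F.kE (Real.log_natCast_nonneg a)
    (fun m => wt F.wa m) F.tendsto_kE
  have hsum : ∀ (φ : Mon ρ d ↪ L × Mon ρ n) (f : L × Mon ρ n → ℝ),
      ∑ j ∈ (univ.map φ)ᶜ, f j = ∑ j, f j - ∑ μ, f (φ μ) := fun φ f => by
    rw [← sum_add_sum_compl (univ.map φ), sum_map, add_sub_cancel_left]
  have hcard : ∀ φ : Mon ρ d ↪ L × Mon ρ n,
      Fintype.card (Mon ρ d) + (univ.map φ)ᶜ.card = Fintype.card (L × Mon ρ n) := fun φ => by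
    rw [← card_add_card_compl (univ.map φ), card_map, card_univ]
  obtain ⟨K, δ, hδ, hK, hfin⟩ := grcirc_final ha0 hN (univ.map φ0)ᶜ (univ.map φ2)ᶜ (univ.map φa)ᶜ
    (fun j t => (F.nE j.2.1 t + E2 t).toNat) (fun j t => (F.kE j.2.1 t + Ea t).toNat)
    (fun j => z j.1) (fun j => h j.1) (fun j => wt F.w2 j.2.1 + c2) (fun j => wt F.wa j.2.1 + ca)
    (fun j => hz j.1) (fun j => tE2 _ j.2.2) (fun j => tEa _ j.2.2) (by
      have hM : (1 : ℝ) ≤ (Mon ρ d).card := by exact_mod_cast card_pos.2 (Mon_nonempty ρ d)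
      have e1 : ∑ j : L × Mon ρ n, h j.1 = (Mon ρ n).card * ∑ l, h l := by
        rw [Fintype.sum_prod_type, mul_sum]
        simp
      have e2 : η / (2 * (∑ l, h l + 1)) * ∑ l, h l ≤ η / 2 := by
        rw [div_mul_eq_mul_div, div_le_div_iff₀ (by positivity) two_pos]
        nlinarith
      have e3 := mul_le_mul_of_nonneg_right hd hs0
      have e4 := mul_le_mul_of_nonneg_left e2 (Nat.cast_nonneg (α := ℝ) (Mon ρ d).card)
      have e5 := mul_le_mul_of_nonneg_right hM hη0.le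
      simp only [hsum, sum_add_distrib, hφ0, hφ2, hφa, wt_add, sum_const, card_univ,
        Fintype.card_coe, nsmul_eq_mul, e1]
      have e6 : ((Mon ρ d).card : ℝ) * η = (Mon ρ d).card * (wt F.w2 (ld0 (G l0)) +
        wt F.wa (ld0 (G l0)) - wt F.w2 (ld2 (G l2)) - wt F.wa (lda (G la)) -
          (∑ l, h l - h l0)) := by rw [← hη]
      linarith)
  have hY : ∀ (j : L × Mon ρ n) t, (((2 : ℤ) ^ (F.nE j.2.1 t + E2 t).toNat *
      (a : ℤ) ^ (F.kE j.2.1 t + Ea t).toNat * z j.1 t : ℤ) : ℚ) =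
      un a (E2 t) (Ea t) * (un a (F.nE j.2.1 t) (F.kE j.2.1 t) * z j.1 t) := fun j t => by
    rw [Int.cast_mul, ← un_nat, Int.toNat_of_nonneg (hE2 _ j.2.2 t),
      Int.toNat_of_nonneg (hEa _ j.2.2 t), un_add ha0]
    ring
  have hP : ∀ (μ : Mon ρ d) l, (MvPolynomial.monomial μ.1 (1 : ℚ) * G l).totalDegree ≤ n :=
    fun μ l => by
      refine (MvPolynomial.totalDegree_mul _ _).trans (hn ▸ add_le_add ?_ (hD l))
      exact support_subset_Mon.1 (MvPolynomial.support_monomial_subset.trans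
        (singleton_subset_iff.2 μ.2))
  refine sub_three a ha U (fun t => (N t : ℝ)) (tendsto_natCast_atTop_atTop.comp hN) _ _ _ _
    (Nat.add_left_cancel ((hcard φ2).trans (hcard φ0).symm))
    (Nat.add_left_cancel ((hcard φa).trans (hcard φ0).symm)) ?_
    (fun (μ : Mon ρ d) j => (MvPolynomial.monomial μ.1 (1 : ℚ) * G j.1).coeff j.2.1) ?_ (hcard φ0)
    (fun μ => ?_) K δ hδ hK _ _ (.of_forall fun t j _ => ?_) (.of_forall fun t j _ => ?_) hfin
  · simp only [hY]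
    rintro I (rfl | rfl | rfl)
    · exact grcirc_ind ha0 F z G hgen gs hn (fun f hf => (p0 f hf).1) (fun f hf => q0 f _ hf g0)
        φ0 hφ0 _ fun t => (un_pos ha0 _ _).ne'
    · exact grcirc_ind ha0 F z G hgen gs hn (fun f hf => (p2 f hf).1) (fun f hf => q2 f _ hf g2)
        φ2 hφ2 _ fun t => (un_pos ha0 _ _).ne'
    · exact grcirc_ind ha0 F z G hgen gs hn (fun f hf => (pa f hf).1) (fun f hf => qa f _ hf ga)
        φa hφa _ fun t => (un_pos ha0 _ _).ne'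
  · refine Fintype.linearIndependent_iff.2 fun c hc μ => ?_
    have h1 : grcircPk c * G l0 = 0 := by
      rw [← grcirc_pk_eq (n := n) ((MvPolynomial.totalDegree_mul _ _).trans
        (hn ▸ add_le_add (grcirc_deg c) (hD l0)))]
      refine sum_eq_zero fun m _ => MvPolynomial.monomial_eq_zero.2 ?_
      have h2 := congrFun hc (l0, m)
      rw [Finset.sum_apply] at h2
      beta_reduce
      rw [grcircPk, sum_mul, MvPolynomial.coeff_sum]
      refine Eq.trans (sum_congr rfl fun ν _ => ?_) h2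
      rw [Pi.smul_apply, ← MvPolynomial.coeff_smul, ← smul_mul_assoc, MvPolynomial.smul_monomial,
        smul_eq_mul, mul_one]
    rw [← grcirc_coeff c μ, (mul_eq_zero.1 h1).resolve_right g0, MvPolynomial.coeff_zero]
  · filter_upwards [hG] with t ht
    simp only [hY]
    rw [grcirc_sum ha0 F z (fun j => (MvPolynomial.monomial μ.1 (1 : ℚ) * G j.1).coeff j.2.1)]
    simp only [grcirc_pk_eq (hP μ _), map_mul, mul_assoc]
    rw [← mul_sum, ht, mul_zero, mul_zero]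
  · exact (dvd_mul_right _ _).mul_right _
  · exact (dvd_mul_left _ _).mul_right _

end Pool.Agent.Lib.MP_dee342_nt.Gr
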