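import Pool.Agent.Lib.MP_dee342_nt.PieceDefs
import Pool.Agent.Lib.MP_dee342_nt.MinBound

/-! The affine relations along periodic pieces. -/

namespace Pool.Agent.Lib.MP_dee342_nt

open Finset Function

theorem par_shift (a x : ℤ) (s i : ℕ) : par a ((T a)^[s] x) i = par a x (s + i) := by
  rw [par, par, ← iterate_add_apply, add_comm]

theorem pc_aff (a : ℕ) (ha : Odd a) (ha3 : 3 ≤ a) (x : ℤ) (n : ℕ) :
    ∃ (c : ℕ) (N : ℤ), c ≤ n ∧ 0 ≤ N ∧ N + 2 ^ n ≤ (a : ℤ) ^ n ∧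
      2 ^ n * (T a)^[n] x = (a : ℤ) ^ c * x + N := by
  have ha' : Odd (a : ℤ) := by exact_mod_cast ha
  have h3 : (3 : ℤ) ≤ a := by exact_mod_cast ha3
  induction n with
  | zero => exact ⟨0, 0, le_rfl, le_rfl, by simp, by simp⟩
  | succ n ih =>
    obtain ⟨c, N, hc, hN0, hN, h⟩ := ih
    have hp : (0 : ℤ) < 2 ^ n := by positivity
    rw [iterate_succ_apply']
    by_cases hx : (T a)^[n] x % 2 = 0
    · refine ⟨c, N, by omega, hN0, ?_, ?_⟩
      · rw [pow_succ, pow_succ]; nlinarith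
      · rw [pow_succ, mul_assoc, two_mul_T_even hx, h]
    · refine ⟨c + 1, a * N + 2 ^ n, by omega, by positivity, ?_, ?_⟩
      · rw [pow_succ, pow_succ]; nlinarith
      · rw [pow_succ, mul_assoc, two_mul_T_odd ha' hx, pow_succ]
        linear_combination (a : ℤ) * h

theorem pc_diff (a : ℕ) (ha : Odd a) (x : ℤ) (v i : ℕ)
    (h : ∀ j < i, par a x (j + v) = par a x j) :
    ∃ c ≤ i, 2 ^ i * ((T a)^[i + v] x - (T a)^[i] x) = (a : ℤ) ^ c * ((T a)^[v] x - x) := by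
  have ha' : Odd (a : ℤ) := by exact_mod_cast ha
  induction i with
  | zero => exact ⟨0, le_rfl, by simp⟩
  | succ i ih =>
    obtain ⟨c, hc, h1⟩ := ih fun j hj => h j (by omega)
    have h2 := h i (by omega)
    simp only [par] at h2
    rw [show i + 1 + v = (i + v) + 1 by ring, iterate_succ_apply', iterate_succ_apply']
    by_cases hx : (T a)^[i] x % 2 = 0
    · refine ⟨c, by omega, ?_⟩
      have h3 := two_mul_T_even (a := a) hx
      have h4 := two_mul_T_even (a := a) (h2.trans hx)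
      rw [pow_succ]
      linear_combination h1 + 2 ^ i * h4 - 2 ^ i * h3
    · refine ⟨c + 1, by omega, ?_⟩
      have h3 := two_mul_T_odd ha' hx
      have h4 := two_mul_T_odd ha' (x := (T a)^[i + v] x) (by rwa [h2])
      rw [pow_succ, pow_succ]
      linear_combination (a : ℤ) * h1 + 2 ^ i * h4 - 2 ^ i * h3

theorem pc_rel (a : ℕ) (ha : Odd a) (ha3 : 3 ≤ a) (x : ℤ) (l v V : ℕ) (hv : 1 ≤ v) (hV : v ≤ V)
    (h : ∀ i, i + v < l → par a x (i + v) = par a x i) :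
    ∃ (α β α' β' : ℤ) (k : ℕ), k ≤ l ∧ α ≠ 0 ∧ |α| ≤ (a : ℤ) ^ V ∧ |β| ≤ (a : ℤ) ^ V ∧
      |α'| ≤ (a : ℤ) ^ V ∧ |β'| ≤ (a : ℤ) ^ V ∧
      2 ^ l * (α * (T a)^[l] x + β) = (a : ℤ) ^ k * (α' * x + β') ∧
      (v ≤ l → α * (T a)^[l] x + β = 0 → (T a)^[v] x = x) := by
  have h3 : (3 : ℤ) ≤ a := by exact_mod_cast ha3
  have hpow : ∀ c ≤ V, (a : ℤ) ^ c ≤ (a : ℤ) ^ V := fun c hc => pow_le_pow_right₀ (by omega) hc
  have hpos : ∀ c : ℕ, (0 : ℤ) < (a : ℤ) ^ c := fun c => by positivity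
  have h2pos : ∀ c : ℕ, (0 : ℤ) < 2 ^ c := fun c => by positivity
  by_cases hl : l < v
  · obtain ⟨c, N, hc, hN0, hN, h1⟩ := pc_aff a ha ha3 x l
    refine ⟨1, 0, (a : ℤ) ^ c, N, 0, by omega, one_ne_zero, ?_, ?_, ?_, ?_, by simpa using h1,
      fun h => by omega⟩
    · simpa using hpow 0 (by omega)
    · simp
    · rw [abs_of_pos (hpos c)]; exact hpow c (by omega)
    · rw [abs_of_nonneg hN0]; linarith [hpow l (by omega), h2pos l]
  · obtain ⟨i, rfl⟩ : ∃ i, l = i + v := ⟨l - v, by omega⟩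
    obtain ⟨c, hc, h1⟩ := pc_diff a ha x v i fun j hj => h j (by omega)
    obtain ⟨c₀, N₀, hc₀, hN₀, hN₀', h2⟩ := pc_aff a ha ha3 x v
    obtain ⟨c₁, N₁, hc₁, hN₁, hN₁', h4⟩ := pc_aff a ha ha3 ((T a)^[i] x) v
    rw [← iterate_add_apply, add_comm v i] at h4
    have h5 : ((a : ℤ) ^ c₁ - 2 ^ v) * (T a)^[i + v] x + N₁ =
        (a : ℤ) ^ c₁ * ((T a)^[i + v] x - (T a)^[i] x) := by linear_combination -h4
    have hb : ∀ c' ≤ v, |(a : ℤ) ^ c' - 2 ^ v| ≤ (a : ℤ) ^ V := fun c' hc' => by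
      rw [abs_le]
      constructor <;> linarith [hpow c' (by omega), hpow v hV, hpos c', h2pos v]
    refine ⟨(a : ℤ) ^ c₁ - 2 ^ v, N₁, (a : ℤ) ^ c₀ - 2 ^ v, N₀, c + c₁, by omega, ?_, hb _ hc₁, ?_,
      hb _ hc₀, ?_, ?_, fun _ h6 => ?_⟩
    · intro h6
      have h7 : Odd ((a : ℤ) ^ c₁) := Odd.pow (by exact_mod_cast ha)
      have h8 : Even ((2 : ℤ) ^ v) := (Int.even_pow' (by omega)).2 even_two
      rw [sub_eq_zero] at h6
      exact (Int.not_even_iff_odd.2 h7) (h6 ▸ h8)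
    · rw [abs_of_nonneg hN₁]; linarith [hpow v hV, h2pos v]
    · rw [abs_of_nonneg hN₀]; linarith [hpow v hV, h2pos v]
    · rw [h5, pow_add, pow_add]
      linear_combination 2 ^ v * (a : ℤ) ^ c₁ * h1 + (a : ℤ) ^ c * (a : ℤ) ^ c₁ * h2
    · rw [h5, mul_eq_zero] at h6
      rw [h6.resolve_left (hpos _).ne', mul_zero] at h1
      exact sub_eq_zero.1 ((mul_eq_zero.1 h1.symm).resolve_left (hpos _).ne')

/-- The word `π` has a period between `1` and `V` on the positions `s ≤ i < e`. -/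
def Per (π : ℕ → ℤ) (V s e : ℕ) : Prop :=
  ∃ v, 1 ≤ v ∧ v ≤ V ∧ ∀ i, s ≤ i → i + v < e → π (i + v) = π i

theorem pc_rel' (a : ℕ) (ha : Odd a) (ha3 : 3 ≤ a) (x : ℤ) (V s e : ℕ) (hse : s ≤ e)
    (h : Per (par a x) V s e) :
    ∃ (α β α' β' : ℤ) (k : ℕ), k ≤ e - s ∧ α ≠ 0 ∧ |α| ≤ (a : ℤ) ^ V ∧ |β| ≤ (a : ℤ) ^ V ∧
      |α'| ≤ (a : ℤ) ^ V ∧ |β'| ≤ (a : ℤ) ^ V ∧
      2 ^ (e - s) * (α * (T a)^[e] x + β) = (a : ℤ) ^ k * (α' * (T a)^[s] x + β') ∧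
      (V ≤ e - s → α * (T a)^[e] x + β = 0 →
        ∃ v, 1 ≤ v ∧ v ≤ V ∧ (T a)^[v] ((T a)^[s] x) = (T a)^[s] x) := by
  obtain ⟨v, hv, hV, h⟩ := h
  obtain ⟨α, β, α', β', k, h1, h2, h3, h4, h5, h6, h7, h8⟩ :=
    pc_rel a ha ha3 ((T a)^[s] x) (e - s) v V hv hV fun i hi => by
      rw [par_shift, par_shift, ← add_assoc]
      exact h _ (by omega) (by omega)
  rw [← iterate_add_apply, Nat.sub_add_cancel hse] at h7 h8
  exact ⟨α, β, α', β', k, h1, h2, h3, h4, h5, h6, h7, fun h9 h10 => ⟨v, hv, hV, h8 (by omega) h10⟩⟩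

theorem pc_chain (a : ℕ) (ha : Odd a) (ha3 : 3 ≤ a) (x : ℤ) (V : ℕ) (b : ℕ → ℕ) (hb : Monotone b)
    (hb0 : b 0 = 0) (i : ℕ) (h : ∀ j < i, Per (par a x) V (b j) (b (j + 1))) :
    ∃ (P Q : ℤ) (A : ℕ) (c : ℕ → ℤ) (e f : ℕ → ℕ), P ≠ 0 ∧ |P| ≤ ((a : ℤ) ^ V) ^ i ∧
      |Q| ≤ ((a : ℤ) ^ V) ^ i ∧ A ≤ b i ∧
      (∀ l, |c l| ≤ ((a : ℤ) ^ V) ^ i ∧ e l ≤ b i ∧ f l ≤ b i) ∧
      2 ^ b i * (P * (T a)^[b i] x) =
        (a : ℤ) ^ A * (Q * x) + ∑ l ∈ range (2 * i), c l * (a : ℤ) ^ e l * 2 ^ f l := by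
  induction i with
  | zero => exact ⟨1, 1, 0, 0, 0, 0, one_ne_zero, by simp, by simp, by simp, by simp, by simp [hb0]⟩
  | succ i ih =>
    obtain ⟨P, Q, A, c, e, f, hP0, hP, hQ, hA, hc, hid⟩ := ih fun j hj => h j (by omega)
    have hbi : b i ≤ b (i + 1) := hb (Nat.le_succ i)
    obtain ⟨α, β, α', β', k, h1, h2, h3, h4, h5, h6, h7, -⟩ :=
      pc_rel' a ha ha3 x V _ _ hbi (h i (by omega))
    have hm : ∀ {y z : ℤ}, |y| ≤ ((a : ℤ) ^ V) ^ i → |z| ≤ (a : ℤ) ^ V →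
        |y * z| ≤ ((a : ℤ) ^ V) ^ (i + 1) := fun hy hz => by
      rw [abs_mul, pow_succ]
      exact mul_le_mul hy hz (abs_nonneg _) (by positivity)
    refine ⟨P * α, Q * α', A + k,
      fun l => if l < 2 * i then c l * α' else if l = 2 * i then P * β' else -(P * β),
      fun l => if l < 2 * i then e l + k else if l = 2 * i then k else 0,
      fun l => if l < 2 * i then f l else if l = 2 * i then b i else b (i + 1),
      mul_ne_zero hP0 h2, hm hP h3, hm hQ h5, by omega, fun l => ?_, ?_⟩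
    · obtain ⟨h8, h9, h10⟩ := hc l
      dsimp only
      split_ifs
      · exact ⟨hm h8 h5, by omega, by omega⟩
      · exact ⟨hm hP h6, by omega, hbi⟩
      · exact ⟨by rw [abs_neg]; exact hm hP h4, by omega, le_rfl⟩
    · rw [show 2 * (i + 1) = 2 * i + 1 + 1 by ring, sum_range_succ, sum_range_succ]
      have h8 : ∑ l ∈ range (2 * i),
          (if l < 2 * i then c l * α' else if l = 2 * i then P * β' else -(P * β)) *
            (a : ℤ) ^ (if l < 2 * i then e l + k else if l = 2 * i then k else 0) *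
            2 ^ (if l < 2 * i then f l else if l = 2 * i then b i else b (i + 1)) =
          (a : ℤ) ^ k * α' * ∑ l ∈ range (2 * i), c l * (a : ℤ) ^ e l * 2 ^ f l := by
        rw [Finset.mul_sum]
        refine Finset.sum_congr rfl fun l hl => ?_
        simp only [if_pos (mem_range.1 hl), pow_add]
        ring
      have h9 : (2 : ℤ) ^ b (i + 1) = 2 ^ b i * 2 ^ (b (i + 1) - b i) := by
        rw [← pow_add, Nat.add_sub_cancel' hbi]
      simp only [h8, lt_irrefl, if_false, if_true, show ¬ (2 * i + 1 < 2 * i) by omega,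
        show ¬ (2 * i + 1 = 2 * i) by omega, pow_add, pow_zero]
      rw [h9]
      linear_combination 2 ^ b i * P * h7 + (a : ℤ) ^ k * α' * hid

theorem pc_final (a : ℕ) (ha : Odd a) (ha3 : 3 ≤ a) (x : ℤ) (V : ℕ) (b : ℕ → ℕ) (hb : Monotone b)
    (hb0 : b 0 = 0) (i : ℕ) (h : ∀ j < i + 1, Per (par a x) V (b j) (b (j + 1))) :
    ∃ (W Q : ℤ) (A : ℕ) (c : ℕ → ℤ) (e f : ℕ → ℕ),
      |Q| ≤ ((a : ℤ) ^ V) ^ (i + 1) ∧ A ≤ b (i + 1) ∧
      (∀ l, |c l| ≤ ((a : ℤ) ^ V) ^ (i + 1) ∧ e l ≤ b (i + 1) ∧ f l ≤ b i) ∧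
      2 ^ b (i + 1) * W =
        (a : ℤ) ^ A * (Q * x) + ∑ l ∈ range (2 * i + 1), c l * (a : ℤ) ^ e l * 2 ^ f l ∧
      (V ≤ b (i + 1) - b i → W = 0 →
        ∃ v, 1 ≤ v ∧ v ≤ V ∧ (T a)^[v] ((T a)^[b i] x) = (T a)^[b i] x) := by
  obtain ⟨P, Q, A, c, e, f, hP0, hP, hQ, hA, hc, hid⟩ :=
    pc_chain a ha ha3 x V b hb hb0 i fun j hj => h j (by omega)
  have hbi : b i ≤ b (i + 1) := hb (Nat.le_succ i)
  obtain ⟨α, β, α', β', k, h1, h2, h3, h4, h5, h6, h7, h8⟩ :=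
    pc_rel' a ha ha3 x V _ _ hbi (h i (by omega))
  have hm : ∀ {y z : ℤ}, |y| ≤ ((a : ℤ) ^ V) ^ i → |z| ≤ (a : ℤ) ^ V →
      |y * z| ≤ ((a : ℤ) ^ V) ^ (i + 1) := fun hy hz => by
    rw [abs_mul, pow_succ]
    exact mul_le_mul hy hz (abs_nonneg _) (by positivity)
  refine ⟨P * (α * (T a)^[b (i + 1)] x + β), Q * α', A + k,
    fun l => if l < 2 * i then c l * α' else P * β', fun l => if l < 2 * i then e l + k else k,
    fun l => if l < 2 * i then f l else b i, hm hQ h5, by omega, fun l => ?_, ?_,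
    fun h9 h10 => h8 h9 ((mul_eq_zero.1 h10).resolve_left hP0)⟩
  · obtain ⟨h8, h9, h10⟩ := hc l
    dsimp only
    split_ifs
    · exact ⟨hm h8 h5, by omega, by omega⟩
    · exact ⟨hm hP h6, by omega, le_rfl⟩
  · rw [sum_range_succ]
    have h8 : ∑ l ∈ range (2 * i), (if l < 2 * i then c l * α' else P * β') *
          (a : ℤ) ^ (if l < 2 * i then e l + k else k) * 2 ^ (if l < 2 * i then f l else b i) =
        (a : ℤ) ^ k * α' * ∑ l ∈ range (2 * i), c l * (a : ℤ) ^ e l * 2 ^ f l := by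
      rw [Finset.mul_sum]
      refine Finset.sum_congr rfl fun l hl => ?_
      simp only [if_pos (mem_range.1 hl), pow_add]
      ring
    have h9 : (2 : ℤ) ^ b (i + 1) = 2 ^ b i * 2 ^ (b (i + 1) - b i) := by
      rw [← pow_add, Nat.add_sub_cancel' hbi]
    simp only [h8, lt_irrefl, if_false, pow_add]
    rw [h9]
    linear_combination 2 ^ b i * P * h7 + (a : ℤ) ^ k * α' * hid

end Pool.Agent.Lib.MP_dee342_nt
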