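import Mathlib
import Pool.Agent.Lib.MP_dee342_nt.PieceRel

/-!
Definitions for the growth theorem: sequences along a filter, `{2, a}`-units, frames of
multiplicatively independent units and the evaluation of polynomials at them.
-/

set_option autoImplicit false

namespace Pool.Agent.Lib.MP_dee342_nt.Gr

open Filter Topology Finset

variable {τ : Type}

/-- `n = O(N)` along `U`. -/
def Bd (U : Filter τ) (N : τ → ℕ) (n : τ → ℤ) : Prop :=
  ∃ B : ℝ, ∀ᶠ t in U, |(n t : ℝ)| ≤ B * N t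

/-- `|z| ≤ exp ((h + o(1)) N)` along `U`. -/
def Ht (U : Filter τ) (N : τ → ℕ) (z : τ → ℤ) (h : ℝ) : Prop :=
  ∀ ε : ℝ, 0 < ε → ∀ᶠ t in U, |(z t : ℝ)| ≤ Real.exp ((h + ε) * N t)

/-- The unit `2^n a^k`. -/
def un (a : ℕ) (n k : ℤ) : ℚ := (2 : ℚ) ^ n * (a : ℚ) ^ k

/-- The smallest class of sequences containing `S` and closed under rational linear combinations,
multiplication by units with exponents `O(N)`, and eventual equality. -/
inductive Mem (a : ℕ) (U : Filter τ) (N : τ → ℕ) (S : Set (τ → ℚ)) : (τ → ℚ) → Prop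
  | gen (f : τ → ℚ) : f ∈ S → Mem a U N S f
  | zero : Mem a U N S (fun _ => 0)
  | add (f g : τ → ℚ) : Mem a U N S f → Mem a U N S g → Mem a U N S (fun t => f t + g t)
  | smul (r : ℚ) (f : τ → ℚ) : Mem a U N S f → Mem a U N S (fun t => r * f t)
  | unit (n k : τ → ℤ) (f : τ → ℚ) : Bd U N n → Bd U N k → Mem a U N S f →
      Mem a U N S (fun t => un a (n t) (k t) * f t)
  | congr (f g : τ → ℚ) : Mem a U N S f → (∀ᶠ t in U, f t = g t) → Mem a U N S g

/-- The generators attached to a list of integer sequences with heights. -/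
def gens (Z : List ((τ → ℤ) × ℝ)) : Set (τ → ℚ) := {f | ∃ p ∈ Z, f = fun t => (p.1 t : ℚ)}

/-- The limit of `f / N` along `U`. -/
noncomputable def lm (U : Filter τ) (N : τ → ℕ) (f : τ → ℕ) : ℝ :=
  limUnder U fun t => (f t : ℝ) / N t

/-- A frame: `ρ` units `2^(en i) a^(ek i)`, with the limits of their exponents, that are
multiplicatively independent modulo the eventually constant units. -/
structure Fr (a : ℕ) (U : Filter τ) (N : τ → ℕ) (ρ : ℕ) where
  en : Fin ρ → τ → ℤ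
  ek : Fin ρ → τ → ℤ
  w2 : Fin ρ → ℝ
  wa : Fin ρ → ℝ
  h2 : ∀ i, Tendsto (fun t => (en i t : ℝ) * Real.log 2 / N t) U (𝓝 (w2 i))
  ha : ∀ i, Tendsto (fun t => (ek i t : ℝ) * Real.log a / N t) U (𝓝 (wa i))
  inj : ∀ m : Fin ρ → ℤ, m ≠ 0 → ∀ c₁ c₂ : ℤ,
    ¬ ∀ᶠ t in U, ∑ i, m i * en i t = c₁ ∧ ∑ i, m i * ek i t = c₂

/-- Polynomials in the units of a frame. -/
abbrev Pol (ρ : ℕ) := MvPolynomial (Fin ρ) ℚ

/-- The weight of a monomial. -/
noncomputable def wt {ρ : ℕ} (ω : Fin ρ → ℝ) (m : Fin ρ →₀ ℕ) : ℝ := ∑ i, (m i : ℝ) * ω i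

/-- The monomials of degree at most `d`. -/
noncomputable def Mon (ρ d : ℕ) : Finset (Fin ρ →₀ ℕ) :=
  (Finsupp.finite_of_degree_le (σ := Fin ρ) d).toFinset

variable {a : ℕ} {U : Filter τ} {N : τ → ℕ} {ρ : ℕ}

/-- The exponent of `2` in a monomial. -/
def Fr.nE (F : Fr a U N ρ) (m : Fin ρ →₀ ℕ) (t : τ) : ℤ := ∑ i, (m i : ℤ) * F.en i t

/-- The exponent of `a` in a monomial. -/
def Fr.kE (F : Fr a U N ρ) (m : Fin ρ →₀ ℕ) (t : τ) : ℤ := ∑ i, (m i : ℤ) * F.ek i t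

/-- Evaluation of polynomials at the units of the frame. -/
noncomputable def Fr.ev (F : Fr a U N ρ) (t : τ) : Pol ρ →+* ℚ :=
  MvPolynomial.eval fun i => un a (F.en i t) (F.ek i t)

/-- `H` is a relation between the sequences `z l`. -/
def Fr.Van (F : Fr a U N ρ) {L : Type} [Fintype L] (z : L → τ → ℤ) (H : L → Pol ρ) : Prop :=
  ∀ᶠ t in U, ∑ l, F.ev t (H l) * (z l t : ℚ) = 0

/-- `P y = ∑ f i * e i`. -/
def Fr.Rep (F : Fr a U N ρ) {I : Type} [Fintype I] (e : I → τ → ℤ) (y : τ → ℤ) (P : Pol ρ)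
    (f : I → Pol ρ) : Prop :=
  ∀ᶠ t in U, F.ev t P * (y t : ℚ) = ∑ i, F.ev t (f i) * (e i t : ℚ)

/-- The unit `2^n a^k` is a constant times a Laurent monomial of the frame. -/
def Fr.Cov (F : Fr a U N ρ) (n k : τ → ℤ) : Prop :=
  ∃ (m : Fin ρ → ℤ) (c₁ c₂ : ℤ), ∀ᶠ t in U,
    n t = c₁ + ∑ i, m i * F.en i t ∧ k t = c₂ + ∑ i, m i * F.ek i t

/-- The family `y, e i` indexed by `Option I`. -/
def optz {I : Type} (y : τ → ℤ) (e : I → τ → ℤ) : Option I → τ → ℤ := fun o => o.elim y e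

/-- A parse of the parity word of `x` on `[0, s q)` into `q` pieces `[s j, s (j+1))`; piece `j` is
literal if `v j = 0`, and otherwise a copy of the letters `v j` places earlier. The literal pieces
have total length at most `N`. -/
def Parse (a x : ℤ) (q N : ℕ) (s v : ℕ → ℕ) : Prop :=
  s 0 = 0 ∧ (∀ j, s j ≤ s (j + 1)) ∧
    (∑ j ∈ (range q).filter fun j => v j = 0, (s (j + 1) - s j)) ≤ N ∧
    ∀ j < q, v j ≠ 0 → v j ≤ s j ∧
      ∀ i, s j ≤ i → i < s (j + 1) → par a x i = par a x (i - v j)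

end Pool.Agent.Lib.MP_dee342_nt.Gr
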