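import Pool.Agent.Lib.MP_dee342_nt.GrPrim

/-!
A generic common denominator.
-/

set_option autoImplicit false

namespace Pool.Agent.Lib.MP_dee342_nt.Gr

open Filter Topology Finset

variable {τ : Type}
variable {a : ℕ} {U : Ultrafilter τ} {N : τ → ℕ} {ρ : ℕ}

theorem grden_dvd {F : Fr a U N ρ} {I : Type} [Fintype I] {e : I → τ → ℤ} {y : τ → ℤ}
    {p P : Pol ρ} (h : ∃ f, F.Rep e y p f) (hd : p ∣ P) : ∃ f, F.Rep e y P f := by
  obtain ⟨f, hf⟩ := h
  obtain ⟨g, rfl⟩ := hd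
  exact ⟨_, by rw [mul_comm]; exact hf.mul g⟩

theorem grden_comb {F : Fr a U N ρ} {I : Type} [Fintype I] {e : I → τ → ℤ} {y y₁ y₂ : τ → ℤ}
    {P : Pol ρ} (h₁ : ∃ f, F.Rep e y₁ P f) (h₂ : ∃ f, F.Rep e y₂ P f) (r₁ r₂ : ℚ)
    (hy : ∀ t, (y t : ℚ) = r₁ * y₁ t + r₂ * y₂ t) : ∃ f, F.Rep e y P f := by
  obtain ⟨f₁, h₁⟩ := h₁
  obtain ⟨f₂, h₂⟩ := h₂
  refine ⟨fun i => MvPolynomial.C r₁ * f₁ i + MvPolynomial.C r₂ * f₂ i, ?_⟩
  unfold Fr.Rep at h₁ h₂ ⊢
  filter_upwards [h₁, h₂] with t a₁ a₂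
  have hC : ∀ r : ℚ, F.ev t (MvPolynomial.C r) = r := fun r => by
    simp [Fr.ev]
  simp only [map_add, map_mul, hC]
  rw [hy t]
  calc F.ev t P * (r₁ * y₁ t + r₂ * y₂ t)
      = r₁ * (F.ev t P * y₁ t) + r₂ * (F.ev t P * y₂ t) := by ring
    _ = _ := by
      rw [a₁, a₂, Finset.mul_sum, Finset.mul_sum, ← Finset.sum_add_distrib]
      exact Finset.sum_congr rfl fun i _ => by ring

theorem grden_gen (ha : Odd a) (ha3 : 3 ≤ a) (F : Fr a U N ρ) {I : Type} [Fintype I]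
    [DecidableEq I] (e : I → τ → ℤ) (he : ∀ H, F.Van e H → H = 0) (y : τ → ℤ)
    (h : ∃ P f, P ≠ 0 ∧ F.Rep e y P f) :
    ∃ p : Pol ρ, p ≠ 0 ∧ (∃ f, F.Rep e y p f) ∧ ∀ P f, F.Rep e y P f → p ∣ P := by
  obtain ⟨P, f, hP, hy⟩ := h
  obtain ⟨G, hG, hG0, hall⟩ := exists_prim ha ha3 F e he y P hP f hy
  refine ⟨G none, hG0, ⟨fun i => - G (some i), ?_⟩, ?_⟩
  · unfold Fr.Van at hG
    unfold Fr.Rep
    filter_upwards [hG] with t ht
    rw [Fintype.sum_option] at ht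
    simp only [optz, Option.elim] at ht
    simp only [map_neg, neg_mul, Finset.sum_neg_distrib]
    linarith
  · intro Q g hQ
    have hv : F.Van (optz y e) (fun o => o.elim Q fun i => - g i) := by
      unfold Fr.Van
      unfold Fr.Rep at hQ
      filter_upwards [hQ] with t ht
      rw [Fintype.sum_option]
      simp only [optz, Option.elim, map_neg, neg_mul, Finset.sum_neg_distrib]
      linarith
    obtain ⟨c, hc⟩ := hall _ hv
    have := hc none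
    simp only [Option.elim] at this
    exact ⟨c, by rw [this, mul_comm]⟩

/-- Two sequences. Let `L ≠ 0` be `DvdNotUnit`-minimal among the common denominators of `y₁` and
`y₂`. The denominators of `y₁ + c y₂` are the multiples of `p c = G none` (`exists_prim`), and
`L = p c * r c`. If no `r c` is a unit, pick an irreducible factor of each `r c`; two of them, for
`c ≠ c'`, are associated (finitely many normalized factors of `L`), to `π` say, and `L / π` is a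
denominator of `y₁ + c y₂` and `y₁ + c' y₂`, hence of `y₁` and `y₂`: a contradiction. -/
theorem exists_den_two (ha : Odd a) (ha3 : 3 ≤ a) (F : Fr a U N ρ) {I : Type} [Fintype I]
    [DecidableEq I] (e : I → τ → ℤ) (he : ∀ H, F.Van e H → H = 0) (y₁ y₂ : τ → ℤ)
    (h₁ : ∃ P f, P ≠ 0 ∧ F.Rep e y₁ P f) (h₂ : ∃ P f, P ≠ 0 ∧ F.Rep e y₂ P f) :
    ∃ c : ℕ, (∃ P f, P ≠ 0 ∧ F.Rep e (fun t => y₁ t + c * y₂ t) P f) ∧
      ∀ P f, F.Rep e (fun t => y₁ t + c * y₂ t) P f →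
        (∃ f₁, F.Rep e y₁ P f₁) ∧ ∃ f₂, F.Rep e y₂ P f₂ := by
  classical
  obtain ⟨P₁, f₁, hP₁, hy₁⟩ := h₁
  obtain ⟨P₂, f₂, hP₂, hy₂⟩ := h₂
  let S : Set (Pol ρ) := {L | L ≠ 0 ∧ (∃ f, F.Rep e y₁ L f) ∧ ∃ f, F.Rep e y₂ L f}
  have hS : S.Nonempty := ⟨P₁ * P₂, mul_ne_zero hP₁ hP₂,
    grden_dvd ⟨_, hy₁⟩ (dvd_mul_right _ _), grden_dvd ⟨_, hy₂⟩ (dvd_mul_left _ _)⟩
  obtain ⟨L, ⟨hL0, hL₁, hL₂⟩, hmin⟩ :=
    (wellFounded_dvdNotUnit (α := Pol ρ)).has_min S hS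
  have hcomb : ∀ c : ℕ, ∃ f, F.Rep e (fun t => y₁ t + c * y₂ t) L f := fun c =>
    grden_comb hL₁ hL₂ 1 c (fun t => by push_cast; ring)
  have hgen : ∀ c : ℕ, ∃ p : Pol ρ, p ≠ 0 ∧ (∃ f, F.Rep e (fun t => y₁ t + c * y₂ t) p f) ∧
      ∀ P f, F.Rep e (fun t => y₁ t + c * y₂ t) P f → p ∣ P := fun c => by
    obtain ⟨f, hf⟩ := hcomb c
    exact grden_gen ha ha3 F e he _ ⟨L, f, hL0, hf⟩
  choose p hp0 hpr hpd using hgen
  have hpL : ∀ c, p c ∣ L := fun c => by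
    obtain ⟨f, hf⟩ := hcomb c
    exact hpd c L f hf
  choose r hr using hpL
  by_cases hu : ∃ c, IsUnit (r c)
  · obtain ⟨c, hc⟩ := hu
    refine ⟨c, ?_, ?_⟩
    · obtain ⟨f, hf⟩ := hcomb c
      exact ⟨L, f, hL0, hf⟩
    · intro P f hP
      have h1 : L ∣ p c := by
        rw [hr c]
        exact (hc.mul_right_dvd).2 dvd_rfl
      have h2 : L ∣ P := h1.trans (hpd c P f hP)
      exact ⟨grden_dvd hL₁ h2, grden_dvd hL₂ h2⟩
  · exfalso
    push Not at hu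
    have hr0 : ∀ c, r c ≠ 0 := fun c h0 => hL0 (by rw [hr c, h0, mul_zero])
    have hq : ∀ c, ∃ q ∈ (UniqueFactorizationMonoid.factors L).toFinset, q ∣ r c := fun c => by
      obtain ⟨i, hi, hir⟩ := WfDvdMonoid.exists_irreducible_factor (hu c) (hr0 c)
      have hiL : i ∣ L := hir.trans ⟨p c, by rw [hr c, mul_comm]⟩
      obtain ⟨q, hq, hiq⟩ := UniqueFactorizationMonoid.exists_mem_factors_of_dvd hL0 hi hiL
      exact ⟨q, Multiset.mem_toFinset.2 hq, hiq.symm.dvd.trans hir⟩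
    choose q hqm hqd using hq
    obtain ⟨c, c', hcc, hqq⟩ : ∃ c c' : ℕ, c ≠ c' ∧ q c = q c' := by
      have := Set.Infinite.exists_ne_map_eq_of_mapsTo (f := q) (s := Set.univ)
        (t := ((UniqueFactorizationMonoid.factors L).toFinset : Set (Pol ρ)))
        Set.infinite_univ (fun c _ => hqm c) (Finset.finite_toSet _)
      obtain ⟨c, -, c', -, h1, h2⟩ := this
      exact ⟨c, c', h1, h2⟩
    have hirr : Irreducible (q c) :=
      UniqueFactorizationMonoid.irreducible_of_factor _ (Multiset.mem_toFinset.1 (hqm c))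
    obtain ⟨u, hu1⟩ := hqd c
    obtain ⟨u', hu2⟩ := hqd c'
    have hLc : L = (p c * u) * q c := by rw [hr c, hu1]; ring
    have hLc' : L = (p c' * u') * q c := by rw [hr c', hu2, hqq]; ring
    have heq : p c * u = p c' * u' := mul_right_cancel₀ hirr.ne_zero (hLc.symm.trans hLc')
    have hM0 : p c * u ≠ 0 := fun h0 => hL0 (by rw [hLc, h0, zero_mul])
    have hA : ∃ f, F.Rep e (fun t => y₁ t + c * y₂ t) (p c * u) f :=
      grden_dvd (hpr c) (dvd_mul_right _ _)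
    have hB : ∃ f, F.Rep e (fun t => y₁ t + c' * y₂ t) (p c * u) f :=
      grden_dvd (hpr c') (heq ▸ dvd_mul_right _ _)
    have hne : (c : ℚ) - c' ≠ 0 := sub_ne_zero.2 (by exact_mod_cast hcc)
    have hy2 : ∃ f, F.Rep e y₂ (p c * u) f :=
      grden_comb hA hB ((c : ℚ) - c')⁻¹ (-((c : ℚ) - c')⁻¹) (fun t => by
        push_cast; field_simp; ring)
    have hy1 : ∃ f, F.Rep e y₁ (p c * u) f :=
      grden_comb hA hy2 1 (-(c : ℚ)) (fun t => by push_cast; ring)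
    exact hmin (p c * u) ⟨hM0, hy1, hy2⟩ ⟨hM0, q c, hirr.not_isUnit, hLc⟩

/-- Induction over a finset of indices with `exists_den_two`, starting from `y = 0`. -/
theorem exists_den (ha : Odd a) (ha3 : 3 ≤ a) (hN : Tendsto N U atTop) (F : Fr a U N ρ)
    {I : Type} [Fintype I] [DecidableEq I] (e : I → τ → ℤ) (he : ∀ H, F.Van e H → H = 0)
    {ι : Type} [Fintype ι] (z : ι → τ → ℤ) (h : ι → ℝ) (hz : ∀ l, Ht U N (z l) (h l))
    (hden : ∀ l, ∃ P f, P ≠ 0 ∧ F.Rep e (z l) P f) :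
    ∃ (y : τ → ℤ) (hy : ℝ), 0 ≤ hy ∧ Ht U N y hy ∧ (∃ P f, P ≠ 0 ∧ F.Rep e y P f) ∧
      ∀ P f, F.Rep e y P f → ∀ l, ∃ f', F.Rep e (z l) P f' := by
  classical
  have key : ∀ s : Finset ι, ∃ (y : τ → ℤ) (hy : ℝ), 0 ≤ hy ∧ Ht U N y hy ∧
      (∃ P f, P ≠ 0 ∧ F.Rep e y P f) ∧
      ∀ P f, F.Rep e y P f → ∀ l ∈ s, ∃ f', F.Rep e (z l) P f' := by
    intro s
    induction s using Finset.induction_on with
    | empty =>
      refine ⟨fun _ => 0, 0, le_rfl, Ht.const hN 0, ⟨1, fun _ => 0, one_ne_zero, ?_⟩, ?_⟩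
      · unfold Fr.Rep
        exact Eventually.of_forall fun t => by simp
      · intro P f _ l hl
        simp at hl
    | insert l s hl ih =>
      obtain ⟨y, hy, hy0, hH, hd, hall⟩ := ih
      obtain ⟨c, hc1, hc2⟩ := exists_den_two ha ha3 F e he y (z l) hd (hden l)
      refine ⟨fun t => y t + c * z l t, max hy (h l), le_max_of_le_left hy0, ?_, hc1, ?_⟩
      · refine Ht.add hN (hH.mono (le_max_left _ _)) ?_
        have := (Ht.const (U := (U : Filter τ)) hN (c : ℤ)).mul (hz l)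
        exact this.mono (by rw [zero_add]; exact le_max_right _ _)
      · intro P f hP l' hl'
        obtain ⟨⟨f₁, h1⟩, h2⟩ := hc2 P f hP
        rcases Finset.mem_insert.1 hl' with rfl | hl'
        · exact h2
        · exact hall P f₁ h1 l' hl'
  obtain ⟨y, hy, h0, hH, hd, hall⟩ := key Finset.univ
  exact ⟨y, hy, h0, hH, hd, fun P f hP l => hall P f hP l (Finset.mem_univ l)⟩

end Pool.Agent.Lib.MP_dee342_nt.Gr
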