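import Pool.Agent.Lib.MP_dee342_nt.GrWin
import Pool.Agent.Lib.MP_dee342_nt.Sep

/-!
The window theorem: a parse into `q` pieces covers at most `c (q + 1) N` letters.
-/

set_option autoImplicit false

namespace Pool.Agent.Lib.MP_dee342_nt.Gr

open Filter Topology Finset

variable {τ : Type}

/-- Truncation of a parse at `L`: use `min (s j) L`, and make the pieces that start at or after `L`
literal (of length zero). -/
theorem Parse.trunc {a x : ℤ} {q N : ℕ} {s v : ℕ → ℕ} (h : Parse a x q N s v) (L : ℕ) :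
    Parse a x q N (fun j => min (s j) L) fun j => if s j < L then v j else 0 := by
  obtain ⟨h0, h1, h2, h3⟩ := h
  refine ⟨by simp [h0], fun j => min_le_min_right _ (h1 j), le_trans ?_ h2, fun j hj hv => ?_⟩
  · rw [sum_filter, sum_filter]
    refine sum_le_sum fun j _ => ?_
    have := h1 j
    by_cases hL : s j < L
    · simp only [hL, if_true]
      split_ifs <;> omega
    · simp only [hL, if_false, if_true]
      split_ifs <;> omega
  · by_cases hL : s j < L
    · simp only [hL, if_true] at hv ⊢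
      obtain ⟨h4, h5⟩ := h3 j hj hv
      exact ⟨by omega, fun i hi hi' => h5 i (by omega) (by omega)⟩
    · simp [hL] at hv

/-- A copy cannot be longer than the size of the two values it links (`sep`). -/
theorem copy_le {a : ℕ} (ha : Odd a) (x : ℤ) (s e v B : ℕ) (hv : v ≤ s)
    (hc : ∀ i, s ≤ i → i < e → par a x i = par a x (i - v))
    (hne : (T a)^[s] x ≠ (T a)^[s - v] x) (h1 : |(T a)^[s] x| ≤ 2 ^ B)
    (h2 : |(T a)^[s - v] x| ≤ 2 ^ B) : e ≤ s + B + 1 := by
  by_contra hlt
  apply hne
  have h3 := sep (a := (a : ℤ)) (by exact_mod_cast ha) (B + 2) ((T a)^[s] x) ((T a)^[s - v] x)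
    (fun j hj => by
      have := hc (j + s) (by omega) (by omega)
      rwa [par, par, show j + s - v = j + (s - v) by omega, Function.iterate_add_apply,
        Function.iterate_add_apply] at this)
  have h4 := Int.eq_zero_of_abs_lt_dvd h3 (by
    have h5 := abs_sub ((T a)^[s] x) ((T a)^[s - v] x)
    have h6 : (0 : ℤ) < 2 ^ B := by positivity
    rw [pow_succ, pow_succ]
    omega)
  omega

/-- With `c₀` from `growth` take `c = 2 c₀ + 3` or so and `A = c (q + 1) + 1`. If `s q > c (q+1) N`,
truncate at `A N` (so that the truncated parse ends at some `L` with `c (q+1) N < L ≤ A N`). Every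
copy piece that starts at `s j ≤ L - c₀ N` has length at most `c₀ N + 1` by `growth` and `copy_le`.
By induction on `j`, `s j ≤ (literal length of the pieces before j) + j (c₀ N + 1)` as long as
`s j ≤ L - c₀ N`, so `L - c₀ N ≤ N + q (c₀ N + 1)`. -/
theorem window (a : ℕ) (ha : Odd a) (ha3 : 3 ≤ a) : ∃ c : ℕ, ∀ q : ℕ, ∃ N₀ : ℕ, ∀ N ≥ N₀,
    ∀ (x : ℤ) (s v : ℕ → ℕ), |x| ≤ 2 ^ N → Parse a x q N s v →
      (∀ i j, i < j → j < s q → (T a)^[i] x ≠ (T a)^[j] x) → s q ≤ c * (q + 1) * N := by
  obtain ⟨c, hc⟩ := growth a ha ha3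
  refine ⟨2 * c + 3, fun q => ?_⟩
  obtain ⟨N₀, hN₀⟩ := hc q ((2 * c + 3) * (q + 1) + 1)
  refine ⟨max N₀ 1, fun N hN x s v hx hP hne => ?_⟩
  have hN1 : 1 ≤ N := le_of_max_le_right hN
  by_contra hlt
  have hP' := hP.trunc (((2 * c + 3) * (q + 1) + 1) * N)
  have hg := hN₀ N (le_of_max_le_left hN) x _ _ hx hP' (min_le_right _ _)
  have hL : (2 * c + 3) * (q + 1) * N < min (s q) (((2 * c + 3) * (q + 1) + 1) * N) := by
    rw [add_mul ((2 * c + 3) * (q + 1))]
    omega
  have hle : min (s q) (((2 * c + 3) * (q + 1) + 1) * N) ≤ s q := min_le_left _ _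
  generalize (fun j => if s j < ((2 * c + 3) * (q + 1) + 1) * N then v j else 0) = v' at hP'
  have e : min (s q) (((2 * c + 3) * (q + 1) + 1) * N) =
    (fun j => min (s j) (((2 * c + 3) * (q + 1) + 1) * N)) q := rfl
  rw [e] at hL hle hg
  generalize (fun j => min (s j) (((2 * c + 3) * (q + 1) + 1) * N)) = s' at hP' hg hL hle
  obtain ⟨h0, h1, h2, h3⟩ := hP'
  have hm : Monotone s' := monotone_nat_of_le_succ h1
  have key : ∀ j ≤ q, min (s' j) (s' q - c * N) ≤
      (∑ i ∈ (range j).filter fun i => v' i = 0, (s' (i + 1) - s' i)) + j * (c * N + 1) := by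
    intro j
    induction j with
    | zero => intro _; simp [h0]
    | succ j ih =>
      intro hj
      have h4 := ih (by omega)
      have h5 := h1 j
      have h6 : s' (j + 1) ≤ s' q := hm hj
      rw [sum_filter] at h4
      rw [sum_filter, sum_range_succ, add_mul, one_mul]
      by_cases hv : v' j = 0
      · rw [if_pos hv]; omega
      · rw [if_neg hv]
        by_cases h7 : s' j + c * N ≤ s' q ∧ s' j < s' (j + 1)
        · obtain ⟨h8, h9⟩ := h3 j (by omega) hv
          have := copy_le ha x (s' j) (s' (j + 1)) (v' j) (c * N) h8 h9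
            (hne _ _ (by omega) (by omega)).symm (hg _ h7.1) (hg _ (by omega))
          omega
        · omega
  have h4 := key q le_rfl
  have h5 : q ≤ q * N := Nat.le_mul_of_pos_right _ hN1
  have h6 : (2 * c + 3) * (q + 1) * N = 2 * (q * (c * N)) + 2 * (c * N) + 3 * (q * N) + 3 * N := by
    ring
  rw [mul_add, mul_one] at h4
  omega

end Pool.Agent.Lib.MP_dee342_nt.Gr
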