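import Pool.Agent.Lib.MP_dee342_nt.GrLZ
import Pool.Agent.Lib.MP_dee342_nt.NarrowMain

/-!
The local form of the LZ77 theorem for cycles: only the letters of one window after a nearly least
element are constrained.
-/

set_option autoImplicit false

namespace Pool.Agent.Lib.MP_dee342_nt.Gr

open Finset

theorem grlzloc_pow_le {C₀ : ℝ} {μ C' n p : ℕ} (hC₀ : 1 ≤ C₀) (hn : 1 ≤ n)
    (hp : 0 < p) (h : Real.log p ≤ n) (hC : ((μ + 1) + C₀) / Real.log 2 ≤ C') :
    C₀ * (p : ℝ) ^ (μ + 1) ≤ 2 ^ (C' * n) := by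
  have hl2 : 0 < Real.log 2 := Real.log_pos (by norm_num)
  have hp' : (0 : ℝ) < p := by exact_mod_cast hp
  have hn' : (1 : ℝ) ≤ n := by exact_mod_cast hn
  rw [← Real.log_le_log_iff (by positivity) (by positivity), Real.log_mul (by positivity)
    (by positivity), Real.log_pow, Real.log_pow]
  push_cast
  have h1 : Real.log C₀ ≤ C₀ * n := by
    have := Real.log_le_sub_one_of_pos (show 0 < C₀ by linarith)
    nlinarith
  have h3 : (μ + 1 : ℝ) * Real.log p ≤ (μ + 1) * n :=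
    mul_le_mul_of_nonneg_left h (by positivity)
  have h4 := (div_le_iff₀ hl2).1 hC
  have h5 := mul_le_mul_of_nonneg_right h4 (show (0 : ℝ) ≤ n by positivity)
  nlinarith

/-- A periodic point within a factor `2^N` of the least element, `log p ≤ N`, has size at most
`2^((C' + 1) N)` by `min_poly`; apply `window` with `(C' + 1) N` in place of `N`. -/
theorem local_copies (a : ℕ) (ha : a = 3 ∨ a = 5) : ∃ c : ℕ, ∀ q : ℕ,
    {x : ℤ | x ∈ Function.periodicPts (T a) ∧ ∃ (N : ℕ) (s v : ℕ → ℕ),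
      Real.log (Function.minimalPeriod (T a) x) ≤ N ∧ (∀ i, |x| ≤ 2 ^ N * |(T a)^[i] x|) ∧
      Parse a x q N s v ∧ c * (q + 1) * N < s q ∧
      s q ≤ Function.minimalPeriod (T a) x}.Finite := by
  obtain ⟨μ, hμ⟩ : ∃ μ, LogMeasure a μ := by
    rcases ha with rfl | rfl
    exacts [⟨_, logMeasure_three⟩, ⟨_, logMeasure_five⟩]
  have ho : Odd a := by rcases ha with rfl | rfl <;> decide
  have ha3 : 3 ≤ a := by omega
  obtain ⟨C₀, hC₀, hmin⟩ := min_poly a μ ho ha3 hμ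
  obtain ⟨C', hC'⟩ := exists_nat_ge (((μ + 1) + C₀) / Real.log 2)
  obtain ⟨c, hc⟩ := window a ho ha3
  refine ⟨c * (C' + 1), fun q => ?_⟩
  obtain ⟨N₀, hN₀⟩ := hc q
  refine (finite_period_le a μ ho ha3 hμ ⌈Real.exp (N₀ + 1)⌉₊).subset ?_
  rintro x ⟨hx, N, s, v, hN, hleast, hP, hs, hsp⟩
  refine ⟨hx, ?_⟩
  by_contra hcon
  set p := Function.minimalPeriod (T a) x with hp
  have hp0 : 0 < p := Function.minimalPeriod_pos_of_mem_periodicPts hx
  have h1 : Real.exp (N₀ + 1) ≤ p := Nat.ceil_le.mp (not_le.mp hcon).le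
  have h2 : (N₀ + 1 : ℝ) ≤ Real.log p :=
    (Real.le_log_iff_exp_le (by exact_mod_cast hp0)).2 h1
  have h3 : N₀ + 1 ≤ N := by exact_mod_cast h2.trans hN
  obtain ⟨i0, -, hi0⟩ := exists_min_image (range p) (fun i => |(((T a)^[i] x : ℤ) : ℝ)|)
    ⟨0, mem_range.mpr hp0⟩
  have h4 := (hmin x p hp0 (Function.isPeriodicPt_minimalPeriod _ _) _
    fun i hi => hi0 i (mem_range.mpr hi)).trans
    (grlzloc_pow_le hC₀ (by omega) hp0 hN hC')
  have h5 : |(T a)^[i0] x| ≤ 2 ^ (C' * N) := by exact_mod_cast h4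
  have h6 : |x| ≤ 2 ^ ((C' + 1) * N) := by
    refine (hleast i0).trans ?_
    rw [add_mul, one_mul, add_comm (C' * N), pow_add]
    exact mul_le_mul_of_nonneg_left h5 (by positivity)
  have h7 : N ≤ (C' + 1) * N := Nat.le_mul_of_pos_left _ (by omega)
  obtain ⟨p0, p1, p2, p3⟩ := hP
  have h8 := hN₀ ((C' + 1) * N) (by omega) x s v h6 ⟨p0, p1, p2.trans h7, p3⟩
    fun i j hij hj h => hij.ne (Function.iterate_injOn_Iio_minimalPeriod
      (hij.trans (hj.trans_le hsp)) (hj.trans_le hsp) h)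
  have h9 : c * (q + 1) * ((C' + 1) * N) = c * (C' + 1) * (q + 1) * N := by ring
  omega

end Pool.Agent.Lib.MP_dee342_nt.Gr
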