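import Pool.Agent.Lib.MP_dee342_nt.GrLZOne

/-!
Cycles with few copy pieces.
-/

set_option autoImplicit false

namespace Pool.Agent.Lib.MP_dee342_nt.Gr

open Filter Topology Finset

variable {τ : Type}

theorem grlzmain_choose (c : ℕ) {K : ℝ} (hK : 0 < K) :
    ∃ r : ℕ, K * Real.log (((c + 2) * (r + 1) : ℕ) : ℝ) ≤ r + 1 := by
  have hc : (0 : ℝ) < c + 2 := by positivity
  have h1 := Real.isLittleO_log_id_atTop.bound (c := (K * (c + 2))⁻¹) (by positivity)
  obtain ⟨y₀, hy₀⟩ := eventually_atTop.1 h1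
  obtain ⟨r, hr⟩ := exists_nat_ge y₀
  refine ⟨r, ?_⟩
  have h2 : (r : ℝ) + 1 ≤ (c + 2) * (r + 1) :=
    le_mul_of_one_le_left (by positivity) (by linarith [Nat.cast_nonneg (α := ℝ) c])
  have h3 := (le_abs_self _).trans (hy₀ ((c + 2) * (r + 1)) (by linarith))
  rw [id, Real.norm_of_nonneg (by positivity), mul_inv, mul_assoc,
    inv_mul_cancel_left₀ hc.ne'] at h3
  push_cast
  exact (le_inv_mul_iff₀ hK).1 h3

theorem grlzmain_large (A A' : ℝ) :
    ∃ P : ℕ, ∀ p ≥ P, (A + A' * Real.log (p + 2) ^ 2) ^ 2 ≤ (p : ℝ) := by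
  have h1 := (Real.isLittleO_pow_log_id_atTop (n := 4)).bound
    (c := (4 * A' ^ 2 + 1)⁻¹) (by positivity)
  obtain ⟨y₀, hy₀⟩ := eventually_atTop.1 h1
  obtain ⟨P, hP⟩ := exists_nat_ge (max y₀ (4 * A ^ 2 + 2))
  refine ⟨P, fun p hp => ?_⟩
  have h2 : (P : ℝ) ≤ p := Nat.cast_le.2 hp
  have h3 := (le_max_left _ _).trans (hP.trans h2)
  have h4 := (le_max_right _ _).trans (hP.trans h2)
  have h5 := (le_abs_self _).trans (hy₀ (p + 2) (by linarith))
  rw [id, Real.norm_of_nonneg (by positivity), le_inv_mul_iff₀ (by positivity)] at h5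
  have h6 : 0 ≤ Real.log (p + 2) ^ 4 := by positivity
  nlinarith [sq_nonneg (A - A' * Real.log (p + 2) ^ 2)]

/-- disjoint windows -/
theorem grlzmain_count {r B n m : ℕ} (hB : 1 ≤ B) {t : ℕ → ℕ} (I : ℕ)
    (h : ∀ i < I, r < ((range m).filter fun j => B ^ i * n ≤ t j ∧ t j < B * (B ^ i * n)).card) :
    (r + 1) * I ≤ ((range m).filter fun j => t j < B ^ I * n).card := by
  induction I with
  | zero => simp
  | succ I ih =>
    have h1 := ih fun i hi => h i (by omega)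
    have h2 := h I (by omega)
    have h3 : B ^ I * n ≤ B * (B ^ I * n) := Nat.le_mul_of_pos_left _ hB
    have h4 : B ^ (I + 1) * n = B * (B ^ I * n) := by ring
    have h5 := card_union_of_disjoint (s := (range m).filter fun j => t j < B ^ I * n)
      (t := (range m).filter fun j => B ^ I * n ≤ t j ∧ t j < B * (B ^ I * n))
      (disjoint_filter.2 fun j _ a1 a2 => by omega)
    have h6 : (((range m).filter fun j => t j < B ^ I * n) ∪
        ((range m).filter fun j => B ^ I * n ≤ t j ∧ t j < B * (B ^ I * n))).card ≤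
        ((range m).filter fun j => t j < B ^ (I + 1) * n).card := by
      refine card_le_card fun j hj => ?_
      rw [mem_union, mem_filter, mem_filter] at hj
      rw [mem_filter, h4]
      rcases hj with a1 | a1
      · exact ⟨a1.1, by omega⟩
      · exact ⟨a1.1, a1.2.2⟩
    rw [Nat.mul_succ]
    omega

/-- the final inequality -/
theorem grlzmain_final {r B n m p : ℕ} {D : ℝ} (hD : 0 ≤ D) (hB : 2 ≤ B) (hn : 1 ≤ n)
    (hr : (2 * D + 1) * Real.log B ≤ r + 1) (hm : (m : ℝ) ≤ D * Real.log p)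
    (hI : (r + 1) * Nat.log B (p / n) ≤ m) (hp : (B * n) ^ 2 ≤ p) : False := by
  obtain ⟨I, hI'⟩ : ∃ I, I = Nat.log B (p / n) := ⟨_, rfl⟩
  have h1 : p < B ^ (I + 1) * n := by
    rw [hI']
    exact (Nat.div_lt_iff_lt_mul hn).1 (Nat.lt_pow_succ_log_self hB _)
  rw [← hI'] at hI
  have hB0 : (0 : ℝ) < B := by exact_mod_cast (by omega : 0 < B)
  have hn0 : (0 : ℝ) < n := by exact_mod_cast hn
  have hBn : (0 : ℝ) < ((B : ℝ) * n) ^ 2 := by positivity
  have hp' : ((B : ℝ) * n) ^ 2 ≤ p := by exact_mod_cast hp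
  have h2 : Real.log p < (I + 1) * Real.log B + Real.log n := by
    have a1 : (p : ℝ) < (B : ℝ) ^ (I + 1) * n := by exact_mod_cast h1
    have a2 := Real.log_lt_log (hBn.trans_le hp') a1
    rw [Real.log_mul (by positivity) hn0.ne', Real.log_pow] at a2
    exact_mod_cast a2
  have h3 : 2 * (Real.log B + Real.log n) ≤ Real.log p := by
    have a1 := Real.log_le_log hBn hp'
    rw [Real.log_pow, Real.log_mul hB0.ne' hn0.ne'] at a1
    exact_mod_cast a1
  have h4 : ((r : ℝ) + 1) * I ≤ m := by exact_mod_cast hI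
  have h5 : (2 * D + 1) * Real.log B * I ≤ D * Real.log p :=
    (mul_le_mul_of_nonneg_right hr (Nat.cast_nonneg I)).trans (h4.trans hm)
  have h6 : 0 ≤ Real.log p := Real.log_natCast_nonneg p
  have h7 : Real.log p < 2 * (Real.log B * I) := by linarith
  nlinarith [mul_le_mul_of_nonneg_left h7.le hD]

/-- Choose `r` and `B = c (r + 1) + 1` with `r + 1 > 2 C log B` (possible as `log B / r → 0`). By
`min_bound` the least element has `|x| ≤ 2^n₁` with `n₁ = max n₀ ⌈C₀ log² (p + 2) / log 2⌉`. The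
windows `[B^i n₁, B^(i+1) n₁)`, `i < I`, `B^I n₁ ≤ p < B^(I+1) n₁`, are disjoint, so
`m ≥ (r + 1) I`, while `I log B ≥ log p - log n₁ - log B ≥ (log p) / 2` for large `p`. Bounded
periods give finitely many `x` by `min_bound` again. -/
theorem few_copies (a : ℕ) (ha : Odd a) (ha3 : 3 ≤ a) (C : ℝ) :
    ∃ M : ℕ, {x : ℤ | x ∈ Function.periodicPts (T a) ∧ (∀ i, |x| ≤ |(T a)^[i] x|) ∧
      ∃ (m : ℕ) (t : ℕ → ℕ), Monotone t ∧ t 0 = 0 ∧ t m = Function.minimalPeriod (T a) x ∧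
        (m : ℝ) ≤ C * Real.log (Function.minimalPeriod (T a) x) ∧
        ∀ j < m, CopyPiece a x M (t j) (t (j + 1))}.Finite := by
  obtain ⟨c, hc⟩ := one_window a ha ha3
  obtain ⟨C₀, hC₀, hmin⟩ := min_bound a ha ha3
  obtain ⟨r, hr⟩ := grlzmain_choose c (K := 2 * |C| + 1) (by positivity)
  obtain ⟨B, hBdef⟩ : ∃ B, B = (c + 2) * (r + 1) := ⟨_, rfl⟩
  rw [← hBdef] at hr
  have hB : 2 ≤ B := by rw [hBdef]; nlinarith [Nat.zero_le c, Nat.zero_le r]
  obtain ⟨M, n₀, hw⟩ := hc r B (by rw [hBdef]; nlinarith [Nat.zero_le r])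
  have hl2 : 0 < Real.log 2 := Real.log_pos one_lt_two
  obtain ⟨P, hP⟩ := grlzmain_large (B * (n₀ + 2)) (B * (C₀ / Real.log 2))
  refine ⟨M, (Set.finite_Icc (-⌈Real.exp (C₀ * Real.log (P + 2) ^ 2)⌉)
    ⌈Real.exp (C₀ * Real.log (P + 2) ^ 2)⌉).subset ?_⟩
  rintro x ⟨hx, hleast, m, t, hmono, ht0, htm, hm, hcopy⟩
  obtain ⟨p, hp⟩ : ∃ p, p = Function.minimalPeriod (T a) x := ⟨_, rfl⟩
  have hinj : ∀ i j, i < j → j < p → (T a)^[i] x ≠ (T a)^[j] x := fun i j hij hj h =>
    hij.ne ((Function.iterate_eq_iterate_iff_of_lt_minimalPeriod (hp ▸ hij.trans hj) (hp ▸ hj)).1 h)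
  have hxb : ((|x| : ℤ) : ℝ) ≤ Real.exp (C₀ * Real.log (p + 2) ^ 2) := by
    obtain ⟨i, -, hi⟩ := hmin x p (hp ▸ Function.minimalPeriod_pos_of_mem_periodicPts hx)
      (hp ▸ Function.isPeriodicPt_minimalPeriod (T a) x)
    refine le_trans ?_ hi
    exact_mod_cast hleast i
  rw [← hp] at htm hm
  rcases le_or_gt P p with hPp | hPp
  · exfalso
    have hq : 0 ≤ C₀ / Real.log 2 * Real.log (p + 2) ^ 2 := by positivity
    obtain ⟨n, hn⟩ : ∃ n, n = n₀ + 1 + ⌈C₀ / Real.log 2 * Real.log (p + 2) ^ 2⌉₊ := ⟨_, rfl⟩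
    have hn1 : C₀ / Real.log 2 * Real.log (p + 2) ^ 2 ≤ n :=
      (Nat.le_ceil _).trans (Nat.cast_le.2 (by omega))
    have hn2 : (n : ℝ) ≤ n₀ + 2 + C₀ / Real.log 2 * Real.log (p + 2) ^ 2 := by
      have := Nat.ceil_lt_add_one hq
      rw [hn]
      push_cast
      linarith
    have hx2 : |x| ≤ 2 ^ n := by
      have a1 : C₀ * Real.log (p + 2) ^ 2 ≤ n * Real.log 2 := by
        rwa [div_mul_eq_mul_div, div_le_iff₀ hl2] at hn1
      have a2 := hxb.trans (Real.exp_le_exp.2 a1)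
      rw [Real.exp_nat_mul, Real.exp_log two_pos] at a2
      exact_mod_cast a2
    have hBn : (B * n) ^ 2 ≤ p := by
      have a1 : (B : ℝ) * n ≤ B * (n₀ + 2) + B * (C₀ / Real.log 2) * Real.log (p + 2) ^ 2 := by
        rw [mul_assoc, ← mul_add]
        exact mul_le_mul_of_nonneg_left hn2 (Nat.cast_nonneg B)
      have a2 := (pow_le_pow_left₀ (by positivity) a1 2).trans (hP p hPp)
      exact_mod_cast a2
    have hn0 : 1 ≤ n := by omega
    have hnp : n ≤ p := by
      have a1 : n ≤ B * n := Nat.le_mul_of_pos_left n (by omega)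
      exact a1.trans ((Nat.le_self_pow two_ne_zero _).trans hBn)
    have hI : B ^ Nat.log B (p / n) * n ≤ p :=
      (Nat.le_div_iff_mul_le hn0).1 (Nat.pow_log_le_self B (Nat.div_pos hnp hn0).ne')
    refine grlzmain_final (abs_nonneg C) hB hn0 hr (hm.trans (mul_le_mul_of_nonneg_right
      (le_abs_self C) (Real.log_natCast_nonneg p))) ?_ hBn
    refine (grlzmain_count (m := m) (n := n) (t := t) (by omega : 1 ≤ B) _ fun i hi => ?_).trans
      ((card_filter_le _ _).trans (card_range m).le)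
    have a1 : n ≤ B ^ i * n := Nat.le_mul_of_pos_left n (Nat.pow_pos (by omega))
    refine hw (B ^ i * n) (by omega) x p m t
      (hx2.trans (pow_le_pow_right₀ one_le_two a1)) (le_trans ?_ hI) hinj hmono ht0 htm hcopy
    rw [← mul_assoc, ← pow_succ']
    exact Nat.mul_le_mul_right n (Nat.pow_le_pow_right (by omega) hi)
  · have a1 : Real.log (p + 2) ≤ Real.log (P + 2) :=
      Real.log_le_log (by positivity) (by exact_mod_cast (by omega : p + 2 ≤ P + 2))
    have a2 : 0 ≤ Real.log (p + 2) :=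
      Real.log_nonneg (by linarith [Nat.cast_nonneg (α := ℝ) p])
    have a3 := hxb.trans (Real.exp_le_exp.2
      (mul_le_mul_of_nonneg_left (pow_le_pow_left₀ a2 a1 2) hC₀.le))
    exact abs_le.1 (Int.cast_le.1 (a3.trans (Int.le_ceil _)))

end Pool.Agent.Lib.MP_dee342_nt.Gr
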