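import Pool.Agent.Lib.MP_dee342_nt.GrBasic

/-!
Leading monomials for a real weight, counting monomials, and persistence of monomials.
-/

set_option autoImplicit false

namespace Pool.Agent.Lib.MP_dee342_nt.Gr

open Filter Topology Finset

variable {τ : Type}

theorem grlead_supp {ρ : ℕ} (s m : Fin ρ →₀ ℕ) (r : ℚ) (p : Pol ρ)
    (h : m ∈ (MvPolynomial.monomial s r * p).support) : ∃ m' ∈ p.support, m = s + m' := by
  classical
  rw [MvPolynomial.mem_support_iff, MvPolynomial.coeff_monomial_mul'] at h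
  by_cases hs : s ≤ m
  · rw [if_pos hs] at h
    refine ⟨m - s, ?_, ?_⟩
    · rw [MvPolynomial.mem_support_iff]
      exact right_ne_zero_of_mul h
    · exact (add_tsub_cancel_of_le hs).symm
  · rw [if_neg hs] at h
    exact absurd rfl h

theorem grlead_card (ρ d : ℕ) : (Mon ρ d).card ≤ (d + 1) ^ ρ := by
  classical
  have h : (Mon ρ d).card ≤ (Fintype.piFinset fun _ : Fin ρ => range (d + 1)).card := by
    refine Finset.card_le_card_of_injOn (fun m => fun i => m i) ?_ ?_
    · intro m hm
      have hm' := mem_Mon.1 (Finset.mem_coe.1 hm)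
      refine Finset.mem_coe.2 (Fintype.mem_piFinset.2 fun i => ?_)
      have := Finset.single_le_sum (f := fun i => m i) (fun i _ => Nat.zero_le _)
        (Finset.mem_univ i)
      exact Finset.mem_range.2 (Nat.lt_succ_of_le (le_trans this hm'))
    · intro m _ m' _ h
      exact Finsupp.ext fun i => congrFun h i
  simpa [Fintype.card_piFinset] using h

theorem grlead_min {ρ : ℕ} (ω : Fin ρ → ℝ) (f : Pol ρ) : ∃ l : Fin ρ →₀ ℕ, f ≠ 0 →
    l ∈ f.support ∧ ∀ m ∈ f.support,
      wt ω l < wt ω m ∨ (wt ω l = wt ω m ∧ toLex l ≤ toLex m) := by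
  by_cases hf : f = 0
  · exact ⟨0, fun h => absurd hf h⟩
  · obtain ⟨l, hl, hmin⟩ := Finset.exists_min_image f.support
      (fun m => (toLex (wt ω m, toLex m) : ℝ ×ₗ Lex (Fin ρ →₀ ℕ)))
      (MvPolynomial.support_nonempty.2 hf)
    refine ⟨l, fun _ => ⟨hl, fun m hm => ?_⟩⟩
    have := hmin m hm
    rw [Prod.Lex.toLex_le_toLex] at this
    exact this

/-- Order the monomials by `toLex (wt ω m, toLex m)` (a linear order compatible with addition) and
let `ld f` be the least element of the support. The only way to write `ld f + ld g` as a sum of an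
element of `f.support` and one of `g.support` is the obvious one, so its coefficient in `f * g`
(`MvPolynomial.coeff_mul`) is the product of the two leading coefficients. -/
theorem exists_lead {ρ : ℕ} (ω : Fin ρ → ℝ) : ∃ ld : Pol ρ → (Fin ρ →₀ ℕ),
    (∀ f : Pol ρ, f ≠ 0 → ld f ∈ f.support ∧ ∀ m ∈ f.support, wt ω (ld f) ≤ wt ω m) ∧
      ∀ f g : Pol ρ, f ≠ 0 → g ≠ 0 → ld f + ld g ∈ (f * g).support := by
  classical
  choose ld hld using grlead_min ω
  have hle : ∀ f : Pol ρ, f ≠ 0 → ∀ m ∈ f.support, wt ω (ld f) ≤ wt ω m := by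
    intro f hf m hm
    rcases (hld f hf).2 m hm with h | h
    · exact h.le
    · exact h.1.le
  refine ⟨ld, fun f hf => ⟨(hld f hf).1, hle f hf⟩, fun f g hf hg => ?_⟩
  rw [MvPolynomial.mem_support_iff, MvPolynomial.coeff_mul,
    Finset.sum_eq_single (ld f, ld g)]
  · exact mul_ne_zero (MvPolynomial.mem_support_iff.1 (hld f hf).1)
      (MvPolynomial.mem_support_iff.1 (hld g hg).1)
  · intro x hx hne
    by_contra h0
    have hu : x.1 ∈ f.support := MvPolynomial.mem_support_iff.2 (left_ne_zero_of_mul h0)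
    have hv : x.2 ∈ g.support := MvPolynomial.mem_support_iff.2 (right_ne_zero_of_mul h0)
    have hs : x.1 + x.2 = ld f + ld g := by simpa using hx
    have hw : wt ω x.1 + wt ω x.2 = wt ω (ld f) + wt ω (ld g) := by
      rw [← wt_add, ← wt_add, hs]
    have a1 := hle f hf _ hu
    have a2 := hle g hg _ hv
    have b1 : toLex (ld f) ≤ toLex x.1 := by
      rcases (hld f hf).2 _ hu with h | h
      · exfalso; linarith
      · exact h.2
    have b2 : toLex (ld g) ≤ toLex x.2 := by
      rcases (hld g hg).2 _ hv with h | h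
      · exfalso; linarith
      · exact h.2
    have hs' : toLex x.1 + toLex x.2 = toLex (ld f) + toLex (ld g) := congrArg toLex hs
    have c1 : toLex (ld f) = toLex x.1 := by
      by_contra hc
      have := add_lt_add_of_lt_of_le (lt_of_le_of_ne b1 hc) b2
      rw [hs'] at this
      exact lt_irrefl _ this
    have d1 : x.1 = ld f := (toLex.injective c1).symm
    have d2 : x.2 = ld g := by
      rw [d1] at hs
      exact add_left_cancel hs
    exact hne (Prod.ext d1 d2)
  · intro h
    exact absurd (by simp) h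

theorem Mon_nonempty (ρ d : ℕ) : (Mon ρ d).Nonempty := by
  exact ⟨0, mem_Mon.2 (by simp)⟩

/-- `card (Mon ρ d) ≤ (d+1)^ρ` grows polynomially, so the ratio cannot exceed `1 + η` along the
whole progression `d = j D`. -/
theorem exists_deg (ρ D : ℕ) (η : ℝ) (hη : 0 < η) :
    ∃ d : ℕ, ((Mon ρ (d + D)).card : ℝ) ≤ (1 + η) * (Mon ρ d).card := by
  by_contra hcon
  have hcon' : ∀ d : ℕ, (1 + η) * (Mon ρ d).card ≤ ((Mon ρ (d + D)).card : ℝ) := by
    intro d
    by_contra h
    exact hcon ⟨d, (not_le.1 h).le⟩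
  have h1 : (1 : ℝ) < 1 + η := by linarith
  have hlow : ∀ j : ℕ, (1 + η) ^ j ≤ ((Mon ρ (j * D)).card : ℝ) := by
    intro j
    induction j with
    | zero =>
      have := (Mon_nonempty ρ (0 * D)).card_pos
      rw [pow_zero]
      exact_mod_cast this
    | succ j ih =>
      have := hcon' (j * D)
      rw [pow_succ, add_mul, one_mul, mul_comm]
      exact le_trans (mul_le_mul_of_nonneg_left ih (by linarith)) this
  have hup : ∀ j : ℕ, 1 ≤ j → ((Mon ρ (j * D)).card : ℝ) ≤ ((D : ℝ) + 1) ^ ρ * (j : ℝ) ^ ρ := by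
    intro j hj
    have a1 := grlead_card ρ (j * D)
    have a2 : j * D + 1 ≤ (D + 1) * j := by nlinarith
    have a3 : (Mon ρ (j * D)).card ≤ (D + 1) ^ ρ * j ^ ρ := by
      rw [← mul_pow]
      exact le_trans a1 (Nat.pow_le_pow_left a2 ρ)
    exact_mod_cast a3
  have hpos : (0 : ℝ) < ((D : ℝ) + 1) ^ ρ := by positivity
  have ht := tendsto_pow_const_div_const_pow_of_one_lt ρ h1
  have hev := (ht.eventually (gt_mem_nhds (inv_pos.2 hpos))).and (eventually_ge_atTop 1)
  obtain ⟨j, hj1, hj2⟩ := hev.exists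
  have hp : (0 : ℝ) < (1 + η) ^ j := by positivity
  rw [div_lt_iff₀ hp, inv_mul_eq_div, lt_div_iff₀ hpos] at hj1
  have := le_trans (hlow j) (hup j hj2)
  rw [mul_comm] at this
  exact absurd hj1 (not_lt.2 this)

/-- Persistence. First, by induction, every monomial of `f j` has `w2`-weight at most `B2`. A
monomial `m` of `f j` with `wa`-weight above `Ba` gives the monomial `m + α' j` of the right side,
which is not cancelled by the `b`-term, hence a monomial `m'` of `f (j+1)` with
`m' + α j = m + α' j`: its `wa`-weight is again above `Ba` and its `w2`-weight is `ν j` less. -/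
theorem persist {ρ : ℕ} (w2 wa : Fin ρ → ℝ) (R : ℕ) (f b : ℕ → Pol ρ)
    (α α' α'' : ℕ → (Fin ρ →₀ ℕ)) (γ γ' γ'' : ℕ → ℚ) (ν : ℕ → ℝ)
    (hγ : ∀ j < R, γ j ≠ 0 ∧ γ' j ≠ 0)
    (hrec : ∀ j < R, MvPolynomial.monomial (α j) (γ j) * f (j + 1) =
      MvPolynomial.monomial (α' j) (γ' j) * f j + MvPolynomial.monomial (α'' j) (γ'' j) * b j)
    (hν : ∀ j < R, 0 ≤ ν j) (h1 : ∀ j < R, wt w2 (α j) = wt w2 (α' j) + ν j)
    (h2 : ∀ j < R, wt w2 (α j) = wt w2 (α'' j) + ν j)
    (h3 : ∀ j < R, wt wa (α j) ≤ wt wa (α' j)) (h4 : ∀ j < R, wt wa (α'' j) = wt wa (α j))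
    (B2 Ba b2 : ℝ) (h0 : ∀ m ∈ (f 0).support, wt w2 m ≤ B2)
    (hb : ∀ j < R, ∀ m ∈ (b j).support, wt w2 m ≤ B2 ∧ wt wa m ≤ Ba)
    (hR : ∀ m ∈ (f R).support, b2 ≤ wt w2 m) (j : ℕ) (hj : j ≤ R)
    (hrem : B2 - b2 < ∑ i ∈ Ico j R, ν i) :
    ∀ m ∈ (f j).support, wt w2 m ≤ B2 ∧ wt wa m ≤ Ba := by
  classical
  have hA : ∀ k, k ≤ R → ∀ m ∈ (f k).support, wt w2 m ≤ B2 := by
    intro k
    induction k with
    | zero => intro _; exact h0
    | succ k ih =>
      intro hk m hm
      have hk' : k < R := hk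
      have hmem : α k + m ∈ (MvPolynomial.monomial (α k) (γ k) * f (k + 1)).support := by
        rw [MvPolynomial.mem_support_iff, MvPolynomial.coeff_monomial_mul]
        exact mul_ne_zero (hγ k hk').1 (MvPolynomial.mem_support_iff.1 hm)
      rw [hrec k hk'] at hmem
      have hn := hν k hk'
      rcases Finset.mem_union.1 (MvPolynomial.support_add hmem) with h | h
      · obtain ⟨m', hm', he⟩ := grlead_supp _ _ _ _ h
        have e := congrArg (wt w2) he
        rw [wt_add, wt_add] at e
        have := ih hk'.le m' hm'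
        have := h1 k hk'
        linarith
      · obtain ⟨m', hm', he⟩ := grlead_supp _ _ _ _ h
        have e := congrArg (wt w2) he
        rw [wt_add, wt_add] at e
        have := (hb k hk' m' hm').1
        have := h2 k hk'
        linarith
  intro m hm
  refine ⟨hA j hj m hm, ?_⟩
  by_contra hcon
  have hcon' : Ba < wt wa m := not_le.1 hcon
  have hB : ∀ k, j ≤ k → k ≤ R → ∃ m' ∈ (f k).support, Ba < wt wa m' ∧
      wt w2 m' + ∑ i ∈ Ico j k, ν i ≤ B2 := by
    intro k hjk
    induction k, hjk using Nat.le_induction with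
    | base =>
      intro _
      refine ⟨m, hm, hcon', ?_⟩
      simpa using hA j hj m hm
    | succ k hjk ih =>
      intro hk
      have hk' : k < R := hk
      obtain ⟨m1, hm1, ha1, hw1⟩ := ih hk'.le
      have hz : MvPolynomial.coeff (α' k + m1) (MvPolynomial.monomial (α'' k) (γ'' k) * b k) = 0 := by
        by_contra hne
        obtain ⟨m', hm', he⟩ := grlead_supp _ _ _ _ (MvPolynomial.mem_support_iff.2 hne)
        have e := congrArg (wt wa) he
        rw [wt_add, wt_add] at e
        have := (hb k hk' m' hm').2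
        have := h3 k hk'
        have := h4 k hk'
        linarith
      have hmem : α' k + m1 ∈ (MvPolynomial.monomial (α k) (γ k) * f (k + 1)).support := by
        rw [MvPolynomial.mem_support_iff, hrec k hk', MvPolynomial.coeff_add, hz, add_zero,
          MvPolynomial.coeff_monomial_mul]
        exact mul_ne_zero (hγ k hk').2 (MvPolynomial.mem_support_iff.1 hm1)
      obtain ⟨m2, hm2, he⟩ := grlead_supp _ _ _ _ hmem
      have e1 := congrArg (wt wa) he
      have e2 := congrArg (wt w2) he
      rw [wt_add, wt_add] at e1 e2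
      have := h3 k hk'
      have := h1 k hk'
      refine ⟨m2, hm2, by linarith, ?_⟩
      rw [Finset.sum_Ico_succ_top hjk]
      linarith
  obtain ⟨m', hm', _, hw⟩ := hB R hj le_rfl
  have := hR m' hm'
  linarith

end Pool.Agent.Lib.MP_dee342_nt.Gr
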