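import Pool.Agent.Lib.MP_dee342_nt.GrMem

/-!
Literal pieces.
-/

set_option autoImplicit false

namespace Pool.Agent.Lib.MP_dee342_nt.Gr

open Filter Topology Finset

variable {τ : Type} {a : ℕ} {N : τ → ℕ}

theorem grlit_max (U : Ultrafilter τ) (s : τ → ℕ) (M : List (τ → ℕ)) :
    ∃ g ∈ s :: M, ∀ m ∈ s :: M, ∀ᶠ t in U, m t ≤ g t := by
  induction M generalizing s with
  | nil => exact ⟨s, by simp, by simp⟩
  | cons b M ih =>
    obtain ⟨g, hg, hle⟩ := ih b
    by_cases h : ∀ᶠ t in U, s t ≤ g t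
    · refine ⟨g, List.mem_cons_of_mem _ hg, fun m hm => ?_⟩
      rcases List.mem_cons.1 hm with rfl | hm
      · exact h
      · exact hle m hm
    · refine ⟨s, List.mem_cons_self, fun m hm => ?_⟩
      rcases List.mem_cons.1 hm with rfl | hm
      · exact Eventually.of_forall fun _ => le_rfl
      · filter_upwards [hle m hm, Ultrafilter.eventually_not.2 h] with t h1 h2
        omega

theorem grlit_lm_le (U : Ultrafilter τ) (hN : Tendsto N U atTop) (A : ℕ) {f g : τ → ℕ}
    (hfg : ∀ᶠ t in U, f t ≤ g t) (hg : ∀ᶠ t in U, g t ≤ A * N t) : lm U N f ≤ lm U N g := by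
  have hf : ∀ᶠ t in U, f t ≤ A * N t := by
    filter_upwards [hfg, hg] with t h1 h2 using h1.trans h2
  refine le_of_tendsto_of_tendsto (tendsto_lm U hN A hf) (tendsto_lm U hN A hg) ?_
  filter_upwards [hfg] with t h1
  exact div_le_div_of_nonneg_right (by exact_mod_cast h1) (Nat.cast_nonneg _)

/-- one step from `f` to `g` -/
theorem grlit_one (ha : Odd a) (ha3 : 3 ≤ a) (U : Ultrafilter τ) (hN : Tendsto N U atTop)
    (x : τ → ℤ) (A : ℕ) {f g : τ → ℕ} (hfg : ∀ᶠ t in U, f t ≤ g t)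
    (hg : ∀ᶠ t in U, g t ≤ A * N t) :
    ∃ c : τ → ℤ, Ht U N c ((lm U N g - lm U N f) * Real.log a) ∧
      ∀ S : Set (τ → ℚ), Mem a U N S (X a x f) → Mem a U N S (fun t => (c t : ℚ)) →
        Mem a U N S (X a x g) := by
  have hf : ∀ᶠ t in U, f t ≤ A * N t := by
    filter_upwards [hfg, hg] with t h1 h2 using h1.trans h2
  obtain ⟨k, c, hkc⟩ := aff_step ha ha3 x f g
  refine ⟨c, Ht.of_pow hN (f := fun t => g t - f t) (by omega) ?_ ?_, fun S h1 h2 => ?_⟩
  · refine ((tendsto_lm U hN A hg).sub (tendsto_lm U hN A hf)).congr' ?_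
    filter_upwards [hfg] with t h
    rw [Nat.cast_sub h, sub_div]
  · filter_upwards [hfg] with t h using (hkc t h).2.1
  · have hd : Bd U N fun t => ((g t - f t : ℕ) : ℤ) :=
      Bd.of_le A (by filter_upwards [hg] with t h using (Nat.sub_le _ _).trans h)
    have hk : Bd U N fun t => (k t : ℤ) :=
      Bd.of_le A (by
        filter_upwards [hfg, hg] with t h h' using (hkc t h).1.trans ((Nat.sub_le _ _).trans h'))
    refine Mem.congr _ _ (Mem.add _ _ (Mem.unit _ _ _ hd.neg hk h1)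
      (Mem.unit _ _ _ hd.neg (Bd.const hN 0) h2)) ?_
    filter_upwards [hfg] with t h
    have e := congrArg (fun z : ℤ => (z : ℚ)) (hkc t h).2.2
    simp only [Int.cast_mul, Int.cast_pow, Int.cast_add, Int.cast_natCast, Int.cast_ofNat] at e
    simp only [un, X, zpow_neg, zpow_natCast, zpow_zero]
    have h2 : (2 : ℚ) ^ (g t - f t) ≠ 0 := by positivity
    field_simp
    linear_combination -e

theorem grlit_aux (ha : Odd a) (ha3 : 3 ≤ a) (U : Ultrafilter τ) (hN : Tendsto N U atTop)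
    (x : τ → ℤ) (A : ℕ) (s : τ → ℕ) (n : ℕ) : ∀ (e : τ → ℕ),
    (∀ᶠ t in U, s t ≤ e t ∧ e t ≤ A * N t) → ∀ M : List (τ → ℕ), M.length = n →
    (∀ m ∈ M, ∀ᶠ t in U, s t ≤ m t ∧ m t ≤ e t) →
    ∃ Z : List ((τ → ℤ) × ℝ), (∀ p ∈ Z, 0 ≤ p.2 ∧ Ht U N p.1 p.2) ∧
      (Z.map Prod.snd).sum ≤ (lm U N e - lm U N s) * Real.log a ∧
      ∀ m ∈ M, Mem a U N (gens Z ∪ {X a x s}) (X a x m) := by
  have hlog : 0 ≤ Real.log a := Real.log_natCast_nonneg a
  induction n with
  | zero =>
    intro e hse M hl _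
    rw [List.length_eq_zero_iff.1 hl]
    refine ⟨[], by simp, ?_, by simp⟩
    simpa using mul_nonneg (sub_nonneg.2
      (grlit_lm_le U hN A (hse.mono fun _ h => h.1) (hse.mono fun _ h => h.2))) hlog
  | succ n ih =>
    intro e hse M hl hM
    obtain ⟨b, M₀, rfl⟩ := List.exists_cons_of_length_eq_add_one hl
    obtain ⟨g, hg, hgmax⟩ := grlit_max U b M₀
    obtain ⟨L₁, L₂, hL⟩ := List.append_of_mem hg
    have hsub : ∀ m ∈ L₁ ++ L₂, m ∈ b :: M₀ := fun m hm => by
      rw [hL]
      rcases List.mem_append.1 hm with h | h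
      · exact List.mem_append_left _ h
      · exact List.mem_append_right _ (List.mem_cons_of_mem _ h)
    obtain ⟨f, hf, hfmax⟩ := grlit_max U s (L₁ ++ L₂)
    have hfg : ∀ᶠ t in U, f t ≤ g t := by
      rcases List.mem_cons.1 hf with rfl | h
      · exact (hM g hg).mono fun _ h => h.1
      · exact hgmax f (hsub f h)
    have hge : ∀ᶠ t in U, g t ≤ e t := (hM g hg).mono fun _ h => h.2
    have hgA : ∀ᶠ t in U, g t ≤ A * N t := by
      filter_upwards [hge, hse] with t h1 h2 using h1.trans h2.2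
    have hsf := hfmax s List.mem_cons_self
    obtain ⟨Z, hZ, hsum, hmem⟩ := ih f
      (by filter_upwards [hsf, hfg, hgA] with t h1 h2 h3 using ⟨h1, h2.trans h3⟩) (L₁ ++ L₂)
      (by rw [hL] at hl; simp at hl ⊢; omega)
      (fun m hm => by
        filter_upwards [hM m (hsub m hm), hfmax m (List.mem_cons_of_mem _ hm)] with t h1 h2
          using ⟨h1.1, h2⟩)
    obtain ⟨c, hc, hstep⟩ := grlit_one ha ha3 U hN x A hfg hgA
    have hmono : gens Z ∪ {X a x s} ⊆
        gens ((c, (lm U N g - lm U N f) * Real.log a) :: Z) ∪ {X a x s} :=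
      Set.union_subset_union_left _ fun _ ⟨p, hp, e⟩ => ⟨p, List.mem_cons_of_mem _ hp, e⟩
    refine ⟨(c, (lm U N g - lm U N f) * Real.log a) :: Z, fun p hp => ?_, ?_, fun m hm => ?_⟩
    · rcases List.mem_cons.1 hp with rfl | hp
      · exact ⟨mul_nonneg (sub_nonneg.2 (grlit_lm_le U hN A hfg hgA)) hlog, hc⟩
      · exact hZ p hp
    · have h1 := mul_le_mul_of_nonneg_right
        (grlit_lm_le U hN A hge (hse.mono fun _ h => h.2)) hlog
      simp only [List.map_cons, List.sum_cons]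
      linarith
    · have hg' : Mem a U N (gens ((c, (lm U N g - lm U N f) * Real.log a) :: Z) ∪ {X a x s})
          (X a x g) := by
        refine hstep _ ?_ (Mem.gen _ (Or.inl ⟨_, List.mem_cons_self, rfl⟩))
        rcases List.mem_cons.1 hf with rfl | h
        · exact Mem.gen _ (Or.inr rfl)
        · exact (hmem f h).mono hmono
      rw [hL] at hm
      rcases List.mem_append.1 hm with h | h
      · exact (hmem m (List.mem_append_left _ h)).mono hmono
      · rcases List.mem_cons.1 h with rfl | h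
        · exact hg'
        · exact (hmem m (List.mem_append_right _ h)).mono hmono

/-- Literal pieces. Induction on the length of `M`, for all `e`: let `m*` be an element of `M` that
is eventually the largest (it exists along an ultrafilter), `m'` an eventually largest element of
`s :: M.erase m*`; apply the induction hypothesis to `M.erase m*` (or any shorter list with the same
other elements) with `e = m'`, and add the generator `c` of `aff_step` for `m', m*`, of height
`(lm m* - lm m') log a` (`Ht.of_pow`, `tendsto_lm`). -/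
theorem lit_step (ha : Odd a) (ha3 : 3 ≤ a) (U : Ultrafilter τ) (hN : Tendsto N U atTop)
    (x : τ → ℤ) (A : ℕ) (s e : τ → ℕ) (hse : ∀ᶠ t in U, s t ≤ e t ∧ e t ≤ A * N t)
    (M : List (τ → ℕ)) (hM : ∀ m ∈ M, ∀ᶠ t in U, s t ≤ m t ∧ m t ≤ e t) :
    ∃ Z : List ((τ → ℤ) × ℝ), (∀ p ∈ Z, 0 ≤ p.2 ∧ Ht U N p.1 p.2) ∧
      (Z.map Prod.snd).sum ≤ (lm U N e - lm U N s) * Real.log a ∧
      ∀ m ∈ M, Mem a U N (gens Z ∪ {X a x s}) (X a x m) :=
  grlit_aux ha ha3 U hN x A s M.length e hse M rfl hM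

end Pool.Agent.Lib.MP_dee342_nt.Gr
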