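import Pool.Agent.Lib.MP_dee342_nt.GrLit

/-!
All marked values of a parsed orbit lie in a module with generators of small total height.

Proof. Let `λ j = lm (s (j+1)) - lm (s j)` if `v j t = 0` eventually, and `0` otherwise. Prove by
induction on `j ≤ q`: for every list `M` of times that are eventually `≤ s j`, there are `Z`, `D` as
in the statement with total height at most `log 2 + log a * ∑ i < j, λ i` and moreover
`Mem {1} D`. For `j = 0` take `Z = [(x, log 2)]`, `D = 1`. For the step split `M` into the times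
eventually `≤ s j` and those eventually in `[s j, s (j+1)]`. Literal piece: apply the induction
hypothesis to the early times and `s j`, then `lit_step`, `Mem.comp` and `Mem.mul`. Copy
(`v j t ≠ 0` eventually): if `v j / N → 0` use `copy_tiny` for each late time (multiply the `D`s,
add the `c`s with height `0`); otherwise the limit is positive, `A N ≤ h v j` eventually for some
`h`, and `copy_big` replaces each late time by an early one; in both cases add `s j` and `s j - v j`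
to the early times. Finally `∑ j < q, λ j ≤ 1` by passing to the limit in the bound on the literal
length.
-/

set_option autoImplicit false

namespace Pool.Agent.Lib.MP_dee342_nt.Gr

open Filter Topology Finset

variable {τ : Type}

/-- The values at the times `M` are obtained from those at the times `M0` at cost `H`. -/
def grmarks_R (a : ℕ) (U : Filter τ) (N : τ → ℕ) (x : τ → ℤ) (H : ℝ) (M0 M : List (τ → ℕ)) :
    Prop :=
  ∃ (Z : List ((τ → ℤ) × ℝ)) (D : τ → ℤ), (∀ p ∈ Z, 0 ≤ p.2 ∧ Ht U N p.1 p.2) ∧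
    (Z.map Prod.snd).sum ≤ H ∧ Ht U N D 0 ∧ (∀ᶠ t in U, D t ≠ 0) ∧
    Mem a U N {fun _ => 1} (fun t => (D t : ℚ)) ∧
    ∀ m ∈ M, Mem a U N (gens Z ∪ {f | ∃ m0 ∈ M0, f = X a x m0}) fun t => (D t : ℚ) * X a x m t

section aux

variable {a : ℕ} {N : τ → ℕ} {x : τ → ℤ} {H H' : ℝ} {M0 M0' M1 M2 : List (τ → ℕ)}

theorem grmarks_gens_left (Z Z' : List ((τ → ℤ) × ℝ)) : gens Z ⊆ gens (Z ++ Z') := by
  rintro f ⟨p, hp, rfl⟩
  exact ⟨p, List.mem_append_left _ hp, rfl⟩

theorem grmarks_gens_right (Z Z' : List ((τ → ℤ) × ℝ)) : gens Z' ⊆ gens (Z ++ Z') := by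
  rintro f ⟨p, hp, rfl⟩
  exact ⟨p, List.mem_append_right _ hp, rfl⟩

theorem grmarks_mk {U : Filter τ} {Z Z' : List ((τ → ℤ) × ℝ)} {D D' : τ → ℤ}
    (h1 : ∀ p ∈ Z, 0 ≤ p.2 ∧ Ht U N p.1 p.2) (h1' : ∀ p ∈ Z', 0 ≤ p.2 ∧ Ht U N p.1 p.2)
    (h2 : (Z.map Prod.snd).sum ≤ H) (h2' : (Z'.map Prod.snd).sum ≤ H') (h3 : Ht U N D 0)
    (h3' : Ht U N D' 0) (h4 : ∀ᶠ t in U, D t ≠ 0) (h4' : ∀ᶠ t in U, D' t ≠ 0)
    (h5 : Mem a U N {fun _ => 1} fun t => (D t : ℚ))
    (h5' : Mem a U N {fun _ => 1} fun t => (D' t : ℚ))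
    (h6 : ∀ m ∈ M1, Mem a U N (gens (Z ++ Z') ∪ {f | ∃ m0 ∈ M0, f = X a x m0})
      fun t => (D t : ℚ) * ((D' t : ℚ) * X a x m t)) : grmarks_R a U N x (H + H') M0 M1 := by
  refine ⟨Z ++ Z', fun t => D t * D' t, fun p hp => ?_, ?_, ?_, ?_, ?_, fun m hm => ?_⟩
  · exact (List.mem_append.1 hp).elim (h1 p) (h1' p)
  · rw [List.map_append, List.sum_append]
    exact add_le_add h2 h2'
  · simpa using h3.mul h3'
  · filter_upwards [h4, h4'] with t a1 a2 using mul_ne_zero a1 a2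
  · exact Mem.congr _ _ (h5.mul h5') (Eventually.of_forall fun t => by push_cast; rfl)
  · exact Mem.congr _ _ (h6 m hm) (Eventually.of_forall fun t => by push_cast; ring)

theorem grmarks_trans {U : Filter τ} (h : grmarks_R a U N x H M0 M1)
    (h' : grmarks_R a U N x H' M1 M2) : grmarks_R a U N x (H + H') M0 M2 := by
  obtain ⟨Z, D, h1, h2, h3, h4, h5, h6⟩ := h
  obtain ⟨Z', D', h1', h2', h3', h4', h5', h6'⟩ := h'
  refine grmarks_mk h1 h1' h2 h2' h3 h3' h4 h4' h5 h5' fun m hm => ?_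
  refine Mem.comp (fun t => (D t : ℚ)) ?_ (h6' m hm)
  rintro g (hg | ⟨m1, hm1, rfl⟩)
  · exact h5.mul (Mem.gen g (Or.inl (grmarks_gens_right Z Z' hg)))
  · exact (h6 m1 hm1).mono (Set.union_subset_union_left _ (grmarks_gens_left Z Z'))

theorem grmarks_append {U : Filter τ} (h : grmarks_R a U N x H M0 M1)
    (h' : grmarks_R a U N x H' M0' M2) : grmarks_R a U N x (H + H') (M0 ++ M0') (M1 ++ M2) := by
  obtain ⟨Z, D, h1, h2, h3, h4, h5, h6⟩ := h
  obtain ⟨Z', D', h1', h2', h3', h4', h5', h6'⟩ := h'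
  refine grmarks_mk h1 h1' h2 h2' h3 h3' h4 h4' h5 h5' fun m hm => ?_
  rcases List.mem_append.1 hm with hm | hm
  · refine Mem.congr _ _ (h5'.mul ((h6 m hm).mono (Set.union_subset_union
      (grmarks_gens_left Z Z') ?_))) (Eventually.of_forall fun t => by ring)
    rintro f ⟨m0, h0, rfl⟩
    exact ⟨m0, List.mem_append_left _ h0, rfl⟩
  · refine h5.mul ((h6' m hm).mono (Set.union_subset_union (grmarks_gens_right Z Z') ?_))
    rintro f ⟨m0, h0, rfl⟩
    exact ⟨m0, List.mem_append_right _ h0, rfl⟩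

theorem grmarks_one {U : Filter τ} (hN : Tendsto N U atTop) {Z : List ((τ → ℤ) × ℝ)}
    (h1 : ∀ p ∈ Z, 0 ≤ p.2 ∧ Ht U N p.1 p.2) (h2 : (Z.map Prod.snd).sum ≤ H)
    (h6 : ∀ m ∈ M1, Mem a U N (gens Z ∪ {f | ∃ m0 ∈ M0, f = X a x m0}) (X a x m)) :
    grmarks_R a U N x H M0 M1 :=
  ⟨Z, fun _ => 1, h1, h2, Ht.const hN 1, Eventually.of_forall fun _ => one_ne_zero,
    Mem.congr _ _ (Mem.gen _ rfl) (Eventually.of_forall fun t => by simp),
    fun m hm => Mem.congr _ _ (h6 m hm) (Eventually.of_forall fun t => by simp)⟩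

theorem grmarks_refl {U : Filter τ} (hN : Tendsto N U atTop) (M : List (τ → ℕ)) :
    grmarks_R a U N x 0 M M :=
  grmarks_one (Z := []) hN (by simp) (by simp) fun m hm => Mem.gen _ (Or.inr ⟨m, hm, rfl⟩)

theorem grmarks_lit (ha : Odd a) (ha3 : 3 ≤ a) (U : Ultrafilter τ) (hN : Tendsto N U atTop)
    (x : τ → ℤ) (A : ℕ) (s e : τ → ℕ) (hse : ∀ᶠ t in U, s t ≤ e t ∧ e t ≤ A * N t)
    (M : List (τ → ℕ)) (hM : ∀ m ∈ M, ∀ᶠ t in U, m t ≤ e t) :
    ∃ M0 : List (τ → ℕ), (∀ m ∈ M0, ∀ᶠ t in U, m t ≤ s t) ∧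
      grmarks_R a U N x ((lm U N e - lm U N s) * Real.log a) M0 M := by
  classical
  obtain ⟨Z, h1, h2, h3⟩ := lit_step ha ha3 U hN x A s e hse
    (M.filter fun m => ¬ ∀ᶠ t in U, m t ≤ s t) fun m hm => by
      rw [List.mem_filter, decide_eq_true_eq, ← Ultrafilter.eventually_not] at hm
      filter_upwards [hm.2, hM m hm.1] with t a1 a2 using ⟨(not_le.1 a1).le, a2⟩
  refine ⟨s :: M.filter fun m => ∀ᶠ t in U, m t ≤ s t, fun m hm => ?_,
    grmarks_one hN h1 h2 fun m hm => ?_⟩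
  · rcases List.mem_cons.1 hm with rfl | hm
    · exact Eventually.of_forall fun _ => le_rfl
    · exact of_decide_eq_true (List.mem_filter.1 hm).2
  · by_cases h : ∀ᶠ t in U, m t ≤ s t
    · exact Mem.gen _ (Or.inr ⟨m, List.mem_cons_of_mem _
        (List.mem_filter.2 ⟨hm, decide_eq_true h⟩), rfl⟩)
    · refine (h3 m (List.mem_filter.2 ⟨hm, decide_eq_true h⟩)).mono
        (Set.union_subset_union_right _ ?_)
      rintro f rfl
      exact ⟨s, List.mem_cons_self, rfl⟩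

theorem grmarks_copy1 (ha : Odd a) (ha3 : 3 ≤ a) (U : Ultrafilter τ) (hN : Tendsto N U atTop)
    (x : τ → ℤ) (A : ℕ) (s e v : τ → ℕ)
    (hc : ∀ᶠ t in U, 1 ≤ v t ∧ v t ≤ s t ∧ s t ≤ e t ∧ e t ≤ A * N t ∧
      ∀ i, s t ≤ i → i < e t → par a (x t) i = par a (x t) (i - v t))
    (m : τ → ℕ) (hm : ∀ᶠ t in U, m t ≤ e t) :
    ∃ M0 : List (τ → ℕ), (∀ m ∈ M0, ∀ᶠ t in U, m t ≤ s t) ∧ grmarks_R a U N x 0 M0 [m] := by
  by_cases h : ∀ᶠ t in U, m t ≤ s t
  · exact ⟨[m], by simpa using h, grmarks_refl hN _⟩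
  rw [← Ultrafilter.eventually_not] at h
  have hv := tendsto_lm U hN (f := v) A (by
    filter_upwards [hc] with t ht using ht.2.1.trans (ht.2.2.1.trans ht.2.2.2.1))
  have h0 : 0 ≤ lm U N v := ge_of_tendsto' hv fun t => by positivity
  rcases h0.eq_or_lt with h0 | h0
  · obtain ⟨D, c, h1, h2, h3, h4, h5⟩ := copy_tiny ha ha3 U hN x A s e v
      (by filter_upwards [hc] with t ht using ⟨ht.1, ht.2.1, ht.2.2.2⟩) (h0 ▸ hv) m
      (by filter_upwards [h, hm] with t a1 a2 using ⟨(not_le.1 a1).le, a2⟩)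
    refine ⟨[s, fun t => s t - v t], by simp, [(c, 0)], D, by simpa using h4, by simp, h2, h3, h1,
      fun m' hm' => ?_⟩
    obtain rfl := List.mem_singleton.1 hm'
    refine h5.mono ?_
    rintro f (rfl | rfl | rfl)
    · exact Or.inr ⟨s, by simp, rfl⟩
    · exact Or.inr ⟨_, by simp, rfl⟩
    · exact Or.inl ⟨(c, 0), by simp, rfl⟩
  · obtain ⟨k, hk⟩ := exists_nat_ge ((A : ℝ) / (lm U N v / 2))
    rw [div_le_iff₀ (half_pos h0)] at hk
    obtain ⟨m', h1, h2⟩ := copy_big ha ha3 U x A s e v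
      (by filter_upwards [hc] with t ht using ⟨ht.2.1, ht.2.2.2⟩) k m (by
        filter_upwards [hc, hm, hv.eventually (lt_mem_nhds (half_lt_self h0)),
          hN.eventually (eventually_gt_atTop 0)] with t ht a1 a2 a3
        refine ⟨a1, a1.trans (ht.2.2.2.1.trans (le_trans ?_ (Nat.le_add_left _ _)))⟩
        have a4 : (0 : ℝ) < N t := by exact_mod_cast a3
        rw [lt_div_iff₀ a4] at a2
        have a5 : (A : ℝ) * N t ≤ k * v t := by
          calc (A : ℝ) * N t ≤ k * (lm U N v / 2) * N t := by gcongr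
            _ = k * (lm U N v / 2 * N t) := by ring
            _ ≤ k * v t := by gcongr
        exact_mod_cast a5)
    refine ⟨[m', s, fun t => s t - v t], by simpa using h1,
      grmarks_one (Z := []) hN (by simp) (by simp) fun m'' hm'' => ?_⟩
    obtain rfl := List.mem_singleton.1 hm''
    refine h2.mono ?_
    rintro f (rfl | rfl | rfl)
    · exact Or.inr ⟨m', by simp, rfl⟩
    · exact Or.inr ⟨s, by simp, rfl⟩
    · exact Or.inr ⟨_, by simp, rfl⟩

theorem grmarks_copy (ha : Odd a) (ha3 : 3 ≤ a) (U : Ultrafilter τ) (hN : Tendsto N U atTop)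
    (x : τ → ℤ) (A : ℕ) (s e v : τ → ℕ)
    (hc : ∀ᶠ t in U, 1 ≤ v t ∧ v t ≤ s t ∧ s t ≤ e t ∧ e t ≤ A * N t ∧
      ∀ i, s t ≤ i → i < e t → par a (x t) i = par a (x t) (i - v t))
    (M : List (τ → ℕ)) (hM : ∀ m ∈ M, ∀ᶠ t in U, m t ≤ e t) :
    ∃ M0 : List (τ → ℕ), (∀ m ∈ M0, ∀ᶠ t in U, m t ≤ s t) ∧ grmarks_R a U N x 0 M0 M := by
  induction M with
  | nil => exact ⟨[], by simp, grmarks_refl hN _⟩
  | cons m M ih =>
    obtain ⟨M0, h1, h2⟩ := grmarks_copy1 ha ha3 U hN x A s e v hc m (hM m List.mem_cons_self)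
    obtain ⟨M0', h1', h2'⟩ := ih fun m' hm' => hM m' (List.mem_cons_of_mem _ hm')
    refine ⟨M0 ++ M0', fun m' hm' => (List.mem_append.1 hm').elim (h1 m') (h1' m'), ?_⟩
    simpa using grmarks_append h2 h2'

end aux

theorem marks (a : ℕ) (ha : Odd a) (ha3 : 3 ≤ a) (U : Ultrafilter τ) (N : τ → ℕ)
    (hN : Tendsto N U atTop) (x : τ → ℤ) (hx : ∀ᶠ t in U, |x t| ≤ 2 ^ N t) (A q : ℕ)
    (s v : τ → ℕ → ℕ) (hp : ∀ᶠ t in U, Parse a (x t) q (N t) (s t) (v t) ∧ s t q ≤ A * N t)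
    (M : List (τ → ℕ)) (hM : ∀ m ∈ M, ∀ᶠ t in U, m t ≤ s t q) :
    ∃ (Z : List ((τ → ℤ) × ℝ)) (D : τ → ℤ), (∀ p ∈ Z, 0 ≤ p.2 ∧ Ht U N p.1 p.2) ∧
      (Z.map Prod.snd).sum ≤ Real.log 2 + Real.log a ∧ Ht U N D 0 ∧ (∀ᶠ t in U, D t ≠ 0) ∧
      ∀ m ∈ M, Mem a U N (gens Z) fun t => (D t : ℚ) * X a x m t := by
  classical
  have hb : ∀ j ≤ q, ∀ᶠ t in U, s t j ≤ A * N t := fun j hj => by
    filter_upwards [hp] with t ht using (monotone_nat_of_le_succ ht.1.2.1 hj).trans ht.2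
  let lam : ℕ → ℝ := fun j => if ∀ᶠ t in U, v t j = 0 then
    lm U N (fun t => s t (j + 1)) - lm U N (fun t => s t j) else 0
  have key : ∀ j ≤ q, ∀ M : List (τ → ℕ), (∀ m ∈ M, ∀ᶠ t in U, m t ≤ s t j) →
      grmarks_R a U N x (Real.log 2 + (∑ i ∈ range j, lam i) * Real.log a) [] M := by
    intro j
    induction j with
    | zero =>
      intro _ M hM
      have h1 : Ht U N x (1 * Real.log (2 : ℕ)) := by
        refine Ht.of_pow hN (f := N) one_le_two ?_ hx
        refine tendsto_const_nhds.congr' ?_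
        filter_upwards [hN.eventually (eventually_gt_atTop 0)] with t ht
        rw [div_self (by exact_mod_cast ht.ne')]
      refine grmarks_one (Z := [(x, Real.log 2)]) hN (fun p hp' => ?_) (by simp) fun m hm => ?_
      · obtain rfl := List.mem_singleton.1 hp'
        exact ⟨Real.log_nonneg one_le_two, by simpa using h1⟩
      · refine Mem.congr _ _ (Mem.gen (fun t => (x t : ℚ)) (Or.inl ⟨(x, Real.log 2), by simp, rfl⟩)) ?_
        filter_upwards [hp, hM m hm] with t ht a1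
        rw [ht.1.1, Nat.le_zero] at a1
        simp [X, a1]
    | succ j ih =>
      intro hj M hM
      have step : ∃ M0 : List (τ → ℕ), (∀ m ∈ M0, ∀ᶠ t in U, m t ≤ s t j) ∧
          grmarks_R a U N x (lam j * Real.log a) M0 M := by
        by_cases h : ∀ᶠ t in U, v t j = 0
        · have e : lam j = lm U N (fun t => s t (j + 1)) - lm U N (fun t => s t j) := if_pos h
          rw [e]
          refine grmarks_lit ha ha3 U hN x A _ _ ?_ M hM
          filter_upwards [hp, hb _ hj] with t ht a1 using ⟨ht.1.2.1 j, a1⟩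
        · have e : lam j = 0 := if_neg h
          rw [e, zero_mul]
          rw [← Ultrafilter.eventually_not] at h
          refine grmarks_copy ha ha3 U hN x A _ _ (fun t => v t j) ?_ M hM
          filter_upwards [hp, hb _ hj, h] with t ht a1 a2
          exact ⟨Nat.one_le_iff_ne_zero.2 a2, (ht.1.2.2.2 j hj a2).1, ht.1.2.1 j, a1,
            (ht.1.2.2.2 j hj a2).2⟩
      obtain ⟨M0, h1, h2⟩ := step
      rw [sum_range_succ, add_mul, ← add_assoc]
      exact grmarks_trans (ih (Nat.le_of_succ_le hj) M0 h1) h2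
  have hsum : ∑ i ∈ range q, lam i ≤ 1 := by
    rw [← sum_filter]
    refine le_of_tendsto (tendsto_finsetSum _ fun j hj => (tendsto_lm U hN A
      (hb (j + 1) (mem_range.1 (mem_filter.1 hj).1))).sub (tendsto_lm U hN A
      (hb j (mem_range.1 (mem_filter.1 hj).1).le))) ?_
    filter_upwards [hp, (eventually_all_finset _).2 fun j hj => (mem_filter.1 hj).2,
      hN.eventually (eventually_gt_atTop 0)] with t ht a1 a2
    have a3 : (0 : ℝ) < N t := by exact_mod_cast a2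
    have a4 := (sum_le_sum_of_subset (f := fun j => s t (j + 1) - s t j) fun j hj =>
      mem_filter.2 ⟨(mem_filter.1 hj).1, a1 j hj⟩).trans ht.1.2.2.1
    have a5 := (Nat.cast_le (α := ℝ)).2 a4
    rw [Nat.cast_sum, sum_congr rfl fun j _ => Nat.cast_sub (ht.1.2.1 j)] at a5
    simp only [← sub_div]
    rw [← sum_div, div_le_one a3]
    exact a5
  obtain ⟨Z, D, h1, h2, h3, h4, -, h6⟩ := key q le_rfl M hM
  refine ⟨Z, D, h1, h2.trans ?_, h3, h4, fun m hm => (h6 m hm).mono ?_⟩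
  · have : 0 ≤ Real.log a := Real.log_natCast_nonneg a
    nlinarith
  · rintro f (hf | ⟨m0, h0, -⟩)
    · exact hf
    · simp at h0

end Pool.Agent.Lib.MP_dee342_nt.Gr
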