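import Pool.Agent.Lib.MP_dee342_nt.GrBasic

/-!
Closure properties of `Mem`, and the three kinds of steps: literal, copy with a large lag, copy with
a tiny lag. Along the way `X x m` is the sequence of the values `T^(m t) (x t)`.
-/

set_option autoImplicit false

namespace Pool.Agent.Lib.MP_dee342_nt.Gr

open Filter Topology Finset

variable {τ : Type}

/-- The value of the orbit of `x t` at time `m t`. -/
def X (a : ℕ) (x : τ → ℤ) (m : τ → ℕ) : τ → ℚ := fun t => (((T a)^[m t] (x t) : ℤ) : ℚ)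

variable {a : ℕ} {N : τ → ℕ}

theorem Mem.mono {U : Filter τ} {S S' : Set (τ → ℚ)} (hS : S ⊆ S') {f : τ → ℚ}
    (hf : Mem a U N S f) : Mem a U N S' f := by
  induction hf with
  | gen f h => exact Mem.gen f (hS h)
  | zero => exact Mem.zero
  | add f g _ _ h1 h2 => exact Mem.add f g h1 h2
  | smul r f _ h => exact Mem.smul r f h
  | unit n k f hn hk _ h => exact Mem.unit n k f hn hk h
  | congr f g _ e h => exact Mem.congr f g h e

theorem Mem.sub {U : Filter τ} {S : Set (τ → ℚ)} {f g : τ → ℚ} (hf : Mem a U N S f)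
    (hg : Mem a U N S g) : Mem a U N S fun t => f t - g t := by
  exact Mem.congr _ _ (Mem.add _ _ hf (Mem.smul (-1) _ hg))
    (Eventually.of_forall fun t => by ring)

/-- Substitution: if `D g` is a member for each generator `g`, then so is `D f`. -/
theorem Mem.comp {U : Filter τ} {S S' : Set (τ → ℚ)} (D : τ → ℚ)
    (hS : ∀ g ∈ S, Mem a U N S' fun t => D t * g t) {f : τ → ℚ} (hf : Mem a U N S f) :
    Mem a U N S' fun t => D t * f t := by
  induction hf with
  | gen f h => exact hS f h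
  | zero => exact Mem.congr _ _ Mem.zero (Eventually.of_forall fun t => by ring)
  | add f g _ _ h1 h2 =>
    exact Mem.congr _ _ (Mem.add _ _ h1 h2) (Eventually.of_forall fun t => by ring)
  | smul r f _ h => exact Mem.congr _ _ (Mem.smul r _ h) (Eventually.of_forall fun t => by ring)
  | unit n k f hn hk _ h =>
    exact Mem.congr _ _ (Mem.unit n k _ hn hk h) (Eventually.of_forall fun t => by ring)
  | congr f g _ e h => exact Mem.congr _ _ h (e.mono fun t ht => by rw [ht])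

/-- Multiplication by a combination of units. -/
theorem Mem.mul {U : Filter τ} {S : Set (τ → ℚ)} {D f : τ → ℚ}
    (hD : Mem a U N {fun _ => 1} D) (hf : Mem a U N S f) : Mem a U N S fun t => D t * f t := by
  refine Mem.congr _ _ (Mem.comp (S' := S) f (fun g hg => ?_) hD)
    (Eventually.of_forall fun t => by ring)
  rw [Set.mem_singleton_iff.1 hg]
  exact Mem.congr _ _ hf (Eventually.of_forall fun t => by ring)

/-- One affine step: by `pc_aff` applied to `T^(s t) (x t)` and `m t - s t` (choose `k t`, `c t`),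
`2^(m - s) X m = a^k X s + c` with `0 ≤ c ≤ a^(m - s)`. -/
theorem aff_step (ha : Odd a) (ha3 : 3 ≤ a) (x : τ → ℤ) (s m : τ → ℕ) :
    ∃ (k : τ → ℕ) (c : τ → ℤ), ∀ t, s t ≤ m t → k t ≤ m t - s t ∧
      |c t| ≤ (a : ℤ) ^ (m t - s t) ∧
      2 ^ (m t - s t) * (T a)^[m t] (x t) = (a : ℤ) ^ k t * (T a)^[s t] (x t) + c t := by
  choose k c hk hc0 hc h using fun t => pc_aff a ha ha3 ((T a)^[s t] (x t)) (m t - s t)
  refine ⟨k, c, fun t ht => ⟨hk t, ?_, ?_⟩⟩
  · rw [abs_of_nonneg (hc0 t)]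
    have : (0 : ℤ) < 2 ^ (m t - s t) := by positivity
    linarith [hc t]
  · have := h t
    rwa [← Function.iterate_add_apply, Nat.sub_add_cancel ht] at this

/-- Along a copy, by `pc_diff` applied to `T^(s t - v t) (x t)`,
`2^(m - s) (X m - X (m - v)) = a^k (X s - X (s - v))`. -/
theorem copy_rel (ha : Odd a) (x : τ → ℤ) (s v m : τ → ℕ) :
    ∃ k : τ → ℕ, ∀ t, v t ≤ s t → s t ≤ m t →
      (∀ i, s t ≤ i → i < m t → par a (x t) i = par a (x t) (i - v t)) → k t ≤ m t - s t ∧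
      2 ^ (m t - s t) * ((T a)^[m t] (x t) - (T a)^[m t - v t] (x t)) =
        (a : ℤ) ^ k t * ((T a)^[s t] (x t) - (T a)^[s t - v t] (x t)) := by
  have key : ∀ t, ∃ k : ℕ, v t ≤ s t → s t ≤ m t →
      (∀ i, s t ≤ i → i < m t → par a (x t) i = par a (x t) (i - v t)) → k ≤ m t - s t ∧
      2 ^ (m t - s t) * ((T a)^[m t] (x t) - (T a)^[m t - v t] (x t)) =
        (a : ℤ) ^ k * ((T a)^[s t] (x t) - (T a)^[s t - v t] (x t)) := by
    intro t
    by_cases hh : v t ≤ s t ∧ s t ≤ m t ∧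
        ∀ i, s t ≤ i → i < m t → par a (x t) i = par a (x t) (i - v t)
    · obtain ⟨h1, h2, h3⟩ := hh
      obtain ⟨c, hc, h⟩ := pc_diff a ha ((T a)^[s t - v t] (x t)) (v t) (m t - s t) fun j hj => by
        rw [par_shift, par_shift, h3 _ (by omega) (by omega)]
        congr 1
        omega
      refine ⟨c, fun _ _ _ => ⟨hc, ?_⟩⟩
      simp only [← Function.iterate_add_apply] at h
      rwa [show m t - s t + v t + (s t - v t) = m t by omega,
        show m t - s t + (s t - v t) = m t - v t by omega,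
        show v t + (s t - v t) = s t by omega] at h
    · exact ⟨0, fun h1 h2 h3 => absurd ⟨h1, h2, h3⟩ hh⟩
  choose k hk using key
  exact ⟨k, hk⟩

theorem grmem_diff (ha : Odd a) {U : Filter τ} (x : τ → ℤ) (A : ℕ) (s e v : τ → ℕ)
    (hc : ∀ᶠ t in U, v t ≤ s t ∧ e t ≤ A * N t ∧
      ∀ i, s t ≤ i → i < e t → par a (x t) i = par a (x t) (i - v t))
    (m : τ → ℕ) (hm : ∀ᶠ t in U, s t ≤ m t ∧ m t ≤ e t) {S : Set (τ → ℚ)} (h1 : X a x s ∈ S)
    (h2 : (X a x fun t => s t - v t) ∈ S) :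
    Mem a U N S fun t => X a x m t - X a x (fun t => m t - v t) t := by
  obtain ⟨k, hk⟩ := copy_rel ha x s v m
  have hev : ∀ᶠ t in U, m t - s t ≤ A * N t ∧ k t ≤ m t - s t ∧
      2 ^ (m t - s t) * ((T a)^[m t] (x t) - (T a)^[m t - v t] (x t)) =
        (a : ℤ) ^ k t * ((T a)^[s t] (x t) - (T a)^[s t - v t] (x t)) := by
    filter_upwards [hc, hm] with t h3 h4
    exact ⟨by omega, hk t h3.1 h4.1 fun i hi hi' => h3.2.2 i hi (by omega)⟩
  have b1 : Bd U N fun t => ((m t - s t : ℕ) : ℤ) := Bd.of_le A (hev.mono fun t h => h.1)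
  have b2 : Bd U N fun t => (k t : ℤ) := Bd.of_le A (hev.mono fun t h => h.2.1.trans h.1)
  refine Mem.congr _ _ (Mem.unit _ _ _ b1.neg b2 ((Mem.gen _ h1).sub (Mem.gen _ h2))) ?_
  filter_upwards [hev] with t ht
  have h3 : (2 : ℚ) ^ (m t - s t) * (X a x m t - X a x (fun t => m t - v t) t) =
      (a : ℚ) ^ k t * (X a x s t - X a x (fun t => s t - v t) t) := by
    simp only [X]
    exact_mod_cast ht.2.2
  have h4 : (2 : ℚ) ^ (m t - s t) ≠ 0 := by positivity
  rw [un, zpow_neg, zpow_natCast, zpow_natCast, mul_assoc, ← h3, inv_mul_cancel_left₀ h4]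

/-- Copies with a large lag: induction on `h`, for all `m` with `m ≤ s + h v` eventually. Either
`m ≤ s` eventually, or `s < m` eventually and `copy_rel` reduces `m` to `m - v`. -/
theorem copy_big (ha : Odd a) (ha3 : 3 ≤ a) (U : Ultrafilter τ) (x : τ → ℤ) (A : ℕ)
    (s e v : τ → ℕ)
    (hc : ∀ᶠ t in U, v t ≤ s t ∧ e t ≤ A * N t ∧
      ∀ i, s t ≤ i → i < e t → par a (x t) i = par a (x t) (i - v t))
    (h : ℕ) (m : τ → ℕ) (hm : ∀ᶠ t in U, m t ≤ e t ∧ m t ≤ s t + h * v t) :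
    ∃ m' : τ → ℕ, (∀ᶠ t in U, m' t ≤ s t) ∧
      Mem a U N {X a x m', X a x s, X a x fun t => s t - v t} (X a x m) := by
  have _h3 := ha3
  induction h generalizing m with
  | zero => exact ⟨m, hm.mono fun t ht => by omega, Mem.gen _ (by simp)⟩
  | succ h ih =>
    rcases U.em fun t => m t ≤ s t with h1 | h1
    · exact ⟨m, h1, Mem.gen _ (by simp)⟩
    · obtain ⟨m', h2, h3⟩ := ih (fun t => m t - v t) (hm.mono fun t ht => by
        have := ht.2
        rw [Nat.succ_mul] at this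
        omega)
      have h4 : ∀ᶠ t in U, s t ≤ m t ∧ m t ≤ e t := by
        filter_upwards [hm, h1] with t a1 a2
        omega
      refine ⟨m', h2, Mem.congr _ _ (Mem.add _ _ h3
        (grmem_diff ha x A s e v hc m h4 (by simp) (by simp))) ?_⟩
      exact Eventually.of_forall fun t => by ring

/-- Copies with a tiny lag: with `aff_step` for `m - v, m`, that is `2^v X m = a^k X (m - v) + c`,
and `copy_rel`, `(2^v - a^k) X m = c - a^k (X m - X (m - v))`; `D = 2^v - a^k` is odd. -/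
theorem copy_tiny (ha : Odd a) (ha3 : 3 ≤ a) (U : Ultrafilter τ) (hN : Tendsto N U atTop)
    (x : τ → ℤ) (A : ℕ) (s e v : τ → ℕ)
    (hc : ∀ᶠ t in U, 1 ≤ v t ∧ v t ≤ s t ∧ e t ≤ A * N t ∧
      ∀ i, s t ≤ i → i < e t → par a (x t) i = par a (x t) (i - v t))
    (hv : Tendsto (fun t => (v t : ℝ) / N t) U (𝓝 0)) (m : τ → ℕ)
    (hm : ∀ᶠ t in U, s t ≤ m t ∧ m t ≤ e t) :
    ∃ D c : τ → ℤ, Mem a U N {fun _ => 1} (fun t => (D t : ℚ)) ∧ Ht U N D 0 ∧
      (∀ᶠ t in U, D t ≠ 0) ∧ Ht U N c 0 ∧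
      Mem a U N {X a x s, X a x fun t => s t - v t, fun t => (c t : ℚ)}
        fun t => (D t : ℚ) * X a x m t := by
  obtain ⟨k, c, hk⟩ := aff_step ha ha3 x (fun t => m t - v t) m
  have hev : ∀ᶠ t in U, 1 ≤ v t ∧ v t ≤ A * N t ∧ k t ≤ v t ∧ |c t| ≤ (a : ℤ) ^ v t ∧
      2 ^ v t * (T a)^[m t] (x t) = (a : ℤ) ^ k t * (T a)^[m t - v t] (x t) + c t := by
    filter_upwards [hc, hm] with t h3 h4
    have := hk t (Nat.sub_le _ _)
    rw [show m t - (m t - v t) = v t by omega] at this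
    exact ⟨h3.1, by omega, this⟩
  have b0 : Bd U N fun _ => (0 : ℤ) := Bd.const hN 0
  have b1 : Bd U N fun t => (v t : ℤ) := Bd.of_le A (hev.mono fun t h => h.2.1)
  have b2 : Bd U N fun t => (k t : ℤ) := Bd.of_le A (hev.mono fun t h => h.2.2.1.trans h.2.1)
  have ha1 : 1 ≤ a := by omega
  have h3 : (3 : ℤ) ≤ a := by exact_mod_cast ha3
  refine ⟨fun t => 2 ^ v t - (a : ℤ) ^ k t, c, ?_, ?_, ?_, ?_, ?_⟩
  · have h1 : Mem a U N {fun _ => 1} fun _ => 1 := Mem.gen _ (Set.mem_singleton _)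
    refine Mem.congr _ _ ((Mem.unit _ _ _ b1 b0 h1).sub
      (Mem.unit _ _ _ b0 b2 h1)) (Eventually.of_forall fun t => ?_)
    simp [un]
  · have := Ht.of_pow hN ha1 hv (z := fun t => 2 ^ v t - (a : ℤ) ^ k t) (hev.mono fun t ht => by
      have a1 : (2 : ℤ) ^ v t ≤ (a : ℤ) ^ v t := pow_le_pow_left₀ (by norm_num) (by linarith) _
      have a2 : (a : ℤ) ^ k t ≤ (a : ℤ) ^ v t := pow_le_pow_right₀ (by linarith) ht.2.2.1
      have a3 : (0 : ℤ) < 2 ^ v t := by positivity
      have a4 : (0 : ℤ) < (a : ℤ) ^ k t := by positivity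
      rw [abs_le]
      constructor <;> linarith)
    simpa using this
  · filter_upwards [hev] with t ht h
    have a1 : Odd ((a : ℤ) ^ k t) := Odd.pow (by exact_mod_cast ha)
    have a2 : Even ((2 : ℤ) ^ v t) := even_two.pow_of_ne_zero (by omega)
    rw [sub_eq_zero.1 h] at a2
    exact Int.not_even_iff_odd.2 a1 a2
  · simpa using Ht.of_pow hN ha1 hv (hev.mono fun t ht => ht.2.2.2.1)
  · have hd := grmem_diff (N := N) ha x A s e v (hc.mono fun t ht => ht.2) m hm
      (S := {X a x s, X a x fun t => s t - v t, fun t => (c t : ℚ)}) (by simp) (by simp)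
    refine Mem.congr _ _ ((Mem.gen (fun t => (c t : ℚ)) (by simp)).sub
      (Mem.unit _ _ _ b0 b2 hd)) ?_
    filter_upwards [hev] with t ht
    have a1 : (2 : ℚ) ^ v t * X a x m t =
        (a : ℚ) ^ k t * X a x (fun t => m t - v t) t + c t := by
      simp only [X]
      exact_mod_cast ht.2.2.2.2
    simp only [un, zpow_zero, zpow_natCast, one_mul]
    push_cast
    linear_combination -a1

end Pool.Agent.Lib.MP_dee342_nt.Gr
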