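import Pool.Agent.Lib.MP_dee342_nt.GrUnit

/-!
Maximal independent families and primitive relations.
-/

set_option autoImplicit false

namespace Pool.Agent.Lib.MP_dee342_nt.Gr

open Filter Topology Finset

variable {τ : Type}

variable {a : ℕ} {U : Ultrafilter τ} {N : τ → ℕ} {ρ : ℕ}

/-- Take `I` of maximal cardinality among the finsets without nonzero relation. For `l ∉ I` a
nonzero relation on `insert l I` has a nonzero coefficient at `l`. -/
theorem exists_indep (F : Fr a U N ρ) {ι : Type} [Fintype ι] [DecidableEq ι] (z : ι → τ → ℤ) :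
    ∃ I : Finset ι, (∀ H : I → Pol ρ, F.Van (fun i : I => z i) H → H = 0) ∧
      ∀ l, ∃ (P : Pol ρ) (f : I → Pol ρ), P ≠ 0 ∧ F.Rep (fun i : I => z i) (z l) P f := by
  classical
  obtain ⟨I, hI, hmax⟩ := exists_max_image ((univ : Finset (Finset ι)).filter fun I =>
    ∀ H : ι → Pol ρ, (∀ᶠ t in U, ∑ i ∈ I, F.ev t (H i) * (z i t : ℚ) = 0) → ∀ i ∈ I, H i = 0)
    card ⟨∅, by simp⟩
  have hI' := (mem_filter.1 hI).2
  refine ⟨I, fun H hH => funext fun i => ?_, fun l => ?_⟩
  · have := hI' (fun i => if h : i ∈ I then H ⟨i, h⟩ else 0) (hH.mono fun t ht => by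
      rw [← sum_coe_sort, ← ht]
      exact sum_congr rfl fun i _ => by rw [dif_pos i.2]) i i.2
    rwa [dif_pos i.2] at this
  by_cases hl : l ∈ I
  · refine ⟨1, Pi.single ⟨l, hl⟩ 1, one_ne_zero, Eventually.of_forall fun t => ?_⟩
    rw [sum_eq_single ⟨l, hl⟩ (fun i _ hi => by rw [Pi.single_eq_of_ne hi, map_zero, zero_mul])
      fun h => (h (mem_univ _)).elim, Pi.single_eq_same]
  have h1 : ¬ ∀ H : ι → Pol ρ, (∀ᶠ t in U, ∑ i ∈ insert l I, F.ev t (H i) * (z i t : ℚ) = 0) →
      ∀ i ∈ insert l I, H i = 0 := fun h => by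
    have := hmax _ (mem_filter.2 ⟨mem_univ _, h⟩)
    rw [card_insert_of_notMem hl] at this
    omega
  push Not at h1
  obtain ⟨H, hH, i, hi, hi0⟩ := h1
  simp only [sum_insert hl] at hH
  refine ⟨H l, fun i => -H i, fun h0 => hi0 ?_, hH.mono fun t ht => ?_⟩
  · rcases mem_insert.1 hi with rfl | hi
    · exact h0
    · exact hI' H (hH.mono fun t ht => by rwa [h0, map_zero, zero_mul, zero_add] at ht) i hi
  · rw [← sum_coe_sort] at ht
    simp only [map_neg, neg_mul, sum_neg_distrib]
    exact eq_neg_of_add_eq_zero_left ht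

/-- Among the relations `G` with `G none ≠ 0` take one with `G none` minimal for `DvdNotUnit`
(`wellFounded_dvdNotUnit`). For a relation `H` with `H none ≠ 0` write `G none = c a'`,
`H none = c b'` with `IsRelPrime a' b'` (`UniqueFactorizationMonoid.exists_reduced_factors`);
`b' G - a' H` has no `none` coefficient, so it is zero, `a'` divides every `G o`, `G / a'` is a
relation (`Fr.ev_ne`), and minimality makes `a'` a unit. -/
theorem exists_prim (ha : Odd a) (ha3 : 3 ≤ a) (F : Fr a U N ρ) {I : Type} [Fintype I]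
    [DecidableEq I] (e : I → τ → ℤ) (he : ∀ H, F.Van e H → H = 0) (y : τ → ℤ) (P : Pol ρ)
    (hP : P ≠ 0) (f : I → Pol ρ) (hy : F.Rep e y P f) :
    ∃ G : Option I → Pol ρ, F.Van (optz y e) G ∧ G none ≠ 0 ∧
      ∀ H, F.Van (optz y e) H → ∃ g, ∀ o, H o = g * G o := by
  obtain ⟨_, ⟨G, hG, rfl, hG0⟩, hmin⟩ := (wellFounded_dvdNotUnit (α := Pol ρ)).has_min
    {p | ∃ G : Option I → Pol ρ, F.Van (optz y e) G ∧ G none = p ∧ p ≠ 0}
    ⟨P, fun o => o.elim P fun i => -f i, hy.mono fun t ht => by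
      simp only [Fintype.sum_option, optz, Option.elim_none, Option.elim_some, map_neg, neg_mul,
        sum_neg_distrib, ht, add_neg_cancel], rfl, hP⟩
  refine ⟨G, hG, hG0, fun H hH => ?_⟩
  obtain ⟨a', b', c, hab, e1, e2⟩ :=
    UniqueFactorizationMonoid.exists_reduced_factors (G none) hG0 (H none)
  have k0 : b' * G none - a' * H none = 0 := by
    rw [← e1, ← e2]
    ring
  have k1 := he (fun i => b' * G (some i) - a' * H (some i)) ((hG.and hH).mono fun t ht => by
    have k2 := congrArg (F.ev t) k0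
    simp only [Fintype.sum_option, optz, Option.elim_none, Option.elim_some] at ht
    simp only [map_sub, map_mul, map_zero, sub_mul, sum_sub_distrib, mul_assoc, ← mul_sum] at k2 ⊢
    linear_combination F.ev t b' * ht.1 - F.ev t a' * ht.2 - (y t : ℚ) * k2)
  have k2 : ∀ o, b' * G o = a' * H o := fun o => sub_eq_zero.1 (by
    cases o with
    | none => exact k0
    | some i => exact congrFun k1 i)
  choose G' hG' using fun o => hab.dvd_of_dvd_mul_left ⟨H o, k2 o⟩
  have ha0 : a' ≠ 0 := fun h => hG0 (by rw [← e1, h, mul_zero])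
  have hG'0 : G' none ≠ 0 := fun h => hG0 (by rw [hG', h, mul_zero])
  have hu : IsUnit a' := by
    by_contra hu
    refine hmin (G' none) ⟨G', (hG.and (F.ev_ne ha ha3 a' ha0)).mono fun t ht => ?_, rfl, hG'0⟩
      ⟨hG'0, a', hu, by rw [hG', mul_comm]⟩
    refine mul_left_cancel₀ ht.2 ?_
    rw [mul_zero, ← ht.1, mul_sum]
    exact sum_congr rfl fun o _ => by rw [hG' o, map_mul, mul_assoc]
  obtain ⟨u, rfl⟩ := hu
  exact ⟨↑u⁻¹ * b', fun o => by rw [mul_assoc, k2, Units.inv_mul_cancel_left]⟩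

end Pool.Agent.Lib.MP_dee342_nt.Gr
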