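import Pool.Agent.Lib.MP_dee342_nt.GrBasic
import Pool.Agent.Lib.MP_dee342_nt.GrSub

/-!
Units whose quotients are not eventually constant are linearly independent.

Proof of `unit_indep`: strong induction on `T.card` (for all `T`, `g`). Suppose the sum vanishes
eventually and `g i ≠ 0` for some `i ∈ T`; replacing `T` by the support we may assume `g i ≠ 0` on `T`.
`T` is not a singleton (`un_pos`). Along the ultrafilter fix `i2` minimising `n i t`, `ia` minimising
`k i t`, `i0` maximising `Y i t = 2^(n i t - n i2 t) * a^(k i t - k ia t)` (natural exponents, use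
`toNat`; `Ultrafilter.eventually_exists_mem_iff` or `Ultrafilter.finite_biUnion_mem_iff`). Put
`q t = log (Y i0 t)`. If `q` did not tend to infinity, it would be bounded on a set of `U`, all the
exponents would be bounded, hence eventually constant, against `hne` for two elements of `T`.
Apply `sub_three` with `J = T`, `κ = Unit`, `r () = g`, `I0 = univ.erase i0`, `I2 = univ.erase i2`,
`Ia = univ.erase ia` (independence by the induction hypothesis), `K = δ = 1`; the exponent of `2`
vanishes at `i2`, that of `a` at `ia`, so both sides of the product inequality are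
`(∏ Y i) / Y i0`.
-/

set_option autoImplicit false

namespace Pool.Agent.Lib.MP_dee342_nt.Gr

open Filter Topology Finset

variable {τ : Type}

theorem grunit_const (U : Ultrafilter τ) {f : τ → ℕ} {M : ℕ} (h : ∀ᶠ t in U, f t < M) :
    ∃ c, ∀ᶠ t in U, f t = c := by
  obtain ⟨c, hc⟩ := (Ultrafilter.eventually_exists_iff (f := U)
    (P := fun (c : Fin M) t => f t = c)).1 (h.mono fun t ht => ⟨⟨f t, ht⟩, rfl⟩)
  exact ⟨c, hc⟩

theorem grunit_min (U : Ultrafilter τ) {J : Type} [Finite J] [Nonempty J] (n : J → τ → ℤ) :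
    ∃ i, ∀ᶠ t in U, ∀ j, n i t ≤ n j t :=
  (Ultrafilter.eventually_exists_iff (f := U) (P := fun i t => ∀ j, n i t ≤ n j t)).1
    (Eventually.of_forall fun t => Finite.exists_min fun j => n j t)

theorem grunit_step (a : ℕ) (ha : Odd a) (ha3 : 3 ≤ a) (U : Ultrafilter τ) {J : Type} [Fintype J]
    [DecidableEq J] [Nontrivial J] (n k : J → τ → ℤ)
    (hne : ∀ i j, i ≠ j → ∀ c₁ c₂ : ℤ, ¬ ∀ᶠ t in U, n i t - n j t = c₁ ∧ k i t - k j t = c₂)
    (ih : ∀ (i : J) (w : J → ℚ), (∀ᶠ t in U, ∑ j ∈ univ.erase i, w j * un a (n j t) (k j t) = 0) →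
      ∀ j ∈ univ.erase i, w j = 0)
    (g : J → ℚ) (h : ∀ᶠ t in U, ∑ i, g i * un a (n i t) (k i t) = 0) : g = 0 := by
  by_contra hg
  have ha0 : a ≠ 0 := by omega
  obtain ⟨i2, h2⟩ := grunit_min U n
  obtain ⟨ia, h3⟩ := grunit_min U k
  obtain ⟨e2, he2⟩ : ∃ e2 : J → τ → ℕ, ∀ j t, e2 j t = (n j t - n i2 t).toNat := ⟨_, fun _ _ => rfl⟩
  obtain ⟨ea, hea⟩ : ∃ ea : J → τ → ℕ, ∀ j t, ea j t = (k j t - k ia t).toNat := ⟨_, fun _ _ => rfl⟩
  obtain ⟨y, hy⟩ : ∃ y : J → τ → ℕ, ∀ j t, y j t = 2 ^ e2 j t * a ^ ea j t := ⟨_, fun _ _ => rfl⟩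
  have hy0 : ∀ j t, 0 < y j t := fun j t => by rw [hy]; positivity
  obtain ⟨i0, h0⟩ := grunit_min U fun j t => -(y j t : ℤ)
  have h0' : ∀ᶠ t in U, ∀ j, y j t ≤ y i0 t := h0.mono fun t ht j => by
    have := ht j
    omega
  have hnk : ∀ᶠ t in U, ∀ j, n j t = n i2 t + e2 j t ∧ k j t = k ia t + ea j t := by
    filter_upwards [h2, h3] with t t2 t3 j
    have := t2 j
    have := t3 j
    rw [he2, hea]
    omega
  have hsum : ∀ᶠ t in U, ∀ (I : Finset J) (w : J → ℚ), ∑ j ∈ I, w j * un a (n j t) (k j t) =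
      un a (n i2 t) (k ia t) * ∑ j ∈ I, w j * ((y j t : ℤ) : ℚ) := by
    filter_upwards [hnk] with t ht I w
    rw [mul_sum]
    refine sum_congr rfl fun j _ => ?_
    have e : un a (n j t) (k j t) = un a (n i2 t + e2 j t) (k ia t + ea j t) := by
      rw [← (ht j).1, ← (ht j).2]
    rw [e, un_add ha0, un_nat, hy]
    push_cast
    ring
  have hq : Tendsto (y i0) U atTop := by
    refine tendsto_atTop.2 fun M => ?_
    by_contra hM
    have hM' : ∀ᶠ t in U, ∀ j, e2 j t < M ∧ ea j t < M := by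
      filter_upwards [Ultrafilter.eventually_not.2 hM, h0'] with t ht ht' j
      have b1 := ht' j
      have b2 : e2 j t < 2 ^ e2 j t := Nat.lt_two_pow_self
      have b3 : ea j t < a ^ ea j t := Nat.lt_pow_self (by omega)
      have b4 : 2 ^ e2 j t ≤ y j t := by
        rw [hy]
        exact Nat.le_mul_of_pos_right _ (by positivity)
      have b5 : a ^ ea j t ≤ y j t := by
        rw [hy]
        exact Nat.le_mul_of_pos_left _ (by positivity)
      omega
    obtain ⟨i, j, hij⟩ := exists_pair_ne J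
    obtain ⟨c1, d1⟩ := grunit_const U (hM'.mono fun t ht => (ht i).1)
    obtain ⟨c2, d2⟩ := grunit_const U (hM'.mono fun t ht => (ht j).1)
    obtain ⟨c3, d3⟩ := grunit_const U (hM'.mono fun t ht => (ht i).2)
    obtain ⟨c4, d4⟩ := grunit_const U (hM'.mono fun t ht => (ht j).2)
    refine hne i j hij (c1 - c2) (c3 - c4) ?_
    filter_upwards [hnk, d1, d2, d3, d4] with t ht t1 t2 t3 t4
    have := ht i
    have := ht j
    omega
  have hcard : ∀ i : J, (univ.erase i).card = Fintype.card J - 1 := fun i => by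
    rw [card_erase_of_mem (mem_univ _), card_univ]
  have hind : ∀ (i : J) (w : J → ℚ),
      (∀ᶠ t in U, ∑ j ∈ univ.erase i, w j * ((y j t : ℤ) : ℚ) = 0) → ∀ j ∈ univ.erase i, w j = 0 :=
    fun i w hw => ih i w (by
      filter_upwards [hsum, hw] with t t1 t2
      rw [t1, t2, mul_zero])
  have hexp : ∀ t, Real.exp (Real.log (y i0 t)) = y i0 t := fun t =>
    Real.exp_log (Nat.cast_pos.2 (hy0 i0 t))
  refine sub_three a ha U (fun t => Real.log (y i0 t))
    (Real.tendsto_log_atTop.comp (tendsto_natCast_atTop_atTop.comp hq)) (fun j t => (y j t : ℤ))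
    (univ.erase i0) (univ.erase i2) (univ.erase ia) (by rw [hcard, hcard]) (by rw [hcard, hcard])
    (by rintro I (rfl | rfl | rfl) <;> exact hind _) (fun _ : Unit => g)
    (linearIndependent_unique_iff.2 hg) ?_ (fun _ => ?_) 1 1 one_pos ?_ e2 ea
    (Eventually.of_forall fun t j _ => ?_) (Eventually.of_forall fun t j _ => ?_)
    (Eventually.of_forall fun t => ?_)
  · have := Fintype.card_pos (α := J)
    rw [hcard, Fintype.card_unit]
    omega
  · filter_upwards [hsum, h] with t t1 t2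
    rw [t1] at t2
    exact (mul_eq_zero.1 t2).resolve_left (un_pos ha0 _ _).ne'
  · filter_upwards [h0'] with t ht j
    rw [one_mul, hexp, Int.cast_natCast, Nat.abs_cast]
    exact Nat.cast_le.2 (ht j)
  · rw [hy]
    push_cast
    exact dvd_mul_right _ _
  · rw [hy]
    push_cast
    exact dvd_mul_left _ _
  · have z2 : e2 i2 t = 0 := by rw [he2, sub_self, Int.toNat_zero]
    have za : ea ia t = 0 := by rw [hea, sub_self, Int.toNat_zero]
    have hp : (y i0 t : ℝ) * ∏ j ∈ univ.erase i0, (y j t : ℝ) =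
        2 ^ (∑ j, e2 j t) * (a : ℝ) ^ (∑ j, ea j t) := by
      rw [mul_prod_erase univ (fun j => (y j t : ℝ)) (mem_univ i0), ← prod_pow_eq_pow_sum,
        ← prod_pow_eq_pow_sum, ← prod_mul_distrib]
      refine prod_congr rfl fun j _ => ?_
      rw [hy]
      push_cast
      rfl
    have hpos : (0 : ℝ) < y i0 t := Nat.cast_pos.2 (hy0 i0 t)
    simp only [Int.cast_natCast, Nat.abs_cast]
    rw [sum_erase (f := fun j => e2 j t) _ z2, sum_erase (f := fun j => ea j t) _ za, neg_mul,
      one_mul, Real.exp_neg, hexp, mul_assoc, ← hp, inv_mul_cancel_left₀ hpos.ne']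

theorem grunit_fin (a : ℕ) (ha : Odd a) (ha3 : 3 ≤ a) (U : Ultrafilter τ) (c : ℕ) :
    ∀ (J : Type) [Fintype J] [DecidableEq J], Fintype.card J = c → ∀ n k : J → τ → ℤ,
      (∀ i j, i ≠ j → ∀ c₁ c₂ : ℤ, ¬ ∀ᶠ t in U, n i t - n j t = c₁ ∧ k i t - k j t = c₂) →
      ∀ g : J → ℚ, (∀ᶠ t in U, ∑ i, g i * un a (n i t) (k i t) = 0) → g = 0 := by
  induction c using Nat.strong_induction_on with
  | _ c ih =>
    intro J _ _ hc n k hne g h
    rcases subsingleton_or_nontrivial J with hJ | hJ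
    · funext i
      obtain ⟨t, ht⟩ := h.exists
      rw [Fintype.sum_subsingleton _ i] at ht
      exact (mul_eq_zero.1 ht).resolve_right (un_pos (by omega) _ _).ne'
    refine grunit_step a ha ha3 U n k hne (fun i w hw j hj => ?_) g h
    have hlt : Fintype.card (univ.erase i : Finset J) < c := by
      rw [Fintype.card_coe, ← hc, ← card_univ]
      exact card_erase_lt_of_mem (mem_univ _)
    have h1 := ih _ hlt (univ.erase i : Finset J) rfl (fun j => n j) (fun j => k j)
      (fun i j hij => hne i j (Subtype.coe_ne_coe.2 hij)) (fun j => w j) (hw.mono fun t ht => by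
        rw [← ht]
        exact sum_coe_sort _ fun j => w j * un a (n j t) (k j t))
    exact congrFun h1 ⟨j, hj⟩

theorem unit_indep (a : ℕ) (ha : Odd a) (ha3 : 3 ≤ a) (U : Ultrafilter τ) {J : Type}
    [DecidableEq J] (n k : J → τ → ℤ) (T : Finset J)
    (hne : ∀ i ∈ T, ∀ j ∈ T, i ≠ j → ∀ c₁ c₂ : ℤ,
      ¬ ∀ᶠ t in U, n i t - n j t = c₁ ∧ k i t - k j t = c₂)
    (g : J → ℚ) (h : ∀ᶠ t in U, ∑ i ∈ T, g i * un a (n i t) (k i t) = 0) :
    ∀ i ∈ T, g i = 0 := by
  intro i hi
  have h1 := grunit_fin a ha ha3 U _ T rfl (fun j => n j) (fun j => k j)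
    (fun i j hij => hne i i.2 j j.2 (Subtype.coe_ne_coe.2 hij)) (fun j => g j) (h.mono fun t ht => by
      rw [← ht]
      exact sum_coe_sort _ fun j => g j * un a (n j t) (k j t))
  exact congrFun h1 ⟨i, hi⟩

/-- Evaluation in a frame is injective (use `unit_indep`, `Fr.ev_eq_sum` and `F.inj` applied to
the difference of two exponent vectors). -/
theorem Fr.ev_ne {a : ℕ} (ha : Odd a) (ha3 : 3 ≤ a) {U : Ultrafilter τ} {N : τ → ℕ} {ρ : ℕ}
    (F : Fr a U N ρ) (f : Pol ρ) (hf : f ≠ 0) : ∀ᶠ t in U, F.ev t f ≠ 0 := by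
  classical
  refine Ultrafilter.eventually_not.2 fun h => hf ?_
  have h1 := unit_indep a ha ha3 U F.nE F.kE f.support (fun i _ j _ hij c₁ c₂ hc => by
    refine F.inj (fun l => (i l : ℤ) - j l) (fun e => hij (Finsupp.ext fun l => ?_)) c₁ c₂
      (hc.mono fun t ht => ?_)
    · have := congrFun e l
      simp only [Pi.zero_apply] at this
      omega
    · simpa only [Fr.nE, Fr.kE, sub_mul, sum_sub_distrib] using ht) (fun m => f.coeff m)
    (h.mono fun t ht => by rw [← F.ev_eq_sum (by omega), ht])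
  ext m
  by_contra hm
  exact hm (h1 m (MvPolynomial.mem_support_iff.2 hm))

end Pool.Agent.Lib.MP_dee342_nt.Gr
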