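import Pool.Agent.Lib.MP_dee342_nt.GrCirc
import Pool.Agent.Lib.MP_dee342_nt.GrDen

/-!
Consequences of the circuit inequality for coordinates and denominators.
-/

set_option autoImplicit false

namespace Pool.Agent.Lib.MP_dee342_nt.Gr

open Filter Topology Finset

variable {τ : Type}

variable {a : ℕ} {U : Ultrafilter τ} {N : τ → ℕ} {ρ : ℕ}

theorem grval_circ (ha : Odd a) (ha3 : 3 ≤ a) (hN : Tendsto N U atTop) (F : Fr a U N ρ)
    {I : Type} [Fintype I] [DecidableEq I] (e : I → τ → ℤ)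
    (g : I → ℝ) (hg0 : ∀ i, 0 ≤ g i) (hg : ∀ i, Ht U N (e i) (g i))
    (y : τ → ℤ) (hy : ℝ) (hy0 : 0 ≤ hy) (hyh : Ht U N y hy)
    (G : Option I → Pol ρ) (hG : F.Van (optz y e) G)
    (hgen : ∀ H, F.Van (optz y e) H → ∃ u, ∀ o, H o = u * G o)
    (l0 l2 la : Option I) (m0 m2 ma : Fin ρ →₀ ℕ) (hm0 : m0 ∈ (G l0).support)
    (hm2 : m2 ∈ (G l2).support) (hma : ma ∈ (G la).support) :
    wt F.w2 m0 + wt F.wa m0 - wt F.w2 m2 - wt F.wa ma ≤ hy + ∑ i, g i - l0.elim hy g := by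
  have key := circ ha ha3 hN F (optz y e) (fun o : Option I => o.elim hy g)
    (fun o => by
      cases o with
      | none => exact hy0
      | some i => exact hg0 i)
    (fun o => by
      cases o with
      | none => exact hyh
      | some i => exact hg i)
    G hG hgen l0 l2 la m0 m2 ma hm0 hm2 hma
  rw [Fintype.sum_option] at key
  exact key

/-- Take `y` from `exists_den`, its primitive relation `G`, `P = G none` (it is a denominator of
`y`, with `f i = -G (some i)`), and `circ` with `l0 = l2 = la = none`. -/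
theorem den_cost (ha : Odd a) (ha3 : 3 ≤ a) (hN : Tendsto N U atTop) (F : Fr a U N ρ)
    {I : Type} [Fintype I] [DecidableEq I] (e : I → τ → ℤ) (he : ∀ H, F.Van e H → H = 0)
    (g : I → ℝ) (hg0 : ∀ i, 0 ≤ g i) (hg : ∀ i, Ht U N (e i) (g i))
    {ι : Type} [Fintype ι] (z : ι → τ → ℤ) (h : ι → ℝ) (hz : ∀ l, Ht U N (z l) (h l))
    (hden : ∀ l, ∃ P f, P ≠ 0 ∧ F.Rep e (z l) P f) :
    ∃ P : Pol ρ, P ≠ 0 ∧ (∀ l, ∃ f, F.Rep e (z l) P f) ∧
      ∀ m0 ∈ P.support, ∀ m2 ∈ P.support, ∀ ma ∈ P.support,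
        wt F.w2 m0 + wt F.wa m0 - wt F.w2 m2 - wt F.wa ma ≤ ∑ i, g i := by
  obtain ⟨y, hy, hy0, hyh, ⟨P0, f0, hP0, hrep0⟩, hall⟩ :=
    exists_den ha ha3 hN F e he z h hz hden
  obtain ⟨G, hG, hG0, hgen⟩ := exists_prim ha ha3 F e he y P0 hP0 f0 hrep0
  refine ⟨G none, hG0, hall (G none) (fun i => -G (some i)) ?_, ?_⟩
  · have hG' : ∀ᶠ t in (U : Filter τ), ∑ l, F.ev t (G l) * (optz y e l t : ℚ) = 0 := hG
    show ∀ᶠ t in (U : Filter τ), F.ev t (G none) * (y t : ℚ) =
      ∑ i, F.ev t (-G (some i)) * (e i t : ℚ)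
    filter_upwards [hG'] with t ht
    rw [Fintype.sum_option] at ht
    have h1 : ∑ i, F.ev t (-G (some i)) * (e i t : ℚ) =
        -∑ i, F.ev t (G (some i)) * (e i t : ℚ) := by
      rw [← Finset.sum_neg_distrib]
      exact Finset.sum_congr rfl fun i _ => by rw [map_neg, neg_mul]
    rw [h1]
    exact eq_neg_of_add_eq_zero_left ht
  · intro m0 hm0 m2 hm2 ma hma
    have key := grval_circ ha ha3 hN F e g hg0 hg y hy hy0 hyh G hG hgen none none none
      m0 m2 ma hm0 hm2 hma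
    simp only [Option.elim] at key
    linarith

/-- Let `G` be the primitive relation of `y`; `(P, -f) = u G`. A monomial `m` of `f i` is `μ + m₂`
with `μ` in the support of `u` and `m₂` in that of `G (some i)` (`MvPolynomial.support_mul`). For the
weight `ω` in question take `m' = ld u + ld (G none)` (`exists_lead ω`, with `ω = -(w2 + wa)` for
the third claim) and compare `m₂` with `ld (G none)` by `circ`: `l2 = some i`, `l0 = la = none`,
`m0 = ma = ld (G none)` for the first claim, and similarly for the others. -/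
theorem val (ha : Odd a) (ha3 : 3 ≤ a) (hN : Tendsto N U atTop) (F : Fr a U N ρ)
    {I : Type} [Fintype I] [DecidableEq I] (e : I → τ → ℤ) (he : ∀ H, F.Van e H → H = 0)
    (g : I → ℝ) (hg0 : ∀ i, 0 ≤ g i) (hg : ∀ i, Ht U N (e i) (g i))
    (y : τ → ℤ) (hy : ℝ) (hy0 : 0 ≤ hy) (hyh : Ht U N y hy) (P : Pol ρ) (hP : P ≠ 0)
    (f : I → Pol ρ) (hrep : F.Rep e y P f) (i : I) (m : Fin ρ →₀ ℕ) (hm : m ∈ (f i).support) :
    (∃ m' ∈ P.support, wt F.w2 m' - ∑ i, g i ≤ wt F.w2 m) ∧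
      (∃ m' ∈ P.support, wt F.wa m' - ∑ i, g i ≤ wt F.wa m) ∧
      ∃ m' ∈ P.support, wt F.w2 m + wt F.wa m ≤ wt F.w2 m' + wt F.wa m' + hy + ∑ i, g i := by
  classical
  obtain ⟨G, hG, hG0, hgen⟩ := exists_prim ha ha3 F e he y P hP f hrep
  have hH : F.Van (optz y e) (fun o : Option I => o.elim P fun j => -f j) := by
    have hr : ∀ᶠ t in (U : Filter τ), F.ev t P * (y t : ℚ) =
      ∑ j, F.ev t (f j) * (e j t : ℚ) := hrep
    show ∀ᶠ t in (U : Filter τ), ∑ l : Option I,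
      F.ev t (l.elim P fun j => -f j) * (optz y e l t : ℚ) = 0
    filter_upwards [hr] with t ht
    rw [Fintype.sum_option]
    have h1 : ∑ j, F.ev t (-f j) * (e j t : ℚ) = -∑ j, F.ev t (f j) * (e j t : ℚ) := by
      rw [← Finset.sum_neg_distrib]
      exact Finset.sum_congr rfl fun j _ => by rw [map_neg, neg_mul]
    show F.ev t P * (y t : ℚ) + ∑ j, F.ev t (-f j) * (e j t : ℚ) = 0
    rw [h1, ht, add_neg_cancel]
  obtain ⟨u, hu⟩ := hgen _ hH
  have hPu : P = u * G none := hu none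
  have hfu : -f i = u * G (some i) := hu (some i)
  have hu0 : u ≠ 0 := by
    rintro rfl
    exact hP (by rw [hPu, zero_mul])
  have hm' : m ∈ (u * G (some i)).support := by
    rw [← hfu, MvPolynomial.support_neg]
    exact hm
  obtain ⟨μ, hμ, m₂, hm₂, rfl⟩ := Finset.mem_add.1 (MvPolynomial.support_mul _ _ hm')
  have key := grval_circ ha ha3 hN F e g hg0 hg y hy hy0 hyh G hG hgen
  refine ⟨?_, ?_, ?_⟩
  · obtain ⟨ld, hld, hmul⟩ := exists_lead F.w2
    refine ⟨ld u + ld (G none), by rw [hPu]; exact hmul _ _ hu0 hG0, ?_⟩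
    have h1 := (hld u hu0).2 μ hμ
    have h2 := key none (some i) none _ _ _ (hld _ hG0).1 hm₂ (hld _ hG0).1
    simp only [Option.elim] at h2
    rw [wt_add, wt_add]
    linarith
  · obtain ⟨ld, hld, hmul⟩ := exists_lead F.wa
    refine ⟨ld u + ld (G none), by rw [hPu]; exact hmul _ _ hu0 hG0, ?_⟩
    have h1 := (hld u hu0).2 μ hμ
    have h2 := key none none (some i) _ _ _ (hld _ hG0).1 (hld _ hG0).1 hm₂
    simp only [Option.elim] at h2
    rw [wt_add, wt_add]
    linarith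
  · obtain ⟨ld, hld, hmul⟩ := exists_lead (-(F.w2 + F.wa))
    refine ⟨ld u + ld (G none), by rw [hPu]; exact hmul _ _ hu0 hG0, ?_⟩
    have h1 := (hld u hu0).2 μ hμ
    rw [wt_neg, wt_neg, wt_add_fun, wt_add_fun] at h1
    have h2 := key (some i) none none _ _ _ hm₂ (hld _ hG0).1 (hld _ hG0).1
    simp only [Option.elim] at h2
    have h3 := hg0 i
    rw [wt_add, wt_add, wt_add, wt_add]
    linarith

end Pool.Agent.Lib.MP_dee342_nt.Gr
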