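import Pool.Agent.Lib.MP_dee342_nt.MinBound

/-! The least element of a cycle compared with a power of the logarithm of the period. -/

namespace Pool.Agent.Lib.MP_dee342_nt

open Function

/-- Some element is small compared with a number `N` that is at least `(log p) ^ (2 + ε)`. -/
theorem exists_small (a : ℕ) (ha : Odd a) (ha3 : 3 ≤ a) {ε : ℝ} (hε : 0 < ε) :
    ∃ K : ℝ, ∀ x ∈ periodicPts (T a), ∀ N : ℕ,
      N ≤ minimalPeriod (T a) x → K ≤ Real.log N →
      Real.log (minimalPeriod (T a) x) ^ (2 + ε) ≤ N →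
      ∃ i, |(((T a)^[i] x : ℤ) : ℝ)| ≤ Real.exp ((N : ℝ) ^ (1 - min ε 1 / 4)) := by
  obtain ⟨C, hC0, hC⟩ := min_bound a ha ha3
  obtain ⟨e, he⟩ : ∃ e, e = min ε 1 := ⟨_, rfl⟩
  have he0 : 0 < e := he ▸ lt_min hε one_pos
  have he1 : e ≤ 1 := he ▸ min_le_right _ _
  have he2 : e ≤ ε := he ▸ min_le_left _ _
  refine ⟨48 * C / e + 1, fun x hx N hN hK hl => ?_⟩
  rw [← he]
  have hp0 := minimalPeriod_pos_of_mem_periodicPts hx
  obtain ⟨i, -, hi⟩ := hC x _ hp0 iterate_minimalPeriod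
  obtain ⟨p, hp⟩ : ∃ p, p = minimalPeriod (T a) x := ⟨_, rfl⟩
  rw [← hp] at hi hN hl
  have hK0 : 0 ≤ 48 * C / e := by positivity
  have hN0 : (0 : ℝ) < N := by
    rcases Nat.eq_zero_or_pos N with rfl | h
    · simp at hK
      linarith
    · exact_mod_cast h
  have hN2 : (2 : ℝ) ≤ N := by linarith [Real.log_le_sub_one_of_pos hN0]
  have hNp : (N : ℝ) ≤ p := by exact_mod_cast hN
  have h1 : Real.log (p + 2) ≤ 2 * Real.log p := by
    rw [two_mul, ← Real.log_mul (by linarith) (by linarith)]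
    exact Real.log_le_log (by linarith) (by nlinarith)
  have h2 : 0 ≤ Real.log (p + 2) := Real.log_nonneg (by linarith)
  have h3 : 0 ≤ Real.log p := Real.log_nonneg (by linarith)
  have h4 : Real.log p ^ 2 ≤ (N : ℝ) ^ (1 - e / 3) := by
    have b1 := Real.rpow_le_rpow (by positivity) hl (show 0 ≤ 2 / (2 + ε) by positivity)
    rw [← Real.rpow_mul h3, mul_div_cancel₀ _ (by positivity), Real.rpow_two] at b1
    refine b1.trans (Real.rpow_le_rpow_of_exponent_le (by linarith) ?_)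
    rw [div_le_iff₀ (by positivity)]
    nlinarith
  have h5 : 4 * C ≤ (N : ℝ) ^ (e / 12) := by
    rw [Real.rpow_def_of_pos hN0]
    have b1 : 48 * C ≤ Real.log N * e := by
      rw [← div_le_iff₀ he0]
      linarith
    linarith [Real.add_one_le_exp (Real.log N * (e / 12))]
  have h6 : C * Real.log (p + 2) ^ 2 ≤ (N : ℝ) ^ (1 - e / 4) := by
    rw [show 1 - e / 4 = e / 12 + (1 - e / 3) by ring, Real.rpow_add hN0]
    calc C * Real.log (p + 2) ^ 2 ≤ C * (2 * Real.log p) ^ 2 := by gcongr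
      _ = 4 * C * Real.log p ^ 2 := by ring
      _ ≤ _ := mul_le_mul h5 h4 (by positivity) (by positivity)
  exact ⟨i, hi.trans (Real.exp_le_exp.2 h6)⟩

end Pool.Agent.Lib.MP_dee342_nt
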