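import Pool.Agent.Lib.MP_dee342_nt.PieceDefs

/-! Parses of an initial part of the parity word. -/

namespace Pool.Agent.Lib.MP_dee342_nt

/-- A parse of the parity word of `x` on `[0, s q)` into `q` pieces `[s j, s (j+1))`; piece `j` is
literal if `v j = 0`, and otherwise a copy of the letters `v j` places earlier. The literal pieces
have total length at most `N`. -/
def LZParse (a x : ℤ) (q N : ℕ) (s v : ℕ → ℕ) : Prop :=
  s 0 = 0 ∧ (∀ j, s j ≤ s (j + 1)) ∧
    (∑ j ∈ (Finset.range q).filter fun j => v j = 0, (s (j + 1) - s j)) ≤ N ∧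
    ∀ j < q, v j ≠ 0 → v j ≤ s j ∧
      ∀ i, s j ≤ i → i < s (j + 1) → par a x i = par a x (i - v j)

end Pool.Agent.Lib.MP_dee342_nt
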