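import Pool.Agent.Lib.MP_dee342_nt.QMain
import Pool.Agent.Lib.MP_dee342_nt.LocMin

/-! Initial parts of the parity word have many pieces. -/

namespace Pool.Agent.Lib.MP_dee342_nt.Q

open Finset Function

/-- `period_le` for an initial part. -/
theorem initial_le (a : ℕ) (ha : Odd a) (ha3 : 3 ≤ a) {R r S Z : ℕ}
    (hR : 10 ^ 7 * (a + 4) ^ 4 ≤ R) (hr1 : 1 ≤ r) (hr : 8 * r ≤ R) (hS : Om R ≤ 2 ^ S)
    (hZ : R ^ 20 * Om R ≤ Z) {x : ℤ} (hx : x ∈ periodicPts (T a)) (hxZ : |x| + 1 ≤ 2 ^ Z)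
    {m : ℕ} {t : ℕ → ℕ} (ht : Monotone t) (ht0 : t 0 = 0) (htm : t m ≤ minimalPeriod (T a) x)
    (hp : ∀ j < m, ∃ v, 1 ≤ v ∧
      (∀ i, t j ≤ i → i + v < t (j + 1) → par a x (i + v) = par a x i) ∧
      (v * (16 * a * R ^ 4) ≤ Z ∨ v * (16 * a * R ^ 4) ≤ t (j + 1) - t j)) :
    t m ≤ (8 * a + 1) ^ (m / r + 1) * (2 * a + 1) ^ (r * (S * R ^ 13)) * Z := by
  rcases le_or_gt (minimalPeriod (T a) x) Z with hZp | hZp
  · exact (htm.trans hZp).trans (Nat.le_mul_of_pos_left _ (by positivity))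
  have hR0 : 0 < R := by omega
  have hM : 16 * a * R ^ 4 ≤ Z := by
    have h1 : a + 4 ≤ (a + 4) ^ 4 := Nat.le_self_pow (by norm_num) _
    have h2 : 0 < Om R := by
      unfold Om
      positivity
    calc 16 * a * R ^ 4 ≤ R * R ^ 4 := Nat.mul_le_mul_right _ (by omega)
      _ = R ^ 5 := by ring
      _ ≤ R ^ 20 := Nat.pow_le_pow_right hR0 (by norm_num)
      _ ≤ R ^ 20 * Om R := Nat.le_mul_of_pos_right _ h2
      _ ≤ Z := hZ
  have h := qcore_main a ha ha3 hR hr1 hr hS hZ hxZ hZp (fun i v h1 h2 h3 => h2.not_ge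
    ((minimalPeriod_apply_iterate hx i).symm.trans_le (IsPeriodicPt.minimalPeriod_le h1 h3)))
    (t := fun j => t (min j m)) (fun j k hjk => ht (min_le_min_right m hjk))
    (by simp [ht0]) (fun j => (ht (min_le_right j m)).trans htm) (fun j => ?_) (m / r + 1)
  · have h1 : m ≤ (m / r + 1) * r := by
      rw [mul_comm]
      exact (Nat.lt_mul_div_succ m hr1).le
    simp only [min_eq_right h1] at h
    omega
  · rcases lt_or_ge j m with hj | hj
    · simp only [min_eq_left hj.le, min_eq_left (Nat.succ_le_of_lt hj)]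
      exact hp j hj
    · simp only [min_eq_right hj, min_eq_right (Nat.le_succ_of_le hj)]
      exact ⟨1, le_rfl, fun i h1 h2 => by omega, Or.inl (by omega)⟩

theorem many_pieces_local (a : ℕ) (ha : Odd a) (ha3 : 3 ≤ a) (ε : ℝ) (hε : 0 < ε) :
    ∃ C : ℝ, ∀ x ∈ periodicPts (T a), ∀ (m : ℕ) (t : ℕ → ℕ), Monotone t → t 0 = 0 →
      t m ≤ minimalPeriod (T a) x →
      (|(x : ℝ)| ≤ Real.exp ((t m : ℝ) ^ (1 - ε)) ∨
        (∀ i, |(x : ℝ)| ≤ Real.exp ((t m : ℝ) ^ (1 - ε)) * |(((T a)^[i] x : ℤ) : ℝ)|) ∧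
        Real.log (minimalPeriod (T a) x) ^ (2 + ε) ≤ t m) →
      (∀ j < m, PowPiece a x ε (t m) (t j) (t (j + 1))) →
      Real.log (t m) ≤ C * (m : ℝ) ^ (28 / 29 : ℝ) := by
  have he0 : 0 < min ε 1 := lt_min hε one_pos
  have he1 : min ε 1 ≤ 1 := min_le_right _ _
  have he2 : min ε 1 ≤ ε := min_le_left _ _
  obtain ⟨K₀, hK₀⟩ := exists_small a ha ha3 hε
  obtain ⟨K, hK⟩ := exists_params a ha3 0 (η := min ε 1 / 4) (by positivity) (by linarith)
  refine ⟨max (max K K₀) 0, fun x hx m t ht ht0 htm hlow hp => ?_⟩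
  by_contra hcon
  rw [not_le] at hcon
  have hm : 1 ≤ m := by
    rcases Nat.eq_zero_or_pos m with rfl | h
    · simp [ht0] at hcon
    · exact h
  have hm1 : (1 : ℝ) ≤ (m : ℝ) ^ (28 / 29 : ℝ) :=
    Real.one_le_rpow (by exact_mod_cast hm) (by norm_num)
  have hmax : max (max K K₀) 0 ≤ Real.log (t m) :=
    (le_mul_of_one_le_right (le_max_right _ _) hm1).trans hcon.le
  obtain ⟨R, r, Z, h1, h2, h3, h4, -, h6, h7, h8⟩ := hK (t m) m hm (lt_of_le_of_lt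
    (mul_le_mul_of_nonneg_right ((le_max_left _ _).trans (le_max_left _ _)) (by positivity)) hcon)
  have hR : 10 ^ 7 ≤ R := le_trans (Nat.le_mul_of_pos_right _ (by positivity)) h1
  have hN : (1 : ℝ) ≤ t m := by exact_mod_cast (by omega : 1 ≤ t m)
  have hexp : (t m : ℝ) ^ (1 - ε) ≤ (t m : ℝ) ^ (1 - min ε 1 / 4) :=
    Real.rpow_le_rpow_of_exponent_le hN (by linarith)
  have hlog : |(x : ℝ)| ≤ Real.exp (2 * (t m : ℝ) ^ (1 - min ε 1 / 4)) := by
    have b0 : (0 : ℝ) ≤ (t m : ℝ) ^ (1 - min ε 1 / 4) := by positivity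
    rcases hlow with h | ⟨h, h'⟩
    · exact h.trans (Real.exp_le_exp.2 (by linarith))
    · obtain ⟨i, hi⟩ := hK₀ x hx _ htm (((le_max_right _ _).trans (le_max_left _ _)).trans hmax) h'
      rw [two_mul, Real.exp_add]
      exact (h i).trans (mul_le_mul (Real.exp_le_exp.2 hexp) hi (abs_nonneg _) (Real.exp_pos _).le)
  have hxZ : |x| + 1 ≤ 2 ^ Z := by
    obtain ⟨y, hy⟩ : ∃ y, y = (t m : ℝ) ^ (1 - min ε 1 / 4) := ⟨_, rfl⟩
    have hy1 : 1 ≤ y := hy ▸ Real.one_le_rpow hN (by linarith)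
    rw [← hy] at hlog h6
    have b1 := h6 ⌊y⌋₊ (Nat.floor_le (by linarith))
    have b2 : 1 ≤ ⌊y⌋₊ := Nat.le_floor (by simpa using hy1)
    have b3 : 16 ≤ 16 * a * R ^ 4 := by
      have : 1 ≤ a * R ^ 4 := Nat.mul_pos (by omega) (by positivity)
      rw [mul_assoc]
      omega
    have b4 : ⌊y⌋₊ * 16 ≤ Z := (Nat.mul_le_mul_left _ b3).trans b1
    have b5 : (⌊y⌋₊ : ℝ) * 16 ≤ Z := by exact_mod_cast b4
    have b6 : (1 : ℝ) ≤ ⌊y⌋₊ := by exact_mod_cast b2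
    have b7 := Nat.lt_floor_add_one y
    have b9 : Real.exp ((Z : ℝ) * (1 / 2)) ≤ 2 ^ Z := by
      rw [Real.exp_nat_mul]
      refine pow_le_pow_left₀ (Real.exp_pos _).le ?_ _
      rw [← Real.le_log_iff_exp_le two_pos]
      linarith [Real.log_two_gt_d9]
    have b10 : Real.exp (2 * y) + 1 ≤ Real.exp (2 * y + 1) := by
      rw [Real.exp_add]
      nlinarith [Real.add_one_le_exp 1, Real.one_le_exp (show 0 ≤ 2 * y by linarith)]
    have b11 : Real.exp (2 * y + 1) ≤ Real.exp ((Z : ℝ) * (1 / 2)) := Real.exp_le_exp.2 (by linarith)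
    have b12 : |(x : ℝ)| + 1 ≤ 2 ^ Z := by linarith
    exact_mod_cast b12
  refine absurd (initial_le a ha ha3 h1 h2 h3 (om_le hR) h4 hx hxZ ht ht0 htm fun j hj => ?_)
    (not_le.2 h8)
  obtain ⟨v, hv, hper, halt⟩ := hp j hj
  refine ⟨v, hv, hper, halt.imp (fun h => h6 v (h.trans hexp)) fun h => ?_⟩
  have h9 : (v : ℝ) * ((16 * a * R ^ 4 : ℕ) : ℝ) ≤ ((t (j + 1) - t j : ℕ) : ℝ) :=
    (mul_le_mul_of_nonneg_left h7 (Nat.cast_nonneg v)).trans h
  exact_mod_cast h9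

/-- The case of parity runs. -/
theorem many_changes_local (a : ℕ) (ha : Odd a) (ha3 : 3 ≤ a) :
    ∃ C : ℝ, ∀ x ∈ periodicPts (T a), (∀ i, |x| ≤ |(T a)^[i] x|) → ∀ N : ℕ,
      Real.log (minimalPeriod (T a) x) ^ 3 ≤ N → N ≤ minimalPeriod (T a) x →
      Real.log N ≤ C * ((((range N).filter fun i => par a x (i + 1) ≠ par a x i).card + 1 : ℕ) : ℝ) ^
        (28 / 29 : ℝ) := by
  obtain ⟨C, hC⟩ := many_pieces_local a ha ha3 1 one_pos
  refine ⟨C, fun x hx hmin N h1 h2 => ?_⟩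
  obtain ⟨t, ht, ht0, htm, hc⟩ := cov_of_changes (π := par a x) (V := 1) le_rfl N
    ((range N).filter fun i => par a x (i + 1) ≠ par a x i).card 0 (Nat.zero_le _)
    (card_le_card fun i hi => by
      rw [mem_filter] at hi
      exact mem_filter.2 ⟨mem_range.2 (mem_Ico.1 hi.1).2, hi.2.2⟩)
  have h3 := hC x hx _ t ht ht0 (htm.trans_le h2) (Or.inr ⟨fun i => le_trans
    (by exact_mod_cast hmin i) (le_mul_of_one_le_left (abs_nonneg _)
      (Real.one_le_exp (by positivity))), by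
    rw [htm, show (2 + 1 : ℝ) = (3 : ℕ) by norm_num, Real.rpow_natCast]
    exact h1⟩) fun j hj => ?_
  · rwa [htm] at h3
  · obtain ⟨v, hv, hv1, hper⟩ := hc j hj
    obtain rfl : v = 1 := le_antisymm hv1 hv
    exact ⟨1, le_rfl, hper, Or.inl (by simp)⟩

end Pool.Agent.Lib.MP_dee342_nt.Q
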