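import Pool.Agent.Lib.MP_dee342_nt.PieceRel

/-! Covering an interval of positions by periodic pieces. -/

namespace Pool.Agent.Lib.MP_dee342_nt

open Finset

/-- The positions `s ≤ i < e` split into `r` consecutive pieces with periods at most `V`. -/
def Cov (π : ℕ → ℤ) (V s e r : ℕ) : Prop :=
  ∃ b : ℕ → ℕ, Monotone b ∧ b 0 = s ∧ b r = e ∧ ∀ j < r, Per π V (b j) (b (j + 1))

variable {π : ℕ → ℤ} {V : ℕ}

theorem cov_refl (hV : 1 ≤ V) (s r : ℕ) : Cov π V s s r :=
  ⟨fun _ => s, monotone_const, rfl, rfl, fun _ _ => ⟨1, le_rfl, hV, fun i h1 h2 => by dsimp only at h1 h2; omega⟩⟩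

theorem cov_single {s e : ℕ} (hse : s ≤ e) (h : Per π V s e) : Cov π V s e 1 := by
  refine ⟨fun j => if j = 0 then s else e, fun i j hij => ?_, by simp, by simp, fun j hj => ?_⟩
  · dsimp only; split_ifs <;> omega
  · obtain rfl : j = 0 := by omega
    simpa using h

theorem Cov.append {s m e r r' : ℕ} (h : Cov π V s m r) (h' : Cov π V m e r') :
    Cov π V s e (r + r') := by
  obtain ⟨b, hb, hb0, hbr, hp⟩ := h
  obtain ⟨b', hb', hb0', hbr', hp'⟩ := h'
  refine ⟨fun j => if j ≤ r then b j else b' (j - r), fun i j hij => ?_, by simp [hb0], ?_,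
    fun j hj => ?_⟩
  · dsimp only
    split_ifs with h1 h2 h2
    · exact hb hij
    · exact (hb h1).trans (by rw [hbr, ← hb0']; exact hb' (Nat.zero_le _))
    · omega
    · exact hb' (by omega)
  · dsimp only
    split_ifs with h1
    · obtain rfl : r' = 0 := by omega
      rw [add_zero, hbr, ← hb0', hbr']
    · rw [Nat.add_sub_cancel_left, hbr']
  · dsimp only
    split_ifs with h1 h2 h2
    · exact hp j (by omega)
    · obtain rfl : j = r := by omega
      rw [hbr, ← hb0', Nat.add_sub_cancel_left]
      exact hp' 0 (by omega)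
    · omega
    · rw [show j + 1 - r = (j - r) + 1 by omega]
      exact hp' _ (by omega)

theorem Cov.mono (hV : 1 ≤ V) {s e r r' : ℕ} (h : Cov π V s e r) (hr : r ≤ r') :
    Cov π V s e r' := by
  obtain ⟨k, rfl⟩ := Nat.exists_eq_add_of_le hr
  exact h.append (cov_refl hV e k)

theorem cov_chain (hV : 1 ≤ V) (t : ℕ → ℕ) (R r : ℕ)
    (h : ∀ j < r, Cov π V (t j) (t (j + 1)) R) : Cov π V (t 0) (t r) (r * R) := by
  induction r with
  | zero => exact cov_refl hV _ _
  | succ r ih =>
    rw [Nat.succ_mul]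
    exact (ih fun j hj => h j (by omega)).append (h r (by omega))

theorem cov_of_changes (hV : 1 ≤ V) (e R : ℕ) : ∀ s, s ≤ e →
    ((Ico s e).filter fun i => i + 1 < e ∧ π (i + 1) ≠ π i).card ≤ R → Cov π V s e (R + 1) := by
  induction R with
  | zero =>
    intro s hs h
    refine cov_single hs ⟨1, le_rfl, hV, fun i h1 h2 => ?_⟩
    by_contra h3
    have : i ∈ (Ico s e).filter fun i => i + 1 < e ∧ π (i + 1) ≠ π i := by
      simp only [mem_filter, mem_Ico]; exact ⟨⟨h1, by omega⟩, h2, h3⟩
    have := card_pos.2 ⟨i, this⟩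
    omega
  | succ R ih =>
    intro s hs h
    set F := (Ico s e).filter fun i => i + 1 < e ∧ π (i + 1) ≠ π i with hF
    by_cases hne : F.Nonempty
    · have h1 := F.min'_mem hne
      set i₀ := F.min' hne with hi₀
      have h2 : s ≤ i₀ ∧ i₀ + 1 < e := by
        simp only [hF, mem_filter, mem_Ico] at h1
        exact ⟨h1.1.1, h1.2.1⟩
      have h3 : Cov π V s (i₀ + 1) 1 := by
        refine cov_single (by omega) ⟨1, le_rfl, hV, fun i h4 h5 => ?_⟩
        by_contra h6
        have h7 : i ∈ F := by
          simp only [hF, mem_filter, mem_Ico]; exact ⟨⟨h4, by omega⟩, by omega, h6⟩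
        have := F.min'_le i h7
        omega
      have h4 : Cov π V (i₀ + 1) e (R + 1) := by
        refine ih _ h2.2.le ?_
        have h5 : ((Ico (i₀ + 1) e).filter fun i => i + 1 < e ∧ π (i + 1) ≠ π i) ⊆
            F.erase i₀ := by
          intro i hi
          simp only [hF, mem_erase, mem_filter, mem_Ico] at hi ⊢
          exact ⟨by omega, ⟨by omega, hi.1.2⟩, hi.2⟩
        have h6 := card_le_card h5
        rw [card_erase_of_mem h1] at h6
        omega
      rw [add_comm (R + 1) 1]
      exact h3.append h4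
    · rw [not_nonempty_iff_eq_empty] at hne
      exact (ih s hs (by rw [← hF, hne]; simp)).mono hV (by omega)

theorem card_changes_le {s e v L M : ℕ} (hv : 1 ≤ v)
    (hper : ∀ i, s ≤ i → i + v < e → π (i + v) = π i) (hlen : e - s < M * v)
    (hL : ((Ico s (s + v)).filter fun i => π (i + 1) ≠ π i).card ≤ L) :
    ((Ico s e).filter fun i => i + 1 < e ∧ π (i + 1) ≠ π i).card ≤ M * L := by
  have h1 : ∀ q i, s ≤ i → i + q * v < e → π (i + q * v) = π i := by
    intro q
    induction q with
    | zero => simp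
    | succ q ih =>
      intro i h1 h2
      rw [Nat.succ_mul, ← add_assoc] at h2 ⊢
      rw [hper _ (by omega) h2, ih i h1 (by omega)]
  refine le_trans (card_le_card_of_injOn (t := range M ×ˢ
    ((Ico s (s + v)).filter fun i => π (i + 1) ≠ π i))
    (fun i => ((i - s) / v, s + (i - s) % v)) ?_ ?_) ?_
  · intro i hi
    simp only [coe_filter, mem_Ico, Set.mem_ofPred_eq] at hi
    obtain ⟨⟨h2, h3⟩, h4, h5⟩ := hi
    have h6 := Nat.div_add_mod (i - s) v
    have h7 := Nat.mod_lt (i - s) (show v > 0 by omega)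
    have h8 : s + (i - s) % v + (i - s) / v * v = i := by rw [mul_comm]; omega
    simp only [coe_product, coe_range, coe_filter, mem_Ico, Set.mem_prod, Set.mem_Iio,
      Set.mem_ofPred_eq]
    refine ⟨(Nat.div_lt_iff_lt_mul (by omega)).2 (by omega), ⟨by omega, by omega⟩, ?_⟩
    rw [← h1 ((i - s) / v) (s + (i - s) % v) (by omega) (by omega),
      ← h1 ((i - s) / v) (s + (i - s) % v + 1) (by omega) (by omega), h8,
      show s + (i - s) % v + 1 + (i - s) / v * v = i + 1 by omega]
    exact h5
  · intro i hi j hj hij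
    simp only [coe_filter, mem_Ico, Set.mem_ofPred_eq] at hi hj
    simp only [Prod.mk.injEq] at hij
    have h6 := Nat.div_add_mod (i - s) v
    have h7 := Nat.div_add_mod (j - s) v
    rw [hij.1] at h6
    omega
  · rw [card_product, card_range]
    exact Nat.mul_le_mul_left _ hL

theorem exists_long (b : ℕ → ℕ) (hb0 : b 0 = 0) (r : ℕ) (hr : 0 < b r) :
    ∃ i < r, b r ≤ 2 * b (i + 1) ∧ b r + 2 * r * b i ≤ 2 * r * b (i + 1) := by
  by_contra hcon
  push Not at hcon
  have hr0 : 0 < r := by
    rcases r with _ | r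
    · omega
    · omega
  have h1 : ∀ j ≤ r, 2 * r * b j + 1 ≤ r * b r + j * b r := by
    intro j
    induction j with
    | zero => intro _; rw [hb0]; nlinarith
    | succ j ih =>
      intro hj
      by_cases h2 : b r ≤ 2 * b (j + 1)
      · have h3 := hcon j (by omega) h2
        have h4 := ih (by omega)
        rw [add_mul j 1, one_mul]; omega
      · have h3 : r * (2 * b (j + 1) + 1) ≤ r * b r := Nat.mul_le_mul_left _ (by omega)
        nlinarith
  have := h1 r le_rfl
  nlinarith

end Pool.Agent.Lib.MP_dee342_nt
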