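import Pool.Agent.Lib.MP_dee342_nt.Defs

/-! Periodic pieces of the parity word of an orbit. -/

namespace Pool.Agent.Lib.MP_dee342_nt

/-- The parity of `T_a^i x`. -/
def par (a x : ℤ) (i : ℕ) : ℤ := (T a)^[i] x % 2

/-- The parity word of `x` on the positions `s ≤ i < e` has a period `v ≥ 1`, and either it is at
least `M * v` letters long, or the parity changes at most `L` times along one period. -/
def Piece (a x : ℤ) (L M s e : ℕ) : Prop :=
  ∃ v : ℕ, 1 ≤ v ∧ (∀ i, s ≤ i → i + v < e → par a x (i + v) = par a x i) ∧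
    (M * v ≤ e - s ∨
      ((Finset.Ico s (s + v)).filter fun i => par a x (i + 1) ≠ par a x i).card ≤ L)

end Pool.Agent.Lib.MP_dee342_nt
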