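import Pool.Agent.Lib.MP_dee342_nt.PieceWin

/-! Cycles made of few periodic pieces. -/

namespace Pool.Agent.Lib.MP_dee342_nt

open Finset Function

theorem Piece.shift {a x : ℤ} {L M s e : ℕ} (h : Piece a x L M s e) (s₀ : ℕ) (hs : s₀ ≤ s) :
    Piece a ((T a)^[s₀] x) L M (s - s₀) (e - s₀) := by
  obtain ⟨v, hv, hper, halt⟩ := h
  refine ⟨v, hv, fun i h1 h2 => ?_, halt.imp (fun h => by omega) fun h => le_trans ?_ h⟩
  · rw [par_shift, par_shift, ← add_assoc]
    exact hper _ (by omega) (by omega)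
  · refine card_le_card_of_injOn (fun i => s₀ + i) (fun i hi => ?_) fun i _ j _ hij => by
      simpa using hij
    simp only [coe_filter, mem_Ico, Set.mem_ofPred_eq, par_shift] at hi ⊢
    exact ⟨⟨by omega, by omega⟩, hi.2⟩

theorem abs_T_le (a : ℕ) (ha : Odd a) (ha3 : 3 ≤ a) (y : ℤ) :
    |T a y| + 1 ≤ 2 ^ a * (|y| + 1) := by
  have h1 : (a : ℤ) < 2 ^ a := by exact_mod_cast Nat.lt_two_pow_self (n := a)
  have h3 : (3 : ℤ) ≤ a := by exact_mod_cast ha3
  have h0 := abs_nonneg y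
  have h2 : 2 * |T a y| ≤ a * |y| + 1 := by
    rw [show 2 * |T a y| = |2 * T a y| by rw [abs_mul]; rfl]
    by_cases hy : y % 2 = 0
    · rw [two_mul_T_even hy]; nlinarith
    · rw [two_mul_T_odd (by exact_mod_cast ha) hy]
      refine (abs_add_le _ _).trans ?_
      rw [abs_mul, abs_one, abs_of_nonneg (by omega : (0 : ℤ) ≤ a)]
  nlinarith [abs_nonneg (T a y)]

theorem logb_iterate_le (a : ℕ) (ha : Odd a) (ha3 : 3 ≤ a) (y : ℤ) (n : ℕ) :
    Real.logb 2 (|(((T a)^[n] y : ℤ) : ℝ)| + 1) ≤ Real.logb 2 (|(y : ℝ)| + 1) + a * n := by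
  induction n with
  | zero => simp
  | succ n ih =>
    rw [iterate_succ_apply']
    have h1 : |((T a ((T a)^[n] y) : ℤ) : ℝ)| + 1 ≤ 2 ^ a * (|(((T a)^[n] y : ℤ) : ℝ)| + 1) := by
      exact_mod_cast abs_T_le a ha ha3 ((T a)^[n] y)
    have h2 := Real.logb_le_logb_of_le (b := 2) (by norm_num) (by positivity) h1
    rw [Real.logb_mul (by positivity) (by positivity), Real.logb_pow,
      Real.logb_self_eq_one (by norm_num)] at h2
    push_cast
    linarith

theorem abs_le_of_periodic (a : ℕ) (ha : Odd a) (ha3 : 3 ≤ a) (x : ℤ) (p : ℕ) (hp : 0 < p)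
    (hx : (T a)^[p] x = x) : |x| ≤ (a : ℤ) ^ p := by
  obtain ⟨c, N, -, hN0, hN, h⟩ := pc_aff a ha ha3 x p
  rw [hx] at h
  have h1 : (2 : ℤ) ^ p - (a : ℤ) ^ c ≠ 0 := by
    intro h6
    have h7 : Odd ((a : ℤ) ^ c) := Odd.pow (by exact_mod_cast ha)
    have h8 : Even ((2 : ℤ) ^ p) := (Int.even_pow' (by omega)).2 even_two
    rw [sub_eq_zero] at h6
    exact (Int.not_even_iff_odd.2 h7) (h6 ▸ h8)
  have h2 : |(2 : ℤ) ^ p - (a : ℤ) ^ c| * |x| = N := by
    rw [← abs_mul, ← abs_of_nonneg hN0]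
    congr 1
    linear_combination h
  have h3 := Int.one_le_abs h1
  have h4 : (0 : ℤ) < 2 ^ p := by positivity
  nlinarith [abs_nonneg x]

theorem period_bound (K c₁ c₂ p : ℝ) (hK : 0 ≤ K) (h1 : 0 ≤ c₁) (h2 : 0 ≤ c₂) (hp : 1 ≤ p)
    (h : p ≤ K * Real.exp (Real.log p / 2) * (c₁ + c₂ * Real.log (p + 2) ^ 2)) :
    p ≤ (3 * (K * (c₁ + 64 * c₂))) ^ 4 := by
  set z : ℝ := (p + 2) ^ (1 / 8 : ℝ) with hz
  have hz1 : 1 ≤ z := Real.one_le_rpow (by linarith) (by norm_num)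
  have hz8 : z ^ 8 = p + 2 := by
    rw [hz, ← Real.rpow_natCast, ← Real.rpow_mul (by linarith)]; norm_num
  have h3 : Real.log (p + 2) ≤ 8 * z := by
    rw [← hz8, Real.log_pow]
    have := Real.log_le_sub_one_of_pos (show 0 < z by linarith)
    push_cast; linarith
  have h4 : Real.log (p + 2) ^ 2 ≤ (8 * z) ^ 2 :=
    pow_le_pow_left₀ (Real.log_nonneg (by linarith)) h3 2
  have h5 : Real.exp (Real.log p / 2) ≤ z ^ 4 := by
    refine (pow_le_pow_iff_left₀ (by positivity) (by positivity) two_ne_zero).1 ?_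
    rw [← Real.exp_nat_mul, ← pow_mul, show ((2 : ℕ) : ℝ) * (Real.log p / 2) = Real.log p by
      push_cast; ring, Real.exp_log (by linarith)]
    change p ≤ z ^ 8
    linarith
  have h6 : c₁ + c₂ * Real.log (p + 2) ^ 2 ≤ (c₁ + 64 * c₂) * z ^ 2 := by
    have h7 : 1 ≤ z ^ 2 := one_le_pow₀ hz1
    nlinarith [mul_le_mul_of_nonneg_left h4 h2, mul_le_mul_of_nonneg_left h7 h1]
  have h7 : p ≤ K * z ^ 4 * ((c₁ + 64 * c₂) * z ^ 2) :=
    h.trans (mul_le_mul (mul_le_mul_of_nonneg_left h5 hK) h6 (by positivity) (by positivity))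
  have h8 : z ^ 2 ≤ 3 * (K * (c₁ + 64 * c₂)) := by
    refine le_of_mul_le_mul_right ?_ (show 0 < z ^ 6 by positivity)
    have : z ^ 2 * z ^ 6 = p + 2 := by rw [← hz8]; ring
    rw [this]
    linarith
  calc p ≤ (z ^ 2) ^ 4 := by rw [← pow_mul, hz8]; linarith
    _ ≤ _ := pow_le_pow_left₀ (by positivity) h8 4

theorem few_pieces (a : ℕ) (ha : Odd a) (ha3 : 3 ≤ a) (C : ℝ) (L : ℕ) :
    ∃ M : ℕ, {x : ℤ | x ∈ periodicPts (T a) ∧ (∀ i, |x| ≤ |(T a)^[i] x|) ∧
      ∃ (m : ℕ) (t : ℕ → ℕ), Monotone t ∧ t 0 = 0 ∧ t m = minimalPeriod (T a) x ∧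
        (m : ℝ) ≤ C * Real.log (minimalPeriod (T a) x) ∧
        ∀ j < m, Piece a x L M (t j) (t (j + 1))}.Finite := by
  set K : ℝ := 1 + 8 * a with hK
  have ha3' : (3 : ℝ) ≤ a := by exact_mod_cast ha3
  have hK9 : 9 ≤ K := by linarith
  have hlK : 0 ≤ Real.log K := Real.log_nonneg (by linarith)
  obtain ⟨r, hr⟩ := exists_nat_gt (2 * (|C| * Real.log K))
  have hr0 : (0 : ℝ) < r := lt_of_le_of_lt (by positivity) hr
  have hr0' : 0 < r := by exact_mod_cast hr0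
  obtain ⟨M, C₁, hC₁, hwin⟩ := pc_window a ha ha3 r (L + 1)
  obtain ⟨C₂, hC₂, hmin⟩ := min_bound a ha ha3
  obtain ⟨p₀, hp₀⟩ := exists_nat_ge ((3 * (K * ((C₁ + 2) + 64 * (2 * C₂)))) ^ 4)
  refine ⟨M, (Set.finite_Icc (-(a : ℤ) ^ p₀) ((a : ℤ) ^ p₀)).subset ?_⟩
  rintro x ⟨hx, hxmin, m, t, ht, ht0, htm, hm, hpc⟩
  set p := minimalPeriod (T a) x with hp
  have hp0 : 0 < p := minimalPeriod_pos_of_mem_periodicPts hx
  have hpx : (T a)^[p] x = x := iterate_minimalPeriod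
  let t' : ℕ → ℕ := fun j => t (min j m)
  have ht' : Monotone t' := fun i j hij => ht (min_le_min_right m hij)
  have ht'p : ∀ j, t' j ≤ p := fun j => htm ▸ ht (min_le_right j m)
  have hpc' : ∀ j, Piece a x (L + 1) M (t' j) (t' (j + 1)) := fun j => by
    by_cases hj : j < m
    · obtain ⟨v, h1, h2, h3⟩ := hpc j hj
      simp only [t', min_eq_left hj.le, min_eq_left (show j + 1 ≤ m from hj)]
      exact ⟨v, h1, h2, h3.imp id fun h => by omega⟩
    · simp only [t', min_eq_right (not_lt.1 hj), min_eq_right (show m ≤ j + 1 by omega)]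
      refine ⟨1, le_rfl, fun i h1 h2 => by omega, Or.inr ((card_filter_le _ _).trans ?_)⟩
      simp
  set Z₀ : ℝ := Real.logb 2 (|(x : ℝ)| + 1) + C₁ with hZ₀
  have hlog : ∀ y : ℤ, 0 ≤ Real.logb 2 (|(y : ℝ)| + 1) := fun y =>
    Real.logb_nonneg (by norm_num) (by linarith [abs_nonneg (y : ℝ)])
  have hZ0 : 0 ≤ Z₀ := add_nonneg (hlog x) hC₁
  have hgrow : ∀ w : ℕ, Real.logb 2 (|(((T a)^[t' (w * r)] x : ℤ) : ℝ)| + 1) + C₁ ≤ K ^ w * Z₀ ∧
      (t' (w * r) : ℝ) ≤ K ^ w * Z₀ := by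
    intro w
    induction w with
    | zero =>
      have h0 : t' (0 * r) = 0 := by simp [t', ht0]
      rw [h0, pow_zero, one_mul]
      exact ⟨le_rfl, by simpa using hZ0⟩
    | succ w ih =>
      have h1 : t' (w * r) ≤ t' ((w + 1) * r) := ht' (by nlinarith)
      have h2 := hwin ((T a)^[t' (w * r)] x) (fun j => t' (w * r + j) - t' (w * r))
        (fun i j hij => Nat.sub_le_sub_right (ht' (by omega)) _) (by simp)
        (fun j _ => (hpc' (w * r + j)).shift _ (ht' (by omega)))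
        (fun i v h3 h4 h5 => by
          rw [← iterate_add_apply _ i] at h5
          have h6 := IsPeriodicPt.minimalPeriod_le h3 h5
          rw [minimalPeriod_apply_iterate hx] at h6
          have := ht'p (w * r + r)
          omega)
      rw [← Nat.succ_mul, Nat.cast_sub h1] at h2
      have h3 := logb_iterate_le a ha ha3 ((T a)^[t' (w * r)] x) (t' ((w + 1) * r) - t' (w * r))
      rw [← iterate_add_apply, Nat.sub_add_cancel h1, Nat.cast_sub h1] at h3
      have h4 : 0 ≤ K ^ w * Z₀ := by positivity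
      have h5 : (t' ((w + 1) * r) : ℝ) - t' (w * r) ≤ 8 * (K ^ w * Z₀) := by
        linarith [ih.1]
      have h6 := mul_le_mul_of_nonneg_left h5 (show (0 : ℝ) ≤ a by linarith)
      have h7 : K ^ (w + 1) * Z₀ = K ^ w * Z₀ + a * (8 * (K ^ w * Z₀)) := by
        rw [pow_succ, hK]; ring
      have h8 : 8 * (K ^ w * Z₀) ≤ a * (8 * (K ^ w * Z₀)) :=
        le_mul_of_one_le_left (by positivity) (by linarith)
      constructor <;> linarith [ih.1, ih.2]
  have h1 := (hgrow (m / r + 1)).2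
  have h2 : t' ((m / r + 1) * r) = p := by
    have : m ≤ (m / r + 1) * r := ((Nat.div_lt_iff_lt_mul hr0').1 (Nat.lt_succ_self _)).le
    simp only [t', min_eq_right this, htm]
  rw [h2] at h1
  have hp1 : (1 : ℝ) ≤ p := by exact_mod_cast hp0
  have hlp : 0 ≤ Real.log p := Real.log_nonneg hp1
  have h3 : K ^ (m / r + 1) ≤ K * Real.exp (Real.log p / 2) := by
    rw [pow_succ, mul_comm]
    refine mul_le_mul_of_nonneg_left ?_ (by linarith)
    rw [← Real.exp_log (show 0 < K by linarith), ← Real.exp_nat_mul, Real.exp_le_exp]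
    have h4 : ((m / r : ℕ) : ℝ) * r ≤ m := by exact_mod_cast Nat.div_mul_le_self m r
    have h5 : (m : ℝ) ≤ |C| * Real.log p :=
      hm.trans (mul_le_mul_of_nonneg_right (le_abs_self C) hlp)
    refine le_of_mul_le_mul_right ?_ hr0
    nlinarith [mul_le_mul_of_nonneg_right (h4.trans h5) hlK, mul_le_mul_of_nonneg_right hr.le hlp]
  have h4 : Z₀ ≤ (C₁ + 2) + 2 * C₂ * Real.log (p + 2) ^ 2 := by
    obtain ⟨i, -, hi⟩ := hmin x p hp0 hpx
    have h5 : |(x : ℝ)| ≤ |(((T a)^[i] x : ℤ) : ℝ)| := by exact_mod_cast hxmin i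
    have h6 : 0 ≤ C₂ * Real.log (p + 2) ^ 2 := by positivity
    have h7 := Real.one_le_exp h6
    have h8 : Real.log (|(x : ℝ)| + 1) ≤ C₂ * Real.log (p + 2) ^ 2 + 1 := by
      rw [Real.log_le_iff_le_exp (by positivity), Real.exp_add]
      nlinarith [Real.add_one_le_exp (1 : ℝ)]
    have h9 : Real.logb 2 (|(x : ℝ)| + 1) ≤ 2 * (C₂ * Real.log (p + 2) ^ 2 + 1) := by
      rw [Real.logb, div_le_iff₀ (Real.log_pos (by norm_num))]
      nlinarith [Real.log_two_gt_d9]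
    linarith
  have h5 := period_bound K (C₁ + 2) (2 * C₂) p (by linarith) (by linarith) (by positivity) hp1
    (h1.trans (mul_le_mul h3 h4 hZ0 (by positivity)))
  have h6 : p ≤ p₀ := by exact_mod_cast h5.trans hp₀
  have h7 := (abs_le_of_periodic a ha ha3 x p hp0 hpx).trans
    (pow_le_pow_right₀ (by exact_mod_cast (show 1 ≤ a by omega)) h6)
  exact abs_le.1 h7

end Pool.Agent.Lib.MP_dee342_nt
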