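import Pool.Agent.Lib.MP_dee342_nt.PieceCov
import Pool.Agent.Lib.Common.Subspace.Wedge
import Pool.Agent.Lib.Common.Subspace.SUnit

/-! The window lemma: a bounded number of pieces has length `O(log |x|)`, with an absolute
constant. -/

namespace Pool.Agent.Lib.MP_dee342_nt

open Finset Filter Common.Subspace

theorem pc_key (a : ℕ) (ha : Odd a) (ha3 : 3 ≤ a) {τ : Type*} (U : Ultrafilter τ) (x : τ → ℤ)
    (n V : τ → ℕ) (r : ℕ) (hn : Tendsto n U atTop)
    (hV : ∀ ε : ℝ, 0 < ε → ∀ᶠ t in U, (V t : ℝ) ≤ ε * n t)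
    (hcov : ∀ᶠ t in U, Cov (par a (x t)) (V t) 0 (n t) r)
    (hx : ∀ᶠ t in U, |(x t : ℝ)| ≤ (2 : ℝ) ^ ((n t : ℝ) / 8))
    (hnp : ∀ᶠ t in U, ∀ i v, 1 ≤ v → v ≤ V t → (T a)^[v] ((T a)^[i] (x t)) ≠ (T a)^[i] (x t)) :
    False := by
  have h1 : ∀ t, ∃ b : ℕ → ℕ, Cov (par a (x t)) (V t) 0 (n t) r → Monotone b ∧ b 0 = 0 ∧
      b r = n t ∧ ∀ j < r, Per (par a (x t)) (V t) (b j) (b (j + 1)) := fun t => by
    by_cases h : Cov (par a (x t)) (V t) 0 (n t) r
    · obtain ⟨b, hb⟩ := h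
      exact ⟨b, fun _ => hb⟩
    · exact ⟨0, fun h' => absurd h' h⟩
  choose b hb using h1
  have hb' := hcov.mono fun t ht => hb t ht
  have h2 : ∀ᶠ t in U, ∃ i : Fin r, n t ≤ 2 * b t (i + 1) ∧
      n t + 2 * r * b t i ≤ 2 * r * b t (i + 1) ∧ b t (i + 1) ≤ n t := by
    filter_upwards [hb', hn.eventually_gt_atTop 0] with t ht h0
    obtain ⟨i, hi, h3, h4⟩ := exists_long (b t) ht.2.1 r (by rw [ht.2.2.1]; exact h0)
    rw [ht.2.2.1] at h3 h4
    exact ⟨⟨i, hi⟩, h3, h4, ht.2.2.1 ▸ ht.1 hi⟩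
  obtain ⟨⟨i, hi⟩, hlong⟩ := Ultrafilter.eventually_exists_iff.1 h2
  simp only at hlong
  have h3 : ∀ t, ∃ (W Q : ℤ) (A : ℕ) (c : ℕ → ℤ) (e f : ℕ → ℕ),
      Cov (par a (x t)) (V t) 0 (n t) r →
      |Q| ≤ ((a : ℤ) ^ V t) ^ (i + 1) ∧ A ≤ b t (i + 1) ∧
      (∀ l, |c l| ≤ ((a : ℤ) ^ V t) ^ (i + 1) ∧ e l ≤ b t (i + 1) ∧ f l ≤ b t i) ∧
      2 ^ b t (i + 1) * W =
        (a : ℤ) ^ A * (Q * x t) + ∑ l ∈ range (2 * i + 1), c l * (a : ℤ) ^ e l * 2 ^ f l ∧
      (V t ≤ b t (i + 1) - b t i → W = 0 → ∃ v, 1 ≤ v ∧ v ≤ V t ∧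
        (T a)^[v] ((T a)^[b t i] (x t)) = (T a)^[b t i] (x t)) := fun t => by
    by_cases h : Cov (par a (x t)) (V t) 0 (n t) r
    · obtain ⟨h4, h5, -, h6⟩ := hb t h
      obtain ⟨W, Q, A, c, e, f, h7⟩ :=
        pc_final a ha ha3 (x t) (V t) (b t) h4 h5 i fun j hj => h6 j (by omega)
      exact ⟨W, Q, A, c, e, f, fun _ => h7⟩
    · exact ⟨0, 0, 0, 0, 0, 0, fun h' => absurd h' h⟩
  choose W Q A c e f hW using h3
  have hW' := hcov.mono fun t ht => hW t ht
  have hr : (1 : ℝ) ≤ r := by exact_mod_cast (show 1 ≤ r by omega)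
  have ha0 : (0 : ℝ) < a := by exact_mod_cast (show 0 < a by omega)
  have hsmall : ∀ ε : ℝ, 0 < ε → ∀ᶠ t in U, ∀ y : ℤ, |y| ≤ ((a : ℤ) ^ V t) ^ (i + 1) →
      |(y : ℝ)| ≤ (2 : ℝ) ^ (ε * b t (i + 1)) := by
    intro ε hε
    filter_upwards [hV (ε / (2 * (a * (i + 1)))) (by positivity), hlong] with t h4 h5 y hy
    have h6 : |(y : ℝ)| ≤ ((a : ℝ) ^ V t) ^ (i + 1) := by exact_mod_cast hy
    have h7 : (a : ℝ) ≤ 2 ^ a := by exact_mod_cast (Nat.lt_two_pow_self (n := a)).le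
    refine h6.trans ((pow_le_pow_left₀ (by positivity) (pow_le_pow_left₀ ha0.le h7 _) _).trans ?_)
    rw [← pow_mul, ← pow_mul, ← Real.rpow_natCast]
    refine Real.rpow_le_rpow_of_exponent_le (by norm_num) ?_
    have h8 : (n t : ℝ) ≤ 2 * b t (i + 1) := by exact_mod_cast h5.1
    rw [div_mul_eq_mul_div, le_div_iff₀ (by positivity)] at h4
    push_cast
    nlinarith [mul_le_mul_of_nonneg_left h8 hε.le]
  have hid : ∀ᶠ t in U, (1 : ℚ) * (a : ℚ) ^ A t * ((Q t * x t : ℤ) : ℚ) +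
      ∑ l ∈ range (2 * i + 1), (1 : ℚ) * (c t l * (a : ℚ) ^ e t l * 2 ^ f t l) =
      2 ^ b t (i + 1) * W t := by
    filter_upwards [hW'] with t ht
    have := congrArg (Int.cast : ℤ → ℚ) ht.2.2.2.1
    push_cast at this ⊢
    simp only [one_mul]
    exact this.symm
  have hη : (1 : ℝ) / (2 * r) ≤ 1 / 2 := by
    rw [div_le_div_iff₀ (by positivity) (by norm_num)]; linarith
  have key := sunit_vanish a ha U (fun t => b t (i + 1))
    (by
      refine tendsto_atTop.2 fun k => ?_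
      filter_upwards [hlong, hn.eventually_ge_atTop (2 * k)] with t h4 h5
      omega)
    (1 / (2 * r)) 1 1 (by positivity) (range (2 * i + 1)) 1 (fun _ => 1)
    (fun t => Q t * x t) A c e f
    (by
      filter_upwards [hsmall (1 / 4) (by norm_num), hx, hW', hlong] with t h4 h5 h6 h7
      have h8 : (n t : ℝ) ≤ 2 * b t (i + 1) := by exact_mod_cast h7.1
      push_cast
      rw [abs_mul]
      refine (mul_le_mul (h4 _ h6.1) h5 (abs_nonneg _) (by positivity)).trans ?_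
      rw [← Real.rpow_add (by norm_num)]
      refine Real.rpow_le_rpow_of_exponent_le (by norm_num) ?_
      have h9 : (0 : ℝ) ≤ b t (i + 1) := Nat.cast_nonneg _
      nlinarith [mul_le_mul_of_nonneg_right hη h9])
    (hW'.mono fun t ht => by rw [one_mul]; exact_mod_cast ht.2.1)
    (fun ε hε => by
      filter_upwards [hsmall ε hε, hW'] with t h4 h5 l _
      exact h4 _ (h5.2.2.1 l).1)
    (hW'.mono fun t ht l _ => by rw [one_mul]; exact_mod_cast (ht.2.2.1 l).2.1)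
    (by
      filter_upwards [hW', hlong] with t h4 h5 l _
      have h6 : (f t l : ℝ) ≤ b t i := by exact_mod_cast (h4.2.2.1 l).2.2
      have h7 : (n t : ℝ) + 2 * r * b t i ≤ 2 * r * b t (i + 1) := by exact_mod_cast h5.2.1
      have h8 : (b t (i + 1) : ℝ) ≤ n t := by exact_mod_cast h5.2.2
      have h9 : (1 - 1 / (2 * r)) * (b t (i + 1) : ℝ) =
          (2 * r * b t (i + 1) - b t (i + 1)) / (2 * r) := by field_simp
      rw [h9, le_div_iff₀ (by positivity)]
      nlinarith)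
    (by
      filter_upwards [hid] with t ht
      rw [ht]
      have h4 := padicNorm_le_of_dvd Nat.prime_two (a := 2 ^ b t (i + 1) * W t)
        (e := b t (i + 1)) (by simp)
      push_cast at h4
      rwa [one_div])
  obtain ⟨t, h4, h5, h6, h7, h8, h9⟩ :=
    (key.and (hid.and (hW'.and (hlong.and (hnp.and (hV (1 / (2 * r)) (by positivity))))))).exists
  rw [h5, mul_eq_zero] at h4
  have h10 : W t = 0 := by exact_mod_cast h4.resolve_left (by positivity)
  have h11 : 2 * r * V t ≤ n t := by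
    rw [div_mul_eq_mul_div, le_div_iff₀ (by positivity)] at h9
    have : ((2 * r * V t : ℕ) : ℝ) ≤ n t := by push_cast; linarith
    exact_mod_cast this
  have h12 : V t ≤ b t (i + 1) - b t i := by
    have h13 : 2 * r * (V t + b t i) ≤ 2 * r * b t (i + 1) := by rw [mul_add]; omega
    have := Nat.le_of_mul_le_mul_left h13 (by omega)
    omega
  obtain ⟨v, h14, h15, h16⟩ := h6.2.2.2.2 h12 h10
  exact h8 _ v h14 h15 h16

theorem pc_window (a : ℕ) (ha : Odd a) (ha3 : 3 ≤ a) (r L : ℕ) :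
    ∃ (M : ℕ) (C : ℝ), 0 ≤ C ∧ ∀ (x : ℤ) (t : ℕ → ℕ), Monotone t → t 0 = 0 →
      (∀ j < r, Piece a x L M (t j) (t (j + 1))) →
      (∀ i v, 1 ≤ v → v < t r → (T a)^[v] ((T a)^[i] x) ≠ (T a)^[i] x) →
      (t r : ℝ) ≤ 8 * Real.logb 2 (|(x : ℝ)| + 1) + C := by
  classical
  by_contra hcon
  push Not at hcon
  choose x t ht ht0 hp hnp hbig using fun k : ℕ => hcon k k (Nat.cast_nonneg k)
  choose! v hv1 hper halt using hp
  let U : Ultrafilter ℕ := hyperfilter ℕ
  have hU : (U : Filter ℕ) ≤ atTop := Nat.hyperfilter_le_atTop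
  have hlog : ∀ k, 0 ≤ Real.logb 2 (|(x k : ℝ)| + 1) := fun k =>
    Real.logb_nonneg (by norm_num) (by linarith [abs_nonneg (x k : ℝ)])
  have hkn : ∀ k, k ≤ t k r := fun k => by
    have : (k : ℝ) ≤ t k r := by linarith [hbig k, hlog k]
    exact_mod_cast this
  have hn : Tendsto (fun k => t k r) U atTop := (tendsto_atTop_mono hkn tendsto_id).mono_left hU
  let B : ℕ → Prop := fun j => ∃ M : ℕ, ∀ᶠ k in U, t k (j + 1) - t k j < M * v k j
  have h1 : ∀ j, ∃ M : ℕ, B j → ∀ᶠ k in U, t k (j + 1) - t k j < M * v k j := fun j => by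
    by_cases h : B j
    · obtain ⟨M, hM⟩ := h
      exact ⟨M, fun _ => hM⟩
    · exact ⟨0, fun h' => absurd h' h⟩
  choose M hM using h1
  let V : ℕ → ℕ := fun k => 1 + ∑ j ∈ (range r).filter (fun j => ¬ B j), v k j
  have hV1 : ∀ k, 1 ≤ V k := fun k => Nat.le_add_right _ _
  have hV : ∀ ε : ℝ, 0 < ε → ∀ᶠ k in U, (V k : ℝ) ≤ ε * t k r := by
    intro ε hε
    obtain ⟨N, hN⟩ := exists_nat_ge ((r + 1) / ε)
    rw [div_le_iff₀ hε] at hN
    have h2 : ∀ᶠ k in U, ∀ j ∈ (range r).filter (fun j => ¬ B j), N * v k j ≤ t k r := by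
      refine (eventually_all_finset _).2 fun j hj => ?_
      obtain ⟨hj1, hj2⟩ := mem_filter.1 hj
      have h3 : ¬ ∀ᶠ k in U, t k (j + 1) - t k j < N * v k j := fun h => hj2 ⟨N, h⟩
      filter_upwards [Ultrafilter.eventually_not.2 h3] with k hk
      have := ht k (show j + 1 ≤ r from mem_range.1 hj1)
      omega
    filter_upwards [h2, hn.eventually_ge_atTop N] with k h3 h4
    have h5 : N * V k ≤ (r + 1) * t k r := by
      have h6 := Finset.sum_le_card_nsmul _ _ _ h3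
      have h7 : ((range r).filter (fun j => ¬ B j)).card ≤ r :=
        (card_filter_le _ _).trans (card_range r).le
      rw [smul_eq_mul, ← Finset.mul_sum] at h6
      have h8 := Nat.mul_le_mul_right (t k r) h7
      simp only [V, mul_add, add_mul]
      omega
    have h6 : (N : ℝ) * V k ≤ (r + 1) * t k r := by exact_mod_cast h5
    have h7 : (0 : ℝ) < N := by
      by_contra h8
      have : (N : ℝ) * ε ≤ 0 := mul_nonpos_of_nonpos_of_nonneg (not_lt.1 h8) hε.le
      linarith [(Nat.cast_nonneg r : (0 : ℝ) ≤ r)]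
    have h8 : (0 : ℝ) ≤ t k r := Nat.cast_nonneg _
    refine le_of_mul_le_mul_left ?_ h7
    nlinarith [mul_le_mul_of_nonneg_right hN h8]
  set R : ℕ := (∑ j ∈ range r, M j) * L + 1 with hR
  refine pc_key a ha ha3 U x (fun k => t k r) V (r * R) hn hV ?_ ?_ ?_
  · have h2 : ∀ᶠ k in U, ∀ j ∈ range r, Cov (par a (x k)) (V k) (t k j) (t k (j + 1)) R := by
      refine (eventually_all_finset _).2 fun j hj => ?_
      have hjr := mem_range.1 hj
      by_cases hB : B j
      · filter_upwards [hM j hB, hU (eventually_ge_atTop (M j))] with k h3 h4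
        have h5 : M j * v k j ≤ k * v k j := Nat.mul_le_mul_right _ h4
        have h6 := card_changes_le (hv1 k j hjr) (hper k j hjr) h3
          ((halt k j hjr).resolve_left (by omega))
        refine cov_of_changes (hV1 k) _ _ _ (ht k (Nat.le_succ j)) (h6.trans ?_)
        exact Nat.mul_le_mul_right _ (Finset.single_le_sum (fun _ _ => Nat.zero_le _) hj)
      · refine Eventually.of_forall fun k => (cov_single (ht k (Nat.le_succ j))
          ⟨v k j, hv1 k j hjr, ?_, hper k j hjr⟩).mono (hV1 k) (by omega)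
        exact (Finset.single_le_sum (f := v k) (fun _ _ => Nat.zero_le _)
          (mem_filter.2 ⟨hj, hB⟩)).trans (Nat.le_add_left _ _)
    filter_upwards [h2] with k hk
    have := cov_chain (hV1 k) (t k) R r fun j hj => hk j (mem_range.2 hj)
    rwa [ht0 k] at this
  · refine Eventually.of_forall fun k => ?_
    have h2 : Real.logb 2 (|(x k : ℝ)| + 1) ≤ (t k r : ℝ) / 8 := by
      linarith [hbig k, (Nat.cast_nonneg k : (0 : ℝ) ≤ k)]
    rw [Real.logb_le_iff_le_rpow (by norm_num) (by positivity)] at h2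
    linarith
  · filter_upwards [hV (1 / 2) (by norm_num)] with k hk i w h2 h3
    refine hnp k i w h2 ?_
    have h4 : (w : ℝ) ≤ V k := by exact_mod_cast h3
    have h5 : (1 : ℝ) ≤ w := by exact_mod_cast h2
    have : (w : ℝ) < t k r := by linarith
    exact_mod_cast this

end Pool.Agent.Lib.MP_dee342_nt
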