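import Pool.Agent.Lib.MP_dee342_nt.QBas

/-! The auxiliary polynomial. -/

namespace Pool.Agent.Lib.MP_dee342_nt.Q

open MvPolynomial Finset Pool.Agent.Lib.Common.Subspace Pool.Agent.Lib.Common.ZeroLemma

variable {ι : Type*} [Fintype ι] [DecidableEq ι] {n : ℕ}

/-- Chebyshev: with `μ h` the mean of `z h` on `t h`, apply `auxpoly_cheb` to `z h x - μ h`,
which is bounded by `4 L`. If `L = 0` the set is empty. -/
theorem cheb5 {Y : Type*} (t : ι → Finset Y) (ht : ∀ h, (t h).Nonempty) (z : ι → Y → ℝ)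
    (m : ι → ℝ) {L θ : ℝ} (hθ : 0 < θ) (hz : ∀ h, ∀ x ∈ t h, |z h x| ≤ 2 * L)
    (hm : ∀ h, ∑ x ∈ t h, z h x ≤ (t h).card * m h)
    (hL : 80 * Fintype.card ι * L ^ 2 ≤ θ ^ 2) :
    5 * ((Fintype.piFinset t).filter fun x => ∑ h, m h + θ < ∑ h, z h (x h)).card ≤
      (Fintype.piFinset t).card := by
  have hc : ∀ h, (0 : ℝ) < (t h).card := fun h => by exact_mod_cast (ht h).card_pos
  set μ : ι → ℝ := fun h => (∑ x ∈ t h, z h x) / (t h).card with hμ
  have hμm : ∀ h, μ h ≤ m h := fun h => by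
    rw [hμ]
    dsimp only
    rw [div_le_iff₀ (hc h), mul_comm]
    exact hm h
  have hμL : ∀ h, |μ h| ≤ 2 * L := fun h => by
    rw [hμ]
    dsimp only
    rw [abs_div, Nat.abs_cast, div_le_iff₀ (hc h)]
    refine (Finset.abs_sum_le_sum_abs _ _).trans
      ((Finset.sum_le_card_nsmul _ _ (2 * L) (hz h)).trans ?_)
    rw [nsmul_eq_mul, mul_comm]
  have h1 := auxpoly_cheb t (fun h x => z h x - μ h) (4 * L) θ hθ.le (fun h => ?_) fun h x hx => ?_
  · have h2 : ((Fintype.piFinset t).filter fun x => ∑ h, m h + θ < ∑ h, z h (x h)).card ≤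
        ((Fintype.piFinset t).filter fun i => θ < ∑ h, (z h (i h) - μ h)).card := by
      refine card_le_card fun x hx => ?_
      rw [mem_filter] at hx ⊢
      refine ⟨hx.1, ?_⟩
      have := Finset.sum_le_sum fun h (_ : h ∈ univ) => hμm h
      rw [Finset.sum_sub_distrib]
      linarith [hx.2]
    have h3 : (5 * (((Fintype.piFinset t).filter
        fun i => θ < ∑ h, (z h (i h) - μ h)).card : ℝ)) ≤ (Fintype.piFinset t).card := by
      refine le_of_mul_le_mul_right ?_ (by positivity : 0 < θ ^ 2)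
      have h4 : (0 : ℝ) ≤ (Fintype.piFinset t).card := Nat.cast_nonneg _
      calc _ = 5 * ((((Fintype.piFinset t).filter
            fun i => θ < ∑ h, (z h (i h) - μ h)).card : ℝ) * θ ^ 2) := by ring
        _ ≤ 5 * (Fintype.card ι * (4 * L) ^ 2 * (Fintype.piFinset t).card) := by gcongr
        _ = (80 * Fintype.card ι * L ^ 2) * (Fintype.piFinset t).card := by ring
        _ ≤ θ ^ 2 * (Fintype.piFinset t).card := by gcongr
        _ = _ := by ring
    have h5 : 5 * ((Fintype.piFinset t).filter fun i => θ < ∑ h, (z h (i h) - μ h)).card ≤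
        (Fintype.piFinset t).card := by exact_mod_cast h3
    omega
  · rw [Finset.sum_sub_distrib, Finset.sum_const, nsmul_eq_mul, hμ]
    dsimp only
    rw [mul_div_cancel₀ _ (hc h).ne', sub_self]
  · have := hz h x hx
    have := hμL h
    have := abs_sub (z h x) (μ h)
    linarith

theorem QAux_mem {k d : ℕ} {x : Fin n → Fin n → ℕ} :
    x ∈ blockMon n k d ↔ ∀ u : Fin n, ∑ v, x u v = if k ≤ (u : ℕ) then d else 0 := by
  simp [blockMon, Fintype.mem_piFinset]

theorem QAux_abs (hn : 1 ≤ n) {k d : ℕ} {x : Fin n → Fin n → ℕ} (hx : x ∈ blockMon n k d)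
    (w : Fin n → ℝ) {L : ℝ} (hw : ∀ v, (n : ℝ) * d * |w v| ≤ L) :
    |∑ u, ∑ v, (x u v : ℝ) * w v| ≤ L := by
  have hL : 0 ≤ L := le_trans (by positivity) (hw ⟨0, hn⟩)
  have hx' := QAux_mem.1 hx
  have hrow : ∀ u, ∑ v, (x u v : ℝ) ≤ d := fun u => by
    have h1 : ∑ v, x u v ≤ d := by
      rw [hx' u]
      split_ifs <;> simp
    exact_mod_cast h1
  rcases Nat.eq_zero_or_pos d with h0 | h0
  · subst h0
    have h1 : ∀ u v, (x u v : ℝ) = 0 := fun u v => by
      have h2 := Finset.single_le_sum (f := fun v => (x u v : ℝ))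
        (fun v _ => Nat.cast_nonneg _) (mem_univ v)
      have h3 := hrow u
      have h4 : (0 : ℝ) ≤ x u v := Nat.cast_nonneg _
      simp only [Nat.cast_zero] at h3
      linarith
    simpa [h1] using hL
  · have hnd : (0 : ℝ) < (n : ℝ) * d := by positivity
    refine le_of_mul_le_mul_left ?_ hnd
    calc (n : ℝ) * d * |∑ u, ∑ v, (x u v : ℝ) * w v|
        ≤ (n : ℝ) * d * ∑ u, ∑ v, (x u v : ℝ) * |w v| := by
          refine mul_le_mul_of_nonneg_left ?_ hnd.le
          refine (Finset.abs_sum_le_sum_abs _ _).trans (Finset.sum_le_sum fun u _ => ?_)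
          refine (Finset.abs_sum_le_sum_abs _ _).trans (Finset.sum_le_sum fun v _ => ?_)
          rw [abs_mul, Nat.abs_cast]
      _ = ∑ u, ∑ v, (x u v : ℝ) * ((n : ℝ) * d * |w v|) := by
          simp only [Finset.mul_sum]
          exact Finset.sum_congr rfl fun u _ => Finset.sum_congr rfl fun v _ => by ring
      _ ≤ ∑ u, ∑ v, (x u v : ℝ) * L :=
          Finset.sum_le_sum fun u _ => Finset.sum_le_sum fun v _ =>
            mul_le_mul_of_nonneg_left (hw v) (Nat.cast_nonneg _)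
      _ ≤ ∑ _u : Fin n, (d : ℝ) * L := by
          refine Finset.sum_le_sum fun u _ => ?_
          rw [← Finset.sum_mul]
          exact mul_le_mul_of_nonneg_right (hrow u) hL
      _ = _ := by simp [mul_assoc]

theorem QAux_const (n : ℕ) :
    ((2 : ℝ) ^ (n * n)) * (2 ^ (n * n) * ((n : ℝ) ^ n * n.factorial)) * n.factorial ≤
      Real.exp (5 * n ^ 2) := by
  have h1 : (n : ℝ) ^ n ≤ Real.exp (n ^ 2) := by
    have h2 : (n : ℝ) ≤ Real.exp n := by linarith [Real.add_one_le_exp (n : ℝ)]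
    calc (n : ℝ) ^ n ≤ Real.exp n ^ n := pow_le_pow_left₀ (Nat.cast_nonneg _) h2 n
      _ = _ := by rw [← Real.exp_nat_mul, sq]
  have h2 : (n.factorial : ℝ) ≤ Real.exp (n ^ 2) := by
    refine le_trans ?_ h1
    exact_mod_cast Nat.factorial_le_pow n
  have h3 : (2 : ℝ) ^ (n * n) ≤ Real.exp (n ^ 2) := by
    have h4 : (2 : ℝ) ≤ Real.exp 1 := by linarith [Real.add_one_le_exp (1 : ℝ)]
    calc (2 : ℝ) ^ (n * n) ≤ Real.exp 1 ^ (n * n) := pow_le_pow_left₀ (by norm_num) h4 _
      _ = _ := by rw [← Real.exp_nat_mul]; push_cast; rw [mul_one, sq]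
  calc _ ≤ Real.exp (n ^ 2) * (Real.exp (n ^ 2) * (Real.exp (n ^ 2) * Real.exp (n ^ 2))) *
        Real.exp (n ^ 2) := by gcongr
    _ = _ := by
      simp only [← Real.exp_add]
      congr 1
      ring

omit [DecidableEq ι] in
theorem QAux_rdeg (k d : ι → ℕ) : ∑ s : ι × Fin n, rdeg k d s ≤ n * ∑ h, d h := by
  rw [Fintype.sum_prod_type, Finset.mul_sum]
  refine Finset.sum_le_sum fun h _ => ?_
  refine (Finset.sum_le_card_nsmul _ _ (d h) fun u _ => ?_).trans (by simp)
  unfold rdeg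
  split_ifs <;> simp

/-- Follow `exists_aux` in `Common/Subspace/AuxPoly.lean`. Let
`Mon = piFinset fun h => blockMon n (k h) (d h)`. The unknowns are integers `c x` for `x` in
`Good = {x ∈ Mon | ∑ h, (∑ x w - g jj) ≤ mean + θ}`, at least `4/5` of `Mon` (`cheb5`,
`sum_blockMon`, `half_le_good`). The equations say that the coefficients of `lin (U p) P`,
`P = ∑ c x * basP x`, vanish at the `exM x'` with `x'` in `Bad p`, at most `1/5` of `Mon` each
(`cheb5` for `-e p`). `auxpoly_siegel`. The entries are at most `n ^ (n ∑ d) * n! ^ ∑ d`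
(`len_lin_le`, `len_basP`), `card Mon ≤ 2 ^ (n n ∑ d)`, so `∑ |c x| * n! ^ ∑ d` is at most
`(4 ^ (n n) n ^ n n! n!) ^ ∑ d ≤ exp (5 n ^ 2) ^ ∑ d`. `P ≠ 0` by `top_indep`. Every exponent in
the support of `lin (U p) P` is some `exM x'`, `x' ∈ Mon` (`BlockHom.lin`). -/
theorem exists_aux2 (hn : 1 ≤ n) (k d J : ι → ℕ) (π : ι → Equiv.Perm (Fin n))
    (hJ : ∀ h, 2 * n ^ 2 * J h ≤ d h) (w : ι → Fin n → ℝ) (g : ι → ℝ) (hg : ∀ h, 0 ≤ g h)
    (U : Bool → Matrix (Fin n) (Fin n) ℤ) (hU : ∀ p i j, |U p i j| ≤ 1)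
    (e : Bool → ι → Fin n → ℝ) {L θ : ℝ} (hθ : 0 < θ)
    (hw : ∀ h v, (n : ℝ) * d h * |w h v| ≤ L) (he : ∀ p h v, (n : ℝ) * d h * |e p h v| ≤ L)
    (hgJ : ∀ h, g h * J h ≤ L) (hL : 80 * Fintype.card ι * L ^ 2 ≤ θ ^ 2) :
    ∃ P : MvPolynomial (Var ι n) ℚ, P ≠ 0 ∧ IsInt P ∧ BlockHom (rdeg k d) P ∧
      len P ≤ Real.exp (5 * n ^ 2) ^ (∑ h, d h) ∧
      (∀ p, ∀ ν ∈ (lin (fun _ => (U p).map (Int.cast : ℤ → ℚ)) P).support,
        ∑ h, (nrow n (k h) : ℝ) * d h / n * ∑ v, e p h v - θ ≤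
          Finsupp.weight (fun s : Var ι n => e p s.1.1 s.2) ν) ∧
      ∀ {τ : Type} (Φ : MvPolynomial (Var ι n) ℚ →ₐ[ℚ] MvPolynomial τ ℚ) (ρ : τ → ℝ),
        (∀ t, 0 ≤ ρ t) → ∀ c : ℝ, 1 ≤ c →
        (∀ s, nrm Rat.AbsoluteValue.real ρ (Φ (X s)) ≤ c * Real.exp (w s.1.1 s.2)) →
        (∀ h, nrm Rat.AbsoluteValue.real ρ (Φ (detP k π h)) ≤ c ^ n *
          Real.exp (∑ v ∈ univ.filter (fun v : Fin n => k h ≤ (v : ℕ)), w h (π h v) - g h)) →
        nrm Rat.AbsoluteValue.real ρ (Φ P) ≤ (Real.exp (5 * n ^ 2) * c ^ (2 * n)) ^ (∑ h, d h) *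
          Real.exp (∑ h, ((nrow n (k h) : ℝ) * d h / n * ∑ v, w h v - g h * J h / 2) + θ) := by
  classical
  have hn' : (1 : ℝ) ≤ n := by exact_mod_cast hn
  have hJd : ∀ h, J h ≤ d h := fun h => by
    refine le_trans ?_ (hJ h)
    have : 1 ≤ 2 * n ^ 2 := by nlinarith
    exact Nat.le_mul_of_pos_left _ this
  have hfac : (1 : ℝ) ≤ n.factorial := by exact_mod_cast n.factorial_pos
  set D := ∑ h, d h with hD
  have hlenB : ∀ x, len (basP k J π x) ≤ (n.factorial : ℝ) ^ D := fun x =>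
    (len_basP k J π x).trans (pow_le_pow_right₀ hfac (Finset.sum_le_sum fun h _ => hJd h))
  set Mon : Finset (ι → Fin n → Fin n → ℕ) :=
    Fintype.piFinset fun h => blockMon n (k h) (d h) with hMon
  have hmem : ∀ x, x ∈ Mon ↔ ∀ h, x h ∈ blockMon n (k h) (d h) := fun x => Fintype.mem_piFinset
  let z : ι → (Fin n → Fin n → ℕ) → ℝ := fun h y => ∑ u, ∑ v, (y u v : ℝ) * w h v -
    g h * ((if ∀ u : Fin n, k h ≤ (u : ℕ) → J h ≤ y u (π h u) then J h else 0 : ℕ) : ℝ)
  let m : ι → ℝ := fun h => (nrow n (k h) : ℝ) * d h / n * ∑ v, w h v - g h * J h / 2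
  have hG := cheb5 (fun h => blockMon n (k h) (d h)) (fun h => blockMon_nonempty _ _) z m hθ
    (fun h y hy => ?_) (fun h => ?_) hL
  rotate_left
  · have a1 := QAux_abs hn hy (w h) (hw h)
    have a2 : |g h * ((if ∀ u : Fin n, k h ≤ (u : ℕ) → J h ≤ y u (π h u) then J h else 0 : ℕ) : ℝ)|
        ≤ L := by
      rw [abs_of_nonneg (mul_nonneg (hg h) (Nat.cast_nonneg _))]
      refine le_trans (mul_le_mul_of_nonneg_left ?_ (hg h)) (hgJ h)
      split_ifs <;> simp
    have a3 := abs_sub (∑ u, ∑ v, (y u v : ℝ) * w h v)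
      (g h * ((if ∀ u : Fin n, k h ≤ (u : ℕ) → J h ≤ y u (π h u) then J h else 0 : ℕ) : ℝ))
    simp only [z]
    linarith
  · have a1 := half_le_good (k h) (d h) (J h) (hJ h) (π h)
    have a2 : ((blockMon n (k h) (d h)).card : ℝ) ≤ 2 * ((blockMon n (k h) (d h)).filter
        fun x => ∀ u : Fin n, k h ≤ (u : ℕ) → J h ≤ x u (π h u)).card := by exact_mod_cast a1
    have a3 : ∑ y ∈ blockMon n (k h) (d h), g h *
        ((if ∀ u : Fin n, k h ≤ (u : ℕ) → J h ≤ y u (π h u) then J h else 0 : ℕ) : ℝ) =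
        g h * J h * ((blockMon n (k h) (d h)).filter
          fun x => ∀ u : Fin n, k h ≤ (u : ℕ) → J h ≤ x u (π h u)).card := by
      rw [Finset.card_filter]
      push_cast
      rw [Finset.mul_sum]
      refine Finset.sum_congr rfl fun y _ => ?_
      split_ifs <;> simp
    have a4 : 0 ≤ g h * J h := mul_nonneg (hg h) (Nat.cast_nonneg _)
    simp only [z, m]
    rw [Finset.sum_sub_distrib, sum_blockMon, a3]
    nlinarith [mul_le_mul_of_nonneg_left a2 a4]
  let z' : Bool → ι → (Fin n → Fin n → ℕ) → ℝ := fun p h y => -∑ u, ∑ v, (y u v : ℝ) * e p h v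
  let m' : Bool → ι → ℝ := fun p h => -((nrow n (k h) : ℝ) * d h / n * ∑ v, e p h v)
  let Bad : Bool → Finset (ι → Fin n → Fin n → ℕ) := fun p =>
    Mon.filter fun x => ∑ h, m' p h + θ < ∑ h, z' p h (x h)
  have hBad : ∀ p, 5 * (Bad p).card ≤ Mon.card := by
    intro p
    refine cheb5 (fun h => blockMon n (k h) (d h)) (fun h => blockMon_nonempty _ _) (z' p) (m' p)
      hθ (fun h y hy => ?_) (fun h => ?_) hL
    · have a1 := QAux_abs hn hy (e p h) (he p h)
      simp only [z']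
      rw [abs_neg]
      linarith [abs_nonneg (∑ u, ∑ v, (y u v : ℝ) * e p h v)]
    · simp only [z', m']
      rw [Finset.sum_neg_distrib, sum_blockMon, mul_neg]
  set Good : Finset (ι → Fin n → Fin n → ℕ) :=
    Mon.filter fun x => ¬ (∑ h, m h + θ < ∑ h, z h (x h)) with hGood
  have hsplit := Finset.card_filter_add_card_filter_not (s := Mon)
    (fun x => ∑ h, m h + θ < ∑ h, z h (x h))
  have hMon0 : 0 < Mon.card :=
    card_pos.mpr (Fintype.piFinset_nonempty.2 fun h => blockMon_nonempty _ _)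
  have hG' : 5 * (Mon.filter fun x => ∑ h, m h + θ < ∑ h, z h (x h)).card ≤ Mon.card := hG
  rw [← hGood] at hsplit
  have hGM : ∀ i : Good, ∀ h, i.1 h ∈ blockMon n (k h) (d h) := fun i =>
    (hmem _).1 (mem_filter.1 i.2).1
  have hint : ∀ p (i : ι → Fin n → Fin n → ℕ) (ν : Var ι n →₀ ℕ), ∃ w : ℤ,
      coeff ν (lin (fun _ => (U p).map (Int.cast : ℤ → ℚ)) (basP k J π i)) = w := by
    intro p i
    exact (isInt_basP k J π i).lin fun _ => U p
  choose a ha using hint
  have hK : 1 ≤ ((n : ℝ) ^ n * n.factorial) ^ D :=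
    one_le_pow₀ (one_le_mul_of_one_le_of_one_le (one_le_pow₀ hn') hfac)
  obtain ⟨t, t0, t1, t2⟩ := auxpoly_siegel (α := Σ p, Bad p) (β := Good)
    (Matrix.of fun r i => a r.1 i (exM r.2.1)) _ hK (fun r i => by
      have b1 := abs_coeff_le_len
        (lin (fun _ => (U r.1).map (Int.cast : ℤ → ℚ)) (basP k J π i)) (exM r.2.1)
      have b2 := len_lin_le (blockHom_basP k J d π i (hGM i))
        (fun _ => (U r.1).map (Int.cast : ℤ → ℚ)) 1 fun _ a b => by
          have := hU r.1 a b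
          simp only [Matrix.map_apply, Rat.cast_intCast]
          exact_mod_cast this
      rw [ha, Rat.cast_intCast] at b1
      refine b1.trans (b2.trans ?_)
      rw [Fintype.card_fin, mul_one, mul_pow, ← pow_mul]
      exact mul_le_mul (pow_le_pow_right₀ hn' (QAux_rdeg k d)) (hlenB _) (len_nonneg _)
        (by positivity)) (by
      rw [Fintype.card_sigma, Fintype.card_coe]
      simp only [Fintype.card_coe, Fintype.sum_bool]
      have := hBad true
      have := hBad false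
      omega) (by
      rw [Fintype.card_coe]
      omega)
  have hcard : (Good.card : ℝ) ≤ (2 ^ (n * n)) ^ D := by
    have : Good.card ≤ (2 ^ (n * n)) ^ D := by
      refine (card_filter_le _ _).trans ?_
      rw [hMon, Fintype.card_piFinset, hD, ← Finset.prod_pow_eq_pow_sum]
      exact Finset.prod_le_prod' fun h _ => card_blockMon_le _ _ _
    exact_mod_cast this
  have hsum : (∑ i : Good, |(t i : ℝ)|) * (n.factorial : ℝ) ^ D ≤ Real.exp (5 * n ^ 2) ^ D := by
    have b1 : ∑ i : Good, |(t i : ℝ)| ≤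
        (2 ^ (n * n)) ^ D * ((2 ^ (n * n)) ^ D * ((n : ℝ) ^ n * n.factorial) ^ D) := by
      refine (Finset.sum_le_card_nsmul _ _ _ fun i _ => t2 i).trans ?_
      rw [Finset.card_univ, Fintype.card_coe, nsmul_eq_mul]
      gcongr
    calc _ ≤ (2 ^ (n * n)) ^ D * ((2 ^ (n * n)) ^ D * ((n : ℝ) ^ n * n.factorial) ^ D) *
          (n.factorial : ℝ) ^ D := by gcongr
      _ = ((2 : ℝ) ^ (n * n) * (2 ^ (n * n) * ((n : ℝ) ^ n * n.factorial)) * n.factorial) ^ D := by
          simp only [mul_pow]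
      _ ≤ _ := pow_le_pow_left₀ (by positivity) (QAux_const n) D
  have hsum' : ∑ i : Good, |(t i : ℝ)| ≤ Real.exp (5 * n ^ 2) ^ D := by
    refine le_trans ?_ hsum
    exact le_mul_of_one_le_right (Finset.sum_nonneg fun i _ => abs_nonneg _) (one_le_pow₀ hfac)
  have hP : BlockHom (rdeg k d) (∑ i : Good, C (t i : ℚ) * basP k J π i) := by
    intro μ hμ
    obtain ⟨i, -, hi⟩ := mem_biUnion.mp (support_sum hμ)
    refine blockHom_basP k J d π i (hGM i) μ ?_
    rw [mem_support_iff] at hi ⊢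
    intro h0
    exact hi (by rw [coeff_C_mul, h0, mul_zero])
  refine ⟨∑ i : Good, C (t i : ℚ) * basP k J π i, fun h => t0 (funext fun i => ?_),
    isInt_sum _ _ fun i _ => (isInt_C _).mul (isInt_basP k J π i), hP, ?_, fun p ν hν => ?_,
    fun Φ ρ hρ c hc h1 h2 => ?_⟩
  · have h1 := top_indep (ω := diagW k π) (univ : Finset Good) (fun i => exM i.1)
      (fun i _ j _ hij => Subtype.ext (exM_injective hij)) (fun i => basP k J π i)
      (fun i _ => top_basP k J π i) (fun i => (t i : ℚ)) h i (mem_univ i)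
    exact_mod_cast h1
  · refine (nrm_sum_le (fun _ => zero_le_one) _ _).trans (le_trans ?_ hsum)
    rw [Finset.sum_mul]
    refine Finset.sum_le_sum fun i _ => ?_
    rw [nrm_C_mul, Rat.AbsoluteValue.real_eq_abs]
    simp only [Rat.cast_abs, Rat.cast_intCast]
    exact mul_le_mul_of_nonneg_left (hlenB i) (abs_nonneg _)
  · let i : ι → Fin n → Fin n → ℕ := fun h u v => ν ((h, u), v)
    have hi : i ∈ Mon := (hmem i).mpr fun h => QAux_mem.2 fun u => hP.lin _ ν hν (h, u)
    have hFν : exM i = ν := by ext s; rfl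
    have hw' : Finsupp.weight (fun s : Var ι n => e p s.1.1 s.2) ν = -∑ h, z' p h (i h) := by
      rw [Finsupp.weight_eq_sum, Fintype.sum_prod_type, Fintype.sum_prod_type]
      simp only [z', i, nsmul_eq_mul, Finset.sum_neg_distrib, neg_neg]
    have hm' : ∑ h, (nrow n (k h) : ℝ) * d h / n * ∑ v, e p h v = -∑ h, m' p h := by
      simp only [m', Finset.sum_neg_distrib, neg_neg]
    rw [hw', hm']
    by_contra hlt
    have hb : i ∈ Bad p := mem_filter.mpr ⟨hi, by linarith [not_le.mp hlt]⟩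
    refine mem_support_iff.mp hν ?_
    have h1 := congrFun t1 ⟨p, i, hb⟩
    simp only [Matrix.mulVec, dotProduct, Matrix.of_apply, Pi.zero_apply, hFν] at h1
    rw [map_sum, coeff_sum]
    have e : ∀ j : Good, coeff ν (lin (fun _ => (U p).map (Int.cast : ℤ → ℚ))
        (C (t j : ℚ) * basP k J π j)) = ((a p j ν * t j : ℤ) : ℚ) := by
      intro j
      rw [← smul_eq_C_mul, map_smul, coeff_smul, ha]
      simp [mul_comm]
    simp only [e]
    exact_mod_cast h1
  · rw [map_sum]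
    refine (nrm_sum_le hρ _ _).trans ?_
    have b1 : ∀ i : Good, nrm Rat.AbsoluteValue.real ρ (Φ (C (t i : ℚ) * basP k J π i)) ≤
        |(t i : ℝ)| * ((c ^ (2 * n)) ^ D * Real.exp (∑ h, m h + θ)) := by
      intro i
      rw [map_mul, algHom_C, algebraMap_eq, nrm_C_mul, Rat.AbsoluteValue.real_eq_abs]
      simp only [Rat.cast_abs, Rat.cast_intCast]
      refine mul_le_mul_of_nonneg_left ?_ (abs_nonneg _)
      refine (nrm_basP k J d hJd π i (hGM i) Φ hρ hc w g h1 h2).trans ?_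
      refine mul_le_mul_of_nonneg_left (Real.exp_le_exp.2 ?_) (by positivity)
      exact not_lt.1 (mem_filter.1 i.2).2
    refine (Finset.sum_le_sum fun i _ => b1 i).trans ?_
    rw [← Finset.sum_mul, mul_pow, mul_assoc]
    exact mul_le_mul_of_nonneg_right hsum' (by positivity)

end Pool.Agent.Lib.MP_dee342_nt.Q
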