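import Pool.Agent.Lib.MP_dee342_nt.QRow

/-! The basis adapted to the minors. -/

namespace Pool.Agent.Lib.MP_dee342_nt.Q

open MvPolynomial Finset Pool.Agent.Lib.Common.Subspace Pool.Agent.Lib.Common.ZeroLemma

variable {ι : Type*} {n : ℕ}

/-- The exponent of the diagonal term of `detP k π h`. -/
noncomputable def diagE (k : ι → ℕ) (π : ι → Equiv.Perm (Fin n)) (h : ι) : Var ι n →₀ ℕ :=
  ∑ u ∈ univ.filter (fun u : Fin n => k h ≤ (u : ℕ)), Finsupp.single ((h, u), π h u) 1

/-- Minus the indicator of the diagonal variables. -/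
def diagW (k : ι → ℕ) (π : ι → Equiv.Perm (Fin n)) (s : Var ι n) : ℝ :=
  if k s.1.1 ≤ (s.1.2 : ℕ) ∧ s.2 = π s.1.1 s.1.2 then -1 else 0

/-- `P` is `X ^ ν` plus terms with fewer diagonal variables. -/
def Top {σ : Type*} (ω : σ → ℝ) (ν : σ →₀ ℕ) (P : MvPolynomial σ ℚ) : Prop :=
  InFil ω (Finsupp.weight ω ν + 1) (P - monomial ν 1)

theorem top_monomial {σ : Type*} (ω : σ → ℝ) (ν : σ →₀ ℕ) : Top ω ν (monomial ν 1) := by
  rw [Top, sub_self]
  exact inFil_zero _

/-- `P Q - m m' = (P - m) (Q - m') + (P - m) m' + m (Q - m')`. -/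
theorem Top.mul {σ : Type*} {ω : σ → ℝ} {ν ν' : σ →₀ ℕ} {P Q : MvPolynomial σ ℚ}
    (h : Top ω ν P) (h' : Top ω ν' Q) : Top ω (ν + ν') (P * Q) := by
  have e : P * Q - monomial (ν + ν') 1 = (P - monomial ν 1) * (Q - monomial ν' 1) +
      (P - monomial ν 1) * monomial ν' 1 + monomial ν 1 * (Q - monomial ν' 1) := by
    rw [show (monomial (ν + ν') 1 : MvPolynomial σ ℚ) = monomial ν 1 * monomial ν' 1 by
      rw [monomial_mul, one_mul]]
    ring
  rw [Top, e, map_add]
  exact (((InFil.mul h h').mono (by linarith)).add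
    ((InFil.mul h (fil_monomial ν' 1)).mono (by linarith))).add
    (((fil_monomial ν 1).mul h').mono (by linarith))

theorem Top.pow {σ : Type*} {ω : σ → ℝ} {ν : σ →₀ ℕ} {P : MvPolynomial σ ℚ} (h : Top ω ν P)
    (m : ℕ) : Top ω (m • ν) (P ^ m) := by
  induction m with
  | zero =>
    rw [zero_smul, pow_zero]
    exact top_monomial ω 0
  | succ m ih =>
    rw [succ_nsmul, pow_succ]
    exact ih.mul h

theorem top_prod {σ I : Type*} {ω : σ → ℝ} (s : Finset I) (ν : I → σ →₀ ℕ)
    (P : I → MvPolynomial σ ℚ) (h : ∀ i ∈ s, Top ω (ν i) (P i)) :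
    Top ω (∑ i ∈ s, ν i) (∏ i ∈ s, P i) := by
  classical
  induction s using Finset.induction_on with
  | empty =>
    rw [sum_empty, prod_empty]
    exact top_monomial ω 0
  | insert a s ha ih =>
    rw [sum_insert ha, prod_insert ha]
    exact (h a (mem_insert_self _ _)).mul (ih fun i hi => h i (mem_insert_of_mem hi))

/-- Take `i` with `c i ≠ 0` and least weight of `ν i`, and look at the coefficient of `ν i`. -/
theorem top_indep {σ I : Type*} {ω : σ → ℝ} (s : Finset I) (ν : I → σ →₀ ℕ)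
    (hν : Set.InjOn ν s) (P : I → MvPolynomial σ ℚ) (h : ∀ i ∈ s, Top ω (ν i) (P i))
    (c : I → ℚ) (hc : ∑ i ∈ s, C (c i) * P i = 0) : ∀ i ∈ s, c i = 0 := by
  classical
  by_contra h0
  push Not at h0
  obtain ⟨i₀, hi₀, hm⟩ := (s.filter fun i => c i ≠ 0).exists_min_image
    (fun i => Finsupp.weight ω (ν i)) (by
      obtain ⟨i, h1, h2⟩ := h0
      exact ⟨i, mem_filter.2 ⟨h1, h2⟩⟩)
  obtain ⟨h1, h2⟩ := mem_filter.1 hi₀
  have key : ∀ i ∈ s, c i ≠ 0 → coeff (ν i₀) (P i) = if ν i = ν i₀ then 1 else 0 := by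
    intro i hi hc
    have h3 : coeff (ν i₀) (P i - monomial (ν i) 1) = 0 := by
      by_contra h4
      linarith [h i hi _ (mem_support_iff.2 h4), hm i (mem_filter.2 ⟨hi, hc⟩)]
    rwa [coeff_sub, coeff_monomial, sub_eq_zero] at h3
  have h3 := congrArg (coeff (ν i₀)) hc
  rw [coeff_sum, sum_eq_single_of_mem i₀ h1, coeff_C_mul, key i₀ h1 h2, if_pos rfl, mul_one,
    coeff_zero] at h3
  · exact h2 h3
  · intro i hi hne
    rw [coeff_C_mul]
    by_cases h4 : c i = 0
    · rw [h4, zero_mul]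
    · rw [key i hi h4, if_neg fun e => hne (hν hi h1 e), mul_zero]

/-- `Matrix.det_apply`; the identity permutation gives the monomial. For another permutation `g`
some `v` has `g v ≠ v`; the entry `(g v, v)` has weight `≥ 0` (it is zero or an off-diagonal
variable), every entry of a column `v ≥ k` has weight `≥ -1`, every entry of a column `v < k` has
weight `≥ 0`, and if `v < k` the entry is zero. `inFil_prod`. -/
theorem top_detP (k : ι → ℕ) (π : ι → Equiv.Perm (Fin n)) (h : ι) :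
    Top (diagW k π) (diagE k π h) (detP k π h) := by
  have e1 : Finsupp.weight (diagW k π) (diagE k π h) =
      ∑ v : Fin n, if k h ≤ (v : ℕ) then (-1 : ℝ) else 0 := by
    rw [diagE, map_sum, sum_filter]
    refine sum_congr rfl fun v _ => ?_
    split_ifs with h1
    · simp [Finsupp.weight_single, diagW, h1]
    · rfl
  have e2 : (monomial (diagE k π h) 1 : MvPolynomial (Var ι n) ℚ) =
      ∏ v : Fin n, if k h ≤ (v : ℕ) then X ((h, v), π h v) else 1 := by
    rw [diagE, monomial_sum_one, prod_filter]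
    rfl
  rw [Top, e1, e2, detP, Matrix.det_apply', ← add_sum_erase _ _ (mem_univ (1 : Equiv.Perm (Fin n)))]
  simp only [Equiv.Perm.sign_one, Units.val_one, Int.cast_one, one_mul, Equiv.Perm.coe_one, id_eq,
    Matrix.of_apply, and_self, if_true, add_sub_cancel_left]
  refine inFil_sum _ _ fun g hg => ?_
  obtain ⟨v₀, hv⟩ : ∃ v, g v ≠ v := by
    by_contra h0
    push Not at h0
    exact (mem_erase.1 hg).1 (Equiv.ext h0)
  have h1 := inFil_prod (ω := diagW k π) univ
    (fun v : Fin n => (if k h ≤ (v : ℕ) then (-1 : ℝ) else 0) + if v = v₀ then 1 else 0)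
    (fun v => if k h ≤ (g v : ℕ) ∧ k h ≤ (v : ℕ) then X ((h, g v), π h v)
      else if g v = v then 1 else 0) fun v _ => by
      by_cases h2 : k h ≤ (g v : ℕ) ∧ k h ≤ (v : ℕ)
      · rw [if_pos h2, if_pos h2.2]
        refine (inFil_X _).mono ?_
        unfold diagW
        by_cases h3 : v = v₀
        · rw [if_pos h3, if_neg fun h4 => hv (h3 ▸ ((π h).injective h4.2).symm)]
          norm_num
        · rw [if_neg h3]
          split_ifs <;> norm_num
      · rw [if_neg h2]
        by_cases h3 : g v = v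
        · rw [if_pos h3, if_neg (c := v = v₀) fun h4 => hv (h4 ▸ h3)]
          refine inFil_one.mono ?_
          split_ifs <;> norm_num
        · rw [if_neg h3]
          exact inFil_zero _
  rw [sum_add_distrib, sum_ite_eq' univ v₀, if_pos (mem_univ _)] at h1
  have h2 := (inFil_C (ω := diagW k π) ((Equiv.Perm.sign g : ℤ) : ℚ)).mul h1
  rwa [zero_add, map_intCast] at h2

theorem isInt_detP (k : ι → ℕ) (π : ι → Equiv.Perm (Fin n)) (h : ι) : IsInt (detP k π h) := by
  refine isInt_det _ fun u v => ?_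
  rw [Matrix.of_apply]
  split_ifs
  exacts [isInt_X _, isInt_one, isInt_zero]

theorem len_detP (k : ι → ℕ) (π : ι → Equiv.Perm (Fin n)) (h : ι) :
    len (detP k π h) ≤ n.factorial := by
  have h1 := nrm_det_le (v := Rat.AbsoluteValue.real) (ρ := fun _ : Var ι n => (1 : ℝ))
    (fun _ => zero_le_one) (Matrix.of fun u v : Fin n => if k h ≤ (u : ℕ) ∧ k h ≤ (v : ℕ) then
      X ((h, u), π h v) else if u = v then 1 else 0) 1 fun u v => by
      rw [Matrix.of_apply]
      split_ifs
      exacts [(nrm_X _).le, nrm_one.le, nrm_zero.le.trans zero_le_one]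
  rwa [one_pow, mul_one, Fintype.card_fin] at h1

theorem blockHom_mul {κ : Type*} [Fintype κ] {d d' : ι → ℕ} {P Q : MvPolynomial (ι × κ) ℚ}
    (h : BlockHom d P) (h' : BlockHom d' Q) : BlockHom (d + d') (P * Q) := by
  classical
  intro μ hμ i
  obtain ⟨a, ha, b, hb, rfl⟩ := Finset.mem_add.1 (support_mul P Q hμ)
  simp only [Finsupp.add_apply, sum_add_distrib, h a ha i, h' b hb i, Pi.add_apply]

theorem QBas_hom {κ : Type*} [Fintype κ] [DecidableEq ι] {d : ι → ℕ} {P : MvPolynomial (ι × κ) ℚ}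
    (key : ∀ (h : ι) (c : ℝ), InFil (fun s : ι × κ => if s.1 = h then c else 0) (d h * c) P) :
    BlockHom d P := by
  intro μ hμ h
  have h1 := key h 1 μ hμ
  have h2 := key h (-1) μ hμ
  rw [fil_weight_block] at h1 h2
  have h3 : ((∑ j, μ (h, j) : ℕ) : ℝ) = d h := by linarith
  exact_mod_cast h3

theorem QBas_hom_monomial {κ : Type*} [Fintype κ] (μ : ι × κ →₀ ℕ) :
    BlockHom (fun h => ∑ j, μ (h, j)) (monomial μ (1 : ℚ)) := by
  intro ν hν h
  rw [Finset.mem_singleton.1 (support_monomial_subset hν)]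

theorem QBas_hom_prod {κ I : Type*} [Fintype κ] (s : Finset I) (d : I → ι → ℕ)
    (P : I → MvPolynomial (ι × κ) ℚ) (h : ∀ i ∈ s, BlockHom (d i) (P i)) :
    BlockHom (∑ i ∈ s, d i) (∏ i ∈ s, P i) := by
  classical
  induction s using Finset.induction_on with
  | empty =>
    have := QBas_hom_monomial (0 : ι × κ →₀ ℕ)
    simpa [Pi.zero_def] using this
  | insert a s ha ih =>
    rw [sum_insert ha, prod_insert ha]
    exact blockHom_mul (h a (mem_insert_self _ _)) (ih fun i hi => h i (mem_insert_of_mem hi))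

theorem QBas_hom_pow {κ : Type*} [Fintype κ] {d : ι → ℕ} {P : MvPolynomial (ι × κ) ℚ}
    (h : BlockHom d P) (m : ℕ) : BlockHom (m • d) (P ^ m) := by
  have := QBas_hom_prod (range m) (fun _ => d) (fun _ => P) fun _ _ => h
  simpa using this

/-- Every term of the Leibniz expansion by rows is a product of row entries, each zero, or
homogeneous of degree one in its row (`k ≤ u`), or constant. -/
theorem blockHom_detP [DecidableEq ι] (k : ι → ℕ) (π : ι → Equiv.Perm (Fin n)) (h : ι) :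
    BlockHom (fun s : ι × Fin n => if s.1 = h ∧ k h ≤ (s.2 : ℕ) then 1 else 0) (detP k π h) := by
  refine QBas_hom fun s c => ?_
  have h1 := inFil_det (ω := fun t : Var ι n => if t.1 = s then c else 0)
    (Matrix.of fun u v : Fin n => if k h ≤ (u : ℕ) ∧ k h ≤ (v : ℕ) then X ((h, u), π h v)
      else if u = v then 1 else 0).transpose
    (fun u => if (h, u) = s ∧ k h ≤ (u : ℕ) then c else 0) fun v u => by
      rw [Matrix.transpose_apply, Matrix.of_apply]
      by_cases h2 : k h ≤ (u : ℕ) ∧ k h ≤ (v : ℕ)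
      · rw [if_pos h2]
        refine (inFil_X _).mono (le_of_eq ?_)
        simp [h2.1]
      · rw [if_neg h2]
        by_cases h3 : u = v
        · rw [if_pos h3, if_neg fun h4 => h2 ⟨h4.2, h3 ▸ h4.2⟩]
          exact inFil_one
        · rw [if_neg h3]
          exact inFil_zero _
  rw [Matrix.det_transpose, sum_eq_single s.2 (fun u _ hu => if_neg fun h4 => hu (by
    rw [← h4.1])) (by simp)] at h1
  refine InFil.mono h1 (le_of_eq ?_)
  obtain ⟨h', u⟩ := s
  by_cases h2 : h' = h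
  · subst h2
    simp
  · simp [h2, Ne.symm h2]

variable [Fintype ι] [DecidableEq ι]

/-- The exponent of the minor in the basis element attached to `x`. -/
def jj (k J : ι → ℕ) (π : ι → Equiv.Perm (Fin n)) (x : ι → Fin n → Fin n → ℕ) (h : ι) : ℕ :=
  if ∀ u : Fin n, k h ≤ (u : ℕ) → J h ≤ x h u (π h u) then J h else 0

/-- The exponent vector of a family of exponent matrices. -/
noncomputable def exM (x : ι → Fin n → Fin n → ℕ) : Var ι n →₀ ℕ :=
  Finsupp.equivFunOnFinite.symm fun s => x s.1.1 s.1.2 s.2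

/-- The basis element attached to `x`. -/
noncomputable def basP (k J : ι → ℕ) (π : ι → Equiv.Perm (Fin n)) (x : ι → Fin n → Fin n → ℕ) :
    MvPolynomial (Var ι n) ℚ :=
  (∏ h, detP k π h ^ jj k J π x h) * monomial (exM x - ∑ h, jj k J π x h • diagE k π h) 1

theorem exM_injective : Function.Injective (exM (ι := ι) (n := n)) := by
  intro x y e
  funext h u v
  exact congrFun (Finsupp.equivFunOnFinite.symm.injective e) ((h, u), v)

omit [DecidableEq ι] in
theorem QBas_diag (k j : ι → ℕ) (π : ι → Equiv.Perm (Fin n)) (h : ι) (u v : Fin n) :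
    (∑ h, j h • diagE k π h) ((h, u), v) = if k h ≤ (u : ℕ) ∧ v = π h u then j h else 0 := by
  rw [Finsupp.finsetSum_apply, sum_eq_single h, Finsupp.smul_apply, diagE,
    Finsupp.finsetSum_apply, sum_filter, sum_eq_single u]
  · by_cases h1 : k h ≤ (u : ℕ) <;> by_cases h2 : v = π h u <;>
      simp [h1, h2]
  · intro u' _ hu
    simp [hu]
  · simp
  · intro h' _ hh
    rw [Finsupp.smul_apply, diagE, Finsupp.finsetSum_apply,
      sum_eq_zero fun u' _ => by simp [hh], smul_zero]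
  · simp

omit [Fintype ι] [DecidableEq ι] in
theorem QBas_jj (k J : ι → ℕ) (π : ι → Equiv.Perm (Fin n)) (x : ι → Fin n → Fin n → ℕ) (h : ι) :
    jj k J π x h ≤ J h := by
  unfold jj
  split_ifs
  exacts [le_rfl, Nat.zero_le _]

theorem QBas_row {k d : ℕ} {x : Fin n → Fin n → ℕ} (hx : x ∈ blockMon n k d) (u : Fin n) :
    ∑ v, x u v = if k ≤ (u : ℕ) then d else 0 :=
  (mem_piAntidiag.1 (Fintype.mem_piFinset.1 hx u)).1

theorem diag_le_exM (k J : ι → ℕ) (π : ι → Equiv.Perm (Fin n)) (x : ι → Fin n → Fin n → ℕ) :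
    ∑ h, jj k J π x h • diagE k π h ≤ exM x := by
  rintro ⟨⟨h, u⟩, v⟩
  rw [QBas_diag]
  split_ifs with h1
  · change jj k J π x h ≤ x h u v
    unfold jj
    split_ifs with h2
    · exact h1.2 ▸ h2 u h1.1
    · exact Nat.zero_le _
  · exact Nat.zero_le _

theorem top_basP (k J : ι → ℕ) (π : ι → Equiv.Perm (Fin n)) (x : ι → Fin n → Fin n → ℕ) :
    Top (diagW k π) (exM x) (basP k J π x) := by
  have h1 := (top_prod univ (fun h => jj k J π x h • diagE k π h)
    (fun h => detP k π h ^ jj k J π x h) fun h _ => (top_detP k π h).pow _).mul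
    (top_monomial (diagW k π) (exM x - ∑ h, jj k J π x h • diagE k π h))
  rwa [add_tsub_cancel_of_le (diag_le_exM k J π x)] at h1

theorem isInt_basP (k J : ι → ℕ) (π : ι → Equiv.Perm (Fin n)) (x : ι → Fin n → Fin n → ℕ) :
    IsInt (basP k J π x) := by
  refine (isInt_prod _ _ fun h _ => ?_).mul (by simpa using isInt_monomial _ 1)
  have := isInt_prod (range (jj k J π x h)) (fun _ => detP k π h) fun _ _ => isInt_detP k π h
  simpa using this

theorem len_basP (k J : ι → ℕ) (π : ι → Equiv.Perm (Fin n)) (x : ι → Fin n → Fin n → ℕ) :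
    len (basP k J π x) ≤ (n.factorial : ℝ) ^ ∑ h, J h := by
  have h0 : ∀ _ : Var ι n, (0 : ℝ) ≤ 1 := fun _ => zero_le_one
  refine (nrm_mul_le h0 _ _).trans ?_
  rw [nrm_monomial, map_one, one_mul, Finsupp.prod, prod_eq_one fun _ _ => one_pow _, mul_one,
    ← prod_pow_eq_pow_sum]
  refine (nrm_prod_le h0 _ _).trans (prod_le_prod (fun _ _ => nrm_nonneg h0 _) fun h _ => ?_)
  refine (nrm_pow_le h0 _ _).trans ((pow_le_pow_left₀ (nrm_nonneg h0 _) (len_detP k π h) _).trans
    (pow_le_pow_right₀ ?_ (QBas_jj k J π x h)))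
  exact_mod_cast n.factorial_pos

theorem blockHom_basP (k J d : ι → ℕ) (π : ι → Equiv.Perm (Fin n)) (x : ι → Fin n → Fin n → ℕ)
    (hx : ∀ h, x h ∈ blockMon n (k h) (d h)) : BlockHom (rdeg k d) (basP k J π x) := by
  have h1 := blockHom_mul (QBas_hom_prod univ _ (fun h => detP k π h ^ jj k J π x h)
    fun h _ => QBas_hom_pow (blockHom_detP k π h) (jj k J π x h))
    (QBas_hom_monomial (exM x - ∑ h, jj k J π x h • diagE k π h))
  rw [basP]
  convert h1 using 1
  funext ⟨h, u⟩
  have h2 : ∑ v, (∑ h, jj k J π x h • diagE k π h) ((h, u), v) +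
      ∑ v, (exM x - ∑ h, jj k J π x h • diagE k π h) ((h, u), v) = ∑ v, x h u v := by
    rw [← sum_add_distrib]
    refine sum_congr rfl fun v _ => ?_
    rw [← Finsupp.add_apply, add_tsub_cancel_of_le (diag_le_exM k J π x)]
    rfl
  rw [QBas_row (hx h)] at h2
  have h4 : (∑ i, jj k J π x i • fun s : ι × Fin n => if s.1 = i ∧ k i ≤ (s.2 : ℕ) then 1 else 0)
      (h, u) = if k h ≤ (u : ℕ) then jj k J π x h else 0 := by
    rw [Finset.sum_apply, sum_eq_single h (fun h' _ hh => by simp [Ne.symm hh]) (by simp)]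
    simp
  rw [rdeg, ← h2, Pi.add_apply, h4]
  congr 1
  simp only [QBas_diag]
  by_cases h3 : k h ≤ (u : ℕ) <;> simp [h3]

/-- `nrm_mul_le`, `nrm_prod_le`, `nrm_pow_le`; the monomial is a product of powers of variables.
The exponent of `c` is at most `n ∑ jj + ∑ x ≤ 2 n ∑ d`, and the torus weights of the minors
and of the remaining monomial add up to the weight of `x` (`diag_le_exM`). -/
theorem nrm_basP {τ : Type*} (k J d : ι → ℕ) (hJ : ∀ h, J h ≤ d h) (π : ι → Equiv.Perm (Fin n))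
    (x : ι → Fin n → Fin n → ℕ) (hx : ∀ h, x h ∈ blockMon n (k h) (d h))
    (Φ : MvPolynomial (Var ι n) ℚ →ₐ[ℚ] MvPolynomial τ ℚ) {ρ : τ → ℝ} (hρ : ∀ t, 0 ≤ ρ t)
    {c : ℝ} (hc : 1 ≤ c) (w : ι → Fin n → ℝ) (g : ι → ℝ)
    (h1 : ∀ s, nrm Rat.AbsoluteValue.real ρ (Φ (X s)) ≤ c * Real.exp (w s.1.1 s.2))
    (h2 : ∀ h, nrm Rat.AbsoluteValue.real ρ (Φ (detP k π h)) ≤ c ^ n *
      Real.exp (∑ v ∈ univ.filter (fun v : Fin n => k h ≤ (v : ℕ)), w h (π h v) - g h)) :
    nrm Rat.AbsoluteValue.real ρ (Φ (basP k J π x)) ≤ (c ^ (2 * n)) ^ (∑ h, d h) *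
      Real.exp (∑ h, (∑ u, ∑ v, (x h u v : ℝ) * w h v - g h * jj k J π x h)) := by
  obtain ⟨μ, hμ⟩ : ∃ μ, μ = exM x - ∑ h, jj k J π x h • diagE k π h := ⟨_, rfl⟩
  have h3 : ∀ (h : ι) (u v : Fin n),
      (if k h ≤ (u : ℕ) ∧ v = π h u then jj k J π x h else 0) + μ ((h, u), v) = x h u v :=
    fun h u v => by
    rw [← QBas_diag, ← Finsupp.add_apply, hμ, add_tsub_cancel_of_le (diag_le_exM k J π x)]
    rfl
  have hc0 : 0 ≤ c := zero_le_one.trans hc
  have e1 : (monomial μ 1 : MvPolynomial (Var ι n) ℚ) = ∏ s, X s ^ μ s := by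
    rw [monomial_eq, C_1, one_mul, Finsupp.prod_fintype _ _ fun _ => pow_zero _]
  rw [basP, ← hμ, e1, map_mul, map_prod, map_prod]
  simp only [map_pow]
  have k1 := (nrm_prod_le (v := Rat.AbsoluteValue.real) hρ univ
    fun h => Φ (detP k π h) ^ jj k J π x h).trans
    (prod_le_prod (fun _ _ => nrm_nonneg hρ _) fun h _ => (nrm_pow_le hρ _ _).trans
      (pow_le_pow_left₀ (nrm_nonneg hρ _) (h2 h) _))
  have k2 := (nrm_prod_le (v := Rat.AbsoluteValue.real) hρ univ fun s => Φ (X s) ^ μ s).trans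
    (prod_le_prod (fun _ _ => nrm_nonneg hρ _) fun s _ => (nrm_pow_le hρ _ _).trans
      (pow_le_pow_left₀ (nrm_nonneg hρ _) (h1 s) _))
  refine (nrm_mul_le hρ _ _).trans ((mul_le_mul k1 k2 (nrm_nonneg hρ _) (by positivity)).trans ?_)
  simp only [mul_pow, prod_mul_distrib, ← Real.exp_nat_mul, ← Real.exp_sum, prod_pow_eq_pow_sum]
  rw [mul_mul_mul_comm, ← Real.exp_add, ← pow_mul, ← pow_add, ← pow_mul]
  refine mul_le_mul (pow_le_pow_right₀ hc ?_) (le_of_eq (congrArg _ ?_)) (Real.exp_pos _).le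
    (by positivity)
  · have k3 : ∑ h, jj k J π x h ≤ ∑ h, d h :=
      sum_le_sum fun h _ => (QBas_jj k J π x h).trans (hJ h)
    have k4 : ∑ s, μ s ≤ n * ∑ h, d h := by
      rw [Fintype.sum_prod_type, Fintype.sum_prod_type, mul_sum]
      refine sum_le_sum fun h _ => ?_
      have k5 : ∀ u : Fin n, ∑ v, μ ((h, u), v) ≤ d h := fun u => by
        refine (sum_le_sum fun v _ => (Nat.le_add_left _ _).trans_eq (h3 h u v)).trans ?_
        rw [QBas_row (hx h)]
        split_ifs
        exacts [le_rfl, Nat.zero_le _]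
      simpa using sum_le_sum fun u (_ : u ∈ univ) => k5 u
    calc n * ∑ h, jj k J π x h + ∑ s, μ s ≤ n * ∑ h, d h + n * ∑ h, d h :=
          add_le_add (Nat.mul_le_mul_left _ k3) k4
      _ = 2 * n * ∑ h, d h := by ring
  · rw [Fintype.sum_prod_type, Fintype.sum_prod_type, ← sum_add_distrib]
    refine sum_congr rfl fun h _ => ?_
    have k3 : ∑ u, ∑ v, (x h u v : ℝ) * w h v =
        jj k J π x h * ∑ v ∈ univ.filter (fun v : Fin n => k h ≤ (v : ℕ)), w h (π h v) +
          ∑ u, ∑ v, (μ ((h, u), v) : ℝ) * w h v := by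
      rw [sum_filter, mul_sum, ← sum_add_distrib]
      refine sum_congr rfl fun u _ => ?_
      simp only [← h3 h u, Nat.cast_add, add_mul, sum_add_distrib]
      congr 1
      by_cases k4 : k h ≤ (u : ℕ) <;> simp [k4]
    rw [k3]
    ring

end Pool.Agent.Lib.MP_dee342_nt.Q
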