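import Pool.Agent.Lib.MP_dee342_nt.QDefs

/-! Bounded families of integer polynomials; digits in a rational base. -/

namespace Pool.Agent.Lib.MP_dee342_nt.Q

open MvPolynomial Finset Pool.Agent.Lib.Common.Subspace Pool.Agent.Lib.Common.ZeroLemma

variable {σ : Type*} [DecidableEq σ] {i : σ} {U : ℕ} {e e' : σ → ℕ} {A A' : ℝ}
  {f g : MvPolynomial σ ℚ}

theorem Bd.mono (h : Bd i U e A f) (he : ∀ j, e j ≤ e' j) (hA : A ≤ A') : Bd i U e' A' f := by
  exact ⟨h.1, fun μ hμ j => (h.2.1 μ hμ j).trans (Nat.add_le_add_right (he j) _),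
    fun μ => (h.2.2 μ).trans hA⟩

theorem bd_zero (hA : 0 ≤ A) : Bd i U e A (0 : MvPolynomial σ ℚ) := by
  exact ⟨isInt_zero, by simp, by simpa using hA⟩

theorem Bd.nonneg (h : Bd i U e A f) : 0 ≤ A := by
  exact (abs_nonneg _).trans (h.2.2 0)

theorem Bd.add (h : Bd i U e A f) (h' : Bd i U e A' g) : Bd i U e (A + A') (f + g) := by
  refine ⟨h.1.add h'.1, fun μ hμ => (mem_union.1 (support_add hμ)).elim (h.2.1 μ) (h'.2.1 μ),
    fun μ => ?_⟩
  rw [coeff_add, Rat.cast_add]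
  exact (abs_add_le _ _).trans (add_le_add (h.2.2 μ) (h'.2.2 μ))

theorem Bd.neg (h : Bd i U e A f) : Bd i U e A (-f) := by
  refine ⟨h.1.neg, fun μ hμ => h.2.1 μ (by simpa using hμ), fun μ => ?_⟩
  rw [coeff_neg, Rat.cast_neg, abs_neg]
  exact h.2.2 μ

theorem bd_sum {I : Type*} (s : Finset I) (A : I → ℝ) (f : I → MvPolynomial σ ℚ)
    (h : ∀ a ∈ s, Bd i U e (A a) (f a)) : Bd i U e (∑ a ∈ s, A a) (∑ a ∈ s, f a) := by
  induction s using Finset.cons_induction with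
  | empty => exact bd_zero le_rfl
  | cons a s ha ih =>
    rw [sum_cons, sum_cons]
    exact (h a (mem_cons_self _ _)).add (ih fun b hb => h b (mem_cons_of_mem hb))

/-- Write `g` as a sum of monomials; `coeff_mul_monomial'`, `len_eq`, `support_mul`. -/
theorem Bd.mul (h : Bd i U e A f) (hg : IsInt g) (hg' : ∀ μ ∈ g.support, ∀ j, μ j ≤ e' j) :
    Bd i U (e + e') (A * len g) (f * g) := by
  refine ⟨h.1.mul hg, fun μ hμ j => ?_, fun μ => ?_⟩
  · obtain ⟨a, ha, b, hb, rfl⟩ := mem_add.1 (support_mul _ _ hμ)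
    have h1 := h.2.1 a ha j
    have h2 := hg' b hb j
    simp only [Finsupp.add_apply, Pi.add_apply]
    omega
  · conv_lhs => rw [g.as_sum]
    rw [mul_sum, coeff_sum, len_eq, mul_sum, Rat.cast_sum]
    refine (abs_sum_le_sum_abs _ _).trans (sum_le_sum fun ν _ => ?_)
    rw [coeff_mul_monomial']
    split_ifs
    · rw [Rat.cast_mul, abs_mul]
      exact mul_le_mul_of_nonneg_right (h.2.2 _) (abs_nonneg _)
    · rw [Rat.cast_zero, abs_zero]
      exact mul_nonneg h.nonneg (abs_nonneg _)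

omit [DecidableEq σ] in
theorem isInt_phi (ξ : σ → ℚ) (j : σ) : IsInt (phi ξ j) := by
  rw [phi, sub_eq_add_neg, ← Int.cast_natCast]
  exact ((isInt_C _).mul (isInt_X j)).add (isInt_C _).neg

theorem supp_phi (ξ : σ → ℚ) (j : σ) :
    ∀ μ ∈ (phi ξ j).support, ∀ s, μ s ≤ if s = j then 1 else 0 := by
  intro μ hμ s
  rw [phi, C_mul_X_eq_monomial] at hμ
  rcases mem_union.1 (support_sub _ _ _ hμ) with h | h
  · rw [mem_singleton.1 (support_monomial_subset h), Finsupp.single_apply]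
    simp only [eq_comm, le_refl]
  · rw [mem_singleton.1 (support_monomial_subset h)]
    exact Nat.zero_le _

omit [DecidableEq σ] in
theorem shift_phi (ξ : σ → ℚ) (j : σ) : shift ξ (phi ξ j) = C ((ξ j).den : ℚ) * X j := by
  simp only [shift, phi, map_sub, map_mul, aeval_C, aeval_X, algebraMap_eq]
  rw [mul_add, ← C_mul, Rat.den_mul_eq_num, add_sub_cancel_right]

omit [DecidableEq σ] in
/-- Clearing denominators. -/
theorem exists_isInt_mul (f : MvPolynomial σ ℚ) : ∃ b : ℤ, b ≠ 0 ∧ IsInt (C (b : ℚ) * f) := by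
  induction f using MvPolynomial.induction_on' with
  | monomial μ c =>
    refine ⟨c.den, Int.natCast_ne_zero.2 c.den_nz, ?_⟩
    rw [C_mul_monomial, Int.cast_natCast, Rat.den_mul_eq_num]
    exact isInt_monomial _ _
  | add p q hp hq =>
    obtain ⟨a, ha, hp⟩ := hp
    obtain ⟨b, hb, hq⟩ := hq
    refine ⟨a * b, mul_ne_zero ha hb, ?_⟩
    have h := ((isInt_C b).mul hp).add ((isInt_C a).mul hq)
    rwa [show C (b : ℚ) * (C (a : ℚ) * p) + C (a : ℚ) * (C (b : ℚ) * q) =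
      C ((a * b : ℤ) : ℚ) * (p + q) by rw [Int.cast_mul, C_mul]; ring] at h

theorem qbd_map (h : Bd i U e A f) {z : (σ →₀ ℕ) → ℤ} (hz : ∀ μ, coeff μ f = z μ) (G : ℤ → ℤ)
    (h0 : G 0 = 0) (hB : ∀ μ, |(G (z μ) : ℝ)| ≤ A') :
    ∃ g, Bd i U e A' g ∧ ∀ μ, coeff μ g = G (z μ) := by
  have h1 : ∀ μ, μ ∉ f.support → G (z μ) = 0 := fun μ hμ => by
    have h2 := notMem_support_iff.1 hμ
    rw [hz, Int.cast_eq_zero] at h2
    rw [h2, h0]
  have h2 : ∀ μ, coeff μ (∑ ν ∈ f.support, monomial ν (G (z ν) : ℚ)) = G (z μ) := fun μ => by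
    simp only [coeff_sum, coeff_monomial, Finset.sum_ite_eq']
    split_ifs with hμ
    · rfl
    · rw [h1 μ hμ, Int.cast_zero]
  refine ⟨_, ⟨fun μ => ⟨_, h2 μ⟩, fun μ hμ => h.2.1 μ ?_, fun μ => ?_⟩, h2⟩
  · by_contra h3
    exact mem_support_iff.1 hμ (by rw [h2, h1 μ h3, Int.cast_zero])
  · rw [h2]
    exact_mod_cast hB μ

theorem qbd_single_le (e : σ → ℕ) (i : σ) {a b : ℕ} (h : a ≤ b) (j : σ) :
    (e + Pi.single i a : σ → ℕ) j ≤ (e + Pi.single i b : σ → ℕ) j := by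
  simp only [Pi.add_apply, Pi.single_apply]
  split_ifs <;> omega

theorem qbd_pow (ξ : σ → ℚ) (i : σ) (M : ℕ) : ∃ B, Bd i 0 (Pi.single i M) B (phi ξ i ^ M) := by
  induction M with
  | zero =>
    refine ⟨len (1 : MvPolynomial σ ℚ), isInt_one, fun μ hμ j => ?_, abs_coeff_le_len _⟩
    have h1 : μ = 0 := by simpa using support_monomial_subset (s := 0) (a := (1 : ℚ)) hμ
    simp [h1]
  | succ M ih =>
    obtain ⟨B, hB⟩ := ih
    refine ⟨_, (hB.mul (isInt_phi ξ i) (supp_phi ξ i)).mono (fun j => ?_) le_rfl⟩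
    simp only [Pi.add_apply, Pi.single_apply]
    split_ifs <;> omega

/-- One carry step. Let `p = (ξ i).num`, `q = (ξ i).den`, `q ≤ |p| - 1`, `n' = n + 1`. Write every
coefficient `z = p * (z / p) + z % p`: `F = δ + C p * F'` with `|δ| ≤ |p|`,
`|F'| ≤ n' / |p| + 1`, supports inside the support of `F`. Since `C p = C q * X i - phi`,
`F = F₁ + phi * (-F')` with `F₁ = δ + C q * X i * F'` of size at most
`|p| + (|p| - 1) (n' / |p| + 1) = n + 2 |p| - n' / |p| ≤ n`. -/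
theorem dig_step (ξ : σ → ℚ) (hξ : 1 < |ξ i|) {n : ℕ} (hn : 2 * (ξ i).num ^ 2 < n + 1)
    {F : MvPolynomial σ ℚ} (h : Bd i U e ((n + 1 : ℕ) : ℝ) F) :
    ∃ F₁ β, Bd i U (e + Pi.single i 1) (n : ℝ) F₁ ∧ Bd i U e (n + 2) β ∧
      F = F₁ + phi ξ i * β := by
  choose z hz using h.1
  obtain ⟨p, hp⟩ : ∃ p, p = (ξ i).num := ⟨_, rfl⟩
  obtain ⟨q, hq⟩ : ∃ q, q = (ξ i).den := ⟨_, rfl⟩
  have hq0 : 0 < q := hq ▸ (ξ i).den_pos
  have h1 : (q : ℤ) < |p| := by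
    rw [← Rat.num_div_den (ξ i), ← hp, ← hq, abs_div, Nat.abs_cast,
      one_lt_div (by exact_mod_cast hq0)] at hξ
    exact_mod_cast hξ
  have hp0 : p ≠ 0 := by
    rintro rfl
    simp at h1
    omega
  have h2 : (q : ℝ) + 1 ≤ |(p : ℝ)| := by exact_mod_cast h1
  have hq1 : (1 : ℝ) ≤ q := by exact_mod_cast hq0
  have hP : 0 < |(p : ℝ)| := by linarith
  have h3 : ∀ μ, |((z μ % p : ℤ) : ℝ)| ≤ |(p : ℝ)| := fun μ => by
    have a := Int.emod_nonneg (z μ) hp0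
    have b := Int.emod_lt_abs (z μ) hp0
    exact_mod_cast (abs_of_nonneg a).trans_le b.le
  have h4 : ∀ μ, |((z μ / p : ℤ) : ℝ)| ≤ (n + 1) / |(p : ℝ)| + 1 := fun μ => by
    have a : (p : ℝ) * (z μ / p : ℤ) = z μ - (z μ % p : ℤ) := by
      exact_mod_cast eq_sub_of_add_eq (Int.mul_ediv_add_emod (z μ) p)
    have b := h.2.2 μ
    rw [hz, Rat.cast_intCast] at b
    push_cast at b
    rw [div_add_one hP.ne', le_div_iff₀ hP, mul_comm, ← abs_mul, a]
    exact (abs_sub _ _).trans (add_le_add b (h3 μ))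
  obtain ⟨δ, hδ, cδ⟩ := qbd_map h hz (fun a => a % p) (by simp) h3
  obtain ⟨F', hF, cF⟩ := qbd_map h hz (fun a => a / p) (by simp) h4
  have h5 : len (C (q : ℚ) * X i : MvPolynomial σ ℚ) = q := by
    rw [len, nrm_C_mul, nrm_X]
    simp
  have h6 := hF.mul (g := C (q : ℚ) * X i) (e' := Pi.single i 1)
    (by rw [← Int.cast_natCast]; exact (isInt_C _).mul (isInt_X i)) fun μ hμ j => by
      rw [C_mul_X_eq_monomial] at hμ
      rw [mem_singleton.1 (support_monomial_subset hμ), Finsupp.single_eq_pi_single]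
  have h7 : 2 * |(p : ℝ)| ≤ (n + 1) / |(p : ℝ)| := by
    rw [le_div_iff₀ hP, mul_assoc, abs_mul_abs_self, ← sq, hp]
    exact_mod_cast hn.le
  have h8 : (n + 1) / |(p : ℝ)| * |(p : ℝ)| = n + 1 := div_mul_cancel₀ _ hP.ne'
  refine ⟨δ + F' * (C (q : ℚ) * X i), -F', ((hδ.mono (fun j => Nat.le_add_right _ _) le_rfl).add
    h6).mono (fun _ => le_rfl) ?_, hF.neg.mono (fun _ => le_rfl) ?_, ?_⟩
  · rw [h5]
    nlinarith
  · have := div_le_self (show (0 : ℝ) ≤ n + 1 by positivity) (show 1 ≤ |(p : ℝ)| by linarith)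
    linarith
  · have h9 : F = δ + C (p : ℚ) * F' := by
      ext μ
      rw [coeff_add, coeff_C_mul, hz, cδ, cF]
      exact_mod_cast (Int.emod_add_mul_ediv (z μ) p).symm
    rw [h9, phi, ← hp, ← hq]
    ring

theorem qbd_dig1 (ξ : σ → ℚ) (hξ : 1 < |ξ i|) (n : ℕ) : ∃ A' : ℝ, 0 ≤ A' ∧
    ∀ (e : σ → ℕ) (U : ℕ) (F : MvPolynomial σ ℚ), Bd i U e n F →
      ∃ p β, Bd i U (e + Pi.single i n) (2 * ((ξ i).num : ℝ) ^ 2) p ∧
        Bd i U (e + Pi.single i n) A' β ∧ F = p + phi ξ i * β := by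
  induction n with
  | zero =>
    exact ⟨0, le_rfl, fun e U F h => ⟨F, 0, h.mono (fun j => Nat.le_add_right _ _)
      (by rw [Nat.cast_zero]; positivity), bd_zero le_rfl, by simp⟩⟩
  | succ n ih =>
    obtain ⟨B, hB, ih⟩ := ih
    refine ⟨B + (n + 2), by positivity, fun e U F h => ?_⟩
    by_cases hn : 2 * (ξ i).num ^ 2 < n + 1
    · obtain ⟨F₁, β, h1, h2, h3⟩ := dig_step ξ hξ hn h
      obtain ⟨p, β', h4, h5, h6⟩ := ih _ U F₁ h1
      rw [add_assoc, ← Pi.single_add, add_comm 1 n] at h4 h5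
      exact ⟨p, β' + β, h4, h5.add (h2.mono (fun j => Nat.le_add_right _ _) le_rfl),
        by rw [h3, h6]; ring⟩
    · exact ⟨F, 0, h.mono (fun j => Nat.le_add_right _ _) (by exact_mod_cast not_lt.1 hn),
        bd_zero (by positivity), by simp⟩

/-- For `M = 1` induct on `n ≥ A` with `dig_step` (constant `2 p ^ 2`; the degree in `X i` grows
by at most `n`). Then induct on `M`: `F = p₁ + phi ^ M * β₁`, `β₁ = p₂ + phi * β₂`, so
`F = (p₁ + phi ^ M * p₂) + phi ^ (M + 1) * β₂`; only the degree in `X i` changes. -/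
theorem dig (ξ : σ → ℚ) (hξ : 1 < |ξ i|) (M : ℕ) :
    ∃ c : ℝ, ∀ (e : σ → ℕ) (A : ℝ), ∃ (L : ℕ) (A' : ℝ), ∀ (U : ℕ) (F : MvPolynomial σ ℚ),
      Bd i U e A F → ∃ p β, Bd i U (e + Pi.single i L) c p ∧
        Bd i U (e + Pi.single i L) A' β ∧ F = p + phi ξ i ^ M * β := by
  induction M with
  | zero =>
    exact ⟨0, fun e A => ⟨0, A, fun U F h => ⟨0, F, bd_zero le_rfl,
      h.mono (fun j => Nat.le_add_right _ _) le_rfl, by simp⟩⟩⟩
  | succ M ih =>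
    obtain ⟨c, ih⟩ := ih
    obtain ⟨B, hB⟩ := qbd_pow ξ i M
    refine ⟨c + 2 * ((ξ i).num : ℝ) ^ 2 * len (phi ξ i ^ M), fun e A => ?_⟩
    obtain ⟨L, A₁, ih⟩ := ih e A
    obtain ⟨A₂, -, h1⟩ := qbd_dig1 ξ hξ ⌈A₁⌉₊
    refine ⟨L + ⌈A₁⌉₊ + M, A₂, fun U F h => ?_⟩
    obtain ⟨p₁, β₁, h2, h3, h4⟩ := ih U F h
    obtain ⟨p₂, β₂, h5, h6, h7⟩ := h1 _ U β₁ (h3.mono (fun _ => le_rfl) (Nat.le_ceil _))
    have h8 := h5.mul (e' := Pi.single i M) hB.1 fun μ hμ j => by simpa using hB.2.1 μ hμ j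
    rw [add_assoc, ← Pi.single_add] at h6
    rw [add_assoc e, ← Pi.single_add, add_assoc e, ← Pi.single_add] at h8
    exact ⟨p₁ + p₂ * phi ξ i ^ M, β₂, (h2.mono (qbd_single_le e i (by omega)) le_rfl).add h8,
      h6.mono (qbd_single_le e i (by omega)) le_rfl, by rw [h4, h7]; ring⟩

end Pool.Agent.Lib.MP_dee342_nt.Q
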