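import Pool.Agent.Lib.MP_dee342_nt.QDefs

/-! A prime that is minimal over one ideal of a chain and contains the next one. -/

namespace Pool.Agent.Lib.MP_dee342_nt.Q

open MvPolynomial Finset Pool.Agent.Lib.Common.Subspace Pool.Agent.Lib.Common.ZeroLemma

theorem qchain_mult {R : Type*} [CommRing R] [IsNoetherianRing R] {J p : Ideal R}
    (hp : p ∈ J.minimalPrimes) : ∃ u, u ∉ p ∧ ∃ n : ℕ, ∀ f ∈ p, u * f ^ n ∈ J := by
  classical
  have hp1 : p.IsPrime := hp.1.1
  have hf := Ideal.finite_minimalPrimes_of_isNoetherianRing R J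
  have h1 : ¬ (hf.toFinset.erase p).inf id ≤ p := by
    rw [hp1.inf_le']
    rintro ⟨q, hq, h⟩
    rw [mem_erase, Set.Finite.mem_toFinset] at hq
    exact hq.1 (le_antisymm h (hp.2 hq.2.1 h))
  obtain ⟨u, hu, hu'⟩ := SetLike.not_le_iff_exists.1 h1
  have h2 : Ideal.span {u} * p ≤ J.radical := by
    rw [← Ideal.sInf_minimalPrimes, le_sInf_iff]
    intro q hq
    by_cases h : q = p
    · rw [h]
      exact Ideal.mul_le_right
    · refine Ideal.mul_le_left.trans ((Ideal.span_singleton_le_iff_mem _).2 ?_)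
      exact Finset.inf_le (f := id) (mem_erase.2 ⟨h, hf.mem_toFinset.2 hq⟩) hu
  obtain ⟨n, hn⟩ := Ideal.exists_pow_le_of_le_radical_of_fg h2 (IsNoetherian.noetherian _)
  refine ⟨u ^ n, fun h => hu' (hp1.mem_of_pow_mem n h), n, fun f h => hn ?_⟩
  rw [← mul_pow]
  exact Ideal.pow_mem_pow (Ideal.mul_mem_mul (Ideal.mem_span_singleton_self u) h) n

/-- Let `m = card σ`. Choose primes `p m ≤ M` minimal over `I m`, `p (m-1) ≤ p m` minimal over
`I (m-1)`, and so on (`Ideal.exists_minimalPrimes_le`). If all inclusions were strict,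
`⊥ < p 0 < … < p m` would be a chain of length `m + 1` in a ring of Krull dimension `m`
(`MvPolynomial.ringKrullDim_of_isNoetherianRing`; heights or `LTSeries`). So `p j = p (j+1)` for
some `j`. For a minimal prime `p` of `J` take `u₀ ∉ p` in all other minimal primes
(`Ideal.finite_minimalPrimes_of_isNoetherianRing`); then `span {u₀} * p ≤ J.radical`
(`Ideal.sInf_minimalPrimes`), so a power lies in `J`
(`Ideal.exists_pow_le_of_le_radical_of_fg`), and `u = u₀ ^ M`. -/
theorem exists_prime_step {σ : Type*} [Fintype σ] (I : ℕ → Ideal (MvPolynomial σ ℚ))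
    (hI : Monotone I) (h0 : I 0 ≠ ⊥) (M : Ideal (MvPolynomial σ ℚ)) (hM : M.IsPrime)
    (hm : I (Fintype.card σ) ≤ M) :
    ∃ j < Fintype.card σ, ∃ p : Ideal (MvPolynomial σ ℚ), p.IsPrime ∧ p ≤ M ∧ I (j + 1) ≤ p ∧
      ∃ u, u ∉ p ∧ ∃ n : ℕ, ∀ f ∈ p, u * f ^ n ∈ I j := by
  by_contra hc
  have key : ∀ k ≤ Fintype.card σ, ∀ q : Ideal (MvPolynomial σ ℚ), q.IsPrime → q ≤ M → I k ≤ q →
      ((k + 1 : ℕ) : ℕ∞) ≤ q.height := by
    intro k
    induction k with
    | zero =>
      intro _ q hq _ h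
      refine Order.one_le_iff_ne_zero.2 fun h1 => h0 (le_bot_iff.1 ?_)
      rwa [Ideal.height_eq_zero_iff_eq_bot.1 h1] at h
    | succ k ih =>
      intro hk q hq hqM h
      obtain ⟨p, hp, hpq⟩ := Ideal.exists_minimalPrimes_le ((hI (Nat.le_succ k)).trans h)
      have hp1 : p.IsPrime := hp.1.1
      have h1 : p < q := lt_of_le_of_ne hpq fun e =>
        hc ⟨k, hk, p, hp1, hpq.trans hqM, e ▸ h, qchain_mult hp⟩
      refine le_trans ?_ (Ideal.height_add_one_le_of_lt_of_isPrime h1)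
      rw [Nat.cast_add_one (k + 1)]
      exact add_le_add_left (ih (Nat.le_of_succ_le hk) p hp1 (hpq.trans hqM) hp.1.2) 1
  have h1 := key _ le_rfl M hM le_rfl hm
  have h2 := Ideal.height_le_ringKrullDim_of_isPrime (I := M)
  rw [MvPolynomial.ringKrullDim_of_isNoetherianRing, ringKrullDim_eq_zero_of_field, zero_add,
    Nat.card_eq_fintype_card] at h2
  have h3 := (WithBot.coe_le_coe.2 h1).trans h2
  exact Nat.not_succ_le_self _ (by exact_mod_cast h3)

end Pool.Agent.Lib.MP_dee342_nt.Q
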