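import Pool.Agent.Lib.MP_dee342_nt.QDefs

/-! Hasse derivatives and Taylor expansions. -/

namespace Pool.Agent.Lib.MP_dee342_nt.Q

open MvPolynomial Finset Pool.Agent.Lib.Common.Subspace Pool.Agent.Lib.Common.ZeroLemma

variable {σ : Type*}

/-- `bin μ ν = 0` unless `μ ≤ ν` (`bin_eq_zero_of_lt`); use `coeff_sum`, `coeff_monomial`. -/
theorem coeff_hder (μ ν : σ →₀ ℕ) (P : MvPolynomial σ ℚ) :
    coeff ν (hder μ P) = (bin μ (ν + μ) : ℚ) * coeff (ν + μ) P := by
  classical
  rw [hder, coeff_sum, sum_eq_single (ν + μ)]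
  · rw [add_tsub_cancel_right, coeff_monomial, if_pos rfl]
  · intro κ _ hκ
    rw [coeff_monomial]
    split_ifs with h
    · have h1 : ¬ μ ≤ κ := fun h2 => hκ (by rw [← h, tsub_add_cancel_of_le h2])
      obtain ⟨s, hs⟩ := not_forall.1 fun h2 => h1 (Finsupp.le_def.2 h2)
      rw [bin_eq_zero_of_lt (not_le.1 hs), Nat.cast_zero, zero_mul]
    · rfl
  · intro h
    rw [notMem_support_iff.1 h, mul_zero, map_zero, coeff_zero]

theorem hder_zero (P : MvPolynomial σ ℚ) : hder 0 P = P := by
  ext ν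
  rw [coeff_hder, bin_zero, add_zero, Nat.cast_one, one_mul]

theorem isInt_hder {P : MvPolynomial σ ℚ} (hP : IsInt P) (μ : σ →₀ ℕ) : IsInt (hder μ P) := by
  intro ν
  obtain ⟨z, hz⟩ := hP (ν + μ)
  exact ⟨bin μ (ν + μ) * z, by rw [coeff_hder, hz]; push_cast; rfl⟩

theorem supp_hder {P : MvPolynomial σ ℚ} {μ ν : σ →₀ ℕ} (h : ν ∈ (hder μ P).support) :
    ν + μ ∈ P.support := by
  rw [mem_support_iff, coeff_hder] at h
  exact mem_support_iff.2 (right_ne_zero_of_mul h)

/-- `bin_le_two_pow`, `len_eq`; or `len_le_of_injOn` into `hd μ P` and `len_hd_le`. -/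
theorem len_hder_le [Fintype σ] {P : MvPolynomial σ ℚ} {d : σ → ℕ}
    (hd : ∀ ν ∈ P.support, ∀ j, ν j ≤ d j) (μ : σ →₀ ℕ) :
    len (hder μ P) ≤ 2 ^ (∑ j, d j) * len P := by
  have h1 := len_le_of_injOn (hder μ P) (Common.Subspace.hd μ P) (· + μ)
    (fun _ _ _ _ h => add_right_cancel h) fun ν _ => by rw [coeff_hder, coeff_hd]
  have h2 := len_hd_le μ P (∑ j, d j : ℕ) fun ν hν => by
    rw [Finsupp.degree_eq_sum]
    exact_mod_cast sum_le_sum fun j _ => hd ν hν j
  rw [Real.rpow_natCast] at h2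
  exact h1.trans h2

/-- Coefficientwise this is `Nat.choose_mul` (or `Nat.add_choose_mul_...`) in every coordinate;
`fil_bin_eq` writes `bin` as a product over any finite set containing the support. -/
theorem hder_hder (μ ν : σ →₀ ℕ) (P : MvPolynomial σ ℚ) :
    hder μ (hder ν P) = (bin μ (μ + ν) : ℚ) • hder (μ + ν) P := by
  classical
  ext κ
  have h1 : bin μ (κ + μ) * bin ν (κ + μ + ν) = bin μ (μ + ν) * bin (μ + ν) (κ + μ + ν) := by
    rw [fil_bin_eq μ _ (μ.support ∪ ν.support) subset_union_left,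
      fil_bin_eq μ _ (μ.support ∪ ν.support) subset_union_left,
      fil_bin_eq ν _ (μ.support ∪ ν.support) subset_union_right,
      fil_bin_eq (μ + ν) _ (μ.support ∪ ν.support) Finsupp.support_add, ← prod_mul_distrib,
      ← prod_mul_distrib]
    refine prod_congr rfl fun s _ => ?_
    have h2 := Nat.choose_mul (n := κ s + μ s + ν s) (Nat.le_add_left (ν s) (μ s))
    rw [Nat.add_sub_cancel, Nat.add_sub_cancel, ← Nat.choose_symm_add] at h2
    simp only [Finsupp.add_apply]
    rw [mul_comm, ← h2, mul_comm]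
  rw [coeff_smul, coeff_hder, coeff_hder, coeff_hder, smul_eq_mul, ← add_assoc, ← mul_assoc,
    ← mul_assoc, ← Nat.cast_mul, ← Nat.cast_mul, h1]

variable {B : Type*} [CommRing B] [Algebra ℚ B]

theorem tay_X (y : σ → B) (s : σ) : tay y (X s) = X s + C (y s) := aeval_X _ _

theorem tay_eq_shift (ξ : σ → ℚ) (P : MvPolynomial σ ℚ) : tay ξ P = shift ξ P := rfl

theorem tayW_X [DecidableEq σ] (y : σ → B) (W : Finset σ) (s : σ) :
    tayW y W (X s) = (if s ∈ W then 0 else X s) + C (y s) := aeval_X _ _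

theorem QDer_hder_pderiv (μ : σ →₀ ℕ) (s : σ) (P : MvPolynomial σ ℚ) :
    hder μ (pderiv s P) = ((μ s : ℚ) + 1) • hder (μ + Finsupp.single s 1) P := by
  classical
  ext ν
  have h1 : bin μ (ν + μ) * ((ν + μ) s + 1) =
      (μ s + 1) * bin (μ + Finsupp.single s 1) (ν + μ + Finsupp.single s 1) := by
    rw [fil_bin_eq μ _ (insert s μ.support) (subset_insert _ _),
      fil_bin_eq (μ + Finsupp.single s 1) _ (insert s μ.support) (Finsupp.support_add.trans
        (union_subset (subset_insert _ _) (Finsupp.support_single_subset.trans (by simp)))),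
      ← mul_prod_erase _ _ (mem_insert_self s _), ← mul_prod_erase _ _ (mem_insert_self s _)]
    have h2 : ∏ t ∈ (insert s μ.support).erase s, ((ν + μ + Finsupp.single s 1 : σ →₀ ℕ) t).choose
        ((μ + Finsupp.single s 1 : σ →₀ ℕ) t) =
        ∏ t ∈ (insert s μ.support).erase s, ((ν + μ) t).choose (μ t) :=
      prod_congr rfl fun t ht => by simp [Finsupp.single_eq_of_ne (ne_of_mem_erase ht)]
    have h3 := Nat.add_one_mul_choose_eq ((ν + μ) s) (μ s)
    rw [h2, Finsupp.add_apply (ν + μ), Finsupp.add_apply μ, Finsupp.single_eq_same, ← mul_assoc,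
      mul_comm (μ s + 1), ← h3]
    ring
  have h4 : (bin μ (ν + μ) : ℚ) * ((ν + μ) s + 1) =
      (μ s + 1) * bin (μ + Finsupp.single s 1) (ν + μ + Finsupp.single s 1) := by
    exact_mod_cast h1
  rw [coeff_smul, coeff_hder, coeff_hder, coeff_pderiv, smul_eq_mul, ← add_assoc]
  linear_combination (coeff (ν + μ + Finsupp.single s 1) P) * h4

theorem QDer_tay_C (y : σ → B) (a : ℚ) : tay y (C a) = C (algebraMap ℚ B a) := by
  rw [tay, aeval_C]
  rfl

theorem QDer_tayW_C [DecidableEq σ] (y : σ → B) (W : Finset σ) (a : ℚ) :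
    tayW y W (C a) = C (algebraMap ℚ B a) := by
  rw [tayW, aeval_C]
  rfl

theorem QDer_tay_pderiv (y : σ → B) (s : σ) (R : MvPolynomial σ ℚ) :
    tay y (pderiv s R) = pderiv s (tay y R) := by
  classical
  induction R using MvPolynomial.induction_on with
  | C a => rw [QDer_tay_C, pderiv_C, pderiv_C, map_zero]
  | add p q hp hq => simp only [map_add, hp, hq]
  | mul_X p t hp =>
    have h2 : tay y (pderiv s (X t)) = pderiv s (X t) := by
      rw [pderiv_X, pderiv_X]
      by_cases h : t = s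
      · subst h
        simp
      · simp [Pi.single_eq_of_ne h]
    simp only [map_mul, Derivation.leibniz, smul_eq_mul, map_add, hp, tay_X, h2, pderiv_C, add_zero]

/-- Taylor's formula. One way: both sides are additive in `P`; induct on `P` with
`MvPolynomial.induction_on`, for all `μ` at once, using Pascal's rule
`hder μ (P * X s) = hder μ P * X s + (if μ s = 0 then 0 else hder (μ - single s 1) P)`
and `coeff_mul_X'`. -/
theorem coeff_tay (y : σ → B) (μ : σ →₀ ℕ) (P : MvPolynomial σ ℚ) :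
    coeff μ (tay y P) = aeval y (hder μ P) := by
  obtain ⟨n, hn⟩ : ∃ n, μ.degree = n := ⟨_, rfl⟩
  induction n generalizing μ P with
  | zero =>
    rw [(Finsupp.degree_eq_zero_iff μ).1 hn, hder_zero, ← constantCoeff_eq]
    induction P using MvPolynomial.induction_on with
    | C a => rw [QDer_tay_C, constantCoeff_C, aeval_C]
    | add p q hp hq => simp only [map_add, hp, hq]
    | mul_X p t hp => simp [hp, tay_X]
  | succ n ih =>
    have h0 : μ ≠ 0 := by
      rintro rfl
      simp at hn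
    obtain ⟨s, hs⟩ := Finsupp.support_nonempty_iff.2 h0
    have h1 : μ - Finsupp.single s 1 + Finsupp.single s 1 = μ :=
      Finsupp.sub_add_single_one_cancel (Finsupp.mem_support_iff.1 hs)
    generalize μ - Finsupp.single s 1 = μ' at h1
    subst h1
    have h2 := ih μ' (pderiv s P) (by
      rw [map_add, Finsupp.degree_single] at hn
      omega)
    rw [QDer_tay_pderiv, coeff_pderiv, QDer_hder_pderiv, map_smul] at h2
    have hpos : ((μ' s : ℚ) + 1) ≠ 0 := by positivity
    rw [← inv_smul_smul₀ hpos (aeval y _), ← h2, eq_inv_smul_iff₀ hpos, Algebra.smul_def, mul_comm]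
    simp

theorem coeff_zero_tayW [DecidableEq σ] (y : σ → B) (W : Finset σ) (P : MvPolynomial σ ℚ) :
    coeff 0 (tayW y W P) = aeval y P := by
  rw [← constantCoeff_eq]
  induction P using MvPolynomial.induction_on with
  | C a => rw [QDer_tayW_C, constantCoeff_C, aeval_C]
  | add p q hp hq => simp only [map_add, hp, hq]
  | mul_X p t hp =>
    rw [map_mul, map_mul, map_mul, hp, tayW_X]
    split_ifs <;> simp

/-- A polynomial in the variables of `W` is expanded to a constant. -/
theorem tayW_supported [DecidableEq σ] (y : σ → B) (W : Finset σ) {b : MvPolynomial σ ℚ}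
    (hb : b ∈ supported ℚ (W : Set σ)) : tayW y W b = C (aeval y b) := by
  rw [supported_eq_adjoin_X] at hb
  induction hb using Algebra.adjoin_induction with
  | mem x hx =>
    obtain ⟨s, hs, rfl⟩ := hx
    rw [tayW_X, if_pos (mem_coe.1 hs), zero_add, aeval_X]
  | algebraMap r =>
    rw [AlgHom.commutes, AlgHom.commutes]
    rfl
  | add x z _ _ hx hz => simp only [map_add, hx, hz]
  | mul x z _ _ hx hz => simp only [map_mul, hx, hz]

/-- `tayW y W P` is `tay y P` with the variables of `W` set to zero; `InF.aeval`. -/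
theorem inF_tayW [DecidableEq σ] {K : Type*} [Field K] [Algebra ℚ K] (y : σ → K) (W : Finset σ)
    {ω : σ → ℝ} {θ : ℝ} {P : MvPolynomial σ ℚ} (h : InF ω θ (tay y P)) :
    InF ω θ (tayW y W P) := by
  have h1 : ((aeval fun s => if s ∈ W then 0 else X s :
      MvPolynomial σ K →ₐ[K] MvPolynomial σ K).restrictScalars ℚ).comp (tay y) = tayW y W := by
    ext1 s
    simp [tay_X, tayW_X]
  rw [← h1]
  refine h.aeval fun s => ?_
  split_ifs
  exacts [inF_zero _, inF_X s]

/-- `aeval (a + ζ) G` is `tay a G` evaluated at `ζ` (`MvPolynomial.eval ζ`), that is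
`∑ μ, aeval a (hder μ G) * ∏ ζ j ^ μ j`; every term is zero or has weight at least `θ`
(`inFil_prod`, `InFil.pow`, `inFil_of_nonpos`). -/
theorem inFil_aeval_add {τ : Type*} {ω : σ → ℝ} {ω' : τ → ℝ} (hω' : ∀ t, 0 ≤ ω' t) {θ : ℝ}
    (a ζ : σ → MvPolynomial τ ℚ) (hζ : ∀ s, InFil ω' (ω s) (ζ s)) (G : MvPolynomial σ ℚ)
    (hG : ∀ μ, Finsupp.weight ω μ < θ → aeval a (hder μ G) = 0) :
    InFil ω' θ (aeval (fun s => ζ s + a s) G) := by
  have h1 : ((aeval ζ : MvPolynomial σ (MvPolynomial τ ℚ) →ₐ[MvPolynomial τ ℚ]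
      MvPolynomial τ ℚ).restrictScalars ℚ).comp (tay a) = aeval fun s => ζ s + a s := by
    ext1 s
    simp [tay_X]
  rw [← h1]
  change InFil ω' θ (aeval ζ (tay a G))
  rw [aeval_def, eval₂_eq]
  refine inFil_sum _ _ fun μ _ => ?_
  rw [coeff_tay]
  rcases lt_or_ge (Finsupp.weight ω μ) θ with h | h
  · rw [hG μ h, map_zero, zero_mul]
    exact inFil_zero θ
  · refine ((inFil_of_nonpos hω' le_rfl _).mul (inFil_prod μ.support (fun s => μ s * ω s) _
      fun s _ => (hζ s).pow _)).mono ?_
    rw [Finsupp.weight_apply] at h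
    simpa [Finsupp.sum] using h

/-- A polynomial without constant term has weight at least the least weight of a variable. -/
theorem inF_of_coeff_zero {K : Type*} [Field K] {ω : σ → ℝ} {δ : ℝ} (hδ : 0 ≤ δ)
    (hω : ∀ s, δ ≤ ω s) {P : MvPolynomial σ K} (h : coeff 0 P = 0) : InF ω δ P := by
  intro μ hμ
  have h0 : μ ≠ 0 := by
    rintro rfl
    exact mem_support_iff.1 hμ h
  obtain ⟨s, hs⟩ := Finsupp.support_nonempty_iff.2 h0
  have h1 : μ - Finsupp.single s 1 + Finsupp.single s 1 = μ :=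
    Finsupp.sub_add_single_one_cancel (Finsupp.mem_support_iff.1 hs)
  rw [← h1, map_add, Finsupp.weight_single, one_smul]
  exact (hω s).trans (le_add_of_nonneg_left (weight_nonneg (fun t => hδ.trans (hω t)) _))

end Pool.Agent.Lib.MP_dee342_nt.Q
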