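import Pool.Agent.Lib.MP_dee342_nt.QRed
import Pool.Agent.Lib.MP_dee342_nt.QDer

/-! Small representatives modulo the weight filtration. -/

namespace Pool.Agent.Lib.MP_dee342_nt.Q

open MvPolynomial Finset Pool.Agent.Lib.Common.Subspace Pool.Agent.Lib.Common.ZeroLemma

variable {σ : Type*} [Fintype σ] [DecidableEq σ]

omit [Fintype σ] [DecidableEq σ] in
theorem qclaim_mul_right {ξ : σ → ℚ} {ω : σ → ℝ} (hω : ∀ j, 0 < ω j) {τ : ℝ}
    {P : MvPolynomial σ ℚ} (h : InFil ω τ (shift ξ P)) (Q : MvPolynomial σ ℚ) :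
    InFil ω τ (shift ξ (P * Q)) := by
  rw [map_mul]
  have h1 := h.mul (inFil_of_nonpos (fun j => (hω j).le) le_rfl (shift ξ Q))
  rwa [add_zero] at h1

omit [Fintype σ] [DecidableEq σ] in
theorem qclaim_coeff_zero (ξ : σ → ℚ) (P : MvPolynomial σ ℚ) :
    coeff 0 (shift ξ P) = eval ξ P := by
  rw [← constantCoeff_eq]
  induction P using MvPolynomial.induction_on with
  | C a => simp [shift]
  | add p q hp hq => simp only [map_add, hp, hq]
  | mul_X p t hp => simp only [map_mul, hp]; simp [shift]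

omit [DecidableEq σ] in
theorem qclaim_delta {ω : σ → ℝ} (hω : ∀ j, 0 < ω j) : ∃ δ : ℝ, 0 < δ ∧ ∀ j, δ ≤ ω j := by
  rcases isEmpty_or_nonempty σ with h | h
  · exact ⟨1, one_pos, fun j => isEmptyElim j⟩
  · obtain ⟨j, hj⟩ := Finite.exists_min ω
    exact ⟨ω j, hω j, hj⟩

omit [Fintype σ] [DecidableEq σ] in
theorem qclaim_deg (P : MvPolynomial σ ℚ) : ∀ μ ∈ P.support, ∀ j, μ j ≤ P.totalDegree := by
  intro μ hμ j
  exact (monomial_le_degreeOf j hμ).trans (degreeOf_le_totalDegree P j)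

omit [Fintype σ] in
theorem qclaim_deg_single {i : σ} {P : MvPolynomial σ ℚ}
    (h : ∀ μ ∈ P.support, ∀ j, j ≠ i → μ j = 0) :
    ∀ μ ∈ P.support, ∀ j, μ j ≤ (Pi.single i P.totalDegree : σ → ℕ) j := by
  intro μ hμ j
  by_cases hj : j = i
  · subst hj
    rw [Pi.single_eq_same]
    exact qclaim_deg P μ hμ j
  · rw [h μ hμ j hj]
    exact Nat.zero_le _

omit [Fintype σ] [DecidableEq σ] in
theorem qclaim_den {I : Type*} (s : Finset I) (f : I → MvPolynomial σ ℚ) :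
    ∃ b : ℤ, b ≠ 0 ∧ ∀ a ∈ s, IsInt (C (b : ℚ) * f a) := by
  classical
  induction s using Finset.induction_on with
  | empty => exact ⟨1, one_ne_zero, fun a ha => by simp at ha⟩
  | insert a s _ ih =>
    obtain ⟨b, hb, h⟩ := ih
    obtain ⟨b', hb', h'⟩ := exists_isInt_mul (f a)
    refine ⟨b * b', mul_ne_zero hb hb', fun x hx => ?_⟩
    rcases Finset.mem_insert.1 hx with rfl | hx
    · have h1 := (isInt_C b).mul h'
      rwa [← mul_assoc, ← C_mul, ← Int.cast_mul] at h1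
    · have h1 := (isInt_C b').mul (h x hx)
      rwa [← mul_assoc, ← C_mul, ← Int.cast_mul, mul_comm b' b] at h1

omit [Fintype σ] [DecidableEq σ] in
theorem qclaim_isInt_pow {P : MvPolynomial σ ℚ} (hP : IsInt P) (k : ℕ) : IsInt (P ^ k) := by
  induction k with
  | zero => simpa using isInt_one
  | succ k ih => rw [pow_succ]; exact ih.mul hP

omit [Fintype σ] [DecidableEq σ] in
theorem qclaim_len_X_pow (i : σ) (a : ℕ) : len (X i ^ a : MvPolynomial σ ℚ) ≤ 1 := by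
  have h := nrm_pow_le (v := Rat.AbsoluteValue.real) (ρ := fun _ : σ => (1 : ℝ))
    (fun _ => zero_le_one) (X i) a
  rw [nrm_X, one_pow] at h
  exact h

omit [Fintype σ] [DecidableEq σ] in
theorem qclaim_len_bin (i : σ) (a a' : ℕ) :
    len (X i ^ a - X i ^ a' : MvPolynomial σ ℚ) ≤ 2 := by
  have h := nrm_add_le (v := Rat.AbsoluteValue.real) (ρ := fun _ : σ => (1 : ℝ))
    (fun _ => zero_le_one) (X i ^ a) (-(X i ^ a'))
  rw [nrm_neg, ← sub_eq_add_neg] at h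
  have h1 := qclaim_len_X_pow i a
  have h2 := qclaim_len_X_pow i a'
  unfold len at h1 h2 ⊢
  linarith

omit [Fintype σ] in
theorem qclaim_supp_bin (i : σ) (a a' : ℕ) :
    ∀ μ ∈ (X i ^ a - X i ^ a' : MvPolynomial σ ℚ).support, ∀ j, j ≠ i → μ j = 0 := by
  intro μ hμ j hj
  rw [X_pow_eq_monomial, X_pow_eq_monomial] at hμ
  rcases Finset.mem_union.1 (support_sub σ _ _ hμ) with h | h
  · rw [Finset.mem_singleton.1 (support_monomial_subset h), Finsupp.single_eq_of_ne hj]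
  · rw [Finset.mem_singleton.1 (support_monomial_subset h), Finsupp.single_eq_of_ne hj]

/-- `u = C c + m` with `c = eval ξ u ≠ 0`; `shift ξ m` has no constant term, so it has weight at
least the least weight `δ > 0` (`inF_of_coeff_zero`; `InF` over `ℚ` is `InFil`). With
`v = - m / c`, `1 - v ^ k = (1 - v) * ∑ v ^ l` and `1 - v = u / c`. Clear denominators. -/
theorem ar_inv (ξ : σ → ℚ) {ω : σ → ℝ} (hω : ∀ j, 0 < ω j) {u : MvPolynomial σ ℚ}
    (hu : eval ξ u ≠ 0) (τ : ℝ) :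
    ∃ (b : ℤ) (u' : MvPolynomial σ ℚ), b ≠ 0 ∧ IsInt u' ∧
      InFil ω τ (shift ξ (C (b : ℚ) - u * u')) := by
  obtain ⟨δ, hδ, hδω⟩ := qclaim_delta hω
  obtain ⟨k, hk⟩ := exists_nat_ge (τ / δ)
  rw [div_le_iff₀ hδ] at hk
  have h0 : coeff 0 (shift ξ (1 - C (eval ξ u)⁻¹ * u)) = 0 := by
    rw [qclaim_coeff_zero]
    simp [hu]
  have h1 : InFil ω δ (shift ξ (1 - C (eval ξ u)⁻¹ * u)) := inF_of_coeff_zero hδ.le hδω h0
  have h2 : InFil ω τ (shift ξ ((1 - C (eval ξ u)⁻¹ * u) ^ k)) := by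
    rw [map_pow]
    exact (h1.pow k).mono hk
  obtain ⟨b, hb, hI⟩ := exists_isInt_mul
    (C (eval ξ u)⁻¹ * ∑ l ∈ range k, (1 - C (eval ξ u)⁻¹ * u) ^ l)
  refine ⟨b, _, hb, hI, ?_⟩
  have h3 := mul_neg_geom_sum (1 - C (eval ξ u)⁻¹ * u) k
  have h4 : C (b : ℚ) - u * (C (b : ℚ) *
      (C (eval ξ u)⁻¹ * ∑ l ∈ range k, (1 - C (eval ξ u)⁻¹ * u) ^ l)) =
      (1 - C (eval ξ u)⁻¹ * u) ^ k * C (b : ℚ) := by
    linear_combination (-C (b : ℚ)) * h3
  rw [h4]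
  exact qclaim_mul_right hω h2 _

theorem qclaim_base (i : σ) (ξ : σ → ℚ) (hξ : 1 < |ξ i|) {ω : σ → ℝ} (hω : ∀ j, 0 < ω j)
    (𝒢 : Finset (MvPolynomial σ ℚ)) {u : MvPolynomial σ ℚ} (hu : eval ξ u ≠ 0) (huI : IsInt u)
    {M : ℕ} (ρ : σ → MvPolynomial σ ℚ → MvPolynomial σ ℚ) (hρI : ∀ j, ∀ G ∈ 𝒢, IsInt (ρ j G))
    (hρ : ∀ j, u * phi ξ j ^ M = ∑ G ∈ 𝒢, ρ j G * G) :
    ∃ (c : ℕ) (C₀ : ℝ), ∀ (τ : ℝ) (e : σ → ℕ) (A : ℝ), ∃ (a a' : ℕ) (e₀ e₁ : σ → ℕ) (A₁ : ℝ),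
      a' < a ∧ (∀ j, j ≠ i → e₀ j ≤ c) ∧ ∀ (U : ℕ) (f : MvPolynomial σ ℚ), Bd i U e A f →
        ∃ (p : MvPolynomial σ ℚ) (r : MvPolynomial σ ℚ → MvPolynomial σ ℚ), Bd i U e₀ C₀ p ∧
          (∀ G ∈ 𝒢, Bd i U e₁ A₁ (r G)) ∧
          InFil ω τ (shift ξ ((X i ^ a - X i ^ a') * f - p - ∑ G ∈ 𝒢, r G * G)) := by
  obtain ⟨c₁, hdig⟩ := dig (i := i) ξ hξ M
  obtain ⟨R, hR⟩ : ∃ R : ℕ, ∀ j, ∀ G ∈ 𝒢, ∀ μ ∈ (ρ j G).support, ∀ s, μ s ≤ R := by
    refine ⟨∑ j, ∑ G ∈ 𝒢, (ρ j G).totalDegree, fun j G hG μ hμ s => ?_⟩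
    refine (qclaim_deg _ μ hμ s).trans ?_
    refine (Finset.single_le_sum (f := fun G => (ρ j G).totalDegree)
      (fun _ _ => Nat.zero_le _) hG).trans ?_
    exact Finset.single_le_sum (f := fun j => ∑ G ∈ 𝒢, (ρ j G).totalDegree)
      (fun _ _ => Nat.zero_le _) (Finset.mem_univ j)
  obtain ⟨Λ, hΛ⟩ : ∃ Λ : ℝ, ∀ j, ∀ G ∈ 𝒢, len (ρ j G) ≤ Λ := by
    refine ⟨∑ j, ∑ G ∈ 𝒢, len (ρ j G), fun j G hG => ?_⟩
    refine (Finset.single_le_sum (f := fun G => len (ρ j G))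
      (fun _ _ => len_nonneg _) hG).trans ?_
    exact Finset.single_le_sum (f := fun j => ∑ G ∈ 𝒢, len (ρ j G))
      (fun _ _ => Finset.sum_nonneg fun _ _ => len_nonneg _) (Finset.mem_univ j)
  refine ⟨M + u.totalDegree, c₁ * len u, fun τ e A => ?_⟩
  obtain ⟨b₂, u', hb₂, hu'I, hinv⟩ := ar_inv ξ hω hu τ
  obtain ⟨b₁, e₁, e₂, A', hb₁, he₁, hred⟩ :=
    red i ξ M (e + fun _ => u'.totalDegree) (A * len u')
  obtain ⟨M', hM'⟩ := exists_nat_ge (τ / ω i)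
  rw [div_le_iff₀ (hω i)] at hM'
  obtain ⟨a, a', w, w', haa, hwI, hws, hpig⟩ := pig i ξ (mul_ne_zero hb₁ hb₂) M'
  obtain ⟨L, A'', hd⟩ := hdig (e₁ + Pi.single i w.totalDegree) (A' * len w)
  refine ⟨a, a', e₁ + Pi.single i w.totalDegree + Pi.single i L + fun _ => u.totalDegree,
    (e₂ + Pi.single i w.totalDegree) + (e₁ + Pi.single i w.totalDegree + Pi.single i L) +
      fun _ => R, ∑ _j : σ, A' * len w * Λ + A'' * Λ, haa, fun j hj => ?_, fun U f hf => ?_⟩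
  · have := he₁ j hj
    simp only [Pi.add_apply, Pi.single_eq_of_ne hj]
    omega
  obtain ⟨F, β, hF, hβ, hfu⟩ := hred U (f * u') (hf.mul hu'I (qclaim_deg u'))
  obtain ⟨p, β', hp, hβ', hFw⟩ := hd U (F * w) (hF.mul hwI (qclaim_deg_single hws))
  refine ⟨p * u, fun G => ∑ j, β j * w * ρ j G + β' * ρ i G, hp.mul huI (qclaim_deg u),
    fun G hG => ?_, ?_⟩
  · refine Bd.add (bd_sum _ _ _ fun j _ => ?_) ?_
    · have h1 := (hβ j).mul hwI (qclaim_deg_single hws)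
      refine (h1.mul (e' := fun _ => R) (hρI j G hG) (hR j G hG)).mono (fun s => ?_) ?_
      · simp only [Pi.add_apply]
        omega
      · exact mul_le_mul_of_nonneg_left (hΛ j G hG) h1.nonneg
    · refine (hβ'.mul (e' := fun _ => R) (hρI i G hG) (hR i G hG)).mono (fun s => ?_) ?_
      · simp only [Pi.add_apply]
        omega
      · exact mul_le_mul_of_nonneg_left (hΛ i G hG) hβ'.nonneg
  · have h1 : ∑ G ∈ 𝒢, (∑ j, β j * w * ρ j G + β' * ρ i G) * G =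
        u * w * (∑ j, phi ξ j ^ M * β j) + β' * (u * phi ξ i ^ M) := by
      rw [hρ i, Finset.mul_sum, Finset.mul_sum]
      simp only [add_mul, Finset.sum_add_distrib, Finset.sum_mul]
      rw [Finset.sum_comm]
      congr 1
      · refine Finset.sum_congr rfl fun j _ => ?_
        have h2 : u * w * (phi ξ j ^ M * β j) = β j * w * (u * phi ξ j ^ M) := by ring
        rw [h2, hρ j, Finset.mul_sum]
        exact Finset.sum_congr rfl fun G _ => by ring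
      · exact Finset.sum_congr rfl fun G _ => by ring
    have h3 : (X i ^ a - X i ^ a') * f - p * u -
        ∑ G ∈ 𝒢, (∑ j, β j * w * ρ j G + β' * ρ i G) * G =
        (C (b₂ : ℚ) - u * u') * (C (b₁ : ℚ) * w * f) + phi ξ i ^ M' * (w' * f) := by
      rw [h1, hpig, Int.cast_mul, C_mul]
      linear_combination (u * w) * hfu + u * hFw
    rw [h3, map_add]
    refine (qclaim_mul_right hω hinv _).add (qclaim_mul_right hω ?_ _)
    rw [map_pow, shift_phi]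
    have h4 : InFil ω (0 + ω i) (C ((ξ i).den : ℚ) * X i : MvPolynomial σ ℚ) :=
      (inFil_C _).mul (inFil_X i)
    rw [zero_add] at h4
    exact (h4.pow M').mono hM'

/-- First replace `u` by an integer multiple such that `u` is integral and
`u * phi ξ j ^ M = ∑ G, r j G * G` with integral `r j G` for all `j`. Let `c₁` be the constant of
`dig`; put `c = M + totalDegree u`, `C₀ = c₁ * len u`. Given `τ, e, A`: take `b₂ - u u'` of weight
`≥ τ` (`ar_inv`), and `b₁`, `F`, `β` from `red` for the family `u' * f` (`Bd.mul`):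
`b₁ u' f = F + ∑ phi j ^ M * β j`. Take `M'` with `τ ≤ M' * ω i` and `pig` for `b₁ b₂` and `M'`;
its `w` involves only `X i`. Then
`(X i ^ a - X i ^ a') f ≡ b₁ b₂ w f ≡ u w F + ∑ (u phi j ^ M) (w β j)` modulo weight `τ`
(`shift_phi`), and `w F = p + phi i ^ M * β'` by `dig`. So the small part is `u * p`, and
`r G = ∑ j, r j G * (w β j) + r i G * β'`. -/
theorem ar_base (i : σ) (ξ : σ → ℚ) (hξ : 1 < |ξ i|) {ω : σ → ℝ} (hω : ∀ j, 0 < ω j)
    (𝒢 : Finset (MvPolynomial σ ℚ)) {u : MvPolynomial σ ℚ} (hu : eval ξ u ≠ 0) {M : ℕ}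
    (hM : ∀ j, u * phi ξ j ^ M ∈ Ideal.span (𝒢 : Set (MvPolynomial σ ℚ))) :
    ∃ (c : ℕ) (C₀ : ℝ), ∀ (τ : ℝ) (e : σ → ℕ) (A : ℝ), ∃ (a a' : ℕ) (e₀ e₁ : σ → ℕ) (A₁ : ℝ),
      a' < a ∧ (∀ j, j ≠ i → e₀ j ≤ c) ∧ ∀ (U : ℕ) (f : MvPolynomial σ ℚ), Bd i U e A f →
        ∃ (p : MvPolynomial σ ℚ) (r : MvPolynomial σ ℚ → MvPolynomial σ ℚ), Bd i U e₀ C₀ p ∧
          (∀ G ∈ 𝒢, Bd i U e₁ A₁ (r G)) ∧
          InFil ω τ (shift ξ ((X i ^ a - X i ^ a') * f - p - ∑ G ∈ 𝒢, r G * G)) := by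
  have h1 : ∀ j, ∃ ρ : MvPolynomial σ ℚ → MvPolynomial σ ℚ,
      u * phi ξ j ^ M = ∑ G ∈ 𝒢, ρ G * G := by
    intro j
    obtain ⟨ρ, -, hρ⟩ := Submodule.mem_span_finset.1 (hM j)
    exact ⟨ρ, by rw [← hρ]; rfl⟩
  choose ρ hρ using h1
  obtain ⟨b, hb, hbI⟩ := qclaim_den (Finset.univ ×ˢ 𝒢)
    (fun x : σ × MvPolynomial σ ℚ => ρ x.1 x.2)
  obtain ⟨b', hb', hbI'⟩ := exists_isInt_mul u
  refine qclaim_base i ξ hξ hω 𝒢 (u := C (b : ℚ) * (C (b' : ℚ) * u)) ?_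
    ((isInt_C b).mul hbI') (M := M) (fun j G => C (b' : ℚ) * (C (b : ℚ) * ρ j G))
    (fun j G hG => (isInt_C b').mul
      (hbI (j, G) (Finset.mem_product.2 ⟨Finset.mem_univ j, hG⟩))) (fun j => ?_)
  · simp [hu, hb, hb']
  · have h2 : C (b : ℚ) * (C (b' : ℚ) * u) * phi ξ j ^ M =
        C (b' : ℚ) * C (b : ℚ) * (u * phi ξ j ^ M) := by ring
    rw [h2, hρ j, Finset.mul_sum]
    exact Finset.sum_congr rfl fun G _ => by ring

/-- Induction on `t`; `t = 0`: `s = 1`, `g = 0`. Step: `ar_base` with `τ = (t+1) E`, then the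
induction hypothesis for the family `(e₁, A₁)` gives `s'` and `g G`. Put
`s = s' * (X i ^ a - X i ^ a')`, `g = p * s' + ∑ g G * G`; the size is at most
`C₀ 2 ^ t + H * C (2 H) ^ t ≤ C (2 H) ^ (t+1)` for `C = max C₀ 0`, as `1 ≤ H`. -/
theorem ar_claim (i : σ) (ξ : σ → ℚ) (hξ : 1 < |ξ i|) {ω : σ → ℝ} (hω : ∀ j, 0 < ω j)
    (𝒢 : Finset (MvPolynomial σ ℚ)) (hI : ∀ G ∈ 𝒢, IsInt G) (d : σ → ℕ)
    (hd : ∀ G ∈ 𝒢, ∀ μ ∈ G.support, ∀ j, j ≠ i → μ j ≤ d j) {H : ℝ} (hH1 : 1 ≤ H)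
    (hH : ∑ G ∈ 𝒢, len G ≤ H) {E : ℝ} (hE : ∀ G ∈ 𝒢, InFil ω E (shift ξ G))
    {u : MvPolynomial σ ℚ} (hu : eval ξ u ≠ 0) {M : ℕ}
    (hM : ∀ j, u * phi ξ j ^ M ∈ Ideal.span (𝒢 : Set (MvPolynomial σ ℚ))) :
    ∃ (c : ℕ) (C₀ : ℝ), 0 ≤ C₀ ∧ ∀ (t : ℕ) (e : σ → ℕ) (A : ℝ),
      ∃ (s : MvPolynomial σ ℚ) (e' : σ → ℕ), IsInt s ∧ len s ≤ 2 ^ t ∧
        (∀ μ ∈ s.support, ∀ j, j ≠ i → μ j = 0) ∧ eval ξ s ≠ 0 ∧
        (∀ j, j ≠ i → e' j ≤ c + t * d j) ∧ ∀ (U : ℕ) (f : MvPolynomial σ ℚ), Bd i U e A f →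
          ∃ g, Bd i U e' (C₀ * (2 * H) ^ t) g ∧ InFil ω (t * E) (shift ξ (s * f - g)) := by
  obtain ⟨c, C₀, hbase⟩ := ar_base i ξ hξ hω 𝒢 hu hM
  have hC : (0 : ℝ) ≤ max C₀ 0 := le_max_right _ _
  refine ⟨c, max C₀ 0, hC, fun t => ?_⟩
  induction t with
  | zero =>
    intro e A
    refine ⟨1, 0, isInt_one, by simp [len, nrm_one], fun μ hμ j _ => ?_, by simp,
      fun j _ => Nat.zero_le _, fun U f _ => ⟨0, bd_zero (by simp), ?_⟩⟩
    · rw [← C_1, C_apply] at hμ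
      rw [Finset.mem_singleton.1 (support_monomial_subset hμ)]
      rfl
    · exact inFil_of_nonpos (fun j => (hω j).le) (by simp) _
  | succ t ih =>
    intro e A
    obtain ⟨a, a', e₀, e₁, A₁, haa, he₀, hb⟩ := hbase (((t + 1 : ℕ) : ℝ) * E) e A
    obtain ⟨s, e', hsI, hsl, hss, hsξ, he', hs⟩ := ih e₁ A₁
    obtain ⟨D, hD⟩ : ∃ D : ℕ, ∀ G ∈ 𝒢, G.totalDegree ≤ D :=
      ⟨∑ G ∈ 𝒢, G.totalDegree, fun G hG => Finset.single_le_sum
        (f := fun G : MvPolynomial σ ℚ => G.totalDegree) (fun _ _ => Nat.zero_le _) hG⟩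
    refine ⟨s * (X i ^ a - X i ^ a'),
      fun j => if j = i then e₀ i + s.totalDegree + e' i + D else c + (t + 1) * d j,
      hsI.mul ?_, ?_, fun μ hμ j hj => ?_, ?_, fun j hj => by simp [hj], fun U f hf => ?_⟩
    · rw [sub_eq_add_neg]
      exact (qclaim_isInt_pow (isInt_X i) a).add (qclaim_isInt_pow (isInt_X i) a').neg
    · have h1 := nrm_mul_le (v := Rat.AbsoluteValue.real) (ρ := fun _ : σ => (1 : ℝ))
        (fun _ => zero_le_one) s (X i ^ a - X i ^ a')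
      refine le_trans h1 ?_
      rw [pow_succ]
      exact mul_le_mul hsl (qclaim_len_bin i a a') (len_nonneg _) (by positivity)
    · obtain ⟨x, hx, y, hy, rfl⟩ := Finset.mem_add.1 (support_mul _ _ hμ)
      rw [Finsupp.add_apply, hss x hx j hj, qclaim_supp_bin i a a' y hy j hj]
    · rw [map_mul]
      refine mul_ne_zero hsξ ?_
      rw [map_sub, map_pow, map_pow, eval_X, sub_ne_zero]
      intro h
      have h1 := pow_lt_pow_right₀ hξ haa
      rw [← abs_pow, ← abs_pow, h] at h1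
      exact lt_irrefl _ h1
    obtain ⟨p, r, hp, hr, hfil⟩ := hb U f hf
    have h1 : ∀ G, ∃ g, G ∈ 𝒢 → Bd i U e' (max C₀ 0 * (2 * H) ^ t) g ∧
        InFil ω (t * E) (shift ξ (s * r G - g)) := by
      intro G
      by_cases hG : G ∈ 𝒢
      · obtain ⟨g, hg⟩ := hs U (r G) (hr G hG)
        exact ⟨g, fun _ => hg⟩
      · exact ⟨0, fun h => absurd h hG⟩
    choose g hg using h1
    refine ⟨p * s + ∑ G ∈ 𝒢, g G * G, ?_, ?_⟩
    · have h2 : Bd i U
          (fun j => if j = i then e₀ i + s.totalDegree + e' i + D else c + (t + 1) * d j)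
          (C₀ * len s) (p * s) := by
        refine (hp.mul hsI (qclaim_deg_single hss)).mono (fun j => ?_) le_rfl
        by_cases hj : j = i
        · subst hj
          simp only [Pi.add_apply, Pi.single_eq_same, if_true]
          omega
        · have := he₀ j hj
          simp only [Pi.add_apply, Pi.single_eq_of_ne hj, if_neg hj]
          omega
      have h3 : Bd i U
          (fun j => if j = i then e₀ i + s.totalDegree + e' i + D else c + (t + 1) * d j)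
          (∑ G ∈ 𝒢, max C₀ 0 * (2 * H) ^ t * len G) (∑ G ∈ 𝒢, g G * G) := by
        refine bd_sum _ _ _ fun G hG => ?_
        refine ((hg G hG).1.mul (e' := fun j => if j = i then D else d j) (hI G hG)
          fun μ hμ j => ?_).mono (fun j => ?_) le_rfl
        · by_cases hj : j = i
          · rw [if_pos hj]
            exact (qclaim_deg G μ hμ j).trans (hD G hG)
          · rw [if_neg hj]
            exact hd G hG μ hμ j hj
        · by_cases hj : j = i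
          · subst hj
            simp only [Pi.add_apply, if_true]
            omega
          · have := he' j hj
            simp only [Pi.add_apply, if_neg hj, add_mul, one_mul]
            omega
      refine (h2.add h3).mono (fun _ => le_rfl) ?_
      have h4 : (2 : ℝ) ^ t ≤ (2 * H) ^ t := pow_le_pow_left₀ (by norm_num) (by linarith) t
      have h5 : (0 : ℝ) ≤ max C₀ 0 * (2 * H) ^ t := mul_nonneg hC (by positivity)
      have h6 : C₀ * len s ≤ max C₀ 0 * (2 * H) ^ t :=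
        mul_le_mul (le_max_left _ _) (hsl.trans h4) (len_nonneg _) hC
      rw [← Finset.mul_sum, pow_succ, ← mul_assoc]
      have h7 := mul_le_mul_of_nonneg_left hH h5
      have h8 := mul_le_mul_of_nonneg_left hH1 h5
      linarith
    · have h2 : s * (X i ^ a - X i ^ a') * f - (p * s + ∑ G ∈ 𝒢, g G * G) =
          ((X i ^ a - X i ^ a') * f - p - ∑ G ∈ 𝒢, r G * G) * s +
            ∑ G ∈ 𝒢, (s * r G - g G) * G := by
        have h3 : ∑ G ∈ 𝒢, (s * r G - g G) * G =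
            (∑ G ∈ 𝒢, r G * G) * s - ∑ G ∈ 𝒢, g G * G := by
          rw [Finset.sum_mul, ← Finset.sum_sub_distrib]
          exact Finset.sum_congr rfl fun G _ => by ring
        rw [h3]
        ring
      rw [h2, map_add, map_sum]
      refine (qclaim_mul_right hω hfil s).add (inFil_sum _ _ fun G hG => ?_)
      rw [map_mul]
      refine ((hg G hG).2.mul (hE G hG)).mono (le_of_eq ?_)
      push_cast
      ring

end Pool.Agent.Lib.MP_dee342_nt.Q
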