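import Pool.Agent.Lib.MP_dee342_nt.QDefs
import Pool.Agent.Lib.Common.Subspace.Minima

/-! Successive minima with an explicit constant. -/

namespace Pool.Agent.Lib.MP_dee342_nt.Q

open MvPolynomial Finset Pool.Agent.Lib.Common.Subspace Pool.Agent.Lib.Common.ZeroLemma

open Matrix

lemma qmin_explicit (n : ℕ) (K : ℝ)
    (hK : (2 + 2 ^ n * (n * 2)) * (n + 1) ^ n + (2 ^ n * (n * 2) + 1) ^ n = K) :
    ∀ {κ : Type} [Fintype κ]
    (L₀ : Matrix (Fin n) (Fin n) ℤ), L₀.det ≠ 0 → ∀ (A : Fin n → ℝ), (∀ i, 0 < A i) →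
    ∀ (F : κ → Fin n → ℤ) (md : κ → ℕ), (∀ k, 0 < md k) →
    ∃ (X : Matrix (Fin n) (Fin n) ℤ) (lam : Fin n → ℝ) (π : Equiv.Perm (Fin n)),
      X.det ≠ 0 ∧ (∀ i k, (md k : ℤ) ∣ F k ⬝ᵥ X i) ∧ (∀ i, 0 < lam i) ∧ Monotone lam ∧
      (∀ i l, |(((L₀ *ᵥ X i) (π l) : ℤ) : ℝ)| ≤ K * A (π l) * min (lam i) (lam l)) ∧
      ((∏ i, lam i) * ∏ i, A i ≤ K * |(L₀.det : ℝ)| * ∏ k, (md k : ℝ)) ∧
      ∀ y : Fin n → ℤ, (∀ k, (md k : ℤ) ∣ F k ⬝ᵥ y) → ∀ i : Fin n,
        (∀ l, |(((L₀ *ᵥ y) l : ℤ) : ℝ)| < A l * lam i) →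
        ∃ g : Fin n → ℚ, (∀ l, i ≤ l → g l = 0) ∧ ∀ j, (y j : ℚ) = ∑ l, g l * X l j := by
  set C₁ : ℝ := (2 + 2 ^ n * (n * 2)) * (n + 1) ^ n with hC₁
  set c : ℝ := 2 ^ n * (n * 2) + 1 with hc
  have hC₁0 : 0 ≤ C₁ := by positivity
  have hc1 : 1 ≤ c := by rw [hc]; simp only [le_add_iff_nonneg_left]; positivity
  have hc0 : 0 < c := by positivity
  have hcn : 1 ≤ c ^ n := one_le_pow₀ hc1
  subst hK
  intro κ _ L₀ hL A hA F md hmd
  classical
  set Lr : Matrix (Fin n) (Fin n) ℝ := L₀.map (Int.castRingHom ℝ) with hLr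
  have hdet : Lr.det ≠ 0 := by
    rw [hLr, ← (Int.castRingHom ℝ).mapMatrix_apply, ← RingHom.map_det]
    simpa using hL
  set φ : (Fin n → ℝ) →ₗ[ℝ] (Fin n → ℝ) :=
    (Matrix.diagonal (fun l => (A l)⁻¹) * Lr).mulVecLin with hφ
  have hφdet : (Matrix.diagonal (fun l => (A l)⁻¹) * Lr).det ≠ 0 := by
    rw [Matrix.det_mul, Matrix.det_diagonal]
    exact mul_ne_zero (Finset.prod_ne_zero_iff.2 fun l _ => inv_ne_zero (hA l).ne') hdet
  have hφinj : Function.Injective φ := by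
    rw [injective_iff_map_eq_zero]
    exact fun v hv => Matrix.eq_zero_of_mulVec_eq_zero hφdet hv
  have hφsurj : Function.Surjective φ := LinearMap.injective_iff_surjective.1 hφinj
  set cs : (Fin n → ℤ) →+ (Fin n → ℝ) := (Int.castAddHom ℝ).compLeft (Fin n) with hcs
  have hcs' : ∀ y j, cs y j = (y j : ℝ) := fun y j => rfl
  have hψ : ∀ y l, φ (cs y) l = (((L₀ *ᵥ y) l : ℤ) : ℝ) / A l := by
    intro y l
    rw [hφ, Matrix.mulVecLin_apply, ← Matrix.mulVec_mulVec, Matrix.mulVec_diagonal]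
    simp [hLr, Matrix.mulVec, dotProduct, hcs', div_eq_inv_mul]
  have hψabs : ∀ y l, |φ (cs y) l| = |(((L₀ *ᵥ y) l : ℤ) : ℝ)| / A l := by
    intro y l; rw [hψ, abs_div, abs_of_pos (hA l)]
  let Λ : AddSubgroup (Fin n → ℤ) :=
    { carrier := {y | ∀ k, (md k : ℤ) ∣ F k ⬝ᵥ y}
      add_mem' := fun ha hb k => by rw [dotProduct_add]; exact dvd_add (ha k) (hb k)
      zero_mem' := fun k => by simp
      neg_mem' := fun ha k => by rw [dotProduct_neg]; exact (dvd_neg).2 (ha k) }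
  set S : AddSubgroup (Fin n → ℝ) := Λ.map (φ.toAddMonoidHom.comp cs) with hS
  have hmemS : ∀ y, (∀ k, (md k : ℤ) ∣ F k ⬝ᵥ y) → φ (cs y) ∈ S := fun y hy => ⟨y, hy, rfl⟩
  have hAs : 0 ≤ ∑ l, A l := Finset.sum_nonneg fun l _ => (hA l).le
  obtain ⟨x, lam, hx1, hx2, hpos, hmono, hx3, hx4⟩ := minima_greedy (S : Set (Fin n → ℝ))
    (δ := (1 + ∑ l, A l)⁻¹) (by positivity) (by
      rintro _ ⟨y, -, rfl⟩ h0
      obtain ⟨l, hl⟩ := Function.ne_iff.1 h0
      refine le_trans ?_ (norm_le_pi_norm _ l)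
      change φ (cs y) l ≠ 0 at hl
      change _ ≤ |φ (cs y) l|
      rw [hψ] at hl
      have h1 : (L₀ *ᵥ y) l ≠ 0 := fun h => hl (by rw [h]; simp)
      have h2 : (1 : ℝ) ≤ |(((L₀ *ᵥ y) l : ℤ) : ℝ)| := by exact_mod_cast Int.one_le_abs h1
      have h3 : A l ≤ ∑ l, A l := Finset.single_le_sum (fun l _ => (hA l).le) (mem_univ l)
      rw [hψabs, inv_eq_one_div]
      have := hA l
      gcongr
      linarith) (by
      intro W hW
      by_contra hcon
      push Not at hcon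
      apply hW
      rw [eq_top_iff]
      intro w _
      obtain ⟨v, rfl⟩ := hφsurj w
      set P : ℤ := ∏ k, (md k : ℤ) with hP
      have hP0 : (P : ℝ) ≠ 0 := by
        have : 0 < P := Finset.prod_pos fun k _ => by exact_mod_cast hmd k
        exact_mod_cast this.ne'
      have e : v = ∑ j, (v j / P) • cs (Pi.single j P) := by
        ext i
        simp only [Finset.sum_apply, Pi.smul_apply, hcs', smul_eq_mul]
        rw [Finset.sum_eq_single i]
        · simp [hP0]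
        · intro j _ hj; simp [Pi.single_eq_of_ne' hj]
        · simp
      rw [e, map_sum]
      refine Submodule.sum_mem _ fun j _ => ?_
      rw [map_smul]
      refine Submodule.smul_mem _ _ (hcon _ (hmemS _ fun k => ?_))
      rw [dotProduct_single]
      exact Dvd.dvd.mul_left (Finset.dvd_prod_of_mem _ (mem_univ k)) _)
  have hind := minimaV_indep hx2
  obtain ⟨π, hπ⟩ := minima_exists_flag x
  obtain ⟨X, hX1, hX2, hX3⟩ := minima_evertse S hx1 hind hpos hmono hx3 hπ n le_rfl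
  choose Y hY1 hY2 using hX1
  have hY3 : ∀ i, φ (cs (Y i)) = X i := hY2
  have hXind : LinearIndependent ℝ X := minimaV_indep fun i hi => hx2 i (by
    rw [minimaV_congr hX2] at hi
    simpa using sub_mem hi (hX2 i))
  have hYind : LinearIndependent ℝ fun i => cs (Y i) :=
    LinearIndependent.of_comp φ (by rwa [show φ ∘ (fun i => cs (Y i)) = X from funext hY3])
  have hYdet : (Matrix.of Y).det ≠ 0 := by
    have h1 : IsUnit ((Matrix.of Y).map (Int.castRingHom ℝ)) :=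
      Matrix.linearIndependent_rows_iff_isUnit.1 hYind
    rw [Matrix.isUnit_iff_isUnit_det, ← (Int.castRingHom ℝ).mapMatrix_apply,
      ← RingHom.map_det] at h1
    simpa using h1.ne_zero
  refine ⟨Matrix.of Y, lam, π, hYdet, fun i k => hY1 i k, hpos, hmono, fun i l => ?_, ?_,
    fun y hy i hi => ?_⟩
  · have h1 := hX3 i i.2 l
    rw [← hY3, hψabs, div_le_iff₀ (hA _)] at h1
    refine le_trans h1 ?_
    have hmin : 0 < min (lam i) (lam l) := lt_min (hpos i) (hpos l)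
    have := mul_pos hmin (hA (π l))
    rw [← hC₁]
    nlinarith
  · have hmd1 : (1 : ℝ) ≤ ∏ k, (md k : ℝ) :=
      Finset.one_le_prod fun k _ => by exact_mod_cast hmd k
    have hL1 : (1 : ℝ) ≤ |(L₀.det : ℝ)| := by exact_mod_cast Int.one_le_abs hL
    suffices h : (∏ i, lam i) * ∏ i, A i ≤ c ^ n * (|(L₀.det : ℝ)| * ∏ k, (md k : ℝ)) by
      refine h.trans ?_
      rw [mul_assoc]
      gcongr
      linarith
    rcases Nat.eq_zero_or_pos n with rfl | hn
    · simp only [univ_eq_empty, prod_empty, mul_one, pow_zero, one_mul]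
      exact one_le_mul_of_one_le_of_one_le hL1 hmd1
    have : Nonempty (Fin n) := ⟨⟨0, hn⟩⟩
    by_contra hcon
    push Not at hcon
    obtain ⟨y, hy0, hy1, hy2⟩ := minkowski_forms L₀ hL (fun l => c⁻¹ * (lam (π.symm l) * A l))
      (fun l => by have := hA l; have := hpos (π.symm l); positivity) F md hmd (by
        rw [Finset.prod_mul_distrib, Finset.prod_mul_distrib, Equiv.prod_comp π.symm lam,
          Finset.prod_const, card_univ, Fintype.card_fin, inv_pow, lt_inv_mul_iff₀ (by positivity)]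
        exact hcon)
    have hv0 : φ (cs y) ∉ minimaV x 0 := by
      intro h
      have h1 : φ (cs y) = 0 := by simpa [minimaV] using h
      have h2 : cs y = 0 := hφinj (by rw [h1, map_zero])
      apply hy0
      ext j
      have := congrFun h2 j
      rw [hcs', Pi.zero_apply] at this
      exact_mod_cast this
    have hvn : φ (cs y) ∈ minimaV x n := by
      obtain ⟨v, hv, hvb⟩ := hπ.surj hind n fun j => φ (cs y) (π j)
      have : v = φ (cs y) := by
        ext j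
        simpa using hvb (π.symm j) (π.symm j).2
      exact this ▸ hv
    obtain ⟨k, hk, hk1, hk2⟩ : ∃ k < n, φ (cs y) ∉ minimaV x k ∧ φ (cs y) ∈ minimaV x (k + 1) := by
      by_contra hcon2
      push Not at hcon2
      have : ∀ k ≤ n, φ (cs y) ∉ minimaV x k := by
        intro k
        induction k with
        | zero => exact fun _ => hv0
        | succ k ih => exact fun hk => hcon2 k hk (ih (by omega))
      exact this n le_rfl hvn
    have h1 := hx4 _ (hmemS y hy2) ⟨k, hk⟩ hk1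
    have hl := hpos ⟨k, hk⟩
    have h2 : ‖φ (cs y)‖ ≤ 2 ^ n * (n * (c⁻¹ * lam ⟨k, hk⟩)) := by
      refine (pi_norm_le_iff_of_nonneg (by positivity)).2 fun i => ?_
      refine hπ.bound hk2 (by positivity) (fun j hj => ?_) i
      rw [hψabs, div_le_iff₀ (hA _)]
      refine (hy1 (π j)).le.trans ?_
      rw [Equiv.symm_apply_apply, mul_assoc]
      have := hA (π j)
      gcongr
      exact hmono (show j ≤ ⟨k, hk⟩ from Nat.lt_succ_iff.1 hj)
    have h3 : 2 ^ n * (n * (c⁻¹ * lam ⟨k, hk⟩)) < lam ⟨k, hk⟩ := by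
      have : (2 : ℝ) ^ n * n * c⁻¹ < 1 := by
        rw [← div_eq_mul_inv, div_lt_one hc0, hc]
        have : (0 : ℝ) ≤ 2 ^ n * n := by positivity
        linarith
      nlinarith
    linarith
  · have h1 : ‖φ (cs y)‖ < lam i := by
      refine (pi_norm_lt_iff (hpos i)).2 fun l => ?_
      rw [Real.norm_eq_abs, hψabs, div_lt_iff₀ (hA l), mul_comm]
      exact hi l
    have h2 : φ (cs y) ∈ minimaV X i := by
      rw [minimaV_congr hX2]
      by_contra h
      exact absurd (hx4 _ (hmemS y hy) i h) (not_le.2 h1)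
    obtain ⟨g, hg1, hg2⟩ := minimaV_iff.1 h2
    have hg3 : cs y = ∑ l, g l • cs (Y l) := hφinj (by simp only [hg2, map_sum, map_smul, hY3])
    set Yq : Matrix (Fin n) (Fin n) ℚ := (Matrix.of Y).map (Int.castRingHom ℚ) with hYq
    have hYqdet : IsUnit Yq.det := by
      rw [hYq, ← (Int.castRingHom ℚ).mapMatrix_apply, ← RingHom.map_det]
      simpa using hYdet
    set g' : Fin n → ℚ := (fun j => (y j : ℚ)) ᵥ* Yq⁻¹ with hg'
    have h3 : ∀ j, (y j : ℚ) = ∑ l, g' l * Y l j := by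
      intro j
      have : g' ᵥ* Yq = fun j => (y j : ℚ) := by
        rw [hg', Matrix.vecMul_vecMul, Matrix.nonsing_inv_mul _ hYqdet, Matrix.vecMul_one]
      rw [← congrFun this j]
      simp [Matrix.vecMul, dotProduct, hYq]
    refine ⟨g', fun l hl => ?_, h3⟩
    have h4 : ∑ l, ((g' l : ℝ) - g l) • cs (Y l) = 0 := by
      simp only [sub_smul, Finset.sum_sub_distrib, ← hg3]
      ext j
      simp only [Pi.sub_apply, Finset.sum_apply, Pi.smul_apply, hcs', smul_eq_mul, Pi.zero_apply]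
      have := congrArg (fun q : ℚ => (q : ℝ)) (h3 j)
      push_cast at this
      rw [this, sub_self]
    have h5 := Fintype.linearIndependent_iff.1 hYind _ h4 l
    rw [hg1 l hl, sub_zero] at h5
    exact_mod_cast h5

lemma qmin_bound (n : ℕ) (hn : 1 ≤ n) :
    (2 + 2 ^ n * (n * 2) : ℝ) * (n + 1) ^ n + (2 ^ n * (n * 2) + 1) ^ n ≤
      Real.exp (4 * n ^ 2) := by
  have h1 : n + 1 ≤ 2 ^ n := Nat.lt_two_pow_self
  have h2 : 2 ≤ 2 ^ n := by
    calc 2 = 2 ^ 1 := by norm_num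
      _ ≤ 2 ^ n := Nat.pow_le_pow_right (by norm_num) hn
  have hN : (2 + 2 ^ n * (n * 2)) * (n + 1) ^ n + (2 ^ n * (n * 2) + 1) ^ n ≤ 2 ^ (4 * n ^ 2 + 1) := by
    set a : ℕ := 2 ^ n with ha
    have e1 : 2 + a * (n * 2) ≤ a ^ 3 := by
      have : a * (n * 2) + a * 2 ≤ a * (a * 2) := by
        rw [← Nat.mul_add]
        exact Nat.mul_le_mul_left _ (by omega)
      have h3 : a * (a * 2) ≤ a ^ 3 := by
        calc a * (a * 2) ≤ a * (a * a) := Nat.mul_le_mul_left _ (Nat.mul_le_mul_left _ h2)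
          _ = a ^ 3 := by ring
      omega
    have e2 : (n + 1) ^ n ≤ a ^ n := Nat.pow_le_pow_left h1 n
    have e3 : (a * (n * 2) + 1) ^ n ≤ (a ^ 3) ^ n := Nat.pow_le_pow_left (by omega) n
    have ha1 : 1 ≤ a := by omega
    have e4 : (2 + a * (n * 2)) * (n + 1) ^ n ≤ a ^ (4 * n) := by
      calc (2 + a * (n * 2)) * (n + 1) ^ n ≤ a ^ 3 * a ^ n := Nat.mul_le_mul e1 e2
        _ = a ^ (3 + n) := by rw [pow_add]
        _ ≤ a ^ (4 * n) := Nat.pow_le_pow_right ha1 (by omega)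
    have e5 : (a * (n * 2) + 1) ^ n ≤ a ^ (4 * n) := by
      refine e3.trans ?_
      rw [← pow_mul]
      exact Nat.pow_le_pow_right ha1 (by omega)
    have e6 : a ^ (4 * n) = 2 ^ (4 * n ^ 2) := by
      rw [ha, ← pow_mul]; congr 1; ring
    rw [pow_succ, ← e6]
    omega
  have hR : (2 + 2 ^ n * (n * 2) : ℝ) * (n + 1) ^ n + (2 ^ n * (n * 2) + 1) ^ n ≤
      2 ^ (4 * n ^ 2 + 1) := by exact_mod_cast hN
  refine hR.trans ?_
  have he : (2.7 : ℝ) ≤ Real.exp 1 := by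
    have := Real.exp_one_gt_d9
    linarith
  have hm : 4 ≤ 4 * n ^ 2 := by nlinarith
  obtain ⟨m, hm'⟩ := Nat.exists_eq_add_of_le hm
  have e7 : Real.exp (4 * n ^ 2) = Real.exp 1 ^ (4 * n ^ 2) := by
    rw [← Real.exp_nat_mul]; push_cast; ring_nf
  rw [e7, hm']
  calc (2 : ℝ) ^ (4 + m + 1) = 32 * 2 ^ m := by ring
    _ ≤ 2.7 ^ 4 * 2.7 ^ m := by
        gcongr
        · norm_num
        · norm_num
    _ = 2.7 ^ (4 + m) := by rw [pow_add]
    _ ≤ Real.exp 1 ^ (4 + m) := by gcongr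

/-- Copy the proof of `exists_minima` in `Common/Subspace/Minima.lean`, where the constant is
`C₁ + c ^ n` (or so) with `C₁ = (2 + 2 ^ n * (n * 2)) * (n + 1) ^ n`, `c = 2 ^ n * (n * 2) + 1`,
keeping it explicit (first prove the statement with that constant), and bound it: for `1 ≤ n`,
`c ≤ 8 ^ n`, `C₁ ≤ 8 ^ n * 2 ^ (n * n)`, so the sum is at most `exp (4 n ^ 2)`. -/
theorem minima (n : ℕ) (hn : 1 ≤ n) (A : Fin n → ℝ) (hA : ∀ i, 0 < A i) (F : Fin n → ℤ) (md : ℕ)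
    (hmd : 0 < md) :
    ∃ (X : Matrix (Fin n) (Fin n) ℤ) (lam : Fin n → ℝ) (π : Equiv.Perm (Fin n)),
      X.det ≠ 0 ∧ (∀ i, (md : ℤ) ∣ F ⬝ᵥ X i) ∧ (∀ i, 0 < lam i) ∧ Monotone lam ∧
      (∀ i l, |(X i (π l) : ℝ)| ≤ Real.exp (4 * n ^ 2) * A (π l) * min (lam i) (lam l)) ∧
      ((∏ i, lam i) * ∏ i, A i ≤ Real.exp (4 * n ^ 2) * md) ∧
      ∀ y : Fin n → ℤ, (md : ℤ) ∣ F ⬝ᵥ y → ∀ i : Fin n, (∀ l, |(y l : ℝ)| < A l * lam i) →
        ∃ g : Fin n → ℚ, (∀ l, i ≤ l → g l = 0) ∧ ∀ j, (y j : ℚ) = ∑ l, g l * X l j := by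
  obtain ⟨X, lam, π, h1, h2, h3, h4, h5, h6, h7⟩ := qmin_explicit n _ rfl (κ := Unit) 1
    (by simp) A hA (fun _ => F) (fun _ => md) (fun _ => hmd)
  have hb := qmin_bound n hn
  refine ⟨X, lam, π, h1, fun i => h2 i (), h3, h4, fun i l => ?_, ?_, fun y hy i hi => ?_⟩
  · have h := h5 i l
    rw [one_mulVec] at h
    refine h.trans ?_
    have hmin : 0 < min (lam i) (lam l) := lt_min (h3 i) (h3 l)
    have := hA (π l)
    gcongr
  · refine h6.trans ?_
    simp only [det_one, Int.cast_one, abs_one, mul_one, univ_unique, prod_const, card_singleton,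
      pow_one]
    gcongr
  · refine h7 y (fun _ => hy) i fun l => ?_
    rw [one_mulVec]
    exact hi l

end Pool.Agent.Lib.MP_dee342_nt.Q
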