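import Pool.Agent.Lib.MP_dee342_nt.QHt
import Pool.Agent.Lib.MP_dee342_nt.QMin

/-! From a window to a frame. -/

namespace Pool.Agent.Lib.MP_dee342_nt.Q

open MvPolynomial Finset Pool.Agent.Lib.Common.Subspace Pool.Agent.Lib.Common.ZeroLemma

open Matrix

theorem dt_top {n : ℕ} (X : Matrix (Fin n) (Fin n) ℤ) (f : Fin n → Fin n) :
    dt X n f = X.det := by
  unfold dt
  congr 1
  ext u v
  have : ¬ n ≤ (u : ℕ) := not_le.mpr u.2
  simp [this]

theorem two_pow_dvd_of_odd {a : ℕ} (ha : Odd a) {B e : ℕ} {z : ℤ}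
    (h : (2 : ℤ) ^ B ∣ z * (a : ℤ) ^ e) : (2 : ℤ) ^ B ∣ z := by
  have h1 : IsCoprime ((2 : ℤ) ^ B) ((a : ℤ) ^ e) := by
    refine IsCoprime.pow ?_
    have : Nat.Coprime 2 a := (Nat.coprime_two_left).mpr ha
    exact_mod_cast Nat.isCoprime_iff_coprime.mpr this
  exact h1.dvd_of_dvd_mul_right h

theorem factorial_le_exp {m : ℕ} {R : ℝ} (hm : (m : ℝ) ≤ R) :
    (m.factorial : ℝ) ≤ Real.exp (R ^ 2) := by
  have h0 : (0 : ℝ) ≤ m := Nat.cast_nonneg m
  calc (m.factorial : ℝ) ≤ (m : ℝ) ^ m := by exact_mod_cast Nat.factorial_le_pow m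
    _ ≤ Real.exp R ^ m := pow_le_pow_left₀ h0 (by linarith [Real.add_one_le_exp R]) m
    _ = Real.exp (m * R) := by rw [Real.exp_nat_mul]
    _ ≤ _ := Real.exp_le_exp.mpr (by nlinarith)

theorem exp_le_two_pow {R N G : ℕ} (hR : 0 < R) (h : N ≤ R * G) :
    Real.exp (0.69 * (N / R)) ≤ (2 : ℝ) ^ G := by
  have hR' : (0 : ℝ) < R := by exact_mod_cast hR
  have h1 : (N : ℝ) / R ≤ G := by
    rw [div_le_iff₀ hR']
    have : (N : ℝ) ≤ R * G := by exact_mod_cast h
    linarith
  have h2 : (2 : ℝ) ^ G = Real.exp (G * Real.log 2) := by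
    rw [Real.exp_nat_mul, Real.exp_log (by norm_num)]
  rw [h2]
  refine Real.exp_le_exp.mpr ?_
  have h3 := Real.log_two_gt_d9
  have h4 : (0 : ℝ) ≤ G := Nat.cast_nonneg G
  nlinarith

/-- Numerical facts. -/
theorem frame_num {R N m : ℝ} (hR : 10 ≤ R) (hN : R ^ 20 ≤ N) (hm0 : 1 ≤ m) (hm : m ≤ R) :
    4 * m ^ 2 ≤ R ^ 3 ∧ m * (4 * m ^ 2) ≤ 4 * R ^ 3 ∧ 10 * R ^ 3 ≤ N ∧
      m ^ 2 * (N / (8 * R ^ 3)) ≤ N / R / 8 ∧ m * (N / (8 * R ^ 2)) ≤ N / R / 8 ∧
      100 * R ^ 3 ≤ N / R ∧ 4 * m ^ 2 < N / (16 * R ^ 3) ∧ R ≤ R ^ 2 ∧ R ^ 2 ≤ R ^ 3 := by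
  have h0 : 0 < R := by linarith
  have hN0 : 0 ≤ N := le_trans (by positivity) hN
  have hm2 : m ^ 2 ≤ R ^ 2 := pow_le_pow_left₀ (by linarith) hm 2
  have hm3 : m ^ 3 ≤ R ^ 3 := pow_le_pow_left₀ (by linarith) hm 3
  have h2 : (100 : ℝ) ≤ R ^ 2 := by nlinarith
  have h12 : R ≤ R ^ 2 := by nlinarith
  have h23 : 10 * R ^ 2 ≤ R ^ 3 := by nlinarith
  have h7 : R ^ 7 ≤ N := le_trans (pow_le_pow_right₀ (by linarith) (by norm_num)) hN
  have h5 : 100 * R ^ 5 ≤ R ^ 7 := by
    rw [show R ^ 7 = R ^ 2 * R ^ 5 by ring]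
    exact mul_le_mul_of_nonneg_right h2 (by positivity)
  have h45 : R ^ 4 ≤ R ^ 5 := pow_le_pow_right₀ (by linarith) (by norm_num)
  have h34 : R ^ 3 ≤ R ^ 4 := pow_le_pow_right₀ (by linarith) (by norm_num)
  have h3 : 0 < R ^ 3 := by positivity
  refine ⟨by nlinarith, by nlinarith, by nlinarith, ?_, ?_, ?_, ?_, h12, by nlinarith⟩
  · calc m ^ 2 * (N / (8 * R ^ 3)) ≤ R ^ 2 * (N / (8 * R ^ 3)) :=
          mul_le_mul_of_nonneg_right hm2 (by positivity)
      _ = N / R / 8 := by field_simp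
  · calc m * (N / (8 * R ^ 2)) ≤ R * (N / (8 * R ^ 2)) :=
          mul_le_mul_of_nonneg_right hm (by positivity)
      _ = N / R / 8 := by field_simp
  · rw [le_div_iff₀ h0]
    nlinarith
  · rw [lt_div_iff₀ (by positivity)]
    have : 4 * m ^ 2 * (16 * R ^ 3) ≤ 4 * R ^ 2 * (16 * R ^ 3) :=
      mul_le_mul_of_nonneg_right (by linarith) (by positivity)
    have h8 : 0 < R ^ 5 := by positivity
    nlinarith

/-- Let `n' = n + 1`, `τ v = a ^ α v * 2 ^ β v`, `A v = if v = 0 then 2 ^ E else 1`,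
`C = exp (4 n' ^ 2)`, `g = N / (8 R ^ 3)`. Apply `minima` with `F = τ`, `md = 2 ^ B`.
(1) `lam 0 ≤ W`: otherwise the last clause with `i = 0` gives `s = 0`.
(2) `1 ≤ C lam 0`: the row `X 0` is not zero; if only its entry `0` is nonzero, that entry is
divisible by `2 ^ B`.
(3) `2 ^ B ∣ det X` (`dvd_cramer` with `k = n + 1`, `j = 0`; `dt X (n+1) f = det X`), so by
`dt_le` `2 ^ G ≤ n'! C ^ n' ∏ lam`, hence `exp (n' ^ 2 g) < ∏ lam` (`N ≤ R G`, `log 2 > 0.69`).
(4) `exists_gap` gives `k₀`; put `k = k₀ + 1`. As `lam k ≥ exp g / C > W`, `s` is a combination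
of the first `k` rows. `exists_ht` with `Λ u = C lam u`, `H = exp (N / (8 R ^ 2))`; the left side
of `hbig` is at most `exp (N / (4 R) + 4 R ^ 3 + 2 R ^ 2)`.
(5) `x u v = X u v * τ v`, `w v = log (τ v * A v * lam (π⁻¹ v))`, `y false = x`, `e false = α`,
`y true u v = if v = 0 then ∑ v', x u v' else x u v`, `e true v = if v = 0 then B else β v`.
For `w_le`: `1 / C ≤ lam u ≤ C ^ n' * 2 ^ B` by (2) and the product bound; `log a ≤ a`. -/
theorem exists_frame {a R n N : ℕ} (ha : Odd a) (hR : 10 ≤ R) (hn : n + 1 ≤ R)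
    (hN : R ^ 20 ≤ N) (h : Blk a R n N) : Nonempty (Frame a R n N) := by
  obtain ⟨α, β, B, E, G, s, W, hα, hB, hβ0, hβ, hE, hG, hW1, hW, hs0, hs, hdv, hne⟩ := h
  set τ : Fin (n + 1) → ℤ := fun v => (a : ℤ) ^ α v * 2 ^ β v with hτ
  set A : Fin (n + 1) → ℝ := fun v => if v = 0 then 2 ^ E else 1 with hA
  have ha0 : 0 < a := ha.pos
  have hA1 : ∀ v, 1 ≤ A v := by
    intro v
    simp only [hA]
    split_ifs
    · exact one_le_pow₀ (by norm_num)
    · exact le_rfl
  have hA0 : ∀ v, 0 < A v := fun v => lt_of_lt_of_le one_pos (hA1 v)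
  have hτ1 : ∀ v, (1 : ℝ) ≤ τ v := by
    intro v
    have h1 : (1 : ℝ) ≤ a := by exact_mod_cast ha0
    simp only [hτ]
    push_cast
    exact one_le_mul_of_one_le_of_one_le (one_le_pow₀ h1) (one_le_pow₀ (by norm_num))
  have hτ0 : ∀ v, (0 : ℝ) < τ v := fun v => lt_of_lt_of_le one_pos (hτ1 v)
  obtain ⟨X, lam, π, hdet, hdvd, hpos, hmono, hbd, hprod, hlast⟩ :=
    minima (n + 1) (by omega) A hA0 τ (2 ^ B) (by positivity)
  push_cast at hdvd hbd hprod hlast
  have hRr : (10 : ℝ) ≤ R := by exact_mod_cast hR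
  have hNr : (R : ℝ) ^ 20 ≤ N := by exact_mod_cast hN
  have hnr : (n : ℝ) + 1 ≤ R := by exact_mod_cast hn
  obtain ⟨n1, n2, n3, n4, n5, n6, n7, n8, n9⟩ :=
    frame_num hRr hNr (m := (n : ℝ) + 1) (by linarith [Nat.cast_nonneg (α := ℝ) n]) hnr
  set c : ℝ := 4 * ((n : ℝ) + 1) ^ 2 with hc
  set g : ℝ := N / (8 * (R : ℝ) ^ 3) with hg
  have hc0 : 0 ≤ c := by positivity
  have hg0 : 0 ≤ g := by positivity
  have hgW : (N : ℝ) / (16 * (R : ℝ) ^ 3) = g / 2 := by rw [hg]; ring
  have hC1 : 1 ≤ Real.exp c := Real.one_le_exp hc0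
  have hprodA : ∏ v, A v = 2 ^ E := by
    simp only [hA]
    rw [Finset.prod_ite_eq' univ (0 : Fin (n + 1)) (fun _ => (2 : ℝ) ^ E)]
    simp
  have hsA : ∀ l, |(s l : ℝ)| ≤ A l * W := by
    intro l
    by_cases hl : l = 0
    · subst hl
      simp only [hA, if_true]
      linarith [mul_comm W ((2 : ℝ) ^ E)]
    · simp only [hA, if_neg hl, one_mul]
      exact hs l hl
  have hsdv : (2 : ℤ) ^ B ∣ τ ⬝ᵥ s := by
    rw [dotProduct_comm]
    exact hdv
  have hbd' : ∀ u v, |(X u v : ℝ)| ≤ Real.exp c * A v * min (lam u) (lam (π.symm v)) := by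
    intro u v
    simpa using hbd u (π.symm v)
  have hbd1 : ∀ u v, |(X u v : ℝ)| ≤ A v * (Real.exp c * lam u) := by
    intro u v
    refine (hbd' u v).trans ?_
    calc _ ≤ Real.exp c * A v * lam u :=
          mul_le_mul_of_nonneg_left (min_le_left _ _) (mul_pos (Real.exp_pos c) (hA0 v)).le
      _ = _ := by ring
  -- step (1)
  have s1 : lam 0 ≤ W := by
    by_contra hc'
    obtain ⟨g', hg', hs'⟩ := hlast s hsdv 0 fun l =>
      (hsA l).trans_lt (mul_lt_mul_of_pos_left (not_le.mp hc') (hA0 l))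
    apply hne
    refine Finset.sum_eq_zero fun j _ => ?_
    have h1 : (s j : ℚ) = 0 := by
      rw [hs' j]
      exact Finset.sum_eq_zero fun l _ => by rw [hg' l (Fin.zero_le l), zero_mul]
    have h2 : s j = 0 := by exact_mod_cast h1
    rw [h2, zero_mul]
  -- step (2)
  have s2 : 1 ≤ Real.exp c * lam 0 := by
    by_cases h1 : ∃ v, v ≠ 0 ∧ X 0 v ≠ 0
    · obtain ⟨v, hv, hX⟩ := h1
      have h2 := hbd1 0 v
      simp only [hA, if_neg hv, one_mul] at h2
      refine le_trans ?_ h2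
      exact_mod_cast Int.one_le_abs hX
    · push Not at h1
      have h2 : X 0 0 ≠ 0 := by
        intro h2
        apply hdet
        refine Matrix.det_eq_zero_of_row_eq_zero 0 fun j => ?_
        by_cases hj : j = 0
        · rw [hj, h2]
        · exact h1 j hj
      have h3 : τ ⬝ᵥ X 0 = X 0 0 * (a : ℤ) ^ α 0 := by
        rw [dotProduct, Finset.sum_eq_single 0 (fun j _ hj => by rw [h1 j hj, mul_zero])
          (by simp)]
        simp only [hτ, hβ0, pow_zero, mul_one]
        ring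
      have h4 := hdvd 0
      rw [h3] at h4
      have h5 := Int.le_of_dvd (abs_pos.mpr h2) ((dvd_abs _ _).mpr (two_pow_dvd_of_odd ha h4))
      have h6 : (2 : ℝ) ^ B ≤ |(X 0 0 : ℝ)| := by exact_mod_cast h5
      have h7 := hbd1 0 0
      simp only [hA, if_true] at h7
      have h8 : (2 : ℝ) ^ E ≤ 2 ^ B := pow_le_pow_right₀ (by norm_num) (by omega)
      have h9 : (0 : ℝ) < 2 ^ E := by positivity
      by_contra h10
      have := mul_lt_mul_of_pos_left (not_le.mp h10) h9
      linarith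
  have hG2 := exp_le_two_pow (by omega : 0 < R) hG
  have hfac : (((n + 1).factorial : ℕ) : ℝ) ≤ Real.exp ((R : ℝ) ^ 2) :=
    factorial_le_exp (by push_cast; exact hnr)
  have hCn : Real.exp c ^ (n + 1) ≤ Real.exp (4 * (R : ℝ) ^ 3) := by
    rw [← Real.exp_nat_mul]
    refine Real.exp_le_exp.mpr ?_
    push_cast
    exact n2
  have hlam0 : 0 < ∏ u, lam u := Finset.prod_pos fun u _ => hpos u
  -- step (3)
  have s3 : Real.exp (((n : ℝ) + 1) ^ 2 * g) < ∏ u, lam u := by
    have h1 := dvd_cramer X τ (2 ^ B) hdvd (n + 1) id 0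
    have h2 : univ.filter (fun u : Fin (n + 1) => n + 1 ≤ (u : ℕ)) = ∅ := by
      refine Finset.filter_eq_empty_iff.mpr fun u _ => not_le.mpr u.2
    have h2' : univ.filter (fun u : Fin (n + 1) => (u : ℕ) < n + 1) = univ :=
      Finset.filter_true_of_mem fun u _ => u.2
    rw [h2, sum_empty, sub_zero, dt_top] at h1
    simp only [hτ, hβ0, pow_zero, mul_one] at h1
    have h5 := Int.le_of_dvd (abs_pos.mpr hdet) ((dvd_abs _ _).mpr (two_pow_dvd_of_odd ha h1))
    have h6 : (2 : ℝ) ^ B ≤ |(X.det : ℝ)| := by exact_mod_cast h5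
    have h7 := dt_le X (n + 1) id A (fun u => Real.exp c * lam u) hA0 fun u v _ => hbd1 u v
    rw [h2, h2', prod_empty, mul_one, dt_top, hprodA, prod_mul_distrib, prod_const, card_univ,
      Fintype.card_fin] at h7
    have h8 : (2 : ℝ) ^ G * 2 ^ E ≤ 2 ^ B := by
      rw [← pow_add]
      exact pow_le_pow_right₀ (by norm_num) (by omega)
    have h9 : (2 : ℝ) ^ G ≤ (((n + 1).factorial : ℕ) : ℝ) *
        (Real.exp c ^ (n + 1) * ∏ u, lam u) :=
      le_of_mul_le_mul_right (h8.trans (h6.trans h7)) (by positivity)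
    have h10 : (((n + 1).factorial : ℕ) : ℝ) * (Real.exp c ^ (n + 1) * ∏ u, lam u) ≤
        Real.exp ((R : ℝ) ^ 2) * (Real.exp (4 * (R : ℝ) ^ 3) * ∏ u, lam u) := by gcongr
    by_contra h11
    have h12 : Real.exp ((R : ℝ) ^ 2) * (Real.exp (4 * (R : ℝ) ^ 3) * ∏ u, lam u) ≤
        Real.exp ((R : ℝ) ^ 2) * (Real.exp (4 * (R : ℝ) ^ 3) *
          Real.exp (((n : ℝ) + 1) ^ 2 * g)) := by
      gcongr
      exact not_lt.mp h11
    have h13 := hG2.trans (h9.trans (h10.trans h12))
    rw [← Real.exp_add, ← Real.exp_add, Real.exp_le_exp] at h13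
    have h14 : (0 : ℝ) < (R : ℝ) ^ 3 := by positivity
    linarith
  -- step (4)
  have hWg : W ≤ Real.exp (g / 2) := hgW ▸ hW
  obtain ⟨k₀, hk1, hk2⟩ := exists_gap lam hpos hg0
    (s1.trans (hWg.trans (Real.exp_le_exp.mpr (by linarith)))) s3
  have hWk : W < lam k₀.succ := by
    have h1 : lam 0 ≤ lam k₀.castSucc := hmono (Fin.zero_le _)
    have h2 : Real.exp (g / 2) * Real.exp c < Real.exp g := by
      rw [← Real.exp_add, Real.exp_lt_exp]
      rw [hgW] at n7
      linarith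
    have h3 : Real.exp (g / 2) ≤ Real.exp (g / 2) * (Real.exp c * lam 0) :=
      le_mul_of_one_le_right (Real.exp_pos _).le s2
    have h4 : Real.exp (g / 2) * Real.exp c * lam 0 < Real.exp g * lam 0 :=
      mul_lt_mul_of_pos_right h2 (hpos 0)
    have h5 : Real.exp g * lam 0 ≤ Real.exp g * lam k₀.castSucc :=
      mul_le_mul_of_nonneg_left h1 (Real.exp_pos _).le
    rw [← mul_assoc] at h3
    linarith
  obtain ⟨g', hg', hs'⟩ := hlast s hsdv k₀.succ fun l =>
    (hsA l).trans_lt (mul_lt_mul_of_pos_left hWk (hA0 l))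
  have hlow : ∀ u : Fin (n + 1), (u : ℕ) < k₀ + 1 → u ≤ k₀.castSucc := by
    intro u hu
    rw [Fin.le_def, Fin.val_castSucc]
    omega
  have hup : ∀ u : Fin (n + 1), (k₀ : ℕ) + 1 ≤ (u : ℕ) → k₀.succ ≤ u := by
    intro u hu
    rw [Fin.le_def, Fin.val_succ]
    exact hu
  have hbig : ((n : ℝ) + 2) * Real.exp (N / (8 * (R : ℝ) ^ 2)) ^ (n + 1) *
      ((((n + 1).factorial : ℕ) : ℝ) * ∏ u ∈ univ.filter
        (fun u : Fin (n + 1) => (u : ℕ) < k₀ + 1), Real.exp c * lam u) < 2 ^ G := by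
    have h1 : (n : ℝ) + 2 ≤ Real.exp R := by linarith [Real.add_one_le_exp (R : ℝ)]
    have h2 : Real.exp (N / (8 * (R : ℝ) ^ 2)) ^ (n + 1) ≤ Real.exp (N / R / 8) := by
      rw [← Real.exp_nat_mul]
      refine Real.exp_le_exp.mpr ?_
      push_cast
      exact n5
    have h3 : (1 : ℝ) ≤ Real.exp c * Real.exp (((n : ℝ) + 1) * g) :=
      one_le_mul_of_one_le_of_one_le hC1 (Real.one_le_exp (by positivity))
    have h4 : ∏ u ∈ univ.filter (fun u : Fin (n + 1) => (u : ℕ) < k₀ + 1), Real.exp c * lam u ≤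
        (Real.exp c * Real.exp (((n : ℝ) + 1) * g)) ^ (n + 1) := by
      refine (Finset.prod_le_prod (g := fun _ => Real.exp c * Real.exp (((n : ℝ) + 1) * g))
        (fun u _ => (mul_pos (Real.exp_pos c) (hpos u)).le) fun u hu => ?_).trans ?_
      · exact mul_le_mul_of_nonneg_left (hk2 u (hlow u (mem_filter.mp hu).2)) (Real.exp_pos c).le
      · rw [prod_const]
        refine pow_le_pow_right₀ h3 ?_
        exact (card_filter_le _ _).trans (by simp)
    have h5 : (Real.exp c * Real.exp (((n : ℝ) + 1) * g)) ^ (n + 1) ≤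
        Real.exp (4 * (R : ℝ) ^ 3) * Real.exp (N / R / 8) := by
      rw [mul_pow]
      refine mul_le_mul hCn ?_ (by positivity) (by positivity)
      rw [← Real.exp_nat_mul]
      refine Real.exp_le_exp.mpr ?_
      push_cast
      rw [← mul_assoc, ← sq]
      exact n4
    have h6 : (0 : ℝ) ≤ ∏ u ∈ univ.filter
        (fun u : Fin (n + 1) => (u : ℕ) < k₀ + 1), Real.exp c * lam u :=
      Finset.prod_nonneg fun u _ => (mul_pos (Real.exp_pos c) (hpos u)).le
    refine lt_of_lt_of_le ?_ hG2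
    calc _ ≤ Real.exp R * Real.exp (N / R / 8) * (Real.exp ((R : ℝ) ^ 2) *
          (Real.exp (4 * (R : ℝ) ^ 3) * Real.exp (N / R / 8))) := by
          gcongr
          exact h4.trans h5
      _ < _ := by
          rw [← Real.exp_add, ← Real.exp_add, ← Real.exp_add, ← Real.exp_add, Real.exp_lt_exp]
          have h14 : (0 : ℝ) < (R : ℝ) ^ 3 := by positivity
          linarith
  set x : Matrix (Fin (n + 1)) (Fin (n + 1)) ℤ := Matrix.of fun u v => X u v * τ v with hx
  obtain ⟨f, l, j, hkl, hdt, h1lt, hht⟩ := exists_ht ha X hdet α β B E G (k₀ + 1) hβ0 hβ hE hdvd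
    (fun u => Real.exp c * lam u) (fun u => (mul_pos (Real.exp_pos c) (hpos u)).le)
    (fun u v _ => hbd1 u v) s g' (fun u hu => hg' u (hup u hu)) hs' hne
    (Real.one_le_exp (by positivity)) hbig x (fun u v => rfl)
  set w : Fin (n + 1) → ℝ := fun v => Real.log (τ v * A v * lam (π.symm v)) with hw
  have hw0 : ∀ v, 0 < τ v * A v * lam (π.symm v) := fun v =>
    mul_pos (mul_pos (hτ0 v) (hA0 v)) (hpos _)
  have hxabs : ∀ u v, |(x u v : ℝ)| = |(X u v : ℝ)| * τ v := by
    intro u v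
    simp only [hx, Matrix.of_apply, Int.cast_mul, abs_mul, abs_of_pos (hτ0 v)]
  have hlo : ∀ u, Real.exp (-c) ≤ lam u := by
    intro u
    refine le_trans ?_ (hmono (Fin.zero_le u))
    rw [Real.exp_neg, inv_le_iff_one_le_mul₀' (Real.exp_pos c)]
    exact s2
  have h2N : (2 : ℝ) ^ B ≤ Real.exp N := by
    calc (2 : ℝ) ^ B ≤ 2 ^ N := pow_le_pow_right₀ (by norm_num) hB
      _ ≤ Real.exp 1 ^ N :=
          pow_le_pow_left₀ (by norm_num) (by linarith [Real.add_one_le_exp (1 : ℝ)]) N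
      _ = _ := by rw [← Real.exp_nat_mul, mul_one]
  have hhi : ∀ u, lam u ≤ Real.exp (4 * (R : ℝ) ^ 3 + N) := by
    intro u
    have h1 : lam u * Real.exp (-c) ^ n ≤ ∏ v, lam v := by
      rw [← Finset.mul_prod_erase univ lam (mem_univ u)]
      refine mul_le_mul_of_nonneg_left ?_ (hpos u).le
      have h2 : ∏ _v ∈ univ.erase u, Real.exp (-c) ≤ ∏ v ∈ univ.erase u, lam v :=
        Finset.prod_le_prod (fun _ _ => (Real.exp_pos _).le) fun v _ => hlo v
      rwa [prod_const, card_erase_of_mem (mem_univ u), card_univ, Fintype.card_fin,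
        Nat.add_sub_cancel] at h2
    have h3 : ∏ v, lam v ≤ Real.exp c * Real.exp N := by
      refine le_trans ?_ (hprod.trans (mul_le_mul_of_nonneg_left h2N (Real.exp_pos c).le))
      rw [hprodA]
      exact le_mul_of_one_le_right hlam0.le (one_le_pow₀ (by norm_num))
    have h4 := h1.trans h3
    rw [← Real.exp_nat_mul, ← le_div_iff₀ (Real.exp_pos _), ← Real.exp_add, ← Real.exp_sub] at h4
    refine h4.trans (Real.exp_le_exp.mpr ?_)
    linarith
  have hτA : ∀ v, τ v * A v ≤ Real.exp (a * N + N) := by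
    intro v
    have h1 : (a : ℝ) ^ α v ≤ Real.exp (a * N) := by
      calc (a : ℝ) ^ α v ≤ (a : ℝ) ^ N :=
            pow_le_pow_right₀ (by exact_mod_cast ha0) (hα v)
        _ ≤ Real.exp a ^ N :=
            pow_le_pow_left₀ (by positivity) (by linarith [Real.add_one_le_exp (a : ℝ)]) N
        _ = _ := by rw [← Real.exp_nat_mul, mul_comm]
    have h2 : (2 : ℝ) ^ β v * A v ≤ 2 ^ B := by
      by_cases hv : v = 0
      · subst hv
        simp only [hA, if_true, hβ0, pow_zero, one_mul]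
        exact pow_le_pow_right₀ (by norm_num) (by omega)
      · simp only [hA, if_neg hv, mul_one]
        exact pow_le_pow_right₀ (by norm_num) (by have := hβ v hv; omega)
    simp only [hτ]
    push_cast
    rw [Real.exp_add, mul_assoc]
    exact mul_le_mul h1 (h2.trans h2N) (mul_pos (by positivity) (hA0 v)).le (Real.exp_pos _).le
  have hR3 : (0 : ℝ) < (R : ℝ) ^ 3 := by positivity
  refine ⟨{
    x := x
    y := fun p => if p then Matrix.of fun u v => if v = 0 then ∑ v', x u v' else x u v else x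
    e := fun p v => if p then (if v = 0 then B else β v) else α v
    w := w
    π := π
    k := k₀ + 1
    f := f
    l := l
    j := j
    det_ne := ?_
    y_eq := ?_
    y_dvd := ?_
    e_le := ?_
    w_le := ?_
    bd := ?_
    bd' := ?_
    sum_le := ?_
    kl := hkl
    dt_ne := hdt
    one_lt := h1lt
    ht := ?_ }⟩
  · have h1 : x = Matrix.of fun u v => τ v * X u v := by
      ext u v
      simp only [hx, Matrix.of_apply, mul_comm]
    rw [h1, Matrix.det_mul_row]
    refine mul_ne_zero (Finset.prod_ne_zero_iff.mpr fun v _ => ?_) hdet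
    have := hτ0 v
    intro h0
    rw [h0] at this
    simp at this
  · intro p
    ext i u
    cases p
    · simp [Um, Matrix.mul_apply]
    · rw [Matrix.mul_apply, Fin.sum_univ_succ]
      refine Fin.cases ?_ (fun i => ?_) i
      · simp [Um, Fin.sum_univ_succ, (Fin.succ_ne_zero _).symm]
      · simp [Um, (Fin.succ_ne_zero _)]
  · intro p u v
    cases p
    · simp only [bs, hx, hτ, Bool.false_eq_true, if_false, Matrix.of_apply]
      exact Dvd.dvd.mul_left (Dvd.intro _ rfl) _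
    · by_cases hv : v = 0
      · subst hv
        simp only [bs, hx, if_true, Matrix.of_apply, Nat.cast_ofNat]
        have := hdvd u
        rwa [dotProduct_comm] at this
      · simp only [bs, hx, hτ, if_true, if_neg hv, Matrix.of_apply, Nat.cast_ofNat]
        exact Dvd.dvd.mul_left (Dvd.intro_left _ rfl) _
  · intro p v
    cases p
    · simpa using hα v
    · by_cases hv : v = 0
      · simpa [hv] using hB
      · have := hβ v hv
        simp only [if_true, if_neg hv]
        omega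
  · intro v
    have ha' : (0 : ℝ) ≤ a := Nat.cast_nonneg a
    have hN' : (0 : ℝ) ≤ N := Nat.cast_nonneg N
    have haN : (0 : ℝ) ≤ a * N := by positivity
    rw [abs_le]
    constructor
    · have h1 : Real.exp (-c) ≤ τ v * A v * lam (π.symm v) :=
        (hlo (π.symm v)).trans (le_mul_of_one_le_left (hpos _).le
          (one_le_mul_of_one_le_of_one_le (hτ1 v) (hA1 v)))
      have h2 := (Real.le_log_iff_exp_le (hw0 v)).mpr h1
      simp only [hw]
      linarith
    · have h1 : τ v * A v * lam (π.symm v) ≤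
          Real.exp (a * N + N) * Real.exp (4 * (R : ℝ) ^ 3 + N) :=
        mul_le_mul (hτA v) (hhi _) (hpos _).le (Real.exp_pos _).le
      rw [← Real.exp_add] at h1
      have h2 := (Real.log_le_iff_le_exp (hw0 v)).mpr h1
      simp only [hw]
      linarith
  · intro u v
    rw [hxabs, Real.exp_add, hw, Real.exp_log (hw0 v)]
    calc |(X u v : ℝ)| * τ v ≤ Real.exp c * A v * lam (π.symm v) * τ v := by
          refine mul_le_mul_of_nonneg_right ((hbd' u v).trans ?_) (hτ0 v).le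
          exact mul_le_mul_of_nonneg_left (min_le_right _ _)
            (mul_pos (Real.exp_pos c) (hA0 v)).le
      _ = Real.exp c * (τ v * A v * lam (π.symm v)) := by ring
      _ ≤ _ := mul_le_mul_of_nonneg_right (Real.exp_le_exp.mpr n1) (hw0 v).le
  · intro u v hu hv
    rw [hxabs, Real.exp_sub, Real.exp_add, hw, Real.exp_log (hw0 (π v)), Equiv.symm_apply_apply,
      le_div_iff₀ (Real.exp_pos _)]
    have h1 : Real.exp g * lam u ≤ lam v :=
      (mul_le_mul_of_nonneg_left (hmono (hlow u hu)) (Real.exp_pos g).le).trans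
        (hk1.trans (hmono (hup v hv)))
    have h2 : 0 < τ (π v) * A (π v) := mul_pos (hτ0 _) (hA0 _)
    calc |(X u (π v) : ℝ)| * τ (π v) * Real.exp g
        ≤ A (π v) * (Real.exp c * lam u) * τ (π v) * Real.exp g :=
          mul_le_mul_of_nonneg_right (mul_le_mul_of_nonneg_right (hbd1 u _) (hτ0 _).le)
            (Real.exp_pos g).le
      _ = Real.exp c * (τ (π v) * A (π v) * (Real.exp g * lam u)) := by ring
      _ ≤ Real.exp c * (τ (π v) * A (π v) * lam v) :=
          mul_le_mul_of_nonneg_left (mul_le_mul_of_nonneg_left h1 h2.le) (Real.exp_pos c).le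
      _ ≤ _ := mul_le_mul_of_nonneg_right (Real.exp_le_exp.mpr n1) (mul_pos h2 (hpos v)).le
  · have h1 : ∀ v, w v = (α v * Real.log a + β v * Real.log 2) +
        (Real.log (A v) + Real.log (lam (π.symm v))) := by
      intro v
      have ha' : (a : ℝ) ≠ 0 := by positivity
      simp only [hw, hτ]
      push_cast
      rw [Real.log_mul (mul_pos (by positivity) (hA0 v)).ne' (hpos _).ne',
        Real.log_mul (by positivity) (hA0 v).ne', Real.log_mul (by positivity) (by positivity),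
        Real.log_pow, Real.log_pow]
      ring
    have h2 : ∑ v, (Real.log (A v) + Real.log (lam (π.symm v))) ≤ c + B * Real.log 2 := by
      rw [sum_add_distrib, Equiv.sum_comp π.symm fun v => Real.log (lam v),
        ← Real.log_prod fun v _ => (hA0 v).ne', ← Real.log_prod fun v _ => (hpos v).ne',
        ← Real.log_mul (Finset.prod_pos fun v _ => hA0 v).ne' hlam0.ne', mul_comm]
      refine (Real.log_le_log (mul_pos hlam0 (Finset.prod_pos fun v _ => hA0 v)) hprod).trans ?_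
      rw [Real.log_mul (Real.exp_pos c).ne' (by positivity), Real.log_exp, Real.log_pow]
    have h3 : ∑ v : Fin (n + 1), (((if v = 0 then B else β v : ℕ)) : ℝ) =
        B + ∑ v, (β v : ℝ) := by
      rw [Fin.sum_univ_succ, Fin.sum_univ_succ, hβ0]
      simp
    simp only [if_true, Bool.false_eq_true, if_false]
    rw [Finset.sum_congr rfl fun v _ => h1 v, sum_add_distrib, sum_add_distrib, ← sum_mul,
      ← sum_mul, h3]
    linarith
  · exact (Real.le_log_iff_exp_le (lt_trans (Real.exp_pos _) hht)).mpr hht.le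

end Pool.Agent.Lib.MP_dee342_nt.Q
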