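import Pool.Agent.Lib.MP_dee342_nt.QPsi
import Pool.Agent.Lib.Common.Subspace.GenRoth

/-! Reduction to a polynomial with one variable per block. -/

namespace Pool.Agent.Lib.MP_dee342_nt.Q

open MvPolynomial Finset Pool.Agent.Lib.Common.Subspace Pool.Agent.Lib.Common.ZeroLemma

variable {ι : Type*} [Fintype ι] [DecidableEq ι] {n : ℕ}

/-- Substituting variables and the constants zero and one, with an injective map on exponents. -/
theorem QOne_sub {σ τ : Type*} (φ : σ → MvPolynomial τ ℚ)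
    (hφ : ∀ s, φ s = 0 ∨ φ s = 1 ∨ ∃ t, φ s = X t) (r : (σ →₀ ℕ) → τ →₀ ℕ)
    {Q : MvPolynomial σ ℚ} (q0 : Q ≠ 0) (qI : IsInt Q)
    (hinj : ∀ μ ∈ Q.support, ∀ μ' ∈ Q.support, r μ = r μ' → μ = μ')
    (hmon : ∀ μ ∈ Q.support, ∀ c : ℚ, aeval φ (monomial μ c) = monomial (r μ) c) :
    aeval φ Q ≠ 0 ∧ IsInt (aeval φ Q) ∧ (∀ ν ∈ (aeval φ Q).support, ∃ μ ∈ Q.support, r μ = ν) ∧
      len (aeval φ Q) ≤ len Q := by
  classical
  have h1 : aeval φ Q = ∑ μ ∈ Q.support, monomial (r μ) (coeff μ Q) := by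
    conv_lhs => rw [Q.as_sum]
    rw [map_sum]
    exact Finset.sum_congr rfl fun μ hμ => hmon μ hμ _
  refine ⟨?_, qI.aeval fun s => ?_, fun ν hν => ?_, ?_⟩
  · obtain ⟨μ₀, hμ₀⟩ := support_nonempty.mpr q0
    intro h
    have h2 := congrArg (coeff (r μ₀)) h1
    rw [h, coeff_zero, coeff_sum, Finset.sum_eq_single_of_mem μ₀ hμ₀, coeff_monomial,
      if_pos rfl] at h2
    · exact mem_support_iff.mp hμ₀ h2.symm
    · intro μ hμ hne
      rw [coeff_monomial, if_neg fun h' => hne (hinj μ hμ μ₀ hμ₀ h')]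
  · rcases hφ s with h | h | ⟨t, h⟩ <;> rw [h]
    exacts [isInt_zero, isInt_one, isInt_X _]
  · by_contra h
    push Not at h
    refine mem_support_iff.mp hν ?_
    rw [h1, coeff_sum]
    exact Finset.sum_eq_zero fun μ hμ => by rw [coeff_monomial, if_neg (h μ hμ)]
  · refine (nrm_aeval_le (fun _ => zero_le_one) φ Q).trans
      (nrm_mono (fun s => nrm_nonneg (fun _ => zero_le_one) _) (fun s => ?_) Q)
    rcases hφ s with h | h | ⟨t, h⟩ <;> rw [h]
    · rw [nrm_zero]
      exact zero_le_one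
    · rw [nrm_one]
    · rw [nrm_X]

omit [Fintype ι] [DecidableEq ι] in
/-- The value of a determinant with one replaced row. -/
theorem QOne_det (x : ι → Matrix (Fin n) (Fin n) ℤ) (k : ι → ℕ) (h : ι) (g : Fin n → Fin n)
    (l : Fin n) (hkl : k h ≤ (l : ℕ)) (ev : Var ι n → MvPolynomial ι ℚ)
    (hev : ∀ u v : Fin n, u ≠ l → k h ≤ (u : ℕ) → ev ((h, u), v) = if v = g u then 1 else 0)
    (w : Fin n → MvPolynomial (Var ι n) ℚ) (c : ℚ)
    (hw : ∀ v, aeval ev (w v) = if v = g l then C c else 0) :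
    aeval ev ((mixM x k h).updateRow l w).det = C (c * dt (x h) (k h) g) := by
  have e1 : (C (dt (x h) (k h) g : ℚ) : MvPolynomial ι ℚ) = ((Matrix.of fun (u v : Fin n) =>
      if k h ≤ (u : ℕ) then (if v = g u then 1 else 0) else x h u v).map
        (Int.castRingHom (MvPolynomial ι ℚ))).det := by
    rw [← RingHom.mapMatrix_apply, ← RingHom.map_det]
    simp [dt]
  rw [map_mul, e1, ← smul_eq_mul, AlgHom.map_det]
  conv_rhs => rw [← Matrix.updateRow_eq_self (Matrix.map _ _) l, smul_eq_mul,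
    ← Matrix.det_updateRow_smul]
  congr 1
  ext1 u v
  by_cases hu : u = l
  · subst hu
    simp only [AlgHom.mapMatrix_apply, Matrix.map_apply, Matrix.updateRow_self, hw]
    simp [hkl]
  · simp only [AlgHom.mapMatrix_apply, Matrix.map_apply, Matrix.updateRow_ne hu, mixM,
      Matrix.of_apply]
    split_ifs with h1 h2
    · rw [aeval_X, hev u v hu h1, if_pos h2, map_one]
    · rw [aeval_X, hev u v hu h1, if_neg h2, map_zero]
    · simp

omit [Fintype ι] [DecidableEq ι] in
theorem QOne_cof_fil (x : ι → Matrix (Fin n) (Fin n) ℤ) (k : ι → ℕ) (l j : ι → Fin n) (h : ι)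
    (ω : Var ι n → ℝ) (hω : ∀ u v, u ≠ l h → ω ((h, u), v) = 0) : InFil ω 0 (cof x k l j h) := by
  have := inFil_det (ω := ω) ((mixM x k h).updateRow (l h) (Pi.single (j h) 1)) (fun _ => 0)
    fun u v => by
      by_cases hu : u = l h
      · subst hu
        rw [Matrix.updateRow_self, Pi.single_apply]
        split_ifs
        exacts [inFil_one, inFil_zero _]
      · rw [Matrix.updateRow_ne hu, mixM, Matrix.of_apply]
        split_ifs
        · exact hω u v hu ▸ inFil_X _
        · exact inFil_C _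
  simpa [cof] using this

omit [Fintype ι] [DecidableEq ι] in
theorem QOne_cof_wt (x : ι → Matrix (Fin n) (Fin n) ℤ) (k : ι → ℕ) (l j : ι → Fin n) (h : ι)
    (ω : Var ι n → ℝ) (hω : ∀ u v, u ≠ l h → ω ((h, u), v) = 0) :
    ∀ μ ∈ (cof x k l j h).support, Finsupp.weight ω μ = 0 := by
  intro μ hμ
  have h1 := QOne_cof_fil x k l j h ω hω μ hμ
  have h2 := QOne_cof_fil x k l j h (fun s => - ω s) (fun u v hu => by rw [hω u v hu, neg_zero]) μ hμ
  have h3 : Finsupp.weight (fun s => - ω s) μ = - Finsupp.weight ω μ := by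
    simp [Finsupp.weight_apply, Finsupp.sum]
  linarith

/-- Let `j₀ h = f h (l h)`; note `j h ≠ j₀ h` since the ratio is not `1`. Keep the variables
`((h, u), f h u)` for `k h ≤ u` and `((h, l h), j h)`; let `K` be the set of the others. Apply
`kill_step` (block type `ι × Fin n`) to `psi x k l j₀` with `c s = cof …` in the rows `l h` and
`1` elsewhere, and `ev` sending `K` to `0`, `((h, l h), j₀ h)` to `X h`, `((h, l h), j h)` to
`C (dt (x h) (k h) (f h))⁻¹`, the others to `1`. Then `aeval ev (cof h) = C (dt f)`,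
`aeval ev (rest h) = C (dt (update f l j) / dt f)` (`AlgHom.map_det`, `det_updateRow_smul`),
`cof h` involves no variable of a row `l h` (`roth_det_supp`), and
`aeval ev ∘ psi = shift ξ ∘ aeval φ` with `φ` sending `K` to `0`, `((h, l h), j₀ h)` to `X h`
and the others to `1`. The polynomial is `aeval φ Q`; as in `genRoth`, the exponents of the
`((h, l h), j₀ h)` determine a monomial of `Q` by homogeneity in every row. -/
theorem exists_red (x : ι → Matrix (Fin n) (Fin n) ℤ) (k : ι → ℕ) (f : ι → Fin n → Fin n)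
    (l j : ι → Fin n) (hkl : ∀ h, k h ≤ (l h : ℕ)) (hdt : ∀ h, dt (x h) (k h) (f h) ≠ 0)
    (hj : ∀ h, j h ≠ f h (l h)) (N : ι → ℝ) (hN : ∀ h, 0 ≤ N h) {D : ℝ} (d : ι → ℕ)
    {P : MvPolynomial (Var ι n) ℚ} (h0 : P ≠ 0) (hI : IsInt P) (hB : BlockHom (rdeg k d) P)
    (hF : InFil (wt1 l (fun h => f h (l h)) N) D (psi x k l (fun h => f h (l h)) P)) :
    ∃ Q : MvPolynomial ι ℚ, Q ≠ 0 ∧ IsInt Q ∧ (∀ μ ∈ Q.support, ∀ h, μ h ≤ d h) ∧
      len Q ≤ len P ∧ InFil N D (shift (fun h =>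
        -((dt (x h) (k h) (Function.update (f h) (l h) (j h)) : ℚ) / dt (x h) (k h) (f h))) Q) := by
  let K : Finset (Var ι n) := univ.filter fun s =>
    ¬ (k s.1.1 ≤ (s.1.2 : ℕ) ∧ s.2 = f s.1.1 s.1.2) ∧ ¬ (s.1.2 = l s.1.1 ∧ s.2 = j s.1.1)
  have hK : ∀ h u v, ((h, u), v) ∈ K ↔ ¬ (k h ≤ (u : ℕ) ∧ v = f h u) ∧ ¬ (u = l h ∧ v = j h) :=
    fun h u v => by simp only [K, mem_filter, mem_univ, true_and]
  have hgen : ∀ c : ι → ℚ, ∃ g : Var ι n → MvPolynomial ι ℚ,
      (∀ h, g ((h, l h), f h (l h)) = X h) ∧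
      (∀ h v, v ≠ f h (l h) → g ((h, l h), v) = if v = j h then C (c h) else 0) ∧
      (∀ h u v, u ≠ l h → g ((h, u), v) = if k h ≤ (u : ℕ) ∧ v = f h u then 1 else 0) ∧
      ∀ s ∈ K, g s = 0 := by
    intro c
    refine ⟨fun s => if s.1.2 = l s.1.1 then
      (if s.2 = f s.1.1 (l s.1.1) then X s.1.1 else if s.2 = j s.1.1 then C (c s.1.1) else 0)
      else if k s.1.1 ≤ (s.1.2 : ℕ) ∧ s.2 = f s.1.1 s.1.2 then 1 else 0, fun h => by simp,
      fun h v hv => by simp [hv], fun h u v hu => by simp only [if_neg hu], ?_⟩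
    rintro ⟨⟨h, u⟩, v⟩ hs
    obtain ⟨h1, h2⟩ := (hK h u v).1 hs
    by_cases hu : u = l h
    · subst hu
      simp only [if_true]
      rw [if_neg fun e => h1 ⟨hkl h, e⟩, if_neg fun e => h2 ⟨rfl, e⟩]
    · simp only [if_neg hu, if_neg h1]
  have hΔ : ∀ h, (dt (x h) (k h) (f h) : ℚ) ≠ 0 := fun h => by exact_mod_cast hdt h
  obtain ⟨ev, e1, e2, e3, e4⟩ := hgen fun h => (dt (x h) (k h) (f h) : ℚ)⁻¹
  obtain ⟨φ, p1, p2, p3, -⟩ := hgen fun _ => 1
  have ecof : ∀ h, aeval ev (cof x k l (fun h => f h (l h)) h) = C (dt (x h) (k h) (f h) : ℚ) := by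
    intro h
    rw [cof, QOne_det x k h (f h) (l h) (hkl h) ev (fun u v hu h1 => by
      rw [e3 h u v hu]; simp [h1]) _ 1 (fun v => by
      rw [Pi.single_apply]; split_ifs <;> simp), one_mul]
  have erest : ∀ h, aeval ev (rest x k l (fun h => f h (l h)) h) =
      C ((dt (x h) (k h) (f h) : ℚ)⁻¹ * dt (x h) (k h) (Function.update (f h) (l h) (j h))) := by
    intro h
    refine QOne_det x k h _ (l h) (hkl h) ev (fun u v hu h1 => by
      rw [e3 h u v hu, Function.update_of_ne hu]; simp [h1]) _ _ fun v => ?_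
    rw [Function.update_self]
    by_cases hv : v = f h (l h)
    · rw [if_pos hv, if_neg (hv ▸ (hj h).symm), map_zero]
    · rw [if_neg hv, aeval_X, e2 h v hv]
  obtain ⟨Q, e, q0, qI, qB, qe, qL, qK, qF⟩ := kill_step (psi x k l fun h => f h (l h))
    (ω := wt1 l (fun h => f h (l h)) N) K
    (fun s => if s.1.2 = l s.1.1 then cof x k l (fun h => f h (l h)) s.1.1 else 1)
    (by
      rintro ⟨⟨h, u⟩, v⟩ hs
      obtain ⟨h1, -⟩ := (hK h u v).1 hs
      rw [psi, aeval_X]
      by_cases hu : u = l h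
      · subst hu
        simp only [if_true]
        rw [if_neg fun e => h1 ⟨hkl h, e⟩]
      · simp only [if_neg hu, one_mul])
    (by
      rintro ⟨⟨h, u⟩, v⟩ hs
      obtain ⟨h1, -⟩ := (hK h u v).1 hs
      refine if_neg ?_
      rintro ⟨e1, e2⟩
      exact h1 ⟨(show u = l h from e1) ▸ hkl h, (show u = l h from e1) ▸ e2⟩)
    (by
      rintro ⟨⟨h, u⟩, v⟩ - μ hμ
      split_ifs at hμ
      · exact QOne_cof_wt x k l _ h _ (fun u v hu => if_neg fun e => hu e.1) μ hμ
      · rw [show (1 : MvPolynomial (Var ι n) ℚ) = monomial 0 1 from rfl] at hμ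
        rw [Finset.mem_singleton.1 (support_monomial_subset hμ), map_zero])
    ev e4
    (by
      rintro ⟨⟨h, u⟩, v⟩ -
      split_ifs
      · rw [ecof]
        exact C_ne_zero.mpr (hΔ h)
      · simp)
    (ω' := N)
    (by
      rintro ⟨⟨h, u⟩, v⟩
      by_cases h1 : u = l h ∧ v = f h (l h)
      · obtain ⟨rfl, rfl⟩ := h1
        rw [e1, show wt1 l (fun h => f h (l h)) N ((h, l h), f h (l h)) = N h from
          if_pos ⟨rfl, rfl⟩]
        exact inFil_X h
      · rw [show wt1 l (fun h => f h (l h)) N ((h, u), v) = 0 from if_neg h1]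
        exact inFil_of_nonpos hN le_rfl _)
    h0 hI hB hF
  let r : (Var ι n →₀ ℕ) → ι →₀ ℕ := fun μ =>
    Finsupp.equivFunOnFinite.symm fun h => μ ((h, l h), f h (l h))
  have hr : ∀ μ h, r μ h = μ ((h, l h), f h (l h)) := fun _ _ => rfl
  have hsum : ∀ μ ∈ Q.support, ∀ h,
      μ ((h, l h), f h (l h)) + μ ((h, l h), j h) = e (h, l h) := by
    intro μ hμ h
    rw [← qB μ hμ (h, l h), ← Finset.sum_pair (f := fun v => μ ((h, l h), v)) (hj h).symm]
    refine Finset.sum_subset (subset_univ _) fun v _ hv => ?_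
    simp only [mem_insert, mem_singleton, not_or] at hv
    exact qK μ hμ _ ((hK h _ v).2 ⟨fun e => hv.1 e.2, fun e => hv.2 e.2⟩)
  have hsum' : ∀ μ ∈ Q.support, ∀ h u, u ≠ l h → μ ((h, u), f h u) = e (h, u) := by
    intro μ hμ h u hu
    rw [← qB μ hμ (h, u), Finset.sum_eq_single (f h u)]
    · exact fun v _ hv => qK μ hμ _ ((hK h u v).2 ⟨fun e => hv e.2, fun e => hu e.1⟩)
    · simp
  obtain ⟨a1, a2, a3, a4⟩ := QOne_sub φ (by
      rintro ⟨⟨h, u⟩, v⟩
      by_cases hu : u = l h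
      · subst hu
        by_cases hv : v = f h (l h)
        · exact Or.inr (Or.inr ⟨h, hv ▸ p1 h⟩)
        · rw [p2 h v hv]
          split_ifs
          exacts [Or.inr (Or.inl (map_one _)), Or.inl rfl]
      · rw [p3 h u v hu]
        split_ifs
        exacts [Or.inr (Or.inl rfl), Or.inl rfl]) r q0 qI
    (by
      intro μ hμ μ' hμ' hrr
      ext ⟨⟨h, u⟩, v⟩
      have h1 : μ ((h, l h), f h (l h)) = μ' ((h, l h), f h (l h)) := by rw [← hr, hrr, hr]
      by_cases hs : ((h, u), v) ∈ K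
      · rw [qK μ hμ _ hs, qK μ' hμ' _ hs]
      rw [hK, not_and_or, not_not, not_not] at hs
      rcases hs with ⟨-, rfl⟩ | ⟨rfl, rfl⟩
      · by_cases hu : u = l h
        · rw [hu, h1]
        · rw [hsum' μ hμ h u hu, hsum' μ' hμ' h u hu]
      · have h2 := hsum μ hμ h
        have h3 := hsum μ' hμ' h
        omega)
    (by
      intro μ hμ c
      rw [aeval_monomial, monomial_eq, algebraMap_eq, Finsupp.prod_fintype _ _ (by simp),
        Finsupp.prod_fintype _ _ (by simp), Fintype.prod_prod_type, Fintype.prod_prod_type]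
      congr 1
      refine Finset.prod_congr rfl fun h _ => ?_
      have key : ∀ u v, ¬ (u = l h ∧ v = f h (l h)) → φ ((h, u), v) ^ μ ((h, u), v) = 1 := by
        intro u v h1
        by_cases hs : ((h, u), v) ∈ K
        · rw [qK μ hμ _ hs, pow_zero]
        rw [hK, not_and_or, not_not, not_not] at hs
        rcases hs with ⟨h2, rfl⟩ | ⟨rfl, rfl⟩
        · rw [p3 h u _ fun e => h1 ⟨e, e ▸ rfl⟩, if_pos ⟨h2, rfl⟩, one_pow]
        · rw [p2 h _ (hj h), if_pos rfl, map_one, one_pow]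
      rw [Finset.prod_eq_single (l h), Finset.prod_eq_single (f h (l h)), p1, hr]
      · exact fun v _ hv => key _ v fun e => hv e.2
      · simp
      · exact fun u _ hu => Finset.prod_eq_one fun v _ => key u v fun e => hu e.1
      · simp)
  refine ⟨aeval φ Q, a1, a2, fun ν hν h => ?_, a4.trans qL, ?_⟩
  · obtain ⟨μ, hμ, rfl⟩ := a3 ν hν
    have h1 := hsum μ hμ h
    have h2 : e (h, l h) ≤ d h := (qe (h, l h)).trans (if_pos (hkl h)).le
    rw [hr]
    omega
  · have hcomm : (shift fun h => -((dt (x h) (k h) (Function.update (f h) (l h) (j h)) : ℚ) /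
        dt (x h) (k h) (f h))).comp (aeval φ) =
        (aeval ev).comp (psi x k l fun h => f h (l h)) := by
      refine MvPolynomial.algHom_ext ?_
      rintro ⟨⟨h, u⟩, v⟩
      rw [AlgHom.comp_apply, AlgHom.comp_apply, aeval_X, psi, aeval_X]
      by_cases hu : u = l h
      · subst hu
        simp only [if_true]
        by_cases hv : v = f h (l h)
        · subst hv
          rw [if_pos rfl, map_sub, erest, aeval_X, p1, e1, shift, aeval_X, map_neg,
            sub_eq_add_neg, div_eq_inv_mul]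
        · rw [if_neg hv, map_mul, ecof, aeval_X, p2 h v hv, e2 h v hv]
          split_ifs
          · rw [← map_mul, mul_inv_cancel₀ (hΔ h)]
            simp
          · simp
      · simp only [if_neg hu]
        rw [aeval_X, p3 h u v hu, e3 h u v hu]
        split_ifs <;> simp
    have e5 := DFunLike.congr_fun hcomm Q
    simp only [AlgHom.comp_apply] at e5
    rw [e5]
    exact qF

end Pool.Agent.Lib.MP_dee342_nt.Q
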