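import Pool.Agent.Lib.MP_dee342_nt.QDefs

/-! Triangularity, boxes and limits. -/

namespace Pool.Agent.Lib.MP_dee342_nt.Q

open MvPolynomial Finset Pool.Agent.Lib.Common.Subspace Pool.Agent.Lib.Common.ZeroLemma

variable {σ : Type*}

/-- If some `h i ≠ 0`, take such an `i` with `(m i).degree` minimal and look at the coefficient
of `m i` (`coeff_monomial_mul'`): a term `i' ≠ i` contributes only if `m i' ≤ m i`, and then its
degree is smaller. -/
theorem tri {K : Type*} [Field K] {I : Type*} (S : Finset I) (m : I → σ →₀ ℕ)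
    (hm : Set.InjOn m S) {ω : σ → ℝ} {τ : ℝ} (hS : ∀ i ∈ S, Finsupp.weight ω (m i) < τ)
    (h : I → MvPolynomial σ K) (hF : InF ω τ (∑ i ∈ S, monomial (m i) 1 * h i))
    (hz : ∀ i ∈ S, coeff 0 (h i) = 0 → h i = 0) : ∀ i ∈ S, h i = 0 := by
  classical
  by_contra hcon
  push Not at hcon
  obtain ⟨i₀, hi₀, hne₀⟩ := hcon
  obtain ⟨i, hi, hmin⟩ := exists_min_image (S.filter fun i => h i ≠ 0) (fun i => (m i).degree)
    ⟨i₀, mem_filter.2 ⟨hi₀, hne₀⟩⟩
  rw [mem_filter] at hi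
  have hc : coeff (m i) (∑ i ∈ S, monomial (m i) 1 * h i) = coeff 0 (h i) := by
    rw [coeff_sum, sum_eq_single_of_mem i hi.1]
    · rw [coeff_monomial_mul', if_pos le_rfl, one_mul, tsub_self]
    · intro j hj hji
      rw [coeff_monomial_mul']
      split_ifs with hle
      · by_cases hj0 : h j = 0
        · rw [hj0, coeff_zero, mul_zero]
        · exfalso
          have h1 := hmin j (mem_filter.2 ⟨hj, hj0⟩)
          obtain ⟨c, hc⟩ := exists_add_of_le hle
          rw [hc, map_add] at h1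
          have h2 : c = 0 := (Finsupp.degree_eq_zero_iff c).1 (by omega)
          rw [h2, add_zero] at hc
          exact hji (hm hj hi.1 hc.symm)
      · rfl
  have h0 : coeff 0 (h i) ≠ 0 := fun e => hi.2 (hz i hi.1 e)
  exact absurd (hF (m i) (mem_support_iff.2 (hc ▸ h0))) (not_le.2 (hS i hi.1))

theorem ex_apply [Finite σ] (m : σ → ℕ) (j : σ) : ex m j = m j := rfl

theorem ex_injective [Finite σ] : Function.Injective (ex (σ := σ)) :=
  Finsupp.equivFunOnFinite.symm.injective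

variable [Fintype σ] [DecidableEq σ]

theorem mem_box {W : Finset σ} {T m : σ → ℕ} :
    m ∈ box W T ↔ ∀ j, (j ∈ W → m j = 0) ∧ (j ∉ W → m j < T j) := by
  rw [box, Fintype.mem_piFinset]
  refine forall_congr' fun j => ?_
  by_cases hj : j ∈ W <;> simp [hj]

theorem card_box (W : Finset σ) (T : σ → ℕ) : (box W T).card = ∏ j ∈ Wᶜ, T j := by
  rw [box, Fintype.card_piFinset, ← prod_mul_prod_compl W, prod_eq_one, one_mul]
  · exact prod_congr rfl fun j hj => by rw [if_neg (mem_compl.1 hj), card_range]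
  · intro j hj
    rw [if_pos hj, card_singleton]

/-- `m j < ⌈r⌉₊` gives `m j < r` (`Nat.lt_ceil`); sum over `Wᶜ`, which has `s` elements. -/
theorem weight_box {W : Finset σ} (hW : Wᶜ.Nonempty) {ω : σ → ℝ} (hω : ∀ j, 0 < ω j) {τ : ℝ}
    {m : σ → ℕ} (hm : m ∈ box W fun j => ⌈τ / (Wᶜ.card * ω j)⌉₊) :
    Finsupp.weight ω (ex m) < τ := by
  rw [mem_box] at hm
  have hs : (0 : ℝ) < Wᶜ.card := by exact_mod_cast hW.card_pos
  rw [Finsupp.weight_apply, Finsupp.sum_fintype _ _ (fun j => by simp), ← sum_add_sum_compl W,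
    sum_eq_zero (fun j hj => by rw [ex_apply, (hm j).1 hj, zero_smul]), zero_add]
  have e : τ = ∑ _j ∈ Wᶜ, τ / Wᶜ.card := by
    rw [sum_const, nsmul_eq_mul]
    field_simp
  rw [e]
  refine sum_lt_sum_of_nonempty hW fun j hj => ?_
  have h1 := Nat.lt_ceil.1 ((hm j).2 (mem_compl.1 hj))
  rw [lt_div_iff₀ (mul_pos hs (hω j))] at h1
  rw [ex_apply, nsmul_eq_mul, lt_div_iff₀ hs]
  linarith

/-- Divide by `t ^ s.card` and let `t` tend to infinity (`tendsto_finset_prod`,
`ge_of_tendsto`). -/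
theorem le_prod_of_forall {I : Type*} (s : Finset I) (A : ℝ) (c b : I → ℝ)
    (h : ∀ t : ℕ, (t : ℝ) ^ s.card * A ≤ ∏ j ∈ s, (c j + t * b j)) : A ≤ ∏ j ∈ s, b j := by
  have h1 : Filter.Tendsto (fun t : ℕ => ∏ j ∈ s, (c j / (t : ℝ) + b j)) Filter.atTop
      (nhds (∏ j ∈ s, (0 + b j))) :=
    tendsto_finsetProd s fun j _ =>
      (tendsto_const_div_atTop_nhds_zero_nat (c j)).add tendsto_const_nhds
  simp only [zero_add] at h1
  refine ge_of_tendsto h1 (Filter.eventually_atTop.2 ⟨1, fun t ht => ?_⟩)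
  have ht0 : (0 : ℝ) < t := by exact_mod_cast ht
  have e : ∏ j ∈ s, (c j + t * b j) = (t : ℝ) ^ s.card * ∏ j ∈ s, (c j / (t : ℝ) + b j) := by
    rw [← prod_const, ← prod_mul_distrib]
    refine prod_congr rfl fun j _ => ?_
    field_simp
  have h2 := h t
  rw [e] at h2
  exact le_of_mul_le_mul_left h2 (pow_pos ht0 _)

omit [Fintype σ] [DecidableEq σ] in
theorem le_of_forall_add (A B L : ℝ) (h : ∀ U : ℕ, ((U : ℝ) + 1) * A ≤ (U + L) * B) : A ≤ B := by
  by_contra hcon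
  push Not at hcon
  obtain ⟨U, hU⟩ := exists_nat_gt ((L * B - A) / (A - B))
  rw [div_lt_iff₀ (sub_pos.2 hcon)] at hU
  have := h U
  nlinarith

omit [Fintype σ] [DecidableEq σ] in
/-- With `s = card`, `1 ≤ s ≤ m`: `rho m ≤ (1 / (s (m+1))) ^ s`. -/
theorem rho_le {m s : ℕ} (hs : 1 ≤ s) (hsm : s ≤ m) :
    rho m ≤ (1 / ((s : ℝ) * (m + 1))) ^ s := by
  have hs' : (1 : ℝ) ≤ s := by exact_mod_cast hs
  have hsm' : (s : ℝ) ≤ m := by exact_mod_cast hsm
  have h1 : 1 / ((m : ℝ) * (m + 1)) ≤ 1 / ((s : ℝ) * (m + 1)) :=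
    one_div_le_one_div_of_le (by positivity) (mul_le_mul_of_nonneg_right hsm' (by positivity))
  have h2 : 1 / ((s : ℝ) * (m + 1)) ≤ 1 := by
    rw [div_le_one (by positivity)]
    nlinarith
  exact (pow_le_pow_left₀ (by positivity) h1 m).trans (pow_le_pow_of_le_one (by positivity) h2 hsm)

omit [Fintype σ] [DecidableEq σ] in
theorem rho_pos {m : ℕ} (hm : 1 ≤ m) : 0 < rho m := by
  have : (0 : ℝ) < m := by exact_mod_cast hm
  unfold rho
  positivity

end Pool.Agent.Lib.MP_dee342_nt.Q
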