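import Pool.Agent.Lib.MP_dee342_nt.QGeoA
import Pool.Agent.Lib.MP_dee342_nt.QTri

/-! Comparison of two transcendence bases. -/

namespace Pool.Agent.Lib.MP_dee342_nt.Q

open MvPolynomial Finset Pool.Agent.Lib.Common.Subspace Pool.Agent.Lib.Common.ZeroLemma

variable {σ : Type*} [Fintype σ] [DecidableEq σ] {K : Type*} [Field K] [Algebra ℚ K]

/-- The expansion of the relation `ψ j` in the directions outside `W'` is `X j * h` with
`coeff 0 h ≠ 0`: by `tayW_supported` it is `∑ C (c k (y)) * (X j + C (y j)) ^ k`; use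
`Polynomial.binomExpansion`-like identities (`add_pow_eq_add_pow`, `Polynomial.powAddExpansion`)
`(a + z) ^ k = a ^ k + k a ^ (k-1) z + r z ^ 2`. -/
theorem geo_rel {y : σ → K} {W' : Finset σ} (hW' : Bas y W') {j : σ} (hj : j ∉ W') :
    ∃ (ψ : MvPolynomial σ ℚ) (h : MvPolynomial σ K), tayW y W' ψ = X j * h ∧ coeff 0 h ≠ 0 := by
  obtain ⟨n, c, hc, -, h0, h1⟩ := hW'.rel j hj
  have hr : ∀ k : ℕ, ∃ r : MvPolynomial σ K, (C (y j) + X j : MvPolynomial σ K) ^ k =
      C (y j) ^ k + (k : MvPolynomial σ K) * C (y j) ^ (k - 1) * X j + r * X j ^ 2 := fun k =>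
    ⟨_, (Polynomial.powAddExpansion (C (y j)) (X j) k).2⟩
  choose r hr using hr
  refine ⟨∑ k ∈ range (n + 1), c k * X j ^ k,
    ∑ k ∈ range (n + 1), C (aeval y (c k)) *
      ((k : MvPolynomial σ K) * C (y j) ^ (k - 1) + r k * X j), ?_, ?_⟩
  · have e0 : ∑ k ∈ range (n + 1), (C (aeval y (c k)) * C (y j) ^ k : MvPolynomial σ K) = 0 := by
      have := congrArg (C : K →+* MvPolynomial σ K) h0
      simpa only [map_sum, map_mul, map_pow, aeval_X, map_zero] using this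
    rw [map_sum, mul_sum, ← zero_add (∑ k ∈ range (n + 1), X j * _), ← e0, ← sum_add_distrib]
    refine sum_congr rfl fun k _ => ?_
    rw [map_mul, map_pow, tayW_supported y W' (hc k), tayW_X, if_neg hj, add_comm (X j), hr]
    ring
  · intro h
    apply h1
    rw [← h, ← constantCoeff_eq]
    simp only [map_sum, map_mul, map_pow, map_add, map_natCast, aeval_X, constantCoeff_C,
      constantCoeff_X, mul_zero, add_zero]
    exact sum_congr rfl fun k _ => by ring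

/-- Polynomials whose degrees outside `W` are at most `e` lie in the span over the ring
`supported ℚ W` of the monomials with exponents in `box W (e + 1)`. A linearly independent family
in a span is not larger than the spanning set (`linearIndependent_le_span_finset` or
`linearIndependent_le_span'`; the ring is a nontrivial commutative ring). -/
theorem card_le_of_indep (W : Finset σ) (e : σ → ℕ) {I : Type*} (S : Finset I)
    (g : I → MvPolynomial σ ℚ) (hg : ∀ i ∈ S, ∀ μ ∈ (g i).support, ∀ j ∉ W, μ j ≤ e j)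
    (hi : ∀ a : I → MvPolynomial σ ℚ, (∀ i, a i ∈ supported ℚ (W : Set σ)) →
      ∑ i ∈ S, a i * g i = 0 → ∀ i ∈ S, a i = 0) : S.card ≤ ∏ j ∈ Wᶜ, (e j + 1) := by
  classical
  let v : S → MvPolynomial σ ℚ := fun i => g i
  have hv : LinearIndependent (supported ℚ (W : Set σ)) v := by
    rw [Fintype.linearIndependent_iff]
    intro a ha i
    have := hi (fun i => if h : i ∈ S then (a ⟨i, h⟩ : MvPolynomial σ ℚ) else 0)
      (fun i => by
        split_ifs with h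
        · exact (a ⟨i, h⟩).2
        · exact zero_mem _)
      (by
        rw [← ha, ← sum_coe_sort S]
        refine sum_congr rfl fun i _ => ?_
        rw [dif_pos i.2]
        rfl) i.1 i.2
    rw [dif_pos i.2] at this
    exact Subtype.ext this
  let w : Finset (MvPolynomial σ ℚ) :=
    (box W fun j => e j + 1).image fun m => monomial (ex m) 1
  have hs : Set.range v ≤ Submodule.span (supported ℚ (W : Set σ)) (w : Set (MvPolynomial σ ℚ)) := by
    rintro _ ⟨i, rfl⟩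
    change g i ∈ Submodule.span (supported ℚ (W : Set σ)) (w : Set (MvPolynomial σ ℚ))
    rw [(g i).as_sum]
    refine Submodule.sum_mem _ fun μ hμ => ?_
    have h1 : monomial (μ.filter fun j => j ∈ W) (coeff μ (g i)) ∈ supported ℚ (W : Set σ) := by
      rw [mem_supported, vars_monomial (mem_support_iff.1 hμ), Finsupp.support_filter]
      intro j hj
      exact (mem_filter.1 hj).2
    have h2 : monomial (μ.filter fun j => ¬ j ∈ W) (1 : ℚ) ∈ w := by
      refine mem_image.2 ⟨fun j => if j ∈ W then 0 else μ j, mem_box.2 fun j => ⟨fun h => ?_, fun h => ?_⟩, ?_⟩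
      · exact if_pos h
      · simp only [if_neg h]
        exact Nat.lt_succ_of_le (hg i i.2 μ hμ j h)
      · congr 2
        ext j
        rw [ex_apply, Finsupp.filter_apply]
        by_cases h : j ∈ W <;> simp [h]
    have := Submodule.smul_mem (Submodule.span (supported ℚ (W : Set σ)) (w : Set (MvPolynomial σ ℚ)))
      ⟨_, h1⟩ (Submodule.subset_span (mem_coe.2 h2))
    rwa [Subalgebra.smul_def, smul_eq_mul, monomial_mul, Finsupp.filter_add_filter_not,
      mul_one] at this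
  have := linearIndependent_le_span_aux' v hv (w : Set (MvPolynomial σ ℚ)) hs
  simp only [Fintype.card_coe, coe_sort_coe] at this
  exact this.trans (card_image_le.trans (card_box _ _).le)

/-- For `m ∈ box W' T` let `f m = ∏ j ∉ W', ψ j ^ m j` (`geo_rel`) and take `b m`, `g m` from
`h`. If `∑ a m * g m = 0` then `∑ a m * b m * f m` has weight `≥ τ`, and its expansion is
`∑ monomial (ex m) 1 * (tayW (a m * b m) * ∏ h j ^ m j)`. Apply `tri`; the constant term of the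
second factor is `aeval y (a m * b m) * ∏ …`, which vanishes only if `a m = 0` (`Bas.indep`). -/
theorem geo_count {y : σ → K} {W W' : Finset σ} (hW : Bas y W) (hW' : Bas y W') {ω : σ → ℝ}
    (hω : ∀ j, 0 < ω j) {τ : ℝ} (e T : σ → ℕ)
    (hT : ∀ m ∈ box W' T, Finsupp.weight ω (ex m) < τ)
    (h : ∀ f : MvPolynomial σ ℚ, ∃ b ∈ supported ℚ (W : Set σ), b ≠ 0 ∧
      ∃ g : MvPolynomial σ ℚ, (∀ μ ∈ g.support, ∀ j ∉ W, μ j ≤ e j) ∧
        InF ω τ (tayW y W' (b * f - g))) :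
    ∏ j ∈ W'ᶜ, T j ≤ ∏ j ∈ Wᶜ, (e j + 1) := by
  have h1 : ∀ j, ∃ (ψ : MvPolynomial σ ℚ) (q : MvPolynomial σ K), j ∉ W' →
      tayW y W' ψ = X j * q ∧ coeff 0 q ≠ 0 := by
    intro j
    by_cases hj : j ∈ W'
    · exact ⟨0, 0, fun h => absurd hj h⟩
    · obtain ⟨ψ, q, hq⟩ := geo_rel hW' hj
      exact ⟨ψ, q, fun _ => hq⟩
  choose ψ q hq using h1
  choose b hb hb0 g hg hF using h
  let f : (σ → ℕ) → MvPolynomial σ ℚ := fun m => ∏ j ∈ W'ᶜ, ψ j ^ m j
  rw [← card_box]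
  refine card_le_of_indep W e (box W' T) (fun m => g (f m)) (fun m _ => hg (f m)) ?_
  intro a ha hsum
  let H : (σ → ℕ) → MvPolynomial σ K := fun m =>
    tayW y W' (a m * b (f m)) * ∏ j ∈ W'ᶜ, q j ^ m j
  have e1 : ∀ m ∈ box W' T, tayW y W' (a m * b (f m) * f m) = monomial (ex m) 1 * H m := by
    intro m hm
    have e2 : (monomial (ex m) 1 : MvPolynomial σ K) = ∏ j ∈ W'ᶜ, X j ^ m j := by
      rw [← prod_X_pow_eq_monomial]
      refine prod_subset (fun j hj => mem_compl.2 fun hj' => ?_) fun j _ hj => ?_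
      · exact Finsupp.mem_support_iff.1 hj ((mem_box.1 hm j).1 hj')
      · rw [Finsupp.notMem_support_iff.1 hj, pow_zero]
    have e3 : tayW y W' (f m) = (∏ j ∈ W'ᶜ, X j ^ m j) * ∏ j ∈ W'ᶜ, q j ^ m j := by
      rw [← prod_mul_distrib, map_prod]
      refine prod_congr rfl fun j hj => ?_
      rw [map_pow, (hq j (mem_compl.1 hj)).1, mul_pow]
    rw [map_mul _ _ (f m), e2, e3]
    ring
  have e4 : ∑ m ∈ box W' T, monomial (ex m) 1 * H m =
      ∑ m ∈ box W' T, tayW y W' (a m) * tayW y W' (b (f m) * f m - g (f m)) := by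
    rw [← sum_congr rfl e1, ← map_sum, ← sub_zero (∑ m ∈ box W' T, a m * b (f m) * f m), ← hsum,
      ← sum_sub_distrib, map_sum]
    refine sum_congr rfl fun m _ => ?_
    rw [← map_mul]
    congr 1
    ring
  have h5 : InF ω τ (∑ m ∈ box W' T, monomial (ex m) 1 * H m) := by
    rw [e4]
    refine inF_sum _ _ fun m _ => ?_
    have := (inF_of_nonpos (fun j => (hω j).le) le_rfl (tayW y W' (a m))).mul (hF (f m))
    rwa [zero_add] at this
  have h6 : ∀ m, coeff 0 (H m) = 0 → a m * b (f m) = 0 := by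
    intro m hm
    rw [← constantCoeff_eq, map_mul, map_prod] at hm
    rcases mul_eq_zero.1 hm with h | h
    · rw [constantCoeff_eq, coeff_zero_tayW] at h
      exact hW.indep _ (mul_mem (ha m) (hb _)) h
    · obtain ⟨j, hj, h⟩ := prod_eq_zero_iff.1 h
      rw [map_pow] at h
      exact absurd (pow_eq_zero_iff'.1 h).1 (hq j (mem_compl.1 hj)).2
  have h7 := tri (box W' T) ex ex_injective.injOn hT H h5 fun m _ hm => by
    simp only [H, h6 m hm, map_zero, zero_mul]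
  intro m hm
  exact (mul_eq_zero.1 (h6 m (by rw [h7 m hm, coeff_zero]))).resolve_right (hb0 _)

/-- For every `t` use `T j = ⌈t E / (s ω j)⌉₊` (`weight_box`, `Nat.le_ceil`), `geo_claim`,
`geo_count`, and then `le_prod_of_forall`. -/
theorem geo_ineq {y : σ → K} {W W' : Finset σ} (hW : Bas y W) (hW' : Bas y W')
    (hc : W'ᶜ.card = Wᶜ.card) (hne : W'ᶜ.Nonempty) {ω : σ → ℝ} (hω : ∀ j, 0 < ω j)
    (𝒢 : Finset (MvPolynomial σ ℚ)) (d : σ → ℕ)
    (hd : ∀ G ∈ 𝒢, ∀ μ ∈ G.support, ∀ j, μ j ≤ d j) {E : ℝ} (hE0 : 0 ≤ E)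
    (hE : ∀ G ∈ 𝒢, InF ω E (tay y G)) {u : MvPolynomial σ ℚ} (hu : aeval y u ≠ 0) {M : ℕ}
    (hM : ∀ f, aeval y f = 0 → u * f ^ M ∈ Ideal.span (𝒢 : Set (MvPolynomial σ ℚ))) :
    ∏ j ∈ W'ᶜ, E / (W'ᶜ.card * ω j) ≤ ∏ j ∈ Wᶜ, (d j : ℝ) := by
  obtain ⟨c, hc'⟩ := geo_claim hW W' hω 𝒢 d hd (fun G hG => inF_tayW y W' (hE G hG)) hu hM
  refine le_prod_of_forall Wᶜ _ (fun _ => (c : ℝ) + 1) (fun j => (d j : ℝ)) fun t => ?_
  have h1 := geo_count hW hW' hω (τ := t * E) (fun j => c + t * d j)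
    (fun j => ⌈t * E / (W'ᶜ.card * ω j)⌉₊) (fun m hm => weight_box hne hω hm) (hc' t)
  have h2 : ((∏ j ∈ W'ᶜ, ⌈t * E / (W'ᶜ.card * ω j)⌉₊ : ℕ) : ℝ) ≤
      ((∏ j ∈ Wᶜ, (c + t * d j + 1) : ℕ) : ℝ) := Nat.cast_le.2 h1
  push_cast at h2
  calc (t : ℝ) ^ Wᶜ.card * ∏ j ∈ W'ᶜ, E / (W'ᶜ.card * ω j)
      = ∏ j ∈ W'ᶜ, t * E / (W'ᶜ.card * ω j) := by
        rw [← hc, ← prod_const, ← prod_mul_distrib]
        exact prod_congr rfl fun j _ => (mul_div_assoc _ _ _).symm
    _ ≤ ∏ j ∈ W'ᶜ, (⌈t * E / (W'ᶜ.card * ω j)⌉₊ : ℝ) :=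
        prod_le_prod (fun j _ => by have := hω j; positivity) fun j _ => Nat.le_ceil _
    _ ≤ _ := h2.trans (le_of_eq (prod_congr rfl fun j _ => by ring))

theorem qgeob_cmp {y : σ → K} {ω : σ → ℝ} (hω : ∀ j, 0 < ω j)
    {D : ℝ} (hD : 0 < D) (𝒢 : Finset (MvPolynomial σ ℚ)) (d : σ → ℕ) (hdD : ∀ j, ω j * d j ≤ D)
    (hd : ∀ G ∈ 𝒢, ∀ μ ∈ G.support, ∀ j, μ j ≤ d j)
    (hE : ∀ G ∈ 𝒢, InF ω (D / (Fintype.card σ + 1)) (tay y G)) {u : MvPolynomial σ ℚ}
    (hu : aeval y u ≠ 0) {M : ℕ}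
    (hM : ∀ f, aeval y f = 0 → u * f ^ M ∈ Ideal.span (𝒢 : Set (MvPolynomial σ ℚ)))
    {W W' U : Finset σ} (hW : Bas y W) (hW' : Bas y W') {i j : σ} (hi : i ∉ U) (hj : j ∉ U)
    (e1 : Wᶜ = insert i U) (e2 : W'ᶜ = insert j U) : rho (Fintype.card σ) * ω i ≤ ω j := by
  have c1 : Wᶜ.card = U.card + 1 := by rw [e1, card_insert_of_notMem hi]
  have c2 : W'ᶜ.card = U.card + 1 := by rw [e2, card_insert_of_notMem hj]
  have h := geo_ineq hW hW' (c2.trans c1.symm) (by rw [e2]; exact insert_nonempty _ _) hω 𝒢 d hd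
    (by positivity) hE hu hM
  have hs : U.card + 1 ≤ Fintype.card σ := c1 ▸ card_le_univ _
  have hr := rho_le (Nat.le_add_left 1 U.card) hs
  set κ : ℝ := 1 / (((U.card + 1 : ℕ) : ℝ) * (Fintype.card σ + 1)) with hκ
  have h1 : ∏ l ∈ W'ᶜ, D / (Fintype.card σ + 1) / (W'ᶜ.card * ω l) =
      κ ^ (U.card + 1) * (D / ω j * ∏ l ∈ U, D / ω l) := by
    rw [← prod_insert (f := fun l => D / ω l) hj, ← e2, ← c2, ← prod_const, ← prod_mul_distrib]
    refine prod_congr rfl fun l _ => ?_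
    have := hω l
    rw [hκ, c2]
    field_simp
  have h2 : ∏ l ∈ Wᶜ, (d l : ℝ) ≤ D / ω i * ∏ l ∈ U, D / ω l := by
    rw [← prod_insert (f := fun l => D / ω l) hi, ← e1]
    refine prod_le_prod (fun l _ => Nat.cast_nonneg _) fun l _ => ?_
    rw [le_div_iff₀' (hω l)]
    exact hdD l
  have hP : 0 < ∏ l ∈ U, D / ω l := prod_pos fun l _ => div_pos hD (hω l)
  rw [h1] at h
  have h3 := h.trans h2
  rw [← mul_assoc] at h3
  have h4 := le_of_mul_le_mul_right h3 hP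
  rw [← mul_div_assoc, div_le_div_iff₀ (hω j) (hω i), mul_right_comm, mul_comm D] at h4
  exact (mul_le_mul_of_nonneg_right hr (hω i).le).trans (le_of_mul_le_mul_right h4 hD)

/-- If `y i` were transcendental, exchange: `W' = insert i (W.erase j)`, so
`W'ᶜ = insert j (Wᶜ.erase i)`. Put `s = card Wᶜ`, `m = card σ`. `geo_ineq` for `(W, W')` and
`d l ≤ D / ω l` give, after cancelling the common factors,
`(1 / (s (m+1))) ^ s * ω i ≤ ω j`; for `(W', W)` the same with `i`, `j` exchanged. `rho_le` and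
`hsep` give a contradiction. -/
theorem exists_bas_alg (y : σ → K) {ω : σ → ℝ} (hω : ∀ j, 0 < ω j)
    (hsep : ∀ i j, i ≠ j → ω i < rho (Fintype.card σ) * ω j ∨ ω j < rho (Fintype.card σ) * ω i)
    {D : ℝ} (hD : 0 < D) (𝒢 : Finset (MvPolynomial σ ℚ)) (d : σ → ℕ) (hdD : ∀ j, ω j * d j ≤ D)
    (hd : ∀ G ∈ 𝒢, ∀ μ ∈ G.support, ∀ j, μ j ≤ d j)
    (hE : ∀ G ∈ 𝒢, InF ω (D / (Fintype.card σ + 1)) (tay y G)) {u : MvPolynomial σ ℚ}
    (hu : aeval y u ≠ 0) {M : ℕ}
    (hM : ∀ f, aeval y f = 0 → u * f ^ M ∈ Ideal.span (𝒢 : Set (MvPolynomial σ ℚ)))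
    (hb : ∃ W : Finset σ, Bas y W ∧
      ∀ i ∉ W, ¬ IsAlgebraic ℚ (y i) → ∃ j ∈ W, Bas y (insert i (W.erase j))) :
    ∃ W : Finset σ, Bas y W ∧ ∀ i ∉ W, IsAlgebraic ℚ (y i) := by
  obtain ⟨W, hW, hex⟩ := hb
  refine ⟨W, hW, fun i hi => ?_⟩
  by_contra hna
  obtain ⟨j, hj, hW'⟩ := hex i hi hna
  have hij : i ≠ j := fun h => hi (h ▸ hj)
  have hiU : i ∉ Wᶜ.erase i := notMem_erase _ _
  have hjU : j ∉ Wᶜ.erase i := fun h => mem_compl.1 (mem_of_mem_erase h) hj
  have e1 : Wᶜ = insert i (Wᶜ.erase i) := (insert_erase (mem_compl.2 hi)).symm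
  have e2 : (insert i (W.erase j))ᶜ = insert j (Wᶜ.erase i) := by
    ext l
    simp only [mem_compl, mem_insert, mem_erase]
    by_cases h1 : l = j
    · subst h1
      simp [hij.symm]
    · by_cases h2 : l = i <;> simp [h1, h2, hij]
  have a1 := qgeob_cmp hω hD 𝒢 d hdD hd hE hu hM hW hW' hiU hjU e1 e2
  have a2 := qgeob_cmp hω hD 𝒢 d hdD hd hE hu hM hW' hW hjU hiU e2 e1
  rcases hsep i j hij with h | h <;> linarith

end Pool.Agent.Lib.MP_dee342_nt.Q
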