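import Pool.Agent.Lib.MP_dee342_nt.QDer

/-! Transcendence bases among the coordinates, and the exchange property. -/

namespace Pool.Agent.Lib.MP_dee342_nt.Q

open MvPolynomial Finset Pool.Agent.Lib.Common.Subspace Pool.Agent.Lib.Common.ZeroLemma

variable {σ : Type*} [Fintype σ] [DecidableEq σ] {K : Type*} [Field K] [Algebra ℚ K]

omit [Fintype σ] [DecidableEq σ] in
theorem qmat_lift (y : σ → K) (W : Set σ) (a : Algebra.adjoin ℚ (y '' W)) :
    ∃ b ∈ supported ℚ W, aeval y b = (a : K) := by
  have h : (supported ℚ W).map (aeval y : MvPolynomial σ ℚ →ₐ[ℚ] K) =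
      Algebra.adjoin ℚ (y '' W) := by
    rw [supported_eq_adjoin_X, AlgHom.map_adjoin, Set.image_image]
    simp
  obtain ⟨a, ha⟩ := a
  rw [← h] at ha
  exact ha

omit [Fintype σ] [DecidableEq σ] in
theorem qmat_base (y : σ → K) (W : Finset σ)
    (h : ((AlgebraicIndependent.matroid ℚ K).comap y).IsBase (W : Set σ)) :
    (AlgebraicIndependent ℚ fun j : W => y j) ∧
      ∀ j, IsAlgebraic (Algebra.adjoin ℚ (y '' (W : Set σ))) (y j) := by
  rw [Matroid.comap_isBase_iff, AlgebraicIndependent.matroid_isBasis_iff] at h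
  obtain ⟨⟨h1, -, h3⟩, h4, -⟩ := h
  exact ⟨(algebraicIndependent_image (s := (W : Set σ)) h4).2 h1,
    fun j => h3 _ ⟨j, by simp, rfl⟩⟩

/-- Write `A = Algebra.adjoin ℚ (y '' W)`; its elements are the `aeval y b`, `b ∈ supported ℚ W`
(`supported_eq_range_rename`, `Algebra.adjoin_range_eq_range_aeval`, or
`supported_eq_adjoin_X` with `AlgHom.map_adjoin`).
`indep`: `algebraicIndependent_iff`. `inv`: `z = aeval y f` is algebraic over the domain `A`
(the algebraic elements form a subalgebra), so it divides a nonzero element of `A`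
(`IsAlgebraic.exists_nonzero_dvd` or divide a relation by a power of `X`); the cofactor lies in
`Algebra.adjoin ℚ (range y)`. `rel`: take a nonzero polynomial over `A` of least degree that
vanishes at `y j`; its degree is positive, so its derivative is nonzero of smaller degree
(characteristic zero). Lift the coefficients. -/
theorem bas_of_alg (y : σ → K) (W : Finset σ)
    (h1 : AlgebraicIndependent ℚ fun j : W => y j)
    (h2 : ∀ j, IsAlgebraic (Algebra.adjoin ℚ (y '' (W : Set σ))) (y j)) : Bas y W := by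
  set A := Algebra.adjoin ℚ (y '' (W : Set σ)) with hA
  choose L hL1 hL2 using qmat_lift y (W : Set σ)
  refine ⟨fun b hb h0 => ?_, fun f hf => ?_, fun j _ => ?_⟩
  · rw [supported_eq_range_rename] at hb
    obtain ⟨p, rfl⟩ := hb
    have hp : p = 0 := by
      refine algebraicIndependent_iff.1 h1 p ?_
      rw [← h0]
      exact (aeval_rename _ _ _).symm
    rw [hp, map_zero]
  · have halg : ∀ g : MvPolynomial σ ℚ, IsAlgebraic A (aeval y g) := by
      intro g
      induction g using MvPolynomial.induction_on with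
      | C a =>
        rw [aeval_C, IsScalarTower.algebraMap_apply ℚ A K]
        exact isAlgebraic_algebraMap _
      | add p q hp hq =>
        rw [map_add]
        exact hp.add hq
      | mul_X p i hp =>
        rw [map_mul, aeval_X]
        exact hp.mul (h2 i)
    obtain ⟨t, ht, r, hr, h3⟩ :=
      (halg f).exists_nonzero_eq_adjoin_mul (mem_nonZeroDivisors_of_ne_zero hf)
    have h4 : ∃ f' : MvPolynomial σ ℚ, aeval y f' = t := by
      refine Algebra.adjoin_induction (R := A) (p := fun t _ => ∃ f' : MvPolynomial σ ℚ, aeval y f' = t)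
        (fun x hx => ⟨f, (Set.mem_singleton_iff.1 hx).symm⟩) (fun a => ⟨L a, hL2 a⟩) ?_ ?_ ht
      · rintro x z _ _ ⟨p, rfl⟩ ⟨q, rfl⟩
        exact ⟨p + q, map_add _ _ _⟩
      · rintro x z _ _ ⟨p, rfl⟩ ⟨q, rfl⟩
        exact ⟨p * q, map_mul _ _ _⟩
    obtain ⟨f', rfl⟩ := h4
    refine ⟨L r, hL1 r, fun h0 => hr (Subtype.ext ?_), f', ?_⟩
    · rw [← hL2 r, h0, map_zero]
      rfl
    · rw [map_sub, map_mul, h3, hL2]
      exact sub_self _
  · classical
    have : CharZero A := algebraRat.charZero A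
    have hex : ∃ n, ∃ q : Polynomial A, q ≠ 0 ∧ Polynomial.aeval (y j) q = 0 ∧ q.natDegree = n := by
      obtain ⟨q, hq0, hq⟩ := h2 j
      exact ⟨_, q, hq0, hq, rfl⟩
    obtain ⟨q, hq0, hq, hn⟩ := Nat.find_spec hex
    have hpos : q.natDegree ≠ 0 := by
      intro h0
      rw [Polynomial.eq_C_of_natDegree_eq_zero h0] at hq hq0
      rw [Polynomial.aeval_C] at hq
      apply hq0
      rw [show q.coeff 0 = 0 from Subtype.ext hq, map_zero]
    have hd0 : Polynomial.derivative q ≠ 0 := fun h0 =>
      hpos (Polynomial.derivative_eq_zero.1 h0)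
    have hd : Polynomial.aeval (y j) (Polynomial.derivative q) ≠ 0 := fun h0 =>
      Nat.find_min hex (hn ▸ Polynomial.natDegree_derivative_lt hpos) ⟨_, hd0, h0, rfl⟩
    refine ⟨q.natDegree, fun k => L (q.coeff k), fun k => hL1 _, fun h0 => ?_, ?_, ?_⟩
    · apply Polynomial.leadingCoeff_ne_zero.2 hq0
      refine Subtype.ext ?_
      have h0' : L (q.coeff q.natDegree) = 0 := h0
      rw [Polynomial.leadingCoeff, ← hL2, h0', map_zero]
      rfl
    · rw [← hq, Polynomial.aeval_eq_sum_range, map_sum]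
      refine Finset.sum_congr rfl fun k _ => ?_
      rw [map_mul, map_pow, aeval_X, hL2]
      rfl
    · intro h0
      apply hd
      rw [← h0, map_sum]
      conv_lhs => rw [q.as_sum_range_C_mul_X_pow, Polynomial.derivative_sum, map_sum]
      refine Finset.sum_congr rfl fun k _ => ?_
      rw [Polynomial.derivative_C_mul_X_pow, map_mul, map_pow, Polynomial.aeval_X,
        Polynomial.aeval_C, map_mul, map_natCast, map_mul, map_mul, map_pow, aeval_X, hL2,
        map_natCast, mul_comm (k : K)]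
      rfl

/-- Use the matroid `(AlgebraicIndependent.matroid ℚ K).comap y` on `σ` (`Matroid.comap_indep_iff`,
`matroid_indep_iff`, `matroid_isBasis_iff`, `Matroid.comap_isBase_iff`). Take a base `W`. If
`y i` is transcendental then `{i}` is independent, and extends to a base contained in
`insert i W` (`Matroid.Indep.exists_isBase_subset_union_isBase`), which has the cardinality of `W`
and so is `insert i (W.erase j)`. -/
theorem exists_alg_basis (y : σ → K) :
    ∃ W : Finset σ, ((AlgebraicIndependent ℚ fun j : W => y j) ∧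
      ∀ j, IsAlgebraic (Algebra.adjoin ℚ (y '' (W : Set σ))) (y j)) ∧
      ∀ i ∉ W, ¬ IsAlgebraic ℚ (y i) → ∃ j ∈ W,
        (AlgebraicIndependent ℚ fun s : (insert i (W.erase j) : Finset σ) => y s) ∧
        ∀ s, IsAlgebraic (Algebra.adjoin ℚ (y '' ((insert i (W.erase j) : Finset σ) : Set σ)))
          (y s) := by
  obtain ⟨B, hB⟩ := ((AlgebraicIndependent.matroid ℚ K).comap y).exists_isBase
  obtain ⟨W, rfl⟩ : ∃ W : Finset σ, (W : Set σ) = B := ⟨(Set.toFinite B).toFinset, by simp⟩
  refine ⟨W, qmat_base y W hB, fun i hi ht => ?_⟩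
  have hI : ((AlgebraicIndependent.matroid ℚ K).comap y).Indep {i} := by
    rw [Matroid.comap_indep_iff, AlgebraicIndependent.matroid_indep_iff, Set.image_singleton]
    exact ⟨(algebraicIndependent_singleton_iff (⟨y i, rfl⟩ : ({y i} : Set K))).2 ht,
      Set.injOn_singleton _ _⟩
  obtain ⟨B', hB', h1, h2⟩ := hI.exists_isBase_subset_union_isBase hB
  have h3 : ∃ j, j ∈ (W : Set σ) \ B' := by
    by_contra h
    push Not at h
    have h4 : (W : Set σ) ⊆ B' := fun x hx => by
      by_contra hx'
      exact h x ⟨hx, hx'⟩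
    have h5 := hB.eq_of_subset_isBase hB' h4
    exact hi (show i ∈ (W : Set σ) from h5 ▸ h1 rfl)
  obtain ⟨j, hj⟩ := h3
  obtain ⟨f, hf, h4⟩ := hB.exchange hB' hj
  have h5 : f = i := ((h2 hf.1).resolve_right hf.2)
  subst h5
  refine ⟨j, hj.1, qmat_base y _ ?_⟩
  rwa [Finset.coe_insert, Finset.coe_erase]

theorem exists_bas (y : σ → K) :
    ∃ W : Finset σ, Bas y W ∧
      ∀ i ∉ W, ¬ IsAlgebraic ℚ (y i) → ∃ j ∈ W, Bas y (insert i (W.erase j)) := by
  obtain ⟨W, ⟨h1, h2⟩, h3⟩ := exists_alg_basis y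
  refine ⟨W, bas_of_alg y W h1 h2, fun i hi hi' => ?_⟩
  obtain ⟨j, hj, h4, h5⟩ := h3 i hi hi'
  exact ⟨j, hj, bas_of_alg y _ h4 h5⟩

end Pool.Agent.Lib.MP_dee342_nt.Q
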