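import Pool.Agent.Lib.MP_dee342_nt.QSpec
import Pool.Agent.Lib.MP_dee342_nt.QGeoB
import Pool.Agent.Lib.MP_dee342_nt.QMat
import Pool.Agent.Lib.MP_dee342_nt.QChain

/-! The sharp Roth lemma. -/

namespace Pool.Agent.Lib.MP_dee342_nt.Q

open MvPolynomial Finset Pool.Agent.Lib.Common.Subspace Pool.Agent.Lib.Common.ZeroLemma

variable {σ : Type*} [Fintype σ] [DecidableEq σ]

/-- The exponents below `d` of weight at most `t`. -/
noncomputable def rothS (ω : σ → ℝ) (d : σ → ℕ) (t : ℝ) : Finset (σ →₀ ℕ) :=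
  ((Fintype.piFinset fun j => range (d j + 1)).image ex).filter fun μ => Finsupp.weight ω μ ≤ t

theorem mem_rothS {ω : σ → ℝ} {d : σ → ℕ} {t : ℝ} {μ : σ →₀ ℕ} :
    μ ∈ rothS ω d t ↔ (∀ j, μ j ≤ d j) ∧ Finsupp.weight ω μ ≤ t := by
  simp only [rothS, mem_filter, mem_image, Fintype.mem_piFinset, mem_range, Nat.lt_succ_iff]
  refine and_congr_left fun _ => ⟨?_, fun h => ⟨μ, h, by ext j; rfl⟩⟩
  rintro ⟨m, hm, rfl⟩
  exact hm

theorem card_rothS (ω : σ → ℝ) (d : σ → ℕ) (t : ℝ) : (rothS ω d t).card ≤ 2 ^ ∑ j, d j := by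
  refine (card_filter_le _ _).trans (card_image_le.trans ?_)
  rw [Fintype.card_piFinset, ← prod_pow_eq_pow_sum]
  exact prod_le_prod' fun j _ => by rw [card_range]; exact Nat.lt_two_pow_self

theorem roth_inF {K : Type*} [Field K] [Algebra ℚ K] (y : σ → K) {ω : σ → ℝ} {d : σ → ℕ}
    {t E : ℝ} {P : MvPolynomial σ ℚ} (hd : ∀ μ ∈ P.support, ∀ j, μ j ≤ d j)
    (h : ∀ μ ∈ rothS ω d (t + E), aeval y (hder μ P) = 0) {ν : σ →₀ ℕ} (hν : ν ∈ rothS ω d t) :
    InF ω E (tay y (hder ν P)) := by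
  intro μ hμ
  by_contra hlt
  refine mem_support_iff.1 hμ ?_
  rw [coeff_tay, hder_hder, smul_eq_C_mul, map_mul]
  by_cases h1 : ∀ j, (μ + ν) j ≤ d j
  · rw [h _ (mem_rothS.2 ⟨h1, ?_⟩), mul_zero]
    rw [map_add]
    linarith [(mem_rothS.1 hν).2, not_le.1 hlt]
  · have h2 : hder (μ + ν) P = 0 := by
      by_contra h3
      obtain ⟨κ, hκ⟩ := support_nonempty.2 h3
      exact h1 fun j => le_trans (by simp) (hd _ (supp_hder hκ) j)
    rw [h2, map_zero, mul_zero]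

omit [Fintype σ] in
theorem roth_num (V : Finset σ) {i : σ} (hi : i ∈ V) {ω : σ → ℝ} (hω : ∀ j, 0 < ω j) {D c A B : ℝ}
    (hD : 0 < D) (d : σ → ℕ) (hdD : ∀ j, ω j * d j ≤ D) (hB : 0 ≤ B)
    (h : (∏ j ∈ V, c * D / ω j) * A ≤ (∏ j ∈ V.erase i, (d j : ℝ)) * B) :
    c ^ V.card * (A / ω i) * D ≤ B := by
  have h1 : ∏ j ∈ V.erase i, (d j : ℝ) ≤ ∏ j ∈ V.erase i, D / ω j :=
    prod_le_prod (fun j _ => Nat.cast_nonneg _) fun j _ => by
      rw [le_div_iff₀ (hω j), mul_comm]; exact hdD j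
  have h2 : 0 < ∏ j ∈ V.erase i, D / ω j := prod_pos fun j _ => div_pos hD (hω j)
  have h3 : ∏ j ∈ V, c * D / ω j = c ^ V.card * (D / ω i * ∏ j ∈ V.erase i, D / ω j) := by
    rw [mul_prod_erase V (fun j => D / ω j) hi, ← prod_const, ← prod_mul_distrib]
    exact prod_congr rfl fun j _ => mul_div_assoc _ _ _
  refine le_of_mul_le_mul_left ?_ h2
  calc _ = (∏ j ∈ V, c * D / ω j) * A := by rw [h3]; ring
    _ ≤ _ := h.trans (mul_le_mul_of_nonneg_right h1 hB)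

/-- `m = card σ`, `E = D / (m + 1)`, `I j` the ideal spanned by the `hder μ P` with `μ ≤ d` of
weight `≤ j E`, `M` the kernel of `eval ξ`. Take `j`, `p`, `u` from `exists_prime_step`,
`K = FractionRing (MvPolynomial σ ℚ ⧸ p)`, `y` the images of the variables. Then `exists_bas`,
`exists_bas_alg` (`coeff_tay`, `hder_hder`), `eq_of_alg`, `spec_ineq` with
`H = 2 ^ ∑ d * (2 ^ ∑ d * len P)`, and `rho_le`. -/
theorem qroth {ω : σ → ℝ} (hω : ∀ j, 0 < ω j)
    (hsep : ∀ i j, i ≠ j → ω i < rho (Fintype.card σ) * ω j ∨ ω j < rho (Fintype.card σ) * ω i)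
    {γ : ℝ} (ξ : σ → ℚ) (hξ : ∀ j, 1 < |ξ j|)
    (hγ : ∀ j, γ * ω j ≤ Real.log |((ξ j).num : ℝ)|) {D : ℝ} (hD : 0 < D) (d : σ → ℕ)
    (hdD : ∀ j, ω j * d j ≤ D) {P : MvPolynomial σ ℚ} (h0 : P ≠ 0) (hI : IsInt P)
    (hd : ∀ μ ∈ P.support, ∀ j, μ j ≤ d j)
    (hlen : Real.log (len P) + 2 * ∑ j, (d j : ℝ) + 1 < rho (Fintype.card σ) * γ * D) :
    ¬ InFil ω D (shift ξ P) := by
  classical
  intro hF
  set m := Fintype.card σ with hm
  set E : ℝ := D / (m + 1) with hE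
  have hE0 : 0 < E := by positivity
  set 𝒢 : ℕ → Finset (MvPolynomial σ ℚ) := fun j => (rothS ω d (j * E)).image fun μ => hder μ P
    with h𝒢
  have hP0 : ∀ j, P ∈ 𝒢 j := fun j => mem_image.2 ⟨0, mem_rothS.2 ⟨fun _ => Nat.zero_le _, by
    rw [map_zero]; positivity⟩, hder_zero P⟩
  obtain ⟨j, -, p, hp, hpM, hjp, u, hu, n, hn⟩ := exists_prime_step
    (fun j => Ideal.span (𝒢 j : Set (MvPolynomial σ ℚ)))
    (fun j j' hj => Ideal.span_mono (coe_subset.2 (image_subset_image fun μ hμ =>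
      mem_rothS.2 ⟨(mem_rothS.1 hμ).1, (mem_rothS.1 hμ).2.trans
        (mul_le_mul_of_nonneg_right (by exact_mod_cast hj) hE0.le)⟩)))
    (fun h => h0 (Ideal.span_eq_bot.1 h P (hP0 0))) (RingHom.ker (eval ξ))
    (RingHom.ker_isPrime _) (Ideal.span_le.2 fun G hG => by
      obtain ⟨μ, hμ, rfl⟩ := mem_image.1 (mem_coe.1 hG)
      have h1 : Finsupp.weight ω μ < D := by
        refine (mem_rothS.1 hμ).2.trans_lt ?_
        rw [hE, mul_div_assoc', div_lt_iff₀ (by positivity)]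
        nlinarith
      have h2 : coeff μ (tay ξ P) = 0 := by
        by_contra h3
        exact absurd (hF μ (mem_support_iff.2 h3)) (not_le.2 h1)
      rw [coeff_tay] at h2
      exact h2)
  let K := FractionRing (MvPolynomial σ ℚ ⧸ p)
  let φ : MvPolynomial σ ℚ →ₐ[ℚ] K :=
    (IsScalarTower.toAlgHom ℚ (MvPolynomial σ ℚ ⧸ p) K).comp (Ideal.Quotient.mkₐ ℚ p)
  set y : σ → K := fun s => φ (X s) with hy
  have hker : ∀ f, aeval y f = 0 ↔ f ∈ p := fun f => by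
    rw [show aeval y = φ from (aeval_unique φ).symm]
    show algebraMap (MvPolynomial σ ℚ ⧸ p) K (Ideal.Quotient.mk p f) = 0 ↔ _
    rw [map_eq_zero_iff _ (IsFractionRing.injective _ K), Ideal.Quotient.eq_zero_iff_mem]
  have hdG : ∀ G ∈ 𝒢 j, ∀ μ ∈ G.support, ∀ s, μ s ≤ d s := fun G hG μ hμ s => by
    obtain ⟨ν, -, rfl⟩ := mem_image.1 hG
    exact le_trans (by simp) (hd _ (supp_hder hμ) s)
  have hEG : ∀ G ∈ 𝒢 j, InF ω E (tay y G) := fun G hG => by
    obtain ⟨ν, hν, rfl⟩ := mem_image.1 hG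
    refine roth_inF y hd (fun μ hμ => (hker _).2 (hjp (Ideal.subset_span ?_))) hν
    refine mem_coe.2 (mem_image.2 ⟨μ, ?_, rfl⟩)
    rwa [Nat.cast_succ, add_one_mul]
  have hu' : aeval y u ≠ 0 := fun h => hu ((hker u).1 h)
  have hM : ∀ f, aeval y f = 0 → u * f ^ n ∈ Ideal.span (𝒢 j : Set (MvPolynomial σ ℚ)) :=
    fun f hf => hn f ((hker f).1 hf)
  obtain ⟨W, hW, halg⟩ := exists_bas_alg y hω hsep hD (𝒢 j) d hdD hdG hEG hu' hM (exists_bas y)
  have hne : Wᶜ.Nonempty := by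
    by_contra hc
    rw [not_nonempty_iff_eq_empty, compl_eq_empty_iff] at hc
    refine h0 (hW.indep P ?_ ((hker P).2 (hjp (Ideal.subset_span (hP0 _)))))
    rw [hc, coe_univ, supported_univ]
    trivial
  obtain ⟨i, hi⟩ := hne
  have hl := one_le_len hI h0
  have h2 : (1 : ℝ) ≤ 2 ^ ∑ s, d s := one_le_pow₀ one_le_two
  have hH1 : (1 : ℝ) ≤ 2 ^ (∑ s, d s) * (2 ^ (∑ s, d s) * len P) :=
    one_le_mul_of_one_le_of_one_le h2 (one_le_mul_of_one_le_of_one_le h2 hl)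
  have key := spec_ineq hW (fun s hs => eq_of_alg (fun f hf => hpM ((hker f).1 hf)) (halg s hs))
    (mem_compl.1 hi) (hξ i) hω (𝒢 j) (fun G hG => by
      obtain ⟨ν, -, rfl⟩ := mem_image.1 hG
      exact isInt_hder hI ν) d hdG hH1 (by
      refine (sum_le_card_nsmul _ _ (2 ^ (∑ s, d s) * len P) fun G hG => ?_).trans ?_
      · obtain ⟨ν, -, rfl⟩ := mem_image.1 hG
        exact len_hder_le hd ν
      · rw [nsmul_eq_mul]
        refine mul_le_mul_of_nonneg_right ?_ (by positivity)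
        exact_mod_cast card_image_le.trans (card_rothS ω d _)) hE0.le hEG hu' hM
  have hs : 1 ≤ Wᶜ.card := card_pos.2 ⟨i, hi⟩
  have hlog : 0 ≤ Real.log (2 * (2 ^ (∑ s, d s) * (2 ^ (∑ s, d s) * len P))) :=
    Real.log_nonneg (by linarith)
  have key2 := roth_num Wᶜ hi hω (c := 1 / ((Wᶜ.card : ℝ) * (m + 1))) hD d hdD hlog
    (le_of_eq_of_le (by
      congr 1
      refine prod_congr rfl fun s _ => ?_
      rw [hE]
      field_simp) key)
  have h3 : γ ≤ Real.log |((ξ i).num : ℝ)| / ω i := (le_div_iff₀ (hω i)).2 (hγ i)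
  have h4 : 0 ≤ Real.log |((ξ i).num : ℝ)| / ω i := by
    refine div_nonneg ?_ (hω i).le
    rw [← Int.cast_abs]
    exact Real.log_intCast_nonneg _
  have h5 : rho m * γ ≤ (1 / ((Wᶜ.card : ℝ) * (m + 1))) ^ Wᶜ.card *
      (Real.log |((ξ i).num : ℝ)| / ω i) :=
    (mul_le_mul_of_nonneg_left h3 (rho_pos (hs.trans (card_le_univ _))).le).trans
      (mul_le_mul_of_nonneg_right (rho_le hs (card_le_univ _)) h4)
  rw [Real.log_mul (by norm_num) (by positivity), Real.log_mul (by positivity) (by positivity),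
    Real.log_mul (by positivity) (by positivity), Real.log_pow, Nat.cast_sum] at key2
  have h6 : Real.log 2 ≤ 1 := by linarith [Real.log_two_lt_d9]
  have h7 : (0 : ℝ) ≤ ∑ s, (d s : ℝ) := sum_nonneg fun s _ => Nat.cast_nonneg _
  nlinarith [mul_le_mul_of_nonneg_right h5 hD.le, mul_le_mul_of_nonneg_left h6 h7]

end Pool.Agent.Lib.MP_dee342_nt.Q
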