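import Pool.Agent.Lib.MP_dee342_nt.QVan
import Pool.Agent.Lib.MP_dee342_nt.QOne
import Pool.Agent.Lib.MP_dee342_nt.QFrame
import Pool.Agent.Lib.MP_dee342_nt.QRoth

/-! The quantitative subspace argument. -/

namespace Pool.Agent.Lib.MP_dee342_nt.Q

open MvPolynomial Finset Pool.Agent.Lib.Common.Subspace Pool.Agent.Lib.Common.ZeroLemma

theorem one_lt_rho_mul_Om {R : ℕ} (hR : 1 ≤ R) : 1 < rho (R ^ 13) * (Om R : ℝ) := by
  have hm : (1 : ℝ) ≤ ((R ^ 13 : ℕ) : ℝ) := by exact_mod_cast Nat.one_le_pow _ _ hR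
  have hm' : R ^ 13 ≠ 0 := by positivity
  unfold rho Om
  set m := R ^ 13 with hmdef
  push_cast
  rw [pow_mul, ← mul_pow]
  refine one_lt_pow₀ ?_ hm'
  rw [div_mul_eq_mul_div, one_mul, lt_div_iff₀ (by positivity)]
  nlinarith

theorem qsub_num {R S T : ℝ} (hR : 10 ≤ R) (hS : S * R ^ 7 ≤ T) (hT : 8 * R ^ 22 ≤ T) :
    5 * R ^ 2 * S + 2 * S + 1 ≤ 1 / (8 * R ^ 2) * T := by
  have h0 : 0 < R := by linarith
  have hT0 : 0 ≤ T := le_trans (by positivity) hT
  have h2 : (100 : ℝ) ≤ R ^ 2 := by nlinarith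
  have h3 : (1000 : ℝ) ≤ R ^ 3 := by nlinarith
  have hS' : S ≤ T / R ^ 7 := by rwa [le_div_iff₀ (by positivity)]
  have h1 : (1 : ℝ) ≤ T / (16 * R ^ 2) := by
    rw [le_div_iff₀ (by positivity)]
    have : R ^ 2 * 2 ≤ R ^ 22 := by
      rw [show R ^ 22 = R ^ 2 * R ^ 20 by ring]
      refine mul_le_mul_of_nonneg_left ?_ (by positivity)
      calc (2 : ℝ) ≤ R ^ 1 := by linarith [pow_one R]
        _ ≤ R ^ 20 := pow_le_pow_right₀ (by linarith) (by norm_num)
    linarith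
  have h4 : (5 * R ^ 2 + 2) * (T / R ^ 7) ≤ T / (16 * R ^ 2) := by
    rw [← mul_div_assoc, div_le_div_iff₀ (by positivity) (by positivity)]
    have : (5 * R ^ 2 + 2) * (16 * R ^ 2) ≤ R ^ 7 := by
      rw [show R ^ 7 = R ^ 2 * R ^ 2 * R ^ 3 by ring]
      have h5 : (5 * R ^ 2 + 2) * 16 ≤ R ^ 2 * R ^ 3 := by nlinarith
      nlinarith
    nlinarith
  have h6 : (5 * R ^ 2 + 2) * S ≤ (5 * R ^ 2 + 2) * (T / R ^ 7) :=
    mul_le_mul_of_nonneg_left hS' (by positivity)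
  have h7 : 1 / (8 * R ^ 2) * T = T / (16 * R ^ 2) + T / (16 * R ^ 2) := by
    field_simp
    ring
  rw [h7]
  linarith

/-- `D = 8 R ^ 2 ∑ N h`, `d h = D / N h`, frames from `exists_frame`. Then `exists_van`,
`inFil_psi` (with `j = fun h => f h (l h)`), `exists_red` (if `j h = f h (l h)` the ratio would be
`1`), and `qroth` with `ω = N`, `γ = 1 / (8 R ^ 2)`, `ξ h = - ratio`. With `m = R ^ 13`,
`1 < rho m * Om R`. Also `log (len Q) ≤ 5 R ^ 2 ∑ d`, `∑ d ≤ m D / (R ^ 20 Om R)`,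
`R ^ 22 Om R ≤ D`. -/
theorem qsub {ι : Type} [Fintype ι] {a R n : ℕ} (ha : Odd a) (hR : 10 ^ 7 * (a + 4) ^ 4 ≤ R)
    (hn : n + 1 ≤ R) (hι : Fintype.card ι = R ^ 13) (N : ι → ℕ) (hN : ∀ h, R ^ 20 * Om R ≤ N h)
    (hsep : ∀ h h', h ≠ h' → Om R * N h ≤ N h' ∨ Om R * N h' ≤ N h)
    (hB : ∀ h, Blk a R n (N h)) : False := by
  classical
  have hR10 : 10 ≤ R := by
    have : 1 ≤ (a + 4) ^ 4 := Nat.one_le_pow _ _ (by omega)
    nlinarith
  have hOm : 1 ≤ Om R := Nat.one_le_pow _ _ (by omega)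
  have hN' : ∀ h, R ^ 20 ≤ N h := fun h => le_trans (Nat.le_mul_of_pos_right _ hOm) (hN h)
  have hR20 : 0 < R ^ 20 := by positivity
  have hN0 : ∀ h, 0 < N h := fun h => lt_of_lt_of_le hR20 (hN' h)
  have hN0' : ∀ h, (0 : ℝ) < N h := fun h => by exact_mod_cast hN0 h
  have F : ∀ h, Frame a R n (N h) := fun h => (exists_frame ha hR10 hn (hN' h) (hB h)).some
  set D : ℕ := 8 * R ^ 2 * ∑ h, N h with hD
  have hDN : ∀ h, 8 * R ^ 2 * N h ≤ D := fun h =>
    Nat.mul_le_mul_left _ (Finset.single_le_sum (f := N) (fun _ _ => Nat.zero_le _) (mem_univ h))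
  obtain ⟨P, hP0, hPI, hPB, hPl, hPF⟩ := exists_van ha hR hn hι N hN' F D hDN
  have h1 := inFil_psi (fun h => (F h).x) (fun h => (F h).det_ne) (fun h => (F h).k)
    (fun h => (F h).l) (fun h => (F h).f (F h).l) (fun h => (N h : ℝ)) (fun h => (hN0' h).le) hPF
  have hj : ∀ h, (F h).j ≠ (F h).f (F h).l := by
    intro h e
    have h2 := (F h).one_lt
    have h3 : (dt (F h).x (F h).k (F h).f : ℚ) ≠ 0 := by exact_mod_cast (F h).dt_ne
    rw [e, Function.update_eq_self, div_self h3] at h2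
    simp at h2
  obtain ⟨Q, hQ0, hQI, hQd, hQl, hQF⟩ := exists_red (fun h => (F h).x) (fun h => (F h).k)
    (fun h => (F h).f) (fun h => (F h).l) (fun h => (F h).j) (fun h => (F h).kl)
    (fun h => (F h).dt_ne) hj (fun h => (N h : ℝ)) (fun h => (hN0' h).le) (fun h => D / N h)
    hP0 hPI hPB h1
  have hrho := one_lt_rho_mul_Om (R := R) (by omega)
  have hOm' : (0 : ℝ) < Om R := by exact_mod_cast hOm
  have hrho0 : 0 < rho (R ^ 13) := by
    by_contra hc
    have := mul_nonpos_of_nonpos_of_nonneg (not_lt.mp hc) hOm'.le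
    linarith
  have hne : Nonempty ι := by
    rw [← Fintype.card_pos_iff, hι]
    positivity
  obtain ⟨h₀⟩ := hne
  have hRr : (10 : ℝ) ≤ R := by exact_mod_cast hR10
  have hDpos : 0 < D := lt_of_lt_of_le (by have := hN0 h₀; positivity) (hDN h₀)
  have hsep' : ∀ i j : ι, Om R * N i ≤ N j → (N i : ℝ) < rho (R ^ 13) * N j := by
    intro i j hij
    have h2 : (Om R : ℝ) * N i ≤ N j := by exact_mod_cast hij
    calc (N i : ℝ) = 1 * N i := (one_mul _).symm
      _ < rho (R ^ 13) * Om R * N i := mul_lt_mul_of_pos_right hrho (hN0' i)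
      _ = rho (R ^ 13) * (Om R * N i) := by ring
      _ ≤ _ := mul_le_mul_of_nonneg_left h2 hrho0.le
  refine qroth (ω := fun h => (N h : ℝ)) hN0' ?_ (γ := 1 / (8 * (R : ℝ) ^ 2)) _ ?_ ?_
    (D := D) (by exact_mod_cast hDpos) (fun h => D / N h) ?_ hQ0 hQI hQd ?_ hQF
  · intro i j hij
    rw [hι]
    exact (hsep i j hij).imp (hsep' i j) (hsep' j i)
  · intro h
    rw [abs_neg]
    exact (F h).one_lt
  · intro h
    rw [Rat.neg_num, Int.cast_neg, abs_neg, one_div, inv_mul_eq_div]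
    exact (F h).ht
  · intro h
    exact_mod_cast Nat.mul_div_le D (N h)
  · rw [hι]
    have hl : Real.log (len Q) ≤ 5 * (R : ℝ) ^ 2 * ∑ h, ((D / N h : ℕ) : ℝ) := by
      have h2 : 0 < len Q := lt_of_lt_of_le one_pos (one_le_len hQI hQ0)
      refine (Real.log_le_log h2 (hQl.trans hPl)).trans ?_
      rw [Real.log_pow, Real.log_exp, Nat.cast_sum, mul_comm]
    have hS : (∑ h, ((D / N h : ℕ) : ℝ)) * (R : ℝ) ^ 7 ≤ D / Om R := by
      have h2 : ∀ h, ((D / N h : ℕ) : ℝ) ≤ D / (R ^ 20 * Om R) := by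
        intro h
        refine Nat.cast_div_le.trans ?_
        refine div_le_div_of_nonneg_left (by positivity) (by positivity) ?_
        exact_mod_cast hN h
      have h3 : ∑ h, ((D / N h : ℕ) : ℝ) ≤ R ^ 13 * (D / (R ^ 20 * Om R)) := by
        refine (Finset.sum_le_sum fun h _ => h2 h).trans ?_
        rw [sum_const, card_univ, hι, nsmul_eq_mul, Nat.cast_pow]
      refine (mul_le_mul_of_nonneg_right h3 (by positivity)).trans (le_of_eq ?_)
      field_simp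
    have hT : 8 * (R : ℝ) ^ 22 ≤ D / Om R := by
      rw [le_div_iff₀ hOm']
      have h2 : 8 * R ^ 2 * (R ^ 20 * Om R) ≤ D :=
        le_trans (Nat.mul_le_mul_left _ (hN h₀)) (hDN h₀)
      have h3 : (8 : ℝ) * R ^ 2 * (R ^ 20 * Om R) ≤ D := by exact_mod_cast h2
      linarith [show (8 : ℝ) * R ^ 2 * (R ^ 20 * Om R) = 8 * R ^ 22 * Om R by ring]
    have h4 := qsub_num hRr hS hT
    have h5 : 1 / (8 * (R : ℝ) ^ 2) * (D / Om R) <
        rho (R ^ 13) * (1 / (8 * (R : ℝ) ^ 2)) * D := by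
      have h6 : (0 : ℝ) < D := by exact_mod_cast hDpos
      have h7 : (D : ℝ) / Om R < rho (R ^ 13) * D := by
        rw [div_lt_iff₀ hOm']
        nlinarith
      have h8 : (0 : ℝ) < 1 / (8 * (R : ℝ) ^ 2) := by positivity
      nlinarith
    linarith

end Pool.Agent.Lib.MP_dee342_nt.Q
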