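import Pool.Agent.Lib.MP_dee342_nt.QGroup
import Pool.Agent.Lib.MP_dee342_nt.QSub

/-! The period is bounded in terms of the number of pieces. -/

namespace Pool.Agent.Lib.MP_dee342_nt.Q

open Finset Function

theorem qcore_grow {A B Z : ℕ} (hA : 1 ≤ A) {y : ℕ → ℕ} (bad : ℕ → Prop) [DecidablePred bad]
    (h0 : y 0 ≤ Z) (h1 : ∀ w, bad w → y (w + 1) ≤ B * y w) (h2 : ∀ w, ¬bad w → y (w + 1) ≤ A * y w)
    (w : ℕ) : y w ≤ A ^ w * B ^ Nat.count bad w * Z := by
  induction w with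
  | zero => simpa using h0
  | succ w ih =>
    rw [Nat.count_succ]
    split_ifs with h
    · calc y (w + 1) ≤ B * (A ^ w * B ^ Nat.count bad w * Z) :=
            (h1 w h).trans (Nat.mul_le_mul_left _ ih)
        _ ≤ A * (B * (A ^ w * B ^ Nat.count bad w * Z)) := Nat.le_mul_of_pos_left _ hA
        _ = _ := by ring
    · calc y (w + 1) ≤ A * (A ^ w * B ^ Nat.count bad w * Z) :=
            (h2 w h).trans (Nat.mul_le_mul_left _ ih)
        _ = _ := by ring

theorem qcore_main (a : ℕ) (ha : Odd a) (ha3 : 3 ≤ a) {R r S Z p : ℕ}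
    (hR : 10 ^ 7 * (a + 4) ^ 4 ≤ R) (hr1 : 1 ≤ r) (hr : 8 * r ≤ R) (hS : Om R ≤ 2 ^ S)
    (hZ : R ^ 20 * Om R ≤ Z) {x : ℤ} (hxZ : |x| + 1 ≤ 2 ^ Z) (hZp : Z < p)
    (hnp : ∀ i v, 1 ≤ v → v < p → (T a)^[v] ((T a)^[i] x) ≠ (T a)^[i] x)
    {t : ℕ → ℕ} (ht : Monotone t) (ht0 : t 0 = 0) (htp : ∀ j, t j ≤ p)
    (hp : ∀ j, ∃ v, 1 ≤ v ∧
      (∀ i, t j ≤ i → i + v < t (j + 1) → par a x (i + v) = par a x i) ∧
      (v * (16 * a * R ^ 4) ≤ Z ∨ v * (16 * a * R ^ 4) ≤ t (j + 1) - t j)) (w : ℕ) :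
    t (w * r) + Z ≤ (8 * a + 1) ^ w * (2 * a + 1) ^ (r * (S * R ^ 13)) * Z := by
  have hR0 : 0 < R := by omega
  have hOm : 1 < Om R := Nat.one_lt_pow (by positivity) (Nat.succ_lt_succ (by positivity))
  have hS1 : 1 ≤ S := Nat.pos_of_ne_zero fun h => by
    rw [h, pow_zero] at hS
    omega
  have hRZ : R ≤ Z :=
    ((Nat.le_self_pow (by norm_num) R).trans (Nat.le_mul_of_pos_right _ (by omega))).trans hZ
  obtain ⟨M, hM⟩ : ∃ M, M = 16 * a * R ^ 4 := ⟨_, rfl⟩
  have hM1 : 16 * a ≤ M := hM ▸ Nat.le_mul_of_pos_right _ (by positivity)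
  rw [← hM] at hp
  have hv : ∀ v, v * (2 * a) ≤ v * M := fun v => Nat.mul_le_mul_left _ (by omega)
  have hv' : ∀ v, v * 2 ≤ v * M := fun v => Nat.mul_le_mul_left _ (by omega)
  have hstep : ∀ j, t (j + 1) + Z ≤ (2 * a + 1) * (t j + Z) := fun j => by
    obtain ⟨v, h1, h2, h3⟩ := hp j
    have h4 := hv' v
    have h5 := htp (j + 1)
    have h6 := ht (Nat.le_succ j)
    have h7 := piece_le a ha ha3 x h6 h1 h2 (fun u hu hu' => hnp _ u hu (by omega))
      (iterate_le a ha ha3 x hxZ (t j))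
    have h8 := hv v
    have h9 : t j + Z ≤ a * (t j + Z) := Nat.le_mul_of_pos_left _ (by omega)
    have e1 : v * (2 * a) = 2 * (a * v) := by ring
    have e2 : (2 * a + 1) * (t j + Z) = 2 * (a * (t j + Z)) + (t j + Z) := by ring
    rw [Nat.succ_eq_add_one] at h6 h7
    omega
  have hsteps : ∀ j k, t (j + k) + Z ≤ (2 * a + 1) ^ k * (t j + Z) := fun j k => by
    induction k with
    | zero => simp
    | succ k ih =>
      refine (hstep (j + k)).trans ((Nat.mul_le_mul_left _ ih).trans_eq ?_)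
      ring
  obtain ⟨N, hN⟩ : ∃ N : ℕ → ℕ, N = fun w => t (w * r + r) - t (w * r) := ⟨_, rfl⟩
  have hN' : ∀ w, N w = t (w * r + r) - t (w * r) := fun w => by rw [hN]
  have hbig : ∀ w, 8 * (a * (t (w * r) + Z)) ≤ N w → 8 * (t (w * r) + Z) ≤ N w := fun w h =>
    (Nat.mul_le_mul_left _ (Nat.le_mul_of_pos_left _ (by omega))).trans h
  have hblk : ∀ w, 8 * (a * (t (w * r) + Z)) ≤ N w → Blk a R (2 * r - 1) (N w) := fun w h => by
    have h1 := hbig w h
    have h2 := hN' w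
    have h3 := Nat.div_mul_le_self (N w) M
    rw [h2]
    refine blk_of_group a ha ha3 ((T a)^[t (w * r)] x) (V := N w / M) (E := a * (t (w * r) + Z))
      hr1 hr (fun j => t (w * r + j) - t (w * r))
      (fun j k hjk => Nat.sub_le_sub_right (ht (by omega)) _) (Nat.sub_self _) (by omega)
      (fun j hj => ?_) (fun i v h4 h5 => ?_) ?_ (by omega) ?_
    · obtain ⟨v, h4, h5, h6⟩ := hp (w * r + j)
      have h7 : t (w * r) ≤ t (w * r + j) := ht (by omega)
      have h8 : t (w * r + j + 1) ≤ t (w * r + r) := ht (by omega)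
      refine ⟨v, h4, (Nat.le_div_iff_mul_le (by omega)).2 (by omega), fun i h9 h10 => ?_⟩
      rw [par_shift, par_shift, ← add_assoc]
      rw [← add_assoc] at h10
      exact h5 _ (by omega) (by omega)
    · have h6 := (Nat.le_div_iff_mul_le (by omega)).1 h5
      have h7 := hv' v
      have h8 := htp (w * r + r)
      rw [← iterate_add_apply (T a) i]
      exact hnp _ v h4 (by omega)
    · linarith [iterate_le a ha ha3 x hxZ (t (w * r))]
    · refine le_trans ?_ (h3.trans h2.le)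
      calc 16 * R ^ 3 * (a * (N w / M) * r) ≤ 16 * R ^ 3 * (a * (N w / M) * R) := by
            gcongr
            omega
        _ = N w / M * (16 * a * R ^ 4) := by ring
        _ = _ := by rw [← hM]
  have hcnt : Nat.count (fun w => 8 * (a * (t (w * r) + Z)) ≤ N w) w ≤ S * R ^ 13 := by
    by_contra hc
    rw [Nat.count_eq_card_filter_range] at hc
    obtain ⟨φ, h1, h2⟩ := exists_sep _ N (fun u hu u' hu' huu => by
      have h3 := hbig u' (mem_filter.1 hu').2
      have h4 := hN' u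
      have h5 : t (u * r + r) ≤ t (u' * r) :=
        ht ((Nat.succ_mul u r).symm.trans_le (Nat.mul_le_mul_right _ huu))
      omega) S (R ^ 13) (not_le.1 hc).le hS1
    refine qsub (ι := Fin (R ^ 13)) (n := 2 * r - 1) ha hR (by omega) (Fintype.card_fin _)
      (fun h => N (φ h)) (fun h => ?_) (fun h h' hne => ?_) fun h => hblk _ (mem_filter.1 (h1 h)).2
    · have h3 := hbig _ (mem_filter.1 (h1 h)).2
      omega
    · exact (lt_or_gt_of_ne hne).imp (fun h3 => (Nat.mul_le_mul_right _ hS).trans (h2 _ _ h3))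
        fun h3 => (Nat.mul_le_mul_right _ hS).trans (h2 _ _ h3)
  refine (qcore_grow (A := 8 * a + 1) (B := (2 * a + 1) ^ r) (Z := Z)
    (y := fun w => t (w * r) + Z) (by omega)
    (fun w => 8 * (a * (t (w * r) + Z)) ≤ N w) (by simp [ht0]) (fun u _ => ?_) (fun u hu => ?_)
    w).trans ?_
  · rw [Nat.succ_mul]
    exact hsteps _ _
  · have h1 := hN' u
    have h2 : t (u * r) ≤ t (u * r + r) := ht (by omega)
    have e : (8 * a + 1) * (t (u * r) + Z) = 8 * (a * (t (u * r) + Z)) + (t (u * r) + Z) := by ring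
    rw [Nat.succ_mul]
    omega
  · rw [pow_mul]
    exact Nat.mul_le_mul_right _ (Nat.mul_le_mul_left _
      (Nat.pow_le_pow_right (by positivity) hcnt))

/-- If `p ≤ Z` there is nothing to prove. Let `M₀ = 16 a R ^ 4`, `t' j = t (min j m)` (empty pieces
after `m`, period `1`), `Y j = t' j + Z`. No element of the orbit has a period `v` with
`1 ≤ v < p` (`IsPeriodicPt.minimalPeriod_le`, `minimalPeriod_apply_iterate`). By `piece_le` and
`iterate_le`, `Y (j+1) ≤ (2 a + 1) Y j`. Call `w` bad if `8 a Y (w r) ≤ N w`, where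
`N w = t' ((w+1) r) - t' (w r)`. For good `w`, `Y ((w+1) r) ≤ (8 a + 1) Y (w r)`; for bad `w`,
`Y ((w+1) r) ≤ (2 a + 1) ^ r Y (w r)`. A bad `w` gives `Blk a R (2 r - 1) (N w)` by
`blk_of_group` for `y = T^[t' (w r)] x`, `b j = t' (w r + j) - t' (w r)`, `V = N w / M₀`,
`E = a Y (w r)` (`par_shift`). Lengths of bad groups at least double, and are at least `Z`.
`exists_sep` and `qsub` (with `ι = Fin (R ^ 13)`) show that fewer than `S R ^ 13` of the
`w ≤ m / r` are bad. Induction on `w`: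
`Y (w r) ≤ (8a+1) ^ w * ((2a+1) ^ r) ^ (number of bad w' < w) * Z`. -/
theorem period_le (a : ℕ) (ha : Odd a) (ha3 : 3 ≤ a) {R r S Z : ℕ}
    (hR : 10 ^ 7 * (a + 4) ^ 4 ≤ R) (hr1 : 1 ≤ r) (hr : 8 * r ≤ R) (hS : Om R ≤ 2 ^ S)
    (hZ : R ^ 20 * Om R ≤ Z) {x : ℤ} (hx : x ∈ periodicPts (T a)) (hxZ : |x| + 1 ≤ 2 ^ Z)
    {m : ℕ} {t : ℕ → ℕ} (ht : Monotone t) (ht0 : t 0 = 0) (htm : t m = minimalPeriod (T a) x)
    (hp : ∀ j < m, ∃ v, 1 ≤ v ∧
      (∀ i, t j ≤ i → i + v < t (j + 1) → par a x (i + v) = par a x i) ∧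
      (v * (16 * a * R ^ 4) ≤ Z ∨ v * (16 * a * R ^ 4) ≤ t (j + 1) - t j)) :
    minimalPeriod (T a) x ≤ (8 * a + 1) ^ (m / r + 1) * (2 * a + 1) ^ (r * (S * R ^ 13)) * Z := by
  rcases le_or_gt (minimalPeriod (T a) x) Z with hZp | hZp
  · exact hZp.trans (Nat.le_mul_of_pos_left _ (by positivity))
  have hR0 : 0 < R := by omega
  have hM : 16 * a * R ^ 4 ≤ Z := by
    have h1 : a + 4 ≤ (a + 4) ^ 4 := Nat.le_self_pow (by norm_num) _
    have h2 : 0 < Om R := by
      unfold Om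
      positivity
    calc 16 * a * R ^ 4 ≤ R * R ^ 4 := Nat.mul_le_mul_right _ (by omega)
      _ = R ^ 5 := by ring
      _ ≤ R ^ 20 := Nat.pow_le_pow_right hR0 (by norm_num)
      _ ≤ R ^ 20 * Om R := Nat.le_mul_of_pos_right _ h2
      _ ≤ Z := hZ
  have h := qcore_main a ha ha3 hR hr1 hr hS hZ hxZ hZp (fun i v h1 h2 h3 => h2.not_ge
    ((minimalPeriod_apply_iterate hx i).symm.trans_le (IsPeriodicPt.minimalPeriod_le h1 h3)))
    (t := fun j => t (min j m)) (fun j k hjk => ht (min_le_min_right m hjk))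
    (by simp [ht0]) (fun j => (ht (min_le_right j m)).trans htm.le) (fun j => ?_) (m / r + 1)
  · have h1 : m ≤ (m / r + 1) * r := by
      rw [mul_comm]
      exact (Nat.lt_mul_div_succ m hr1).le
    simp only [min_eq_right h1, htm] at h
    omega
  · rcases lt_or_ge j m with hj | hj
    · simp only [min_eq_left hj.le, min_eq_left (Nat.succ_le_of_lt hj)]
      exact hp j hj
    · simp only [min_eq_right hj, min_eq_right (Nat.le_succ_of_le hj)]
      exact ⟨1, le_rfl, fun i h1 h2 => by omega, Or.inl (by omega)⟩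

end Pool.Agent.Lib.MP_dee342_nt.Q
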