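import Pool.Agent.Lib.MP_dee342_nt.QClaim
import Pool.Agent.Lib.MP_dee342_nt.QTri

/-! Counting, and the arithmetic inequality. -/

namespace Pool.Agent.Lib.MP_dee342_nt.Q

open MvPolynomial Finset Pool.Agent.Lib.Common.Subspace Pool.Agent.Lib.Common.ZeroLemma

variable {σ : Type*} [Fintype σ] [DecidableEq σ]

/-- A polynomial in the set is determined by its coefficients on the box of exponents
`μ j ≤ e j + (if j = i then U else 0)`, and each of them is an integer in `[-A, A]`. -/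
theorem card_bd {I : Type*} [Fintype I] (i : σ) (U : ℕ) (e : σ → ℕ) (A : ℕ)
    (g : I → MvPolynomial σ ℚ) (hg : Function.Injective g) (h : ∀ a, Bd i U e (A : ℝ) (g a)) :
    Fintype.card I ≤ (2 * A + 1) ^ ∏ j, (e j + (if j = i then U else 0) + 1) := by
  classical
  set B : Finset (σ → ℕ) := Fintype.piFinset fun j => range (e j + (if j = i then U else 0) + 1)
    with hB
  have hmem : ∀ a μ, (coeff μ (g a)).num ∈ Icc (-(A : ℤ)) A := fun a μ => by
    obtain ⟨z, hz⟩ := (h a).1 μ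
    have h2 := (h a).2.2 μ
    rw [hz] at h2 ⊢
    have h3 : |z| ≤ (A : ℤ) := by exact_mod_cast h2
    rw [Rat.num_intCast, mem_Icc, ← abs_le]
    exact h3
  let φ : I → (B → Icc (-(A : ℤ)) A) := fun a m => ⟨(coeff (ex m.1) (g a)).num, hmem a _⟩
  have hφ : Function.Injective φ := by
    intro a a' haa
    apply hg
    ext μ
    by_cases hμ : (μ : σ → ℕ) ∈ B
    · have h1 := congrArg Subtype.val (congrFun haa ⟨μ, hμ⟩)
      have h2 : ex (μ : σ → ℕ) = μ := by
        ext j
        rfl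
      simp only [φ, h2] at h1
      obtain ⟨z, hz⟩ := (h a).1 μ
      obtain ⟨z', hz'⟩ := (h a').1 μ
      rw [hz, hz'] at h1 ⊢
      simpa using h1
    · have key : ∀ a, coeff μ (g a) = 0 := fun a => by
        by_contra hc
        refine hμ (Fintype.mem_piFinset.2 fun j => mem_range.2 ?_)
        exact Nat.lt_succ_of_le ((h a).2.1 μ (mem_support_iff.2 hc) j)
      rw [key, key]
  have := Fintype.card_le_of_injective φ hφ
  rw [Fintype.card_fun, Fintype.card_coe, Fintype.card_coe, Int.card_Icc, hB,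
    Fintype.card_piFinset] at this
  simp only [card_range] at this
  rwa [show ((A : ℤ) + 1 - -(A : ℤ)).toNat = 2 * A + 1 by omega] at this

omit [Fintype σ] [DecidableEq σ] in
/-- If `x = p / q` in lowest terms is a root and `k₀` is the least index with `z k₀ ≠ 0`, then
multiplying by `q ^ U / p ^ k₀` shows `p ∣ z k₀ * q ^ (U - k₀)`, so `p ∣ z k₀`. (Or: the rational
root theorem `num_dvd_of_is_root`, or induction on `U`.) -/
theorem digits_eq_zero (x : ℚ) (U : ℕ) (z : Fin (U + 1) → ℤ) (hz : ∀ k, |z k| < |x.num|)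
    (h : ∑ k, (z k : ℚ) * x ^ (k : ℕ) = 0) : z = 0 := by
  have hq : (x.den : ℚ) ≠ 0 := Nat.cast_ne_zero.2 x.den_nz
  induction U with
  | zero =>
    funext k
    have : k = 0 := Subsingleton.elim (α := Fin 1) _ _
    subst this
    simpa using h
  | succ U ih =>
    have h1 : ∑ k : Fin (U + 1 + 1), z k * (x.num ^ (k : ℕ) * (x.den : ℤ) ^ (U + 1 - k)) = 0 := by
      have h2 : (∑ k, (z k : ℚ) * x ^ (k : ℕ)) * (x.den : ℚ) ^ (U + 1) = 0 := by rw [h, zero_mul]
      rw [sum_mul] at h2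
      rw [← Int.cast_inj (α := ℚ)]
      push_cast
      rw [← h2]
      refine sum_congr rfl fun k _ => ?_
      have h3 : (x.den : ℚ) ^ (U + 1) = (x.den : ℚ) ^ (k : ℕ) * (x.den : ℚ) ^ (U + 1 - k) := by
        rw [← pow_add]
        congr 1
        omega
      rw [h3, ← Rat.mul_den_eq_num, mul_pow]
      ring
    rw [Fin.sum_univ_succ] at h1 h
    have h4 : x.num ∣ z 0 * (x.den : ℤ) ^ (U + 1) := by
      have h5 : x.num ∣ ∑ k : Fin (U + 1), z k.succ *
          (x.num ^ (k.succ : ℕ) * (x.den : ℤ) ^ (U + 1 - k.succ)) :=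
        dvd_sum fun k _ => Dvd.dvd.mul_left (Dvd.dvd.mul_right (dvd_pow_self _ (by simp)) _) _
      have h6 := eq_neg_of_add_eq_zero_left h1
      simp only [Fin.val_zero, pow_zero, one_mul, Nat.sub_zero] at h6
      rw [h6]
      exact h5.neg_right
    have h7 : IsCoprime x.num ((x.den : ℤ) ^ (U + 1)) := x.isCoprime_num_den.pow_right
    have h8 : z 0 = 0 := Int.eq_zero_of_abs_lt_dvd ((abs_dvd _ _).2 (h7.dvd_of_dvd_mul_right h4))
      (hz 0)
    have hx : x ≠ 0 := by
      rintro rfl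
      have := hz 0
      simp [h8] at this
    have h9 : ∑ k : Fin (U + 1), (z k.succ : ℚ) * x ^ (k : ℕ) = 0 := by
      rw [h8, Int.cast_zero, zero_mul, zero_add] at h
      refine (mul_eq_zero.1 (?_ : _ * x = 0)).resolve_right hx
      rw [sum_mul, ← h]
      refine sum_congr rfl fun k _ => ?_
      rw [Fin.val_succ, pow_succ, mul_assoc]
    have h10 := ih (fun k => z k.succ) (fun k => hz _) h9
    funext k
    refine Fin.cases h8 (fun k => congrFun h10 k) k

/-- A polynomial in one variable with prescribed integer coefficients. -/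
noncomputable def qcount_al (i : σ) {U : ℕ} (z : Fin (U + 1) → ℤ) : MvPolynomial σ ℚ :=
  ∑ k : Fin (U + 1), monomial (Finsupp.single i (k : ℕ)) (z k : ℚ)

omit [Fintype σ] in
theorem qcount_al_bd (i : σ) {U : ℕ} (z : Fin (U + 1) → ℤ) (P : ℕ) (hz : ∀ k, |z k| ≤ P) :
    Bd i U 0 (P : ℝ) (qcount_al i z) := by
  have h0 : ∀ μ, (∀ k : Fin (U + 1), Finsupp.single i (k : ℕ) ≠ μ) →
      coeff μ (qcount_al i z) = 0 := fun μ hμ => by
    rw [qcount_al, coeff_sum]
    exact sum_eq_zero fun k _ => by rw [coeff_monomial, if_neg (hμ k)]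
  refine ⟨isInt_sum _ _ fun k _ => isInt_monomial _ _, fun μ hμ j => ?_, fun μ => ?_⟩
  · by_contra hc
    refine mem_support_iff.1 hμ (h0 μ fun k hk => hc ?_)
    subst hk
    rw [Finsupp.single_apply]
    have := k.2
    by_cases hj : j = i
    · subst hj
      simp
      omega
    · simp [hj, Ne.symm hj]
  · by_cases hμ : ∃ k : Fin (U + 1), Finsupp.single i (k : ℕ) = μ
    · obtain ⟨k, rfl⟩ := hμ
      rw [qcount_al, coeff_sum, sum_eq_single k]
      · rw [coeff_monomial, if_pos rfl]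
        exact_mod_cast hz k
      · intro k' _ hk
        rw [coeff_monomial, if_neg]
        exact fun h => hk (Fin.ext (Finsupp.single_injective i h))
      · simp
    · rw [h0 μ (not_exists.1 hμ)]
      simp

omit [Fintype σ] [DecidableEq σ] in
theorem qcount_al_sub (i : σ) {U : ℕ} (z z' : Fin (U + 1) → ℤ) :
    qcount_al i z - qcount_al i z' = qcount_al i (z - z') := by
  simp [qcount_al, ← sum_sub_distrib]

omit [Fintype σ] [DecidableEq σ] in
theorem qcount_al_eval (i : σ) {U : ℕ} (z : Fin (U + 1) → ℤ) (ξ : σ → ℚ) :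
    eval ξ (qcount_al i z) = ∑ k, (z k : ℚ) * ξ i ^ (k : ℕ) := by
  simp [qcount_al, eval_monomial]

omit [Fintype σ] [DecidableEq σ] in
theorem qcount_c0 (ξ : σ → ℚ) (Q : MvPolynomial σ ℚ) :
    constantCoeff (shift ξ Q) = eval ξ Q := by
  induction Q using MvPolynomial.induction_on with
  | C a => simp [shift]
  | add p q hp hq => rw [map_add, map_add, map_add, hp, hq]
  | mul_X p n hp =>
    rw [map_mul, map_mul, map_mul, hp]
    simp [shift]

omit [DecidableEq σ] in
theorem qcount_shift (ξ : σ → ℚ) (m : σ → ℕ) : shift ξ (∏ j, phi ξ j ^ m j) =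
    monomial (ex m) 1 * C (∏ j, ((ξ j).den : ℚ) ^ m j) := by
  rw [monomial_eq, Finsupp.prod_fintype _ _ (by simp), map_prod, map_prod, C_1, one_mul,
    ← prod_mul_distrib]
  refine prod_congr rfl fun j _ => ?_
  rw [map_pow, shift_phi, mul_pow, map_pow, mul_comm, ex_apply]

/-- Test polynomials: for `a : box ∅ T → Fin (U+1) → Fin |p|` put
`f a = ∑ m, (∑ k, C (a m k) * X i ^ k) * ∏ j, phi ξ j ^ m j`; they satisfy `Bd i U T A₀` with
`A₀ = ∑ m, |p| * len (∏ …)`, independent of `U`. Take `s`, `e'` from `h` for `(T, A₀)` and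
choose `g a`. If `g a = g a'` then `s * (f a - f a')` has weight `≥ τ`; its shift is
`∑ m, monomial (ex m) 1 * (shift (s * α m) * C (∏ den ^ m))` (`shift_phi`), so by `tri` and
`digits_eq_zero` `a = a'`. `card_bd` gives
`|p| ^ ((U+1) ∏ T) ≤ (2 ⌈A⌉₊ + 1) ^ ((e' i + U + 1) ∏ j ≠ i, (e' j + 1))`. Take logarithms and
use `le_of_forall_add`. -/
theorem ar_count (i : σ) (ξ : σ → ℚ) (hξ : 1 < |ξ i|) {ω : σ → ℝ} (hω : ∀ j, 0 < ω j) {τ : ℝ}
    (T b : σ → ℕ) (hT : ∀ m ∈ box ∅ T, Finsupp.weight ω (ex m) < τ) {A : ℝ} (hA : 0 ≤ A)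
    (h : ∀ (e : σ → ℕ) (A₀ : ℝ), ∃ (s : MvPolynomial σ ℚ) (e' : σ → ℕ), eval ξ s ≠ 0 ∧
      (∀ j, j ≠ i → e' j ≤ b j) ∧ ∀ (U : ℕ) (f : MvPolynomial σ ℚ), Bd i U e A₀ f →
        ∃ g, Bd i U e' A g ∧ InFil ω τ (shift ξ (s * f - g))) :
    (∏ j, (T j : ℝ)) * Real.log |((ξ i).num : ℝ)| ≤
      (∏ j ∈ univ.erase i, ((b j : ℝ) + 1)) * Real.log (2 * A + 3) := by
  classical
  set P : ℕ := (ξ i).num.natAbs with hP
  let Pm : (σ → ℕ) → MvPolynomial σ ℚ := fun m => ∏ j, phi ξ j ^ m j
  have hPm : ∀ m, IsInt (Pm m) := fun m => isInt_prod _ _ fun j _ => by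
    have := isInt_prod (range (m j)) (fun _ => phi ξ j) fun _ _ => isInt_phi ξ j
    simpa using this
  let e : σ → ℕ := fun j => ∑ m : box ∅ T, degreeOf j (Pm m.1)
  obtain ⟨s, e', hs, he', hg⟩ := h e (∑ m : box ∅ T, (P : ℝ) * len (Pm m.1))
  have hL : Real.log |((ξ i).num : ℝ)| = Real.log P := by
    rw [hP, Nat.cast_natAbs, Int.cast_abs]
  have hP0 : 0 < P := by
    rw [hP, Int.natAbs_pos, Rat.num_ne_zero]
    rintro h0
    rw [h0] at hξ
    norm_num at hξ
  refine le_of_forall_add _ _ ((e' i : ℝ) + 1) fun U => ?_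
  let f : (box ∅ T → Fin (U + 1) → Fin P) → MvPolynomial σ ℚ := fun a =>
    ∑ m : box ∅ T, qcount_al i (fun k => ((a m k : ℕ) : ℤ)) * Pm m.1
  have hf : ∀ a, Bd i U e (∑ m : box ∅ T, (P : ℝ) * len (Pm m.1)) (f a) := fun a => by
    refine bd_sum _ _ _ fun m _ => ?_
    have h1 := (qcount_al_bd i (fun k => ((a m k : ℕ) : ℤ)) P (fun k => by
      have := (a m k).2
      rw [abs_of_nonneg (Int.natCast_nonneg _)]
      exact_mod_cast this.le)).mul (e' := e) (hPm m.1) fun μ hμ j =>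
        (monomial_le_degreeOf j hμ).trans
          (single_le_sum (f := fun m : box ∅ T => degreeOf j (Pm m.1))
            (fun _ _ => Nat.zero_le _) (mem_univ m))
    rwa [zero_add] at h1
  choose g hg1 hg2 using fun a => hg U (f a) (hf a)
  have hinj : Function.Injective g := by
    intro a a' haa
    let z : box ∅ T → Fin (U + 1) → ℤ := fun m =>
      (fun k => ((a m k : ℕ) : ℤ)) - fun k => ((a' m k : ℕ) : ℤ)
    let hh : box ∅ T → MvPolynomial σ ℚ := fun m =>
      shift ξ (s * qcount_al i (z m)) * C (∏ j, ((ξ j).den : ℚ) ^ m.1 j)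
    have key : ∀ m, coeff 0 (hh m) = 0 → z m = 0 := fun m hm => by
      change constantCoeff (hh m) = 0 at hm
      simp only [hh] at hm
      rw [map_mul, qcount_c0, map_mul, constantCoeff_C, qcount_al_eval] at hm
      have h1 : ∏ j, ((ξ j).den : ℚ) ^ m.1 j ≠ 0 :=
        prod_ne_zero_iff.2 fun j _ => pow_ne_zero _ (Nat.cast_ne_zero.2 (ξ j).den_nz)
      refine digits_eq_zero (ξ i) U (z m) (fun k => ?_)
        ((mul_eq_zero.1 ((mul_eq_zero.1 hm).resolve_right h1)).resolve_left hs)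
      have h2 := (a m k).2
      have h3 := (a' m k).2
      rw [← Int.natCast_natAbs (ξ i).num, ← hP, abs_lt]
      simp only [z, Pi.sub_apply]
      omega
    have hF := (hg2 a).add (hg2 a').neg
    have hE : shift ξ (s * f a - g a) + -shift ξ (s * f a' - g a') =
        ∑ m ∈ univ, monomial (ex (m : box ∅ T).1) 1 * hh m := by
      rw [← sub_eq_add_neg, ← map_sub, haa, sub_sub_sub_cancel_right, ← mul_sub,
        ← sum_sub_distrib, mul_sum, map_sum]
      refine sum_congr rfl fun m _ => ?_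
      rw [← sub_mul, qcount_al_sub, ← mul_assoc, map_mul _ _ (Pm m.1), qcount_shift]
      simp only [hh, z]
      ring
    rw [hE] at hF
    have h4 := tri univ (fun m : box ∅ T => ex m.1)
      (fun m _ m' _ hm => Subtype.ext (ex_injective hm)) (fun m _ => hT m.1 m.2) hh hF
      (fun m _ hm => by simp [hh, key m hm, qcount_al])
    funext m k
    have h5 := congrFun (key m (by rw [h4 m (mem_univ m), coeff_zero])) k
    simp only [z, Pi.sub_apply, Pi.zero_apply] at h5
    apply Fin.ext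
    omega
  have hc := card_bd i U e' ⌈A⌉₊ g hinj fun a => (hg1 a).mono (fun _ => le_rfl) (Nat.le_ceil A)
  rw [Fintype.card_fun, Fintype.card_fun, Fintype.card_fin, Fintype.card_fin, Fintype.card_coe,
    card_box, compl_empty] at hc
  have hc1 : ∏ j, (e' j + (if j = i then U else 0) + 1) ≤
      (U + (e' i + 1)) * ∏ j ∈ univ.erase i, (b j + 1) := by
    rw [← mul_prod_erase univ _ (mem_univ i), if_pos rfl]
    refine Nat.mul_le_mul (by omega) (prod_le_prod' fun j hj => ?_)
    have := ne_of_mem_erase hj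
    rw [if_neg this]
    have := he' j this
    omega
  have hc2 := hc.trans (Nat.pow_le_pow_right (by omega) hc1)
  have hc3 := Real.log_le_log (by positivity) ((Nat.cast_le (α := ℝ)).2 hc2)
  push_cast at hc3
  rw [Real.log_pow, Real.log_pow, Real.log_pow] at hc3
  push_cast at hc3
  have hc4 : Real.log (2 * (⌈A⌉₊ : ℝ) + 1) ≤ Real.log (2 * A + 3) :=
    Real.log_le_log (by positivity) (by linarith [Nat.ceil_lt_add_one hA])
  rw [hL]
  calc _ = (∏ j, (T j : ℝ)) * (((U : ℝ) + 1) * Real.log P) := by ring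
    _ ≤ _ := hc3
    _ ≤ ((U : ℝ) + ((e' i : ℝ) + 1)) * (∏ j ∈ univ.erase i, ((b j : ℝ) + 1)) *
        Real.log (2 * A + 3) := by gcongr
    _ = _ := by ring

/-- For every `t` use `T j = ⌈t E / (s ω j)⌉₊`, `s = card σ` (`weight_box` with `W = ∅`),
`ar_claim` and `ar_count`; `log (2 C₀ (2H)^t + 3) ≤ log (2 C₀ + 3) + t log (2 H)`. Then
`le_prod_of_forall` on `univ` with `b = Function.update d i (log (2 H))`. -/
theorem ar_ineq (i : σ) (ξ : σ → ℚ) (hξ : 1 < |ξ i|) {ω : σ → ℝ} (hω : ∀ j, 0 < ω j)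
    (𝒢 : Finset (MvPolynomial σ ℚ)) (hI : ∀ G ∈ 𝒢, IsInt G) (d : σ → ℕ)
    (hd : ∀ G ∈ 𝒢, ∀ μ ∈ G.support, ∀ j, j ≠ i → μ j ≤ d j) {H : ℝ} (hH1 : 1 ≤ H)
    (hH : ∑ G ∈ 𝒢, len G ≤ H) {E : ℝ} (hE0 : 0 ≤ E) (hE : ∀ G ∈ 𝒢, InFil ω E (shift ξ G))
    {u : MvPolynomial σ ℚ} (hu : eval ξ u ≠ 0) {M : ℕ}
    (hM : ∀ j, u * phi ξ j ^ M ∈ Ideal.span (𝒢 : Set (MvPolynomial σ ℚ))) :
    (∏ j, E / (Fintype.card σ * ω j)) * Real.log |((ξ i).num : ℝ)| ≤
      (∏ j ∈ univ.erase i, (d j : ℝ)) * Real.log (2 * H) := by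
  obtain ⟨c, C₀, hC₀, hcl⟩ := ar_claim i ξ hξ hω 𝒢 hI d hd hH1 hH hE hu hM
  have key := le_prod_of_forall univ
    ((∏ j, E / (Fintype.card σ * ω j)) * Real.log |((ξ i).num : ℝ)|)
    (fun j => if j = i then Real.log (2 * C₀ + 3) else (c : ℝ) + 1)
    (fun j => if j = i then Real.log (2 * H) else (d j : ℝ)) fun t => by
      have h2 : (1 : ℝ) ≤ (2 * H) ^ t := one_le_pow₀ (by linarith)
      have h1 := ar_count i ξ hξ hω (τ := t * E)
        (fun j => ⌈t * E / (((∅ : Finset σ)ᶜ).card * ω j)⌉₊) (fun j => c + t * d j)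
        (fun m hm => weight_box ⟨i, by simp⟩ hω hm) (A := C₀ * (2 * H) ^ t) (by positivity)
        fun e A₀ => by
          obtain ⟨s, e', -, -, -, h3, h4, h5⟩ := hcl t e A₀
          exact ⟨s, e', h3, h4, h5⟩
      rw [compl_empty, card_univ] at h1
      have hl : 0 ≤ Real.log |((ξ i).num : ℝ)| := by
        rw [Real.log_abs]
        exact Real.log_intCast_nonneg _
      have h6 : (t : ℝ) ^ (univ : Finset σ).card * ∏ j, E / (Fintype.card σ * ω j) ≤
          ∏ j, ((⌈t * E / (Fintype.card σ * ω j)⌉₊ : ℕ) : ℝ) := by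
        rw [← prod_const, ← prod_mul_distrib]
        refine prod_le_prod (fun j _ => ?_) fun j _ => ?_
        · have := hω j
          positivity
        · rw [← mul_div_assoc]
          exact Nat.le_ceil _
      have h7 : Real.log (2 * (C₀ * (2 * H) ^ t) + 3) ≤
          Real.log (2 * C₀ + 3) + t * Real.log (2 * H) := by
        rw [← Real.log_pow, ← Real.log_mul (by positivity) (by positivity)]
        exact Real.log_le_log (by positivity) (by linarith)
      have h8 : ∏ j ∈ univ.erase i, ((if j = i then Real.log (2 * C₀ + 3) else (c : ℝ) + 1) +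
          t * if j = i then Real.log (2 * H) else (d j : ℝ)) =
          ∏ j ∈ univ.erase i, (((c + t * d j : ℕ) : ℝ) + 1) := by
        refine prod_congr rfl fun j hj => ?_
        rw [if_neg (ne_of_mem_erase hj), if_neg (ne_of_mem_erase hj)]
        push_cast
        ring
      rw [← mul_assoc]
      refine (mul_le_mul_of_nonneg_right h6 hl).trans (h1.trans ?_)
      rw [← mul_prod_erase univ _ (mem_univ i), if_pos rfl, if_pos rfl, h8,
        mul_comm _ (∏ j ∈ univ.erase i, _)]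
      exact mul_le_mul_of_nonneg_left h7 (prod_nonneg fun j _ => by positivity)
  refine key.trans (le_of_eq ?_)
  rw [← mul_prod_erase univ _ (mem_univ i), if_pos rfl, mul_comm]
  congr 1
  exact prod_congr rfl fun j hj => if_neg (ne_of_mem_erase hj)

end Pool.Agent.Lib.MP_dee342_nt.Q
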