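import Pool.Agent.Lib.Common.ZeroLemma.Fil
import Pool.Agent.Lib.Common.Subspace.AuxPoly

/-! Definitions for the sharp Roth lemma and for the subspace argument on frames. -/

namespace Pool.Agent.Lib.MP_dee342_nt.Q

open MvPolynomial Finset Pool.Agent.Lib.Common.Subspace

section Roth

variable {σ : Type*}

/-- The Hasse derivative of order `μ`. -/
noncomputable def hder (μ : σ →₀ ℕ) (P : MvPolynomial σ ℚ) : MvPolynomial σ ℚ :=
  ∑ ν ∈ P.support, monomial (ν - μ) ((bin μ ν : ℚ) * coeff ν P)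

/-- Taylor expansion at a point with coordinates in a `ℚ`-algebra. -/
noncomputable def tay {B : Type*} [CommRing B] [Algebra ℚ B] (y : σ → B) :
    MvPolynomial σ ℚ →ₐ[ℚ] MvPolynomial σ B :=
  aeval fun s => X s + C (y s)

/-- Taylor expansion in the directions outside `W`. -/
noncomputable def tayW [DecidableEq σ] {B : Type*} [CommRing B] [Algebra ℚ B] (y : σ → B)
    (W : Finset σ) : MvPolynomial σ ℚ →ₐ[ℚ] MvPolynomial σ B :=
  aeval fun s => (if s ∈ W then 0 else X s) + C (y s)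

/-- Exponent vectors that vanish on `W` and are smaller than `T` outside `W`. -/
def box [Fintype σ] [DecidableEq σ] (W : Finset σ) (T : σ → ℕ) : Finset (σ → ℕ) :=
  Fintype.piFinset fun j => if j ∈ W then {0} else range (T j)

/-- The exponent vector of a function. -/
noncomputable def ex [Finite σ] (m : σ → ℕ) : σ →₀ ℕ := Finsupp.equivFunOnFinite.symm m

/-- The coordinates `y j`, `j ∈ W`, form a transcendence basis of the ring generated by all
`y j`, in elementary terms. -/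
structure Bas {K : Type*} [Field K] [Algebra ℚ K] (y : σ → K) (W : Finset σ) : Prop where
  indep : ∀ b ∈ supported ℚ (W : Set σ), aeval y b = 0 → b = 0
  inv : ∀ f : MvPolynomial σ ℚ, aeval y f ≠ 0 →
    ∃ b ∈ supported ℚ (W : Set σ), b ≠ 0 ∧ ∃ f', aeval y (b - f * f') = 0
  rel : ∀ j ∉ W, ∃ (n : ℕ) (c : ℕ → MvPolynomial σ ℚ), (∀ k, c k ∈ supported ℚ (W : Set σ)) ∧
    c n ≠ 0 ∧ aeval y (∑ k ∈ range (n + 1), c k * X j ^ k) = 0 ∧
    aeval y (∑ k ∈ range (n + 1), (k : MvPolynomial σ ℚ) * c k * X j ^ (k - 1)) ≠ 0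

/-- Integer coefficients of size at most `A`, degree at most `e j` in `X j`, with an additional
allowance `U` for the variable `X i`. -/
def Bd [DecidableEq σ] (i : σ) (U : ℕ) (e : σ → ℕ) (A : ℝ) (f : MvPolynomial σ ℚ) : Prop :=
  IsInt f ∧ (∀ μ ∈ f.support, ∀ j, μ j ≤ e j + if j = i then U else 0) ∧
    ∀ μ, |((coeff μ f : ℚ) : ℝ)| ≤ A

/-- The primitive integer polynomial of degree one in `X j` that vanishes at `ξ j`. -/
noncomputable def phi (ξ : σ → ℚ) (j : σ) : MvPolynomial σ ℚ :=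
  C ((ξ j).den : ℚ) * X j - C ((ξ j).num : ℚ)

/-- The constant of the sharp Roth lemma. -/
noncomputable def rho (m : ℕ) : ℝ := (1 / ((m : ℝ) * (m + 1))) ^ m

end Roth

section Frames

/-- The separation factor. -/
def Om (R : ℕ) : ℕ := (R ^ 13 + 1) ^ (2 * R ^ 13)

/-- The arithmetic data of one window of size `N`. -/
def Blk (a R n N : ℕ) : Prop :=
  ∃ (α β : Fin (n + 1) → ℕ) (B E G : ℕ) (s : Fin (n + 1) → ℤ) (W : ℝ),
    (∀ j, α j ≤ N) ∧ B ≤ N ∧ β 0 = 0 ∧ (∀ j, j ≠ 0 → β j + G ≤ B) ∧ E + G ≤ B ∧ N ≤ R * G ∧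
    1 ≤ W ∧ W ≤ Real.exp (N / (16 * (R : ℝ) ^ 3)) ∧ |(s 0 : ℝ)| ≤ W * 2 ^ E ∧
    (∀ j, j ≠ 0 → |(s j : ℝ)| ≤ W) ∧ (2 : ℤ) ^ B ∣ ∑ j, s j * (a ^ α j * 2 ^ β j) ∧
    ∑ j, s j * ((a : ℤ) ^ α j * 2 ^ β j) ≠ 0

/-- The determinant with the first `k` rows of `x` and the unit vectors `f u`, `k ≤ u`. -/
def dt {n : ℕ} (x : Matrix (Fin n) (Fin n) ℤ) (k : ℕ) (f : Fin n → Fin n) : ℤ :=
  (Matrix.of fun (u v : Fin n) => if k ≤ (u : ℕ) then (if v = f u then 1 else 0) else x u v).det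

/-- The two coordinate changes: the identity, and `X 0 ↦ X 0 - ∑ j ≠ 0, X j`. -/
def Um (n : ℕ) (p : Bool) : Matrix (Fin (n + 1)) (Fin (n + 1)) ℤ :=
  Matrix.of fun i j => if i = j then 1 else if p = true ∧ i = 0 then -1 else 0

/-- The two bases `a` and `2`. -/
def bs (a : ℕ) (p : Bool) : ℕ := if p then 2 else a

/-- The geometric data attached to one window. -/
structure Frame (a R n N : ℕ) where
  x : Matrix (Fin (n + 1)) (Fin (n + 1)) ℤ
  y : Bool → Matrix (Fin (n + 1)) (Fin (n + 1)) ℤ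
  e : Bool → Fin (n + 1) → ℕ
  w : Fin (n + 1) → ℝ
  π : Equiv.Perm (Fin (n + 1))
  k : ℕ
  f : Fin (n + 1) → Fin (n + 1)
  l : Fin (n + 1)
  j : Fin (n + 1)
  det_ne : x.det ≠ 0
  y_eq : ∀ p, Um n p * (y p).transpose = x.transpose
  y_dvd : ∀ p u v, ((bs a p : ℕ) : ℤ) ^ e p v ∣ y p u v
  e_le : ∀ p v, e p v ≤ N
  w_le : ∀ v, |w v| ≤ (a + 4) * N
  bd : ∀ u v, |(x u v : ℝ)| ≤ Real.exp ((R : ℝ) ^ 3 + w v)
  bd' : ∀ u v : Fin (n + 1), (u : ℕ) < k → k ≤ (v : ℕ) →
    |(x u (π v) : ℝ)| ≤ Real.exp ((R : ℝ) ^ 3 + w (π v) - N / (8 * (R : ℝ) ^ 3))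
  sum_le : ∑ v, w v ≤ Real.log a * ∑ v, (e false v : ℝ) + Real.log 2 * ∑ v, (e true v : ℝ)
    + (R : ℝ) ^ 3
  kl : k ≤ (l : ℕ)
  dt_ne : dt x k f ≠ 0
  one_lt : 1 < |(dt x k (Function.update f l j) : ℚ) / dt x k f|
  ht : N / (8 * (R : ℝ) ^ 2) ≤
    Real.log |(((dt x k (Function.update f l j) : ℚ) / dt x k f).num : ℝ)|

variable {ι : Type*} {n : ℕ}

/-- Variables: block, row, column. -/
abbrev Var (ι : Type*) (n : ℕ) := (ι × Fin n) × Fin n

/-- Degrees of the rows. -/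
def rdeg (k d : ι → ℕ) (s : ι × Fin n) : ℕ := if k s.1 ≤ (s.2 : ℕ) then d s.1 else 0

/-- The number of variable rows. -/
def nrow (n k : ℕ) : ℕ := (univ.filter fun u : Fin n => k ≤ (u : ℕ)).card

/-- The minor of the variable rows in the columns `π v`, `k ≤ v`. -/
noncomputable def detP (k : ι → ℕ) (π : ι → Equiv.Perm (Fin n)) (h : ι) :
    MvPolynomial (Var ι n) ℚ :=
  (Matrix.of fun u v : Fin n => if k h ≤ (u : ℕ) ∧ k h ≤ (v : ℕ) then X ((h, u), π h v)
    else if u = v then 1 else 0).det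

/-- The parametrisation of a neighbourhood of the divisor, in the coordinates of the frame. -/
noncomputable def par2 (k : ι → ℕ) (l : ι → Fin n) :
    MvPolynomial (Var ι n) ℚ →ₐ[ℚ] MvPolynomial (Var ι n ⊕ (ι × Fin n)) ℚ :=
  aeval fun s => X (Sum.inl s) + if s.1.2 = l s.1.1 then
    ∑ u ∈ univ.erase (l s.1.1), X (Sum.inr (s.1.1, u)) *
      (if k s.1.1 ≤ (u : ℕ) then X (Sum.inl ((s.1.1, u), s.2)) else if u = s.2 then 1 else 0)
    else 0

/-- The passage to the coordinates of the frame followed by the parametrisation. -/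
noncomputable def parX (x : ι → Matrix (Fin n) (Fin n) ℤ) (k : ι → ℕ) (l : ι → Fin n) :
    MvPolynomial (Var ι n) ℚ →ₐ[ℚ] MvPolynomial (Var ι n ⊕ (ι × Fin n)) ℚ :=
  (par2 k l).comp (lin fun s => ((x s.1).transpose).map (Int.cast : ℤ → ℚ))

/-- Weights on the target of the parametrisation. -/
def wt2 (l : ι → Fin n) (N : ι → ℝ) : Var ι n ⊕ (ι × Fin n) → ℝ
  | Sum.inl s => if s.1.2 = l s.1.1 then N s.1.1 else 0
  | Sum.inr _ => 0

/-- The matrix with constant rows `x u`, `u < k`, and variable rows. -/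
noncomputable def mixM (x : ι → Matrix (Fin n) (Fin n) ℤ) (k : ι → ℕ) (h : ι) :
    Matrix (Fin n) (Fin n) (MvPolynomial (Var ι n) ℚ) :=
  Matrix.of fun u v => if k h ≤ (u : ℕ) then X ((h, u), v) else C (x h u v : ℚ)

/-- The coefficient of the distinguished variable in the equation of the divisor. -/
noncomputable def cof (x : ι → Matrix (Fin n) (Fin n) ℤ) (k : ι → ℕ) (l j : ι → Fin n) (h : ι) :
    MvPolynomial (Var ι n) ℚ :=
  ((mixM x k h).updateRow (l h) (Pi.single (j h) 1)).det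

/-- The rest of the equation of the divisor. -/
noncomputable def rest (x : ι → Matrix (Fin n) (Fin n) ℤ) (k : ι → ℕ) (l j : ι → Fin n) (h : ι) :
    MvPolynomial (Var ι n) ℚ :=
  ((mixM x k h).updateRow (l h) fun v => if v = j h then 0 else X ((h, l h), v)).det

/-- The substitution that turns the equation of the divisor into a multiple of a variable. -/
noncomputable def psi (x : ι → Matrix (Fin n) (Fin n) ℤ) (k : ι → ℕ) (l j : ι → Fin n) :
    MvPolynomial (Var ι n) ℚ →ₐ[ℚ] MvPolynomial (Var ι n) ℚ :=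
  aeval fun s => if s.1.2 = l s.1.1 then
    (if s.2 = j s.1.1 then X s - rest x k l j s.1.1 else cof x k l j s.1.1 * X s) else X s

/-- Weights on the distinguished variables. -/
def wt1 (l j : ι → Fin n) (N : ι → ℝ) (s : Var ι n) : ℝ :=
  if s.1.2 = l s.1.1 ∧ s.2 = j s.1.1 then N s.1.1 else 0

end Frames

end Pool.Agent.Lib.MP_dee342_nt.Q
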