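import Pool.Agent.Lib.MP_dee342_nt.QDefs

/-! The gap in the minima and the height of the subspace. -/

namespace Pool.Agent.Lib.MP_dee342_nt.Q

open MvPolynomial Finset Pool.Agent.Lib.Common.Subspace Pool.Agent.Lib.Common.ZeroLemma

open Matrix

/-- Take the least `k` with a jump. Without a jump up to `u`, `lam u ≤ exp ((u + 1) g)`. -/
theorem exists_gap {n : ℕ} (lam : Fin (n + 1) → ℝ) (hpos : ∀ u, 0 < lam u) {g : ℝ} (hg : 0 ≤ g)
    (h0 : lam 0 ≤ Real.exp g) (hprod : Real.exp ((n + 1) ^ 2 * g) < ∏ u, lam u) :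
    ∃ k : Fin n, Real.exp g * lam k.castSucc ≤ lam k.succ ∧
      ∀ u, u ≤ k.castSucc → lam u ≤ Real.exp ((n + 1) * g) := by
  have key : ∀ (i : ℕ) (hi : i < n + 1), (∀ k : Fin n, (k : ℕ) < i →
      ¬ Real.exp g * lam k.castSucc ≤ lam k.succ) → lam ⟨i, hi⟩ ≤ Real.exp ((i + 1) * g) := by
    intro i
    induction i with
    | zero => intro hi _; simpa using h0
    | succ i ih =>
      intro hi h
      have h1 := ih (by omega) fun k hk => h k (by omega)
      have h2 := (not_le.1 (h ⟨i, by omega⟩ (Nat.lt_succ_self i))).le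
      refine h2.trans ((mul_le_mul_of_nonneg_left h1 (Real.exp_pos g).le).trans (le_of_eq ?_))
      rw [← Real.exp_add]
      congr 1
      push_cast
      ring
  have key' : ∀ u : Fin (n + 1), (∀ k : Fin n, (k : ℕ) < u →
      ¬ Real.exp g * lam k.castSucc ≤ lam k.succ) → lam u ≤ Real.exp ((n + 1) * g) := fun u h => by
    refine (key u u.2 h).trans (Real.exp_le_exp.2 (mul_le_mul_of_nonneg_right ?_ hg))
    have : (u : ℕ) ≤ n := Nat.lt_succ_iff.1 u.2
    have : ((u : ℕ) : ℝ) ≤ n := by exact_mod_cast this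
    linarith
  by_cases hex : ∃ k : Fin n, Real.exp g * lam k.castSucc ≤ lam k.succ
  · obtain ⟨k, hk, hmin⟩ := WellFounded.has_min wellFounded_lt
      {k : Fin n | Real.exp g * lam k.castSucc ≤ lam k.succ} hex
    exact ⟨k, hk, fun u hu => key' u fun j hj h => hmin j h
      (Fin.lt_def.2 (hj.trans_le (Fin.le_def.1 hu)))⟩
  · exfalso
    refine absurd hprod (not_lt.2 ((prod_le_prod (fun u _ => (hpos u).le)
      fun u _ => key' u fun j _ h => hex ⟨j, h⟩).trans (le_of_eq ?_)))
    rw [prod_const, card_univ, Fintype.card_fin, ← Real.exp_nat_mul]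
    congr 1
    push_cast
    ring

/-- The matrix of `dt`. -/
def qgap_M {n : ℕ} (x : Matrix (Fin n) (Fin n) ℤ) (k : ℕ) (f : Fin n → Fin n) :
    Matrix (Fin n) (Fin n) ℤ :=
  Matrix.of fun (u v : Fin n) => if k ≤ (u : ℕ) then (if v = f u then 1 else 0) else x u v

theorem qgap_dt {n : ℕ} (x : Matrix (Fin n) (Fin n) ℤ) (k : ℕ) (f : Fin n → Fin n) :
    dt x k f = (qgap_M x k f).det := rfl

theorem qgap_update {n : ℕ} (x : Matrix (Fin n) (Fin n) ℤ) {k k' : ℕ} (f : Fin n → Fin n)
    {u : Fin n} (hu : k ≤ (u : ℕ)) (h : ∀ w : Fin n, w ≠ u → (k' ≤ (w : ℕ) ↔ k ≤ (w : ℕ)))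
    (j : Fin n) :
    (qgap_M x k' f).updateRow u (Pi.single j 1) = qgap_M x k (Function.update f u j) := by
  ext w v
  by_cases hw : w = u
  · subst hw
    simp [qgap_M, hu, Pi.single_apply]
  · simp [qgap_M, Matrix.updateRow_ne hw, h w hw, Function.update_of_ne hw]

theorem qgap_expand {n : ℕ} (M : Matrix (Fin n) (Fin n) ℤ) (u : Fin n) (s : Fin n → ℤ) :
    ∑ j, s j * (M.updateRow u (Pi.single j 1)).det = (M.updateRow u s).det := by
  have e : s = ∑ j, s j • (Pi.single j 1 : Fin n → ℤ) := by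
    ext i
    simp [Finset.sum_apply, Pi.single_apply]
  conv_rhs => rw [← cramer_transpose_apply, e, map_sum, Finset.sum_apply]
  refine sum_congr rfl fun j _ => ?_
  rw [map_smul, Pi.smul_apply, cramer_transpose_apply, smul_eq_mul]

/-- Replace the rows `u ≥ k` one after the other: expanding a nonzero determinant linearly in a
row (`Matrix.det_updateRow_sum`-like, or `det_updateRow_add`, `det_updateRow_smul`, or
`Matrix.cramer`), some unit vector keeps it nonzero. -/
theorem exists_dt_ne {n : ℕ} (X : Matrix (Fin n) (Fin n) ℤ) (hX : X.det ≠ 0) (k : ℕ) :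
    ∃ f, dt X k f ≠ 0 := by
  have key : ∀ m k : ℕ, n ≤ k + m → ∃ f, dt X k f ≠ 0 := by
    intro m
    induction m with
    | zero =>
      intro k hk
      refine ⟨id, fun h => hX ?_⟩
      rw [← h, qgap_dt]
      congr 1
      ext u v
      have : ¬ k ≤ (u : ℕ) := by have := u.2; omega
      simp [qgap_M, this]
    | succ m ih =>
      intro k hk
      by_cases hkn : k < n
      · obtain ⟨f, hf⟩ := ih (k + 1) (by omega)
        by_contra hne
        push Not at hne
        refine hf ?_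
        rw [qgap_dt, ← updateRow_eq_self (qgap_M X (k + 1) f) ⟨k, hkn⟩, ← qgap_expand]
        refine sum_eq_zero fun j _ => ?_
        rw [qgap_update X (k := k) f le_rfl fun w hw => ?_, ← qgap_dt, hne, mul_zero]
        have : (w : ℕ) ≠ k := fun e => hw (Fin.ext e)
        omega
      · exact ih k (by omega)
  exact key n k (by omega)

/-- Scaling of the columns: multiply the matrix of `dt X k f` by `diagonal τ` on the right, and
the matrix of the left side by the diagonal matrix with entries `τ (f u)`, `k ≤ u`, and `1` on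
the left. -/
theorem dt_scale {n : ℕ} (X : Matrix (Fin n) (Fin n) ℤ) (τ : Fin n → ℤ) (k : ℕ)
    (f : Fin n → Fin n) :
    dt (Matrix.of fun u v => X u v * τ v) k f *
        ∏ u ∈ univ.filter (fun u : Fin n => k ≤ (u : ℕ)), τ (f u) = dt X k f * ∏ v, τ v := by
  have e : diagonal (fun u : Fin n => if k ≤ (u : ℕ) then τ (f u) else 1) *
      qgap_M (Matrix.of fun u v => X u v * τ v) k f = qgap_M X k f * diagonal τ := by
    ext u v
    rw [diagonal_mul, mul_diagonal]
    by_cases h : k ≤ (u : ℕ)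
    · by_cases h' : v = f u <;> simp [qgap_M, h, h']
    · simp [qgap_M, h]
  have := congrArg det e
  rw [det_mul, det_mul, det_diagonal, det_diagonal, mul_comm] at this
  rw [qgap_dt, qgap_dt, prod_filter, this]

/-- `abv_det_le` with row factors `Λ u` for `u < k`, `1 / A (f u)` for `k ≤ u`, column factors
`A v`. -/
theorem dt_le {n : ℕ} (X : Matrix (Fin n) (Fin n) ℤ) (k : ℕ) (f : Fin n → Fin n)
    (A Λ : Fin n → ℝ) (hA : ∀ v, 0 < A v)
    (h : ∀ u v : Fin n, (u : ℕ) < k → |(X u v : ℝ)| ≤ A v * Λ u) :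
    |(dt X k f : ℝ)| * ∏ u ∈ univ.filter (fun u : Fin n => k ≤ (u : ℕ)), A (f u) ≤
      n.factorial * (∏ u ∈ univ.filter (fun u : Fin n => (u : ℕ) < k), Λ u) * ∏ v, A v := by
  let v : AbsoluteValue ℚ ℝ := (AbsoluteValue.abs (S := ℝ)).comp (Rat.castHom ℝ).injective
  have hv : ∀ z : ℤ, v (z : ℚ) = |(z : ℝ)| := fun z => by
    change |(((z : ℚ) : ℝ))| = _
    rw [Rat.cast_intCast]
  have h1 := abv_det_le (v := v) ((qgap_M X k f).map (Int.cast : ℤ → ℚ))
    (fun u => if k ≤ (u : ℕ) then (A (f u))⁻¹ else Λ u) A fun u w => by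
      rw [map_apply, hv]
      by_cases hu : k ≤ (u : ℕ)
      · by_cases h' : w = f u
        · simp [qgap_M, hu, h', (hA _).ne']
        · simp only [qgap_M, of_apply, hu, h', if_true, if_false, Int.cast_zero, abs_zero]
          exact (mul_pos (inv_pos.2 (hA _)) (hA _)).le
      · simp only [qgap_M, of_apply, hu, if_false]
        rw [mul_comm]
        exact h u w (not_le.1 hu)
  rw [← Int.cast_det, hv, ← qgap_dt, Fintype.card_fin, prod_ite, prod_inv_distrib] at h1
  have hp : 0 < ∏ u ∈ univ.filter (fun u : Fin n => k ≤ (u : ℕ)), A (f u) :=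
    prod_pos fun u _ => hA _
  simp only [not_le] at h1
  refine (mul_le_mul_of_nonneg_right h1 hp.le).trans (le_of_eq ?_)
  field_simp

/-- Cramer's rule (`Matrix.mulVec_cramer`, `Matrix.cramer_transpose_apply`) for the matrix `M` of
`dt X k f`: `det M • e j = ∑ u, det (M.updateRow u (e j)) • M u`; for `k ≤ u` the updated matrix
is the matrix of `dt X k (update f u j)`. Pair with `τ`. -/
theorem dvd_cramer {n : ℕ} (X : Matrix (Fin n) (Fin n) ℤ) (τ : Fin n → ℤ) (m : ℤ)
    (h : ∀ u, m ∣ τ ⬝ᵥ X u) (k : ℕ) (f : Fin n → Fin n) (j : Fin n) :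
    m ∣ dt X k f * τ j - ∑ u ∈ univ.filter (fun u : Fin n => k ≤ (u : ℕ)),
      dt X k (Function.update f u j) * τ (f u) := by
  have h1 := congrArg (fun z => τ ⬝ᵥ z) (mulVec_cramer (qgap_M X k f).transpose (Pi.single j 1))
  simp only [det_transpose, dotProduct_smul, dotProduct_single, mul_one, smul_eq_mul] at h1
  rw [dotProduct_mulVec, vecMul_transpose, dotProduct, ← sum_filter_add_sum_filter_not univ
    (fun u : Fin n => k ≤ (u : ℕ))] at h1
  have e : ∑ u ∈ univ.filter (fun u : Fin n => k ≤ (u : ℕ)),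
      dt X k (Function.update f u j) * τ (f u) =
      ∑ u ∈ univ.filter (fun u : Fin n => k ≤ (u : ℕ)), (qgap_M X k f *ᵥ τ) u *
        cramer (qgap_M X k f).transpose (Pi.single j 1) u := by
    refine sum_congr rfl fun u hu => ?_
    have hu' := (mem_filter.1 hu).2
    rw [cramer_transpose_apply, qgap_update X f hu' fun _ _ => Iff.rfl, ← qgap_dt, mul_comm]
    congr 1
    simp [mulVec, dotProduct, qgap_M, hu']
  rw [e, qgap_dt, ← h1, add_sub_cancel_left]
  refine dvd_sum fun u hu => Dvd.dvd.mul_right ?_ _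
  have hu' := (mem_filter.1 hu).2
  have : (qgap_M X k f *ᵥ τ) u = τ ⬝ᵥ X u := by
    rw [dotProduct_comm]
    simp [mulVec, dotProduct, qgap_M, hu']
  rw [this]
  exact h u

/-- `∑ j, s j * dt X k (update f u j)` is the determinant with row `u` replaced by `s`, which is
zero for `k ≤ u` since `s` is a combination of the first `k` rows. -/
theorem sum_cramer_eq {n : ℕ} (X : Matrix (Fin n) (Fin n) ℤ) (τ s : Fin n → ℤ) (k : ℕ)
    (g : Fin n → ℚ) (hg : ∀ u : Fin n, k ≤ (u : ℕ) → g u = 0)
    (hs : ∀ j, (s j : ℚ) = ∑ u, g u * X u j) (f : Fin n → Fin n) :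
    ∑ j, s j * (dt X k f * τ j - ∑ u ∈ univ.filter (fun u : Fin n => k ≤ (u : ℕ)),
      dt X k (Function.update f u j) * τ (f u)) = dt X k f * ∑ j, s j * τ j := by
  have z : ∀ u : Fin n, k ≤ (u : ℕ) → ∑ j, s j * dt X k (Function.update f u j) = 0 := by
    intro u hu
    have e : ∑ j, s j * dt X k (Function.update f u j) = ((qgap_M X k f).updateRow u s).det := by
      rw [← qgap_expand]
      exact sum_congr rfl fun j _ => by rw [qgap_update X f hu fun _ _ => Iff.rfl, qgap_dt]
    have e2 : ((qgap_M X k f).updateRow u s).map (Int.cast : ℤ → ℚ) =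
        ((qgap_M X k f).map (Int.cast : ℤ → ℚ)).updateRow u
          (∑ w, g w • ((qgap_M X k f).map (Int.cast : ℤ → ℚ)) w) := by
      rw [map_updateRow]
      congr 1
      ext j
      rw [Function.comp_apply, hs, Finset.sum_apply]
      refine sum_congr rfl fun w _ => ?_
      by_cases hw : k ≤ (w : ℕ)
      · simp [hg w hw]
      · simp [qgap_M, hw]
    rw [e, ← Int.cast_inj (α := ℚ), Int.cast_det, e2, det_updateRow_sum, hg u hu, zero_smul,
      Int.cast_zero]
  simp only [mul_sub, sum_sub_distrib, mul_sum]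
  rw [sum_comm, sum_eq_zero (s := univ.filter _) fun u hu => ?_, sub_zero]
  · exact sum_congr rfl fun j _ => by ring
  · simp only [← mul_assoc, ← sum_mul]
    rw [z u (mem_filter.1 hu).2, zero_mul]

/-- With `δ = ∏ (r u).den`, the number `δ (1 - ∑ r u)` is an integer of size at most
`(card + 1) H ^ card`. -/
theorem exists_den {I : Type*} (S : Finset I) (r : I → ℚ) {H : ℝ} (hH : 1 ≤ H)
    (h : ∀ u ∈ S, |((r u).num : ℝ)| ≤ H ∧ ((r u).den : ℝ) ≤ H) :
    ∃ δ z : ℤ, δ ≠ 0 ∧ (δ : ℚ) * (1 - ∑ u ∈ S, r u) = z ∧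
      |(z : ℝ)| ≤ (S.card + 1) * H ^ S.card := by
  classical
  have key : ∃ δ z : ℤ, δ ≠ 0 ∧ (δ : ℚ) * (1 - ∑ u ∈ S, r u) = z ∧
      |(z : ℝ)| ≤ (S.card + 1) * H ^ S.card ∧ |(δ : ℝ)| ≤ H ^ S.card := by
    induction S using Finset.induction_on with
    | empty => exact ⟨1, 1, one_ne_zero, by simp, by simp, by simp⟩
    | insert a S ha ih =>
      obtain ⟨δ, z, h0, e, b, b'⟩ := ih fun u hu => h u (mem_insert_of_mem hu)
      obtain ⟨hn, hd⟩ := h a (mem_insert_self a S)
      have hd' : |((r a).den : ℝ)| ≤ H := by rwa [Nat.abs_cast]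
      have hH' : 0 ≤ H ^ S.card := by positivity
      refine ⟨δ * (r a).den, z * (r a).den - δ * (r a).num,
        mul_ne_zero h0 (by exact_mod_cast (r a).den_nz), ?_, ?_, ?_⟩
      · rw [sum_insert ha]
        push_cast
        rw [← e, ← Rat.mul_den_eq_num]
        ring
      · rw [card_insert_of_notMem ha]
        push_cast
        refine (abs_sub _ _).trans ?_
        rw [abs_mul, abs_mul, pow_succ]
        have b1 := mul_le_mul b hd' (abs_nonneg _) (by positivity)
        have b2 := mul_le_mul b' hn (abs_nonneg _) hH'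
        linarith
      · rw [card_insert_of_notMem ha]
        push_cast
        rw [abs_mul, pow_succ]
        exact mul_le_mul b' hd' (abs_nonneg _) hH'
  obtain ⟨δ, z, a, b, c, -⟩ := key
  exact ⟨δ, z, a, b, c⟩

end Pool.Agent.Lib.MP_dee342_nt.Q
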