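import Pool.Agent.Lib.MP_dee342_nt.QDer

/-! Representatives of bounded degree modulo the weight filtration. -/

namespace Pool.Agent.Lib.MP_dee342_nt.Q

open MvPolynomial Finset Pool.Agent.Lib.Common.Subspace Pool.Agent.Lib.Common.ZeroLemma

variable {σ : Type*} [Fintype σ] [DecidableEq σ] {K : Type*} [Field K] [Algebra ℚ K]

/-- A multiple of `f` has a representative of degree at most `e` modulo `J`. -/
def qgeoaGood (W : Finset σ) (e : σ → ℕ) (J : Ideal (MvPolynomial σ ℚ)) (f : MvPolynomial σ ℚ) :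
    Prop := ∃ b ∈ supported ℚ (W : Set σ), b ≠ 0 ∧
      ∃ F : MvPolynomial σ ℚ, (∀ j ∉ W, degreeOf j F ≤ e j) ∧ b * f - F ∈ J

section good

variable {W : Finset σ} {e : σ → ℕ} {J : Ideal (MvPolynomial σ ℚ)} {f g : MvPolynomial σ ℚ}

omit [Fintype σ] [DecidableEq σ]

theorem qgeoa_deg0 {b : MvPolynomial σ ℚ} (hb : b ∈ supported ℚ (W : Set σ)) {j : σ} (hj : j ∉ W) :
    degreeOf j b = 0 := by
  refine Nat.le_zero.1 (degreeOf_le_iff.2 fun m hm => Nat.le_zero.2 (by_contra fun h => hj ?_))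
  exact mem_supported.1 hb ((mem_vars_iff_mem_support j).2 ⟨m, hm, Finsupp.mem_support_iff.2 h⟩)

theorem qgeoa_deg_mul {b : MvPolynomial σ ℚ} (hb : b ∈ supported ℚ (W : Set σ)) {j : σ}
    (hj : j ∉ W) (F : MvPolynomial σ ℚ) : degreeOf j (b * F) ≤ degreeOf j F := by
  simpa [qgeoa_deg0 hb hj] using degreeOf_mul_le j b F

theorem qgeoa_red (h : ∀ j ∉ W, degreeOf j f ≤ e j) : qgeoaGood W e J f :=
  ⟨1, one_mem _, one_ne_zero, f, h, by simp⟩

theorem qgeoa_mem (h : f ∈ J) : qgeoaGood W e J f :=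
  ⟨1, one_mem _, one_ne_zero, 0, by simp, by simpa using h⟩

theorem qgeoa_add (hf : qgeoaGood W e J f) (hg : qgeoaGood W e J g) :
    qgeoaGood W e J (f + g) := by
  obtain ⟨b, hb, hb0, F, hF, h⟩ := hf
  obtain ⟨b', hb', hb0', F', hF', h'⟩ := hg
  refine ⟨b * b', mul_mem hb hb', mul_ne_zero hb0 hb0', b' * F + b * F', fun j hj => ?_, ?_⟩
  · exact (degreeOf_add_le _ _ _).trans (max_le ((qgeoa_deg_mul hb' hj F).trans (hF j hj))
      ((qgeoa_deg_mul hb hj F').trans (hF' j hj)))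
  · have : b * b' * (f + g) - (b' * F + b * F') = b' * (b * f - F) + b * (b' * g - F') := by ring
    rw [this]
    exact J.add_mem (J.mul_mem_left _ h) (J.mul_mem_left _ h')

theorem qgeoa_of_mul {b : MvPolynomial σ ℚ} (hb : b ∈ supported ℚ (W : Set σ)) (hb0 : b ≠ 0)
    (h : qgeoaGood W e J (b * f)) : qgeoaGood W e J f := by
  obtain ⟨b', hb', hb0', F', hF', h'⟩ := h
  exact ⟨b' * b, mul_mem hb' hb, mul_ne_zero hb0' hb0, F', hF', by rwa [mul_assoc]⟩

theorem qgeoa_sum {I : Type*} (s : Finset I) {F : I → MvPolynomial σ ℚ}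
    (h : ∀ i ∈ s, qgeoaGood W e J (F i)) : qgeoaGood W e J (∑ i ∈ s, F i) :=
  Finset.sum_induction _ _ (fun _ _ => qgeoa_add) (qgeoa_mem J.zero_mem) h

theorem qgeoa_aeval {j : σ} (r : Polynomial (supported ℚ (W : Set σ))) {i : σ} (hi : i ∉ W) :
    degreeOf i (Polynomial.aeval (X j : MvPolynomial σ ℚ) r) ≤
      r.natDegree * degreeOf i (X j : MvPolynomial σ ℚ) := by
  rw [Polynomial.aeval_eq_sum_range]
  refine (degreeOf_sum_le _ _ _).trans (Finset.sup_le fun k hk => ?_)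
  rw [Algebra.smul_def]
  refine (qgeoa_deg_mul (r.coeff k).2 hi _).trans ((degreeOf_pow_le _ _ _).trans ?_)
  exact Nat.mul_le_mul_right _ (Nat.lt_succ_iff.1 (mem_range.1 hk))

end good

omit [Fintype σ] in
/-- The relation for a variable outside `W`. -/
theorem qgeoa_rel {y : σ → K} {W : Finset σ} (hW : Bas y W) (M : ℕ) (j : σ) : ∃ N : ℕ, j ∉ W →
    ∃ a ∈ supported ℚ (W : Set σ), a ≠ 0 ∧ ∃ ρ : MvPolynomial σ ℚ, degreeOf j ρ ≤ N ∧
      (∀ i ∉ W, i ≠ j → degreeOf i ρ = 0) ∧ a * X j ^ (N + 1) - ρ ∈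
        Ideal.span {g | ∃ ψ : MvPolynomial σ ℚ, aeval y ψ = 0 ∧ g = ψ ^ M} := by
  by_cases hj : j ∈ W
  · exact ⟨0, fun h => absurd hj h⟩
  obtain ⟨n, c, hc, hn, h0, -⟩ := hW.rel j hj
  set p : Polynomial (supported ℚ (W : Set σ)) :=
    ∑ k ∈ range (n + 1), Polynomial.monomial k ⟨c k, hc k⟩ with hp
  have hp0 : p ≠ 0 := fun h => by
    have h1 : p.coeff n = ⟨c n, hc n⟩ := by
      rw [hp, Polynomial.finsetSum_coeff, Finset.sum_eq_single n
        (fun k _ hk => Polynomial.coeff_monomial_of_ne _ hk.symm) (by simp),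
        Polynomial.coeff_monomial_same]
    rw [h, Polynomial.coeff_zero] at h1
    exact hn (congrArg Subtype.val h1).symm
  have hev : Polynomial.aeval (X j : MvPolynomial σ ℚ) p = ∑ k ∈ range (n + 1), c k * X j ^ k := by
    rw [hp, map_sum]
    exact Finset.sum_congr rfl fun k _ => Polynomial.aeval_monomial _
  set q := p ^ M * Polynomial.X with hq
  have hq0 : q ≠ 0 := mul_ne_zero (pow_ne_zero _ hp0) Polynomial.X_ne_zero
  have hqd : q.natDegree = (p ^ M).natDegree + 1 := Polynomial.natDegree_mul_X (pow_ne_zero _ hp0)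
  refine ⟨(p ^ M).natDegree, fun _ => ⟨q.leadingCoeff, q.leadingCoeff.2,
    fun h => hq0 (Polynomial.leadingCoeff_eq_zero.1 (Subtype.ext h)),
    -Polynomial.aeval (X j : MvPolynomial σ ℚ) q.eraseLead, ?_, fun i hi hij => ?_, ?_⟩⟩
  · rw [degreeOf_neg]
    refine (qgeoa_aeval _ hj).trans ?_
    rw [degreeOf_X_self, mul_one]
    have := q.eraseLead_natDegree_le
    omega
  · have := qgeoa_aeval (j := j) q.eraseLead hi
    rwa [degreeOf_X_of_ne hij, mul_zero, Nat.le_zero, ← degreeOf_neg] at this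
  · have h1 := congrArg (Polynomial.aeval (X j : MvPolynomial σ ℚ)) q.eraseLead_add_C_mul_X_pow
    rw [map_add, map_mul, map_pow, Polynomial.aeval_X, Polynomial.aeval_C, hqd] at h1
    rw [sub_neg_eq_add, add_comm]
    refine (congrArg (· ∈ _) h1).mpr ?_
    rw [hq, map_mul, map_pow, hev]
    exact Ideal.mul_mem_right _ _ (Ideal.subset_span ⟨_, h0, rfl⟩)

/-- The polynomials whose expansion has weight at least `θ`. -/
def qgeoaId (y : σ → K) (W' : Finset σ) {ω : σ → ℝ} (hω : ∀ j, 0 < ω j) (θ : ℝ) :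
    Ideal (MvPolynomial σ ℚ) where
  carrier := {h | InF ω θ (tayW y W' h)}
  add_mem' ha hb := by
    rw [Set.mem_ofPred_eq, map_add]
    exact InF.add ha hb
  zero_mem' := by
    rw [Set.mem_ofPred_eq, map_zero]
    exact inF_zero θ
  smul_mem' c x hx := by
    rw [Set.mem_ofPred_eq, smul_eq_mul, map_mul]
    simpa using (inF_of_nonpos (fun j => (hω j).le) le_rfl (tayW y W' c)).mul hx

/-- Pseudo-division. For `j ∉ W` let `ψ j = ∑ c k * X j ^ k` be the relation of `Bas.rel`, of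
degree `n j` with top coefficient `a j ≠ 0` in `supported ℚ W`; then
`ψ j ^ M = a j ^ M * X j ^ (M * n j) + (terms of smaller degree in X j, coefficients in W)`.
Put `c = 1 + M * ∑ n j`. The set of `f` with the property is closed under sums and under
multiplication by constants and by every `X j`: if `b f = F + r` with `F` reduced then
`X j * F` is reduced for `j ∈ W`; for `j ∉ W` multiply by `a j ^ M` and subtract a multiple of
`ψ j ^ M` (it is convenient to take as reduced: degree `< max 1 (M * n j)` in `X j` or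
`≤ M * n j`). `MvPolynomial.induction_on`. -/
theorem geo_red {y : σ → K} {W : Finset σ} (hW : Bas y W) (M : ℕ) :
    ∃ c : ℕ, ∀ f : MvPolynomial σ ℚ, ∃ b ∈ supported ℚ (W : Set σ), b ≠ 0 ∧
      ∃ F : MvPolynomial σ ℚ, (∀ μ ∈ F.support, ∀ j ∉ W, μ j ≤ c) ∧
        b * f - F ∈ Ideal.span {g | ∃ ψ : MvPolynomial σ ℚ, aeval y ψ = 0 ∧ g = ψ ^ M} := by
  choose N hN using qgeoa_rel hW M
  refine ⟨∑ j, N j, fun f => ?_⟩
  suffices h : qgeoaGood W N
      (Ideal.span {g | ∃ ψ : MvPolynomial σ ℚ, aeval y ψ = 0 ∧ g = ψ ^ M}) f by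
    obtain ⟨b, hb, hb0, F, hF, h⟩ := h
    exact ⟨b, hb, hb0, F, fun μ hμ j hj => (degreeOf_le_iff.1 (hF j hj) μ hμ).trans
      (single_le_sum (fun _ _ => Nat.zero_le _) (mem_univ j)), h⟩
  induction f using MvPolynomial.induction_on with
  | C a => exact qgeoa_red fun j _ => by simp
  | add p q hp hq => exact qgeoa_add hp hq
  | mul_X f j hf =>
    obtain ⟨b, hb, hb0, F, hF, h⟩ := hf
    refine qgeoa_of_mul hb hb0 ?_
    rw [show b * (f * X j) = (b * f - F) * X j + F * X j by ring]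
    refine qgeoa_add (qgeoa_mem (Ideal.mul_mem_right _ _ h)) ?_
    rw [F.as_sum, Finset.sum_mul]
    refine qgeoa_sum _ fun μ hμ => ?_
    have hμ' : ∀ i ∉ W, μ i ≤ N i := fun i hi => degreeOf_le_iff.1 (hF i hi) μ hμ
    have hm : ∀ (ν : σ →₀ ℕ) (i : σ), degreeOf i (monomial ν (coeff μ F)) ≤ ν i := fun ν i =>
      degreeOf_le_iff.2 fun m hm => by rw [mem_singleton.1 (support_monomial_subset hm)]
    by_cases hc : j ∉ W ∧ μ j = N j
    · obtain ⟨a, ha, ha0, ρ, h1, h2, h3⟩ := hN j hc.1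
      refine qgeoa_of_mul ha ha0 ?_
      have e1 : monomial μ (coeff μ F) = monomial (μ.erase j) (coeff μ F) * X j ^ N j := by
        rw [← hc.2, X_pow_eq_monomial, monomial_mul, mul_one, Finsupp.erase_add_single]
      rw [e1, show a * (monomial (μ.erase j) (coeff μ F) * X j ^ N j * X j) =
        monomial (μ.erase j) (coeff μ F) * (a * X j ^ (N j + 1) - ρ) +
          monomial (μ.erase j) (coeff μ F) * ρ by ring]
      refine qgeoa_add (qgeoa_mem (Ideal.mul_mem_left _ _ h3)) (qgeoa_red fun i hi => ?_)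
      refine (degreeOf_mul_le _ _ _).trans ((Nat.add_le_add_right (hm _ i) _).trans ?_)
      rcases eq_or_ne i j with rfl | hij
      · rwa [Finsupp.erase_same, zero_add]
      · rw [h2 i hi hij, Finsupp.erase_ne hij]
        exact hμ' i hi
    · refine qgeoa_red fun i hi => (degreeOf_mul_le _ _ _).trans
        ((Nat.add_le_add_right (hm _ i) _).trans ?_)
      rcases eq_or_ne i j with rfl | hij
      · rw [degreeOf_X_self]
        exact lt_of_le_of_ne (hμ' i hi) fun h => hc ⟨hi, h⟩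
      · rw [degreeOf_X_of_ne hij]
        exact hμ' i hi

/-- By `Bas.inv`, `b₀ - u u₁` vanishes at `y`, so its expansion has no constant term
(`coeff_zero_tayW`, `inF_of_coeff_zero` with the least weight `δ > 0`), and the `k`-th power has
weight `≥ k δ ≥ τ`. Expand: `(b₀ - u u₁) ^ k = b₀ ^ k - u u'` (`sub_dvd_pow_sub_pow`). -/
theorem geo_inv {y : σ → K} {W : Finset σ} (hW : Bas y W) (W' : Finset σ) {ω : σ → ℝ}
    (hω : ∀ j, 0 < ω j) {u : MvPolynomial σ ℚ} (hu : aeval y u ≠ 0) (τ : ℝ) :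
    ∃ b ∈ supported ℚ (W : Set σ), b ≠ 0 ∧ ∃ u', InF ω τ (tayW y W' (b - u * u')) := by
  obtain ⟨b, hb, hb0, u₁, h⟩ := hW.inv u hu
  have hs : 0 ≤ ∑ j, (ω j)⁻¹ := sum_nonneg fun j _ => (inv_pos.2 (hω j)).le
  set δ : ℝ := (∑ j, (ω j)⁻¹ + 1)⁻¹ with hδ
  have hδ0 : 0 < δ := by positivity
  have hδω : ∀ j, δ ≤ ω j := fun j => inv_le_of_inv_le₀ (hω j) (by
    linarith [single_le_sum (f := fun j => (ω j)⁻¹) (fun j _ => (inv_pos.2 (hω j)).le) (mem_univ j)])
  have h1 : InF ω δ (tayW y W' (b - u * u₁)) :=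
    inF_of_coeff_zero hδ0.le hδω (by rw [coeff_zero_tayW, h])
  obtain ⟨w, hw⟩ := sub_dvd_pow_sub_pow b (b - u * u₁) ⌈τ / δ⌉₊
  refine ⟨b ^ ⌈τ / δ⌉₊, pow_mem hb _, pow_ne_zero _ hb0, u₁ * w, ?_⟩
  rw [show b ^ ⌈τ / δ⌉₊ - u * (u₁ * w) = (b - u * u₁) ^ ⌈τ / δ⌉₊ by linear_combination hw, map_pow]
  exact (h1.pow _).mono ((div_le_iff₀ hδ0).1 (Nat.le_ceil _))

/-- Induction on `t`; `t = 0`: `b = 1`, `g = 0`. Step: take `b₂ - u u'` of weight `≥ (t+1) E`
(`geo_inv`), and `b₁ (u' f) = F + r` (`geo_red`). Then `u r ∈ span 𝒢` (span induction), say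
`u r = ∑ r G * G` (`Submodule.mem_span_finset` or `Ideal.mem_span_finset`-like). Apply the
induction hypothesis to every `r G`, with multipliers `b G`; let `b' = ∏ b G`. Then
`b' b₁ b₂ f ≡ b' u F + ∑ (b' / b G) (g G) G`. Multipliers in `supported ℚ W` do not change the
degrees in the variables outside `W`. Take `c = c₀ + totalDegree u`. -/
theorem geo_claim {y : σ → K} {W : Finset σ} (hW : Bas y W) (W' : Finset σ) {ω : σ → ℝ}
    (hω : ∀ j, 0 < ω j) (𝒢 : Finset (MvPolynomial σ ℚ)) (d : σ → ℕ)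
    (hd : ∀ G ∈ 𝒢, ∀ μ ∈ G.support, ∀ j, μ j ≤ d j) {E : ℝ}
    (hE : ∀ G ∈ 𝒢, InF ω E (tayW y W' G)) {u : MvPolynomial σ ℚ} (hu : aeval y u ≠ 0) {M : ℕ}
    (hM : ∀ f, aeval y f = 0 → u * f ^ M ∈ Ideal.span (𝒢 : Set (MvPolynomial σ ℚ))) :
    ∃ c : ℕ, ∀ (t : ℕ) (f : MvPolynomial σ ℚ), ∃ b ∈ supported ℚ (W : Set σ), b ≠ 0 ∧
      ∃ g : MvPolynomial σ ℚ, (∀ μ ∈ g.support, ∀ j ∉ W, μ j ≤ c + t * d j) ∧
        InF ω (t * E) (tayW y W' (b * f - g)) := by
  obtain ⟨c, hc⟩ := geo_red hW M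
  refine ⟨c + u.totalDegree, fun t f => ?_⟩
  suffices h : qgeoaGood W (fun j => c + u.totalDegree + t * d j) (qgeoaId y W' hω (t * E)) f by
    obtain ⟨b, hb, hb0, F, hF, h⟩ := h
    exact ⟨b, hb, hb0, F, fun μ hμ j hj => degreeOf_le_iff.1 (hF j hj) μ hμ, h⟩
  induction t generalizing f with
  | zero => exact qgeoa_mem (inF_of_nonpos (fun j => (hω j).le) (by simp) _)
  | succ t ih =>
    have key : ∀ x ∈ Ideal.span (𝒢 : Set (MvPolynomial σ ℚ)), ∀ r, qgeoaGood W
        (fun j => c + u.totalDegree + (t + 1) * d j) (qgeoaId y W' hω ((t + 1 : ℕ) * E))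
        (r * x) := by
      intro x hx
      induction hx using Submodule.span_induction with
      | mem G hG =>
        intro r
        obtain ⟨b, hb, hb0, F, hF, h⟩ := ih r
        refine ⟨b, hb, hb0, F * G, fun j hj => (degreeOf_mul_le _ _ _).trans ?_, ?_⟩
        · have h1 := hF j hj
          have h2 : degreeOf j G ≤ d j := degreeOf_le_iff.2 fun μ hμ => hd G hG μ hμ j
          simp only [add_mul, one_mul] at h1 ⊢
          omega
        · change InF ω _ (tayW y W' _)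
          rw [show b * (r * G) - F * G = (b * r - F) * G by ring, map_mul, Nat.cast_succ, add_mul,
            one_mul]
          exact InF.mul h (hE G hG)
      | zero => exact fun r => qgeoa_mem (by rw [mul_zero]; exact Ideal.zero_mem _)
      | add a b _ _ ha hb => exact fun r => by rw [mul_add]; exact qgeoa_add (ha r) (hb r)
      | smul a x _ hx => exact fun r => by rw [smul_eq_mul, ← mul_assoc]; exact hx _
    obtain ⟨b₂, hb₂, hb₂0, u', h₂⟩ := geo_inv hW W' hω hu ((t + 1 : ℕ) * E)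
    obtain ⟨b₁, hb₁, hb₁0, F, hF, h₁⟩ := hc (u' * f)
    have hr : ∀ x ∈ Ideal.span {g | ∃ ψ : MvPolynomial σ ℚ, aeval y ψ = 0 ∧ g = ψ ^ M},
        u * x ∈ Ideal.span (𝒢 : Set (MvPolynomial σ ℚ)) := by
      intro x hx
      induction hx using Submodule.span_induction with
      | mem g hg =>
        obtain ⟨ψ, hψ, rfl⟩ := hg
        exact hM ψ hψ
      | zero => simp
      | add a b _ _ ha hb => rw [mul_add]; exact Ideal.add_mem _ ha hb
      | smul a x _ hx => rw [smul_eq_mul, mul_left_comm]; exact Ideal.mul_mem_left _ _ hx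
    refine qgeoa_of_mul (mul_mem hb₁ hb₂) (mul_ne_zero hb₁0 hb₂0) ?_
    rw [show b₁ * b₂ * f = b₁ * f * (b₂ - u * u') + (1 * (u * (b₁ * (u' * f) - F)) + u * F) by ring]
    refine qgeoa_add (qgeoa_mem (Ideal.mul_mem_left _ _ h₂))
      (qgeoa_add (key _ (hr _ h₁) 1) (qgeoa_red fun j hj => (degreeOf_mul_le _ _ _).trans ?_))
    have h1 : degreeOf j F ≤ c := degreeOf_le_iff.2 fun μ hμ => hF μ hμ j hj
    have h2 := degreeOf_le_totalDegree u j
    omega

end Pool.Agent.Lib.MP_dee342_nt.Q
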