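import Pool.Agent.Lib.MP_dee342_nt.QDefs
import Pool.Agent.Lib.MP_dee342_nt.PieceCov

/-! Groups of periodic pieces give windows; a single piece is not too long. -/

namespace Pool.Agent.Lib.MP_dee342_nt.Q

open Finset Function

/-- Take `i < r` from `exists_long` and the relation of `pc_final` for this `i`. Put `N = b r`,
`B = b (i+1)`, `G = N / (4 r)`, `W = (a ^ V) ^ r`; index `0` carries `(A, 0, Q * y)`, index
`l + 1` carries `(e l, f l, c l)` if `l < 2 i + 1` and `(0, 0, 0)` otherwise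
(`Fin.cons`, `Fin.sum_univ_succ`, `Fin.sum_univ_eq_sum_range`). `log a ≤ a`. -/
theorem blk_of_group (a : ℕ) (ha : Odd a) (ha3 : 3 ≤ a) (y : ℤ) {R r V E : ℕ} (hr : 1 ≤ r)
    (hR : 8 * r ≤ R) (b : ℕ → ℕ) (hb : Monotone b) (hb0 : b 0 = 0) (hN : 8 * r ≤ b r)
    (hp : ∀ j < r, Per (par a y) V (b j) (b (j + 1)))
    (hnp : ∀ i v, 1 ≤ v → v ≤ V → (T a)^[v] ((T a)^[i] y) ≠ (T a)^[i] y)
    (hy : |y| ≤ 2 ^ E) (hE : 4 * E ≤ b r) (hV : 16 * R ^ 3 * (a * V * r) ≤ b r) :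
    Blk a R (2 * r - 1) (b r) := by
  obtain ⟨i, hi, h1, h2⟩ := exists_long b hb0 r (by omega)
  obtain ⟨W, Q, A, c, e, f, hQ, hA, hc, hid, hW⟩ :=
    pc_final a ha ha3 y V b hb hb0 i fun j hj => hp j (by omega)
  have hB : b (i + 1) ≤ b r := hb hi
  obtain ⟨G, hG⟩ : ∃ G, G = b r / (4 * r) := ⟨_, rfl⟩
  have hG1 : 4 * r * G ≤ b r := hG ▸ Nat.mul_div_le _ _
  have hG2 : b r < 4 * r * (G + 1) := hG ▸ Nat.lt_mul_div_succ _ (by omega)
  have hG3 : 1 ≤ G := by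
    by_contra h0
    obtain rfl : G = 0 := by omega
    omega
  have hG4 : b i + G ≤ b (i + 1) := by
    refine Nat.le_of_mul_le_mul_left (c := 2 * r) ?_ (by omega)
    nlinarith
  have hG5 : 4 * G ≤ b r := by nlinarith
  have hR1 : 1 ≤ R := by omega
  have hV1 : 2 * r * V ≤ b r := by
    refine le_trans ?_ hV
    have h3 : 1 ≤ R ^ 3 := Nat.one_le_pow _ _ hR1
    have h4 : V * r ≤ a * V * r := Nat.mul_le_mul_right _ (Nat.le_mul_of_pos_left _ (by omega))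
    calc 2 * r * V = 2 * (V * r) := by ring
      _ ≤ _ := Nat.mul_le_mul (by omega) h4
  have hW0 : W ≠ 0 := by
    intro h0
    have h3 : 2 * r * (V + b i) ≤ 2 * r * b (i + 1) := by rw [mul_add]; omega
    have h4 := Nat.le_of_mul_le_mul_left h3 (by omega)
    obtain ⟨v, h5, h6, h7⟩ := hW (by omega) h0
    exact hnp _ v h5 h6 h7
  have ha1 : (1 : ℝ) ≤ (a : ℝ) ^ V := one_le_pow₀ (by exact_mod_cast (show 1 ≤ a by omega))
  have hsm : ∀ z : ℤ, |z| ≤ ((a : ℤ) ^ V) ^ (i + 1) → |(z : ℝ)| ≤ ((a : ℝ) ^ V) ^ r := by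
    intro z hz
    have h3 : |(z : ℝ)| ≤ ((a : ℝ) ^ V) ^ (i + 1) := by exact_mod_cast hz
    exact h3.trans (pow_le_pow_right₀ ha1 hi)
  have hsum : ∑ j : Fin (2 * r - 1 + 1),
      (Fin.cons (Q * y) fun l : Fin (2 * r - 1) => if (l : ℕ) < 2 * i + 1 then c l else 0 :
        Fin (2 * r - 1 + 1) → ℤ) j *
      ((a : ℤ) ^ (Fin.cons A fun l : Fin (2 * r - 1) => e l : Fin (2 * r - 1 + 1) → ℕ) j *
        2 ^ (Fin.cons 0 fun l : Fin (2 * r - 1) => f l : Fin (2 * r - 1 + 1) → ℕ) j) =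
      2 ^ b (i + 1) * W := by
    rw [Fin.sum_univ_succ]
    simp only [Fin.cons_zero, Fin.cons_succ]
    rw [Fin.sum_univ_eq_sum_range
      (fun l => (if l < 2 * i + 1 then c l else 0) * ((a : ℤ) ^ e l * 2 ^ f l)), hid,
      ← Finset.sum_subset (Finset.range_mono (show 2 * i + 1 ≤ 2 * r - 1 by omega))
        fun l _ hl => by rw [if_neg (by simpa using hl), zero_mul]]
    congr 1
    · ring
    · exact Finset.sum_congr rfl fun l hl => by rw [if_pos (mem_range.1 hl), mul_assoc]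
  refine ⟨Fin.cons A fun l => e l, Fin.cons 0 fun l => f l, b (i + 1), E, G,
    Fin.cons (Q * y) fun l => if (l : ℕ) < 2 * i + 1 then c l else 0, ((a : ℝ) ^ V) ^ r,
    fun j => ?_, hB, rfl, fun j hj => ?_, by omega, ?_, one_le_pow₀ ha1, ?_, ?_, fun j hj => ?_,
    ?_, ?_⟩
  · refine Fin.cases ?_ (fun l => ?_) j
    · exact hA.trans hB
    · exact (hc l).2.1.trans hB
  · obtain ⟨l, rfl⟩ := Fin.exists_succ_eq.2 hj
    exact (Nat.add_le_add_right (hc l).2.2 G).trans hG4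
  · have h3 : 8 * r * G ≤ R * G := Nat.mul_le_mul_right G hR
    nlinarith
  · have h3 : (a : ℝ) ≤ Real.exp a := by linarith [Real.add_one_le_exp (a : ℝ)]
    refine (pow_le_pow_left₀ (by positivity) (pow_le_pow_left₀ (by positivity) h3 V) r).trans ?_
    rw [← Real.exp_nat_mul, ← Real.exp_nat_mul]
    refine Real.exp_le_exp.2 ?_
    have h4 : (0 : ℝ) < R := by exact_mod_cast hR1
    have h5 : (16 : ℝ) * R ^ 3 * (a * V * r) ≤ b r := by exact_mod_cast hV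
    rw [le_div_iff₀ (by positivity)]
    linarith
  · simp only [Fin.cons_zero]
    have h3 : |(y : ℝ)| ≤ 2 ^ E := by exact_mod_cast hy
    rw [Int.cast_mul, abs_mul]
    exact mul_le_mul (hsm Q hQ) h3 (abs_nonneg _) (by positivity)
  · obtain ⟨l, rfl⟩ := Fin.exists_succ_eq.2 hj
    simp only [Fin.cons_succ]
    split_ifs
    · exact hsm _ (hc l).1
    · rw [Int.cast_zero, abs_zero]
      positivity
  · rw [hsum]
    exact Dvd.intro _ rfl
  · rw [hsum]
    exact mul_ne_zero (by positivity) hW0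

/-- `pc_rel'` with `V = v`. If `v ≤ e - s` then `α x_e + β ≠ 0`, so `2 ^ (e - s)` divides the
nonzero integer `α' x_s + β'` (it is coprime to `a ^ k`), which is at most
`a ^ v (|x_s| + 1) ≤ 2 ^ (a v + Y)`. -/
theorem piece_le (a : ℕ) (ha : Odd a) (ha3 : 3 ≤ a) (x : ℤ) {s e v Y : ℕ} (hse : s ≤ e)
    (hv : 1 ≤ v) (hper : ∀ i, s ≤ i → i + v < e → par a x (i + v) = par a x i)
    (hnp : ∀ u, 1 ≤ u → u ≤ v → (T a)^[u] ((T a)^[s] x) ≠ (T a)^[s] x)
    (hY : |(T a)^[s] x| + 1 ≤ 2 ^ Y) : e - s ≤ a * v + Y := by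
  by_cases hve : v ≤ e - s
  · obtain ⟨α, β, α', β', k, -, -, -, -, h5, h6, h7, h8⟩ :=
      pc_rel' a ha ha3 x v s e hse ⟨v, hv, le_rfl, hper⟩
    have h1 : α * (T a)^[e] x + β ≠ 0 := fun h0 => by
      obtain ⟨u, h9, h10, h11⟩ := h8 hve h0
      exact hnp u h9 h10 h11
    have h2 : α' * (T a)^[s] x + β' ≠ 0 := fun h0 => by
      rw [h0, mul_zero] at h7
      exact mul_ne_zero (by positivity) h1 h7
    have h3 : IsCoprime ((2 : ℤ) ^ (e - s)) ((a : ℤ) ^ k) := by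
      have h4 : IsCoprime ((2 : ℕ) : ℤ) (a : ℤ) :=
        Nat.isCoprime_iff_coprime.2 (Nat.coprime_two_left.2 ha)
      exact h4.pow
    have h4 := Int.le_abs_of_dvd h2 (h3.dvd_of_dvd_mul_left (Dvd.intro _ h7))
    have h9 : (a : ℤ) ^ v ≤ 2 ^ (a * v) := by
      rw [pow_mul]
      exact pow_le_pow_left₀ (by positivity)
        (by exact_mod_cast (Nat.lt_two_pow_self (n := a)).le) v
    have h10 : |α' * (T a)^[s] x + β'| ≤ 2 ^ (a * v + Y) :=
      calc _ ≤ |α'| * |(T a)^[s] x| + |β'| := by rw [← abs_mul]; exact abs_add_le _ _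
        _ ≤ (a : ℤ) ^ v * |(T a)^[s] x| + (a : ℤ) ^ v :=
          add_le_add (mul_le_mul_of_nonneg_right h5 (abs_nonneg _)) h6
        _ = (a : ℤ) ^ v * (|(T a)^[s] x| + 1) := by ring
        _ ≤ 2 ^ (a * v) * 2 ^ Y := mul_le_mul h9 hY (by positivity) (by positivity)
        _ = _ := (pow_add _ _ _).symm
    exact (pow_le_pow_iff_right₀ (by norm_num : (1 : ℤ) < 2)).1 (h4.trans h10)
  · have : v ≤ a * v := Nat.le_mul_of_pos_left _ (by omega)
    omega

theorem QGroup_step (a : ℕ) (ha : Odd a) (ha3 : 3 ≤ a) (y : ℤ) :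
    |T a y| + 1 ≤ 2 ^ a * (|y| + 1) := by
  have h1 : (a : ℤ) ≤ 2 ^ a := by exact_mod_cast (Nat.lt_two_pow_self (n := a)).le
  have h2 : (3 : ℤ) ≤ a := by exact_mod_cast ha3
  have h0 := abs_nonneg y
  have h3 : |y| ≤ a * |y| := le_mul_of_one_le_left h0 (by linarith)
  have h4 : 2 * |T a y| ≤ a * |y| + 1 := by
    have h5 : |(a : ℤ) * y| = a * |y| := by rw [abs_mul, abs_of_nonneg (by linarith)]
    unfold T
    split_ifs with h
    · have h6 : 2 * |y / 2| ≤ |y| := by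
        rcases abs_cases y with h7 | h7 <;> rcases abs_cases (y / 2) with h8 | h8 <;> omega
      linarith
    · have h6 : ((a : ℤ) * y) % 2 = 1 := by
        have h7 : (a : ℤ) % 2 = 1 := by exact_mod_cast Nat.odd_iff.1 ha
        rw [Int.mul_emod, h7, show y % 2 = 1 by omega]
        rfl
      rw [← h5]
      generalize (a : ℤ) * y = w at h6
      rcases abs_cases w with h7 | h7 <;> rcases abs_cases ((w + 1) / 2) with h8 | h8 <;> omega
  have h5 := mul_le_mul_of_nonneg_right h1 (show 0 ≤ |y| + 1 by linarith)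
  have h6 := abs_nonneg (T a y)
  nlinarith

/-- Induction, `2 |T y| ≤ a |y| + 1` and `a < 2 ^ a`. -/
theorem iterate_le (a : ℕ) (ha : Odd a) (ha3 : 3 ≤ a) (x : ℤ) {Z : ℕ} (hx : |x| + 1 ≤ 2 ^ Z)
    (s : ℕ) : |(T a)^[s] x| + 1 ≤ 2 ^ (a * (s + Z)) := by
  have h1 : |(T a)^[s] x| + 1 ≤ 2 ^ (a * s + Z) := by
    induction s with
    | zero => simpa using hx
    | succ s ih =>
      rw [iterate_succ_apply', show a * (s + 1) + Z = a + (a * s + Z) by ring, pow_add]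
      exact (QGroup_step a ha ha3 _).trans (mul_le_mul_of_nonneg_left ih (by positivity))
  refine h1.trans (pow_le_pow_right₀ (by norm_num) ?_)
  have : Z ≤ a * Z := Nat.le_mul_of_pos_left _ (by omega)
  rw [mul_add]
  omega

/-- Enumerate `Bd` increasingly (`Finset.orderEmbOfFin`) and take every `S`-th element. -/
theorem exists_sep (Bd : Finset ℕ) (N : ℕ → ℕ)
    (h : ∀ w ∈ Bd, ∀ w' ∈ Bd, w < w' → 2 * N w ≤ N w') (S m : ℕ) (hS : S * m ≤ Bd.card)
    (hS1 : 1 ≤ S) :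
    ∃ φ : Fin m → ℕ, (∀ h, φ h ∈ Bd) ∧ ∀ h h', h < h' → 2 ^ S * N (φ h) ≤ N (φ h') := by
  have h1 : ∀ (k i : ℕ) (hi : i < Bd.card) (hk : i + k < Bd.card),
      2 ^ k * N (Bd.orderEmbOfFin rfl ⟨i, hi⟩) ≤ N (Bd.orderEmbOfFin rfl ⟨i + k, hk⟩) := by
    intro k i hi
    induction k with
    | zero => intro _; simp
    | succ k ih =>
      intro hk
      have h2 := ih (by omega)
      have h3 := h _ (Bd.orderEmbOfFin_mem rfl ⟨i + k, by omega⟩) _
        (Bd.orderEmbOfFin_mem rfl ⟨i + (k + 1), hk⟩)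
        ((Bd.orderEmbOfFin rfl).strictMono (Fin.mk_lt_mk.2 (by omega)))
      rw [pow_succ]
      linarith
  have h2 : ∀ j : Fin m, S * j < Bd.card := fun j =>
    lt_of_lt_of_le (Nat.mul_lt_mul_of_pos_left j.2 hS1) hS
  refine ⟨fun j => Bd.orderEmbOfFin rfl ⟨S * j, h2 j⟩, fun j => Bd.orderEmbOfFin_mem rfl _,
    fun j j' hj => ?_⟩
  have h3 : S * (j + 1) ≤ S * j' := Nat.mul_le_mul_left S hj
  rw [mul_add, mul_one] at h3
  obtain ⟨k, hk⟩ := Nat.exists_eq_add_of_le h3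
  have h4 := h1 (S + k) (S * j) (h2 j) (by have := h2 j'; omega)
  have h5 : (⟨S * j + (S + k), by have := h2 j'; omega⟩ : Fin Bd.card) = ⟨S * j', h2 j'⟩ :=
    Fin.ext (by simp only []; omega)
  rw [h5] at h4
  exact (Nat.mul_le_mul_right _ (Nat.pow_le_pow_right two_pos (Nat.le_add_right S k))).trans h4

end Pool.Agent.Lib.MP_dee342_nt.Q
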