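import Pool.Agent.Lib.MP_dee342_nt.QGap

/-! A ratio of adjacent minors of large height. -/

namespace Pool.Agent.Lib.MP_dee342_nt.Q

open MvPolynomial Finset Pool.Agent.Lib.Common.Subspace Pool.Agent.Lib.Common.ZeroLemma

open Matrix

theorem qht_dt_eq_zero {n : ℕ} (X : Matrix (Fin n) (Fin n) ℤ) {k : ℕ} {f : Fin n → Fin n}
    {u u' : Fin n} (hu : k ≤ (u : ℕ)) (hu' : k ≤ (u' : ℕ)) (hne : u ≠ u') (h : f u = f u') :
    dt X k f = 0 := by
  refine det_zero_of_row_eq hne (funext fun v => ?_)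
  simp only [Matrix.of_apply, if_pos hu, if_pos hu', h]

theorem qht_rat {r : ℚ} {H : ℝ} (hH : 1 ≤ H) (h : H < |(r.num : ℝ)| ∨ H < (r.den : ℝ)) :
    (1 < |r| ∧ H < |(r.num : ℝ)|) ∨ (r ≠ 0 ∧ 1 < |r⁻¹| ∧ H < |((r⁻¹).num : ℝ)|) := by
  have hd : (0 : ℚ) < r.den := Nat.cast_pos.2 r.den_pos
  have e : |(r.num : ℚ)| = |r| * r.den := by
    rw [← Rat.mul_den_eq_num, abs_mul, abs_of_pos hd]
  rcases lt_or_ge 1 |r| with h1 | h1
  · refine Or.inl ⟨h1, h.elim id fun h2 => h2.trans ?_⟩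
    have : (r.den : ℚ) < |(r.num : ℚ)| := by
      rw [e]
      exact lt_mul_of_one_lt_left hd h1
    exact_mod_cast this
  · have h2 : |(r.num : ℚ)| ≤ r.den := by
      rw [e]
      exact mul_le_of_le_one_left hd.le h1
    have h3 : |(r.num : ℝ)| ≤ r.den := by exact_mod_cast h2
    have h4 : H < (r.den : ℝ) := h.elim (fun h => h.trans_le h3) id
    have h5 : r.den ≠ 1 := fun h5 => by
      rw [h5, Nat.cast_one] at h4
      linarith
    have h0 : r ≠ 0 := by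
      rintro rfl
      exact h5 rfl
    have h6 : |r| ≠ 1 := fun h6 => by
      rcases (abs_eq zero_le_one).1 h6 with h7 | h7 <;> rw [h7] at h5 <;> exact h5 rfl
    refine Or.inr ⟨h0, ?_, ?_⟩
    · rw [abs_inv]
      exact (one_lt_inv₀ (abs_pos.2 h0)).2 (lt_of_le_of_ne h1 h6)
    · rw [Rat.num_inv, ← Int.cast_abs, abs_mul, Int.abs_sign_of_ne_zero (Rat.num_ne_zero.2 h0),
        one_mul, Nat.abs_cast]
      exact_mod_cast h4

/-- Let `τ v = a ^ α v * 2 ^ β v`, `q f = dt X k f`, `S = {u | k ≤ u}`,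
`Z f j = q f * τ j - ∑ u ∈ S, q (update f u j) * τ (f u)`, divisible by `2 ^ B` (`dvd_cramer`).
Case (b): no `f` with `q f ≠ 0` takes the value `0` on `S`. Take `f` with `q f ≠ 0`
(`exists_dt_ne`); then `q (update f u 0) = 0` for `u ∈ S`, so `2 ^ B ∣ q f * a ^ α 0`, hence
`2 ^ B ≤ |q f| ≤ (n+1)! ∏ Λ * 2 ^ E` (`dt_le` with `A 0 = 2 ^ E`, `A v = 1`), against `hbig`.
Case (a): `q f ≠ 0`, `f u₀ = 0`, `u₀ ∈ S`. Then `|q f| ≤ (n+1)! ∏ Λ`. By `sum_cramer_eq` some
`Z f j ≠ 0`, and `j ≠ 0` because `Z f 0 = 0` (two equal rows for `u ≠ u₀`). With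
`r u = dt x k (update f u j) / dt x k f = q (update f u j) τ (f u) / (q f τ j)` (`dt_scale`),
`Z f j = q f τ j (1 - ∑ r u)`. If all `r u` had numerator and denominator at most `H`, then
`exists_den` gives `δ Z = z q τ j`, so `2 ^ (B - β j) ∣ z q ≠ 0`, against `hbig`. So some
`r u` has numerator or denominator `> H ≥ 1`. If `1 < |r u|` the numerator is the larger one:
take `(f, u, j)`. Otherwise `0 < |r u| < 1` and take `(update f u j, u, f u)`, with ratio
`(r u)⁻¹`, whose numerator is `± (r u).den`. -/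
theorem exists_ht {n : ℕ} {a : ℕ} (ha : Odd a) (X : Matrix (Fin (n + 1)) (Fin (n + 1)) ℤ)
    (hX : X.det ≠ 0) (α β : Fin (n + 1) → ℕ) (B E G k : ℕ) (hβ0 : β 0 = 0)
    (hβ : ∀ j, j ≠ 0 → β j + G ≤ B) (hE : E + G ≤ B)
    (hdvd : ∀ u, (2 : ℤ) ^ B ∣ (fun v => (a : ℤ) ^ α v * 2 ^ β v) ⬝ᵥ X u)
    (Λ : Fin (n + 1) → ℝ) (hΛ : ∀ u, 0 ≤ Λ u)
    (hb : ∀ u v : Fin (n + 1), (u : ℕ) < k → |(X u v : ℝ)| ≤ (if v = 0 then 2 ^ E else 1) * Λ u)
    (s : Fin (n + 1) → ℤ) (g : Fin (n + 1) → ℚ) (hg : ∀ u : Fin (n + 1), k ≤ (u : ℕ) → g u = 0)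
    (hs : ∀ j, (s j : ℚ) = ∑ u, g u * X u j)
    (hne : ∑ j, s j * ((a : ℤ) ^ α j * 2 ^ β j) ≠ 0) {H : ℝ} (hH : 1 ≤ H)
    (hbig : (n + 2) * H ^ (n + 1) * ((n + 1).factorial *
      ∏ u ∈ univ.filter (fun u : Fin (n + 1) => (u : ℕ) < k), Λ u) < 2 ^ G)
    (x : Matrix (Fin (n + 1)) (Fin (n + 1)) ℤ) (hx : ∀ u v, x u v = X u v * (a ^ α v * 2 ^ β v)) :
    ∃ (f : Fin (n + 1) → Fin (n + 1)) (l j : Fin (n + 1)), k ≤ (l : ℕ) ∧ dt x k f ≠ 0 ∧
      1 < |(dt x k (Function.update f l j) : ℚ) / dt x k f| ∧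
      H < |(((dt x k (Function.update f l j) : ℚ) / dt x k f).num : ℝ)| := by
  set τ : Fin (n + 1) → ℤ := fun v => (a : ℤ) ^ α v * 2 ^ β v with hτ
  set S : Finset (Fin (n + 1)) := univ.filter fun u : Fin (n + 1) => k ≤ (u : ℕ) with hS
  set P : ℝ := ∏ u ∈ univ.filter (fun u : Fin (n + 1) => (u : ℕ) < k), Λ u with hP
  have hmemS : ∀ u, u ∈ S ↔ k ≤ (u : ℕ) := fun u => by simp [hS]
  have hP0 : 0 ≤ P := prod_nonneg fun u _ => hΛ u
  have hFP : 0 ≤ ((n + 1).factorial : ℝ) * P := by positivity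
  have ha0 : (a : ℤ) ≠ 0 := Nat.cast_ne_zero.2 ha.pos.ne'
  have hτ0 : ∀ v, τ v ≠ 0 := fun v => mul_ne_zero (pow_ne_zero _ ha0) (pow_ne_zero _ two_ne_zero)
  have hcop : ∀ b c : ℕ, IsCoprime ((2 : ℤ) ^ b) ((a : ℤ) ^ c) := fun b c => by
    have h2 : IsCoprime ((2 : ℕ) : ℤ) (a : ℤ) :=
      Nat.isCoprime_iff_coprime.2 (Nat.coprime_two_left.2 ha)
    exact_mod_cast h2.pow
  have hHn : (1 : ℝ) ≤ (n + 2) * H ^ (n + 1) :=
    one_le_mul_of_one_le_of_one_le (by linarith [(Nat.cast_nonneg n : (0 : ℝ) ≤ n)])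
      (one_le_pow₀ hH)
  have hA1 : ∀ v : Fin (n + 1), (1 : ℝ) ≤ if v = 0 then 2 ^ E else 1 := fun v => by
    split_ifs
    · exact one_le_pow₀ one_le_two
    · exact le_rfl
  have hle : ∀ f : Fin (n + 1) → Fin (n + 1), |(dt X k f : ℝ)| *
      ∏ u ∈ S, (if f u = 0 then (2 : ℝ) ^ E else 1) ≤ (n + 1).factorial * P * 2 ^ E := by
    intro f
    have := dt_le X k f (fun v => if v = 0 then (2 : ℝ) ^ E else 1) Λ
      (fun v => one_pos.trans_le (hA1 v)) hb
    rwa [prod_ite_eq', if_pos (mem_univ _)] at this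
  have hxe : x = Matrix.of fun u v => X u v * τ v := by
    ext u v
    exact hx u v
  have hT : ∏ v, τ v ≠ 0 := prod_ne_zero_iff.2 fun v _ => hτ0 v
  have hsc : ∀ f, dt x k f * ∏ u ∈ S, τ (f u) = dt X k f * ∏ v, τ v := fun f => by
    rw [hxe]
    exact dt_scale X τ k f
  by_cases hcase : ∃ f, dt X k f ≠ 0 ∧ ∃ u₀ ∈ S, f u₀ = 0
  swap
  · exfalso
    obtain ⟨f, hf⟩ := exists_dt_ne X hX k
    have h1 := dvd_cramer X τ _ hdvd k f 0
    rw [sum_eq_zero, sub_zero] at h1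
    · have h2 : (2 : ℤ) ^ B ∣ dt X k f := by
        refine (hcop B (α 0)).dvd_of_dvd_mul_right ?_
        simpa [hτ, hβ0] using h1
      have h3 : ((2 : ℤ) ^ B : ℤ) ≤ |dt X k f| :=
        Int.le_of_dvd (abs_pos.2 hf) ((dvd_abs _ _).2 h2)
      have h4 : (2 : ℝ) ^ B ≤ |(dt X k f : ℝ)| := by exact_mod_cast h3
      have h5 : |(dt X k f : ℝ)| ≤ (n + 1).factorial * P * 2 ^ E :=
        (le_mul_of_one_le_right (abs_nonneg _) (one_le_prod fun u _ => hA1 _)).trans (hle f)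
      have h6 : ((n + 1).factorial : ℝ) * P < 2 ^ G :=
        (le_mul_of_one_le_left hFP hHn).trans_lt hbig
      have h7 : (2 : ℝ) ^ G * 2 ^ E ≤ 2 ^ B := by
        rw [← pow_add]
        exact pow_le_pow_right₀ one_le_two (by omega)
      have h8 : ((n + 1).factorial : ℝ) * P * 2 ^ E < 2 ^ G * 2 ^ E := by gcongr
      linarith
    · intro u hu
      have : dt X k (Function.update f u 0) = 0 := by
        by_contra hne'
        exact hcase ⟨_, hne', u, hu, Function.update_self ..⟩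
      rw [this, zero_mul]
  obtain ⟨f, hf, u₀, hu₀, hf0⟩ := hcase
  have hq : |(dt X k f : ℝ)| ≤ (n + 1).factorial * P := by
    refine le_of_mul_le_mul_right (le_trans ?_ (hle f)) (pow_pos two_pos E)
    refine mul_le_mul_of_nonneg_left ?_ (abs_nonneg _)
    rw [← mul_prod_erase S _ hu₀, if_pos hf0]
    exact le_mul_of_one_le_right (by positivity) (one_le_prod fun u _ => hA1 _)
  obtain ⟨j, -, hj⟩ : ∃ j ∈ univ, s j * (dt X k f * τ j -
      ∑ u ∈ S, dt X k (Function.update f u j) * τ (f u)) ≠ 0 := by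
    refine exists_ne_zero_of_sum_ne_zero ?_
    rw [sum_cramer_eq X τ s k g hg hs f]
    exact mul_ne_zero hf hne
  have hZ := right_ne_zero_of_mul hj
  have hj0 : j ≠ 0 := by
    rintro rfl
    refine hZ ?_
    rw [sum_eq_single_of_mem u₀ hu₀, ← hf0, Function.update_eq_self, sub_self]
    intro u hu hne'
    rw [qht_dt_eq_zero X ((hmemS u).1 hu) ((hmemS u₀).1 hu₀) hne', zero_mul]
    rw [Function.update_self, Function.update_of_ne hne'.symm, hf0]
  have hdx : dt x k f ≠ 0 := fun h0 => by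
    have := hsc f
    rw [h0, zero_mul] at this
    exact mul_ne_zero hf hT this.symm
  set r : Fin (n + 1) → ℚ := fun u => (dt x k (Function.update f u j) : ℚ) / dt x k f with hr
  have hrq : ∀ u ∈ S, r u * (dt X k f * τ j : ℤ) =
      (dt X k (Function.update f u j) * τ (f u) : ℤ) := by
    intro u hu
    have e1 := hsc f
    have e2 := hsc (Function.update f u j)
    rw [← mul_prod_erase S _ hu] at e1 e2
    have e0 : ∏ u' ∈ S.erase u, τ (Function.update f u j u') = ∏ u' ∈ S.erase u, τ (f u') :=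
      prod_congr rfl fun u' hu' => by rw [Function.update_of_ne (ne_of_mem_erase hu')]
    rw [Function.update_self, e0] at e2
    have e3 : dt x k (Function.update f u j) * (dt X k f * τ j) =
        dt X k (Function.update f u j) * τ (f u) * dt x k f := by
      refine mul_right_cancel₀ hT ?_
      linear_combination (-dt x k (Function.update f u j) * τ j) * e1 + (dt x k f * τ (f u)) * e2
    have hdq : (dt x k f : ℚ) ≠ 0 := Int.cast_ne_zero.2 hdx
    simp only [hr]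
    rw [div_mul_eq_mul_div, div_eq_iff hdq]
    exact_mod_cast e3
  obtain ⟨u, hu, hbad⟩ : ∃ u ∈ S, H < |((r u).num : ℝ)| ∨ H < ((r u).den : ℝ) := by
    by_contra hcon
    push Not at hcon
    obtain ⟨δ, z, hδ, hz, hzle⟩ := exists_den S r hH hcon
    have e1 : δ * (dt X k f * τ j - ∑ u ∈ S, dt X k (Function.update f u j) * τ (f u)) =
        z * dt X k f * τ j := by
      have : ((δ * (dt X k f * τ j - ∑ u ∈ S, dt X k (Function.update f u j) * τ (f u)) : ℤ) : ℚ) =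
          ((z * dt X k f * τ j : ℤ) : ℚ) := by
        rw [Int.cast_mul, Int.cast_sub, Int.cast_sum, ← sum_congr rfl hrq, ← sum_mul, mul_assoc,
          Int.cast_mul z, ← hz]
        ring
      exact_mod_cast this
    have e2 : (2 : ℤ) ^ B ∣ z * dt X k f * τ j := e1 ▸ (dvd_cramer X τ _ hdvd k f j).mul_left δ
    have e3 : (2 : ℤ) ^ G ∣ z * dt X k f := by
      refine (hcop G (α j)).dvd_of_dvd_mul_right ?_
      refine (mul_dvd_mul_iff_right (pow_ne_zero (β j) (two_ne_zero (α := ℤ)))).1 ?_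
      rw [← pow_add, mul_assoc]
      exact (pow_dvd_pow 2 (by have := hβ j hj0; omega)).trans e2
    have e4 : z * dt X k f ≠ 0 := left_ne_zero_of_mul (e1 ▸ mul_ne_zero hδ hZ)
    have e5 : ((2 : ℤ) ^ G : ℤ) ≤ |z * dt X k f| :=
      Int.le_of_dvd (abs_pos.2 e4) ((dvd_abs _ _).2 e3)
    have e6 : (2 : ℝ) ^ G ≤ |(z : ℝ)| * |(dt X k f : ℝ)| := by
      rw [← abs_mul]
      exact_mod_cast e5
    have hc : S.card ≤ n + 1 := by simpa using card_le_univ S
    have hc' : (S.card : ℝ) ≤ n + 1 := by exact_mod_cast hc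
    have e7 : |(z : ℝ)| ≤ (n + 2) * H ^ (n + 1) :=
      hzle.trans (mul_le_mul (by linarith) (pow_le_pow_right₀ hH hc) (by positivity)
        (by positivity))
    have e8 := mul_le_mul e7 hq (abs_nonneg _) (by positivity)
    linarith
  rcases qht_rat hH hbad with ⟨h1, h2⟩ | ⟨h0, h1, h2⟩
  · exact ⟨f, u, j, (hmemS u).1 hu, hdx, h1, h2⟩
  · have e : (r u)⁻¹ = (dt x k (Function.update (Function.update f u j) u (f u)) : ℚ) /
        dt x k (Function.update f u j) := by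
      rw [Function.update_idem, Function.update_eq_self, hr, inv_div]
    refine ⟨Function.update f u j, u, f u, (hmemS u).1 hu, fun h3 => h0 ?_, e ▸ h1, e ▸ h2⟩
    simp only [hr]
    rw [h3, Int.cast_zero, zero_div]

end Pool.Agent.Lib.MP_dee342_nt.Q
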