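import Pool.Agent.Lib.MP_dee342_nt.PieceDefs

/-! Descents and periodic pieces. -/

namespace Pool.Agent.Lib.MP_dee342_nt

/-- The number of descents along one minimal period: an odd element followed by an even one. -/
noncomputable def descents (a x : ℤ) : ℕ :=
  ((Finset.range (Function.minimalPeriod (T a) x)).filter
    fun i => par a x i = 1 ∧ par a x (i + 1) = 0).card

/-- The parity word of `x` on the positions `s ≤ i < e` has a period `v ≥ 1` with
`v ≤ p ^ (1 - ε)` or `v * log p ≤ e - s`. -/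
def PowPiece (a x : ℤ) (ε : ℝ) (p s e : ℕ) : Prop :=
  ∃ v : ℕ, 1 ≤ v ∧ (∀ i, s ≤ i → i + v < e → par a x (i + v) = par a x i) ∧
    ((v : ℝ) ≤ (p : ℝ) ^ (1 - ε) ∨ (v : ℝ) * Real.log p ≤ (e - s : ℕ))

end Pool.Agent.Lib.MP_dee342_nt
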