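import Pool.Agent.Lib.MP_dee342_nt.QCore
import Pool.Agent.Lib.MP_dee342_nt.QAsym
import Pool.Agent.Lib.MP_dee342_nt.QStat
import Pool.Agent.Lib.MP_dee342_nt.MinBound

/-! Cycles have many pieces and many descents. -/

namespace Pool.Agent.Lib.MP_dee342_nt.Q

open Finset Function

theorem many_pieces (a : ℕ) (ha : Odd a) (ha3 : 3 ≤ a) (ε : ℝ) (hε : 0 < ε) :
    ∃ C : ℝ, ∀ x ∈ periodicPts (T a), (∀ i, |x| ≤ |(T a)^[i] x|) →
      ∀ (m : ℕ) (t : ℕ → ℕ), Monotone t → t 0 = 0 → t m = minimalPeriod (T a) x →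
        (∀ j < m, PowPiece a x ε (minimalPeriod (T a) x) (t j) (t (j + 1))) →
        Real.log (minimalPeriod (T a) x) ≤ C * (m : ℝ) ^ (28 / 29 : ℝ) := by
  obtain ⟨C, -, hC⟩ := min_bound a ha ha3
  obtain ⟨K, hK⟩ := exists_params a ha3 C (lt_min hε one_pos) (min_le_right ε 1)
  refine ⟨K, fun x hx hmin m t ht ht0 htm hp => ?_⟩
  by_contra hcon
  have hp0 := minimalPeriod_pos_of_mem_periodicPts hx
  have hm : 1 ≤ m := by
    rcases Nat.eq_zero_or_pos m with rfl | h
    · omega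
    · exact h
  obtain ⟨R, r, Z, h1, h2, h3, h4, h5, h6, h7, h8⟩ := hK _ m hm (not_le.1 hcon)
  have hR : 10 ^ 7 ≤ R := le_trans (Nat.le_mul_of_pos_right _ (by positivity)) h1
  obtain ⟨i, -, hi⟩ := hC x _ hp0 iterate_minimalPeriod
  have hxZ : |x| + 1 ≤ 2 ^ Z := by
    have h9 : |(x : ℝ)| ≤ |(((T a)^[i] x : ℤ) : ℝ)| := by exact_mod_cast hmin i
    have h10 : |(x : ℝ)| + 1 ≤ 2 ^ Z := by linarith
    exact_mod_cast h10
  refine absurd (period_le a ha ha3 h1 h2 h3 (om_le hR) h4 hx hxZ ht ht0 htm fun j hj => ?_)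
    (not_le.2 h8)
  obtain ⟨v, hv, hper, halt⟩ := hp j hj
  refine ⟨v, hv, hper, halt.imp (fun h => h6 v (h.trans ?x1)) fun h => ?x2⟩
  case x1 =>
    have h9 : (1 : ℝ) ≤ minimalPeriod (T a) x := by exact_mod_cast hp0
    exact Real.rpow_le_rpow_of_exponent_le h9 (by linarith [min_le_left ε 1])
  case x2 =>
    have h9 : (v : ℝ) * ((16 * a * R ^ 4 : ℕ) : ℝ) ≤ ((t (j + 1) - t j : ℕ) : ℝ) :=
      (mul_le_mul_of_nonneg_left h7 (Nat.cast_nonneg v)).trans h
    exact_mod_cast h9

theorem QMain_shift (g : ℕ → ℤ) (p : ℕ) (h : ∀ i, g (i + p) = g i) (s : ℕ) :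
    ∑ i ∈ range p, g (s + i) = ∑ i ∈ range p, g i := by
  induction s with
  | zero => simp
  | succ s ih =>
    have h1 := sum_range_succ (fun i => g (s + i)) p
    have h2 := sum_range_succ' (fun i => g (s + i)) p
    have h3 : ∑ i ∈ range p, g (s + 1 + i) = ∑ i ∈ range p, g (s + (i + 1)) :=
      sum_congr rfl fun i _ => by rw [add_assoc, add_comm 1 i]
    rw [h s] at h1
    rw [add_zero] at h2
    linarith

theorem QMain_changes (π : ℕ → ℤ) (p : ℕ) (h01 : ∀ i, π i = 0 ∨ π i = 1)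
    (h : ∀ i, π (i + p) = π i) (s : ℕ) :
    ((range p).filter fun i => π (s + (i + 1)) ≠ π (s + i)).card =
      2 * ((range p).filter fun i => π i = 1 ∧ π (i + 1) = 0).card := by
  have h1 := QMain_shift (fun i => if π i = 1 ∧ π (i + 1) = 0 then 1 else 0) p (fun i => by
    rw [add_right_comm, h i, h (i + 1)]) s
  have h2 := sum_range_sub (fun i => π (s + i)) p
  rw [h s, add_zero, sub_self] at h2
  zify
  rw [card_filter, card_filter]
  push_cast
  rw [← h1]
  refine Eq.trans ?_ ((congrArg (· + _) h2).trans (zero_add _))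
  rw [mul_sum, ← sum_add_distrib]
  refine sum_congr rfl fun i _ => ?_
  rw [add_assoc s i 1]
  rcases h01 (s + i) with e | e <;> rcases h01 (s + (i + 1)) with e' | e' <;> simp [e, e']


/-- Let `p` be the minimal period and `x' = T^[i₀] x` an element of least absolute value
(`Finset.exists_min_image` on `range p`, `iterate_mod_minimalPeriod_eq`); it has the same minimal
period and the same number of descents (`par_shift`, `Nat.filter_Ico_card_eq_of_periodic` or a
telescoping sum). Since `∑ i ∈ range p, (par (i+1) - par i) = 0` and `par ∈ {0, 1}`, the number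
of parity changes is twice the number of descents. `cov_of_changes` with `V = 1`. -/
theorem cover_of_descents (a : ℕ) {x : ℤ} (hx : x ∈ periodicPts (T a)) :
    ∃ x' ∈ periodicPts (T a), minimalPeriod (T a) x' = minimalPeriod (T a) x ∧
      (∀ i, |x'| ≤ |(T a)^[i] x'|) ∧
      Cov (par a x') 1 0 (minimalPeriod (T a) x) (2 * descents a x + 1) := by
  have hp := minimalPeriod_pos_of_mem_periodicPts hx
  obtain ⟨s, -, hs⟩ := exists_min_image (range (minimalPeriod (T a) x))
    (fun i => |(T a)^[i] x|) (nonempty_range_iff.2 hp.ne')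
  refine ⟨(T a)^[s] x, mk_mem_periodicPts hp ((isPeriodicPt_minimalPeriod _ x).apply_iterate s),
    minimalPeriod_apply_iterate hx s, fun i => ?_, ?_⟩
  · rw [← iterate_add_apply, ← iterate_mod_minimalPeriod_eq (n := i + s)]
    exact hs _ (mem_range.2 (Nat.mod_lt _ hp))
  · refine cov_of_changes le_rfl _ _ 0 (Nat.zero_le _) ?_
    rw [descents, ← QMain_changes (par a x) _ (fun i => Int.emod_two_eq_zero_or_one _)
      (fun i => by rw [par, par, iterate_add_apply, iterate_minimalPeriod]) s]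
    refine card_le_card fun i hi => ?_
    rw [mem_filter, par_shift, par_shift] at hi
    exact mem_filter.2 ⟨mem_range.2 (mem_Ico.1 hi.1).2, hi.2.2⟩

/-- The special case of parity runs. -/
theorem many_descents (a : ℕ) (ha : Odd a) (ha3 : 3 ≤ a) :
    ∃ C : ℝ, ∀ x ∈ periodicPts (T a), Real.log (minimalPeriod (T a) x) ≤
      C * ((2 * descents a x + 1 : ℕ) : ℝ) ^ (28 / 29 : ℝ) := by
  obtain ⟨C, hC⟩ := many_pieces a ha ha3 1 one_pos
  refine ⟨C, fun x hx => ?_⟩
  obtain ⟨x', hx', hp, hmin, t, ht, ht0, htm, hc⟩ := cover_of_descents a hx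
  rw [← hp]
  refine hC x' hx' hmin _ t ht ht0 (htm.trans hp.symm) fun j hj => ?_
  obtain ⟨v, hv, hv1, hper⟩ := hc j hj
  obtain rfl : v = 1 := le_antisymm hv1 hv
  exact ⟨1, le_rfl, hper, Or.inl (by simp)⟩

end Pool.Agent.Lib.MP_dee342_nt.Q
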