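import Pool.Agent.Lib.MP_dee342_nt.QDefs

/-! Estimates for the parametrisation. -/

namespace Pool.Agent.Lib.MP_dee342_nt.Q

open MvPolynomial Finset Pool.Agent.Lib.Common.Subspace Pool.Agent.Lib.Common.ZeroLemma

variable {ι : Type*} {n : ℕ}

/-- As `abv_det_le` and `nrm_det_le`. -/
theorem nrm_det_le' {σ κ : Type*} [Fintype κ] [DecidableEq κ] {v : AbsoluteValue ℚ ℝ}
    {ρ : σ → ℝ} (hρ : ∀ s, 0 ≤ ρ s) (A : Matrix κ κ (MvPolynomial σ ℚ)) (r c : κ → ℝ)
    (h : ∀ i j, nrm v ρ (A i j) ≤ r i * c j) :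
    nrm v ρ A.det ≤ (Fintype.card κ).factorial * ((∏ i, r i) * ∏ j, c j) := by
  rw [Matrix.det_apply]
  refine (nrm_sum_le hρ _ _).trans ?_
  have h1 : ∀ g : Equiv.Perm κ,
      nrm v ρ (Equiv.Perm.sign g • ∏ i, A (g i) i) ≤ (∏ i, r i) * ∏ j, c j := by
    intro g
    have h2 : nrm v ρ (Equiv.Perm.sign g • ∏ i, A (g i) i) = nrm v ρ (∏ i, A (g i) i) := by
      rcases Int.units_eq_one_or (Equiv.Perm.sign g) with h | h <;> simp [h, nrm_neg]
    rw [h2]
    refine (nrm_prod_le hρ _ _).trans ?_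
    refine (Finset.prod_le_prod (fun i _ => nrm_nonneg hρ _) (fun i _ => h (g i) i)).trans ?_
    rw [Finset.prod_mul_distrib, Equiv.prod_comp g r]
  refine (Finset.sum_le_sum fun g _ => h1 g).trans ?_
  simp [Fintype.card_perm]

theorem parX_X (x : ι → Matrix (Fin n) (Fin n) ℤ) (k : ι → ℕ) (l : ι → Fin n) (s : Var ι n) :
    parX x k l (X s) = ∑ v, C (x s.1.1 v s.2 : ℚ) * par2 k l (X (s.1, v)) := by
  rw [parX, AlgHom.comp_apply, lin_X, map_sum]
  refine Finset.sum_congr rfl fun v _ => ?_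
  rw [map_mul, algHom_C]
  rfl

theorem qphi_abs (z : ℤ) : Rat.AbsoluteValue.real (z : ℚ) = |(z : ℝ)| := by
  simp [Rat.AbsoluteValue.real_eq_abs]

theorem qphi_sum {σ : Type*} {v : AbsoluteValue ℚ ℝ} {ρ : σ → ℝ} (hρ : ∀ s, 0 ≤ ρ s)
    (S : Finset (Fin n)) (f : Fin n → MvPolynomial σ ℚ) {b : ℝ} (hb : 0 ≤ b)
    (h : ∀ i, nrm v ρ (f i) ≤ b) : nrm v ρ (∑ i ∈ S, f i) ≤ n * b := by
  refine (nrm_sum_le hρ _ _).trans ((Finset.sum_le_card_nsmul _ _ _ fun i _ => h i).trans ?_)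
  rw [nsmul_eq_mul]
  refine mul_le_mul_of_nonneg_right ?_ hb
  exact_mod_cast (Finset.card_le_univ S).trans (Fintype.card_fin n).le

theorem qphi_X (k : ι → ℕ) (l : ι → Fin n) (s : Var ι n) :
    par2 k l (X s) = X (Sum.inl s) + if s.1.2 = l s.1.1 then
      ∑ u ∈ univ.erase (l s.1.1), X (Sum.inr (s.1.1, u)) *
        (if k s.1.1 ≤ (u : ℕ) then X (Sum.inl ((s.1.1, u), s.2)) else if u = s.2 then 1 else 0)
      else 0 := aeval_X _ _

theorem qphi_par2 (k : ι → ℕ) (l : ι → Fin n) (g : ι → ℝ) (hg : ∀ h, 0 ≤ g h) (s : Var ι n) :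
    nrm Rat.AbsoluteValue.real (fun t => Real.exp (-wt2 l g t)) (par2 k l (X s)) ≤ 1 + n := by
  have hρ : ∀ t, 0 ≤ Real.exp (-wt2 l g t) := fun t => (Real.exp_pos _).le
  have h1 : ∀ t, nrm Rat.AbsoluteValue.real (fun t => Real.exp (-wt2 l g t)) (X t) ≤ 1 :=
    fun t => by
      rw [nrm_X, Real.exp_le_one_iff, neg_nonpos]
      rcases t with t | t
      · simp only [wt2]
        split_ifs
        exacts [hg _, le_rfl]
      · exact le_rfl
  rw [qphi_X]
  refine (nrm_add_le hρ _ _).trans (add_le_add (h1 _) ?_)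
  split_ifs
  · refine (qphi_sum hρ _ _ zero_le_one fun u => (nrm_mul_le hρ _ _).trans ?_).trans
      (mul_one _).le
    refine mul_le_one₀ (h1 _) (nrm_nonneg hρ _) ?_
    split_ifs
    · exact h1 _
    · exact nrm_one.le
    · exact nrm_zero.le.trans zero_le_one
  · exact nrm_zero.le.trans (Nat.cast_nonneg n)

theorem qphi_int (k : ι → ℕ) (l : ι → Fin n) (s : Var ι n) : IsInt (par2 k l (X s)) := by
  rw [qphi_X]
  refine (isInt_X _).add ?_
  split_ifs
  · refine isInt_sum _ _ fun u _ => (isInt_X _).mul ?_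
    split_ifs
    exacts [isInt_X _, isInt_one, isInt_zero]
  · exact isInt_zero

theorem qphi_row (x : ι → Matrix (Fin n) (Fin n) ℤ) (k : ι → ℕ) (l : ι → Fin n) (h : ι)
    (c : Fin n) : parX x k l (X ((h, l h), c)) =
      (∑ t, C (x h t c : ℚ) * X (Sum.inl ((h, l h), t)) + ∑ u ∈ univ.erase (l h),
        if k h ≤ (u : ℕ) then 0 else C (x h u c : ℚ) * X (Sum.inr (h, u))) +
      ∑ u ∈ univ.erase (l h), (if k h ≤ (u : ℕ) then X (Sum.inr (h, u)) else 0) *
        parX x k l (X ((h, u), c)) := by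
  rw [parX_X, add_assoc, ← Finset.sum_add_distrib]
  simp only [qphi_X, if_true, mul_add, Finset.sum_add_distrib (s := univ), Finset.mul_sum]
  rw [Finset.sum_comm (s := univ)]
  congr 1
  refine Finset.sum_congr rfl fun u hu => ?_
  by_cases hk : k h ≤ (u : ℕ)
  · simp only [parX_X, qphi_X, if_pos hk, if_neg (Finset.ne_of_mem_erase hu), add_zero, zero_add,
      Finset.mul_sum]
    exact Finset.sum_congr rfl fun t _ => by ring
  · simp [if_neg hk]

theorem qphi_det (x : ι → Matrix (Fin n) (Fin n) ℤ) (k : ι → ℕ) (l : ι → Fin n)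
    (π : ι → Equiv.Perm (Fin n)) (h : ι) (hkl : k h ≤ (l h : ℕ)) :
    parX x k l (detP k π h) = ((Matrix.of fun u v : Fin n =>
      if k h ≤ (u : ℕ) ∧ k h ≤ (v : ℕ) then parX x k l (X ((h, u), π h v))
        else if u = v then 1 else 0).updateRow (l h) fun v => if k h ≤ (v : ℕ) then
      ∑ t, C (x h t (π h v) : ℚ) * X (Sum.inl ((h, l h), t)) + ∑ u ∈ univ.erase (l h),
        if k h ≤ (u : ℕ) then 0 else C (x h u (π h v) : ℚ) * X (Sum.inr (h, u)) else 0).det := by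
  rw [detP, AlgHom.map_det, ← one_smul (MvPolynomial (Var ι n ⊕ (ι × Fin n)) ℚ) (Matrix.det
    (Matrix.updateRow _ _ _)), ← Matrix.det_updateRow_sum_aux _ (univ.erase (l h))
    (Finset.notMem_erase _ _) fun u => if k h ≤ (u : ℕ) then X (Sum.inr (h, u)) else 0]
  refine congrArg Matrix.det (Matrix.ext fun u v => ?_)
  rw [AlgHom.mapMatrix_apply, Matrix.map_apply, Matrix.of_apply]
  by_cases hu : u = l h
  · rw [hu, Matrix.updateRow_self, Matrix.updateRow_self, one_smul, Pi.add_apply, Finset.sum_apply]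
    by_cases hv : k h ≤ (v : ℕ)
    · rw [if_pos ⟨hkl, hv⟩, if_pos hv, qphi_row]
      refine congrArg₂ (· + ·) rfl (Finset.sum_congr rfl fun t ht => ?_)
      rw [Pi.smul_apply, Matrix.updateRow_ne (Finset.ne_of_mem_erase ht), Matrix.of_apply,
        smul_eq_mul]
      by_cases hk : k h ≤ (t : ℕ)
      · rw [if_pos (show k h ≤ (t : ℕ) ∧ k h ≤ (v : ℕ) from ⟨hk, hv⟩)]
      · rw [if_neg hk, zero_mul, zero_mul]
    · rw [if_neg fun h1 => hv h1.2, if_neg fun h1 : l h = v => hv (h1 ▸ hkl), if_neg hv, map_zero,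
        zero_add]
      refine (Finset.sum_eq_zero fun t ht => ?_).symm
      rw [Pi.smul_apply, Matrix.updateRow_ne (Finset.ne_of_mem_erase ht), Matrix.of_apply,
        smul_eq_mul]
      by_cases hk : k h ≤ (t : ℕ)
      · rw [if_neg fun h1 : k h ≤ (t : ℕ) ∧ k h ≤ (v : ℕ) => hv h1.2,
          if_neg fun h1 : t = v => hv (h1 ▸ hk), mul_zero]
      · rw [if_neg hk, zero_mul]
  · rw [Matrix.updateRow_ne hu, Matrix.updateRow_ne hu, Matrix.of_apply]
    split_ifs <;> simp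

/-- All radii are at most `1`, so `par2 k l (X _)` has norm at most `1 + n`. -/
theorem nrm_parX_X (x : ι → Matrix (Fin n) (Fin n) ℤ) (k : ι → ℕ) (l : ι → Fin n) (g : ι → ℝ)
    (hg : ∀ h, 0 ≤ g h) (w : ι → Fin n → ℝ) (c : ℝ)
    (hx : ∀ h u v, |(x h u v : ℝ)| ≤ Real.exp (c + w h v)) (s : Var ι n) :
    nrm Rat.AbsoluteValue.real (fun t => Real.exp (-wt2 l g t)) (parX x k l (X s)) ≤
      2 * n ^ 2 * Real.exp c * Real.exp (w s.1.1 s.2) := by
  have hρ : ∀ t, 0 ≤ Real.exp (-wt2 l g t) := fun t => (Real.exp_pos _).le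
  have hn : (1 : ℝ) ≤ n := by exact_mod_cast s.2.pos
  rw [parX_X]
  refine (nrm_sum_le hρ _ _).trans ?_
  refine (Finset.sum_le_sum (g := fun _ => Real.exp (c + w s.1.1 s.2) * (1 + n))
    fun v _ => ?_).trans ?_
  · rw [nrm_C_mul, qphi_abs]
    exact mul_le_mul (hx _ _ _) (qphi_par2 k l g hg _) (nrm_nonneg hρ _) (Real.exp_pos _).le
  · rw [Finset.sum_const, card_univ, Fintype.card_fin, nsmul_eq_mul, Real.exp_add]
    have h1 : 0 ≤ Real.exp c * Real.exp (w s.1.1 s.2) := by positivity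
    have h2 : (n : ℝ) * (1 + n) ≤ 2 * n ^ 2 := by nlinarith
    calc (n : ℝ) * (Real.exp c * Real.exp (w s.1.1 s.2) * (1 + n))
        = n * (1 + n) * (Real.exp c * Real.exp (w s.1.1 s.2)) := by ring
      _ ≤ 2 * n ^ 2 * (Real.exp c * Real.exp (w s.1.1 s.2)) := mul_le_mul_of_nonneg_right h2 h1
      _ = _ := by ring

/-- `AlgHom.map_det`. Row `l h` of the mapped matrix is
`∑ u ≥ k, u ≠ l, X (inr (h, u)) • (row u) + r` where, for `k ≤ v`,
`r v = ∑ u, C (x u (π v)) * X (inl ((h, l), u)) + ∑ u < k, C (x u (π v)) * X (inr (h, u))`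
and `r v = 0` for `v < k`. So the determinant equals the one with row `l h` replaced by `r`
(`Matrix.det_updateRow_add`, `Matrix.det_updateRow_sum` or `det_updateRow_add_smul_self`).
Apply `nrm_det_le'` with column factors `exp (w (π v))`, row factors `exp (-w (π u))` for
`u < k`, `2 n ^ 2 exp c` for `k ≤ u ≠ l`, and `2 n exp c exp (-g)` for `u = l`; `n! ≤ n ^ n`. -/
theorem nrm_parX_det (x : ι → Matrix (Fin n) (Fin n) ℤ) (k : ι → ℕ) (l : ι → Fin n)
    (hkl : ∀ h, k h ≤ (l h : ℕ)) (π : ι → Equiv.Perm (Fin n)) (g : ι → ℝ) (hg : ∀ h, 0 ≤ g h)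
    (w : ι → Fin n → ℝ) (c : ℝ) (hc : 0 ≤ c)
    (hx : ∀ h u v, |(x h u v : ℝ)| ≤ Real.exp (c + w h v))
    (hx' : ∀ h (u v : Fin n), (u : ℕ) < k h → k h ≤ (v : ℕ) →
      |(x h u (π h v) : ℝ)| ≤ Real.exp (c + w h (π h v) - g h)) (h : ι) :
    nrm Rat.AbsoluteValue.real (fun t => Real.exp (-wt2 l g t)) (parX x k l (detP k π h)) ≤
      (2 * n ^ 3 * Real.exp c) ^ n *
        Real.exp (∑ v ∈ univ.filter (fun v : Fin n => k h ≤ (v : ℕ)), w h (π h v) - g h) := by
  have hρ : ∀ t, 0 ≤ Real.exp (-wt2 l g t) := fun t => (Real.exp_pos _).le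
  have hn : (1 : ℝ) ≤ n := by exact_mod_cast (l h).pos
  have hc1 : 1 ≤ Real.exp c := Real.one_le_exp hc
  have hM : 1 ≤ 2 * (n : ℝ) ^ 2 * Real.exp c := by nlinarith [one_le_pow₀ (n := 2) hn]
  rw [qphi_det x k l π h (hkl h)]
  refine (nrm_det_le' hρ _ (fun u : Fin n => 2 * n ^ 2 * Real.exp c *
    Real.exp (-(if k h ≤ (u : ℕ) then 0 else w h (π h u)) - if u = l h then g h else 0))
    (fun v : Fin n => Real.exp (w h (π h v))) fun u v => ?_).trans ?_
  · by_cases hu : u = l h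
    · rw [hu, Matrix.updateRow_self, if_pos (hkl h), if_pos rfl]
      split_ifs with hv
      · have h1 : ∀ t : Fin n, nrm Rat.AbsoluteValue.real (fun t => Real.exp (-wt2 l g t))
            (C (x h t (π h v) : ℚ) * X (Sum.inl ((h, l h), t))) ≤
            Real.exp (c + w h (π h v) - g h) := fun t => by
          rw [nrm_C_mul, nrm_X, qphi_abs, sub_eq_add_neg, Real.exp_add _ (-g h)]
          simp only [wt2, if_true]
          exact mul_le_mul_of_nonneg_right (hx _ _ _) (Real.exp_pos _).le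
        have h2 : ∀ u : Fin n, nrm Rat.AbsoluteValue.real (fun t => Real.exp (-wt2 l g t))
            (if k h ≤ (u : ℕ) then 0 else C (x h u (π h v) : ℚ) * X (Sum.inr (h, u))) ≤
            Real.exp (c + w h (π h v) - g h) := fun u => by
          split_ifs with hu'
          · rw [nrm_zero]
            exact (Real.exp_pos _).le
          · rw [nrm_C_mul, nrm_X, qphi_abs]
            simpa [wt2] using hx' h u v (not_le.1 hu') hv
        refine (nrm_add_le hρ _ _).trans ((add_le_add (qphi_sum hρ _ _ (Real.exp_pos _).le h1)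
          (qphi_sum hρ _ _ (Real.exp_pos _).le h2)).trans ?_)
        rw [neg_zero, zero_sub, sub_eq_add_neg, Real.exp_add, Real.exp_add]
        have h3 : 0 ≤ Real.exp c * Real.exp (w h (π h v)) * Real.exp (-g h) := by positivity
        have h4 : (n : ℝ) ≤ n ^ 2 := by nlinarith
        nlinarith [mul_le_mul_of_nonneg_right h4 h3]
      · rw [nrm_zero]
        positivity
    · rw [Matrix.updateRow_ne hu, if_neg hu, Matrix.of_apply, sub_zero]
      by_cases hk : k h ≤ (u : ℕ)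
      · rw [if_pos hk, neg_zero, Real.exp_zero, mul_one]
        split_ifs with h1 h2
        · exact nrm_parX_X x k l g hg w c hx ((h, u), π h v)
        · exact absurd ⟨hk, h2 ▸ hk⟩ h1
        · rw [nrm_zero]
          positivity
      · rw [if_neg hk, if_neg fun h1 => hk h1.1]
        split_ifs with h2
        · rw [nrm_one, h2, mul_assoc, ← Real.exp_add, neg_add_cancel, Real.exp_zero, mul_one]
          exact hM
        · rw [nrm_zero]
          positivity
  · rw [Finset.prod_mul_distrib, Finset.prod_const, card_univ, Fintype.card_fin, ← Real.exp_sum,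
      ← Real.exp_sum, mul_assoc, ← Real.exp_add, ← mul_assoc]
    refine mul_le_mul ?_ (le_of_eq (congrArg Real.exp ?_)) (Real.exp_pos _).le (by positivity)
    · rw [show 2 * (n : ℝ) ^ 3 * Real.exp c = n * (2 * n ^ 2 * Real.exp c) by ring, mul_pow (n : ℝ)]
      refine mul_le_mul_of_nonneg_right ?_ (by positivity)
      exact_mod_cast Nat.factorial_le_pow n
    · rw [Finset.sum_sub_distrib, Finset.sum_ite_eq' univ (l h), if_pos (mem_univ _),
        Finset.sum_filter, sub_add_eq_add_sub, ← Finset.sum_add_distrib]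
      congr 1
      refine Finset.sum_congr rfl fun u _ => ?_
      split_ifs <;> ring

/-- Every monomial `X ^ ν` is mapped to `b ^ (weight ν)` times an integer polynomial. -/
theorem dvd_aeval {σ τ : Type*} {P : MvPolynomial σ ℚ} (hP : IsInt P) (b : ℕ) (e : σ → ℕ)
    (E : ℕ) (hE : ∀ ν ∈ P.support, E ≤ Finsupp.weight e ν) (f : σ → MvPolynomial τ ℚ)
    (hf : ∀ s, ∃ f', IsInt f' ∧ f s = C ((b : ℚ) ^ e s) * f') :
    ∃ Q, IsInt Q ∧ aeval f P = C ((b : ℚ) ^ E) * Q := by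
  choose f' hf' hf using hf
  refine ⟨∑ ν ∈ P.support, C (coeff ν P) * (C ((b ^ (Finsupp.weight e ν - E) : ℤ) : ℚ) *
    ∏ s ∈ ν.support, f' s ^ ν s), isInt_sum _ _ fun ν _ => ?_, ?_⟩
  · obtain ⟨z, hz⟩ := hP ν
    rw [hz]
    refine (isInt_C z).mul ((isInt_C _).mul (isInt_prod _ _ fun s _ => ?_))
    exact (norm_isInt_iff _).2 (Subring.pow_mem _ ((norm_isInt_iff _).1 (hf' s)) _)
  · conv_lhs => rw [P.as_sum, map_sum]
    rw [Finset.mul_sum]
    refine Finset.sum_congr rfl fun ν hν => ?_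
    have h1 : ∏ s ∈ ν.support, (C ((b : ℚ) ^ e s) : MvPolynomial τ ℚ) ^ ν s =
        C ((b : ℚ) ^ E) * C ((b ^ (Finsupp.weight e ν - E) : ℤ) : ℚ) := by
      push_cast
      rw [← map_mul, ← pow_add, Nat.add_sub_cancel' (hE ν hν), Finsupp.weight_apply, Finsupp.sum,
        ← Finset.prod_pow_eq_pow_sum, map_prod]
      refine Finset.prod_congr rfl fun s _ => ?_
      rw [← map_pow, ← pow_mul, smul_eq_mul, mul_comm]
    rw [aeval_monomial, algebraMap_eq, Finsupp.prod]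
    simp only [hf, mul_pow, Finset.prod_mul_distrib, h1]
    ring

/-- `lin xᵀ P = lin yᵀ (lin U P)` by `lin_lin`; apply `dvd_aeval` to `lin U P` (`IsInt.lin`) and
the substitution `par2 ∘ lin yᵀ`. -/
theorem dvd_parX (x y : ι → Matrix (Fin n) (Fin n) ℤ) (U : Matrix (Fin n) (Fin n) ℤ)
    (hy : ∀ h, U * (y h).transpose = (x h).transpose) (b : ℕ) (e : ι → Fin n → ℕ)
    (hdvd : ∀ h u v, (b : ℤ) ^ e h v ∣ y h u v) (k : ι → ℕ) (l : ι → Fin n)
    {P : MvPolynomial (Var ι n) ℚ} (hP : IsInt P) (E : ℕ)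
    (hE : ∀ ν ∈ (lin (fun _ => U.map (Int.cast : ℤ → ℚ)) P).support,
      E ≤ Finsupp.weight (fun s : Var ι n => e s.1.1 s.2) ν) (μ : Var ι n ⊕ (ι × Fin n) →₀ ℕ) :
    ∃ z : ℤ, coeff μ (parX x k l P) = (b : ℚ) ^ E * z := by
  have h1 : parX x k l P = parX y k l (lin (fun _ => U.map (Int.cast : ℤ → ℚ)) P) := by
    rw [parX, parX, AlgHom.comp_apply, AlgHom.comp_apply, lin_lin]
    refine congrArg (fun A => par2 k l (lin A P)) (funext fun s => ?_)
    rw [← hy s.1]
    exact Matrix.map_mul (f := Int.castRingHom ℚ)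
  obtain ⟨Q, hQ, h2⟩ := dvd_aeval (hP.lin fun _ => U) b (fun s : Var ι n => e s.1.1 s.2) E hE
    (fun s => parX y k l (X s)) fun s => by
      choose z hz using fun v => hdvd s.1.1 v s.2
      refine ⟨∑ v, C (z v : ℚ) * par2 k l (X (s.1, v)),
        isInt_sum _ _ fun v _ => (isInt_C _).mul (qphi_int k l _), ?_⟩
      rw [parX_X, Finset.mul_sum]
      refine Finset.sum_congr rfl fun v _ => ?_
      rw [hz v, ← mul_assoc, ← map_mul]
      push_cast
      rfl
  obtain ⟨z, hz⟩ := hQ μ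
  refine ⟨z, ?_⟩
  rw [h1, ← hz, ← coeff_C_mul, ← h2]
  exact congrArg (coeff μ) (DFunLike.congr_fun (aeval_unique (parX y k l)) _)

end Pool.Agent.Lib.MP_dee342_nt.Q
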