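import Pool.Agent.Lib.MP_dee342_nt.QDefs
import Pool.Agent.Lib.Common.Subspace.GenRoth

/-! From the parametrisation to one variable per block. -/

namespace Pool.Agent.Lib.MP_dee342_nt.Q

open MvPolynomial Finset Pool.Agent.Lib.Common.Subspace Pool.Agent.Lib.Common.ZeroLemma

variable {ι : Type*} {n : ℕ}

theorem QPsi_cramer {R : Type*} [CommRing R] (A : Matrix (Fin n) (Fin n) R) (l j v : Fin n)
    (w : Fin n → R) :
    ∑ u ∈ univ.erase l, ((A.updateRow l (Pi.single j 1)).updateRow u w).det * A u v =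
      (A.updateRow l (Pi.single j 1)).det * w v -
        (A.updateRow l w).det * (if v = j then 1 else 0) := by
  have h1 := congrFun (Matrix.mulVec_cramer (A.updateRow l (Pi.single j 1)).transpose w) v
  rw [Matrix.det_transpose, Pi.smul_apply, smul_eq_mul, Matrix.mulVec, dotProduct,
    ← Finset.add_sum_erase _ _ (mem_univ l)] at h1
  simp only [Matrix.cramer_transpose_apply, Matrix.transpose_apply, Matrix.updateRow_self,
    Matrix.updateRow_idem, Pi.single_apply] at h1
  rw [← h1, mul_comm (if v = j then (1 : R) else 0), add_sub_cancel_left]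
  refine Finset.sum_congr rfl fun u hu => ?_
  rw [Matrix.updateRow_ne (Finset.ne_of_mem_erase hu), mul_comm]

theorem QPsi_inv {R : Type*} [CommRing R] [Algebra ℚ R] (x y : Matrix (Fin n) (Fin n) ℚ)
    (hxy : y * x = 1) (z : Fin n → R) (v : Fin n) :
    ∑ l', algebraMap ℚ R (x l' v) * ∑ j', algebraMap ℚ R (y j' l') * z j' = z v := by
  simp only [Finset.mul_sum]
  rw [Finset.sum_comm]
  have h1 : ∀ j', ∑ l', algebraMap ℚ R (x l' v) * (algebraMap ℚ R (y j' l') * z j') =
      if j' = v then z j' else 0 := fun j' => by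
    have h2 := congrArg (algebraMap ℚ R) (congrFun (congrFun hxy j') v)
    rw [Matrix.mul_apply, map_sum, Matrix.one_apply] at h2
    have h3 : ∑ l', algebraMap ℚ R (x l' v) * (algebraMap ℚ R (y j' l') * z j') =
        (∑ l', algebraMap ℚ R (y j' l' * x l' v)) * z j' := by
      rw [Finset.sum_mul]
      exact Finset.sum_congr rfl fun l' _ => by rw [map_mul]; ring
    rw [h3, h2]
    split_ifs <;> simp
  simp [h1]

/-- Let `y h` be the inverse of `x h` over `ℚ`, `M h = (mixM x k h).updateRow (l h) (e (j h))`,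
`w h v = if v = j h then 0 else X ((h, l h), v)`. Define `Θ` on the target variables by
`inl ((h, u), v) ↦ ∑ j', C (y h j' v) * X ((h, u), j')` for `u ≠ l h`,
`inl ((h, l h), v) ↦ C (y h (j h) v) * X ((h, l h), j h)`,
`inr (h, u) ↦ ((M h).updateRow u (w h)).det`. Then `psi = Θ ∘ parX` on the variables, by Cramer's
rule `det M • w = ∑ u, det (M.updateRow u w) • M u` (`Matrix.mulVec_cramer`,
`Matrix.cramer_transpose_apply`; the term `u = l h` is `rest • e (j h)`), and `InFil.aeval`
applies. -/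
theorem inFil_psi (x : ι → Matrix (Fin n) (Fin n) ℤ) (hx : ∀ h, (x h).det ≠ 0) (k : ι → ℕ)
    (l j : ι → Fin n) (N : ι → ℝ) (hN : ∀ h, 0 ≤ N h) {D : ℝ} {P : MvPolynomial (Var ι n) ℚ}
    (h : InFil (wt2 l N) D (parX x k l P)) : InFil (wt1 l j N) D (psi x k l j P) := by
  classical
  let x' : ι → Matrix (Fin n) (Fin n) ℚ := fun h => (x h).map (Int.cast : ℤ → ℚ)
  have hinv : ∀ h, (x' h)⁻¹ * x' h = 1 := fun h => by
    refine Matrix.nonsing_inv_mul _ (isUnit_iff_ne_zero.mpr ?_)
    have h1 := (Int.castRingHom ℚ).map_det (x h)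
    change ((x h).det : ℚ) = (x' h).det at h1
    rw [← h1]
    exact_mod_cast hx h
  obtain ⟨y, hy⟩ : ∃ y : ι → Matrix (Fin n) (Fin n) ℚ, ∀ h, y h * x' h = 1 := ⟨_, hinv⟩
  obtain ⟨Δ, hΔ⟩ : ∃ Δ : ι → Fin n → MvPolynomial (Var ι n) ℚ, ∀ h v,
      ∑ u ∈ univ.erase (l h), Δ h u * mixM x k h u v =
        cof x k l j h * (if v = j h then 0 else X ((h, l h), v)) -
          rest x k l j h * (if v = j h then 1 else 0) :=
    ⟨fun h u => (((mixM x k h).updateRow (l h) (Pi.single (j h) 1)).updateRow u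
      fun v => if v = j h then 0 else X ((h, l h), v)).det, fun h v => by
        rw [cof, rest]
        exact QPsi_cramer (mixM x k h) (l h) (j h) v
          fun v => if v = j h then 0 else X ((h, l h), v)⟩
  obtain ⟨Θ, t1, t2, t3⟩ : ∃ Θ : Var ι n ⊕ (ι × Fin n) → MvPolynomial (Var ι n) ℚ,
      (∀ h v, Θ (Sum.inl ((h, l h), v)) = C (y h (j h) v) * X ((h, l h), j h)) ∧
      (∀ h u v, u ≠ l h → Θ (Sum.inl ((h, u), v)) = ∑ j', C (y h j' v) * X ((h, u), j')) ∧
      ∀ h u, Θ (Sum.inr (h, u)) = Δ h u :=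
    ⟨Sum.elim (fun s => if s.1.2 = l s.1.1 then C (y s.1.1 (j s.1.1) s.2) * X (s.1, j s.1.1)
        else ∑ j', C (y s.1.1 j' s.2) * X (s.1, j')) fun s => Δ s.1 s.2,
      fun h v => by rw [Sum.elim_inl, if_pos rfl], fun h u v hu => by rw [Sum.elim_inl, if_neg hu],
      fun _ _ => by rw [Sum.elim_inr]⟩
  have hw : ∀ s, 0 ≤ wt1 l j N s := fun s => by
    unfold wt1
    split_ifs
    exacts [hN _, le_rfl]
  have inv : ∀ h (z : Fin n → MvPolynomial (Var ι n) ℚ) v,
      ∑ l', C ((x h l' v : ℤ) : ℚ) * ∑ j', C (y h j' l') * z j' = z v := fun h z v =>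
    QPsi_inv (R := MvPolynomial (Var ι n) ℚ) (x' h) _ (hy h) z v
  have key : (aeval Θ).comp (parX x k l) = psi x k l j := by
    refine MvPolynomial.algHom_ext ?_
    rintro ⟨⟨h, u₀⟩, v⟩
    have e0 : aeval Θ (parX x k l (X ((h, u₀), v))) =
        ∑ l', C ((x h l' v : ℤ) : ℚ) * aeval Θ (par2 k l (X ((h, u₀), l'))) := by
      rw [parX, AlgHom.comp_apply, lin_X, map_sum, map_sum]
      refine Finset.sum_congr rfl fun l' _ => ?_
      rw [map_mul, map_mul, algHom_C, algebraMap_eq, algHom_C, algebraMap_eq]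
      rfl
    rw [AlgHom.comp_apply, e0, psi, aeval_X]
    by_cases hu : u₀ = l h
    · subst hu
      have e1 : ∀ l', aeval Θ (par2 k l (X ((h, l h), l'))) =
          ∑ j', C (y h j' l') * (if j' = j h then X ((h, l h), j') else 0) +
          ∑ u ∈ univ.erase (l h), Δ h u * (if k h ≤ (u : ℕ) then
            ∑ j', C (y h j' l') * X ((h, u), j') else if u = l' then 1 else 0) := by
        intro l'
        rw [par2, aeval_X, if_pos rfl, map_add, aeval_X, t1, map_sum]
        congr 1
        · simp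
        · refine Finset.sum_congr rfl fun u hu => ?_
          rw [map_mul, aeval_X, t3]
          congr 1
          split_ifs
          · rw [aeval_X, t2 _ _ _ (Finset.ne_of_mem_erase hu)]
          · exact map_one _
          · exact map_zero _
      have e2 : ∀ u, ∑ l', C ((x h l' v : ℤ) : ℚ) * (Δ h u * (if k h ≤ (u : ℕ) then
            ∑ j', C (y h j' l') * X ((h, u), j') else if u = l' then 1 else 0)) =
          Δ h u * mixM x k h u v := by
        intro u
        rw [Finset.sum_congr rfl fun l' _ => mul_left_comm _ _ _, ← Finset.mul_sum, mixM,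
          Matrix.of_apply]
        congr 1
        split_ifs with h1
        · exact inv h (fun j' => X ((h, u), j')) v
        · simp
      rw [Finset.sum_congr rfl fun l' _ => by rw [e1, mul_add, Finset.mul_sum (univ.erase (l h))],
        Finset.sum_add_distrib, inv, Finset.sum_comm, Finset.sum_congr rfl fun u _ => e2 u, hΔ,
        if_pos rfl]
      dsimp only
      split_ifs <;> ring
    · rw [if_neg hu, ← inv h (fun j' => X ((h, u₀), j')) v]
      refine Finset.sum_congr rfl fun l' _ => ?_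
      rw [par2, aeval_X, if_neg hu, add_zero, aeval_X, t2 _ _ _ hu]
  rw [← key, AlgHom.comp_apply]
  refine h.aeval ?_
  rintro (⟨⟨h, u⟩, v⟩ | s)
  · by_cases hu : u = l h
    · subst hu
      have h1 := (inFil_C (ω := wt1 l j N) (y h (j h) v)).mul (inFil_X ((h, l h), j h))
      rw [t1]
      simpa [wt2, wt1] using h1
    · exact inFil_of_nonpos hw (by simp [wt2, hu]) _
  · exact inFil_of_nonpos hw le_rfl _

/-- Division by a nonzero polynomial of weight zero. Split `F` by weights, or use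
`exists_min_mul` (`InF` over `ℚ` is `InFil`): the least weight of `c * F` is the sum of the least
weights. -/
theorem inFil_of_mul {σ : Type*} [Finite σ] {ω : σ → ℝ} {θ : ℝ} {c F : MvPolynomial σ ℚ}
    (hc : c ≠ 0) (h0 : ∀ μ ∈ c.support, Finsupp.weight ω μ = 0) (h : InFil ω θ (c * F)) :
    InFil ω θ F := by
  by_cases hF : F = 0
  · rw [hF]
    exact inFil_zero θ
  obtain ⟨μ, hμ, ν, -, -, h2, h3⟩ := exists_min_mul (ω := ω) c F hc hF
  have h4 := h _ h3
  rw [map_add, h0 μ hμ, zero_add] at h4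
  exact fun a ha => h4.trans (h2 a ha)

/-- As `genroth_step` in `Common/Subspace/GenRoth.lean`: induction on `K' ⊆ K`, keeping
`InFil ω D (genrothKill K' (Ψ Q))`. In the step `Q = X s ^ m * Q₁`; the factor
`genrothKill K' (c s * X s) ^ m` is nonzero of weight zero (`inFil_of_mul`), and
`kill (insert s K') ∘ Ψ ∘ kill {s} = kill (insert s K') ∘ Ψ`. At the end `ev = ev ∘ kill K`. -/
theorem kill_step {κ τ : Type*} [Finite ι] [Fintype κ] [DecidableEq ι] [DecidableEq κ]
    (Ψ : MvPolynomial (ι × κ) ℚ →ₐ[ℚ] MvPolynomial (ι × κ) ℚ) {ω : ι × κ → ℝ}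
    (K : Finset (ι × κ)) (c : ι × κ → MvPolynomial (ι × κ) ℚ)
    (hΨ : ∀ s ∈ K, Ψ (X s) = c s * X s) (hω : ∀ s ∈ K, ω s = 0)
    (hc : ∀ s ∈ K, ∀ μ ∈ (c s).support, Finsupp.weight ω μ = 0)
    (ev : ι × κ → MvPolynomial τ ℚ) (hev : ∀ s ∈ K, ev s = 0)
    (hc' : ∀ s ∈ K, aeval ev (c s) ≠ 0) {ω' : τ → ℝ} (hev' : ∀ s, InFil ω' (ω s) (ev s))
    {D : ℝ} {d : ι → ℕ} {P : MvPolynomial (ι × κ) ℚ} (h0 : P ≠ 0) (hI : IsInt P)
    (hB : BlockHom d P) (hF : InFil ω D (Ψ P)) :
    ∃ (Q : MvPolynomial (ι × κ) ℚ) (e : ι → ℕ), Q ≠ 0 ∧ IsInt Q ∧ BlockHom e Q ∧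
      (∀ h, e h ≤ d h) ∧ len Q ≤ len P ∧ (∀ μ ∈ Q.support, ∀ s ∈ K, μ s = 0) ∧
      InFil ω' D (aeval ev (Ψ Q)) := by
  have hev_kill : ∀ K' ⊆ K, ∀ R, aeval ev (genrothKill K' R) = aeval ev R := fun K' hK' R => by
    have : (aeval ev).comp (genrothKill K') = aeval ev := by
      refine MvPolynomial.algHom_ext fun t => ?_
      rw [AlgHom.comp_apply, genroth_kill_X]
      split_ifs with h
      · rw [map_zero, aeval_X, hev t (hK' h)]
      · rfl
    exact DFunLike.congr_fun this R
  have hkill : ∀ (K' : Finset (ι × κ)) (η : ι × κ → ℝ) {θ : ℝ} {R : MvPolynomial (ι × κ) ℚ},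
      InFil η θ R → InFil η θ (genrothKill K' R) := fun K' η θ R hR => by
    refine hR.aeval fun t => ?_
    split_ifs
    · exact inFil_zero _
    · exact inFil_X t
  suffices H : ∀ K' ⊆ K, ∃ (Q : MvPolynomial (ι × κ) ℚ) (e : ι → ℕ), Q ≠ 0 ∧ IsInt Q ∧
      BlockHom e Q ∧ (∀ h, e h ≤ d h) ∧ len Q ≤ len P ∧ (∀ μ ∈ Q.support, ∀ s ∈ K', μ s = 0) ∧
      InFil ω D (genrothKill K' (Ψ Q)) by
    obtain ⟨Q, e, q0, qI, qB, qe, qL, qK, qF⟩ := H K subset_rfl
    exact ⟨Q, e, q0, qI, qB, qe, qL, qK, hev_kill K subset_rfl _ ▸ qF.aeval hev'⟩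
  intro K'
  induction K' using Finset.induction_on with
  | empty => exact fun _ => ⟨P, d, h0, hI, hB, fun _ => le_rfl, le_rfl, by simp, hkill _ _ hF⟩
  | insert s K' hsK ih =>
    intro hK
    have hK' : K' ⊆ K := (subset_insert _ _).trans hK
    obtain ⟨Q, e, q0, qI, qB, qe, qL, qK, qF⟩ := ih hK'
    have hs : s ∈ K := hK (mem_insert_self _ _)
    obtain ⟨μ₀, hμ₀, hmin⟩ := Finset.exists_min_image Q.support (fun μ => μ s)
      (support_nonempty.mpr q0)
    set ν : ι × κ →₀ ℕ := Finsupp.single s (μ₀ s) with hν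
    have hdiv : Q = monomial ν 1 * Q.divMonomial ν := by
      ext μ
      rw [coeff_monomial_mul']
      split_ifs with h
      · rw [one_mul, coeff_divMonomial, add_tsub_cancel_of_le h]
      · by_contra h'
        exact h (Finsupp.single_le_iff.mpr (hmin μ (mem_support_iff.mpr h')))
    have hcf : ∀ μ, coeff μ (genrothKill {s} (Q.divMonomial ν))
        = if μ s = 0 then coeff (ν + μ) Q else 0 := fun μ => genroth_coeff_kill s μ _
    have hsup : ∀ μ ∈ (genrothKill {s} (Q.divMonomial ν)).support,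
        μ s = 0 ∧ ν + μ ∈ Q.support := by
      intro μ hμ
      have := mem_support_iff.mp hμ
      rw [hcf] at this
      split_ifs at this with h
      · exact ⟨h, mem_support_iff.mpr this⟩
      · exact absurd rfl this
    refine ⟨genrothKill {s} (Q.divMonomial ν), fun h => e h - ∑ j, ν (h, j), ?_, fun μ => ?_,
      fun μ hμ h => ?_, fun h => (Nat.sub_le _ _).trans (qe h), ?_, fun μ hμ t ht => ?_, ?_⟩
    · intro h
      have h1 := hcf (μ₀ - ν)
      rw [h, coeff_zero, if_pos (by simp [hν]),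
        add_tsub_cancel_of_le (Finsupp.single_le_iff.mpr le_rfl)] at h1
      exact mem_support_iff.mp hμ₀ h1.symm
    · rw [hcf]
      split_ifs
      · exact qI _
      · exact ⟨0, by simp⟩
    · have := qB _ (hsup μ hμ).2 h
      simp only [Finsupp.add_apply, Finset.sum_add_distrib] at this
      show _ = e h - ∑ j, ν (h, j)
      omega
    · refine (len_le_of_injOn _ Q (fun μ => ν + μ) (fun _ _ _ _ h => add_left_cancel h)
        fun μ hμ => ?_).trans qL
      rw [hcf, if_pos (hsup μ hμ).1]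
    · rcases mem_insert.mp ht with rfl | ht
      · exact (hsup μ hμ).1
      · have := qK _ (hsup μ hμ).2 t ht
        simp only [Finsupp.add_apply] at this
        omega
    · have e1 : ((genrothKill (insert s K')).comp Ψ).comp (genrothKill {s}) =
          (genrothKill (insert s K')).comp Ψ := by
        refine MvPolynomial.algHom_ext fun t => ?_
        rw [AlgHom.comp_apply, genroth_kill_X]
        split_ifs with h
        · rw [mem_singleton.mp h, map_zero, AlgHom.comp_apply, hΨ s hs, map_mul, genroth_kill_X,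
            if_pos (mem_insert_self _ _), mul_zero]
        · rfl
      have e2 := DFunLike.congr_fun e1 (Q.divMonomial ν)
      simp only [AlgHom.comp_apply] at e2
      rw [e2, ← genroth_kill_kill]
      rw [hdiv, hν, ← X_pow_eq_monomial, map_mul, map_mul, map_pow, map_pow, hΨ s hs, map_mul,
        genroth_kill_X, if_neg hsK] at qF
      have g0 : genrothKill K' (c s) ≠ 0 := fun h => hc' s hs (by
        rw [← hev_kill K' hK', h, map_zero])
      have g1 : ∀ η : ι × κ → ℝ, η s = 0 → (∀ μ ∈ (c s).support, Finsupp.weight η μ = 0) →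
          InFil η 0 ((genrothKill K' (c s) * X s) ^ μ₀ s) := fun η h1 h2 => by
        have h3 := ((hkill K' η (θ := 0) fun μ hμ => (h2 μ hμ).ge).mul (inFil_X s)).pow (μ₀ s)
        simpa [h1] using h3
      have hneg : ∀ μ : ι × κ →₀ ℕ, Finsupp.weight (fun t => - ω t) μ = - Finsupp.weight ω μ :=
        fun μ => by simp [Finsupp.weight_apply, Finsupp.sum]
      refine hkill _ _ (inFil_of_mul (pow_ne_zero _ (mul_ne_zero g0 (X_ne_zero s)))
        (fun μ hμ => ?_) qF)
      have h1 := g1 ω (hω s hs) (hc s hs) μ hμ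
      have h2 := g1 (fun t => - ω t) (by simp [hω s hs])
        (fun μ hμ => by rw [hneg, hc s hs μ hμ, neg_zero]) μ hμ
      rw [hneg] at h2
      linarith

end Pool.Agent.Lib.MP_dee342_nt.Q
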