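import Pool.Agent.Lib.MP_dee342_nt.QBd

/-! Reduction of the degrees, and binomials in the ideal of an integer. -/

namespace Pool.Agent.Lib.MP_dee342_nt.Q

open MvPolynomial Finset Pool.Agent.Lib.Common.Subspace Pool.Agent.Lib.Common.ZeroLemma

variable {σ : Type*} [Fintype σ] [DecidableEq σ]

/-- Every polynomial is `ρ + ∑ j, phi ξ j ^ M * β j` over `ℚ` with all degrees of `ρ` at most
`M`. One way: expand around `ξ` (`shift`), split the monomials into those with all exponents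
`< M` and those divisible by some `X j ^ M`, and shift back; or induct on the polynomial. -/
theorem exists_rem (ξ : σ → ℚ) (M : ℕ) (m : MvPolynomial σ ℚ) :
    ∃ (ρ : MvPolynomial σ ℚ) (β : σ → MvPolynomial σ ℚ), (∀ μ ∈ ρ.support, ∀ j, μ j ≤ M) ∧
      m = ρ + ∑ j, phi ξ j ^ M * β j := by
  obtain ⟨m', rfl⟩ : ∃ m' : MvPolynomial σ ℚ, aeval (phi ξ) m' = m := by
    refine ⟨aeval (fun j => C ((ξ j).den : ℚ)⁻¹ * (X j + C ((ξ j).num : ℚ))) m, ?_⟩
    rw [← AlgHom.comp_apply, comp_aeval]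
    have : (fun j => aeval (phi ξ) (C ((ξ j).den : ℚ)⁻¹ * (X j + C ((ξ j).num : ℚ)) :
        MvPolynomial σ ℚ)) = X := funext fun j => by
      rw [map_mul, map_add, aeval_X, aeval_C, aeval_C, phi, algebraMap_eq, sub_add_cancel,
        ← mul_assoc, ← C_mul, inv_mul_cancel₀ (Nat.cast_ne_zero.2 (ξ j).den_nz), C_1, one_mul]
    rw [this, aeval_X_left_apply]
  induction m' using MvPolynomial.induction_on' with
  | monomial ν c =>
    rw [aeval_monomial, Finsupp.prod_fintype _ _ fun _ => pow_zero _, algebraMap_eq]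
    by_cases h : ∀ j, ν j ≤ M
    · refine ⟨C c * ∏ j, phi ξ j ^ ν j, 0, fun μ hμ s => ?_, by simp⟩
      refine (monomial_le_degreeOf s hμ).trans ((degreeOf_C_mul_le _ _ _).trans
        ((degreeOf_prod_le _ _ _).trans (le_trans ?_ (h s))))
      refine (sum_le_sum (g := fun j => if s = j then ν j else 0) fun j _ => ?_).trans (by simp)
      refine (degreeOf_pow_le _ _ _).trans ((Nat.mul_le_mul_left _
        (degreeOf_le_iff.2 fun μ hμ => supp_phi ξ j μ hμ s)).trans ?_)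
      split_ifs <;> simp
    · obtain ⟨j, hj⟩ := not_forall.1 h
      refine ⟨0, Pi.single j (C c * phi ξ j ^ (ν j - M) * ∏ l ∈ univ.erase j, phi ξ l ^ ν l),
        by simp, ?_⟩
      rw [zero_add, sum_eq_single j (fun l _ hl => by simp [hl]) (by simp), Pi.single_eq_same,
        ← mul_prod_erase _ _ (mem_univ j)]
      nth_rewrite 1 [← Nat.add_sub_cancel' (not_le.1 hj).le]
      ring
  | add p q hp hq =>
    obtain ⟨ρ, β, h1, h2⟩ := hp
    obtain ⟨ρ', β', h1', h2'⟩ := hq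
    refine ⟨ρ + ρ', β + β', fun μ hμ => (mem_union.1 (support_add hμ)).elim (h1 μ) (h1' μ), ?_⟩
    simp only [map_add, h2, h2', Pi.add_apply, mul_add, sum_add_distrib]
    ring

omit [Fintype σ] [DecidableEq σ] in
theorem qred_den {I : Type*} (s : Finset I) (g : I → MvPolynomial σ ℚ) :
    ∃ b : ℤ, b ≠ 0 ∧ ∀ a ∈ s, IsInt (C (b : ℚ) * g a) := by
  classical
  choose c h0 h1 using fun a => exists_isInt_mul (g a)
  refine ⟨∏ a ∈ s, c a, prod_ne_zero_iff.2 fun a _ => h0 a, fun a ha => ?_⟩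
  rw [← prod_erase_mul _ _ ha, Int.cast_mul, C_mul, mul_assoc]
  exact (isInt_C _).mul (h1 a)

omit [Fintype σ] in
theorem qred_fib {i : σ} {U : ℕ} {e : σ → ℕ} {A : ℝ} {f : MvPolynomial σ ℚ} (h : Bd i U e A f)
    (ν : σ →₀ ℕ) : Bd i U (Pi.single i (e i)) A (∑ μ ∈ f.support with μ.erase i = ν,
      monomial (Finsupp.single i (μ i)) (coeff μ f)) := by
  refine ⟨isInt_sum _ _ fun μ _ => ?_, fun μ' hμ' j => ?_, fun μ' => ?_⟩
  · obtain ⟨z, hz⟩ := h.1 μ
    rw [hz]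
    exact isInt_monomial _ _
  · obtain ⟨μ, hμ, h1⟩ := mem_biUnion.1 (support_sum hμ')
    obtain rfl := mem_singleton.1 (support_monomial_subset h1)
    by_cases hj : j = i
    · subst hj
      simpa using h.2.1 μ (mem_filter.1 hμ).1 j
    · simp [hj]
  · rw [coeff_sum]
    simp only [coeff_monomial]
    by_cases h1 : ∃ μ₀ ∈ f.support.filter fun μ => μ.erase i = ν, Finsupp.single i (μ₀ i) = μ'
    · obtain ⟨μ₀, h2, h3⟩ := h1
      rw [sum_eq_single_of_mem μ₀ h2 fun μ hμ hne => if_neg fun h4 => hne ?_, if_pos h3]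
      · exact h.2.2 μ₀
      · rw [← μ.single_add_erase i, ← μ₀.single_add_erase i, h4, h3, (mem_filter.1 hμ).2,
          (mem_filter.1 h2).2]
    · rw [sum_eq_zero fun μ hμ => if_neg fun h4 => h1 ⟨μ, hμ, h4⟩]
      simpa using h.nonneg

/-- Write `f = ∑ ν, f ν * monomial ν 1`, `ν` in the finite box `ν j ≤ e j`, `ν i = 0`, where
`f ν = ∑ μ ∈ f.support with μ.erase i = ν, monomial (single i (μ i)) (coeff μ f)` satisfies
`Bd i U (Pi.single i (e i)) A`. Apply `exists_rem` to the finitely many monomials, clear all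
denominators by one integer `b` (`exists_isInt_mul`), and use `Bd.mul`, `bd_sum`. -/
theorem red (i : σ) (ξ : σ → ℚ) (M : ℕ) (e : σ → ℕ) (A : ℝ) :
    ∃ (b : ℤ) (e₁ e₂ : σ → ℕ) (A' : ℝ), b ≠ 0 ∧ (∀ j, j ≠ i → e₁ j ≤ M) ∧
      ∀ (U : ℕ) (f : MvPolynomial σ ℚ), Bd i U e A f →
        ∃ (F : MvPolynomial σ ℚ) (β : σ → MvPolynomial σ ℚ), Bd i U e₁ A' F ∧
          (∀ j, Bd i U e₂ A' (β j)) ∧ C (b : ℚ) * f = F + ∑ j, phi ξ j ^ M * β j := by
  obtain ⟨T, hT⟩ : ∃ T : Finset (σ →₀ ℕ), ∀ ν, (∀ j, ν j ≤ e j) → ν ∈ T :=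
    ⟨Iic (Finsupp.equivFunOnFinite.symm e), fun ν h => mem_Iic.2 h⟩
  choose ρ β h1 h2 using fun ν : σ →₀ ℕ => exists_rem ξ M (monomial ν 1)
  obtain ⟨b, b0, hb⟩ := qred_den (T ×ˢ (univ : Finset (Option σ))) fun a =>
    a.2.elim (ρ a.1) (β a.1)
  obtain ⟨N, hN⟩ : ∃ N, ∀ ν ∈ T, ∀ j, (β ν j).totalDegree ≤ N :=
    ⟨(T ×ˢ univ).sup fun a => (β a.1 a.2).totalDegree, fun ν hν j =>
      le_sup (f := fun a : (σ →₀ ℕ) × σ => (β a.1 a.2).totalDegree)
        (mk_mem_product hν (mem_univ j))⟩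
  obtain ⟨L, hL⟩ : ∃ L : Option σ → ℝ, ∀ o, L o = ∑ ν ∈ T, len (C (b : ℚ) * o.elim (ρ ν) (β ν)) :=
    ⟨_, fun _ => rfl⟩
  have hL' : ∀ o, L o ≤ ∑ o, L o := fun o => single_le_sum (f := L)
    (fun o _ => hL o ▸ sum_nonneg fun _ _ => len_nonneg _) (mem_univ o)
  have hs : ∀ (g : MvPolynomial σ ℚ), (C (b : ℚ) * g).support ⊆ g.support := fun g => by
    rw [C_mul']
    exact support_smul
  refine ⟨b, Pi.single i (e i) + fun _ => M, Pi.single i (e i) + fun _ => N, A * ∑ o, L o, b0,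
    fun j hj => by simp [hj], fun U f hf => ?_⟩
  obtain ⟨g, g1, g2⟩ : ∃ g : (σ →₀ ℕ) → MvPolynomial σ ℚ,
      (∀ ν, Bd i U (Pi.single i (e i)) A (g ν)) ∧ f = ∑ ν ∈ T, g ν * monomial ν 1 := by
    refine ⟨_, qred_fib hf, ?_⟩
    conv_lhs => rw [f.as_sum, ← sum_fiberwise_of_maps_to (g := fun μ => μ.erase i) (t := T)
      fun μ hμ => hT _ fun j => by
        by_cases hj : j = i
        · simp [hj]
        · simpa [hj] using hf.2.1 μ hμ j]
    refine sum_congr rfl fun ν _ => ?_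
    rw [sum_mul]
    refine sum_congr rfl fun μ hμ => ?_
    rw [monomial_mul, mul_one, ← (mem_filter.1 hμ).2, Finsupp.single_add_erase]
  have key : ∀ (o : Option σ) (n : ℕ), (∀ ν ∈ T, ∀ μ ∈ (o.elim (ρ ν) (β ν)).support, ∀ j, μ j ≤ n) →
      Bd i U (Pi.single i (e i) + fun _ => n) (A * ∑ o, L o)
        (∑ ν ∈ T, g ν * (C (b : ℚ) * o.elim (ρ ν) (β ν))) := fun o n h =>
    (bd_sum T _ _ fun ν hν => (g1 ν).mul (hb (ν, o) (mk_mem_product hν (mem_univ o)))
      fun μ hμ => h ν hν μ (hs _ hμ)).mono (fun _ => le_rfl) (by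
        rw [← mul_sum, ← hL]
        exact mul_le_mul_of_nonneg_left (hL' o) hf.nonneg)
  refine ⟨_, _, key none M fun ν _ => h1 ν, fun j => key (some j) N fun ν hν μ hμ l =>
    ((Finsupp.le_degree l μ).trans (le_totalDegree hμ)).trans (hN ν hν j), ?_⟩
  simp only [Option.elim, mul_sum]
  rw [sum_comm, ← sum_add_distrib, g2, mul_sum]
  refine sum_congr rfl fun ν _ => ?_
  simp only [h2 ν, mul_add, mul_sum]
  congr 1
  · ring
  · exact sum_congr rfl fun j _ => by ring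

omit [Fintype σ] [DecidableEq σ] in
/-- The ring `A = ℤ[X] / (b, φ ^ M)`, `φ = q X - p`, `gcd (p, q) = 1`, is finite, so two powers
of `X` agree. Finiteness: `φ` is nilpotent in `A` and `1 = α p + β q = q (α X + β) - α φ`, so `q`
is a unit of `A`. Two powers of `q` agree modulo `b`, hence `q ^ k = 1` in `A` for some `k ≥ 1`.
Then `X ^ M = q ^ (k M) X ^ M = q ^ ((k-1) M) (q ^ M X ^ M - φ ^ M)` is an integral equation for
`X`, so `A` is a finite `ℤ`-module killed by `b` (`Module.finite_of_fg_torsion`). -/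
theorem pig_poly (p q b : ℤ) (hpq : IsCoprime p q) (hb : b ≠ 0) (M : ℕ) :
    ∃ (a a' : ℕ) (w w' : Polynomial ℤ), a' < a ∧ Polynomial.X ^ a - Polynomial.X ^ a' =
      Polynomial.C b * w + (Polynomial.C q * Polynomial.X - Polynomial.C p) ^ M * w' := by
  obtain ⟨φ, hφ⟩ : ∃ φ : Polynomial ℤ, φ = Polynomial.C q * Polynomial.X - Polynomial.C p :=
    ⟨_, rfl⟩
  let I : Ideal (Polynomial ℤ) := Ideal.span {Polynomial.C b, φ ^ M}
  let π := Ideal.Quotient.mkₐ ℤ I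
  have p0 : Function.Surjective π := Ideal.Quotient.mkₐ_surjective ℤ I
  have p1 : ((b : ℤ) : Polynomial ℤ ⧸ I) = 0 := by
    rw [← map_intCast π]
    exact Ideal.Quotient.eq_zero_iff_mem.2 (Ideal.subset_span (by simp))
  have p2 : π φ ^ M = 0 := by
    rw [← map_pow]
    exact Ideal.Quotient.eq_zero_iff_mem.2 (Ideal.subset_span (by simp))
  have p3 : π φ = q * π Polynomial.X - p := by simp [hφ]
  have p4 : IsUnit ((q : ℤ) : Polynomial ℤ ⧸ I) := by
    obtain ⟨α, β, h⟩ := hpq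
    have h1 : (α * p + β * q : Polynomial ℤ ⧸ I) = 1 := by exact_mod_cast congrArg Int.cast h
    have h2 : IsUnit (1 + π φ * α) :=
      IsNilpotent.isUnit_one_add ((Commute.all _ _).isNilpotent_mul_right ⟨M, p2⟩)
    rw [show 1 + π φ * α = q * (α * π Polynomial.X + β) by rw [p3, ← h1]; ring] at h2
    exact isUnit_of_mul_isUnit_left h2
  obtain ⟨k, hk⟩ : ∃ k : ℕ, ((q : ℤ) : Polynomial ℤ ⧸ I) ^ (k + 1) = 1 := by
    have : NeZero b.natAbs := ⟨Int.natAbs_ne_zero.2 hb⟩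
    obtain ⟨s, t, hst, h⟩ : ∃ s t : ℕ, s < t ∧ (q : ZMod b.natAbs) ^ s = q ^ t := by
      obtain ⟨s, t, h1, h2⟩ := Finite.exists_ne_map_eq_of_infinite
        fun n : ℕ => (q : ZMod b.natAbs) ^ n
      rcases h1.lt_or_gt with h | h
      exacts [⟨s, t, h, h2⟩, ⟨t, s, h, h2.symm⟩]
    obtain ⟨k, rfl⟩ := Nat.exists_eq_add_of_lt hst
    obtain ⟨c, hc⟩ : b ∣ q ^ (s + k + 1) - q ^ s := Int.natAbs_dvd.1
      ((ZMod.intCast_eq_intCast_iff_dvd_sub _ _ _).1 (by exact_mod_cast h))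
    have h3 := congrArg (Int.cast : ℤ → Polynomial ℤ ⧸ I) hc
    push_cast at h3
    rw [p1, zero_mul, sub_eq_zero, add_assoc, pow_add] at h3
    exact ⟨k, (p4.pow s).mul_left_cancel (h3.trans (mul_one _).symm)⟩
  have p5 : IsIntegral ℤ (π Polynomial.X) := by
    refine ⟨(Polynomial.X - Polynomial.C (q ^ k * p)) ^ M, (Polynomial.monic_X_sub_C _).pow M, ?_⟩
    rw [Polynomial.eval₂_pow, Polynomial.eval₂_sub, Polynomial.eval₂_X, Polynomial.eval₂_C,
      show π Polynomial.X - algebraMap ℤ _ (q ^ k * p) = (q : Polynomial ℤ ⧸ I) ^ k * π φ by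
        rw [p3, eq_intCast]
        push_cast
        linear_combination (-π Polynomial.X) * hk, mul_pow, p2, mul_zero]
  have : Module.Finite ℤ (Polynomial ℤ ⧸ I) := by
    have h1 := p5.fg_adjoin_singleton
    rw [Algebra.adjoin_singleton_eq_range_aeval, show Polynomial.aeval (π Polynomial.X) = π from
      Polynomial.algHom_ext (Polynomial.aeval_X _), (AlgHom.range_eq_top π).2 p0] at h1
    exact ⟨h1⟩
  have : Finite (Polynomial ℤ ⧸ I) := Module.finite_of_fg_torsion _ fun x =>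
    ⟨⟨b, mem_nonZeroDivisors_of_ne_zero hb⟩, by
      change b • x = 0
      rw [zsmul_eq_mul, p1, zero_mul]⟩
  obtain ⟨a, a', h, h'⟩ : ∃ a a' : ℕ, a' < a ∧ π (Polynomial.X ^ a) = π (Polynomial.X ^ a') := by
    obtain ⟨s, t, h1, h2⟩ := Finite.exists_ne_map_eq_of_infinite fun n : ℕ => π (Polynomial.X ^ n)
    rcases h1.lt_or_gt with h | h
    exacts [⟨t, s, h, h2.symm⟩, ⟨s, t, h, h2⟩]
  obtain ⟨w, w', hw⟩ := Ideal.mem_span_pair.1 (Ideal.Quotient.eq.1 h')
  exact ⟨a, a', w, w', h, by rw [← hw, hφ]; ring⟩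

omit [Fintype σ] [DecidableEq σ] in
/-- Map `pig_poly` by `Polynomial.aeval (X i)` (or `eval₂`). -/
theorem pig (i : σ) (ξ : σ → ℚ) {b : ℤ} (hb : b ≠ 0) (M : ℕ) :
    ∃ (a a' : ℕ) (w w' : MvPolynomial σ ℚ), a' < a ∧ IsInt w ∧
      (∀ μ ∈ w.support, ∀ j, j ≠ i → μ j = 0) ∧ X i ^ a - X i ^ a' = C (b : ℚ) * w + phi ξ i ^ M * w' := by
  classical
  obtain ⟨a, a', w, w', h, h'⟩ := pig_poly (ξ i).num (ξ i).den b (ξ i).isCoprime_num_den hb M
  have e : (Polynomial.aeval (X i) w : MvPolynomial σ ℚ) =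
      ∑ l ∈ range (w.natDegree + 1), monomial (Finsupp.single i l) (w.coeff l : ℚ) := by
    rw [Polynomial.aeval_eq_sum_range]
    refine sum_congr rfl fun l _ => ?_
    rw [X_pow_eq_monomial, smul_monomial, zsmul_one]
  refine ⟨a, a', Polynomial.aeval (X i) w, Polynomial.aeval (X i) w', h, ?_, fun μ hμ j hj => ?_,
    ?_⟩
  · rw [e]
    exact isInt_sum _ _ fun l _ => isInt_monomial _ _
  · rw [e] at hμ
    obtain ⟨l, -, h1⟩ := mem_biUnion.1 (support_sum hμ)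
    obtain rfl := mem_singleton.1 (support_monomial_subset h1)
    simp [hj]
  · simpa [phi] using congrArg (Polynomial.aeval (X i : MvPolynomial σ ℚ)) h'

end Pool.Agent.Lib.MP_dee342_nt.Q
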