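import Pool.Agent.Lib.MP_dee342_nt.QDefs

/-! Counting monomials. -/

namespace Pool.Agent.Lib.MP_dee342_nt.Q

open MvPolynomial Finset Pool.Agent.Lib.Common.Subspace Pool.Agent.Lib.Common.ZeroLemma

/-- Let `S d` be the number of exponent vectors of degree `d`, `S d = (d + n - 1).choose d` with
`n = card κ` (`Finset.card_piAntidiag`-like lemmas: search `card_finsuppAntidiag_nat_eq_choose`,
`Sym.card_sym_eq_choose`, `Finset.piAntidiag`). The vectors with `J ≤ x c` are in bijection with
those of degree `d - J`. From `S (d - 1) * (d + n - 1) = d * S d` one gets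
`S (e) - S (e - 1) = (e + n - 2).choose e`, which increases with `e` and is at most
`(n - 1) * S d / d` for `e ≤ d`. A proof without binomials: the number `a v` of vectors with
`x c = v` decreases in `v` (move one unit from `c` to another coordinate), and
`d * a 0 ≤ (n - 1) * S d`. -/
theorem card_row_lt {κ : Type*} [Fintype κ] [DecidableEq κ] (d J : ℕ) (c : κ) :
    ((piAntidiag (univ : Finset κ) d).filter fun x => x c < J).card * d ≤
      Fintype.card κ * J * (piAntidiag (univ : Finset κ) d).card := by
  set S := piAntidiag (univ : Finset κ) d with hS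
  set A := S.filter fun x => x c < J with hA
  have hmem : ∀ x, x ∈ S ↔ ∑ i, x i = d := fun x => by simp [hS, mem_piAntidiag]
  have hj : ∀ j, ∑ x ∈ A, x j ≤ J * S.card := by
    intro j
    by_cases hjc : j = c
    · subst hjc
      calc _ ≤ A.card • J := Finset.sum_le_card_nsmul _ _ _ fun x hx => (mem_filter.1 hx).2.le
        _ = J * A.card := by rw [smul_eq_mul, mul_comm]
        _ ≤ _ := Nat.mul_le_mul_left _ (card_filter_le _ _)
    · have h1 : ∑ x ∈ A, x j = (A.sigma fun x => range (x j)).card := by
        rw [card_sigma]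
        simp
      have h2 : J * S.card = (range J ×ˢ S).card := by rw [card_product, card_range]
      rw [h1, h2]
      refine card_le_card_of_injOn (fun z => (z.1 c, fun i =>
        z.1 i + (if i = c then z.2 else 0) - if i = j then z.2 else 0)) ?_ ?_
      · rintro ⟨x, t⟩ hz
        simp only [coe_sigma, Set.mem_sigma_iff, mem_coe, mem_range, hA, mem_filter] at hz
        obtain ⟨⟨hx, hc⟩, ht⟩ := hz
        simp only [coe_product, Set.mem_prod, mem_coe, mem_range]
        refine ⟨hc, (hmem _).2 ?_⟩
        have h3 : ∀ i, (x i + (if i = c then t else 0) - if i = j then t else 0) +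
            (if i = j then t else 0) = x i + if i = c then t else 0 := by
          intro i
          by_cases hi : i = j
          · subst hi
            simp only [if_true, if_neg hjc]
            omega
          · simp only [if_neg hi]
            omega
        have h4 := Finset.sum_congr (s₁ := (univ : Finset κ)) rfl fun i _ => h3 i
        rw [sum_add_distrib, sum_add_distrib, sum_ite_eq', sum_ite_eq', (hmem x).1 hx] at h4
        simpa using h4
      · rintro ⟨x, t⟩ hz ⟨x', t'⟩ hz' h
        simp only [coe_sigma, Set.mem_sigma_iff, mem_coe, mem_range] at hz hz'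
        have h5 : x c = x' c := congrArg Prod.fst h
        have h6 := fun i => congrFun (congrArg Prod.snd h) i
        have h7 := h6 c
        simp only [if_true, if_neg (Ne.symm hjc)] at h7
        obtain rfl : t = t' := by omega
        obtain rfl : x = x' := by
          funext i
          have h8 := h6 i
          have h9 := hz.2
          have h10 := hz'.2
          by_cases hi : i = j
          · subst hi
            simp only [if_true, if_neg hjc] at h8
            omega
          · simp only [if_neg hi] at h8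
            omega
        rfl
  calc A.card * d = ∑ x ∈ A, ∑ j, x j := by
        rw [Finset.sum_congr rfl fun x hx => (hmem x).1 (mem_filter.1 hx).1, sum_const,
          smul_eq_mul]
    _ = ∑ j, ∑ x ∈ A, x j := Finset.sum_comm
    _ ≤ (univ : Finset κ).card • (J * S.card) := Finset.sum_le_card_nsmul _ _ _ fun j _ => hj j
    _ = _ := by rw [smul_eq_mul, card_univ, mul_assoc]

/-- A sum over a product set of a function of one coordinate (`Finset.prod_univ_sum`). -/
theorem sum_piFinset_coord {κ Y : Type*} [Fintype κ] [DecidableEq κ] (t : κ → Finset Y) (u : κ)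
    (φ : Y → ℝ) :
    ((t u).card : ℝ) * ∑ x ∈ Fintype.piFinset t, φ (x u) =
      (Fintype.piFinset t).card * ∑ y ∈ t u, φ y := by
  have h1 := Finset.prod_univ_sum t fun i y => if i = u then φ y else 1
  have h2 : ∀ x : κ → Y, (∏ i, if i = u then φ (x i) else 1) = φ (x u) := fun x => by
    rw [prod_ite_eq']
    simp
  simp only [h2] at h1
  rw [← h1, Fintype.card_piFinset, ← mul_prod_erase _ _ (mem_univ u),
    ← mul_prod_erase _ _ (mem_univ u)]
  have h3 : ∏ i ∈ univ.erase u, ∑ y ∈ t i, (if i = u then φ y else 1) =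
      ∏ i ∈ univ.erase u, ((t i).card : ℝ) :=
    prod_congr rfl fun i hi => by simp [ne_of_mem_erase hi]
  rw [h3]
  push_cast
  simp only [if_true]
  ring

/-- The exponent matrices of one block. -/
def blockMon (n k d : ℕ) : Finset (Fin n → Fin n → ℕ) :=
  Fintype.piFinset fun u : Fin n => piAntidiag univ (if k ≤ (u : ℕ) then d else 0)

theorem qrow_nonempty {κ : Type*} [Fintype κ] [DecidableEq κ] (u : κ) (d : ℕ) :
    (piAntidiag (univ : Finset κ) d).Nonempty :=
  ⟨Pi.single u d, by simp [mem_piAntidiag]⟩

theorem blockMon_nonempty {n : ℕ} (k d : ℕ) : (blockMon n k d).Nonempty := by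
  exact Fintype.piFinset_nonempty.2 fun u => qrow_nonempty u _

/-- `auxpoly_card`. -/
theorem card_blockMon_le (n k d : ℕ) : (blockMon n k d).card ≤ (2 ^ (n * n)) ^ d := by
  rw [blockMon, Fintype.card_piFinset]
  calc _ ≤ ((2 ^ n) ^ d) ^ (univ : Finset (Fin n)).card := by
        refine Finset.prod_le_pow_card _ _ _ fun u _ => ?_
        refine (auxpoly_card _).trans ?_
        rw [Fintype.card_fin]
        refine Nat.pow_le_pow_right (by positivity) ?_
        split_ifs
        · exact le_rfl
        · exact Nat.zero_le _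
    _ = _ := by
        rw [card_univ, Fintype.card_fin, ← pow_mul, ← pow_mul, ← pow_mul]
        congr 1
        ring

/-- `auxpoly_sum_coord` and `sum_piFinset_coord`. -/
theorem sum_blockMon {n : ℕ} (k d : ℕ) (w : Fin n → ℝ) :
    ∑ x ∈ blockMon n k d, ∑ u, ∑ v, (x u v : ℝ) * w v =
      (blockMon n k d).card * ((nrow n k : ℝ) * d / n * ∑ v, w v) := by
  have h1 : ∀ u v : Fin n, ∑ x ∈ blockMon n k d, (x u v : ℝ) =
      (blockMon n k d).card * ((if k ≤ (u : ℕ) then d else 0 : ℕ) : ℝ) / n := by
    intro u v
    have hn : (n : ℝ) ≠ 0 := Nat.cast_ne_zero.2 (Fin.pos u).ne'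
    have h2 := sum_piFinset_coord
      (fun u : Fin n => piAntidiag (univ : Finset (Fin n)) (if k ≤ (u : ℕ) then d else 0)) u
      fun y => (y v : ℝ)
    have h3 := auxpoly_sum_coord (κ := Fin n) (if k ≤ (u : ℕ) then d else 0) v
    have h4 : ((piAntidiag (univ : Finset (Fin n)) (if k ≤ (u : ℕ) then d else 0)).card : ℝ) ≠ 0 :=
      Nat.cast_ne_zero.2 (qrow_nonempty u _).card_pos.ne'
    rw [Fintype.card_fin] at h3
    rw [eq_div_iff hn]
    apply mul_left_cancel₀ h4
    rw [blockMon]
    linear_combination (n : ℝ) * h2 + ((Fintype.piFinset fun u : Fin n =>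
      piAntidiag (univ : Finset (Fin n)) (if k ≤ (u : ℕ) then d else 0)).card : ℝ) * h3
  have h5 : ∑ u : Fin n, ((if k ≤ (u : ℕ) then d else 0 : ℕ) : ℝ) = (nrow n k : ℝ) * d := by
    rw [← Nat.cast_sum, ← sum_filter, sum_const, smul_eq_mul, nrow, Nat.cast_mul]
  calc _ = ∑ u : Fin n, ∑ v, (∑ x ∈ blockMon n k d, (x u v : ℝ)) * w v := by
        rw [Finset.sum_comm]
        refine sum_congr rfl fun u _ => ?_
        rw [Finset.sum_comm]
        exact sum_congr rfl fun v _ => (sum_mul _ _ _).symm
    _ = ∑ u : Fin n, (blockMon n k d).card * ((if k ≤ (u : ℕ) then d else 0 : ℕ) : ℝ) / n *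
          ∑ v, w v := by
        refine sum_congr rfl fun u _ => ?_
        rw [mul_sum]
        exact sum_congr rfl fun v _ => by rw [h1]
    _ = _ := by
        rw [← sum_mul, ← sum_div, ← mul_sum, h5]
        ring

/-- Union bound over the rows `u ≥ k`, `card_row_lt`, `sum_piFinset_coord` for an indicator.
For `J = 0` all matrices are counted; otherwise `0 < d`. -/
theorem half_le_good {n : ℕ} (k d J : ℕ) (hJ : 2 * n ^ 2 * J ≤ d) (π : Equiv.Perm (Fin n)) :
    (blockMon n k d).card ≤ 2 * ((blockMon n k d).filter
      fun x => ∀ u : Fin n, k ≤ (u : ℕ) → J ≤ x u (π u)).card := by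
  rcases Nat.eq_zero_or_pos d with hd | hd
  · rw [filter_true_of_mem]
    · omega
    · intro x _ u _
      have hn := Fin.pos u
      have h0 : 2 * n ^ 2 * J = 0 := by omega
      have h1 : J = 0 := (mul_eq_zero.1 h0).resolve_left (by positivity)
      omega
  set B := blockMon n k d with hB
  have h1 : ∀ u : Fin n, k ≤ (u : ℕ) →
      (B.filter fun x => x u (π u) < J).card * d ≤ n * J * B.card := by
    intro u hu
    have h2 := sum_piFinset_coord
      (fun u : Fin n => piAntidiag (univ : Finset (Fin n)) (if k ≤ (u : ℕ) then d else 0)) u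
      fun y => if y (π u) < J then 1 else 0
    simp only [sum_boole, if_pos hu] at h2
    have h3 : (piAntidiag (univ : Finset (Fin n)) d).card *
        (B.filter fun x => x u (π u) < J).card = B.card *
          ((piAntidiag (univ : Finset (Fin n)) d).filter fun y => y (π u) < J).card := by
      exact_mod_cast h2
    have h4 := card_row_lt d J (π u)
    rw [Fintype.card_fin] at h4
    refine Nat.le_of_mul_le_mul_left ?_ (qrow_nonempty u d).card_pos
    calc _ = B.card * (((piAntidiag (univ : Finset (Fin n)) d).filter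
          fun y => y (π u) < J).card * d) := by rw [← mul_assoc, h3, mul_assoc]
      _ ≤ B.card * (n * J * (piAntidiag (univ : Finset (Fin n)) d).card) :=
          Nat.mul_le_mul_left _ h4
      _ = _ := by ring
  have h5 : (B.filter fun x => ¬ ∀ u : Fin n, k ≤ (u : ℕ) → J ≤ x u (π u)) ⊆
      (univ.filter fun u : Fin n => k ≤ (u : ℕ)).biUnion
        fun u => B.filter fun x => x u (π u) < J := by
    intro x hx
    obtain ⟨hx, h⟩ := mem_filter.1 hx
    push Not at h
    obtain ⟨u, hu, h⟩ := h
    exact mem_biUnion.2 ⟨u, mem_filter.2 ⟨mem_univ _, hu⟩, mem_filter.2 ⟨hx, h⟩⟩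
  have h6 : (B.filter fun x => ¬ ∀ u : Fin n, k ≤ (u : ℕ) → J ≤ x u (π u)).card * d ≤
      n * (n * J * B.card) := by
    calc _ ≤ (∑ u ∈ univ.filter fun u : Fin n => k ≤ (u : ℕ),
          (B.filter fun x => x u (π u) < J).card) * d :=
          Nat.mul_le_mul_right _ ((card_le_card h5).trans card_biUnion_le)
      _ ≤ (univ.filter fun u : Fin n => k ≤ (u : ℕ)).card • (n * J * B.card) := by
          rw [sum_mul]
          exact Finset.sum_le_card_nsmul _ _ _ fun u hu => h1 u (mem_filter.1 hu).2
      _ ≤ _ := by
          rw [smul_eq_mul]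
          refine Nat.mul_le_mul_right _ ((card_filter_le _ _).trans ?_)
          simp
  have h7 := card_filter_add_card_filter_not (s := B)
    fun x => ∀ u : Fin n, k ≤ (u : ℕ) → J ≤ x u (π u)
  have h8 : 2 * (B.filter fun x => ¬ ∀ u : Fin n, k ≤ (u : ℕ) → J ≤ x u (π u)).card ≤ B.card := by
    refine Nat.le_of_mul_le_mul_right ?_ hd
    calc _ = 2 * ((B.filter fun x => ¬ ∀ u : Fin n, k ≤ (u : ℕ) → J ≤ x u (π u)).card * d) := by
          ring
      _ ≤ 2 * (n * (n * J * B.card)) := Nat.mul_le_mul_left _ h6
      _ = B.card * (2 * n ^ 2 * J) := by ring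
      _ ≤ _ := Nat.mul_le_mul_left _ hJ
  omega

end Pool.Agent.Lib.MP_dee342_nt.Q
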