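import Pool.Agent.Lib.MP_dee342_nt.QCount

/-! Specialisation of the free variables to powers of one variable. -/

namespace Pool.Agent.Lib.MP_dee342_nt.Q

open MvPolynomial Finset Pool.Agent.Lib.Common.Subspace Pool.Agent.Lib.Common.ZeroLemma

variable {σ : Type*} [Fintype σ] [DecidableEq σ] {K : Type*} [Field K] [Algebra ℚ K]

/-- A nonzero polynomial `ψ` with `aeval (y i) ψ = 0` factors as `(X - C (ξ i)) ^ k * ψ₁` with
`ψ₁ (ξ i) ≠ 0` (`Polynomial.exists_eq_pow_rootMultiplicity_mul_and_not_dvd`). By `h` applied to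
`Polynomial.aeval (X i) ψ₁` we get `aeval (y i) ψ₁ ≠ 0`. -/
theorem eq_of_alg {y : σ → K} {ξ : σ → ℚ}
    (h : ∀ f : MvPolynomial σ ℚ, aeval y f = 0 → eval ξ f = 0) {i : σ}
    (hi : IsAlgebraic ℚ (y i)) : y i = algebraMap ℚ K (ξ i) := by
  obtain ⟨ψ, hψ0, hψ⟩ := hi
  obtain ⟨q, hq, hnd⟩ := Polynomial.exists_eq_pow_rootMultiplicity_mul_and_not_dvd ψ hψ0 (ξ i)
  have h1 : Polynomial.aeval (y i) q ≠ 0 := by
    intro h2
    apply hnd
    rw [Polynomial.dvd_iff_isRoot, Polynomial.IsRoot.def]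
    have h3 := h (Polynomial.aeval (X i : MvPolynomial σ ℚ) q) (by
      rw [← Polynomial.aeval_algHom_apply, aeval_X, h2])
    rw [← coe_aeval_eq_eval] at h3
    change aeval ξ (Polynomial.aeval (X i : MvPolynomial σ ℚ) q) = 0 at h3
    rw [← Polynomial.aeval_algHom_apply, aeval_X, Polynomial.coe_aeval_eq_eval] at h3
    exact h3
  rw [hq, map_mul, map_pow, map_sub, Polynomial.aeval_X, Polynomial.aeval_C] at hψ
  exact sub_eq_zero.1 (eq_zero_of_pow_eq_zero ((mul_eq_zero.1 hψ).resolve_right h1))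

/-- The variables outside `W` are replaced by their rational values. -/
noncomputable def qspec_bar (W : Finset σ) (ξ : σ → ℚ) :
    MvPolynomial σ ℚ →ₐ[ℚ] MvPolynomial σ ℚ :=
  aeval fun j => if j ∈ W then X j else C (ξ j)

omit [Fintype σ] in
theorem qspec_mem (W : Finset σ) (ξ : σ → ℚ) (f : MvPolynomial σ ℚ) :
    qspec_bar W ξ f ∈ supported ℚ (W : Set σ) := by
  induction f using MvPolynomial.induction_on with
  | C c => rw [algHom_C]; exact Subalgebra.algebraMap_mem _ _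
  | add p q hp hq => rw [map_add]; exact Subalgebra.add_mem _ hp hq
  | mul_X p t hp =>
    rw [map_mul]
    refine Subalgebra.mul_mem _ hp ?_
    simp only [qspec_bar, aeval_X]
    split_ifs with h
    · exact X_mem_supported.2 h
    · exact Subalgebra.algebraMap_mem _ _

omit [Fintype σ] in
theorem qspec_aeval_bar (W : Finset σ) (ξ : σ → ℚ) {B : Type*} [CommRing B] [Algebra ℚ B]
    (a b : σ → B) (h1 : ∀ j ∈ W, b j = a j) (h2 : ∀ j ∉ W, b j = algebraMap ℚ B (ξ j))
    (f : MvPolynomial σ ℚ) : aeval a (qspec_bar W ξ f) = aeval b f := by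
  have : (aeval a).comp (qspec_bar W ξ) = aeval b := by
    refine algHom_ext fun j => ?_
    simp only [qspec_bar, AlgHom.comp_apply, aeval_X]
    split_ifs with h
    · rw [aeval_X, h1 j h]
    · rw [aeval_C, h2 j h]
  exact DFunLike.congr_fun this f

omit [Fintype σ] in
theorem qspec_factor {y : σ → K} {W : Finset σ} (hW : Bas y W) {ξ : σ → ℚ}
    (hy : ∀ j ∉ W, y j = algebraMap ℚ K (ξ j)) {B : Type*} [CommRing B] [Algebra ℚ B]
    (a : σ → B) (ha : ∀ j ∉ W, a j = algebraMap ℚ B (ξ j)) {f : MvPolynomial σ ℚ}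
    (hf : aeval y f = 0) : aeval a f = 0 := by
  have h0 : qspec_bar W ξ f = 0 := hW.indep _ (qspec_mem W ξ f) (by
    rw [qspec_aeval_bar W ξ y y (fun _ _ => rfl) hy, hf])
  rw [← qspec_aeval_bar W ξ a a (fun _ _ => rfl) ha, h0, map_zero]

omit [Fintype σ] [DecidableEq σ] in
theorem qspec_kappa {x : ℚ} (hx : 1 < |x|) {g : MvPolynomial σ ℚ} (hg : g ≠ 0) :
    ∃ κ : σ → ℕ, aeval (fun j => x ^ κ j) g ≠ 0 := by
  by_contra hne
  push Not at hne
  apply hg
  have hinf : (Set.range fun k : ℕ => x ^ k).Infinite := by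
    refine Set.infinite_range_of_injective fun a b hab => ?_
    have h1 : |x| ^ a = |x| ^ b := by
      rw [← abs_pow, ← abs_pow]
      exact congrArg _ hab
    exact (pow_right_strictMono₀ hx).injective h1
  refine funext_set (fun _ => Set.range fun k : ℕ => x ^ k) (fun _ => hinf) fun z hz => ?_
  choose κ hκ using fun j => hz j (Set.mem_univ j)
  have h2 : z = fun j => x ^ κ j := funext fun j => (hκ j).symm
  rw [map_zero, h2, ← coe_aeval_eq_eval]
  exact hne κ

/-- Let `V = {j // j ∉ W}`. For `f` let `f̄ = aeval (fun j => if j ∈ W then X j else C (ξ j)) f`;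
it lies in `supported ℚ W` and `aeval y f̄ = aeval y f`. So `aeval y f = 0 ↔ f̄ = 0`
(`Bas.indep`). As `ū ≠ 0` and the powers of `ξ i` form an infinite set, `MvPolynomial.funext_set`
gives `κ : σ → ℕ` with `eval (fun j => ξ i ^ κ j) ū ≠ 0`. Let
`Φ = aeval (fun j => if h : j ∈ W then X ⟨i, hi⟩ ^ κ j else X ⟨j, h⟩)` into
`MvPolynomial V ℚ`, and apply `ar_ineq` on `V` to `𝒢.image Φ`, `Φ u`: lengths do not grow
(`nrm_aeval_le`), degrees in `j ≠ i` do not grow (`InFil.aeval` with negative weights, or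
directly), `Φ (phi ξ j) = phi ξ' ⟨j, _⟩` and `aeval y (phi ξ j) = 0` for `j ∉ W`, and
`shift ξ' (Φ G) = aeval (ζ + a) G` with `ζ j = X j`, `a j = C (ξ j)` for `j ∉ W`, `ζ j = 0`,
`a j = (X i + C (ξ i)) ^ κ j` for `j ∈ W`: use `inFil_aeval_add`, `coeff_tay` and the fact that
`aeval a f` factors through `f̄`. Products over `V` are products over `Wᶜ`
(`Finset.prod_subtype`, `Fintype.card_subtype_compl`). -/
theorem spec_ineq {y : σ → K} {W : Finset σ} (hW : Bas y W) {ξ : σ → ℚ}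
    (hy : ∀ j ∉ W, y j = algebraMap ℚ K (ξ j)) {i : σ} (hi : i ∉ W) (hξ : 1 < |ξ i|)
    {ω : σ → ℝ} (hω : ∀ j, 0 < ω j) (𝒢 : Finset (MvPolynomial σ ℚ)) (hI : ∀ G ∈ 𝒢, IsInt G)
    (d : σ → ℕ) (hd : ∀ G ∈ 𝒢, ∀ μ ∈ G.support, ∀ j, μ j ≤ d j) {H : ℝ} (hH1 : 1 ≤ H)
    (hH : ∑ G ∈ 𝒢, len G ≤ H) {E : ℝ} (hE0 : 0 ≤ E) (hE : ∀ G ∈ 𝒢, InF ω E (tay y G))
    {u : MvPolynomial σ ℚ} (hu : aeval y u ≠ 0) {M : ℕ}
    (hM : ∀ f, aeval y f = 0 → u * f ^ M ∈ Ideal.span (𝒢 : Set (MvPolynomial σ ℚ))) :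
    (∏ j ∈ Wᶜ, E / (Wᶜ.card * ω j)) * Real.log |((ξ i).num : ℝ)| ≤
      (∏ j ∈ Wᶜ.erase i, (d j : ℝ)) * Real.log (2 * H) := by
  classical
  have hub : qspec_bar W ξ u ≠ 0 := by
    intro h
    apply hu
    rw [← qspec_aeval_bar W ξ y y (fun _ _ => rfl) hy, h, map_zero]
  obtain ⟨κ, hκ⟩ := qspec_kappa hξ hub
  let i' : {j // j ∉ W} := ⟨i, hi⟩
  let φ : σ → MvPolynomial {j // j ∉ W} ℚ :=
    fun j => if h : j ∈ W then X i' ^ κ j else X ⟨j, h⟩
  have hφ1 : ∀ j ∈ W, φ j = X i' ^ κ j := fun j h => dif_pos h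
  have hφ2 : ∀ j (h : j ∉ W), φ j = X ⟨j, h⟩ := fun j h => dif_neg h
  let Φ : MvPolynomial σ ℚ →ₐ[ℚ] MvPolynomial {j // j ∉ W} ℚ := aeval φ
  have key := ar_ineq i' (fun j => ξ j.1) hξ (ω := fun j => ω j.1) (fun j => hω j.1)
    (𝒢.image Φ) ?_ (fun j => d j.1) ?_ hH1 ?_ hE0 ?_ (u := Φ u) ?_ (M := M) ?_
  · have e1 : Fintype.card {j // j ∉ W} = Wᶜ.card :=
      Fintype.card_of_subtype _ fun j => Finset.mem_compl
    have e2 : ∏ j ∈ Wᶜ, E / (Wᶜ.card * ω j) = ∏ j : {j // j ∉ W}, E / (Wᶜ.card * ω j.1) :=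
      Finset.prod_subtype _ (fun j => Finset.mem_compl) _
    have e3 : ∏ j ∈ Wᶜ.erase i, (d j : ℝ) = ∏ j ∈ univ.erase i', (d j.1 : ℝ) := by
      symm
      refine Finset.prod_bij (fun j _ => j.1) ?_ ?_ ?_ ?_
      · intro j hj
        exact Finset.mem_erase.2 ⟨fun h => (Finset.mem_erase.1 hj).1 (Subtype.ext h),
          Finset.mem_compl.2 j.2⟩
      · intro a _ b _ h
        exact Subtype.ext h
      · intro j hj
        obtain ⟨h1, h2⟩ := Finset.mem_erase.1 hj
        exact ⟨⟨j, Finset.mem_compl.1 h2⟩, Finset.mem_erase.2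
          ⟨fun h => h1 (congrArg Subtype.val h), Finset.mem_univ _⟩, rfl⟩
      · intro _ _
        rfl
    rw [e2, e3, ← e1]
    exact key
  · intro G' hG'
    obtain ⟨G, hG, rfl⟩ := Finset.mem_image.1 hG'
    refine (hI G hG).aeval fun s => ?_
    by_cases h : s ∈ W
    · rw [hφ1 s h]
      exact (norm_isInt_iff _).2 (Subring.pow_mem _ ((norm_isInt_iff _).1 (isInt_X _)) _)
    · rw [hφ2 s h]
      exact isInt_X _
  · intro G' hG' μ hμ j hj
    obtain ⟨G, hG, rfl⟩ := Finset.mem_image.1 hG'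
    have h1 : InFil (Pi.single j.1 (-1)) (-(d j.1 : ℝ)) G := by
      refine (roth_inFil_single j.1 1 _ G).2 fun ν hν => ?_
      rw [one_mul]
      exact_mod_cast hd G hG ν hν j.1
    have h2 : InFil (Pi.single j (-1)) (-(d j.1 : ℝ)) (Φ G) := by
      refine h1.aeval fun s => ?_
      by_cases h : s ∈ W
      · rw [hφ1 s h]
        refine ((inFil_X i').pow (κ s)).mono ?_
        have hs : s ≠ j.1 := fun e => j.2 (e ▸ h)
        rw [Pi.single_eq_of_ne (Ne.symm hj), Pi.single_eq_of_ne hs, mul_zero]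
      · rw [hφ2 s h]
        refine (inFil_X _).mono ?_
        by_cases e : s = j.1
        · subst e
          simp
        · rw [Pi.single_eq_of_ne e, Pi.single_eq_of_ne (fun e' => e (congrArg Subtype.val e'))]
    have h3 := (roth_inFil_single j 1 _ _).1 h2 μ hμ
    rw [one_mul] at h3
    exact_mod_cast h3
  · refine (Finset.sum_image_le_of_nonneg fun G _ => len_nonneg G).trans (le_trans ?_ hH)
    refine Finset.sum_le_sum fun G _ => (nrm_aeval_le (fun _ => zero_le_one) φ G).trans ?_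
    refine nrm_mono (fun s => nrm_nonneg (fun _ => zero_le_one) _) (fun s => ?_) G
    by_cases h : s ∈ W
    · rw [hφ1 s h]
      refine (nrm_pow_le (fun _ => zero_le_one) _ _).trans ?_
      rw [nrm_X, one_pow]
    · rw [hφ2 s h, nrm_X]
  · intro G' hG'
    obtain ⟨G, hG, rfl⟩ := Finset.mem_image.1 hG'
    let a : σ → MvPolynomial {j // j ∉ W} ℚ :=
      fun j => if j ∈ W then (X i' + C (ξ i)) ^ κ j else C (ξ j)
    let ζ : σ → MvPolynomial {j // j ∉ W} ℚ := fun j => if h : j ∈ W then 0 else X ⟨j, h⟩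
    have e : (shift fun j : {j // j ∉ W} => ξ j.1).comp Φ = aeval fun s => ζ s + a s := by
      refine algHom_ext fun s => ?_
      simp only [AlgHom.comp_apply, Φ, aeval_X, ζ, a]
      by_cases h : s ∈ W
      · rw [hφ1 s h, dif_pos h, if_pos h, zero_add, map_pow, shift, aeval_X]
      · rw [hφ2 s h, dif_neg h, if_neg h, shift, aeval_X]
    have e' : shift (fun j : {j // j ∉ W} => ξ j.1) (Φ G) = aeval (fun s => ζ s + a s) G :=
      DFunLike.congr_fun e G
    rw [e']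
    refine inFil_aeval_add (ω := ω) (fun t => (hω t.1).le) a ζ (fun s => ?_) G fun μ hμ => ?_
    · simp only [ζ]
      split_ifs with h
      · exact inFil_zero _
      · exact inFil_X (ω := fun j : {j // j ∉ W} => ω j.1) ⟨s, h⟩
    · refine qspec_factor hW hy a (fun j hj => if_neg hj) ?_
      rw [← coeff_tay]
      by_contra h
      exact absurd (hE G hG μ (mem_support_iff.2 h)) (not_le.2 hμ)
  · have e : (aeval fun j : {j // j ∉ W} => ξ j.1).comp Φ =
        aeval fun j => if j ∈ W then ξ i ^ κ j else ξ j := by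
      refine algHom_ext fun s => ?_
      simp only [AlgHom.comp_apply, Φ, aeval_X]
      by_cases h : s ∈ W
      · rw [hφ1 s h, if_pos h, map_pow, aeval_X]
      · rw [hφ2 s h, if_neg h, aeval_X]
    have e' : aeval (fun j : {j // j ∉ W} => ξ j.1) (Φ u) =
        aeval (fun j => if j ∈ W then ξ i ^ κ j else ξ j) u := DFunLike.congr_fun e u
    rw [qspec_aeval_bar W ξ _ (fun j => if j ∈ W then ξ i ^ κ j else ξ j)
      (fun j h => if_pos h) (fun j h => if_neg h), ← e'] at hκ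
    rw [← coe_aeval_eq_eval]
    exact hκ
  · intro j
    have h1 : aeval y (phi ξ j.1) = 0 := by
      rw [phi, map_sub, map_mul, aeval_C, aeval_C, aeval_X, hy j.1 j.2, ← map_mul, ← map_sub,
        Rat.den_mul_eq_num, sub_self, map_zero]
    have h2 := Ideal.mem_map_of_mem Φ (hM _ h1)
    rw [Ideal.map_span, map_mul, map_pow, ← Finset.coe_image] at h2
    have h3 : Φ (phi ξ j.1) = phi (fun j : {j // j ∉ W} => ξ j.1) j := by
      rw [phi, phi, map_sub, map_mul, algHom_C, algHom_C, aeval_X, hφ2 j.1 j.2]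
      rfl
    rwa [h3] at h2

end Pool.Agent.Lib.MP_dee342_nt.Q
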