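import Pool.Agent.Lib.MP_dee342_nt.QAux
import Pool.Agent.Lib.MP_dee342_nt.QPhi

/-! Vanishing of the auxiliary polynomial along the divisors. -/

namespace Pool.Agent.Lib.MP_dee342_nt.Q

open MvPolynomial Finset Pool.Agent.Lib.Common.Subspace Pool.Agent.Lib.Common.ZeroLemma

variable {ι : Type} [Fintype ι] [DecidableEq ι]

theorem van_rad {σ : Type*} (ω : σ → ℝ) (μ : σ →₀ ℕ) :
    μ.prod (fun s k => Real.exp (-ω s) ^ k) = Real.exp (-Finsupp.weight ω μ) := by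
  rw [Finsupp.weight_apply, Finsupp.prod, Finsupp.sum, ← sum_neg_distrib, Real.exp_sum]
  exact prod_congr rfl fun s _ => by rw [← Real.exp_nat_mul, nsmul_eq_mul, mul_neg]

theorem van_wt {σ : Type*} (ω ω' : σ → ℝ) (c : ℝ) (h : ∀ s, ω' s = ω s / c) (μ : σ →₀ ℕ) :
    Finsupp.weight ω' μ = Finsupp.weight ω μ / c := by
  rw [Finsupp.weight_apply, Finsupp.weight_apply, Finsupp.sum, Finsupp.sum, sum_div]
  exact sum_congr rfl fun s _ => by rw [h, nsmul_eq_mul, nsmul_eq_mul, mul_div_assoc]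

theorem van_cast {σ : Type*} (e : σ → ℕ) (μ : σ →₀ ℕ) :
    ((Finsupp.weight e μ : ℕ) : ℝ) = Finsupp.weight (fun s => (e s : ℝ)) μ := by
  rw [Finsupp.weight_apply, Finsupp.weight_apply, Finsupp.sum, Finsupp.sum, Nat.cast_sum]
  exact sum_congr rfl fun s _ => by rw [smul_eq_mul, nsmul_eq_mul, Nat.cast_mul]

theorem van_dvd {a : ℕ} (ha : Odd a) {E E' : ℕ} {q : ℚ} (hq : q ≠ 0) {z z' : ℤ}
    (h : q = (a : ℚ) ^ E * z) (h' : q = ((2 : ℕ) : ℚ) ^ E' * z') :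
    Real.exp (Real.log a * E + Real.log 2 * E') ≤ |(q : ℝ)| := by
  have h1 : (a : ℤ) ^ E * z = 2 ^ E' * z' := by
    have := h.symm.trans h'
    exact_mod_cast this
  have h2 : IsCoprime ((2 : ℤ) ^ E') ((a : ℤ) ^ E) := by
    refine IsCoprime.pow ?_
    exact_mod_cast Nat.isCoprime_iff_coprime.2 (Nat.coprime_two_left.2 ha)
  obtain ⟨t, rfl⟩ := h2.dvd_of_dvd_mul_left ⟨z', h1⟩
  have ht : t ≠ 0 := by
    rintro rfl
    exact hq (by simpa using h)
  have h3 : (1 : ℝ) ≤ |(t : ℝ)| := by exact_mod_cast Int.one_le_abs ht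
  have ha0 : (0 : ℝ) < a := by exact_mod_cast ha.pos
  rw [h, Real.exp_add, mul_comm _ (E : ℝ), mul_comm _ (E' : ℝ), Real.exp_nat_mul,
    Real.exp_nat_mul, Real.exp_log ha0, Real.exp_log two_pos]
  push_cast
  rw [abs_mul, abs_mul, abs_of_pos (pow_pos ha0 _), abs_of_pos (pow_pos two_pos _)]
  exact mul_le_mul_of_nonneg_left (le_mul_of_one_le_right (by positivity) h3) (by positivity)

theorem van_floor {R N D : ℕ} (hR : 0 < R) (hN : 0 < N) (h : 8 * R ^ 2 * N ≤ D) :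
    D ≤ 8 * R ^ 2 * (N * (D / N / (2 * R ^ 2))) := by
  have h1 : 8 * R ^ 2 ≤ D / N := (Nat.le_div_iff_mul_le hN).2 h
  have h2 : D < N * (D / N + 1) := Nat.lt_mul_div_succ D hN
  have h0 : 0 < R ^ 2 := by positivity
  have h3 : D / N < 2 * R ^ 2 * (D / N / (2 * R ^ 2) + 1) := Nat.lt_mul_div_succ _ (by omega)
  have h4 : 1 ≤ D / N / (2 * R ^ 2) := (Nat.le_div_iff_mul_le (by omega)).2 (by omega)
  generalize D / N / (2 * R ^ 2) = J at *
  generalize D / N = d at *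
  have h5 : d + 1 ≤ 8 * R ^ 2 * J := by nlinarith
  nlinarith

theorem van_num {r b D S T Λ : ℝ} (hr : 10 ≤ r) (hb : 0 < b) (hD : 0 < D)
    (hS : S * r ^ 7 ≤ D) (hS0 : 0 ≤ S) (hΛ : Λ ≤ 10 * r ^ 4) (hT : T ≤ b) :
    Λ * S + T * (r ^ 13 * D / (256 * r ^ 5 * b)) + D / (8 * r ^ 3) ≤
      r ^ 13 * (D / (128 * r ^ 5)) := by
  have hr0 : 0 < r := by linarith
  have h1 : T * (r ^ 13 * D / (256 * r ^ 5 * b)) ≤ r ^ 8 * D / 256 :=
    (mul_le_mul_of_nonneg_right hT (by positivity)).trans (le_of_eq (by field_simp))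
  have h2 : r ^ 13 * (D / (128 * r ^ 5)) = r ^ 8 * D / 128 := by field_simp
  have h3 : (10 : ℝ) ^ 3 ≤ r ^ 3 := pow_le_pow_left₀ (by norm_num) hr 3
  have h4 : (10 : ℝ) ^ 8 ≤ r ^ 8 := pow_le_pow_left₀ (by norm_num) hr 8
  have h5 : D / (8 * r ^ 3) ≤ D := div_le_self hD.le (by linarith)
  have h6 : Λ * S ≤ D := by
    refine (mul_le_mul_of_nonneg_right hΛ hS0).trans (le_trans ?_ hS)
    have : 0 ≤ r ^ 4 * S := by positivity
    nlinarith
  nlinarith

theorem van_log {r n : ℝ} (hr : 10 ≤ r) (hn1 : 1 ≤ n) (hn : n ≤ r) :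
    5 * n ^ 2 + 2 * n * Real.log (2 * n ^ 3 * Real.exp (r ^ 3)) + r ^ 3 ≤ 10 * r ^ 4 := by
  have h1 : n ^ 3 ≤ r ^ 3 := pow_le_pow_left₀ (by linarith) hn 3
  have h2 : n ^ 2 ≤ r ^ 2 := pow_le_pow_left₀ (by linarith) hn 2
  have h3 : Real.log (2 * n ^ 3 * Real.exp (r ^ 3)) ≤ 3 * r ^ 3 := by
    rw [Real.log_mul (by positivity) (Real.exp_pos _).ne', Real.log_exp]
    linarith [Real.log_le_self (show 0 ≤ 2 * n ^ 3 by positivity)]
  have h4 : 2 * n * Real.log (2 * n ^ 3 * Real.exp (r ^ 3)) ≤ 2 * r * (3 * r ^ 3) :=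
    (mul_le_mul_of_nonneg_left h3 (by linarith)).trans
      (mul_le_mul_of_nonneg_right (by linarith) (by positivity))
  have h5 : 0 ≤ r ^ 2 := by positivity
  have h6 : 0 ≤ r ^ 3 := by positivity
  nlinarith

theorem van_U (n : ℕ) (p : Bool) (i j : Fin (n + 1)) : |Um n p i j| ≤ 1 := by
  rw [Um, Matrix.of_apply]
  split_ifs <;> simp

theorem van_nrow (n k : ℕ) : nrow n k ≤ n := (card_filter_le _ _).trans (by simp)

/-- `n' = n + 1`, `m = R ^ 13`, `d h = D / N h`, `J h = d h / (2 R ^ 2)`, `g h = N h / (8 R ^ 3)`,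
`L = R (a + 4) D`, `θ = m D / (256 R ^ 5 (a + 4))`; take `P` from `exists_aux2`. Let `μ` be in the
support with weight `< D`. By `dvd_parX` with `E p = ⌈mean p - θ⌉₊` the coefficient is a nonzero
multiple of `a ^ E false * 2 ^ E true`. Its size times `exp (- D / (8 R ^ 3))` is at most the norm
for the radii `exp (- wt2 l g)`, bounded with `c = 2 n' ^ 3 exp (R ^ 3)` (`nrm_parX_X`,
`nrm_parX_det`). With `sum_le`: `∑ g J / 2 ≤ 10 R ^ 4 ∑ d + (a + 4) θ + D / (8 R ^ 3)`, while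
`g J / 2 ≥ D / (128 R ^ 5)` and `d ≤ D / R ^ 20`. -/
theorem exists_van {a R n : ℕ} (ha : Odd a) (hR : 10 ^ 7 * (a + 4) ^ 4 ≤ R) (hn : n + 1 ≤ R)
    (hι : Fintype.card ι = R ^ 13) (N : ι → ℕ) (hN : ∀ h, R ^ 20 ≤ N h)
    (F : ∀ h, Frame a R n (N h)) (D : ℕ) (hD : ∀ h, 8 * R ^ 2 * N h ≤ D) :
    ∃ P : MvPolynomial (Var ι (n + 1)) ℚ, P ≠ 0 ∧ IsInt P ∧
      BlockHom (rdeg (fun h => (F h).k) fun h => D / N h) P ∧
      len P ≤ Real.exp (5 * (R : ℝ) ^ 2) ^ (∑ h, D / N h) ∧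
      InFil (wt2 (fun h => (F h).l) fun h => (N h : ℝ)) D
        (parX (fun h => (F h).x) (fun h => (F h).k) (fun h => (F h).l) P) := by
  have hR7 : 10 ^ 7 ≤ R := le_trans (Nat.le_mul_of_pos_right _ (by positivity)) hR
  have hR0 : 0 < R := by omega
  have hr : (10 : ℝ) ≤ R := by exact_mod_cast (show 10 ≤ R by omega)
  have hr0 : (0 : ℝ) < R := by linarith
  have hN0 : ∀ h, 0 < N h := fun h => lt_of_lt_of_le (by positivity) (hN h)
  have hN0' : ∀ h, (0 : ℝ) < N h := fun h => by exact_mod_cast hN0 h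
  obtain ⟨h₀⟩ : Nonempty ι := Fintype.card_pos_iff.1 (by rw [hι]; positivity)
  have hD0 : (0 : ℝ) < D := by
    have := hN0 h₀
    exact_mod_cast lt_of_lt_of_le (by positivity) (hD h₀)
  have hn' : ((n + 1 : ℕ) : ℝ) ≤ R := by exact_mod_cast hn
  have hn1 : (1 : ℝ) ≤ ((n + 1 : ℕ) : ℝ) := by exact_mod_cast Nat.le_add_left 1 n
  have ha0 : (0 : ℝ) ≤ a := Nat.cast_nonneg a
  have hm : (Fintype.card ι : ℝ) = (R : ℝ) ^ 13 := by exact_mod_cast hι
  set d : ι → ℕ := fun h => D / N h with hd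
  set J : ι → ℕ := fun h => d h / (2 * R ^ 2) with hJ
  set g : ι → ℝ := fun h => N h / (8 * (R : ℝ) ^ 3) with hg
  set θ : ℝ := (R : ℝ) ^ 13 * D / (256 * (R : ℝ) ^ 5 * (a + 4)) with hθ
  have hθ0 : 0 < θ := by positivity
  have hg0 : ∀ h, 0 ≤ g h := fun h => by have := hN0' h; positivity
  have hdN : ∀ h, (d h : ℝ) * N h ≤ D := fun h => by exact_mod_cast Nat.div_mul_le_self D (N h)
  have hL : ∀ h (t : ℝ), |t| ≤ (a + 4) * N h →
      ((n + 1 : ℕ) : ℝ) * d h * |t| ≤ R * (a + 4) * D := fun h t ht => by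
    calc _ ≤ (R : ℝ) * d h * ((a + 4) * N h) := by gcongr
      _ = R * (a + 4) * (d h * N h) := by ring
      _ ≤ _ := by gcongr; exact hdN h
  obtain ⟨P, h0, hI, hB, hl, he, hnrm⟩ := exists_aux2 (n := n + 1) (L := R * (a + 4) * D)
    (Nat.le_add_left 1 n) (fun h => (F h).k) d J (fun h => (F h).π)
    (fun h => (Nat.mul_le_mul_right _ (Nat.mul_le_mul_left 2 (Nat.pow_le_pow_left hn 2))).trans
      (Nat.mul_div_le _ _)) (fun h => (F h).w) g hg0 (Um n) (van_U n)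
    (fun p h v => ((F h).e p v : ℝ)) hθ0 (fun h v => hL h _ ((F h).w_le v))
    (fun p h v => hL h _ (by
      have h1 : ((F h).e p v : ℝ) ≤ N h := by exact_mod_cast (F h).e_le p v
      rw [abs_of_nonneg (Nat.cast_nonneg _)]
      nlinarith [hN0' h]))
    (fun h => by
      have h1 : (J h : ℝ) ≤ d h := by exact_mod_cast Nat.div_le_self _ _
      have h2 : g h ≤ N h :=
        div_le_self (hN0' h).le (by nlinarith [pow_le_pow_left₀ (by norm_num) hr 3])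
      calc g h * J h ≤ N h * d h := mul_le_mul h2 h1 (Nat.cast_nonneg _) (hN0' h).le
        _ ≤ D := by rw [mul_comm]; exact hdN h
        _ ≤ _ := le_mul_of_one_le_left hD0.le (by nlinarith))
    (by
      have h1 : (10 : ℝ) ^ 7 * (a + 4) ^ 4 ≤ R := by exact_mod_cast hR
      rw [hm, hθ, div_pow, le_div_iff₀ (by positivity)]
      calc _ = (R : ℝ) ^ 25 * D ^ 2 * (80 * 256 ^ 2 * (a + 4) ^ 4) := by ring
        _ ≤ (R : ℝ) ^ 25 * D ^ 2 * R := by
          refine mul_le_mul_of_nonneg_left (le_trans ?_ h1) (by positivity)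
          exact mul_le_mul_of_nonneg_right (by norm_num) (by positivity)
        _ = _ := by ring)
  refine ⟨P, h0, hI, hB, hl.trans (pow_le_pow_left₀ (Real.exp_pos _).le (Real.exp_le_exp.2 ?_) _),
    fun μ hμ => ?_⟩
  · gcongr
  by_contra hlt
  set M : Bool → ℝ := fun p => ∑ h, (nrow (n + 1) (F h).k : ℝ) * d h / ((n + 1 : ℕ) : ℝ) *
    ∑ v, ((F h).e p v : ℝ) with hM
  have hz : ∀ p, ∃ z : ℤ, coeff μ (parX (fun h => (F h).x) (fun h => (F h).k)
      (fun h => (F h).l) P) = ((bs a p : ℕ) : ℚ) ^ ⌈M p - θ⌉₊ * z := fun p =>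
    dvd_parX _ (fun h => (F h).y p) (Um n p) (fun h => (F h).y_eq p) (bs a p)
      (fun h => (F h).e p) (fun h => (F h).y_dvd p) _ _ hI _ (fun ν hν => by
        rw [Nat.ceil_le, van_cast]
        exact he p ν hν) μ
  obtain ⟨z, hz1⟩ := hz false
  obtain ⟨z', hz2⟩ := hz true
  have h1 := van_dvd ha (mem_support_iff.1 hμ) hz1 hz2
  have hc : (1 : ℝ) ≤ 2 * ((n + 1 : ℕ) : ℝ) ^ 3 * Real.exp ((R : ℝ) ^ 3) :=
    one_le_mul_of_one_le_of_one_le (by nlinarith [one_le_pow₀ (n := 3) hn1])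
      (Real.one_le_exp (by positivity))
  have h2 := (coeff_le_nrm (fun t => (Real.exp_pos _).le) _ μ).trans (hnrm
    (parX (fun h => (F h).x) (fun h => (F h).k) fun h => (F h).l)
    (fun t => Real.exp (-wt2 (fun h => (F h).l) g t)) (fun t => (Real.exp_pos _).le) _ hc
    (fun s => (nrm_parX_X _ _ _ g hg0 (fun h => (F h).w) _ (fun h => (F h).bd) s).trans (by
      gcongr
      norm_num))
    (nrm_parX_det _ _ _ (fun h => (F h).kl) _ g hg0 (fun h => (F h).w) _ (by positivity)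
      (fun h => (F h).bd) fun h => (F h).bd'))
  rw [van_rad, van_wt (wt2 (fun h => (F h).l) fun h => (N h : ℝ)) _ (8 * (R : ℝ) ^ 3) (by
    rintro (s | s)
    · simp only [wt2, hg]
      split_ifs <;> simp
    · simp [wt2]), Rat.AbsoluteValue.real_eq_abs, Rat.cast_abs,
    ← Real.exp_log (zero_lt_one.trans_le hc), ← Real.exp_nat_mul, ← Real.exp_add,
    ← Real.exp_nat_mul, ← Real.exp_add] at h2
  have h3 := (mul_le_mul_of_nonneg_right h1 (Real.exp_pos _).le).trans h2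
  rw [← Real.exp_add, Real.exp_le_exp] at h3
  have hla : 0 ≤ Real.log a := Real.log_natCast_nonneg a
  have hla' : Real.log a ≤ a := Real.log_le_self ha0
  have hl2 : 0 ≤ Real.log 2 := Real.log_nonneg one_le_two
  have hl2' : Real.log 2 ≤ 1 := by linarith [Real.log_two_lt_d9]
  have h4 := mul_le_mul_of_nonneg_left (Nat.le_ceil (M false - θ)) hla
  have h5 := mul_le_mul_of_nonneg_left (Nat.le_ceil (M true - θ)) hl2
  have h6 := div_lt_div_of_pos_right (not_le.1 hlt) (show 0 < 8 * (R : ℝ) ^ 3 by positivity)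
  have h7 : ∑ h, ((nrow (n + 1) (F h).k : ℝ) * d h / ((n + 1 : ℕ) : ℝ) * ∑ v, (F h).w v -
      g h * J h / 2) ≤ Real.log a * M false + Real.log 2 * M true +
      (R : ℝ) ^ 3 * ((∑ h, d h : ℕ) : ℝ) - (R : ℝ) ^ 13 * (D / (128 * (R : ℝ) ^ 5)) := by
    rw [← hm, hM, Nat.cast_sum, mul_sum, mul_sum, mul_sum, ← nsmul_eq_mul, ← card_univ,
      ← sum_const, ← sum_add_distrib, ← sum_add_distrib, ← sum_sub_distrib]
    refine sum_le_sum fun h _ => ?_
    have h8 : (nrow (n + 1) (F h).k : ℝ) ≤ ((n + 1 : ℕ) : ℝ) := by exact_mod_cast van_nrow _ _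
    have h9 : (nrow (n + 1) (F h).k : ℝ) * d h / ((n + 1 : ℕ) : ℝ) ≤ d h := by
      rw [div_le_iff₀ (by linarith), mul_comm]
      gcongr
    have h10 : (0 : ℝ) ≤ (nrow (n + 1) (F h).k : ℝ) * d h / ((n + 1 : ℕ) : ℝ) := by positivity
    have h11 := mul_le_mul_of_nonneg_left (F h).sum_le h10
    have h12 := mul_le_mul_of_nonneg_left h9 (show 0 ≤ (R : ℝ) ^ 3 by positivity)
    have h13 : (D : ℝ) ≤ 8 * R ^ 2 * (N h * J h) := by
      exact_mod_cast van_floor hR0 (hN0 h) (hD h)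
    have h14 : D / (128 * (R : ℝ) ^ 5) ≤ g h * J h / 2 := by
      rw [div_le_iff₀ (by positivity)]
      refine h13.trans (le_of_eq ?_)
      simp only [hg]
      field_simp
      ring
    linarith
  have h15 : ((∑ h, d h : ℕ) : ℝ) * (R : ℝ) ^ 7 ≤ D := by
    refine le_of_mul_le_mul_right ?_ (show 0 < (R : ℝ) ^ 13 by positivity)
    rw [mul_assoc, ← pow_add, Nat.cast_sum, sum_mul, mul_comm (D : ℝ), ← hm, ← nsmul_eq_mul,
      ← card_univ, ← sum_const]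
    refine sum_le_sum fun h _ => le_trans ?_ (hdN h)
    gcongr
    exact_mod_cast hN h
  have h16 := van_num (T := 1 + Real.log a + Real.log 2) hr (show (0 : ℝ) < a + 4 by linarith) hD0
    h15 (Nat.cast_nonneg _) (van_log hr hn1 hn') (by linarith)
  rw [← hθ] at h16
  push_cast at h3 h7 h16
  linarith

end Pool.Agent.Lib.MP_dee342_nt.Q
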