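import Pool.Agent.Lib.MP_dee342_nt.RgLin

/-!
Determinant expansions and bounds.
-/

set_option autoImplicit false

namespace Pool.Agent.Lib.MP_dee342_nt.Gr

open Filter Topology Finset

/-- One term of the expansion. -/
def rgdet_term {s : ℕ} (φ : Matrix (Fin s) (Fin s) ℤ) (d : Fin s → ℤ) (σ : Equiv.Perm (Fin s))
    (A : Finset (Fin s)) : ℤ :=
  (Equiv.Perm.sign σ : ℤ) * ((∏ i ∈ A, φ (σ i) i) *
    ∏ i ∈ univ \ A, (-(Matrix.diagonal d (σ i) i)))

theorem rgdet_term_le {s : ℕ} (φ : Matrix (Fin s) (Fin s) ℤ) (d : Fin s → ℤ) (X : ℤ) (hX : 1 ≤ X)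
    (hφ : ∀ i j, |φ i j| ≤ X) (hd : ∀ i, |d i| ≤ X) (σ : Equiv.Perm (Fin s))
    (A : Finset (Fin s)) : |rgdet_term φ d σ A| ≤ X ^ s := by
  have hs : |(Equiv.Perm.sign σ : ℤ)| = 1 := by
    rcases Int.units_eq_one_or (Equiv.Perm.sign σ) with h | h <;> simp [h]
  have h1 : |∏ i ∈ A, φ (σ i) i| ≤ X ^ A.card := by
    rw [Finset.abs_prod, ← Finset.prod_const]
    exact Finset.prod_le_prod (fun i _ => abs_nonneg _) (fun i _ => hφ _ _)
  have h2 : |∏ i ∈ univ \ A, (-(Matrix.diagonal d (σ i) i))| ≤ X ^ (univ \ A).card := by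
    rw [Finset.abs_prod, ← Finset.prod_const]
    refine Finset.prod_le_prod (fun i _ => abs_nonneg _) (fun i _ => ?_)
    rw [abs_neg, Matrix.diagonal_apply]
    split_ifs
    · exact hd _
    · simp; linarith
  have hc : A.card + (univ \ A).card = s := by
    rw [Finset.card_univ_sdiff, Fintype.card_fin]
    have := Finset.card_le_univ A
    rw [Fintype.card_fin] at this
    omega
  unfold rgdet_term
  rw [abs_mul, hs, one_mul, abs_mul]
  calc _ ≤ X ^ A.card * X ^ (univ \ A).card :=
        mul_le_mul h1 h2 (abs_nonneg _) (by positivity)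
    _ = X ^ s := by rw [← pow_add, hc]

/-- Expansion of `det (S φ - T diag d)` over permutations and subsets (`Finset.prod_add`), grouped
by the cardinality of the subset. -/
theorem det_expand {s : ℕ} (φ : Matrix (Fin s) (Fin s) ℤ) (d : Fin s → ℤ) (X : ℤ) (hX : 1 ≤ X)
    (hφ : ∀ i j, |φ i j| ≤ X) (hd : ∀ i, |d i| ≤ X) :
    ∃ c : ℕ → ℤ, (∀ i, |c i| ≤ s.factorial * 2 ^ s * X ^ s) ∧ c 0 = ∏ i, (-d i) ∧ c s = φ.det ∧
      ∀ S T : ℤ, (S • φ - T • Matrix.diagonal d).det =
        ∑ i ∈ range (s + 1), c i * S ^ i * T ^ (s - i) := by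
  refine ⟨fun k => ∑ σ : Equiv.Perm (Fin s), ∑ A ∈ powersetCard k (univ : Finset (Fin s)),
    rgdet_term φ d σ A, ?_, ?_, ?_, ?_⟩
  · intro k
    have hc : ((powersetCard k (univ : Finset (Fin s))).card : ℤ) ≤ 2 ^ s := by
      have h : (powersetCard k (univ : Finset (Fin s))).card ≤ 2 ^ s := by
        rw [Finset.card_powersetCard, Finset.card_univ, Fintype.card_fin]
        exact Nat.choose_le_two_pow s k
      exact_mod_cast h
    calc _ ≤ ∑ σ : Equiv.Perm (Fin s), |∑ A ∈ powersetCard k (univ : Finset (Fin s)),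
            rgdet_term φ d σ A| := Finset.abs_sum_le_sum_abs _ _
      _ ≤ ∑ _σ : Equiv.Perm (Fin s), 2 ^ s * X ^ s := by
          refine Finset.sum_le_sum (fun σ _ => ?_)
          calc _ ≤ ∑ A ∈ powersetCard k (univ : Finset (Fin s)), |rgdet_term φ d σ A| :=
                Finset.abs_sum_le_sum_abs _ _
            _ ≤ ∑ _A ∈ powersetCard k (univ : Finset (Fin s)), X ^ s :=
                Finset.sum_le_sum (fun A _ => rgdet_term_le φ d X hX hφ hd σ A)
            _ = (powersetCard k (univ : Finset (Fin s))).card * X ^ s := by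
                rw [Finset.sum_const, nsmul_eq_mul]
            _ ≤ 2 ^ s * X ^ s := mul_le_mul_of_nonneg_right hc (by positivity)
      _ = s.factorial * 2 ^ s * X ^ s := by
          rw [Finset.sum_const, Finset.card_univ, Fintype.card_perm, Fintype.card_fin,
            nsmul_eq_mul, mul_assoc]
  · have h : (Matrix.diagonal (fun i => -d i)).det = ∏ i, (-d i) := Matrix.det_diagonal
    rw [← h, Matrix.det_apply']
    simp only [Finset.powersetCard_zero, Finset.sum_singleton, rgdet_term, Finset.prod_empty,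
      one_mul, Finset.sdiff_empty]
    refine Finset.sum_congr rfl (fun σ _ => ?_)
    congr 1
    refine Finset.prod_congr rfl (fun i _ => ?_)
    simp only [Matrix.diagonal_apply]
    split_ifs <;> simp
  · have h : powersetCard s (univ : Finset (Fin s)) = {univ} := by
      have := Finset.powersetCard_self (univ : Finset (Fin s))
      rwa [Finset.card_univ, Fintype.card_fin] at this
    rw [Matrix.det_apply']
    simp only [h, Finset.sum_singleton, rgdet_term, Finset.sdiff_self, Finset.prod_empty, mul_one]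
    rfl
  · intro S T
    rw [Matrix.det_apply']
    have key : ∀ σ : Equiv.Perm (Fin s),
        ((Equiv.Perm.sign σ : ℤ) : ℤ) * ∏ i, (S • φ - T • Matrix.diagonal d) (σ i) i =
          ∑ k ∈ range (s + 1), (∑ A ∈ powersetCard k (univ : Finset (Fin s)),
            rgdet_term φ d σ A) * S ^ k * T ^ (s - k) := by
      intro σ
      have e1 : ∀ i, (S • φ - T • Matrix.diagonal d) (σ i) i =
          S * φ (σ i) i + T * (-(Matrix.diagonal d (σ i) i)) := by
        intro i
        simp only [Matrix.sub_apply, Matrix.smul_apply, smul_eq_mul]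
        ring
      simp only [e1]
      rw [Finset.prod_add, Finset.sum_powerset, Finset.card_univ, Fintype.card_fin,
        Finset.mul_sum]
      refine Finset.sum_congr rfl (fun k _ => ?_)
      rw [Finset.mul_sum, Finset.sum_mul, Finset.sum_mul]
      refine Finset.sum_congr rfl (fun A hA => ?_)
      have hA' : A.card = k := (Finset.mem_powersetCard.1 hA).2
      have hB : (univ \ A).card = s - k := by
        rw [Finset.card_univ_sdiff, Fintype.card_fin, hA']
      rw [Finset.prod_mul_distrib, Finset.prod_mul_distrib, Finset.prod_const, Finset.prod_const,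
        hA', hB]
      unfold rgdet_term
      ring
    have key2 : ∑ σ : Equiv.Perm (Fin s), ((Equiv.Perm.sign σ : ℤ) : ℤ) *
        ∏ i, (S • φ - T • Matrix.diagonal d) (σ i) i = ∑ σ : Equiv.Perm (Fin s),
          ∑ k ∈ range (s + 1), (∑ A ∈ powersetCard k (univ : Finset (Fin s)),
            rgdet_term φ d σ A) * S ^ k * T ^ (s - k) :=
      Finset.sum_congr rfl (fun σ _ => key σ)
    refine key2.trans ?_
    rw [Finset.sum_comm]
    refine Finset.sum_congr rfl (fun k _ => ?_)
    rw [Finset.sum_mul, Finset.sum_mul]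

/-- Cramer's rule with bounds: `det M * z b = det (M.updateCol b (M *ᵥ z))`
(`Matrix.det_updateCol_sum`), and `Matrix.det_le` after scaling, or the Leibniz formula. -/
theorem cramer_bound {s : ℕ} (M : Matrix (Fin s) (Fin s) ℝ) (z : Fin s → ℝ) (x y : ℝ)
    (hx : 0 ≤ x) (hM : ∀ i j, |M i j| ≤ x) (hz : ∀ i, |M.mulVec z i| ≤ y) (b : Fin s) :
    |M.det| * |z b| ≤ s.factorial * x ^ (s - 1) * y := by
  have h1 : M.det * z b = (M.updateCol b (M.mulVec z)).det := by
    rw [← Matrix.cramer_apply, Matrix.cramer_eq_adjugate_mulVec, Matrix.mulVec_mulVec,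
      Matrix.adjugate_mul, Matrix.smul_mulVec, Matrix.one_mulVec]
    simp
  rw [← abs_mul, h1, Matrix.det_apply']
  have hy : 0 ≤ y := le_trans (abs_nonneg _) (hz b)
  calc _ ≤ ∑ σ : Equiv.Perm (Fin s), |((Equiv.Perm.sign σ : ℤ) : ℝ) *
          ∏ i, M.updateCol b (M.mulVec z) (σ i) i| := Finset.abs_sum_le_sum_abs _ _
    _ ≤ ∑ _σ : Equiv.Perm (Fin s), x ^ (s - 1) * y := by
        refine Finset.sum_le_sum (fun σ _ => ?_)
        have hs : |((Equiv.Perm.sign σ : ℤ) : ℝ)| = 1 := by
          rcases Int.units_eq_one_or (Equiv.Perm.sign σ) with h | h <;> simp [h]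
        rw [abs_mul, hs, one_mul, Finset.abs_prod,
          ← Finset.prod_erase_mul _ _ (Finset.mem_univ b)]
        refine mul_le_mul ?_ ?_ (abs_nonneg _) (by positivity)
        · have hc : ((univ : Finset (Fin s)).erase b).card = s - 1 := by
            rw [Finset.card_erase_of_mem (Finset.mem_univ b), Finset.card_univ, Fintype.card_fin]
          rw [← hc, ← Finset.prod_const]
          refine Finset.prod_le_prod (fun i _ => abs_nonneg _) (fun i hi => ?_)
          rw [Matrix.updateCol_ne (Finset.ne_of_mem_erase hi)]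
          exact hM _ _
        · rw [Matrix.updateCol_self]
          exact hz _
    _ = s.factorial * x ^ (s - 1) * y := by
        rw [Finset.sum_const, Finset.card_univ, Fintype.card_perm, Fintype.card_fin,
          nsmul_eq_mul, mul_assoc]

end Pool.Agent.Lib.MP_dee342_nt.Gr
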