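import Pool.Agent.Lib.MP_dee342_nt.RgRound

/-!
The inductive step of the rigidity theorem.
-/

set_option autoImplicit false

namespace Pool.Agent.Lib.MP_dee342_nt.Gr

open Filter Topology Finset

/-- `s + 1` solutions of slack `N / E`, the first being the system itself, independent on all the
windows of length `c + 2` inside a window of length `W`. -/
def Fam (a c N R : ℕ) (g : ℕ → ℤ) (σ τ : ℕ → ℕ) (s W E : ℕ) : Prop :=
  ∃ (p : ℕ) (A G : Fin (s + 1) → ℕ → ℤ), p + W ≤ R ∧ (∀ k, A 0 k = 1) ∧ G 0 = g ∧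
    (∀ b, Sol a σ τ (bet a g σ τ) p W (2 ^ (N / E)) (2 ^ (c * N + N / E)) (A b) (G b)) ∧
    ∀ i, p ≤ i → i + (c + 2) ≤ p + W → Ind A (c + 2) i

theorem rgstep_close {x y d : ℕ} (hd : 1 ≤ d) (h : x / d = y / d) : x ≤ y + d := by
  have h1 := Nat.div_add_mod x d
  have h2 := Nat.div_add_mod y d
  have h3 := Nat.mod_lt x hd
  rw [h] at h1
  omega

/-- Two windows of length `W` starting in `[p₀, p₀ + P]` with the same labels and exponents within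
`d`: pigeonhole on the labels and on the quotients `σ / d`, `τ / d ≤ H`. -/
theorem two_windows (K H W : ℕ) : ∃ P : ℕ, ∀ (σ τ : ℕ → ℕ) (lab : ℕ → Fin K) (p₀ d : ℕ), 1 ≤ d →
    (∀ k, p₀ ≤ k → k < p₀ + (P + W) → σ k ≤ H * d ∧ τ k ≤ H * d) →
    ∃ p p', p₀ ≤ p ∧ p < p' ∧ p' ≤ p₀ + P ∧ ∀ i < W, lab (p + i) = lab (p' + i) ∧
      (σ (p + i) ≤ σ (p' + i) + d ∧ σ (p' + i) ≤ σ (p + i) + d) ∧
      τ (p + i) ≤ τ (p' + i) + d ∧ τ (p' + i) ≤ τ (p + i) + d := by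
  refine ⟨(Fintype.piFinset fun _ : Fin W =>
    (univ : Finset (Fin K)) ×ˢ range (H + 1) ×ˢ range (H + 1)).card, ?_⟩
  intro σ τ lab p₀ d hd hb
  obtain ⟨P, hP⟩ : ∃ P, P = (Fintype.piFinset fun _ : Fin W =>
    (univ : Finset (Fin K)) ×ˢ range (H + 1) ×ˢ range (H + 1)).card := ⟨_, rfl⟩
  rw [← hP] at hb ⊢
  have key : ∀ j j', j < j' → j' ≤ P →
      (fun i : Fin W => (lab (p₀ + j + i), σ (p₀ + j + i) / d, τ (p₀ + j + i) / d)) =
        (fun i : Fin W => (lab (p₀ + j' + i), σ (p₀ + j' + i) / d, τ (p₀ + j' + i) / d)) →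
      ∃ p p', p₀ ≤ p ∧ p < p' ∧ p' ≤ p₀ + P ∧ ∀ i < W, lab (p + i) = lab (p' + i) ∧
        (σ (p + i) ≤ σ (p' + i) + d ∧ σ (p' + i) ≤ σ (p + i) + d) ∧
        τ (p + i) ≤ τ (p' + i) + d ∧ τ (p' + i) ≤ τ (p + i) + d := by
    intro j j' h1 h2 h
    refine ⟨p₀ + j, p₀ + j', by omega, by omega, by omega, fun i hi => ?_⟩
    have h3 := congrFun h ⟨i, hi⟩
    simp only [Prod.mk.injEq] at h3
    exact ⟨h3.1, ⟨rgstep_close hd h3.2.1, rgstep_close hd h3.2.1.symm⟩,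
      rgstep_close hd h3.2.2, rgstep_close hd h3.2.2.symm⟩
  obtain ⟨j, hj, j', hj', hne, h⟩ := exists_ne_map_eq_of_card_lt_of_maps_to (s := range (P + 1))
    (t := Fintype.piFinset fun _ : Fin W =>
      (univ : Finset (Fin K)) ×ˢ range (H + 1) ×ˢ range (H + 1))
    (by rw [card_range, ← hP]; omega)
    (f := fun j (i : Fin W) => (lab (p₀ + j + i), σ (p₀ + j + i) / d, τ (p₀ + j + i) / d))
    (fun j hj => by
      have h1 := mem_range.1 (mem_coe.1 hj)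
      refine mem_coe.2 (Fintype.mem_piFinset.2 fun i => ?_)
      have h2 := hb (p₀ + j + i) (by omega) (by have := i.2; omega)
      exact mem_product.2 ⟨mem_univ _, mem_product.2
        ⟨mem_range.2 (Nat.lt_succ_of_le (Nat.div_le_of_le_mul (mul_comm H d ▸ h2.1))),
          mem_range.2 (Nat.lt_succ_of_le (Nat.div_le_of_le_mul (mul_comm H d ▸ h2.2)))⟩⟩)
  have h1 := mem_range.1 hj
  have h2 := mem_range.1 hj'
  rcases lt_or_gt_of_ne hne with k | k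
  · exact key j j' k (by omega) h
  · exact key j' j k (by omega) h.symm

theorem rgstep_ind {r l q : ℕ} {A : Fin r → ℕ → ℤ} (h : Ind A l q) {v : Fin r → ℤ}
    (hv : ∀ j < l, ∑ b, v b * A b (q + j) = 0) : v = 0 := by
  funext b
  have h1 := Fintype.linearIndependent_iff.1 h (fun b => (v b : ℚ)) (funext fun j => by
    have h2 := congrArg (Int.cast : ℤ → ℚ) (hv j j.2)
    simpa [Finset.sum_apply] using h2) b
  exact_mod_cast h1

theorem rgstep_ker {a : ℕ} (ha : Odd a) {σ τ : ℕ → ℕ} {β : ℕ → ℤ} {p W N l r : ℕ} {X Y : ℤ}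
    {A G : Fin r → ℕ → ℤ} (h : ∀ b, Sol a σ τ β p W X Y (A b) (G b)) (hX : 1 ≤ X)
    (hσ : ∀ k, p ≤ k → k < p + W → N ≤ σ k) (hY : r * (r * X) ^ r * Y < 2 ^ (l * N)) {i : ℕ}
    (hi : p ≤ i) (hil : i + l ≤ p + W) (hd : ¬ Ind A l i) :
    ∃ v : Fin r → ℤ, v ≠ 0 ∧ (∀ b, |v b| ≤ (r * X) ^ r) ∧
      (∀ j < l, ∑ b, v b * A b (i + j) = 0) ∧ ∑ b, v b * G b i = 0 := by
  obtain ⟨v, h1, h2, h3⟩ := small_kernel (fun b (j : Fin l) => A b (i + j)) X hX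
    (fun b j => ((h b).1 _ (by omega) (by have := j.2; omega)).2) hd
  exact ⟨v, h1, h2, fun j hj => h3 ⟨j, hj⟩,
    (Sol.comb h v _ h2).zero_run ha hσ hY i hi hil fun j hj => h3 ⟨j, hj⟩⟩

theorem rgstep_back {a : ℕ} (ha : Odd a) {σ τ : ℕ → ℕ} {β : ℕ → ℤ} {p W N l r : ℕ} {X Y : ℤ}
    {A G : Fin r → ℕ → ℤ} (h : ∀ b, Sol a σ τ β p W X Y (A b) (G b)) (hX : 1 ≤ X)
    (hβ : ∀ k, p ≤ k → k < p + W → Odd (β k) ∧ N ≤ σ k) (hX' : r * (r * X) ^ r * X < 2 ^ N)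
    (hY : r * (r * X) ^ r * Y < 2 ^ (l * N)) {i q : ℕ} (hi : p ≤ i) (hiq : i ≤ q)
    (hq : q + l ≤ p + W) (hd : Ind A l q) : Ind A l i := by
  by_contra k
  obtain ⟨v, h1, h2, -, h4⟩ := rgstep_ker ha h hX (fun k k1 k2 => (hβ k k1 k2).2) hY hi
    (by omega) k
  exact h1 (rgstep_ind hd fun j hj =>
    ((Sol.comb h v _ h2).dead hβ hX' i hi h4 (q + j) (by omega) (by omega)).1)

theorem rgstep_snoc {a : ℕ} {σ τ : ℕ → ℕ} {β : ℕ → ℤ} {p W r : ℕ} {X Y : ℤ}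
    {A G : Fin r → ℕ → ℤ} {A' G' : ℕ → ℤ} (h : ∀ b, Sol a σ τ β p W X Y (A b) (G b))
    (h' : Sol a σ τ β p W X Y A' G') (b : Fin (r + 1)) :
    Sol a σ τ β p W X Y ((Fin.snoc A A' : Fin (r + 1) → ℕ → ℤ) b)
      ((Fin.snoc G G' : Fin (r + 1) → ℕ → ℤ) b) := by
  refine Fin.lastCases ?_ (fun b => ?_) b
  · simpa only [Fin.snoc_last] using h'
  · simpa only [Fin.snoc_castSucc] using h b

theorem rgstep_rel {a : ℕ} (ha : Odd a) {σ τ : ℕ → ℕ} {β : ℕ → ℤ} {p W N l r : ℕ} {X Y : ℤ}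
    {A G : Fin r → ℕ → ℤ} {A' G' : ℕ → ℤ} (h : ∀ b, Sol a σ τ β p W X Y (A b) (G b))
    (h' : Sol a σ τ β p W X Y A' G') (hX : 1 ≤ X) (hσ : ∀ k, p ≤ k → k < p + W → N ≤ σ k)
    (hY : (r + 1 : ℕ) * ((r + 1 : ℕ) * X) ^ (r + 1) * Y < 2 ^ (l * N)) {q : ℕ} (hq : p ≤ q)
    (hql : q + l ≤ p + W) (hi : Ind A l q)
    (hd : ¬ Ind (Fin.snoc A A' : Fin (r + 1) → ℕ → ℤ) l q) :
    ∃ (Δ : ℤ) (φ : Fin r → ℤ), Δ ≠ 0 ∧ |Δ| ≤ ((r + 1 : ℕ) * X) ^ (r + 1) ∧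
      (∀ b, |φ b| ≤ ((r + 1 : ℕ) * X) ^ (r + 1)) ∧
      (∀ j < l, Δ * A' (q + j) = ∑ b, φ b * A b (q + j)) ∧ Δ * G' q = ∑ b, φ b * G b q := by
  obtain ⟨v, h1, h2, h3, h4⟩ := rgstep_ker ha (rgstep_snoc h h') hX hσ hY hq hql hd
  simp only [Fin.sum_univ_castSucc, Fin.snoc_castSucc, Fin.snoc_last] at h3 h4
  refine ⟨v (Fin.last r), fun b => -v b.castSucc, fun k => h1 ?_, h2 _,
    fun b => by rw [abs_neg]; exact h2 _, fun j hj => ?_, ?_⟩
  · have h5 := rgstep_ind hi (v := fun b => v b.castSucc) fun j hj => by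
      have h6 := h3 j hj
      rwa [k, zero_mul, add_zero] at h6
    funext b
    exact Fin.lastCases k (fun b => congrFun h5 b) b
  · simp only [neg_mul, sum_neg_distrib]
    linarith [h3 j hj]
  · simp only [neg_mul, sum_neg_distrib]
    linarith

theorem rgstep_det {r l q q' : ℕ} {A : Fin r → ℕ → ℤ} (hi : Ind A l q') {Δ : Fin r → ℤ}
    {φ : Matrix (Fin r) (Fin r) ℤ} {Λ : ℕ → ℤ} (hΔ : ∀ b, Δ b ≠ 0) (hΛ : ∀ j < l, Λ j ≠ 0)
    (h : ∀ b, ∀ j < l, Δ b * (Λ j * A b (q' + j)) = ∑ b', φ b b' * A b' (q + j)) :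
    φ.det ≠ 0 := by
  intro h0
  obtain ⟨v, hv, h1⟩ := Matrix.exists_vecMul_eq_zero_iff.2 h0
  refine hv (funext fun b => ?_)
  have h2 := rgstep_ind hi (v := fun b => v b * Δ b) fun j hj => by
    refine (mul_eq_zero.1 ?_).resolve_left (hΛ j hj)
    have h3 : ∀ b', ∑ b, v b * φ b b' = 0 := fun b' => congrFun h1 b'
    calc Λ j * ∑ b, v b * Δ b * A b (q' + j)
        = ∑ b, v b * (Δ b * (Λ j * A b (q' + j))) := by
          rw [mul_sum]
          exact sum_congr rfl fun b _ => by ring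
      _ = ∑ b', (∑ b, v b * φ b b') * A b' (q + j) := by
          simp only [h _ j hj, mul_sum, sum_mul, mul_assoc]
          exact sum_comm
      _ = 0 := by simp only [h3, zero_mul, sum_const_zero]
  exact (mul_eq_zero.1 (congrFun h2 b)).resolve_right (hΔ b)

theorem rgstep_num {r u : ℕ} (h : r ≤ u) : (r : ℤ) * 2 ^ (2 * u) ≤ 2 ^ (3 * u) ∧
    ((r : ℤ) * 2 ^ (2 * u)) ^ r * 2 ^ (3 * u) ≤ 2 ^ (3 * (r + 1) * u) := by
  have h1 : (r : ℤ) ≤ 2 ^ u := by exact_mod_cast (h.trans Nat.lt_two_pow_self.le)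
  have h2 : (r : ℤ) * 2 ^ (2 * u) ≤ 2 ^ (3 * u) := by
    rw [show 3 * u = u + 2 * u by ring, pow_add]
    exact mul_le_mul_of_nonneg_right h1 (by positivity)
  refine ⟨h2, ?_⟩
  rw [show 3 * (r + 1) * u = 3 * u * r + 3 * u by ring, pow_add, pow_mul 2 (3 * u) r]
  exact mul_le_mul_of_nonneg_right (pow_le_pow_left₀ (by positivity) h2 r) (by positivity)

theorem rgstep_odd {a c B N R K : ℕ} (ha : Odd a) (hN : 1 ≤ N) {g : ℕ → ℤ} {σ τ : ℕ → ℕ}
    {lab : ℕ → Fin K} (hS : Sys a c B N R g σ τ lab) {k : ℕ} (hk : k < R) :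
    Odd (bet a g σ τ k) := by
  have h1 := (hS.2.1 k hk).1
  refine Even.sub_odd (Even.mul_right (Even.pow_of_ne_zero even_two (by omega)) _) ?_
  exact (((Int.odd_coe_nat a).2 ha).pow).mul (hS.1 k hk.le).1

theorem rgstep_pow {m n : ℕ} (h : m ≤ n) : (2 : ℤ) ^ m ≤ 2 ^ n := pow_le_pow_right₀ one_le_two h

/-- The step. Let `l = c + 2`, `W'' = W' + l`, `u = N / E` with `E` a large multiple of `E'` and of
the `E` of `no_round`, `d = N / (4 a W'' E)` (so `4 a W'' d ≤ u`, and `σ, τ ≤ H d` with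
`H = 8 a W'' E B` for large `N`), `P` from `two_windows`, `W = P + W''`. Transport the family from
`p'` to `p` (slack `2 u`). Let `q = p + W'`. If for some `b₀` the family with the transported `b₀`
added last (`Fin.snoc`) is independent at `q`, it is independent at each `i ∈ [p, q]` (otherwise
`small_kernel`, `Sol.comb`, `Sol.zero_run`, `Sol.dead` give a dependence at `q`), which is `Fam` on
`[p, p + W'']`. Otherwise `small_kernel` gives, for each `b`, `Δ b ≠ 0` and `φ b` with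
`Δ b Ã b = ∑ φ b b' A b'` on the window at `q`, hence (`Sol.zero_run`)
`Δ b Λ W' G b (p' + W') = ∑ φ b b' G b' q`; `det φ ≠ 0` by independence at `p' + W'`
(`Matrix.exists_vecMul_eq_zero_iff`). For `s = 0`, `Δ Λ W' = φ`, so `g` repeats with equal labels;
for `s ≥ 1` use `no_round` with `L = p' - p ≤ P`. -/
theorem fam_step (a : ℕ) (ha : Odd a) (ha3 : 3 ≤ a) (c B K s W' E' : ℕ) (hE' : 1 ≤ E') :
    ∃ W E N₀ : ℕ, 1 ≤ E ∧ ∀ N ≥ N₀, ∀ (R : ℕ) (g : ℕ → ℤ) (σ τ : ℕ → ℕ) (lab : ℕ → Fin K),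
      Sys a c B N R g σ τ lab → (∀ k k', k < k' → k' < R → lab k = lab k' → g k ≠ g k') →
      Fam a c N R g σ τ s W E → Fam a c N R g σ τ (s + 1) W' E' := by
  obtain ⟨E1, hE1, hno⟩ := no_round a ha ha3 (s - 1)
  obtain ⟨M, hM⟩ : ∃ M, M = 3 * (s + 1 + 1 + 1) := ⟨_, rfl⟩
  obtain ⟨E, hE⟩ : ∃ E, E = 2 * E' * E1 * M := ⟨_, rfl⟩
  obtain ⟨V, hV⟩ : ∃ V, V = W' + (c + 2) := ⟨_, rfl⟩
  obtain ⟨T, hT⟩ : ∃ T, T = 4 * a * V := ⟨_, rfl⟩
  have hE0 : 1 ≤ E := by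
    rw [hE, hM]
    exact Nat.mul_pos (Nat.mul_pos (by omega) hE1) (by omega)
  have hT0 : 1 ≤ T := by
    rw [hT]
    exact Nat.mul_pos (by omega) (by omega)
  obtain ⟨P, hP⟩ := two_windows K (4 * T * E * B) V
  obtain ⟨N1, hN1⟩ := hno B P (c + 2) E1 le_rfl
  refine ⟨P + V, E, max N1 ((s + 1 + 1 + T) * E), hE0, ?_⟩
  rintro N hN R g σ τ lab hS hrep ⟨p₀, A, G, hR, hA0, hG0, hsol, hind⟩
  obtain ⟨u, hu⟩ : ∃ u, u = N / E := ⟨_, rfl⟩
  obtain ⟨d, hd⟩ : ∃ d, d = u / T := ⟨_, rfl⟩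
  rw [← hu] at hsol
  have u1 : s + 1 + 1 + T ≤ u := hu ▸ (Nat.le_div_iff_mul_le hE0).2 (le_of_max_le_right hN)
  have u2 : u * E ≤ N := hu ▸ Nat.div_mul_le_self N E
  have u3 : N < E * (u + 1) := hu ▸ Nat.lt_mul_div_succ N hE0
  have d1 : 1 ≤ d := hd ▸ (Nat.le_div_iff_mul_le hT0).2 (by omega)
  have d2 : T * d ≤ u := hd ▸ Nat.mul_div_le u T
  have d3 : u < T * (d + 1) := hd ▸ Nat.lt_mul_div_succ u hT0
  have m1 : M * u ≤ N / E' := by
    refine (Nat.le_div_iff_mul_le hE').2 (le_trans ?_ u2)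
    rw [hE, show u * (2 * E' * E1 * M) = M * u * E' * (2 * E1) by ring]
    exact Nat.le_mul_of_pos_right _ (by omega)
  have m2 : M * u ≤ N / E1 := by
    refine (Nat.le_div_iff_mul_le hE1).2 (le_trans ?_ u2)
    rw [hE, show u * (2 * E' * E1 * M) = M * u * E1 * (2 * E') by ring]
    exact Nat.le_mul_of_pos_right _ (by omega)
  have m3 : M * u * 2 ≤ N := by
    refine le_trans ?_ u2
    rw [hE, show u * (2 * E' * E1 * M) = M * u * 2 * (E' * E1) by ring]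
    exact Nat.le_mul_of_pos_right _ (Nat.mul_pos hE' hE1)
  have m4 : 3 * u ≤ M * u := Nat.mul_le_mul_right u (by omega)
  have m5 : B * N ≤ 4 * T * E * B * d := by
    have k1 : u + 1 ≤ T * (2 * d) := d3.trans_le (Nat.mul_le_mul_left T (by omega))
    have k2 := u3.le.trans (Nat.mul_le_mul_left E k1)
    have k3 := Nat.mul_le_mul_left B k2
    have k4 : 4 * T * E * B * d = 2 * (B * (E * (T * (2 * d)))) := by ring
    omega
  obtain ⟨p, p', p1, p2, p3, hw⟩ := hP σ τ lab p₀ d d1 fun k k1 k2 =>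
    ⟨(hS.2.1 k (by omega)).2.1.trans m5, (hS.2.1 k (by omega)).2.2.1.trans m5⟩
  obtain ⟨Λ, hΛ, htr⟩ := transport a ha3 σ τ (bet a g σ τ) p p' V d
    (fun i hi => hS.2.2 _ (by omega) _ (by omega) (hw i hi).1) (fun i hi => (hw i hi).2.1)
    fun i hi => (hw i hi).2.2
  rw [← hT] at hΛ htr
  have hodd : ∀ k < R, Odd (bet a g σ τ k) := fun k hk => rgstep_odd ha (by omega) hS hk
  have hβ : ∀ k, p ≤ k → k < p + V → Odd (bet a g σ τ k) ∧ N ≤ σ k := fun k k1 k2 =>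
    ⟨hodd k (by omega), (hS.2.1 k (by omega)).1⟩
  have s1 : ∀ b, Sol a σ τ (bet a g σ τ) p V (2 ^ (2 * u)) (2 ^ (c * N + 2 * u)) (A b) (G b) :=
    fun b => (hsol b).mono p1 (by omega) (rgstep_pow (by omega)) (rgstep_pow (by omega))
  have s2 : ∀ b, Sol a σ τ (bet a g σ τ) p V (2 ^ (2 * u)) (2 ^ (c * N + 2 * u))
      (fun k => Λ (k - p) * A b (p' + (k - p))) fun k => Λ (k - p) * G b (p' + (k - p)) :=
    fun b => (htr _ _ _ _ ((hsol b).mono (p' := p') (W' := V) (by omega) (by omega) le_rfl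
      le_rfl)).mono le_rfl le_rfl (by rw [← pow_add]; exact rgstep_pow (by omega))
      (by rw [← pow_add]; exact rgstep_pow (by omega))
  obtain ⟨n1, n2⟩ := rgstep_num (r := s + 1 + 1) (u := u) (by omega)
  rw [← hM] at n2
  obtain ⟨Z, hZ⟩ : ∃ Z : ℤ, Z = (((s + 1 + 1 : ℕ) : ℤ) * 2 ^ (2 * u)) ^ (s + 1 + 1) := ⟨_, rfl⟩
  have hZ0 : 0 ≤ Z := by rw [hZ]; positivity
  rw [← hZ] at n2
  have n3 : ((s + 1 + 1 : ℕ) : ℤ) * Z * 2 ^ (2 * u) ≤ 2 ^ (M * u) := by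
    rw [mul_comm _ Z, mul_assoc]
    exact (mul_le_mul_of_nonneg_left n1 hZ0).trans n2
  have n4 : ((s + 1 + 1 : ℕ) : ℤ) * Z * 2 ^ (2 * u) < 2 ^ N :=
    n3.trans_lt (pow_lt_pow_right₀ one_lt_two (by omega))
  have n5 : ((s + 1 + 1 : ℕ) : ℤ) * Z * 2 ^ (c * N + 2 * u) < 2 ^ ((c + 2) * N) := by
    rw [pow_add, mul_comm (2 ^ (c * N)), ← mul_assoc, add_mul, pow_add, mul_comm (2 ^ (c * N))]
    exact mul_lt_mul_of_pos_right (n4.trans_le (rgstep_pow (by omega))) (by positivity)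
  have n6 : Z * 2 ^ u ≤ 2 ^ (N / E1) :=
    ((mul_le_mul_of_nonneg_left (rgstep_pow (by omega)) hZ0).trans n2).trans (rgstep_pow m2)
  have hX : (1 : ℤ) ≤ 2 ^ (2 * u) := one_le_pow₀ one_le_two
  by_cases hc : ∃ b, Ind (Fin.snoc A fun k => Λ (k - p) * A b (p' + (k - p)) :
      Fin (s + 1 + 1) → ℕ → ℤ) (c + 2) (p + W')
  · obtain ⟨b, hb⟩ := hc
    refine ⟨p, _, _, by omega, fun k => ?_, ?_, fun b' => (rgstep_snoc s1 (s2 b) b').mono le_rfl
      (by omega) (rgstep_pow (by omega)) (rgstep_pow (by omega)), fun i i1 i2 =>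
        rgstep_back ha (rgstep_snoc s1 (s2 b)) hX hβ (hZ ▸ n4) (hZ ▸ n5) i1 (by omega)
          (by omega) hb⟩
    · rw [← Fin.castSucc_zero, Fin.snoc_castSucc]
      exact hA0 k
    · rw [← Fin.castSucc_zero, Fin.snoc_castSucc]
      exact hG0
  exfalso
  push Not at hc
  choose Δ φ r1 r2 r3 r4 r5 using fun b => rgstep_rel ha s1 (s2 b) hX
    (fun k k1 k2 => (hβ k k1 k2).2) (hZ ▸ n5) (q := p + W') (by omega) (by omega)
    (hind _ (by omega) (by omega)) (hc b)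
  rw [← hZ] at r2 r3
  have e1 : ∀ j, p + W' + j - p = W' + j := fun j => by omega
  have e2 : p + W' + (p' - p) = p' + W' := by omega
  simp only [e1, Nat.add_sub_cancel_left, ← add_assoc p'] at r4 r5
  have hdet : (Matrix.of φ).det ≠ 0 := rgstep_det (q := p + W') (Λ := fun j => Λ (W' + j))
    (hind (p' + W') (by omega) (by omega)) r1 (fun j hj => (hΛ _ (by omega)).1.ne') r4
  obtain ⟨l1, l2⟩ := hΛ W' (by omega)
  rcases s with _ | s
  · have k1 := r4 0 0 (by omega)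
    have k2 := r5 0
    simp only [Fin.sum_univ_succ, Fin.sum_univ_zero, hA0, hG0, add_zero, mul_one] at k1 k2
    rw [← k1, mul_assoc] at k2
    exact hrep (p + W') (p' + W') (by omega) (by omega) (hw W' (by omega)).1
      (mul_left_cancel₀ l1.ne' (mul_left_cancel₀ (r1 0) k2)).symm
  · refine hN1 N (le_of_max_le_left hN) σ τ (bet a g σ τ) (p + W') (p' - p) _ A G (Matrix.of φ)
      (fun b => Δ b * Λ W') (by omega) (by omega)
      (fun k k1 k2 => ⟨hodd k (by omega), hS.2.1 k (by omega)⟩)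
      (fun b => (hsol b).mono (by omega) (by omega) (rgstep_pow (by omega)) le_rfl) hA0
      (fun k k1 k2 => hind k (by omega) (by omega))
      (fun i j => (r3 i j).trans ((le_mul_of_one_le_right hZ0 (one_le_pow₀ one_le_two)).trans n6))
      (fun i => ⟨mul_ne_zero (r1 i) l1.ne', ?_⟩) hdet fun b => ?_
    · rw [abs_mul, abs_of_pos l1]
      exact (mul_le_mul (r2 i) (l2.trans (rgstep_pow d2)) l1.le hZ0).trans n6
    · rw [e2, mul_assoc]
      exact r5 b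

end Pool.Agent.Lib.MP_dee342_nt.Gr
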