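import Pool.Agent.Lib.MP_dee342_nt.QCore

/-! Chains `2 ^ n e = a ^ κ d` joined by small jumps. -/

namespace Pool.Agent.Lib.MP_dee342_nt.Q

open Finset Function

theorem sh_tele (a : ℕ) (b κ : ℕ → ℕ) (hb : Monotone b) (hb0 : b 0 = 0) (D E : ℕ → ℤ) (i : ℕ)
    (h : ∀ l ≤ i, κ l ≤ b (l + 1) - b l ∧ 2 ^ (b (l + 1) - b l) * E l = (a : ℤ) ^ κ l * D l) :
    ∃ (A : ℕ) (α : ℕ → ℕ), A ≤ b (i + 1) ∧ (∀ l, α l ≤ b (i + 1)) ∧
      2 ^ b (i + 1) * E i = (a : ℤ) ^ A * D 0 +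
        ∑ l ∈ range i, (D (l + 1) - E l) * ((a : ℤ) ^ α l * 2 ^ b (l + 1)) := by
  induction i with
  | zero =>
    obtain ⟨h1, h2⟩ := h 0 le_rfl
    rw [hb0, Nat.sub_zero] at h1 h2
    exact ⟨κ 0, fun _ => 0, h1, fun _ => Nat.zero_le _, by simpa using h2⟩
  | succ i ih =>
    obtain ⟨A, α, h1, h2, h3⟩ := ih fun l hl => h l (by omega)
    obtain ⟨h4, h5⟩ := h (i + 1) le_rfl
    have h6 : b (i + 1) ≤ b (i + 1 + 1) := hb (by omega)
    refine ⟨A + κ (i + 1), fun l => (if l < i then α l else 0) + κ (i + 1), by omega,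
      fun l => ?_, ?_⟩
    · have := h2 l
      beta_reduce
      split_ifs <;> omega
    · have h7 : (2 : ℤ) ^ b (i + 1 + 1) = 2 ^ b (i + 1) * 2 ^ (b (i + 1 + 1) - b (i + 1)) := by
        rw [← pow_add, Nat.add_sub_cancel' h6]
      have h8 : ∑ l ∈ range i, (D (l + 1) - E l) *
          ((a : ℤ) ^ ((if l < i then α l else 0) + κ (i + 1)) * 2 ^ b (l + 1)) =
          (a : ℤ) ^ κ (i + 1) *
            ∑ l ∈ range i, (D (l + 1) - E l) * ((a : ℤ) ^ α l * 2 ^ b (l + 1)) := by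
        rw [mul_sum]
        refine sum_congr rfl fun l hl => ?_
        rw [if_pos (mem_range.1 hl), pow_add]
        ring
      beta_reduce
      rw [sum_range_succ, h8, if_neg (lt_irrefl i), zero_add, h7, mul_assoc, h5, pow_add]
      linear_combination (a : ℤ) ^ κ (i + 1) * h3

theorem blk_of_chain (a : ℕ) {R r E₀ : ℕ} (hr : 1 ≤ r) (hR : 8 * r ≤ R) (b κ : ℕ → ℕ)
    (hb : Monotone b) (hb0 : b 0 = 0) (hN : 8 * r ≤ b r) (D E : ℕ → ℤ) (ha : 1 ≤ a)
    (h : ∀ l < r, κ l ≤ b (l + 1) - b l ∧ 2 ^ (b (l + 1) - b l) * E l = (a : ℤ) ^ κ l * D l ∧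
      (b l < b (l + 1) → D l ≠ 0)) (W : ℝ) (hW1 : 1 ≤ W)
    (hW : W ≤ Real.exp (b r / (16 * (R : ℝ) ^ 3)))
    (hj : ∀ l i, l < i → i < r → b i < b (i + 1) → |((D (l + 1) - E l : ℤ) : ℝ)| ≤ W)
    (hD : |(D 0 : ℝ)| ≤ W * 2 ^ E₀) (hE : 4 * E₀ ≤ b r) : Blk a R r (b r) := by
  obtain ⟨i, hi, h1, h2⟩ := exists_long b hb0 r (by omega)
  obtain ⟨A, α, hA, hα, hid⟩ := sh_tele a b κ hb hb0 D E i fun l hl =>
    ⟨(h l (by omega)).1, (h l (by omega)).2.1⟩
  have hB : b (i + 1) ≤ b r := hb hi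
  obtain ⟨G, hG⟩ : ∃ G, G = b r / (4 * r) := ⟨_, rfl⟩
  have hG1 : 4 * r * G ≤ b r := hG ▸ Nat.mul_div_le _ _
  have hG2 : b r < 4 * r * (G + 1) := hG ▸ Nat.lt_mul_div_succ _ (by omega)
  have hG3 : 1 ≤ G := by
    by_contra h0
    obtain rfl : G = 0 := by omega
    omega
  have hG4 : b i + G ≤ b (i + 1) := by
    refine Nat.le_of_mul_le_mul_left (c := 2 * r) ?_ (by omega)
    nlinarith
  have hG5 : 4 * G ≤ b r := by nlinarith
  have hW0 : E i ≠ 0 := by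
    intro h0
    obtain ⟨-, h3, h4⟩ := h i hi
    rw [h0, mul_zero] at h3
    have ha0 : (a : ℤ) ≠ 0 := by exact_mod_cast (by omega : a ≠ 0)
    exact mul_ne_zero (pow_ne_zero _ ha0) (h4 (by omega)) h3.symm
  have hsum : ∑ j : Fin (r + 1),
      (Fin.cons (D 0) fun l : Fin r => if (l : ℕ) < i then D (l + 1) - E l else 0 :
        Fin (r + 1) → ℤ) j *
      ((a : ℤ) ^ (Fin.cons A fun l : Fin r => α l : Fin (r + 1) → ℕ) j *
        2 ^ (Fin.cons 0 fun l : Fin r => b (min (l + 1) i) : Fin (r + 1) → ℕ) j) =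
      2 ^ b (i + 1) * E i := by
    rw [Fin.sum_univ_succ]
    simp only [Fin.cons_zero, Fin.cons_succ]
    rw [Fin.sum_univ_eq_sum_range
      (fun l => (if l < i then D (l + 1) - E l else 0) * ((a : ℤ) ^ α l * 2 ^ b (min (l + 1) i))),
      hid, ← Finset.sum_subset (Finset.range_mono hi.le)
        fun l _ hl => by rw [if_neg (by simpa using hl), zero_mul]]
    congr 1
    · ring
    · exact Finset.sum_congr rfl fun l hl => by
        rw [if_pos (mem_range.1 hl), min_eq_left (mem_range.1 hl)]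
  refine ⟨Fin.cons A fun l => α l, Fin.cons 0 fun l => b (min (l + 1) i), b (i + 1), E₀, G,
    Fin.cons (D 0) fun l => if (l : ℕ) < i then D (l + 1) - E l else 0, W,
    fun j => ?_, hB, rfl, fun j hj' => ?_, by omega, ?_, hW1, hW, ?_, fun j hj' => ?_,
    ?_, ?_⟩
  · refine Fin.cases ?_ (fun l => ?_) j
    · exact hA.trans hB
    · exact (hα l).trans hB
  · obtain ⟨l, rfl⟩ := Fin.exists_succ_eq.2 hj'
    exact (Nat.add_le_add_right (hb (min_le_right _ _)) G).trans hG4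
  · have h3 : 8 * r * G ≤ R * G := Nat.mul_le_mul_right G hR
    nlinarith
  · simpa only [Fin.cons_zero] using hD
  · obtain ⟨l, rfl⟩ := Fin.exists_succ_eq.2 hj'
    simp only [Fin.cons_succ]
    split_ifs with hl
    · exact hj l i hl hi (by omega)
    · rw [Int.cast_zero, abs_zero]
      linarith
  · rw [hsum]
    exact Dvd.intro _ rfl
  · rw [hsum]
    exact mul_ne_zero (by positivity) hW0

/-- A group of rational pieces gives a window, after clearing denominators. -/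
theorem blk_of_rat (a : ℕ) {R r V E₀ : ℕ} (hr : 1 ≤ r) (hR : 8 * r ≤ R) (b κ q : ℕ → ℕ)
    (hb : Monotone b) (hb0 : b 0 = 0) (hN : 8 * r ≤ b r) (d e : ℕ → ℚ) (ha : 1 ≤ a)
    (h : ∀ l < r, κ l ≤ b (l + 1) - b l ∧ 2 ^ (b (l + 1) - b l) * e l = (a : ℚ) ^ κ l * d l ∧
      (b l < b (l + 1) → d l ≠ 0) ∧ 1 ≤ q l ∧ q l ≤ 2 ^ V ∧
      ∃ D E : ℤ, (D : ℚ) = q l * d l ∧ (E : ℚ) = q l * e l)
    (hj : ∀ l i, l < i → i < r → b i < b (i + 1) → |d (l + 1) - e l| ≤ 2 ^ (2 * V))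
    (hd : |d 0| ≤ 2 ^ (E₀ + V)) (hE : 4 * E₀ ≤ b r) (hV : 16 * R ^ 3 * ((r + 2) * V) ≤ b r) :
    Blk a R r (b r) := by
  obtain ⟨Q, hQ⟩ : ∃ Q, Q = ∏ l ∈ range r, q l := ⟨_, rfl⟩
  have hQ1 : Q ≤ 2 ^ (r * V) := by
    rw [hQ, mul_comm, pow_mul]
    simpa using prod_le_pow_card (range r) q (2 ^ V) fun l hl => (h l (mem_range.1 hl)).2.2.2.2.1
  have hQ0 : 0 < Q := hQ ▸ prod_pos fun l hl => (h l (mem_range.1 hl)).2.2.2.1
  have hex : ∀ l, ∃ D E : ℤ, l < r → (D : ℚ) = Q * d l ∧ (E : ℚ) = Q * e l := fun l => by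
    by_cases hl : l < r
    · obtain ⟨D, E, h1, h2⟩ := (h l hl).2.2.2.2.2
      obtain ⟨c, hc⟩ : q l ∣ Q := hQ ▸ dvd_prod_of_mem q (mem_range.2 hl)
      refine ⟨c * D, c * E, fun _ => ⟨?_, ?_⟩⟩
      · push_cast [hc, h1]; ring
      · push_cast [hc, h2]; ring
    · exact ⟨0, 0, fun h' => absurd h' hl⟩
  choose D E hDE using hex
  have hQq : (0 : ℚ) < Q := by exact_mod_cast hQ0
  have hQ2 : (Q : ℚ) ≤ 2 ^ (r * V) := by exact_mod_cast hQ1
  refine blk_of_chain a (E₀ := E₀) hr hR b κ hb hb0 hN D E ha (fun l hl => ⟨(h l hl).1, ?_,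
    fun h1 h2 => ?_⟩) (2 ^ ((r + 2) * V)) (one_le_pow₀ one_le_two) ?_ (fun l i h1 h2 h3 => ?_) ?_ hE
  · have h1 : (2 : ℚ) ^ (b (l + 1) - b l) * E l = (a : ℚ) ^ κ l * D l := by
      rw [(hDE l hl).1, (hDE l hl).2]
      linear_combination (Q : ℚ) * (h l hl).2.1
    exact_mod_cast h1
  · have h3 := (hDE l hl).1
    rw [h2, Int.cast_zero] at h3
    exact mul_ne_zero hQq.ne' ((h l hl).2.2.1 h1) h3.symm
  · have h1 : (2 : ℝ) ≤ Real.exp 1 := by linarith [Real.add_one_le_exp (1 : ℝ)]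
    refine (pow_le_pow_left₀ (by norm_num) h1 _).trans ?_
    rw [← Real.exp_nat_mul, mul_one]
    refine Real.exp_le_exp.2 ?_
    have h4 : (0 : ℝ) < R := by exact_mod_cast (by omega : 0 < R)
    have h5 : (16 : ℝ) * R ^ 3 * (((r + 2) * V : ℕ) : ℝ) ≤ b r := by exact_mod_cast hV
    rw [le_div_iff₀ (by positivity)]
    linarith
  · have h4 : |((D (l + 1) - E l : ℤ) : ℚ)| ≤ 2 ^ ((r + 2) * V) := by
      rw [Int.cast_sub, (hDE (l + 1) (by omega)).1, (hDE l (by omega)).2, ← mul_sub, abs_mul,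
        abs_of_pos hQq, add_mul, pow_add]
      exact mul_le_mul hQ2 (hj l i h1 h2 h3) (abs_nonneg _) (by positivity)
    exact_mod_cast h4
  · have h4 : |(D 0 : ℚ)| ≤ 2 ^ ((r + 2) * V) * 2 ^ E₀ := by
      rw [(hDE 0 (by omega)).1, abs_mul, abs_of_pos hQq]
      refine (mul_le_mul hQ2 hd (abs_nonneg _) (by positivity)).trans ?_
      rw [← pow_add, ← pow_add]
      refine pow_le_pow_right₀ one_le_two ?_
      rw [add_mul]
      omega
    exact_mod_cast h4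

theorem sh_piece_le {a n κ q H Y : ℕ} (ha : Odd a) {d e : ℚ} (h : 2 ^ n * e = (a : ℚ) ^ κ * d)
    (hd : d ≠ 0) (hq1 : 1 ≤ q) (hq : q ≤ 2 ^ H) {D E : ℤ} (hD : (D : ℚ) = q * d)
    (hE : (E : ℚ) = q * e) (hY : |d| ≤ 2 ^ Y) : n ≤ H + Y := by
  have hq0 : (0 : ℚ) < q := by exact_mod_cast hq1
  have h1 : (2 : ℤ) ^ n * E = (a : ℤ) ^ κ * D := by
    have : (2 : ℚ) ^ n * E = (a : ℚ) ^ κ * D := by
      rw [hD, hE]
      linear_combination (q : ℚ) * h
    exact_mod_cast this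
  have h2 : D ≠ 0 := fun h0 => by
    rw [h0, Int.cast_zero] at hD
    exact mul_ne_zero hq0.ne' hd hD.symm
  have h3 : IsCoprime ((2 : ℤ) ^ n) ((a : ℤ) ^ κ) := by
    have h4 : IsCoprime ((2 : ℕ) : ℤ) (a : ℤ) :=
      Nat.isCoprime_iff_coprime.2 (Nat.coprime_two_left.2 ha)
    exact h4.pow
  have h4 := Int.le_abs_of_dvd h2 (h3.dvd_of_dvd_mul_left (Dvd.intro _ h1))
  have h5 : |(D : ℚ)| ≤ 2 ^ (H + Y) := by
    rw [hD, abs_mul, abs_of_pos hq0, pow_add]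
    exact mul_le_mul (by exact_mod_cast hq) hY (abs_nonneg _) (by positivity)
  have h6 : |D| ≤ 2 ^ (H + Y) := by exact_mod_cast h5
  exact (pow_le_pow_iff_right₀ (by norm_num : (1 : ℤ) < 2)).1 (h4.trans h6)

theorem shcore_main (a A : ℕ) (ha : Odd a) (hA : 3 ≤ A) {R r S Z : ℕ}
    (hR : 10 ^ 7 * (a + 4) ^ 4 ≤ R) (hr1 : 1 ≤ r) (hr : 8 * r ≤ R) (hS : Om R ≤ 2 ^ S)
    (hZ : R ^ 20 * Om R ≤ Z) {t : ℕ → ℕ} (ht : Monotone t) (ht0 : t 0 = 0)
    (d e : ℕ → ℚ) (q h κ : ℕ → ℕ)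
    (hp : ∀ j, κ j ≤ t (j + 1) - t j ∧ 2 ^ (t (j + 1) - t j) * e j = (a : ℚ) ^ κ j * d j ∧
      (t j < t (j + 1) → d j ≠ 0) ∧ 1 ≤ q j ∧ q j ≤ 2 ^ h j ∧
      (∃ D E : ℤ, (D : ℚ) = q j * d j ∧ (E : ℚ) = q j * e j) ∧
      |d j| ≤ 2 ^ (A * (t j + Z) + h j) ∧ h j * (16 * A * R ^ 4) ≤ Z + (t (j + 1) - t j))
    (hj : ∀ j i, j < i → t i < t (i + 1) → |d (j + 1) - e j| ≤ 2 ^ (h j + h (j + 1))) (w : ℕ) :
    t (w * r) + Z ≤ (8 * A + 1) ^ w * (2 * A + 1) ^ (r * (S * R ^ 13)) * Z := by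
  have hR0 : 0 < R := by omega
  have ha1 : 1 ≤ a := ha.pos
  have hOm : 1 < Om R := Nat.one_lt_pow (by positivity) (Nat.succ_lt_succ (by positivity))
  have hS1 : 1 ≤ S := Nat.pos_of_ne_zero fun h => by
    rw [h, pow_zero] at hS
    omega
  have hRZ : R ≤ Z :=
    ((Nat.le_self_pow (by norm_num) R).trans (Nat.le_mul_of_pos_right _ (by omega))).trans hZ
  obtain ⟨M, hM⟩ : ∃ M, M = 16 * A * R ^ 4 := ⟨_, rfl⟩
  have hM1 : 16 * A ≤ M := hM ▸ Nat.le_mul_of_pos_right _ (by positivity)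
  rw [← hM] at hp
  have hv : ∀ v, v * 48 ≤ v * M := fun v => Nat.mul_le_mul_left _ (by omega)
  have hstep : ∀ j, t (j + 1) + Z ≤ (2 * A + 1) * (t j + Z) := fun j => by
    obtain ⟨-, h1, h2, h3, h4, ⟨D, E, h5, h6⟩, h7, h8⟩ := hp j
    have h9 : t j + Z ≤ A * (t j + Z) := Nat.le_mul_of_pos_left _ (by omega)
    have e2 : (2 * A + 1) * (t j + Z) = 2 * (A * (t j + Z)) + (t j + Z) := by ring
    rcases lt_or_ge (t j) (t (j + 1)) with hlt | hge
    · have h10 := sh_piece_le ha h1 (h2 hlt) h3 h4 h5 h6 h7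
      have h11 := hv (h j)
      omega
    · omega
  have hsteps : ∀ j k, t (j + k) + Z ≤ (2 * A + 1) ^ k * (t j + Z) := fun j k => by
    induction k with
    | zero => simp
    | succ k ih =>
      refine (hstep (j + k)).trans ((Nat.mul_le_mul_left _ ih).trans_eq ?_)
      ring
  obtain ⟨N, hN⟩ : ∃ N : ℕ → ℕ, N = fun w => t (w * r + r) - t (w * r) := ⟨_, rfl⟩
  have hN' : ∀ w, N w = t (w * r + r) - t (w * r) := fun w => by rw [hN]
  have hbig : ∀ w, 8 * (A * (t (w * r) + Z)) ≤ N w → 8 * (t (w * r) + Z) ≤ N w := fun w h =>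
    (Nat.mul_le_mul_left _ (Nat.le_mul_of_pos_left _ (by omega))).trans h
  have hblk : ∀ w, 8 * (A * (t (w * r) + Z)) ≤ N w → Blk a R r (N w) := fun w hw => by
    have h1 := hbig w hw
    have h2 := hN' w
    have h3 := Nat.div_mul_le_self (2 * N w) M
    have hsub : ∀ l, t (w * r + (l + 1)) - t (w * r) - (t (w * r + l) - t (w * r)) =
        t (w * r + l + 1) - t (w * r + l) := fun l => by
      have h7 : t (w * r) ≤ t (w * r + l) := ht (by omega)
      rw [← add_assoc]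
      omega
    have hh : ∀ l < r, h (w * r + l) ≤ 2 * N w / M := fun l hl => by
      have h7 : t (w * r) ≤ t (w * r + l) := ht (by omega)
      have h8 : t (w * r + l + 1) ≤ t (w * r + r) := ht (by omega)
      have h9 := (hp (w * r + l)).2.2.2.2.2.2.2
      exact (Nat.le_div_iff_mul_le (by omega)).2 (by omega)
    rw [h2]
    refine blk_of_rat a (V := 2 * N w / M) (E₀ := A * (t (w * r) + Z))
      hr1 hr (fun j => t (w * r + j) - t (w * r)) (fun j => κ (w * r + j)) (fun j => q (w * r + j))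
      (fun j k hjk => Nat.sub_le_sub_right (ht (by omega)) _) (Nat.sub_self _) (by omega)
      (fun j => d (w * r + j)) (fun j => e (w * r + j)) ha1 (fun l hl => ?_)
      (fun l i h4 h5 h6 => ?_) ?_ (by omega) ?_
    · obtain ⟨b1, b2, b3, b4, b5, b6, -, -⟩ := hp (w * r + l)
      rw [hsub]
      refine ⟨b1, b2, fun h4 => b3 ?_, b4, b5.trans (Nat.pow_le_pow_right two_pos (hh l hl)), b6⟩
      rw [← add_assoc] at h4
      omega
    · rw [← add_assoc] at h6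
      refine (hj (w * r + l) (w * r + i) (by omega) (by omega)).trans
        (pow_le_pow_right₀ one_le_two ?_)
      have b1 := hh l (by omega)
      have b2 := hh (l + 1) (by omega)
      rw [← add_assoc] at b2
      omega
    · refine (hp (w * r)).2.2.2.2.2.2.1.trans (pow_le_pow_right₀ one_le_two ?_)
      have b1 := hh 0 hr1
      rw [add_zero] at b1
      omega
    · have b1 : 2 * (16 * R ^ 3 * ((r + 2) * (2 * N w / M))) ≤ 2 * N w / M * M :=
        calc 2 * (16 * R ^ 3 * ((r + 2) * (2 * N w / M)))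
            ≤ A * (16 * R ^ 3 * (R * (2 * N w / M))) := by
              gcongr <;> omega
          _ = 2 * N w / M * (16 * A * R ^ 4) := by ring
          _ = _ := by rw [← hM]
      omega
  have hcnt : Nat.count (fun w => 8 * (A * (t (w * r) + Z)) ≤ N w) w ≤ S * R ^ 13 := by
    by_contra hc
    rw [Nat.count_eq_card_filter_range] at hc
    obtain ⟨φ, h1, h2⟩ := exists_sep _ N (fun u hu u' hu' huu => by
      have h3 := hbig u' (mem_filter.1 hu').2
      have h4 := hN' u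
      have h5 : t (u * r + r) ≤ t (u' * r) :=
        ht ((Nat.succ_mul u r).symm.trans_le (Nat.mul_le_mul_right _ huu))
      omega) S (R ^ 13) (not_le.1 hc).le hS1
    refine qsub (ι := Fin (R ^ 13)) (n := r) ha hR (by omega) (Fintype.card_fin _)
      (fun h => N (φ h)) (fun h => ?_) (fun h h' hne => ?_) fun h => hblk _ (mem_filter.1 (h1 h)).2
    · have h3 := hbig _ (mem_filter.1 (h1 h)).2
      omega
    · exact (lt_or_gt_of_ne hne).imp (fun h3 => (Nat.mul_le_mul_right _ hS).trans (h2 _ _ h3))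
        fun h3 => (Nat.mul_le_mul_right _ hS).trans (h2 _ _ h3)
  refine (qcore_grow (A := 8 * A + 1) (B := (2 * A + 1) ^ r) (Z := Z)
    (y := fun w => t (w * r) + Z) (by omega)
    (fun w => 8 * (A * (t (w * r) + Z)) ≤ N w) (by simp [ht0]) (fun u _ => ?_) (fun u hu => ?_)
    w).trans ?_
  · rw [Nat.succ_mul]
    exact hsteps _ _
  · have h1 := hN' u
    have h2 : t (u * r) ≤ t (u * r + r) := ht (by omega)
    have e : (8 * A + 1) * (t (u * r) + Z) = 8 * (A * (t (u * r) + Z)) + (t (u * r) + Z) := by ring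
    rw [Nat.succ_mul]
    omega
  · rw [pow_mul]
    exact Nat.mul_le_mul_right _ (Nat.mul_le_mul_left _
      (Nat.pow_le_pow_right (by positivity) hcnt))

end Pool.Agent.Lib.MP_dee342_nt.Q
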