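import Pool.Agent.Lib.MP_dee342_nt.PieceDefs

/-! Rational points that follow a piece of the parity word of an integer. -/

namespace Pool.Agent.Lib.MP_dee342_nt

/-- The map `T_a` on rationals (used for odd denominators): `z / 2` if the numerator is even, and
`(a z + 1) / 2` otherwise. -/
def Tq (a : ℤ) (z : ℚ) : ℚ := if z.num % 2 = 0 then z / 2 else (a * z + 1) / 2

/-- The rational `z`, with odd denominator and different from `T_a^s x`, has the same parities as
`T_a^s x` during the first `e - s` steps. -/
def Follows (a x : ℤ) (z : ℚ) (s e : ℕ) : Prop :=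
  Odd z.den ∧ z ≠ ((T a)^[s] x : ℤ) ∧ ∀ i, s + i < e → ((Tq a)^[i] z).num % 2 = par a x (s + i)

/-- The budget `exp (N ^ (1 - ε) + a n / log N)`. -/
noncomputable def bud (a ε : ℝ) (N n : ℕ) : ℝ :=
  Real.exp ((N : ℝ) ^ (1 - ε) + a * n / Real.log N)

end Pool.Agent.Lib.MP_dee342_nt
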