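import Pool.Agent.Lib.MP_dee342_nt.ShCore
import Pool.Agent.Lib.MP_dee342_nt.ShDefs
import Pool.Agent.Lib.MP_dee342_nt.QMain

/-! A cycle is not shadowed by a pseudo-orbit of rationals with few small jumps. -/

namespace Pool.Agent.Lib.MP_dee342_nt.Q

open Finset Function

theorem sh_num {q : ℕ} (hq : Odd q) (u : ℤ) : ((u : ℚ) / q).num % 2 = u % 2 := by
  have hq0 : (q : ℤ) ≠ 0 := by exact_mod_cast hq.pos.ne'
  obtain ⟨c, h1, h2⟩ := Rat.exists_eq_mul_div_num_and_eq_mul_div_den u hq0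
  have h3 : Odd (q : ℤ) := by exact_mod_cast hq
  rw [h2] at h3
  have h4 : c % 2 = 1 := Int.odd_iff.1 (Int.odd_mul.1 h3).1
  rw [Int.cast_natCast] at h1
  generalize ((u : ℚ) / q).num = w at h1
  rw [h1, Int.mul_emod, h4]
  simp

theorem sh_step (a : ℕ) (ha : Odd a) {q : ℕ} (hq : Odd q) (u y : ℤ)
    (h : ((u : ℚ) / q).num % 2 = y % 2) : ∃ (u' : ℤ) (κ : ℕ), κ ≤ 1 ∧
      Tq a ((u : ℚ) / q) = u' / q ∧ 2 * ((T a y : ℚ) - u' / q) = (a : ℚ) ^ κ * (y - u / q) := by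
  have hq0 : (q : ℚ) ≠ 0 := by exact_mod_cast hq.pos.ne'
  have h1 := sh_num hq u
  have ha' : Odd (a : ℤ) := by exact_mod_cast ha
  by_cases hy : y % 2 = 0
  · obtain ⟨u', hu⟩ : 2 ∣ u := by omega
    have h2 : (2 : ℚ) * T a y = y := by exact_mod_cast two_mul_T_even hy
    refine ⟨u', 0, zero_le_one, ?_, ?_⟩
    · rw [Tq, if_pos (h.trans hy), hu]
      push_cast
      ring
    · rw [hu]
      push_cast
      linear_combination h2
  · have h3 : Odd (q : ℤ) := by exact_mod_cast hq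
    have h4 : Odd u := Int.odd_iff.2 (by omega)
    obtain ⟨u', hu⟩ := ((ha'.mul h4).add_odd h3).two_dvd
    have h5 : (a : ℚ) * u + q = 2 * u' := by exact_mod_cast hu
    have h2 : (2 : ℚ) * T a y = a * y + 1 := by exact_mod_cast two_mul_T_odd ha' hy
    have h6 : (u' : ℚ) / q = (a * (u / q) + 1) / 2 := by
      field_simp
      linear_combination -h5
    refine ⟨u', 1, le_rfl, ?_, ?_⟩
    · rw [Tq, if_neg (h ▸ hy), h6]
      push_cast
      ring
    · rw [h6]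
      linear_combination h2

theorem sh_iter (a : ℕ) (ha : Odd a) {q : ℕ} (hq : Odd q) (u y : ℤ) (n : ℕ)
    (h : ∀ i < n, ((Tq a)^[i] ((u : ℚ) / q)).num % 2 = (T a)^[i] y % 2) :
    ∃ (u' : ℤ) (κ : ℕ), κ ≤ n ∧ (Tq a)^[n] ((u : ℚ) / q) = u' / q ∧
      2 ^ n * ((((T a)^[n] y : ℤ) : ℚ) - u' / q) = (a : ℚ) ^ κ * (y - u / q) := by
  induction n with
  | zero => exact ⟨u, 0, le_rfl, rfl, by simp⟩
  | succ n ih =>
    obtain ⟨u', κ, h1, h2, h3⟩ := ih fun i hi => h i (by omega)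
    obtain ⟨u'', κ', h4, h5, h6⟩ := sh_step a ha hq u' ((T a)^[n] y) (h2 ▸ h n (by omega))
    refine ⟨u'', κ + κ', by omega, by rw [iterate_succ_apply', h2, h5], ?_⟩
    rw [iterate_succ_apply', pow_succ, pow_add, mul_assoc, h6]
    linear_combination (a : ℚ) ^ κ' * h3

theorem sh_piece (a : ℕ) (ha : Odd a) {x : ℤ} {z : ℚ} {s e : ℕ} (hse : s ≤ e)
    (h : Follows a x z s e) : ∃ κ ≤ e - s,
      2 ^ (e - s) * ((((T a)^[e] x : ℤ) : ℚ) - (Tq a)^[e - s] z) =
        (a : ℚ) ^ κ * ((((T a)^[s] x : ℤ) : ℚ) - z) ∧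
      ∃ D E : ℤ, (D : ℚ) = z.den * ((((T a)^[s] x : ℤ) : ℚ) - z) ∧
        (E : ℚ) = z.den * ((((T a)^[e] x : ℤ) : ℚ) - (Tq a)^[e - s] z) := by
  obtain ⟨h1, -, h3⟩ := h
  have hz : z = (z.num : ℚ) / z.den := (Rat.num_div_den z).symm
  have hq0 : (z.den : ℚ) ≠ 0 := by exact_mod_cast z.den_nz
  obtain ⟨u', κ, h4, h5, h6⟩ := sh_iter a ha h1 z.num ((T a)^[s] x) (e - s) fun i hi => by
    rw [← hz, h3 i (by omega), par, add_comm, iterate_add_apply]
  rw [← hz] at h5 h6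
  rw [← iterate_add_apply, Nat.sub_add_cancel hse] at h6
  refine ⟨κ, h4, by rw [h5, h6], z.den * (T a)^[s] x - z.num, z.den * (T a)^[e] x - u', ?_, ?_⟩
  · push_cast
    rw [mul_sub, mul_comm _ z, Rat.mul_den_eq_num]
  · rw [h5]
    push_cast
    field_simp

/-- Some element of the cycle is small compared with `N ≥ (log p) ^ (2 + ε)`. -/
theorem sh_least (a : ℕ) (ha : Odd a) (ha3 : 3 ≤ a) {ε : ℝ} (hε : 0 < ε) :
    ∃ K : ℝ, ∀ x ∈ periodicPts (T a), ∀ N : ℕ, K ≤ Real.log N →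
      Real.log (minimalPeriod (T a) x) ^ (2 + ε) ≤ N →
      ∃ i, |(((T a)^[i] x : ℤ) : ℝ)| ≤ Real.exp ((N : ℝ) ^ (1 - min ε 1 / 4)) := by
  obtain ⟨C, hC0, hC⟩ := min_bound a ha ha3
  obtain ⟨e, he⟩ : ∃ e, e = min ε 1 := ⟨_, rfl⟩
  have he0 : 0 < e := he ▸ lt_min hε one_pos
  have he1 : e ≤ 1 := he ▸ min_le_right _ _
  have he2 : e ≤ ε := he ▸ min_le_left _ _
  refine ⟨192 * C / e + 1, fun x hx N hK hl => ?_⟩
  rw [← he]
  have hp0 := minimalPeriod_pos_of_mem_periodicPts hx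
  obtain ⟨i, -, hi⟩ := hC x _ hp0 iterate_minimalPeriod
  obtain ⟨p, hp⟩ : ∃ p, p = minimalPeriod (T a) x := ⟨_, rfl⟩
  rw [← hp] at hi hl hp0
  have hK0 : 0 ≤ 192 * C / e := by positivity
  have hN0 : (0 : ℝ) < N := by
    rcases Nat.eq_zero_or_pos N with rfl | h
    · simp at hK
      linarith
    · exact_mod_cast h
  have hN2 : (2 : ℝ) ≤ N := by linarith [Real.log_le_sub_one_of_pos hN0]
  have hp1 : (1 : ℝ) ≤ p := by exact_mod_cast hp0
  have h1 : Real.log (p + 2) ≤ Real.log p + 2 := by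
    have b1 : Real.log (p + 2) ≤ Real.log (p * 3) := Real.log_le_log (by linarith) (by linarith)
    rw [Real.log_mul (by linarith) (by norm_num)] at b1
    linarith [Real.log_le_sub_one_of_pos (show (0 : ℝ) < 3 by norm_num)]
  have h2 : 0 ≤ Real.log (p + 2) := Real.log_nonneg (by linarith)
  have h3 : 0 ≤ Real.log p := Real.log_nonneg hp1
  have h4 : Real.log p ^ 2 ≤ (N : ℝ) ^ (1 - e / 3) := by
    have b1 := Real.rpow_le_rpow (by positivity) hl (show 0 ≤ 2 / (2 + ε) by positivity)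
    rw [← Real.rpow_mul h3, mul_div_cancel₀ _ (by positivity), Real.rpow_two] at b1
    refine b1.trans (Real.rpow_le_rpow_of_exponent_le (by linarith) ?_)
    rw [div_le_iff₀ (by positivity)]
    nlinarith
  have h4' : 1 ≤ (N : ℝ) ^ (1 - e / 3) := Real.one_le_rpow (by linarith) (by linarith)
  have h5 : 16 * C ≤ (N : ℝ) ^ (e / 12) := by
    rw [Real.rpow_def_of_pos hN0]
    have b1 : 192 * C ≤ Real.log N * e := by
      rw [← div_le_iff₀ he0]
      linarith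
    linarith [Real.add_one_le_exp (Real.log N * (e / 12))]
  have h6 : C * Real.log (p + 2) ^ 2 ≤ (N : ℝ) ^ (1 - e / 4) := by
    rw [show 1 - e / 4 = e / 12 + (1 - e / 3) by ring, Real.rpow_add hN0]
    calc C * Real.log (p + 2) ^ 2 ≤ C * (Real.log p + 2) ^ 2 := by gcongr
      _ ≤ C * (16 * (N : ℝ) ^ (1 - e / 3)) := by
        refine mul_le_mul_of_nonneg_left ?_ hC0.le
        nlinarith [sq_nonneg (Real.log p - 2)]
      _ = 16 * C * (N : ℝ) ^ (1 - e / 3) := by ring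
      _ ≤ _ := mul_le_mul_of_nonneg_right h5 (by positivity)
  exact ⟨i, hi.trans (Real.exp_le_exp.2 h6)⟩

theorem sh_exp {u : ℝ} {k : ℕ} (h : 2 * u ≤ k) : Real.exp u ≤ 2 ^ k := by
  refine (Real.exp_le_exp.2 (show u ≤ (k : ℝ) * (1 / 2) by linarith)).trans ?_
  rw [Real.exp_nat_mul]
  refine pow_le_pow_left₀ (Real.exp_pos _).le ?_ _
  rw [← Real.le_log_iff_exp_le two_pos]
  linarith [Real.log_two_gt_d9]

/-- The sizes of the differences. -/
theorem sh_size {a Z v m : ℕ} (ha : 1 ≤ a) {t h κ : ℕ → ℕ} {d e : ℕ → ℚ} (hv : v ≤ Z)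
    (ht : ∀ j < m, t j < t (j + 1)) (hh : ∀ j, v ≤ h j ∧ h j ≤ v + (t (j + 1) - t j))
    (hr : ∀ j < m, κ j ≤ t (j + 1) - t j ∧ 2 ^ (t (j + 1) - t j) * e j = (a : ℚ) ^ κ j * d j)
    (h0 : |d 0| ≤ 2 ^ (Z + h 0))
    (hj : ∀ j, j + 1 < m → |d (j + 1) - e j| ≤ 2 ^ (h j + h (j + 1))) (j : ℕ) (hjm : j < m) :
    |d j| ≤ 2 ^ ((a + 2) * t j + Z + h j) := by
  induction j with
  | zero => exact h0.trans (pow_le_pow_right₀ one_le_two (by omega))
  | succ j ih =>
    have h1 := ih (by omega)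
    obtain ⟨h2, h3⟩ := hr j (by omega)
    have h4 := ht j (by omega)
    obtain ⟨n, hn⟩ := Nat.exists_eq_add_of_lt h4
    have hn' : t (j + 1) - t j = n + 1 := by omega
    have h5 := hh j
    have h6 := hh (j + 1)
    rw [hn'] at h2 h3 h5
    have ha1 : (1 : ℚ) ≤ a := by exact_mod_cast ha
    have h7 : (a : ℚ) ^ κ j ≤ 2 ^ (a * (n + 1)) := by
      rw [pow_mul]
      exact (pow_le_pow_right₀ ha1 h2).trans (pow_le_pow_left₀ (by positivity)
        (by exact_mod_cast (Nat.lt_two_pow_self (n := a)).le) _)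
    have h8 : |e j| ≤ 2 ^ (a * (n + 1) + ((a + 2) * t j + Z + h j)) := by
      have b1 := congrArg abs h3
      rw [abs_mul, abs_mul, abs_of_pos (a := (2 : ℚ) ^ (n + 1)) (by positivity),
        abs_of_pos (a := (a : ℚ) ^ κ j) (by positivity)] at b1
      refine (le_mul_of_one_le_left (abs_nonneg _) (one_le_pow₀ one_le_two)).trans
        (b1.trans_le ?_)
      rw [pow_add]
      exact mul_le_mul h7 h1 (abs_nonneg _) (by positivity)
    obtain ⟨k, hk⟩ : ∃ k, (a + 2) * t (j + 1) + Z + h (j + 1) = k + 1 ∧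
        a * (n + 1) + ((a + 2) * t j + Z + h j) ≤ k ∧ h j + h (j + 1) ≤ k := by
      refine ⟨(a + 2) * t (j + 1) + Z + h (j + 1) - 1, ?_⟩
      have e1 : (a + 2) * t (j + 1) = (a + 2) * t j + a * (n + 1) + 2 * (n + 1) := by
        rw [hn]; ring
      omega
    have h9 := h8.trans (pow_le_pow_right₀ one_le_two hk.2.1)
    have h10 := (hj j hjm).trans (pow_le_pow_right₀ one_le_two hk.2.2)
    have h11 := abs_add_le (d (j + 1) - e j) (e j)
    rw [sub_add_cancel] at h11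
    rw [hk.1, pow_succ]
    linarith

theorem shadow (a : ℕ) (ha : Odd a) (ha3 : 3 ≤ a) (ε : ℝ) (hε : 0 < ε) :
    ∃ C : ℝ, ∀ x ∈ periodicPts (T a), ∀ (m : ℕ) (t : ℕ → ℕ) (z : ℕ → ℚ), t 0 = 0 →
      (∀ j < m, t j < t (j + 1)) → Real.log (minimalPeriod (T a) x) ^ (2 + ε) ≤ t m →
      (∀ j < m, Follows a x (z j) (t j) (t (j + 1)) ∧
        ((z j).den : ℝ) ≤ bud a ε (t m) (t (j + 1) - t j)) →
      (∀ i, |(x : ℝ) - z 0| ≤ bud a ε (t m) (t 1) * |(((T a)^[i] x : ℤ) : ℝ)|) →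
      (∀ j, j + 1 < m → ∀ i, |((z (j + 1) - (Tq a)^[t (j + 1) - t j] (z j) : ℚ) : ℝ)| ≤
        bud a ε (t m) (t (j + 2) - t j) * |(((T a)^[i] x : ℤ) : ℝ)|) →
      Real.log (t m) ≤ C * (m : ℝ) ^ (28 / 29 : ℝ) := by
  have he0 : 0 < min ε 1 := lt_min hε one_pos
  have he1 : min ε 1 ≤ 1 := min_le_right _ _
  have he2 : min ε 1 ≤ ε := min_le_left _ _
  obtain ⟨K₀, hK₀⟩ := sh_least a ha ha3 hε
  obtain ⟨K, hK⟩ := exists_params (2 * a * (a + 2)) (by nlinarith) 0 (η := min ε 1 / 4)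
    (by positivity) (by linarith)
  refine ⟨max (max K K₀) 0, fun x hx m t z ht0 ht hlow hF hz0 hz => ?_⟩
  by_contra hcon
  rw [not_le] at hcon
  have hm : 1 ≤ m := by
    rcases Nat.eq_zero_or_pos m with rfl | h
    · simp [ht0] at hcon
    · exact h
  have hm1 : (1 : ℝ) ≤ (m : ℝ) ^ (28 / 29 : ℝ) :=
    Real.one_le_rpow (by exact_mod_cast hm) (by norm_num)
  have hmax : max (max K K₀) 0 ≤ Real.log (t m) :=
    (le_mul_of_one_le_right (le_max_right _ _) hm1).trans hcon.le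
  obtain ⟨R, r, Z, h1, h2, h3, h4, -, h6, h7, h8⟩ := hK (t m) m hm (lt_of_le_of_lt
    (mul_le_mul_of_nonneg_right ((le_max_left _ _).trans (le_max_left _ _)) (by positivity)) hcon)
  have hR : 10 ^ 7 ≤ R := le_trans (Nat.le_mul_of_pos_right _ (by positivity)) h1
  have haA : a + 2 ≤ 2 * a * (a + 2) := Nat.le_mul_of_pos_left _ (by omega)
  have h1' : 10 ^ 7 * (a + 4) ^ 4 ≤ R :=
    le_trans (Nat.mul_le_mul_left _ (Nat.pow_le_pow_left (by omega) _)) h1
  have hN : (1 : ℝ) ≤ t m := by exact_mod_cast (by omega : 1 ≤ t m)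
  obtain ⟨i₀, hi₀⟩ := hK₀ x hx _ (((le_max_right _ _).trans (le_max_left _ _)).trans hmax) hlow
  obtain ⟨y, hy⟩ : ∃ y, y = (t m : ℝ) ^ (1 - min ε 1 / 4) := ⟨_, rfl⟩
  have hexp : (t m : ℝ) ^ (1 - ε) ≤ y :=
    hy ▸ Real.rpow_le_rpow_of_exponent_le hN (by linarith)
  have hy1 : 1 ≤ y := hy ▸ Real.one_le_rpow hN (by linarith)
  rw [← hy] at hi₀ h6
  obtain ⟨M, hM⟩ : ∃ M, M = 16 * (a + 2) * R ^ 4 := ⟨_, rfl⟩
  have hM0 : 0 < M := by
    rw [hM]
    have : 0 < R := by omega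
    positivity
  have hMM : 16 * (2 * a * (a + 2)) * R ^ 4 = 2 * a * M := by rw [hM]; ring
  rw [hMM] at h6 h7
  obtain ⟨v, hv⟩ : ∃ v, v = 5 * ⌊y⌋₊ := ⟨_, rfl⟩
  have hvM : v * M ≤ Z := by
    refine le_trans ?_ (h6 ⌊y⌋₊ (Nat.floor_le (by linarith)))
    rw [hv, mul_comm 5, mul_assoc]
    exact Nat.mul_le_mul_left _ (Nat.mul_le_mul_right _ (by omega))
  have hvZ : v ≤ Z := (Nat.le_mul_of_pos_right _ hM0).trans hvM
  have hvy : 2 * y + 1 ≤ v := by
    have b2 : (1 : ℝ) ≤ ⌊y⌋₊ := by exact_mod_cast Nat.le_floor (by simpa using hy1)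
    have b7 := Nat.lt_floor_add_one y
    rw [hv]
    push_cast
    linarith
  have hM0' : (0 : ℝ) < M := by exact_mod_cast hM0
  have ha0 : (0 : ℝ) < a := by exact_mod_cast (by omega : 0 < a)
  have hdiv : ∀ n : ℕ, 2 * (a * n / Real.log (t m)) ≤ (n / M : ℕ) + 1 := fun n => by
    have b1 : (n : ℝ) < ((n / M : ℕ) + 1) * M := by
      exact_mod_cast (Nat.lt_mul_div_succ n hM0).trans_eq (mul_comm _ _)
    push_cast at h7
    have b2 : 0 < Real.log (t m) := lt_of_lt_of_le (by positivity) h7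
    rw [← mul_div_assoc, div_le_iff₀ b2]
    have b3 := mul_le_mul_of_nonneg_left h7 (show (0 : ℝ) ≤ (n / M : ℕ) + 1 by positivity)
    nlinarith
  obtain ⟨h, hh⟩ : ∃ h : ℕ → ℕ, h = fun j => v + (t (j + 1) - t j) / M := ⟨_, rfl⟩
  have hh' : ∀ j, h j = v + (t (j + 1) - t j) / M := fun j => by rw [hh]
  have hhR : ∀ j, 2 * y + 2 * (a * (t (j + 1) - t j : ℕ) / Real.log (t m)) ≤ h j := fun j => by
    rw [hh']
    push_cast [-Nat.cast_div_charZero]
    linarith [hdiv (t (j + 1) - t j)]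
  obtain ⟨d, hd⟩ : ∃ d : ℕ → ℚ, d = fun j => (((T a)^[t j] x : ℤ) : ℚ) - z j := ⟨_, rfl⟩
  obtain ⟨e, he⟩ : ∃ e : ℕ → ℚ, e = fun j =>
    (((T a)^[t (j + 1)] x : ℤ) : ℚ) - (Tq a)^[t (j + 1) - t j] (z j) := ⟨_, rfl⟩
  have hex : ∀ j, ∃ κ, j < m → κ ≤ t (j + 1) - t j ∧
      2 ^ (t (j + 1) - t j) * e j = (a : ℚ) ^ κ * d j ∧
      ∃ D E : ℤ, (D : ℚ) = (z j).den * d j ∧ (E : ℚ) = (z j).den * e j := fun j => by
    by_cases hj : j < m
    · obtain ⟨κ, b1⟩ := sh_piece a ha (ht j hj).le (hF j hj).1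
      exact ⟨κ, fun _ => by simpa only [hd, he] using b1⟩
    · exact ⟨0, fun h' => absurd h' hj⟩
  choose κ hκ using hex
  have hbud : ∀ n k : ℕ, 4 * y + 2 * (a * n / Real.log (t m)) ≤ k → ∀ w : ℝ,
      w ≤ bud a ε (t m) n * |(((T a)^[i₀] x : ℤ) : ℝ)| → w ≤ 2 ^ k := fun n k b1 w b2 => by
    refine b2.trans ((mul_le_mul_of_nonneg_left hi₀ (Real.exp_pos _).le).trans ?_)
    rw [← Real.exp_add]
    exact sh_exp (by linarith)
  have hjump : ∀ j, j + 1 < m → |d (j + 1) - e j| ≤ 2 ^ (h j + h (j + 1)) := fun j hj => by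
    have b1 := hbud (t (j + 2) - t j) (h j + h (j + 1)) (by
      have c1 := hhR j
      have c2 := hhR (j + 1)
      have c3 := ht j (by omega)
      have c4 := ht (j + 1) hj
      have c5 : t (j + 2) - t j = t (j + 1) - t j + (t (j + 1 + 1) - t (j + 1)) := by
        rw [show j + 1 + 1 = j + 2 by rfl] at c4 ⊢
        omega
      rw [c5, Nat.cast_add, Nat.cast_add, mul_add, add_div]
      linarith) _ (hz j hj i₀)
    have b2 : d (j + 1) - e j = -(z (j + 1) - (Tq a)^[t (j + 1) - t j] (z j)) := by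
      simp only [hd, he]
      ring
    rw [b2, abs_neg]
    exact_mod_cast b1
  have hd0 : |d 0| ≤ 2 ^ (Z + h 0) := by
    have b1 := hbud (t 1) (Z + h 0) (by
      have c1 := hhR 0
      have c2 : (v : ℝ) ≤ Z := by exact_mod_cast hvZ
      rw [ht0, zero_add, Nat.sub_zero] at c1
      rw [Nat.cast_add]
      linarith) _ (hz0 i₀)
    have b2 : d 0 = x - z 0 := by simp [hd, ht0]
    rw [b2]
    exact_mod_cast b1
  have hsize := sh_size (by omega : 1 ≤ a) hvZ ht (h := h) (fun j => by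
    rw [hh']
    exact ⟨Nat.le_add_right _ _, Nat.add_le_add_left (Nat.div_le_self _ _) _⟩) (fun j hj => ⟨(hκ j hj).1, (hκ j hj).2.1⟩) hd0 hjump
  have hmono : Monotone fun j => t (min j m) := monotone_nat_of_le_succ fun j => by
    rcases lt_or_ge j m with hj | hj
    · rw [min_eq_left hj.le, min_eq_left (Nat.succ_le_of_lt hj)]
      exact (ht j hj).le
    · rw [min_eq_right hj, min_eq_right (Nat.le_succ_of_le hj)]
  have key := shcore_main a (a + 2) ha (by omega) h1' h2 h3 (om_le hR) h4 hmono (by simp [ht0])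
    (fun j => if j < m then d j else 0) (fun j => if j < m then e j else 0)
    (fun j => if j < m then (z j).den else 1) (fun j => if j < m then h j else 0)
    (fun j => if j < m then κ j else 0) (fun j => ?_) (fun j i b1 b2 => ?_) (m / r + 1)
  · have b1 : m ≤ (m / r + 1) * r := by
      rw [mul_comm]
      exact (Nat.lt_mul_div_succ m h2).le
    simp only [min_eq_right b1] at key
    refine absurd (le_trans (Nat.le_add_right _ _) (key.trans ?_)) (not_le.2 h8)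
    gcongr
  · rcases lt_or_ge j m with hj | hj
    · simp only [min_eq_left hj.le, min_eq_left (Nat.succ_le_of_lt hj), if_pos hj]
      refine ⟨(hκ j hj).1, (hκ j hj).2.1, fun _ => ?_, (z j).den_pos, ?_, (hκ j hj).2.2,
        (hsize j hj).trans (pow_le_pow_right₀ one_le_two ?_), ?_⟩
      · rw [hd]
        exact sub_ne_zero.2 (hF j hj).1.2.1.symm
      · have b1 : ((z j).den : ℝ) ≤ 2 ^ h j :=
          (hF j hj).2.trans (sh_exp (by linarith [hhR j]))
        exact_mod_cast b1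
      · have : Z ≤ (a + 2) * Z := Nat.le_mul_of_pos_left _ (by omega)
        rw [mul_add (a + 2)]
        omega
      · rw [← hM, hh', add_mul]
        exact Nat.add_le_add hvM (Nat.div_mul_le_self _ _)
    · simp only [min_eq_right hj, min_eq_right (Nat.le_succ_of_le hj), if_neg (not_lt.2 hj)]
      refine ⟨by omega, by simp, fun h' => absurd h' (lt_irrefl _), le_rfl, by simp,
        ⟨0, 0, by simp⟩, by simp, by omega⟩
  · have b3 : i < m := by
      by_contra hc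
      rw [not_lt] at hc
      simp only [min_eq_right hc, min_eq_right (Nat.le_succ_of_le hc)] at b2
      omega
    simp only [if_pos (show j < m by omega), if_pos (show j + 1 < m by omega)]
    exact hjump j (by omega)

end Pool.Agent.Lib.MP_dee342_nt.Q
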