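import Pool.Agent.Lib.MP_dee342_nt.ShTwo

/-! Periodic pieces are followed by rational periodic points. -/

namespace Pool.Agent.Lib.MP_dee342_nt.Q

open Finset Function

theorem tq_par (a : ℕ) (ha : Odd a) {q : ℕ} (hq : Odd q) (n : ℕ) : ∀ u y : ℤ,
    (2 : ℤ) ^ n ∣ q * y - u → ∀ i < n, ((Tq a)^[i] ((u : ℚ) / q)).num % 2 = (T a)^[i] y % 2 := by
  have hq0 : (q : ℚ) ≠ 0 := by exact_mod_cast hq.pos.ne'
  have hq1 : (q : ℤ) % 2 = 1 := by exact_mod_cast Nat.odd_iff.1 hq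
  induction n with
  | zero => intro _ _ _ i hi; omega
  | succ n ih =>
    rintro u y ⟨c, hc⟩ i hi
    rw [pow_succ', mul_assoc] at hc
    have h0 : ((u : ℚ) / q).num % 2 = y % 2 := by
      have h1 : (q * y : ℤ) % 2 = y % 2 := by rw [Int.mul_emod, hq1]; simp
      rw [sh_num hq]
      omega
    rcases i with _ | i
    · exact h0
    · obtain ⟨u', κ, -, h1, h2⟩ := sh_step a ha hq u y h0
      rw [iterate_succ_apply, iterate_succ_apply, h1]
      refine ih _ _ ⟨a ^ κ * c, ?_⟩ i (by omega)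
      have h3 : (q : ℚ) * y - u = 2 * (2 ^ n * c) := by exact_mod_cast hc
      have h4 : (q : ℚ) * T a y - u' = 2 ^ n * (a ^ κ * c) := by
        field_simp at h2
        linear_combination h2 / 2 + (a : ℚ) ^ κ * h3 / 2
      exact_mod_cast h4

theorem tq_aff (a : ℕ) (ha : Odd a) (z : ℚ) (y : ℤ) (n : ℕ)
    (h : ∀ i < n, ((Tq a)^[i] z).num % 2 = (T a)^[i] y % 2) :
    2 ^ n * (Tq a)^[n] z = (a : ℚ) ^ Gr.od a y 0 n * z + Gr.cs a y 0 n := by
  induction n with
  | zero => simp [Gr.cxaff_cs_zero, Gr.cxaff_od_zero]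
  | succ n ih =>
    have h1 := ih fun i hi => h i (by omega)
    have h2 := h n (by omega)
    rw [Gr.od_add, Gr.cs_add, iterate_succ_apply', zero_add, Tq]
    split_ifs with h3
    · obtain ⟨h4, h5⟩ := Gr.cxaff_even a y n (h2.symm.trans h3)
      rw [h4, h5]
      push_cast
      linear_combination h1
    · obtain ⟨h4, h5⟩ := Gr.cxaff_odd ha y n fun h => h3 (h2.trans h)
      rw [h4, h5]
      push_cast
      linear_combination (a : ℚ) * h1

/-- The rational periodic point with the first `v` parities of `y`. -/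
theorem per_point (a : ℕ) (ha : Odd a) (ha3 : 3 ≤ a) (y : ℤ) {v : ℕ} (hv : 1 ≤ v) :
    ∃ z : ℚ, Odd z.den ∧ z.den ≤ a ^ v ∧ (Tq a)^[v] z = z ∧
      (∀ i < v, ((Tq a)^[i] z).num % 2 = (T a)^[i] y % 2) ∧
      ∀ i, |(Tq a)^[i] z| ≤ 2 * (a : ℚ) ^ (2 * v) := by
  have h3 : (3 : ℤ) ≤ a := by exact_mod_cast ha3
  have ha' : Odd (a : ℤ) := by exact_mod_cast ha
  obtain ⟨D, hD⟩ : ∃ D : ℤ, D = 2 ^ v - (a : ℤ) ^ Gr.od a y 0 v := ⟨_, rfl⟩
  have hDo : Odd D := hD ▸ (Even.sub_odd (even_two.pow_of_ne_zero (by omega)) ha'.pow)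
  have hq : Odd D.natAbs := Int.natAbs_odd.2 hDo
  have hD0 : D ≠ 0 := fun h => by simp [h] at hDo
  have hD1 : |D| ≤ (a : ℤ) ^ v := by
    have b1 : (2 : ℤ) ^ v ≤ a ^ v := pow_le_pow_left₀ (by norm_num) (by omega) v
    have b2 : (a : ℤ) ^ Gr.od a y 0 v ≤ a ^ v := pow_le_pow_right₀ (by omega) (Gr.od_le _ _ _ _)
    have b3 : (0 : ℤ) < 2 ^ v := by positivity
    have b4 : (0 : ℤ) < a ^ Gr.od a y 0 v := by positivity
    exact abs_le.2 ⟨by linarith, by linarith⟩
  obtain ⟨c, hc⟩ : ∃ c, c = Gr.cs a y 0 v := ⟨_, rfl⟩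
  have hs : (D.natAbs : ℤ) = D.sign * D := by rw [Int.sign_mul_self_eq_natAbs]
  have hs2 : D.sign * (D.natAbs : ℤ) = D := Int.sign_mul_natAbs D
  have hq0 : (D.natAbs : ℚ) ≠ 0 := by exact_mod_cast hq.pos.ne'
  obtain ⟨z, hz⟩ : ∃ z : ℚ, z = ((D.sign * c : ℤ) : ℚ) / D.natAbs := ⟨_, rfl⟩
  have hDz : (D : ℚ) * z = c := by
    have b1 : ((D * (D.sign * c) : ℤ) : ℚ) = ((c * D.natAbs : ℤ) : ℚ) := by
      rw [hs]
      congr 1
      ring
    rw [Int.cast_mul, Int.cast_mul c, Int.cast_natCast] at b1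
    rw [hz, ← mul_div_assoc, div_eq_iff hq0, b1]
  have hpar : ∀ i < v, ((Tq a)^[i] z).num % 2 = (T a)^[i] y % 2 := by
    rw [hz]
    refine tq_par a ha hq v _ y ⟨D.sign * (y - (T a)^[v] y), ?_⟩
    rw [hs, hc, Gr.cs, zero_add, iterate_zero, id]
    linear_combination D.sign * y * hD
  have hper : (Tq a)^[v] z = z := by
    have b1 := tq_aff a ha z y v hpar
    have b2 : (D : ℚ) = 2 ^ v - (a : ℚ) ^ Gr.od a y 0 v := by exact_mod_cast hD
    rw [← hc, ← hDz, b2] at b1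
    exact mul_left_cancel₀ (pow_ne_zero v two_ne_zero) (by linear_combination b1)
  have hden : (z.den : ℤ) ∣ D.natAbs := by
    have := Rat.den_dvd (D.sign * c) D.natAbs
    rwa [Rat.divInt_eq_div, Int.cast_natCast, ← hz] at this
  have hden' : z.den ∣ D.natAbs := by exact_mod_cast hden
  have ha1 : (1 : ℚ) ≤ a := by exact_mod_cast (by omega : 1 ≤ a)
  have hcs : ∀ i ≤ v, |(Gr.cs a y 0 i : ℚ)| ≤ (a : ℚ) ^ v := fun i hi => by
    obtain ⟨b1, -, b2⟩ := Gr.cs_bound ha ha3 y 0 i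
    have b3 : |Gr.cs a y 0 i| ≤ (a : ℤ) ^ v := by
      rw [abs_of_nonneg b1]
      exact b2.trans (pow_le_pow_right₀ (by omega) hi)
    exact_mod_cast b3
  have hz1 : |z| ≤ (a : ℚ) ^ v := by
    have b1 : (1 : ℚ) ≤ |(D : ℚ)| := by exact_mod_cast Int.one_le_abs hD0
    refine (le_mul_of_one_le_left (abs_nonneg _) b1).trans ?_
    rw [← abs_mul, hDz, hc]
    exact hcs v le_rfl
  refine ⟨z, hq.of_dvd_nat hden', ?_, hper, hpar, fun i => ?_⟩
  · have b1 : (D.natAbs : ℤ) ≤ (a : ℤ) ^ v := by rwa [Int.natCast_natAbs]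
    exact (Nat.le_of_dvd hq.pos hden').trans (by exact_mod_cast b1)
  · rw [← IsPeriodicPt.iterate_mod_apply hper i]
    have b0 := Nat.mod_lt i hv
    generalize i % v = k at b0
    have b1 := congrArg abs (tq_aff a ha z y k fun i hi => hpar i (by omega))
    rw [abs_mul, abs_of_pos (a := (2 : ℚ) ^ k) (by positivity)] at b1
    refine (le_mul_of_one_le_left (abs_nonneg _) (one_le_pow₀ one_le_two)).trans
      (b1.trans_le ((abs_add_le _ _).trans ?_))
    have b2 : (a : ℚ) ^ Gr.od a y 0 k ≤ a ^ v :=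
      pow_le_pow_right₀ ha1 ((Gr.od_le _ _ _ _).trans b0.le)
    have b3 := mul_le_mul b2 hz1 (abs_nonneg _) (by positivity)
    have b4 : (a : ℚ) ^ v ≤ a ^ v * a ^ v := le_mul_of_one_le_right (by positivity) (one_le_pow₀ ha1)
    rw [abs_mul, abs_of_pos (a := (a : ℚ) ^ Gr.od a y 0 k) (by positivity), two_mul v, pow_add]
    linarith [hcs k b0.le]

theorem per_follows (a : ℕ) (ha : Odd a) (ha3 : 3 ≤ a) {x : ℤ} (hx : x ∈ periodicPts (T a))
    {s e v : ℕ} (hv : 1 ≤ v) (hvp : v < minimalPeriod (T a) x)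
    (h : ∀ i, s ≤ i → i + v < e → par a x (i + v) = par a x i) :
    ∃ z : ℚ, Follows a x z s e ∧ z.den ≤ a ^ v ∧ ∀ i, |(Tq a)^[i] z| ≤ 2 * (a : ℚ) ^ (2 * v) := by
  obtain ⟨z, h1, h2, h3, h4, h5⟩ := per_point a ha ha3 ((T a)^[s] x) hv
  refine ⟨z, ⟨h1, fun h6 => ?_, fun i => ?_⟩, h2, h5⟩
  · rw [h6, tq_int a ha, Int.cast_inj] at h3
    exact hvp.not_ge
      ((minimalPeriod_apply_iterate hx s).symm.trans_le (IsPeriodicPt.minimalPeriod_le hv h3))
  · induction i using Nat.strong_induction_on with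
    | _ i ih =>
      intro hi
      rcases lt_or_ge i v with h6 | h6
      · rw [h4 i h6, ← par_shift, par]
      · obtain ⟨k, rfl⟩ := Nat.exists_eq_add_of_le' h6
        rw [iterate_add_apply, h3, ih k (by omega) (by omega), ← add_assoc,
          h _ (by omega) (by omega)]

theorem drop_empty (P : ℕ → ℕ → Prop) {t : ℕ → ℕ} (ht : Monotone t) (m : ℕ)
    (h : ∀ j < m, P (t j) (t (j + 1))) : ∃ m' ≤ m, ∃ t' : ℕ → ℕ, t' 0 = t 0 ∧ t' m' = t m ∧
      ∀ j < m', t' j < t' (j + 1) ∧ P (t' j) (t' (j + 1)) := by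
  induction m with
  | zero => exact ⟨0, le_rfl, t, rfl, rfl, fun j hj => absurd hj (by omega)⟩
  | succ m ih =>
    obtain ⟨m', h1, t', h2, h3, h4⟩ := ih fun j hj => h j (by omega)
    rcases (ht (Nat.le_succ m)).eq_or_lt with h5 | h5
    · exact ⟨m', by omega, t', h2, h3.trans h5, h4⟩
    · refine ⟨m' + 1, by omega, fun j => if j ≤ m' then t' j else t (m + 1), by simpa using h2,
        by simp, fun j hj => ?_⟩
      rcases (Nat.lt_succ_iff.1 hj).eq_or_lt with rfl | h6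
      · simp only [le_refl, if_true, Nat.not_succ_le_self, if_false, h3]
        exact ⟨h5, h m (by omega)⟩
      · simp only [h6.le, Nat.succ_le_of_lt h6, if_true]
        exact h4 j h6

theorem pieces (a : ℕ) (ha : Odd a) (ha3 : 3 ≤ a) (H : ∀ ε, 0 < ε → ∃ C, ShSt a ε C)
    (ε : ℝ) (hε : 0 < ε) :
    ∃ C : ℝ, ∀ x ∈ periodicPts (T a), ∀ (m : ℕ) (t : ℕ → ℕ), Monotone t → t 0 = 0 →
      Real.log (minimalPeriod (T a) x) ^ (2 + ε) ≤ t m → t m ≤ minimalPeriod (T a) x →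
      (∀ i, |(x : ℝ)| ≤ Real.exp ((t m : ℝ) ^ (1 - ε)) * |(((T a)^[i] x : ℤ) : ℝ)|) →
      (∀ j < m, PowPiece a x ε (t m) (t j) (t (j + 1))) →
      Real.log (t m) ≤ C * (m : ℝ) ^ (28 / 29 : ℝ) := by
  obtain ⟨e, he⟩ : ∃ e, e = min ε 1 / 2 := ⟨_, rfl⟩
  have he0 : 0 < e := by rw [he]; exact half_pos (lt_min hε one_pos)
  have he1 : 2 * e ≤ 1 := by linarith [min_le_right ε 1]
  have he2 : 2 * e ≤ ε := by linarith [min_le_left ε 1]
  have h3 : (3 : ℝ) ≤ a := by exact_mod_cast ha3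
  obtain ⟨C, hC⟩ := H e he0
  refine ⟨max C ((a + 5) / e), fun x hx m₀ t₀ ht₀ ht0 hl hNp hd hp => ?_⟩
  have hK : 0 ≤ ((a : ℝ) + 5) / e := by positivity
  rcases Nat.eq_zero_or_pos m₀ with rfl | hm₀
  · simp [ht0]
  have hm1 : (1 : ℝ) ≤ (m₀ : ℝ) ^ (28 / 29 : ℝ) :=
    Real.one_le_rpow (by exact_mod_cast hm₀) (by norm_num)
  rcases le_or_gt (Real.log (t₀ m₀)) ((a + 5) / e) with hN | hN
  · exact hN.trans ((le_max_right _ _).trans
      (le_mul_of_one_le_right (hK.trans (le_max_right _ _)) hm1))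
  obtain ⟨m, hmm, t, b1, b2, ht⟩ := drop_empty (PowPiece a x ε (t₀ m₀)) ht₀ m₀ hp
  rw [← b2] at hl hNp hd hN ht ⊢
  replace ht0 := b1.trans ht0
  have hmono : ∀ j k, j + k ≤ m → t j ≤ t (j + k) := fun j k => by
    induction k with
    | zero => exact fun _ => le_rfl
    | succ k ih => exact fun h => (ih (by omega)).trans (ht (j + k) (by omega)).1.le
  refine le_trans (b := C * (m : ℝ) ^ (28 / 29 : ℝ)) ?_ ((mul_le_mul_of_nonneg_right
    (le_max_left _ _) (by positivity)).trans (mul_le_mul_of_nonneg_left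
      (Real.rpow_le_rpow (by positivity) (by exact_mod_cast hmm) (by norm_num))
      (hK.trans (le_max_right _ _))))
  have hL : 2 < Real.log (t m) := by
    refine lt_of_le_of_lt ?_ hN
    rw [le_div_iff₀ he0]
    linarith
  have hN0 : (0 : ℝ) < t m := by
    rcases Nat.eq_zero_or_pos (t m) with h | h
    · rw [h] at hL
      simp at hL
      linarith
    · exact_mod_cast h
  have hN1 : (1 : ℝ) < t m := by linarith [Real.log_le_sub_one_of_pos hN0]
  have hm : 0 < m := Nat.pos_of_ne_zero fun h => by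
    rw [h, ht0] at hN0
    simp at hN0
  obtain ⟨y, hy⟩ : ∃ y, y = (t m : ℝ) ^ (1 - 2 * e) := ⟨_, rfl⟩
  have hy1 : 1 ≤ y := hy ▸ Real.one_le_rpow hN1.le (by linarith)
  have hy2 : (t m : ℝ) ^ (1 - ε) ≤ y := hy ▸ Real.rpow_le_rpow_of_exponent_le hN1.le (by linarith)
  have hy3 : (a + 5) * y ≤ (t m : ℝ) ^ (1 - e) := by
    rw [show 1 - e = e + (1 - 2 * e) by ring, Real.rpow_add hN0, ← hy]
    refine mul_le_mul_of_nonneg_right ?_ (by linarith)
    rw [Real.rpow_def_of_pos hN0]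
    rw [div_lt_iff₀ he0] at hN
    linarith [Real.add_one_le_exp (Real.log (t m) * e)]
  have hy4 : y < t m := by
    rw [hy]
    exact (Real.rpow_lt_rpow_of_exponent_lt hN1 (by linarith)).trans_eq (Real.rpow_one _)
  obtain ⟨W, hW⟩ : ∃ W : ℕ → ℝ, W = fun n : ℕ => Real.exp (a * y + a * n / Real.log (t m)) :=
    ⟨_, rfl⟩
  have hW1 : ∀ n, Real.exp y ≤ W n := fun n => by
    rw [hW]
    have : (0 : ℝ) ≤ a * n / Real.log (t m) := by positivity
    exact Real.exp_le_exp.2 (by nlinarith)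
  have hW2 : ∀ n n', n ≤ n' → W n ≤ W n' := fun n n' h => by
    rw [hW]
    have : (n : ℝ) ≤ n' := by exact_mod_cast h
    refine Real.exp_le_exp.2 ?_
    gcongr
  have hW3 : ∀ n, 5 * W n ≤ bud a e (t m) n := fun n => by
    have c1 : (5 : ℝ) ≤ Real.exp (5 * y) := by linarith [Real.add_one_le_exp (5 * y)]
    rw [hW]
    refine (mul_le_mul_of_nonneg_right c1 (Real.exp_pos _).le).trans ?_
    rw [← Real.exp_add]
    exact Real.exp_le_exp.2 (by linarith)
  have hW4 : ∀ n, 1 ≤ W n := fun n => (Real.one_le_exp (by linarith)).trans (hW1 n)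
  have ha2 : (a : ℝ) ^ 2 ≤ Real.exp a := by
    have c1 := Real.log_le_sub_one_of_pos (show (0 : ℝ) < a / 2 by positivity)
    rw [Real.log_div (by positivity) two_ne_zero] at c1
    rw [← Real.log_le_iff_le_exp (by positivity), Real.log_pow]
    push_cast
    linarith [Real.log_two_lt_d9]
  have hex : ∀ j, ∃ z : ℚ, j < m → Follows a x z (t j) (t (j + 1)) ∧
      (z.den : ℝ) ≤ W (t (j + 1) - t j) ∧
      ∀ i, |(((Tq a)^[i] z : ℚ) : ℝ)| ≤ 2 * W (t (j + 1) - t j) := fun j => by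
    by_cases hj : j < m
    · obtain ⟨v, c1, c2, c3⟩ := (ht j hj).2
      have c4 : t (j + 1) ≤ t m := by
        have := hmono (j + 1) (m - (j + 1)) (by omega)
        rwa [Nat.add_sub_cancel' hj] at this
      have c5 : ((t (j + 1) - t j : ℕ) : ℝ) ≤ t m := by exact_mod_cast (by omega)
      have c0 : (0 : ℝ) ≤ v := Nat.cast_nonneg v
      have c6 : (v : ℝ) < t m := by
        rcases c3 with c3 | c3
        · linarith
        · nlinarith
      have c7 : (a : ℝ) ^ (2 * v) ≤ W (t (j + 1) - t j) := by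
        rw [pow_mul, hW]
        refine (pow_le_pow_left₀ (by positivity) ha2 v).trans ?_
        rw [← Real.exp_nat_mul]
        refine Real.exp_le_exp.2 ?_
        rcases c3 with c3 | c3
        · have : (0 : ℝ) ≤ a * (t (j + 1) - t j : ℕ) / Real.log (t m) := by positivity
          nlinarith
        · rw [← le_div_iff₀ (by linarith)] at c3
          rw [mul_div_assoc]
          nlinarith
      obtain ⟨z, c8, c9, c10⟩ := per_follows a ha ha3 hx c1
        (lt_of_lt_of_le (by exact_mod_cast c6) hNp) c2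
      refine ⟨z, fun _ => ⟨c8, ?_, fun i => ?_⟩⟩
      · have c11 : (z.den : ℝ) ≤ (a : ℝ) ^ v := by exact_mod_cast c9
        exact c11.trans ((pow_le_pow_right₀ (by linarith) (by omega)).trans c7)
      · have c11 : |(((Tq a)^[i] z : ℚ) : ℝ)| ≤ 2 * (a : ℝ) ^ (2 * v) := by exact_mod_cast c10 i
        linarith
    · exact ⟨0, fun h => absurd h hj⟩
  choose z hz using hex
  have hone : ∀ i, (1 : ℝ) ≤ |(((T a)^[i] x : ℤ) : ℝ)| := fun i => by
    have c1 : (T a)^[i] x ≠ 0 := fun h => by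
      have c2 := minimalPeriod_apply_iterate hx i
      rw [h, minimalPeriod_eq_one_iff_isFixedPt.2 (by simp [IsFixedPt, T])] at c2
      have : 1 < t m := by exact_mod_cast hN1
      omega
    exact_mod_cast Int.one_le_abs c1
  refine hC x hx m t z ht0 (fun j hj => (ht j hj).1) ?_ (fun j hj => ⟨(hz j hj).1, ?_⟩)
    (fun i => ?_) fun j hj i => ?_
  · have c1 := Real.log_natCast_nonneg (minimalPeriod (T a) x)
    rcases le_or_gt 1 (Real.log (minimalPeriod (T a) x)) with h | h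
    · exact (Real.rpow_le_rpow_of_exponent_le h (by linarith)).trans hl
    · exact (Real.rpow_le_one c1 h.le (by positivity)).trans hN1.le
  · linarith [(hz j hj).2.1, hW3 (t (j + 1) - t j), hW4 (t (j + 1) - t j)]
  · have c1 := (hz 0 hm).2.2 0
    rw [ht0, iterate_zero, id, zero_add, Nat.sub_zero] at c1
    have c2 := (hd i).trans (mul_le_mul_of_nonneg_right
      ((Real.exp_le_exp.2 hy2).trans (hW1 (t 1))) (abs_nonneg _))
    have c3 := abs_sub (x : ℝ) (z 0)
    have c4 := mul_le_mul_of_nonneg_right (hW3 (t 1)) (zero_le_one.trans (hone i))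
    have c5 := mul_le_mul_of_nonneg_left (hone i) (zero_le_one.trans (hW4 (t 1)))
    linarith [hW4 (t 1)]
  · have c1 := (hz (j + 1) hj).2.2 0
    have c2 := (hz j (by omega)).2.2 (t (j + 1) - t j)
    have c3 := (ht j (by omega)).1
    have c4 := (ht (j + 1) hj).1
    rw [iterate_zero, id] at c1
    rw [show j + 1 + 1 = j + 2 by rfl] at c1 c4
    have c5 := hW2 (t (j + 2) - t (j + 1)) (t (j + 2) - t j) (by omega)
    have c6 := hW2 (t (j + 1) - t j) (t (j + 2) - t j) (by omega)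
    have c7 := hW3 (t (j + 2) - t j)
    have c8 := hW4 (t (j + 2) - t j)
    rw [Rat.cast_sub]
    exact ((abs_sub _ _).trans (show _ ≤ bud a e (t m) (t (j + 2) - t j) by linarith)).trans
      (le_mul_of_one_le_right (by linarith) (hone i))

theorem sh_near {a : ℕ} {x : ℤ} (h : ∀ i, |x| ≤ |(T a)^[i] x|) (u : ℝ) (hu : 0 ≤ u) (i : ℕ) :
    |(x : ℝ)| ≤ Real.exp u * |(((T a)^[i] x : ℤ) : ℝ)| :=
  (show |(x : ℝ)| ≤ _ by exact_mod_cast h i).trans
    (le_mul_of_one_le_left (abs_nonneg _) (Real.one_le_exp hu))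

theorem changes (a : ℕ) (ha : Odd a) (ha3 : 3 ≤ a) (H : ∀ ε, 0 < ε → ∃ C, ShSt a ε C) :
    ∃ C : ℝ, ∀ x ∈ periodicPts (T a), (∀ i, |x| ≤ |(T a)^[i] x|) → ∀ N : ℕ,
      Real.log (minimalPeriod (T a) x) ^ 3 ≤ N → N ≤ minimalPeriod (T a) x →
      Real.log N ≤ C * ((((range N).filter fun i => par a x (i + 1) ≠ par a x i).card + 1 : ℕ) : ℝ) ^
        (28 / 29 : ℝ) := by
  obtain ⟨C, hC⟩ := pieces a ha ha3 H 1 one_pos
  refine ⟨C, fun x hx hmin N h1 h2 => ?_⟩
  obtain ⟨t, ht, ht0, htm, hc⟩ := cov_of_changes (π := par a x) (V := 1) le_rfl N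
    ((range N).filter fun i => par a x (i + 1) ≠ par a x i).card 0 (Nat.zero_le _)
    (card_le_card fun i hi => by
      rw [mem_filter] at hi
      exact mem_filter.2 ⟨mem_range.2 (mem_Ico.1 hi.1).2, hi.2.2⟩)
  have h3 := hC x hx _ t ht ht0 (by
    rw [htm, show (2 + 1 : ℝ) = (3 : ℕ) by norm_num, Real.rpow_natCast]
    exact h1) (htm.trans_le h2) (sh_near hmin _ (by positivity)) fun j hj => ?_
  · rwa [htm] at h3
  · obtain ⟨v, hv, hv1, hper⟩ := hc j hj
    obtain rfl : v = 1 := le_antisymm hv1 hv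
    exact ⟨1, le_rfl, hper, Or.inl (by simp)⟩

theorem maxima (a : ℕ) (ha : Odd a) (ha3 : 3 ≤ a) (H : ∀ ε, 0 < ε → ∃ C, ShSt a ε C) :
    ∃ C : ℝ, ∀ x ∈ periodicPts (T a), Real.log (minimalPeriod (T a) x) ≤
      C * ((2 * descents a x + 1 : ℕ) : ℝ) ^ (28 / 29 : ℝ) := by
  obtain ⟨C, hC⟩ := pieces a ha ha3 H 1 one_pos
  refine ⟨max C 24, fun x hx => ?_⟩
  obtain ⟨x', hx', hp, hmin, t, ht, ht0, htm, hc⟩ := cover_of_descents a hx
  have h0 : (1 : ℝ) ≤ ((2 * descents a x + 1 : ℕ) : ℝ) ^ (28 / 29 : ℝ) :=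
    Real.one_le_rpow (by exact_mod_cast (by omega)) (by norm_num)
  rcases le_or_gt (Real.log (minimalPeriod (T a) x)) 24 with h1 | h1
  · exact h1.trans ((le_max_right _ _).trans
      (le_mul_of_one_le_right (le_trans (by norm_num) (le_max_right _ _)) h0))
  refine le_trans ?_ (mul_le_mul_of_nonneg_right (le_max_left _ _) (by positivity))
  have h2 := hC x' hx' _ t ht ht0 (by
    have b1 : (0 : ℝ) < minimalPeriod (T a) x := by
      exact_mod_cast minimalPeriod_pos_of_mem_periodicPts hx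
    have b2 := Real.pow_div_factorial_le_exp _ (by linarith : 0 ≤ Real.log (minimalPeriod (T a) x)) 4
    rw [Real.exp_log b1] at b2
    rw [htm, hp, show (2 + 1 : ℝ) = (3 : ℕ) by norm_num, Real.rpow_natCast]
    refine le_trans ?_ b2
    generalize Real.log (minimalPeriod (T a) x) = L at h1
    rw [le_div_iff₀ (by positivity), pow_succ L 3]
    exact mul_le_mul_of_nonneg_left (by simpa [Nat.factorial] using h1.le) (by positivity))
    (htm.trans hp.symm).le (sh_near hmin _ (by positivity)) fun j hj => ?_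
  · rwa [htm] at h2
  · obtain ⟨v, hv, hv1, hper⟩ := hc j hj
    obtain rfl : v = 1 := le_antisymm hv1 hv
    exact ⟨1, le_rfl, hper, Or.inl (by simp)⟩

end Pool.Agent.Lib.MP_dee342_nt.Q
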