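import Pool.Agent.Lib.MP_dee342_nt.ShMain
import Pool.Agent.Lib.MP_dee342_nt.CxAff

/-! Two close periodic points have parity words that differ in many places. -/

namespace Pool.Agent.Lib.MP_dee342_nt.Q

open Finset Function

/-- The shadowing bound with constant `C`. -/
def ShSt (a : ℕ) (ε C : ℝ) : Prop :=
  ∀ x ∈ periodicPts (T a), ∀ (m : ℕ) (t : ℕ → ℕ) (z : ℕ → ℚ), t 0 = 0 →
    (∀ j < m, t j < t (j + 1)) → Real.log (minimalPeriod (T a) x) ^ (2 + ε) ≤ t m →
    (∀ j < m, Follows a x (z j) (t j) (t (j + 1)) ∧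
      ((z j).den : ℝ) ≤ bud a ε (t m) (t (j + 1) - t j)) →
    (∀ i, |(x : ℝ) - z 0| ≤ bud a ε (t m) (t 1) * |(((T a)^[i] x : ℤ) : ℝ)|) →
    (∀ j, j + 1 < m → ∀ i, |((z (j + 1) - (Tq a)^[t (j + 1) - t j] (z j) : ℚ) : ℝ)| ≤
      bud a ε (t m) (t (j + 2) - t j) * |(((T a)^[i] x : ℤ) : ℝ)|) →
    Real.log (t m) ≤ C * (m : ℝ) ^ (28 / 29 : ℝ)

theorem tq_int (a : ℕ) (ha : Odd a) (y : ℤ) (n : ℕ) :
    (Tq a)^[n] (y : ℚ) = (((T a)^[n] y : ℤ) : ℚ) := by
  have ha' : Odd (a : ℤ) := by exact_mod_cast ha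
  induction n with
  | zero => rfl
  | succ n ih =>
    rw [iterate_succ_apply', iterate_succ_apply', ih]
    generalize (T a)^[n] y = w
    rw [Tq, Rat.num_intCast]
    split_ifs with h
    · have h2 : (2 : ℚ) * T a w = w := by exact_mod_cast two_mul_T_even h
      linarith
    · have h2 : (2 : ℚ) * T a w = ((a : ℤ) : ℚ) * w + 1 := by exact_mod_cast two_mul_T_odd ha' h
      linarith

theorem par_of_dvd (a : ℕ) (ha : Odd a) (n : ℕ) : ∀ y z : ℤ, (2 : ℤ) ^ n ∣ z - y →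
    ∀ i < n, (T a)^[i] z % 2 = (T a)^[i] y % 2 := by
  have ha' : Odd (a : ℤ) := by exact_mod_cast ha
  induction n with
  | zero => intro _ _ _ i hi; omega
  | succ n ih =>
    rintro y z ⟨c, hc⟩ i hi
    rw [pow_succ', mul_assoc] at hc
    rcases i with _ | i
    · simp only [iterate_zero, id]
      omega
    · rw [iterate_succ_apply, iterate_succ_apply]
      refine ih _ _ ?_ i (by omega)
      by_cases h : y % 2 = 0
      · have h1 := two_mul_T_even (a := a) h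
        have h2 := two_mul_T_even (a := a) (x := z) (by omega)
        exact ⟨c, by linarith⟩
      · have h1 := two_mul_T_odd ha' h
        have h2 := two_mul_T_odd ha' (x := z) (by omega)
        exact ⟨a * c, mul_left_cancel₀ two_ne_zero (by linear_combination h2 - h1 + a * hc)⟩

/-- An integer that follows `x` on a balanced window and stays close to the orbit of `x'`. -/
theorem sh_window (a : ℕ) (ha : Odd a) (ha3 : 3 ≤ a) (x x' : ℤ) (s n : ℕ)
    (h : Gr.od a x s n = Gr.od a x' s n) : ∃ z : ℤ, Follows a x z s (s + n) ∧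
      |z - (T a)^[s] x'| ≤ 2 * (a : ℤ) ^ n ∧ |(T a)^[n] z - (T a)^[s + n] x'| ≤ 3 * (a : ℤ) ^ n := by
  have h3 : (3 : ℤ) ≤ a := by exact_mod_cast ha3
  have hp : (0 : ℤ) < 2 ^ n := by positivity
  obtain ⟨z, h1, h2, h4⟩ : ∃ z : ℤ, z ≠ (T a)^[s] x ∧ (2 : ℤ) ^ n ∣ z - (T a)^[s] x ∧
      |z - (T a)^[s] x'| ≤ 2 * 2 ^ n := by
    generalize (T a)^[s] x = y
    generalize (T a)^[s] x' = y'
    have b1 := Int.emod_nonneg (y - y') hp.ne'
    have b2 := Int.emod_lt_of_pos (y - y') hp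
    have b3 := Int.mul_ediv_add_emod (y - y') (2 ^ n)
    by_cases hc : y' + (y - y') % 2 ^ n = y
    · exact ⟨y + 2 ^ n, by omega, by simp, abs_le.2 ⟨by omega, by omega⟩⟩
    · exact ⟨_, hc, ⟨-((y - y') / 2 ^ n), by linarith⟩, abs_le.2 ⟨by omega, by omega⟩⟩
  have h5 : ∀ i < n, par a z (0 + i) = par a x (s + i) := fun i hi => by
    rw [zero_add, ← par_shift]
    exact par_of_dvd a ha n _ _ h2 i hi
  have h6 : Gr.od a z 0 n = Gr.od a x' s n := by
    rw [← h]
    exact congrArg card (filter_congr fun i hi => by rw [h5 i (mem_range.1 hi)])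
  have h7 : (2 : ℤ) ^ n ≤ a ^ n := pow_le_pow_left₀ (by norm_num) (by omega) n
  refine ⟨z, ⟨by simp, by exact_mod_cast h1, fun i hi => ?_⟩, by linarith, ?_⟩
  · rw [tq_int a ha, Rat.num_intCast, ← h5 i (by omega), zero_add, par]
  · obtain ⟨b1, -, b2⟩ := Gr.cs_bound ha ha3 z 0 n
    obtain ⟨b3, -, b4⟩ := Gr.cs_bound ha ha3 x' s n
    rw [Gr.cs, h6, zero_add, iterate_zero, id] at b1 b2
    rw [Gr.cs] at b3 b4
    have b5 : (a : ℤ) ^ Gr.od a x' s n ≤ a ^ n := pow_le_pow_right₀ (by omega) (Gr.od_le _ _ _ _)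
    have b6 : (0 : ℤ) ≤ a ^ Gr.od a x' s n := by positivity
    have b7 : |(a : ℤ) ^ Gr.od a x' s n * (z - (T a)^[s] x')| ≤ a ^ n * (2 * 2 ^ n) := by
      rw [abs_mul, abs_of_nonneg b6]
      exact mul_le_mul b5 h4 (abs_nonneg _) (by positivity)
    have b8 : (a : ℤ) ^ n ≤ a ^ n * 2 ^ n := le_mul_of_one_le_right (by positivity) (by omega)
    obtain ⟨b9, b10⟩ := abs_le.1 b7
    refine le_of_mul_le_mul_left ?_ hp
    rw [← abs_of_pos hp, ← abs_mul, abs_of_pos hp]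
    exact abs_le.2 ⟨by linarith, by linarith⟩

theorem two_points (a : ℕ) (ha : Odd a) (ha3 : 3 ≤ a) (H : ∀ ε, 0 < ε → ∃ C, ShSt a ε C)
    (ε : ℝ) (hε : 0 < ε) :
    ∃ C : ℝ, ∀ x ∈ periodicPts (T a), ∀ x' ∈ periodicPts (T a), x ≠ x' →
      ∀ (m : ℕ) (t : ℕ → ℕ), t 0 = 0 → (∀ j < m, t j < t (j + 1)) →
      Real.log (minimalPeriod (T a) x) ^ (2 + ε) ≤ t m →
      (∀ i, |(x : ℝ) - x'| ≤ Real.exp ((t m : ℝ) ^ (1 - ε)) * |(((T a)^[i] x : ℤ) : ℝ)|) →
      (∀ j < m, (∀ i, t j ≤ i → i < t (j + 1) → par a x i = par a x' i) ∨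
        ((t (j + 1) - t j : ℕ) : ℝ) ≤ (t m : ℝ) ^ (1 - ε) ∧
          Gr.od a x (t j) (t (j + 1) - t j) = Gr.od a x' (t j) (t (j + 1) - t j)) →
      Real.log (t m) ≤ C * (m : ℝ) ^ (28 / 29 : ℝ) := by
  obtain ⟨e, he⟩ : ∃ e, e = min ε 1 / 2 := ⟨_, rfl⟩
  have he0 : 0 < e := by rw [he]; exact half_pos (lt_min hε one_pos)
  have he1 : 2 * e ≤ 1 := by linarith [min_le_right ε 1]
  have he2 : 2 * e ≤ ε := by linarith [min_le_left ε 1]
  have h3 : (3 : ℝ) ≤ a := by exact_mod_cast ha3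
  obtain ⟨C, hC⟩ := H e he0
  refine ⟨max C ((a + 5) / e), fun x hx x' hx' hne m t ht0 ht hl hd hp => ?_⟩
  have hK : 0 ≤ ((a : ℝ) + 5) / e := by positivity
  rcases Nat.eq_zero_or_pos m with rfl | hm
  · simp [ht0]
  have hm1 : (1 : ℝ) ≤ (m : ℝ) ^ (28 / 29 : ℝ) :=
    Real.one_le_rpow (by exact_mod_cast hm) (by norm_num)
  rcases le_or_gt (Real.log (t m)) ((a + 5) / e) with hN | hN
  · exact hN.trans ((le_max_right _ _).trans
      (le_mul_of_one_le_right (hK.trans (le_max_right _ _)) hm1))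
  refine le_trans ?_ (mul_le_mul_of_nonneg_right (le_max_left _ _) (by positivity))
  have hN0 : (0 : ℝ) < t m := by
    rcases Nat.eq_zero_or_pos (t m) with h | h
    · rw [h] at hN
      simp at hN
      linarith
    · exact_mod_cast h
  have hN1 : (1 : ℝ) ≤ t m := by exact_mod_cast (show 0 < t m by exact_mod_cast hN0)
  obtain ⟨y, hy⟩ : ∃ y, y = (t m : ℝ) ^ (1 - 2 * e) := ⟨_, rfl⟩
  have hy1 : 1 ≤ y := hy ▸ Real.one_le_rpow hN1 (by linarith)
  have hy2 : (t m : ℝ) ^ (1 - ε) ≤ y := hy ▸ Real.rpow_le_rpow_of_exponent_le hN1 (by linarith)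
  have hy3 : (a + 5) * y ≤ (t m : ℝ) ^ (1 - e) := by
    rw [show 1 - e = e + (1 - 2 * e) by ring, Real.rpow_add hN0, ← hy]
    refine mul_le_mul_of_nonneg_right ?_ (by linarith)
    rw [Real.rpow_def_of_pos hN0]
    rw [div_lt_iff₀ he0] at hN
    linarith [Real.add_one_le_exp (Real.log (t m) * e)]
  have hbud : ∀ n : ℕ, Real.exp ((a + 5) * y) ≤ bud a e (t m) n := fun n => by
    have := Real.log_nonneg hN1
    exact Real.exp_le_exp.2 (hy3.trans (le_add_of_nonneg_right (by positivity)))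
  have hpow : ∀ n : ℕ, (n : ℝ) ≤ y → (a : ℝ) ^ n ≤ Real.exp (a * y) := fun n hn => by
    have b1 : (a : ℝ) ≤ Real.exp a := by linarith [Real.add_one_le_exp (a : ℝ)]
    refine (pow_le_pow_left₀ (by positivity) b1 n).trans ?_
    rw [← Real.exp_nat_mul]
    exact Real.exp_le_exp.2 (by nlinarith)
  have hW : 1 ≤ Real.exp (a * y) := Real.one_le_exp (by positivity)
  have hinj : ∀ i, (T a)^[i] x' ≠ (T a)^[i] x := fun i h =>
    hne ((bijOn_periodicPts (f := T a)).injOn.iterate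
      (bijOn_periodicPts (f := T a)).mapsTo i hx' hx h).symm
  have hex : ∀ j, ∃ z : ℤ, j < m → Follows a x z (t j) (t (j + 1)) ∧
      |((z - (T a)^[t j] x' : ℤ) : ℝ)| ≤ 2 * Real.exp (a * y) ∧
      |(((T a)^[t (j + 1) - t j] z - (T a)^[t (j + 1)] x' : ℤ) : ℝ)| ≤ 3 * Real.exp (a * y) :=
    fun j => by
    by_cases hj : j < m
    · have b0 := Nat.add_sub_cancel' (ht j hj).le
      rcases hp j hj with h | ⟨h, h'⟩
      · refine ⟨(T a)^[t j] x', fun _ => ⟨⟨by simp, by exact_mod_cast hinj _, fun i hi => ?_⟩,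
          by simp; linarith, ?_⟩⟩
        · rw [tq_int a ha, Rat.num_intCast, h _ (by omega) hi, ← par_shift, par]
        · rw [← iterate_add_apply, add_comm, b0]
          simp
          linarith
      · obtain ⟨z, b1, b2, b3⟩ := sh_window a ha ha3 x x' _ _ h'
        rw [b0] at b1 b3
        have b4 := hpow _ (h.trans hy2)
        have b5 : |((z - (T a)^[t j] x' : ℤ) : ℝ)| ≤ 2 * (a : ℝ) ^ (t (j + 1) - t j) := by
          exact_mod_cast b2
        have b6 : |(((T a)^[t (j + 1) - t j] z - (T a)^[t (j + 1)] x' : ℤ) : ℝ)| ≤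
          3 * (a : ℝ) ^ (t (j + 1) - t j) := by exact_mod_cast b3
        exact ⟨z, fun _ => ⟨b1, by linarith, by linarith⟩⟩
    · exact ⟨0, fun h => absurd h hj⟩
  choose z hz using hex
  have hone : ∀ i, (1 : ℝ) ≤ |(((T a)^[i] x : ℤ) : ℝ)| := fun i => by
    have b1 : (T a)^[i] x ≠ 0 := fun h => by
      have b2 := hd i
      rw [h, Int.cast_zero, abs_zero, mul_zero, abs_nonpos_iff, sub_eq_zero] at b2
      exact hne (by exact_mod_cast b2)
    exact_mod_cast Int.one_le_abs b1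
  have h5 : 5 * Real.exp (a * y) ≤ Real.exp ((a + 5) * y) := by
    rw [add_mul, Real.exp_add, mul_comm]
    refine mul_le_mul_of_nonneg_left ?_ (by positivity)
    linarith [Real.add_one_le_exp (5 * y)]
  refine hC x hx m t (fun j => z j) ht0 ht ?_ (fun j hj => ⟨(hz j hj).1, ?_⟩) (fun i => ?_)
    fun j hj i => ?_
  · have b1 := Real.log_natCast_nonneg (minimalPeriod (T a) x)
    rcases le_or_gt 1 (Real.log (minimalPeriod (T a) x)) with h | h
    · exact (Real.rpow_le_rpow_of_exponent_le h (by linarith)).trans hl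
    · exact (Real.rpow_le_one b1 h.le (by positivity)).trans hN1
  · rw [Rat.den_intCast, Nat.cast_one]
    exact (Real.one_le_exp (by positivity)).trans (hbud _)
  · have b1 := (hz 0 hm).2.1
    rw [ht0, iterate_zero, id, Int.cast_sub] at b1
    have b2 := (hd i).trans (mul_le_mul_of_nonneg_right (Real.exp_le_exp.2
      (hy2.trans (le_mul_of_one_le_left (by linarith) (by linarith : (1 : ℝ) ≤ a)))) (abs_nonneg _))
    have b3 := abs_sub_le (x : ℝ) x' (z 0)
    rw [abs_sub_comm (x' : ℝ)] at b3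
    have b4 := mul_le_mul_of_nonneg_right (h5.trans (hbud (t 1))) (zero_le_one.trans (hone i))
    have b5 := mul_le_mul_of_nonneg_left (hone i) (zero_le_one.trans hW)
    rw [Rat.cast_intCast]
    nlinarith
  · have b1 := (hz (j + 1) hj).2.1
    have b2 := (hz j (by omega)).2.2
    rw [tq_int a ha, ← Int.cast_sub, Rat.cast_intCast]
    rw [Int.cast_sub] at b1 b2 ⊢
    have b3 := abs_sub_le (z (j + 1) : ℝ) ((T a)^[t (j + 1)] x' : ℤ)
      ((T a)^[t (j + 1) - t j] (z j) : ℤ)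
    rw [abs_sub_comm (((T a)^[t (j + 1)] x' : ℤ) : ℝ)] at b3
    have b4 := h5.trans (hbud (t (j + 2) - t j))
    exact (show _ ≤ bud a e (t m) (t (j + 2) - t j) by linarith).trans
      (le_mul_of_one_le_right (by linarith) (hone i))

end Pool.Agent.Lib.MP_dee342_nt.Q
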